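import Mathlib

set_option autoImplicit false

namespace Pool.Agent.Helper283.ThV

/-- Cantor space -/
abbrev C := ℕ → Bool

/-- putting a finite word in front -/
def app (w : List Bool) (y : C) : C := fun i => if h : i < w.length then w[i] else y (i - w.length)

/-- the shift -/
def sh (n : ℕ) (y : C) : C := fun i => y (i + n)

/-- the first `n` letters -/
def tk (n : ℕ) (x : C) : List Bool := List.ofFn (fun i : Fin n => x i)

/-- cylinder of depth `n` around `x` -/
def Cyl (x : C) (n : ℕ) : Set C := {y | ∀ i < n, y i = x i}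

/-- `f` is a word replacement near `x` -/
def LocAt (f : C → C) (x : C) : Prop := ∃ (n : ℕ) (v : List Bool), ∀ y ∈ Cyl x n, f y = app v (sh n y)

def Loc (f : C → C) : Prop := ∀ x, LocAt f x

/-- locally constant membership (clopen sets) -/
def LC (A : Set C) : Prop := ∀ x, ∃ n, ∀ y ∈ Cyl x n, (y ∈ A ↔ x ∈ A)

theorem app_nil (y : C) : app [] y = y := by
  funext i; simp [app]

theorem sh_zero (y : C) : sh 0 y = y := rfl

theorem app_lt {w : List Bool} {i : ℕ} (h : i < w.length) (y : C) : app w y i = w[i] := by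
  simp [app, h]

theorem app_ge {w : List Bool} {i : ℕ} (h : w.length ≤ i) (y : C) :
    app w y i = y (i - w.length) := by
  simp [app, not_lt.2 h]

theorem app_add (w : List Bool) (i : ℕ) (y : C) : app w y (i + w.length) = y i := by
  rw [app_ge (by omega)]; congr 1; omega

theorem sh_app (w : List Bool) (y : C) : sh w.length (app w y) = y := by
  funext i; simp only [sh]; exact app_add w i y

theorem sh_sh (m n : ℕ) (y : C) : sh m (sh n y) = sh (m + n) y := by
  funext i; simp only [sh]; congr 1; omega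

theorem app_app (u v : List Bool) (y : C) : app (u ++ v) y = app u (app v y) := by
  funext i
  by_cases h1 : i < u.length
  · rw [app_lt (by simp; omega), app_lt h1, List.getElem_append_left h1]
  · push Not at h1
    rw [app_ge h1]
    by_cases h2 : i < (u ++ v).length
    · have h3 : i - u.length < v.length := by simp at h2; omega
      rw [app_lt h2, app_lt h3, List.getElem_append_right h1]
    · push Not at h2
      have h3 : v.length ≤ i - u.length := by simp at h2; omega
      rw [app_ge h2, app_ge h3]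
      congr 1; simp; omega

theorem app_inj (w : List Bool) {y z : C} (h : app w y = app w z) : y = z := by
  rw [← sh_app w y, h, sh_app]

theorem length_tk (n : ℕ) (x : C) : (tk n x).length = n := by simp [tk]

theorem getElem_tk (n : ℕ) (x : C) (i : ℕ) (h : i < (tk n x).length) : (tk n x)[i] = x i := by
  simp [tk]

theorem app_tk_sh (n : ℕ) (x : C) : app (tk n x) (sh n x) = x := by
  funext i
  by_cases h : i < n
  · rw [app_lt (by rw [length_tk]; exact h), getElem_tk]
  · push Not at h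
    rw [app_ge (by rw [length_tk]; exact h), length_tk]
    simp only [sh]; congr 1; omega

theorem mem_Cyl_self (x : C) (n : ℕ) : x ∈ Cyl x n := fun _ _ => rfl

theorem Cyl_mono {x : C} {m n : ℕ} (h : m ≤ n) : Cyl x n ⊆ Cyl x m :=
  fun _ hy i hi => hy i (lt_of_lt_of_le hi h)

theorem Cyl_eq {x y : C} {n : ℕ} (h : y ∈ Cyl x n) : Cyl y n = Cyl x n := by
  ext z; constructor
  · intro hz i hi; rw [hz i hi, h i hi]
  · intro hz i hi; rw [hz i hi, h i hi]

theorem tk_eq {x y : C} {n : ℕ} (h : y ∈ Cyl x n) : tk n y = tk n x := by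
  simp only [tk]; congr 1; funext i; exact h i i.2

theorem mem_Cyl_iff {x y : C} {n : ℕ} : y ∈ Cyl x n ↔ ∃ z, y = app (tk n x) z := by
  constructor
  · intro h; exact ⟨sh n y, by rw [← tk_eq h, app_tk_sh]⟩
  · rintro ⟨z, rfl⟩ i hi
    rw [app_lt (by rw [length_tk]; exact hi), getElem_tk]

theorem app_mem_Cyl (w : List Bool) (x y : C) : app w y ∈ Cyl (app w x) w.length := by
  intro i hi; rw [app_lt hi, app_lt hi]

theorem mem_Cyl_app {w : List Bool} {x y : C} : y ∈ Cyl (app w x) w.length ↔ ∃ z, y = app w z := by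
  constructor
  · intro h
    refine ⟨sh w.length y, ?_⟩
    funext i
    by_cases hi : i < w.length
    · rw [app_lt hi, h i hi, app_lt hi]
    · push Not at hi
      rw [app_ge hi]; simp only [sh]; congr 1; omega
  · rintro ⟨z, rfl⟩; exact app_mem_Cyl w x z

/-- if `y ∈ Cyl x (n+k)` then `sh n y = app (letters n..n+k of x) (sh (n+k) y)` -/
theorem sh_of_mem {x y : C} {n k : ℕ} (h : y ∈ Cyl x (n + k)) :
    sh n y = app (tk k (sh n x)) (sh (n + k) y) := by
  have h1 : sh n y ∈ Cyl (sh n x) k := by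
    intro i hi; simp only [sh]; exact h _ (by omega)
  have h2 := app_tk_sh k (sh n y)
  rw [tk_eq h1, sh_sh, add_comm k n] at h2
  exact h2.symm

theorem LocAt.deeper {f : C → C} {x : C} {n : ℕ} {v : List Bool}
    (h : ∀ y ∈ Cyl x n, f y = app v (sh n y)) (k : ℕ) :
    ∀ y ∈ Cyl x (n + k), f y = app (v ++ tk k (sh n x)) (sh (n + k) y) := by
  intro y hy
  rw [h y (Cyl_mono (by omega) hy), app_app, sh_of_mem hy]

theorem LocAt.comp {f h : C → C} {x : C} (hf : LocAt f x) (hh : LocAt h (f x)) :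
    LocAt (fun y => h (f y)) x := by
  obtain ⟨n, v, hf⟩ := hf
  obtain ⟨m, w, hh⟩ := hh
  have hd := LocAt.deeper hf m
  set v' := v ++ tk m (sh n x) with hv'
  have hlen : m ≤ v'.length := by rw [hv', List.length_append, length_tk]; omega
  refine ⟨n + m, w ++ v'.drop m, fun y hy => ?_⟩
  have hx := hd x (mem_Cyl_self _ _)
  show h (f y) = _
  rw [hd y hy]
  have hmem : app v' (sh (n + m) y) ∈ Cyl (f x) m := by
    rw [hx]; intro i hi
    rw [app_lt (by omega), app_lt (by omega)]
  rw [hh _ hmem]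
  have hl : (v'.take m).length = m := by simp [hlen]
  have h3 := sh_app (v'.take m) (app (v'.drop m) (sh (n + m) y))
  rw [hl, ← app_app, List.take_append_drop] at h3
  rw [h3, app_app]

theorem LocAt.congr {f g : C → C} {x : C} (hf : LocAt f x) (n : ℕ) (h : ∀ y ∈ Cyl x n, f y = g y) :
    LocAt g x := by
  obtain ⟨m, v, hv⟩ := hf
  refine ⟨m + n, v ++ tk n (sh m x), fun y hy => ?_⟩
  rw [← h y (Cyl_mono (by omega) hy)]
  exact LocAt.deeper hv n y hy

theorem LocAt_id (x : C) : LocAt (fun y => y) x := ⟨0, [], fun y _ => by rw [app_nil, sh_zero]⟩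

theorem LocAt_app (w : List Bool) (x : C) : LocAt (app w) x := ⟨0, w, fun y _ => by rw [sh_zero]⟩

theorem LocAt_sh (n : ℕ) (x : C) : LocAt (sh n) x := ⟨n, [], fun y _ => by rw [app_nil]⟩

/-- a left inverse of a local word replacement is one -/
theorem LocAt.linv {f h : C → C} {x : C} (hf : LocAt f x) (hh : ∀ y, h (f y) = y) :
    LocAt h (f x) := by
  obtain ⟨n, v, hf⟩ := hf
  refine ⟨v.length, tk n x, fun z hz => ?_⟩
  have hx := hf x (mem_Cyl_self _ _)
  rw [hx] at hz
  obtain ⟨t, rfl⟩ := mem_Cyl_app.1 hz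
  rw [sh_app]
  have h1 : f (app (tk n x) t) = app v t := by
    rw [hf _ (mem_Cyl_iff.2 ⟨t, rfl⟩)]
    have := sh_app (tk n x) t
    rw [length_tk] at this
    rw [this]
  rw [← h1, hh]

/-! ### The group `V` -/

/-- Thompson's group `V` (local description) -/
def V : Subgroup (Equiv.Perm C) where
  carrier := {e | Loc e}
  mul_mem' := fun {a b} ha hb x => by
    have := LocAt.comp (f := b) (h := a) (hb x) (ha (b x))
    exact this
  one_mem' := fun x => LocAt_id x
  inv_mem' := fun {a} ha x => by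
    have := LocAt.linv (h := (a⁻¹ : Equiv.Perm C)) (ha (a⁻¹ x)) (fun y => by simp)
    simpa using this

theorem mem_V {e : Equiv.Perm C} : e ∈ V ↔ Loc e := Iff.rfl

theorem exists_perm {f : C → C} (hb : Function.Bijective f) (hf : Loc f) :
    ∃ e ∈ V, ∀ x, e x = f x :=
  ⟨Equiv.ofBijective f hb, hf, fun _ => rfl⟩

/-! ### clopen sets -/

theorem LC_univ : LC Set.univ := fun _ => ⟨0, fun _ _ => by simp⟩
theorem LC_empty : LC ∅ := fun _ => ⟨0, fun _ _ => by simp⟩

theorem LC.compl {A : Set C} (h : LC A) : LC Aᶜ := fun x => by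
  obtain ⟨n, hn⟩ := h x
  exact ⟨n, fun y hy => not_congr (hn y hy)⟩

theorem LC.inter {A B : Set C} (hA : LC A) (hB : LC B) : LC (A ∩ B) := fun x => by
  obtain ⟨n, hn⟩ := hA x
  obtain ⟨m, hm⟩ := hB x
  exact ⟨max n m, fun y hy => and_congr (hn y (Cyl_mono (le_max_left _ _) hy))
    (hm y (Cyl_mono (le_max_right _ _) hy))⟩

theorem LC.union {A B : Set C} (hA : LC A) (hB : LC B) : LC (A ∪ B) := fun x => by
  obtain ⟨n, hn⟩ := hA x
  obtain ⟨m, hm⟩ := hB x
  exact ⟨max n m, fun y hy => or_congr (hn y (Cyl_mono (le_max_left _ _) hy))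
    (hm y (Cyl_mono (le_max_right _ _) hy))⟩

theorem LC.diff {A B : Set C} (hA : LC A) (hB : LC B) : LC (A \ B) := hA.inter hB.compl

theorem LC_Cyl (x : C) (n : ℕ) : LC (Cyl x n) := fun y => ⟨n, fun z hz => by
  constructor
  · intro h i hi; rw [← hz i hi, h i hi]
  · intro h i hi; rw [hz i hi, h i hi]⟩

/-- the cylinder of a word -/
def cy (w : List Bool) : Set C := Set.range (app w)

theorem LC_cy (w : List Bool) : LC (cy w) := by
  have : cy w = Cyl (app w (fun _ => false)) w.length := by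
    ext y; rw [mem_Cyl_app]; constructor
    · rintro ⟨z, rfl⟩; exact ⟨z, rfl⟩
    · rintro ⟨z, rfl⟩; exact ⟨z, rfl⟩
  rw [this]; exact LC_Cyl _ _

/-- local word replacements are continuous -/
theorem LocAt.cont {f : C → C} {x : C} (hf : LocAt f x) (m : ℕ) :
    ∃ n, ∀ y ∈ Cyl x n, f y ∈ Cyl (f x) m := by
  obtain ⟨n, v, hf⟩ := hf
  have hd := LocAt.deeper hf m
  refine ⟨n + m, fun y hy => ?_⟩
  rw [hd y hy, hd x (mem_Cyl_self _ _)]
  intro i hi
  have : i < (v ++ tk m (sh n x)).length := by rw [List.length_append, length_tk]; omega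
  rw [app_lt this, app_lt this]

theorem LC.preimage {A : Set C} (hA : LC A) {f : C → C} (hf : Loc f) : LC (f ⁻¹' A) := fun x => by
  obtain ⟨m, hm⟩ := hA (f x)
  obtain ⟨n, hn⟩ := (hf x).cont m
  exact ⟨n, fun y hy => hm _ (hn y hy)⟩

theorem LC.image {A : Set C} (hA : LC A) {e : Equiv.Perm C} (he : e ∈ V) : LC (e '' A) := by
  have : e '' A = (e⁻¹ : Equiv.Perm C) ⁻¹' A := by
    ext x; constructor
    · rintro ⟨y, hy, rfl⟩; simpa using hy
    · intro h; exact ⟨e⁻¹ x, h, by simp⟩
  rw [this]; exact hA.preimage (V.inv_mem he)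

open Classical in
theorem LocAt_ite {A : Set C} (hA : LC A) {f g : C → C} (x : C) (hf : x ∈ A → LocAt f x)
    (hg : x ∉ A → LocAt g x) : LocAt (fun y => if y ∈ A then f y else g y) x := by
  obtain ⟨n, hn⟩ := hA x
  by_cases h : x ∈ A
  · exact (hf h).congr n (fun y hy => by simp [(hn y hy).2 h])
  · exact (hg h).congr n (fun y hy => by simp [mt (hn y hy).1 h])

/-- compactness: a local depth property is uniform -/
theorem uniform_of_local (P : C → ℕ → Prop)
    (h : ∀ x, ∃ n, ∀ y ∈ Cyl x n, ∀ m, n ≤ m → P y m) : ∃ n, ∀ x, P x n := by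
  classical
  choose N hN using h
  have hopen : ∀ x, IsOpen (Cyl x (N x)) := by
    intro x
    have : Cyl x (N x) = ⋂ i ∈ Finset.range (N x), {y : C | y i = x i} := by
      ext y; simp [Cyl]
    rw [this]
    refine isOpen_biInter_finset (fun i _ => ?_)
    have h1 : IsOpen ((fun y : C => y i) ⁻¹' {x i}) :=
      (isOpen_discrete ({x i} : Set Bool)).preimage (continuous_apply i)
    exact h1
  obtain ⟨t, ht⟩ := isCompact_univ.elim_finite_subcover (fun x : C => Cyl x (N x)) hopen
    (fun x _ => Set.mem_iUnion.2 ⟨x, mem_Cyl_self _ _⟩)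
  refine ⟨t.sup N, fun x => ?_⟩
  obtain ⟨z, hz⟩ := Set.mem_iUnion.1 (ht (Set.mem_univ x))
  obtain ⟨hzt, hxz⟩ := Set.mem_iUnion.1 hz
  exact hN z x hxz _ (Finset.le_sup (f := N) hzt)

/-- uniform depth for a clopen set -/
theorem LC.uniform {A : Set C} (hA : LC A) : ∃ n, ∀ x, ∀ y ∈ Cyl x n, (y ∈ A ↔ x ∈ A) := by
  refine uniform_of_local (fun x n => ∀ y ∈ Cyl x n, (y ∈ A ↔ x ∈ A)) (fun x => ?_)
  obtain ⟨n, hn⟩ := hA x
  refine ⟨n, fun y hy m hm z hz => ?_⟩
  have hz' : z ∈ Cyl x n := by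
    intro i hi; rw [hz i (by omega), hy i hi]
  rw [hn z hz', hn y hy]

/-- uniform depth for a local word replacement -/
theorem Loc.uniform {f : C → C} (hf : Loc f) :
    ∃ n, ∀ x, ∃ v : List Bool, ∀ y ∈ Cyl x n, f y = app v (sh n y) := by
  refine uniform_of_local (fun x n => ∃ v : List Bool, ∀ y ∈ Cyl x n, f y = app v (sh n y))
    (fun x => ?_)
  obtain ⟨n, v, hn⟩ := hf x
  refine ⟨n, fun y hy m hm => ?_⟩
  obtain ⟨k, rfl⟩ := Nat.exists_eq_add_of_le hm
  have h1 : ∀ z ∈ Cyl y n, f z = app v (sh n z) := by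
    intro z hz; rw [Cyl_eq hy] at hz; exact hn z hz
  exact ⟨_, LocAt.deeper h1 k⟩

end Pool.Agent.Helper283.ThV
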