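import Mathlib
import Pool.Agent.Helper283.ThV.Base

set_option autoImplicit false
set_option linter.unusedVariables false

namespace Pool.Agent.Helper283.ThV

/-! #### part pc -/


/-- `f` maps the clopen set `A` onto the clopen set `B` bijectively by local word replacements -/
def Pc (f : C → C) (A B : Set C) : Prop :=
  LC A ∧ LC B ∧ (∀ x ∈ A, LocAt f x) ∧ Set.BijOn f A B

theorem Pc.union {f f' : C → C} {A A' B B' : Set C} (h : Pc f A B) (h' : Pc f' A' B')
    (hA : Disjoint A A') (hB : Disjoint B B') :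
    ∃ F : C → C, Pc F (A ∪ A') (B ∪ B') ∧ (∀ x ∈ A, F x = f x) ∧ (∀ x ∈ A', F x = f' x) := by
  classical
  obtain ⟨hA1, hB1, hl, hb⟩ := h
  obtain ⟨hA1', hB1', hl', hb'⟩ := h'
  have e1 : ∀ x ∈ A, (if x ∈ A then f x else f' x) = f x := fun x hx => if_pos hx
  have e2 : ∀ x ∈ A', (if x ∈ A then f x else f' x) = f' x := fun x hx =>
    if_neg (fun hx' => Set.disjoint_left.1 hA hx' hx)
  refine ⟨fun x => if x ∈ A then f x else f' x, ⟨hA1.union hA1', hB1.union hB1', ?_, ?_⟩, e1, e2⟩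
  · intro x hx
    refine LocAt_ite hA1 x (fun hxA => hl x hxA) (fun hxA => ?_)
    rcases hx with hx | hx
    · exact absurd hx hxA
    · exact hl' x hx
  · have b1 : Set.BijOn (fun x => if x ∈ A then f x else f' x) A B :=
      hb.congr (fun x hx => (e1 x hx).symm)
    have b2 : Set.BijOn (fun x => if x ∈ A then f x else f' x) A' B' :=
      hb'.congr (fun x hx => (e2 x hx).symm)
    refine b1.union b2 ?_
    rintro x hx y hy hxy
    rcases hx with hx | hx <;> rcases hy with hy | hy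
    · exact b1.injOn hx hy hxy
    · exfalso
      have q1 := b1.mapsTo hx
      have q2 := b2.mapsTo hy
      simp only at hxy q1 q2
      rw [hxy] at q1
      exact Set.disjoint_left.1 hB q1 q2
    · exfalso
      have q1 := b2.mapsTo hx
      have q2 := b1.mapsTo hy
      simp only at hxy q1 q2
      rw [← hxy] at q2
      exact Set.disjoint_left.1 hB q2 q1
    · exact b2.injOn hx hy hxy

theorem Pc.toV {f : C → C} (h : Pc f Set.univ Set.univ) : ∃ e ∈ V, ∀ x, e x = f x := by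
  obtain ⟨_, _, hl, hb⟩ := h
  exact exists_perm (Set.bijOn_univ.1 hb) (fun x => hl x (Set.mem_univ x))

theorem Pc.congr {f f' : C → C} {A B : Set C} (h : Pc f A B) (he : ∀ x ∈ A, f x = f' x) :
    Pc f' A B := by
  obtain ⟨hA, hB, hl, hb⟩ := h
  refine ⟨hA, hB, fun x hx => ?_, hb.congr he⟩
  obtain ⟨n, hn⟩ := hA x
  exact (hl x hx).congr n (fun y hy => he y ((hn y hy).2 hx))

theorem Pc.inv {f : C → C} {A B : Set C} (h : Pc f A B) :
    ∃ f', Pc f' B A ∧ (∀ x ∈ A, f' (f x) = x) ∧ (∀ y ∈ B, f (f' y) = y) := by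
  obtain ⟨hA, hB, hl, hb⟩ := h
  have hio : Set.InvOn (Function.invFunOn f A) f A B := hb.invOn_invFunOn
  have hbi : Set.BijOn (Function.invFunOn f A) B A := hb.symm hio.symm
  refine ⟨Function.invFunOn f A, ⟨hB, hA, ?_, hbi⟩, fun x hx => hio.1 hx, fun y hy => hio.2 hy⟩
  intro y hy
  obtain ⟨x, hx, rfl⟩ := hb.surjOn hy
  obtain ⟨n, v, hf⟩ := hl x hx
  obtain ⟨m, hm⟩ := hA x
  have hd := LocAt.deeper hf m
  refine ⟨(v ++ tk m (sh n x)).length, tk (n + m) x, fun z hz => ?_⟩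
  have hfx := hd x (mem_Cyl_self _ _)
  rw [hfx] at hz
  obtain ⟨t, rfl⟩ := mem_Cyl_app.1 hz
  rw [sh_app]
  have h0 : app (tk (n + m) x) t ∈ Cyl x (n + m) := mem_Cyl_iff.2 ⟨t, rfl⟩
  have h1 : f (app (tk (n + m) x) t) = app (v ++ tk m (sh n x)) t := by
    rw [hd _ h0]
    have := sh_app (tk (n + m) x) t
    rw [length_tk] at this
    rw [this]
  rw [← h1]
  exact hio.1 ((hm _ (Cyl_mono (by omega) h0)).2 hx)

theorem Pc.trans {f f' : C → C} {A B D : Set C} (h : Pc f A B) (h' : Pc f' B D) :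
    Pc (fun x => f' (f x)) A D := by
  obtain ⟨hA, hB, hl, hb⟩ := h
  obtain ⟨_, hD, hl', hb'⟩ := h'
  exact ⟨hA, hD, fun x hx => (hl x hx).comp (hl' _ (hb.mapsTo hx)), hb'.comp hb⟩

theorem Pc.ofV {e : Equiv.Perm C} (he : e ∈ V) {A : Set C} (hA : LC A) : Pc e A (e '' A) :=
  ⟨hA, hA.image he, fun x _ => he x, e.injective.injOn.bijOn_image⟩




/-! #### part trans -/


theorem app_ofFn_iff {n : ℕ} {u : Fin n → Bool} {x : C} :
    (fun i : Fin n => x i) = u ↔ ∃ y, x = app (List.ofFn u) y := by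
  constructor
  · rintro rfl
    exact ⟨sh n x, (app_tk_sh n x).symm⟩
  · rintro ⟨y, rfl⟩
    funext i
    rw [app_lt (by simp)]
    simp

theorem eq_of_sh_one {x y : C} (h0 : x 0 = y 0) (h : sh 1 x = sh 1 y) : x = y := by
  funext i
  cases i with
  | zero => exact h0
  | succ i => exact congrFun h i

theorem exists_emb_aux {n : ℕ} (s : Finset (Fin n → Bool)) (hs : s.Nonempty) :
    ∃ f : C → C, Loc f ∧ Function.Injective f ∧
      Set.range f = {x | (fun i : Fin n => x i) ∈ s} := by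
  classical
  induction hs using Finset.Nonempty.cons_induction with
  | singleton u =>
    refine ⟨app (List.ofFn u), fun x => LocAt_app _ x, fun x y h => app_inj _ h, ?_⟩
    ext x
    rw [Set.mem_ofPred_eq, Finset.mem_singleton, app_ofFn_iff]
    constructor
    · rintro ⟨y, rfl⟩; exact ⟨y, rfl⟩
    · rintro ⟨y, rfl⟩; exact ⟨y, rfl⟩
  | cons u s hu hs ih =>
    obtain ⟨f', hl, hi, hr⟩ := ih
    have hrm : ∀ x, (fun i : Fin n => f' x i) ∈ s := by
      intro x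
      have : f' x ∈ Set.range f' := ⟨x, rfl⟩
      rw [hr] at this
      exact this
    have hum : ∀ y, (fun i : Fin n => app (List.ofFn u) y i) = u :=
      fun y => app_ofFn_iff.2 ⟨y, rfl⟩
    obtain ⟨S, hSm⟩ : ∃ S : Set C, ∀ x, x ∈ S ↔ x 0 = false :=
      ⟨{x | x 0 = false}, fun _ => Iff.rfl⟩
    have hS : LC S := fun x => ⟨1, fun y hy => by
      have := hy 0 (by omega)
      rw [hSm, hSm, this]⟩
    refine ⟨fun y => if y ∈ S then app (List.ofFn u) (sh 1 y) else f' (sh 1 y), ?_, ?_, ?_⟩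
    · intro x
      refine LocAt_ite hS x (fun _ => ?_) (fun _ => ?_)
      · exact LocAt.comp (f := sh 1) (h := app (List.ofFn u)) (LocAt_sh 1 x) (LocAt_app _ _)
      · exact LocAt.comp (f := sh 1) (h := f') (LocAt_sh 1 x) (hl _)
    · intro x y h
      simp only at h
      by_cases hx : x ∈ S
      · by_cases hy : y ∈ S
        · rw [if_pos hx, if_pos hy] at h
          have hx' : x 0 = false := (hSm x).1 hx
          have hy' : y 0 = false := (hSm y).1 hy
          exact eq_of_sh_one (by rw [hx', hy']) (app_inj _ h)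
        · rw [if_pos hx, if_neg hy] at h
          exfalso
          apply hu
          rw [← hum (sh 1 x), h]
          exact hrm _
      · by_cases hy : y ∈ S
        · rw [if_neg hx, if_pos hy] at h
          exfalso
          apply hu
          rw [← hum (sh 1 y), ← h]
          exact hrm _
        · rw [if_neg hx, if_neg hy] at h
          have hx' : x 0 = true := by
            rw [hSm] at hx; simpa using hx
          have hy' : y 0 = true := by
            rw [hSm] at hy; simpa using hy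
          exact eq_of_sh_one (by rw [hx', hy']) (hi h)
    · ext x
      rw [Set.mem_ofPred_eq, Finset.mem_cons]
      constructor
      · rintro ⟨y, rfl⟩
        by_cases hy : y ∈ S
        · left
          simp only [if_pos hy]
          exact hum _
        · right
          simp only [if_neg hy]
          exact hrm _
      · rintro (h | h)
        · obtain ⟨y, rfl⟩ := app_ofFn_iff.1 h
          refine ⟨app [false] y, ?_⟩
          have h1 : app [false] y ∈ S := by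
            rw [hSm, app_lt (by simp)]; rfl
          simp only [if_pos h1]
          have h2 := sh_app [false] y
          simp only [List.length_singleton] at h2
          rw [h2]
        · have : x ∈ Set.range f' := by
            rw [hr]; exact h
          obtain ⟨y, rfl⟩ := this
          refine ⟨app [true] y, ?_⟩
          have h1 : app [true] y ∉ S := by
            rw [hSm, app_lt (by simp)]; simp
          simp only [if_neg h1]
          have h2 := sh_app [true] y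
          simp only [List.length_singleton] at h2
          rw [h2]

/-- any nonempty clopen set is the range of an injective local word replacement -/
theorem exists_emb {A : Set C} (hA : LC A) (hne : A.Nonempty) :
    ∃ f : C → C, Loc f ∧ Function.Injective f ∧ Set.range f = A := by
  classical
  obtain ⟨n, hn⟩ := hA.uniform
  let s : Finset (Fin n → Bool) :=
    Finset.univ.filter (fun u => app (List.ofFn u) (fun _ => false) ∈ A)
  have key : ∀ x : C, (fun i : Fin n => x i) ∈ s ↔ x ∈ A := by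
    intro x
    rw [Finset.mem_filter]
    simp only [Finset.mem_univ, true_and]
    apply hn x
    have : Cyl x n = Cyl x n := rfl
    exact mem_Cyl_iff.2 ⟨_, rfl⟩
  obtain ⟨x0, hx0⟩ := hne
  obtain ⟨f, h1, h2, h3⟩ := exists_emb_aux s ⟨_, (key x0).2 hx0⟩
  refine ⟨f, h1, h2, ?_⟩
  rw [h3]
  ext x
  exact key x

theorem Pc_of_emb {f : C → C} {A : Set C} (hA : LC A) (h1 : Loc f)
    (h2 : Function.Injective f) (h3 : Set.range f = A) : Pc f Set.univ A := by
  refine ⟨LC_univ, hA, fun x _ => h1 x, ?_⟩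
  rw [← h3, ← Set.image_univ]
  exact h2.injOn.bijOn_image

theorem exists_Pc {A B : Set C} (hA : LC A) (hB : LC B) (hA' : A.Nonempty) (hB' : B.Nonempty) :
    ∃ f, Pc f A B := by
  obtain ⟨f, f1, f2, f3⟩ := exists_emb hA hA'
  obtain ⟨g, g1, g2, g3⟩ := exists_emb hB hB'
  obtain ⟨f', hf', -, -⟩ := (Pc_of_emb hA f1 f2 f3).inv
  exact ⟨_, hf'.trans (Pc_of_emb hB g1 g2 g3)⟩

/-- `V` is transitive on proper nonempty clopen sets -/
theorem exists_map {A B : Set C} (hA : LC A) (hB : LC B) (hA' : A.Nonempty) (hB' : B.Nonempty)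
    (hA2 : Aᶜ.Nonempty) (hB2 : Bᶜ.Nonempty) : ∃ e ∈ V, e '' A = B := by
  obtain ⟨f, hf⟩ := exists_Pc hA hB hA' hB'
  obtain ⟨f', hf'⟩ := exists_Pc hA.compl hB.compl hA2 hB2
  obtain ⟨F, hF, hF1, -⟩ := hf.union hf' disjoint_compl_right disjoint_compl_right
  rw [Set.union_compl_self, Set.union_compl_self] at hF
  obtain ⟨e, he, heF⟩ := hF.toV
  refine ⟨e, he, ?_⟩
  rw [← hf.2.2.2.image_eq]
  exact Set.image_congr (fun x hx => by rw [heF, hF1 x hx])




/-! #### part tab -/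


/-- `g` is given by a finite table of word replacements -/
def IsV (g : C → C) : Prop := ∃ (n : ℕ) (u v : Fin n → List Bool),
  (∀ x : C, ∃! i, ∃ y, x = app (u i) y) ∧ (∀ x : C, ∃! i, ∃ y, x = app (v i) y) ∧
    ∀ i y, g (app (u i) y) = app (v i) y

theorem isV_of_mem {e : Equiv.Perm C} (he : e ∈ V) : IsV e := by
  classical
  obtain ⟨n, hn⟩ := Loc.uniform (mem_V.1 he)
  choose vv hvv using hn
  obtain ⟨ep⟩ : Nonempty ((Fin n → Bool) ≃ Fin (Fintype.card (Fin n → Bool))) :=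
    ⟨Fintype.equivFin _⟩
  obtain ⟨u, hu⟩ : ∃ u : Fin (Fintype.card (Fin n → Bool)) → List Bool,
      u = fun i => List.ofFn (ep.symm i) := ⟨_, rfl⟩
  have hul : ∀ i, (u i).length = n := by intro i; rw [hu]; simp
  obtain ⟨v, hv⟩ : ∃ v : Fin (Fintype.card (Fin n → Bool)) → List Bool,
      v = fun i => vv (app (u i) (fun _ => false)) := ⟨_, rfl⟩
  have hg : ∀ i y, e (app (u i) y) = app (v i) y := by
    intro i y
    have h1 := hvv (app (u i) (fun _ => false)) (app (u i) y) (by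
      have := app_mem_Cyl (u i) (fun _ => false) y
      rwa [hul] at this)
    have h2 := sh_app (u i) y
    rw [hul] at h2
    rw [h1, h2, hv]
  have hex : ∀ x : C, ∃ i y, x = app (u i) y := by
    intro x
    refine ⟨ep (fun k => x k), sh n x, ?_⟩
    have h1 : u (ep (fun k => x k)) = tk n x := by
      rw [hu]
      simp [tk]
    rw [h1, app_tk_sh]
  have huniq : ∀ (i j : Fin (Fintype.card (Fin n → Bool))) (y z : C),
      app (u i) y = app (u j) z → i = j := by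
    intro i j y z h
    apply ep.symm.injective
    funext k
    have h1 := congrFun h k
    rw [app_lt (by rw [hul]; exact k.2), app_lt (by rw [hul]; exact k.2)] at h1
    have h2 : ∀ (i : Fin (Fintype.card (Fin n → Bool))) (hk : (k : ℕ) < (u i).length),
        (u i)[(k : ℕ)] = ep.symm i k := by
      intro i hk
      subst hu
      simp
    rw [h2, h2] at h1
    exact h1
  refine ⟨_, u, v, ?_, ?_, hg⟩
  · intro x
    obtain ⟨i, y, hx⟩ := hex x
    refine ⟨i, ⟨y, hx⟩, ?_⟩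
    rintro j ⟨z, hz⟩
    exact huniq j i z y (hz.symm.trans hx)
  · intro x
    obtain ⟨i, y, hx⟩ := hex (e.symm x)
    refine ⟨i, ⟨y, ?_⟩, ?_⟩
    · rw [← hg, ← hx, Equiv.apply_symm_apply]
    · rintro j ⟨z, hz⟩
      rw [← hg] at hz
      have h1 : e.symm x = app (u j) z := by rw [hz, Equiv.symm_apply_apply]
      exact huniq j i z y (h1.symm.trans hx)

theorem mem_of_isV {g : C → C} (hg : IsV g) : ∃ e ∈ V, ∀ x, e x = g x := by
  obtain ⟨n, u, v, hu, hv, hgt⟩ := hg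
  refine exists_perm ⟨?_, ?_⟩ ?_
  · intro x x' h
    obtain ⟨i, ⟨y, hy⟩, -⟩ := hu x
    obtain ⟨j, ⟨z, hz⟩, -⟩ := hu x'
    rw [hy, hz, hgt, hgt] at h
    obtain ⟨k, -, hk⟩ := hv (app (v i) y)
    have h1 : i = k := hk i ⟨y, rfl⟩
    have h2 : j = k := hk j ⟨z, h⟩
    have h3 : i = j := h1.trans h2.symm
    subst h3
    rw [hy, hz, app_inj _ h]
  · intro x
    obtain ⟨i, ⟨y, hy⟩, -⟩ := hv x
    exact ⟨app (u i) y, by rw [hgt, ← hy]⟩
  · intro x
    obtain ⟨i, ⟨y, hy⟩, -⟩ := hu x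
    refine ⟨(u i).length, v i, fun z hz => ?_⟩
    rw [hy] at hz
    obtain ⟨t, rfl⟩ := mem_Cyl_app.1 hz
    rw [hgt, sh_app]




/-! #### part gen -/

theorem swap2_7355 (a b w : List Bool) : Equiv.swap a b (Equiv.swap a b w) = w := by
  have := Equiv.swap_swap a b
  exact Equiv.congr_fun this w

theorem tk_app_7355 (u : List Bool) (y : C) : tk u.length (app u y) = u := by
  apply List.ext_getElem
  · rw [length_tk]
  · intro i h1 h2
    rw [getElem_tk, app_lt h2]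

/-- finite partitions of Cantor space by cylinders -/
def Part_7355 (S : Finset (List Bool)) : Prop := ∀ x : C, ∃! u, u ∈ S ∧ tk u.length x = u

theorem part_uniq_7355 {S : Finset (List Bool)} (hS : Part_7355 S) {x : C} {u w : List Bool}
    (hu : u ∈ S) (hux : tk u.length x = u) (hw : w ∈ S) (hwx : tk w.length x = w) : u = w :=
  (hS x).unique ⟨hu, hux⟩ ⟨hw, hwx⟩

theorem sib_7355 (S : Finset (List Bool)) (hS : Part_7355 S) (h0 : [] ∉ S) :
    ∃ p, p ++ [false] ∈ S ∧ p ++ [true] ∈ S ∧ p ∉ S := by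
  obtain ⟨u0, ⟨hu0, _⟩, _⟩ := hS (fun _ => false)
  obtain ⟨w, hw, hmax⟩ := S.exists_max_image List.length ⟨u0, hu0⟩
  have hwne : w ≠ [] := fun h => h0 (h ▸ hw)
  obtain ⟨p, b, rfl⟩ : ∃ p b, w = p ++ [b] :=
    ⟨w.dropLast, w.getLast hwne, (List.dropLast_append_getLast hwne).symm⟩
  have hpS : p ∉ S := by
    intro hp
    have h3 : p = p ++ [b] := part_uniq_7355 hS (x := app (p ++ [b]) (fun _ => false)) hp
      (by rw [app_app, tk_app_7355]) hw (tk_app_7355 _ _)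
    have h4 := congrArg List.length h3
    rw [List.length_append, List.length_singleton] at h4
    omega
  have hb : p ++ [!b] ∈ S := by
    obtain ⟨u, ⟨hu, hux⟩, _⟩ := hS (app (p ++ [!b]) (fun _ => false))
    have hlen := hmax u hu
    rw [List.length_append, List.length_singleton] at hlen
    rcases Nat.lt_or_ge p.length u.length with h | h
    · have h5 : u.length = (p ++ [!b]).length := by
        rw [List.length_append, List.length_singleton]; omega
      have h6 : p ++ [!b] = u := by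
        rw [← tk_app_7355 (p ++ [!b]) (fun _ => false), ← h5]
        exact hux
      rw [h6]; exact hu
    · exfalso
      have hmem : app (p ++ [b]) (fun _ => false) ∈ Cyl (app (p ++ [!b]) (fun _ => false)) u.length := by
        intro i hi
        rw [app_app, app_app, app_lt (by omega), app_lt (by omega)]
      have h4 : tk u.length (app (p ++ [b]) (fun _ => false)) = u := (tk_eq hmem).trans hux
      have h5 := part_uniq_7355 hS hu h4 hw (tk_app_7355 _ _)
      have h7 := congrArg List.length h5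
      rw [List.length_append, List.length_singleton] at h7
      omega
  cases b
  · exact ⟨p, hw, hb, hpS⟩
  · exact ⟨p, hb, hw, hpS⟩

theorem rep_7355 {S : Finset (List Bool)} (hS : Part_7355 S) (x : C) :
    ∃ u ∈ S, ∃ y, x = app u y := by
  obtain ⟨u, ⟨hu, hux⟩, _⟩ := hS x
  refine ⟨u, hu, sh u.length x, ?_⟩
  have := app_tk_sh u.length x
  rw [hux] at this
  exact this.symm

theorem inj_7355 {S : Finset (List Bool)} (hS : Part_7355 S) {u w : List Bool} (hu : u ∈ S)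
    (hw : w ∈ S) {y z : C} (h : app u y = app w z) : u = w :=
  part_uniq_7355 hS (x := app u y) hu (tk_app_7355 _ _) hw (by rw [h, tk_app_7355])

theorem part_mk_7355 {S : Finset (List Bool)} (h1 : ∀ x : C, ∃ u ∈ S, ∃ y, x = app u y)
    (h2 : ∀ u ∈ S, ∀ w ∈ S, ∀ y z : C, app u y = app w z → u = w) : Part_7355 S := by
  intro x
  obtain ⟨u, hu, y, rfl⟩ := h1 x
  refine ⟨u, ⟨hu, tk_app_7355 _ _⟩, ?_⟩
  rintro w ⟨hw, hwx⟩
  have := app_tk_sh w.length (app u y)
  rw [hwx] at this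
  exact h2 w hw u hu _ _ this

theorem image_7355 {S : Finset (List Bool)} (hS : Part_7355 S) (v : List Bool → List Bool)
    (h : Equiv.Perm C) (hv : ∀ u ∈ S, ∀ y, h (app u y) = app (v u) y) :
    Part_7355 (S.image v) ∧ ∀ u ∈ S, ∀ w ∈ S, v u = v w → u = w := by
  classical
  constructor
  · apply part_mk_7355
    · intro x
      obtain ⟨u, hu, y, hy⟩ := rep_7355 hS (h.symm x)
      refine ⟨v u, Finset.mem_image_of_mem v hu, y, ?_⟩
      rw [← hv u hu, ← hy, Equiv.apply_symm_apply]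
    · intro a ha b hb y z hyz
      obtain ⟨u, hu, rfl⟩ := Finset.mem_image.mp ha
      obtain ⟨w, hw, rfl⟩ := Finset.mem_image.mp hb
      rw [← hv u hu, ← hv w hw] at hyz
      rw [inj_7355 hS hu hw (h.injective hyz)]
  · intro u hu w hw huw
    have h1 : h (app u (fun _ => false)) = h (app w (fun _ => false)) := by
      rw [hv u hu, hv w hw, huw]
    exact inj_7355 hS hu hw (h.injective h1)

theorem swap_7355 (T : Finset (List Bool)) (hT : Part_7355 T) (a b : List Bool) (ha : a ∈ T)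
    (hb : b ∈ T) : ∃ s : Equiv.Perm C, s ∈ V ∧ s * s = 1 ∧
      ∀ w ∈ T, ∀ y, s (app w y) = app (Equiv.swap a b w) y := by
  classical
  choose W hW hWu using hT
  obtain ⟨g, hgdef⟩ : ∃ g : C → C, g = fun x => app (Equiv.swap a b (W x)) (sh (W x).length x) :=
    ⟨_, rfl⟩
  have hg : ∀ w ∈ T, ∀ y, g (app w y) = app (Equiv.swap a b w) y := by
    intro w hw y
    have h1 : w = W (app w y) := hWu _ w ⟨hw, tk_app_7355 w y⟩
    rw [hgdef]
    simp only
    rw [← h1, sh_app]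
  have hswT : ∀ w ∈ T, Equiv.swap a b w ∈ T := by
    intro w hw
    rw [Equiv.swap_apply_def]
    split_ifs <;> assumption
  have hinv : Function.Involutive g := by
    intro x
    have h1 : app (W x) (sh (W x).length x) = x := by
      have := app_tk_sh (W x).length x
      rw [(hW x).2] at this
      exact this
    calc g (g x) = g (g (app (W x) (sh (W x).length x))) := by rw [h1]
      _ = app (W x) (sh (W x).length x) := by
          rw [hg _ (hW x).1, hg _ (hswT _ (hW x).1), swap2_7355]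
      _ = x := h1
  refine ⟨hinv.toPerm, ?_, ?_, fun w hw y => hg w hw y⟩
  · intro x
    refine ⟨(W x).length, Equiv.swap a b (W x), fun y hy => ?_⟩
    have h1 : W x = W y := hWu y (W x) ⟨(hW x).1, by rw [tk_eq hy]; exact (hW x).2⟩
    show g y = _
    rw [hgdef, h1]
  · ext x : 1
    exact hinv x

theorem first_7355 (w : List Bool) (hw : w ≠ []) : ∃ x : C, ∀ y, x ≠ app w y := by
  cases w with
  | nil => exact absurd rfl hw
  | cons c t =>
    refine ⟨fun _ => !c, fun y hy => ?_⟩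
    have h1 := congrFun hy 0
    rw [app_lt (by simp)] at h1
    simp at h1

theorem main_7355 (n : ℕ) : ∀ (S : Finset (List Bool)) (v : List Bool → List Bool)
    (h : Equiv.Perm C), S.card = n → Part_7355 S → (∀ u ∈ S, ∀ y, h (app u y) = app (v u) y) →
    ∃ L : List (Equiv.Perm C), (∀ c ∈ L, c ∈ V ∧ c * c = 1) ∧ L.prod = h := by
  classical
  induction n using Nat.strong_induction_on with
  | _ n ih =>
    intro S v h hn hS hv
    by_cases h0 : [] ∈ S
    · have h1 : ∀ y, h y = app (v []) y := by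
        intro y
        have := hv [] h0 y
        rwa [app_nil] at this
      have h2 : v [] = [] := by
        by_contra hne
        obtain ⟨x, hx⟩ := first_7355 _ hne
        apply hx (h.symm x)
        rw [← h1, Equiv.apply_symm_apply]
      refine ⟨[], by simp, ?_⟩
      rw [List.prod_nil]
      ext y : 1
      rw [h1, h2, app_nil]
      rfl
    · obtain ⟨hT, hvinj⟩ := image_7355 hS v h hv
      have h0' : [] ∉ S.image v := by
        intro h1
        obtain ⟨u, hu, huv⟩ := Finset.mem_image.mp h1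
        have hune : u ≠ [] := fun h2 => h0 (h2 ▸ hu)
        obtain ⟨x, hx⟩ := first_7355 _ hune
        apply hx (h x)
        apply h.injective
        rw [hv u hu, huv, app_nil]
      obtain ⟨p, hp0, hp1, hpS⟩ := sib_7355 S hS h0
      obtain ⟨q, hq0, hq1, _⟩ := sib_7355 (S.image v) hT h0'
      obtain ⟨a0, ha0⟩ : ∃ a0, a0 = v (p ++ [false]) := ⟨_, rfl⟩
      have ha0T : a0 ∈ S.image v := by rw [ha0]; exact Finset.mem_image_of_mem v hp0
      obtain ⟨s1, hs1V, hs1s, hs1⟩ := swap_7355 (S.image v) hT a0 (q ++ [false]) ha0T hq0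
      obtain ⟨v1, hv1def⟩ : ∃ v1 : List Bool → List Bool,
        v1 = fun u => Equiv.swap a0 (q ++ [false]) (v u) := ⟨_, rfl⟩
      have hv1 : ∀ u ∈ S, ∀ y, (s1 * h) (app u y) = app (v1 u) y := by
        intro u hu y
        rw [Equiv.Perm.mul_apply, hv u hu, hs1 _ (Finset.mem_image_of_mem v hu), hv1def]
      obtain ⟨hT1, hv1inj⟩ := image_7355 hS v1 (s1 * h) hv1
      have hv1p0 : v1 (p ++ [false]) = q ++ [false] := by
        rw [hv1def]
        simp only
        rw [← ha0, Equiv.swap_apply_left]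
      have hq01 : q ++ [true] ≠ q ++ [false] := by simp
      have hT1mem : ∀ w ∈ S.image v, w ∈ S.image v1 := by
        intro w hw
        have h3 : Equiv.swap a0 (q ++ [false]) w ∈ S.image v := by
          rw [Equiv.swap_apply_def]
          split_ifs <;> assumption
        obtain ⟨u, hu, huv⟩ := Finset.mem_image.mp h3
        refine Finset.mem_image.mpr ⟨u, hu, ?_⟩
        rw [hv1def]
        simp only
        rw [huv, swap2_7355]
      obtain ⟨a1, ha1⟩ : ∃ a1, a1 = v1 (p ++ [true]) := ⟨_, rfl⟩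
      have ha1T : a1 ∈ S.image v1 := by rw [ha1]; exact Finset.mem_image_of_mem v1 hp1
      obtain ⟨s2, hs2V, hs2s, hs2⟩ := swap_7355 (S.image v1) hT1 a1 (q ++ [true]) ha1T
        (hT1mem _ hq1)
      obtain ⟨v2, hv2def⟩ : ∃ v2 : List Bool → List Bool,
        v2 = fun u => Equiv.swap a1 (q ++ [true]) (v1 u) := ⟨_, rfl⟩
      have hv2 : ∀ u ∈ S, ∀ y, (s2 * (s1 * h)) (app u y) = app (v2 u) y := by
        intro u hu y
        rw [Equiv.Perm.mul_apply, hv1 u hu, hs2 _ (Finset.mem_image_of_mem v1 hu), hv2def]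
      have hv2p1 : v2 (p ++ [true]) = q ++ [true] := by
        rw [hv2def]
        simp only
        rw [← ha1, Equiv.swap_apply_left]
      have hp01 : p ++ [true] ≠ p ++ [false] := by simp
      have ha1ne : q ++ [false] ≠ a1 := by
        intro h4
        rw [ha1, ← hv1p0] at h4
        exact hp01 (hv1inj _ hp0 _ hp1 h4).symm
      have hv2p0 : v2 (p ++ [false]) = q ++ [false] := by
        rw [hv2def]
        simp only
        rw [hv1p0, Equiv.swap_apply_of_ne_of_ne ha1ne hq01.symm]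
      have hmerge : ∀ y, (s2 * (s1 * h)) (app p y) = app q y := by
        intro y
        have hsplit : ∀ (w : List Bool), app w y = app (w ++ [y 0]) (sh 1 y) := by
          intro w
          rw [app_app]
          congr 1
          have := app_tk_sh 1 y
          have h5 : tk 1 y = [y 0] := by simp [tk]
          rw [h5] at this
          exact this.symm
        rw [hsplit p, hsplit q]
        cases hy0 : y 0
        · rw [hv2 _ hp0, hv2p0]
        · rw [hv2 _ hp1, hv2p1]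
      obtain ⟨S', hS'def⟩ : ∃ S' : Finset (List Bool),
        S' = insert p ((S.erase (p ++ [false])).erase (p ++ [true])) := ⟨_, rfl⟩
      have hcard : S'.card < n := by
        have e1 : ((S.erase (p ++ [false])).erase (p ++ [true])).card = n - 1 - 1 := by
          rw [Finset.card_erase_of_mem (Finset.mem_erase.mpr ⟨hp01, hp1⟩),
            Finset.card_erase_of_mem hp0, hn]
        have e2 : S'.card ≤ (n - 1 - 1) + 1 := by
          rw [hS'def, ← e1]
          exact Finset.card_insert_le _ _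
        have e3 : 2 ≤ n := by
          rw [← hn]
          have e4 : ({p ++ [false], p ++ [true]} : Finset (List Bool)) ⊆ S := by
            intro w hw
            rw [Finset.mem_insert, Finset.mem_singleton] at hw
            rcases hw with rfl | rfl
            · exact hp0
            · exact hp1
          have e5 := Finset.card_le_card e4
          rwa [Finset.card_pair hp01.symm] at e5
        omega
      have hmemS' : ∀ w, w ∈ S' ↔ w = p ∨ (w ≠ p ++ [true] ∧ w ≠ p ++ [false] ∧ w ∈ S) := by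
        intro w
        rw [hS'def, Finset.mem_insert, Finset.mem_erase, Finset.mem_erase]
      have happ : ∀ y : C, app p y = app (p ++ [y 0]) (sh 1 y) := by
        intro y
        rw [app_app]
        congr 1
        have := app_tk_sh 1 y
        have h5 : tk 1 y = [y 0] := by simp [tk]
        rw [h5] at this
        exact this.symm
      have hpb : ∀ b : Bool, p ++ [b] ∈ S := by
        intro b
        cases b
        · exact hp0
        · exact hp1
      have hPS' : Part_7355 S' := by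
        apply part_mk_7355
        · intro x
          obtain ⟨u, hu, y, rfl⟩ := rep_7355 hS x
          by_cases hut : u = p ++ [true]
          · refine ⟨p, (hmemS' p).mpr (Or.inl rfl), app [true] y, ?_⟩
            rw [hut, app_app]
          · by_cases huf : u = p ++ [false]
            · refine ⟨p, (hmemS' p).mpr (Or.inl rfl), app [false] y, ?_⟩
              rw [huf, app_app]
            · exact ⟨u, (hmemS' u).mpr (Or.inr ⟨hut, huf, hu⟩), y, rfl⟩
        · intro u hu w hw y z hyz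
          have key : ∀ w, (w ≠ p ++ [true] ∧ w ≠ p ++ [false] ∧ w ∈ S) → ∀ y z : C,
              app p y = app w z → False := by
            rintro w ⟨hw1, hw2, hw3⟩ y z hyz
            rw [happ y] at hyz
            have h6 := inj_7355 hS (hpb (y 0)) hw3 hyz
            cases hy0 : y 0
            · rw [hy0] at h6; exact hw2 h6.symm
            · rw [hy0] at h6; exact hw1 h6.symm
          rcases (hmemS' u).mp hu with rfl | hu'
          · rcases (hmemS' w).mp hw with rfl | hw'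
            · rfl
            · exact absurd hyz (fun h7 => key w hw' y z h7)
          · rcases (hmemS' w).mp hw with rfl | hw'
            · exact absurd hyz.symm (fun h7 => key u hu' z y h7)
            · exact inj_7355 hS hu'.2.2 hw'.2.2 hyz
      obtain ⟨L, hL1, hL2⟩ := ih S'.card hcard S' (fun u => if u = p then q else v2 u)
        (s2 * (s1 * h)) rfl hPS' (by
          intro u hu y
          by_cases hup : u = p
          · rw [if_pos hup, hup]; exact hmerge y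
          · rw [if_neg hup]
            rcases (hmemS' u).mp hu with h8 | h8
            · exact absurd h8 hup
            · exact hv2 u h8.2.2 y)
      refine ⟨s1 :: s2 :: L, ?_, ?_⟩
      · intro c hc
        rw [List.mem_cons, List.mem_cons] at hc
        rcases hc with rfl | rfl | hc
        · exact ⟨hs1V, hs1s⟩
        · exact ⟨hs2V, hs2s⟩
        · exact hL1 c hc
      · rw [List.prod_cons, List.prod_cons, hL2]
        calc s1 * (s2 * (s2 * (s1 * h))) = s1 * ((s2 * s2) * (s1 * h)) := by rw [mul_assoc s2 s2]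
          _ = (s1 * s1) * h := by rw [hs2s, one_mul, mul_assoc]
          _ = h := by rw [hs1s, one_mul]




/-- `V` is generated by involutions -/
theorem gen_inv {h : Equiv.Perm C} (hh : h ∈ V) :
    ∃ L : List (Equiv.Perm C), (∀ c ∈ L, c ∈ V ∧ c * c = 1) ∧ L.prod = h := by
  classical
  obtain ⟨n, u, v, hu, _, huv⟩ := isV_of_mem hh
  obtain ⟨v', hv'⟩ : ∃ v' : List Bool → List Bool,
      v' = fun w => if hw : ∃ i, u i = w then v hw.choose else [] := ⟨_, rfl⟩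
  refine main_7355 _ (Finset.univ.image u) v' h rfl ?_ ?_
  · apply part_mk_7355
    · intro x
      obtain ⟨i, ⟨y, hy⟩, _⟩ := hu x
      exact ⟨u i, Finset.mem_image_of_mem u (Finset.mem_univ i), y, hy⟩
    · intro a ha b hb y z hyz
      obtain ⟨i, _, rfl⟩ := Finset.mem_image.mp ha
      obtain ⟨j, _, rfl⟩ := Finset.mem_image.mp hb
      have := (hu (app (u i) y)).unique ⟨y, rfl⟩ ⟨z, hyz⟩
      rw [this]
  · intro w hw y
    obtain ⟨i, _, hi⟩ := Finset.mem_image.mp hw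
    have hex : ∃ i, u i = w := ⟨i, hi⟩
    rw [hv']
    simp only
    rw [dif_pos hex, ← huv, hex.choose_spec]




/-! #### part pe -/


open Classical in
/-- the permutation of the copies, as a function -/
noncomputable def pemb {k : ℕ} (D : Set C) (f : Fin k → Equiv.Perm C) (π : Equiv.Perm (Fin k))
    (x : C) : C :=
  if h : ∃ i, x ∈ f i '' D then f (π h.choose) ((f h.choose)⁻¹ x) else x

theorem pemb_mem {k : ℕ} {D : Set C} {f : Fin k → Equiv.Perm C}
    (hdisj : ∀ i j, i ≠ j → ∀ x ∈ D, ∀ y ∈ D, f i x ≠ f j y) (π : Equiv.Perm (Fin k)) (i : Fin k)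
    {x : C} (hx : x ∈ D) : pemb D f π (f i x) = f (π i) x := by
  have h : ∃ j, f i x ∈ f j '' D := ⟨i, x, hx, rfl⟩
  have h1 : h.choose = i := by
    by_contra hne
    obtain ⟨y, hy, hyx⟩ := h.choose_spec
    exact hdisj _ _ hne y hy x hx hyx
  unfold pemb
  rw [dif_pos h, h1]
  simp

theorem pemb_not {k : ℕ} {D : Set C} {f : Fin k → Equiv.Perm C} (π : Equiv.Perm (Fin k))
    {x : C} (hx : ∀ i, x ∉ f i '' D) : pemb D f π x = x := by
  unfold pemb
  rw [dif_neg]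
  rintro ⟨i, hi⟩
  exact hx i hi

theorem pemb_mul {k : ℕ} {D : Set C} {f : Fin k → Equiv.Perm C}
    (hdisj : ∀ i j, i ≠ j → ∀ x ∈ D, ∀ y ∈ D, f i x ≠ f j y) (π σ : Equiv.Perm (Fin k)) (x : C) :
    pemb D f (π * σ) x = pemb D f π (pemb D f σ x) := by
  by_cases h : ∃ i, x ∈ f i '' D
  · obtain ⟨i, y, hy, rfl⟩ := h
    rw [pemb_mem hdisj _ i hy, pemb_mem hdisj _ i hy, pemb_mem hdisj _ _ hy]
    rfl
  · push Not at h
    rw [pemb_not _ h, pemb_not _ h, pemb_not _ h]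

theorem pemb_one {k : ℕ} {D : Set C} {f : Fin k → Equiv.Perm C}
    (hdisj : ∀ i j, i ≠ j → ∀ x ∈ D, ∀ y ∈ D, f i x ≠ f j y) (x : C) :
    pemb D f 1 x = x := by
  by_cases h : ∃ i, x ∈ f i '' D
  · obtain ⟨i, y, hy, rfl⟩ := h
    rw [pemb_mem hdisj _ i hy]
    rfl
  · push Not at h
    exact pemb_not _ h

theorem pemb_loc {k : ℕ} {D : Set C} (hD : LC D) {f : Fin k → Equiv.Perm C}
    (hf : ∀ i, f i ∈ V) (hdisj : ∀ i j, i ≠ j → ∀ x ∈ D, ∀ y ∈ D, f i x ≠ f j y)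
    (π : Equiv.Perm (Fin k)) : Loc (pemb D f π) := by
  intro x
  by_cases h : ∃ i, x ∈ f i '' D
  · obtain ⟨i, hi⟩ := h
    obtain ⟨n, hn⟩ := LC.image hD (hf i) x
    have h1 : LocAt (fun y => f (π i) ((f i)⁻¹ y)) x := by
      have h2 : (f (π i) * (f i)⁻¹ : Equiv.Perm C) ∈ V := V.mul_mem (hf _) (V.inv_mem (hf i))
      exact h2 x
    refine h1.congr n (fun y hy => ?_)
    obtain ⟨d, hd, rfl⟩ := (hn y hy).2 hi
    rw [pemb_mem hdisj π i hd]
    simp
  · push Not at h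
    have h1 : ∀ i, ∃ n, ∀ y ∈ Cyl x n, (y ∈ f i '' D ↔ x ∈ f i '' D) :=
      fun i => LC.image hD (hf i) x
    choose N hN using h1
    refine (LocAt_id x).congr (Finset.univ.sup N) (fun y hy => ?_)
    symm
    apply pemb_not
    intro i hi
    exact h i ((hN i y (Cyl_mono (Finset.le_sup (f := N) (Finset.mem_univ i)) hy)).1 hi)

/-- permutations of finitely many disjoint copies of a clopen set -/
theorem perm_embed {k : ℕ} {D : Set C} (hD : LC D) (f : Fin k → Equiv.Perm C)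
    (hf : ∀ i, f i ∈ V) (hdisj : ∀ i j, i ≠ j → ∀ x ∈ D, ∀ y ∈ D, f i x ≠ f j y) :
    ∃ Φ : Equiv.Perm (Fin k) →* Equiv.Perm C, (∀ π, Φ π ∈ V) ∧
      (∀ π i, ∀ x ∈ D, Φ π (f i x) = f (π i) x) ∧
      (∀ π x, (∀ i, x ∉ f i '' D) → Φ π x = x) := by
  refine ⟨{ toFun := fun π =>
              { toFun := pemb D f π
                invFun := pemb D f π⁻¹
                left_inv := fun x => by
                  rw [← pemb_mul hdisj, inv_mul_cancel, pemb_one hdisj]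
                right_inv := fun x => by
                  rw [← pemb_mul hdisj, mul_inv_cancel, pemb_one hdisj] }
            map_one' := by
              apply Equiv.ext
              intro x
              exact pemb_one hdisj x
            map_mul' := fun π σ => by
              apply Equiv.ext
              intro x
              exact pemb_mul hdisj π σ x }, ?_, ?_, ?_⟩
  · intro π
    exact pemb_loc hD hf hdisj π
  · intro π i x hx
    exact pemb_mem hdisj π i hx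
  · intro π x hx
    exact pemb_not π hx




/-! #### part fix -/


/-- an involution fixing `x` cannot expand near `x` -/
theorem inv_no_expand {g : Equiv.Perm C} (hgg : ∀ x, g (g x) = x) {x : C} (hx : g x = x)
    {n : ℕ} {v : List Bool} (hv : ∀ y ∈ Cyl x n, g y = app v (sh n y)) : ¬ v.length < n := by
  intro hlt
  have hgx : ∀ i, x i = app v (sh n x) i := by
    intro i
    have := congrFun (hv x (mem_Cyl_self _ _)) i
    rw [hx] at this
    exact this
  have key : ∀ y ∈ Cyl x (2 * n), y (2 * n) = y (2 * n + 2 * (n - v.length)) := by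
    intro y hy
    have hyn : y ∈ Cyl x n := Cyl_mono (by omega) hy
    have h1 : ∀ i, g y i = app v (sh n y) i := fun i => congrFun (hv y hyn) i
    have h2 : g y ∈ Cyl x n := by
      intro i hi
      rw [h1 i, hgx i]
      by_cases hiv : i < v.length
      · rw [app_lt hiv, app_lt hiv]
      · push Not at hiv
        rw [app_ge hiv, app_ge hiv]
        exact hy _ (by omega)
    have h3 : y (2 * n) = app v (sh n (g y)) (2 * n) := by
      rw [← congrFun (hv (g y) h2) (2 * n), hgg]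
    rw [h3, app_ge (by omega)]
    show g y (2 * n - v.length + n) = _
    rw [h1, app_ge (by omega)]
    show y (2 * n - v.length + n - v.length + n) = _
    congr 1
    omega
  have h4 := key (fun i => if i < 2 * n then x i else decide (i = 2 * n)) (by
    intro i hi
    simp only [hi, if_true])
  simp only [lt_irrefl, if_false, decide_true] at h4
  rw [if_neg (by omega)] at h4
  simp at h4
  omega

/-- the fixed point set of an involution in `V` is open -/
theorem inv_fix_open {g : Equiv.Perm C} (hg : g ∈ V) (hgg : ∀ x, g (g x) = x) {x : C}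
    (hx : g x = x) : ∃ N, ∀ y ∈ Cyl x N, g y = y := by
  obtain ⟨n, v, hv⟩ := hg x
  have hgx : ∀ i, x i = app v (sh n x) i := by
    intro i
    have := congrFun (hv x (mem_Cyl_self _ _)) i
    change g x i = _ at this
    rw [hx] at this
    exact this
  rcases lt_trichotomy v.length n with h | h | h
  · exact absurd h (inv_no_expand hgg hx hv)
  · refine ⟨n, fun y hy => ?_⟩
    have e : g y = app v (sh n y) := hv y hy
    rw [e]
    funext i
    by_cases hi : i < v.length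
    · rw [hy i (by omega), hgx i, app_lt hi, app_lt hi]
    · push Not at hi
      rw [app_ge hi]
      show y (i - v.length + n) = y i
      congr 1
      omega
  · exfalso
    have hl : (tk n x).length < v.length := by rw [length_tk]; exact h
    refine inv_no_expand hgg hx (n := v.length) (v := tk n x) (fun z hz => ?_) hl
    have h1 : g (app (tk n x) (sh v.length z)) = z := by
      have e : g (app (tk n x) (sh v.length z)) = app v (sh n (app (tk n x) (sh v.length z))) :=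
        hv _ (mem_Cyl_iff.2 ⟨_, rfl⟩)
      have h2 := sh_app (tk n x) (sh v.length z)
      rw [length_tk] at h2
      rw [e, h2]
      funext i
      by_cases hi : i < v.length
      · rw [hz i hi, hgx i, app_lt hi, app_lt hi]
      · push Not at hi
        rw [app_ge hi]
        show z (i - v.length + v.length) = z i
        congr 1
        omega
    rw [← h1, hgg, h1]

/-- the set of points moved forward (lexicographically) by an involution of `V` is clopen -/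
theorem inv_fundamental {g : Equiv.Perm C} (hg : g ∈ V) (h2 : g * g = 1) :
    ∃ A : Set C, LC A ∧ (∀ x, x ∈ A → g x ∉ A) ∧ (∀ x, g x ≠ x → x ∈ A ∨ g x ∈ A) ∧
      (∀ x ∈ A, g x ≠ x) := by
  have hgg : ∀ x, g (g x) = x := by
    intro x
    have := congrArg (fun e : Equiv.Perm C => e x) h2
    simpa using this
  set A : Set C := {x | ∃ n, (∀ i < n, x i = g x i) ∧ x n = false ∧ g x n = true} with hA
  have hne : ∀ x ∈ A, g x ≠ x := by
    rintro x ⟨n, -, h3, h4⟩ h5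
    rw [h5, h3] at h4
    exact absurd h4 (by decide)
  have hdis : ∀ x, x ∈ A → g x ∉ A := by
    rintro x ⟨n, h3, h4, h5⟩ ⟨m, h6, h7, h8⟩
    rw [hgg] at h8
    rcases lt_trichotomy m n with h | h | h
    · have := h3 m h
      rw [h8, h7] at this
      exact absurd this (by decide)
    · subst h
      rw [h8] at h4
      exact absurd h4 (by decide)
    · have := h6 n h
      rw [hgg, h4, h5] at this
      exact absurd this (by decide)
  have htri : ∀ x, g x ≠ x → x ∈ A ∨ g x ∈ A := by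
    intro x hx
    have hex : ∃ i, g x i ≠ x i := by
      by_contra hcon
      push Not at hcon
      exact hx (funext hcon)
    classical
    have h3 := Nat.find_spec hex
    have h4 : ∀ i < Nat.find hex, x i = g x i := by
      intro i hi
      have := Nat.find_min hex hi
      push Not at this
      exact this.symm
    rcases hb : x (Nat.find hex) with _ | _
    · left
      refine ⟨Nat.find hex, h4, hb, ?_⟩
      rw [hb] at h3
      simpa using h3
    · right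
      refine ⟨Nat.find hex, fun i hi => by rw [hgg]; exact (h4 i hi).symm, ?_, by rw [hgg]; exact hb⟩
      rw [hb] at h3
      simpa using h3
  have hin : ∀ x ∈ A, ∃ N, ∀ y ∈ Cyl x N, y ∈ A := by
    rintro x ⟨n, h3, h4, h5⟩
    obtain ⟨N, hN⟩ := (hg x).cont (n + 1)
    refine ⟨max N (n + 1), fun y hy => ⟨n, ?_, ?_, ?_⟩⟩
    · intro i hi
      have h6 := hN y (Cyl_mono (le_max_left _ _) hy) i (by omega)
      change g y i = g x i at h6
      rw [h6, ← h3 i hi]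
      exact hy i (lt_of_lt_of_le (by omega) (le_max_right N (n + 1)))
    · rw [hy n (lt_of_lt_of_le (by omega) (le_max_right N (n + 1)))]
      exact h4
    · have h6 := hN y (Cyl_mono (le_max_left _ _) hy) n (by omega)
      change g y n = g x n at h6
      rw [h6]
      exact h5
  refine ⟨A, ?_, hdis, htri, hne⟩
  intro x
  by_cases hx : g x = x
  · obtain ⟨N, hN⟩ := inv_fix_open hg hgg hx
    refine ⟨N, fun y hy => ?_⟩
    constructor
    · intro hyA
      exact absurd (hN y hy) (hne y hyA)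
    · intro hxA
      exact absurd hx (hne x hxA)
  · rcases htri x hx with hxA | hxA
    · obtain ⟨N, hN⟩ := hin x hxA
      exact ⟨N, fun y hy => ⟨fun _ => hxA, fun _ => hN y hy⟩⟩
    · obtain ⟨N, hN⟩ := hin (g x) hxA
      obtain ⟨M, hM⟩ := (hg x).cont N
      refine ⟨M, fun y hy => ?_⟩
      have h3 : g y ∈ A := hN _ (hM y hy)
      have h4 : y ∉ A := by
        have := hdis _ h3
        rwa [hgg] at this
      have h5 : x ∉ A := by
        have := hdis _ hxA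
        rwa [hgg] at this
      exact ⟨fun h => absurd h h4, fun h => absurd h h5⟩




/-! #### part split -/


/-- every nonempty clopen set splits into two nonempty clopen sets -/
theorem exists_split {A : Set C} (hA : LC A) (hne : A.Nonempty) :
    ∃ A₁ A₂ : Set C, LC A₁ ∧ LC A₂ ∧ A₁.Nonempty ∧ A₂.Nonempty ∧ Disjoint A₁ A₂ ∧ A₁ ∪ A₂ = A := by
  obtain ⟨x, hx⟩ := hne
  obtain ⟨n, hn⟩ := hA x
  refine ⟨A ∩ Cyl x (n + 1), A \ Cyl x (n + 1), hA.inter (LC_Cyl _ _), hA.diff (LC_Cyl _ _),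
    ⟨x, hx, mem_Cyl_self _ _⟩, ⟨Function.update x n (!x n), ?_, ?_⟩, ?_, Set.inter_union_diff _ _⟩
  · refine (hn _ ?_).2 hx
    intro i hi
    rw [Function.update_of_ne (by omega)]
  · intro h
    have h1 := h n (by omega)
    rw [Function.update_self] at h1
    cases hb : x n <;> rw [hb] at h1 <;> simp at h1
  · exact Set.disjoint_sdiff_inter.symm




/-! #### part invcomm -/


theorem perm4_comm : (Equiv.swap (0 : Fin 4) 2 * Equiv.swap 1 3) =
    (Equiv.swap (0 : Fin 4) 1 * Equiv.swap 1 2) * (Equiv.swap 0 1 * Equiv.swap 2 3) *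
      (Equiv.swap (0 : Fin 4) 1 * Equiv.swap 1 2)⁻¹ * (Equiv.swap 0 1 * Equiv.swap 2 3)⁻¹ := by
  decide

/-- every involution of `V` is a commutator -/
theorem inv_comm {g : Equiv.Perm C} (hg : g ∈ V) (h2 : g * g = 1) :
    ∃ a ∈ V, ∃ b ∈ V, g = a * b * a⁻¹ * b⁻¹ := by
  obtain ⟨A, hA, hA1, hA2, hA3⟩ := inv_fundamental hg h2
  have hgg : ∀ x, g (g x) = x := by
    intro x
    have : (g * g) x = x := by rw [h2]; rfl
    exact this
  by_cases hne : A.Nonempty
  · obtain ⟨A₁, A₂, hL1, hL2, hn1, hn2, hdis, hun⟩ := exists_split hA hne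
    have hd : ∀ x, x ∈ A₁ → x ∉ A₂ := fun x h1 h2' => Set.disjoint_left.1 hdis h1 h2'
    have hs1 : ∀ x, x ∈ A₁ → x ∈ A := fun x h => by rw [← hun]; exact Or.inl h
    have hs2 : ∀ x, x ∈ A₂ → x ∈ A := fun x h => by rw [← hun]; exact Or.inr h
    obtain ⟨θ, hθ, hθim⟩ := exists_map hL1 hL2 hn1 hn2
      (by obtain ⟨y, hy⟩ := hn2; exact ⟨y, fun h => hd y h hy⟩)
      (by obtain ⟨y, hy⟩ := hn1; exact ⟨y, fun h => hd y hy h⟩)
    have hθ1 : ∀ x ∈ A₁, θ x ∈ A₂ := fun x hx => by rw [← hθim]; exact ⟨x, hx, rfl⟩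
    let f : Fin 4 → Equiv.Perm C := ![1, θ, g, g * θ]
    have f0 : f 0 = 1 := rfl
    have f1 : f 1 = θ := rfl
    have f2 : f 2 = g := rfl
    have f3 : f 3 = g * θ := rfl
    have hfV : ∀ i, f i ∈ V := by
      intro i
      fin_cases i
      · exact V.one_mem
      · exact hθ
      · exact hg
      · exact V.mul_mem hg hθ
    have k01 : ∀ x ∈ A₁, ∀ y ∈ A₁, x ≠ θ y := by
      intro x hx y hy h
      exact hd x hx (h ▸ hθ1 y hy)
    have k02 : ∀ x ∈ A₁, ∀ y ∈ A₁, x ≠ g y := by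
      intro x hx y hy h
      exact hA1 y (hs1 y hy) (h ▸ hs1 x hx)
    have k03 : ∀ x ∈ A₁, ∀ y ∈ A₁, x ≠ g (θ y) := by
      intro x hx y hy h
      exact hA1 (θ y) (hs2 _ (hθ1 y hy)) (h ▸ hs1 x hx)
    have k12 : ∀ x ∈ A₁, ∀ y ∈ A₁, θ x ≠ g y := by
      intro x hx y hy h
      exact hA1 y (hs1 y hy) (h ▸ hs2 _ (hθ1 x hx))
    have k13 : ∀ x ∈ A₁, ∀ y ∈ A₁, θ x ≠ g (θ y) := by
      intro x hx y hy h
      exact hA1 (θ y) (hs2 _ (hθ1 y hy)) (h ▸ hs2 _ (hθ1 x hx))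
    have k23 : ∀ x ∈ A₁, ∀ y ∈ A₁, g x ≠ g (θ y) := by
      intro x hx y hy h
      exact k01 x hx y hy (g.injective h)
    have hdisj : ∀ i j, i ≠ j → ∀ x ∈ A₁, ∀ y ∈ A₁, f i x ≠ f j y := by
      intro i j hij x hx y hy
      fin_cases i <;> fin_cases j
      · exact absurd rfl hij
      · exact k01 x hx y hy
      · exact k02 x hx y hy
      · exact k03 x hx y hy
      · exact fun h => k01 y hy x hx h.symm
      · exact absurd rfl hij
      · exact k12 x hx y hy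
      · exact k13 x hx y hy
      · exact fun h => k02 y hy x hx h.symm
      · exact fun h => k12 y hy x hx h.symm
      · exact absurd rfl hij
      · exact k23 x hx y hy
      · exact fun h => k03 y hy x hx h.symm
      · exact fun h => k13 y hy x hx h.symm
      · exact fun h => k23 y hy x hx h.symm
      · exact absurd rfl hij
    obtain ⟨Φ, hΦV, hΦ1, hΦ2⟩ := perm_embed hL1 f hfV hdisj
    set π : Equiv.Perm (Fin 4) := Equiv.swap (0 : Fin 4) 2 * Equiv.swap 1 3 with hπ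
    have p0 : π 0 = 2 := by rw [hπ]; decide
    have p1 : π 1 = 3 := by rw [hπ]; decide
    have p2 : π 2 = 0 := by rw [hπ]; decide
    have p3 : π 3 = 1 := by rw [hπ]; decide
    have m0 : ∀ x ∈ A₁, Φ π x = g x := by
      intro x hx
      have h := hΦ1 π 0 x hx
      rw [p0, f0, f2] at h
      exact h
    have m1 : ∀ x ∈ A₁, Φ π (θ x) = g (θ x) := by
      intro x hx
      have h := hΦ1 π 1 x hx
      rw [p1, f1, f3] at h
      exact h
    have m2 : ∀ x ∈ A₁, Φ π (g x) = x := by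
      intro x hx
      have h := hΦ1 π 2 x hx
      rw [p2, f0, f2] at h
      exact h
    have m3 : ∀ x ∈ A₁, Φ π (g (θ x)) = θ x := by
      intro x hx
      have h := hΦ1 π 3 x hx
      rw [p3, f1, f3] at h
      exact h
    have hmem : ∀ x, x ∈ A → x ∈ A₁ ∨ ∃ a ∈ A₁, x = θ a := by
      intro x hx
      rw [← hun] at hx
      rcases hx with h | h
      · exact Or.inl h
      · rw [← hθim] at h
        obtain ⟨a, ha, rfl⟩ := h
        exact Or.inr ⟨a, ha, rfl⟩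
    have hgπ : g = Φ π := by
      ext1 x
      by_cases hx : x ∈ A
      · rcases hmem x hx with h | ⟨a, ha, rfl⟩
        · exact (m0 x h).symm
        · exact (m1 a ha).symm
      · by_cases hgx : g x = x
        · have : Φ π x = x := by
            apply hΦ2
            intro i
            rintro ⟨a, ha, hax⟩
            fin_cases i
            · have h : a = x := hax
              exact hx (h ▸ hs1 a ha)
            · have h : θ a = x := hax
              exact hx (h ▸ hs2 _ (hθ1 a ha))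
            · have h : g a = x := hax
              apply hx
              have h3 : g x = a := by rw [← h, hgg]
              rw [← hgx, h3]
              exact hs1 a ha
            · have h : g (θ a) = x := hax
              apply hx
              have h3 : g x = θ a := by rw [← h, hgg]
              rw [← hgx, h3]
              exact hs2 _ (hθ1 a ha)
          rw [this, hgx]
        · have h3 : g x ∈ A := (hA2 x hgx).resolve_left hx
          rcases hmem _ h3 with h | ⟨a, ha, h4⟩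
          · have := m2 (g x) h
            rw [hgg] at this
            exact this.symm
          · have := m3 a ha
            rw [← h4, hgg] at this
            exact this.symm
    refine ⟨Φ (Equiv.swap (0 : Fin 4) 1 * Equiv.swap 1 2), hΦV _,
      Φ (Equiv.swap 0 1 * Equiv.swap 2 3), hΦV _, ?_⟩
    rw [← map_inv, ← map_inv, ← map_mul, ← map_mul, ← map_mul, ← perm4_comm]
    exact hgπ
  · refine ⟨1, V.one_mem, 1, V.one_mem, ?_⟩
    have : ∀ x, g x = x := by
      intro x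
      by_contra h
      rcases hA2 x h with h3 | h3
      · exact hne ⟨_, h3⟩
      · exact hne ⟨_, h3⟩
    ext1 x
    simp [this x]




/-! #### part bip -/


theorem prod_fix_7364 (U : Set C) (L : List (Equiv.Perm C))
    (hL : ∀ c ∈ L, ∀ x, x ∉ U → c x = x) : ∀ x, x ∉ U → L.prod x = x := by
  induction L with
  | nil => intro x _; rfl
  | cons c L ih =>
    intro x hx
    rw [List.prod_cons, Equiv.Perm.mul_apply,
      ih (fun d hd => hL d (List.mem_cons_of_mem _ hd)) x hx]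
    exact hL c List.mem_cons_self x hx

theorem step_7364 (h c E K t : Equiv.Perm C) (hc : c * c = 1) (hE : E * E = 1)
    (hh : h = K * t * K⁻¹ * t⁻¹ * E) (hcom : E * h = h * E) :
    h * c = (h * c * t * K * t⁻¹) * t * (h * c * t * K * t⁻¹)⁻¹ * t⁻¹ *
      (t * (h * c * h⁻¹ * E) * t⁻¹) := by
  have e1 : K * t * K⁻¹ * t⁻¹ = h * E := by
    have : h * E = K * t * K⁻¹ * t⁻¹ * (E * E) := by
      nth_rewrite 1 [hh]; group
    rw [this, hE, mul_one]
  have hci : c⁻¹ = c := inv_eq_of_mul_eq_one_left hc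
  have e2 : E * h⁻¹ = h⁻¹ * E := by
    have : h⁻¹ * (E * h) * h⁻¹ = h⁻¹ * (h * E) * h⁻¹ := by rw [hcom]
    have l : h⁻¹ * (E * h) * h⁻¹ = h⁻¹ * E := by group
    have r : h⁻¹ * (h * E) * h⁻¹ = E * h⁻¹ := by group
    rw [l, r] at this
    exact this.symm
  calc h * c = h * c * t * (h * h⁻¹) * (E * E) * t⁻¹ := by rw [hE]; group
    _ = h * c * t * h * (h⁻¹ * E) * E * t⁻¹ := by group
    _ = h * c * t * h * (E * h⁻¹) * E * t⁻¹ := by rw [e2]
    _ = h * c * t * (h * E) * (c * c) * h⁻¹ * E * t⁻¹ := by rw [hc]; group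
    _ = h * c * t * (K * t * K⁻¹ * t⁻¹) * (c⁻¹ * c) * h⁻¹ * E * t⁻¹ := by rw [e1, hci]
    _ = (h * c * t * K * t⁻¹) * t * (h * c * t * K * t⁻¹)⁻¹ * t⁻¹ *
      (t * (h * c * h⁻¹ * E) * t⁻¹) := by group

theorem bip_aux_7364 {G : Subgroup (Equiv.Perm C)} (U : Set C)
    (t : Equiv.Perm C) (ht : t ∈ G) (L : List (Equiv.Perm C)) :
    (∀ c ∈ L, c ∈ G ∧ c * c = 1 ∧ ∀ x, x ∉ U → c x = x) →
    (∀ j : ℕ, 1 ≤ j → j ≤ L.length → ∀ x ∈ U, (t ^ j) x ∉ U) →
    ∃ K ∈ G, ∃ E ∈ G, E * E = 1 ∧ L.prod = K * t * K⁻¹ * t⁻¹ * E ∧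
      ∀ x, (∀ j : ℕ, 1 ≤ j → j ≤ L.length → ∀ u ∈ U, x ≠ (t ^ j) u) → E x = x := by
  induction L using List.reverseRecOn with
  | nil =>
    intro _ _
    refine ⟨1, G.one_mem, 1, G.one_mem, by simp, by simp, fun x _ => rfl⟩
  | append_singleton L c ih =>
    intro hL hU
    obtain ⟨K, hK, E, hE, hEE, hprod, hfix⟩ := ih
      (fun d hd => hL d (List.mem_append_left _ hd))
      (fun j hj1 hj2 => hU j hj1 (by rw [List.length_append]; omega))
    obtain ⟨hcG, hcc, hcU⟩ := hL c (by simp)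
    have hhU : ∀ x, x ∉ U → L.prod x = x :=
      prod_fix_7364 U L (fun d hd => (hL d (List.mem_append_left _ hd)).2.2)
    have hhG : L.prod ∈ G := G.list_prod_mem fun d hd => (hL d (List.mem_append_left _ hd)).1
    have hEU : ∀ x ∈ U, E x = x := by
      intro x hx
      apply hfix
      intro j hj1 hj2 u hu heq
      exact hU j hj1 (by rw [List.length_append]; omega) u hu (heq ▸ hx)
    obtain ⟨h, hh⟩ : ∃ h, h = L.prod := ⟨_, rfl⟩
    rw [← hh] at hhU hhG hprod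
    have com1 : E * h = h * E := by
      have : Equiv.Perm.Disjoint E h := by
        intro x
        by_cases hx : x ∈ U
        · exact Or.inl (hEU x hx)
        · exact Or.inr (hhU x hx)
      exact this.commute
    have com2 : E * c = c * E := by
      have : Equiv.Perm.Disjoint E c := by
        intro x
        by_cases hx : x ∈ U
        · exact Or.inl (hEU x hx)
        · exact Or.inr (hcU x hx)
      exact this.commute
    have hhi : ∀ x, x ∉ U → h⁻¹ x = x := by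
      intro x hx
      rw [Equiv.Perm.inv_eq_iff_eq, hhU x hx]
    refine ⟨h * c * t * K * t⁻¹, ?_, t * (h * c * h⁻¹ * E) * t⁻¹, ?_, ?_, ?_, ?_⟩
    · exact G.mul_mem (G.mul_mem (G.mul_mem (G.mul_mem hhG hcG) ht) hK) (G.inv_mem ht)
    · exact G.mul_mem (G.mul_mem ht (G.mul_mem (G.mul_mem (G.mul_mem hhG hcG) (G.inv_mem hhG)) hE))
        (G.inv_mem ht)
    · have com3 : E * (h * c * h⁻¹) = (h * c * h⁻¹) * E := by
        have hc1 : Commute E h := com1
        have hc2 : Commute E c := com2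
        exact ((hc1.mul_right hc2).mul_right hc1.inv_right)
      calc t * (h * c * h⁻¹ * E) * t⁻¹ * (t * (h * c * h⁻¹ * E) * t⁻¹)
          = t * (h * c * h⁻¹) * (E * (h * c * h⁻¹)) * E * t⁻¹ := by group
        _ = t * (h * c * h⁻¹) * ((h * c * h⁻¹) * E) * E * t⁻¹ := by rw [com3]
        _ = t * h * (c * c) * h⁻¹ * (E * E) * t⁻¹ := by group
        _ = 1 := by rw [hcc, hEE]; group
    · rw [List.prod_append, List.prod_singleton, ← hh]
      exact step_7364 h c E K t hcc hEE hprod com1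
    · intro x hx
      have hz0 : t⁻¹ x ∉ U := by
        intro hz
        apply hx 1 le_rfl (by rw [List.length_append]; simp) _ hz
        rw [pow_one]; simp
      have hz1 : E (t⁻¹ x) = t⁻¹ x := by
        apply hfix
        intro j hj1 hj2 u hu heq
        apply hx (j + 1) (by omega) (by rw [List.length_append]; simp; exact hj2) u hu
        rw [pow_succ', Equiv.Perm.mul_apply, ← heq]
        simp
      simp only [Equiv.Perm.mul_apply]
      rw [hz1, hhi _ hz0, hcU _ hz0, hhU _ hz0]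
      simp

theorem bip {G : Subgroup (Equiv.Perm C)} (L : List (Equiv.Perm C)) (U : Set C)
    (t : Equiv.Perm C) (ht : t ∈ G)
    (hL : ∀ c ∈ L, c ∈ G ∧ c * c = 1 ∧ ∀ x, x ∉ U → c x = x)
    (hU : ∀ j : ℕ, 1 ≤ j → j ≤ L.length → ∀ x ∈ U, (t ^ j) x ∉ U) :
    ∃ K ∈ G, ∃ E ∈ G, E * E = 1 ∧ L.prod = K * t * K⁻¹ * t⁻¹ * E := by
  obtain ⟨K, hK, E, hE, h1, h2, -⟩ := bip_aux_7364 U t ht L hL hU
  exact ⟨K, hK, E, hE, h1, h2⟩




/-! #### part emb -/


open Classical in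
/-- the action inside the cylinder of `w` -/
noncomputable def inCy (w : List Bool) (f : C → C) (x : C) : C :=
  if x ∈ cy w then app w (f (sh w.length x)) else x

theorem inCy_app (w : List Bool) (f : C → C) (y : C) : inCy w f (app w y) = app w (f y) := by
  have h : app w y ∈ cy w := ⟨y, rfl⟩
  simp only [inCy, if_pos h, sh_app]

theorem inCy_out (w : List Bool) (f : C → C) {x : C} (hx : x ∉ cy w) : inCy w f x = x := by
  simp only [inCy, if_neg hx]

theorem inCy_comp (w : List Bool) (f g h : C → C) (hfg : ∀ x, f (g x) = h x) (x : C) :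
    inCy w f (inCy w g x) = inCy w h x := by
  by_cases hx : x ∈ cy w
  · obtain ⟨y, rfl⟩ := hx
    rw [inCy_app, inCy_app, inCy_app, hfg]
  · rw [inCy_out w g hx, inCy_out w f hx, inCy_out w h hx]

theorem inCy_id (w : List Bool) (f : C → C) (hf : ∀ x, f x = x) (x : C) : inCy w f x = x := by
  by_cases hx : x ∈ cy w
  · obtain ⟨y, rfl⟩ := hx
    rw [inCy_app, hf]
  · exact inCy_out w f hx

theorem app_sh_of_mem {w : List Bool} {x : C} (hx : x ∈ cy w) : app w (sh w.length x) = x := by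
  obtain ⟨y, rfl⟩ := hx
  rw [sh_app]

/-- the permutation acting inside the cylinder of `w` -/
noncomputable def inCyP (w : List Bool) (e : Equiv.Perm C) : Equiv.Perm C where
  toFun := inCy w e
  invFun := inCy w (e⁻¹ : Equiv.Perm C)
  left_inv x := by
    rw [inCy_comp w (e⁻¹ : Equiv.Perm C) e (fun y => y) (fun y => by simp) x]
    exact inCy_id w _ (fun _ => rfl) x
  right_inv x := by
    rw [inCy_comp w e (e⁻¹ : Equiv.Perm C) (fun y => y) (fun y => by simp) x]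
    exact inCy_id w _ (fun _ => rfl) x

/-- `V` acting inside a cylinder -/
theorem exists_embed (w : List Bool) :
    ∃ Φ : Equiv.Perm C →* Equiv.Perm C, (∀ e x, Φ e (app w x) = app w (e x)) ∧
      (∀ e x, x ∉ cy w → Φ e x = x) ∧ (∀ e ∈ V, Φ e ∈ V) ∧
      (∀ h ∈ V, (∀ x, x ∉ cy w → h x = x) → ∃ e ∈ V, Φ e = h) := by
  refine ⟨⟨⟨inCyP w, Equiv.ext fun x => inCy_id w _ (fun _ => rfl) x⟩,
    fun a b => Equiv.ext fun x => (inCy_comp w a b _ (fun _ => rfl) x).symm⟩, ?_, ?_, ?_, ?_⟩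
  · exact fun e x => inCy_app w e x
  · exact fun e x hx => inCy_out w e hx
  · intro e he x
    have h1 : LocAt (inCy w e) x := by
      refine LocAt_ite (LC_cy w) x (fun _ => ?_) (fun _ => LocAt_id x)
      exact LocAt.comp (f := fun y => e (sh w.length y))
        (LocAt.comp (LocAt_sh w.length x) (he _)) (LocAt_app w _)
    exact h1
  · intro h hV hout
    have hin : ∀ x, x ∈ cy w → h x ∈ cy w := by
      intro x hx
      by_contra hn
      have h1 := h.injective (hout _ hn)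
      rw [h1] at hn
      exact hn hx
    have hout' : ∀ x, x ∉ cy w → (h⁻¹ : Equiv.Perm C) x = x := by
      intro x hx
      have h1 := hout x hx
      calc (h⁻¹ : Equiv.Perm C) x = (h⁻¹ : Equiv.Perm C) (h x) := by rw [h1]
        _ = x := by simp
    have hin' : ∀ x, x ∈ cy w → (h⁻¹ : Equiv.Perm C) x ∈ cy w := by
      intro x hx
      by_contra hn
      have h1 := hout _ hn
      have h2 : h ((h⁻¹ : Equiv.Perm C) x) = x := by simp
      rw [h2] at h1
      rw [← h1] at hn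
      exact hn hx
    let e : Equiv.Perm C :=
      { toFun := fun x => sh w.length (h (app w x))
        invFun := fun x => sh w.length ((h⁻¹ : Equiv.Perm C) (app w x))
        left_inv := fun x => by
          show sh w.length ((h⁻¹ : Equiv.Perm C) (app w (sh w.length (h (app w x))))) = x
          rw [app_sh_of_mem (hin _ ⟨x, rfl⟩)]
          have : (h⁻¹ : Equiv.Perm C) (h (app w x)) = app w x := by simp
          rw [this, sh_app]
        right_inv := fun x => by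
          show sh w.length (h (app w (sh w.length ((h⁻¹ : Equiv.Perm C) (app w x))))) = x
          rw [app_sh_of_mem (hin' _ ⟨x, rfl⟩)]
          have : h ((h⁻¹ : Equiv.Perm C) (app w x)) = app w x := by simp
          rw [this, sh_app] }
    refine ⟨e, ?_, ?_⟩
    · intro x
      exact LocAt.comp (f := fun y => h (app w y)) (LocAt.comp (LocAt_app w x) (hV _))
        (LocAt_sh w.length _)
    · refine Equiv.ext fun x => ?_
      show inCy w e x = h x
      by_cases hx : x ∈ cy w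
      · obtain ⟨y, rfl⟩ := hx
        rw [inCy_app]
        show app w (sh w.length (h (app w y))) = _
        rw [app_sh_of_mem (hin _ ⟨y, rfl⟩)]
      · rw [inCy_out w _ hx, hout x hx]




/-! #### part three -/

/-! ### auxiliary lemmas -/

theorem app1_7366 (b : Bool) (y : C) (h : y 0 = b) : app [b] (sh 1 y) = y := by
  funext i
  rcases i with _ | i
  · simp [app, h]
  · simp [app, sh]

theorem app2_7366 (a b : Bool) (y : C) (h0 : y 0 = a) (h1 : y 1 = b) : app [a, b] (sh 2 y) = y := by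
  funext i
  rcases i with _ | _ | i
  · simp [app, h0]
  · simp [app, h1]
  · simp [app, sh]

theorem LC_letter7366 (n : ℕ) : LC {y : C | y n = true} := by
  intro x
  refine ⟨n + 1, fun y hy => ?_⟩
  show y n = true ↔ x n = true
  rw [hy n (by omega)]

open Classical in
theorem exists_t7366 : ∃ t ∈ V, (∀ y : C, y 0 = true → (t y) 0 = true) ∧
    (∀ y : C, y ∈ cy [false, true] → (t y) 0 = true) := by
  obtain ⟨T0, hT0⟩ : ∃ T : Set C, T = {y : C | y 0 = true} := ⟨_, rfl⟩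
  obtain ⟨T1, hT1⟩ : ∃ T : Set C, T = {y : C | y 1 = true} := ⟨_, rfl⟩
  have m0 : ∀ y, y ∈ T0 ↔ y 0 = true := fun y => by rw [hT0]; rfl
  have m1 : ∀ y, y ∈ T1 ↔ y 1 = true := fun y => by rw [hT1]; rfl
  have l0 : LC T0 := by rw [hT0]; exact LC_letter7366 0
  have l1 : LC T1 := by rw [hT1]; exact LC_letter7366 1
  obtain ⟨f, hf⟩ : ∃ f : C → C, f = fun y => if y ∈ T0 then app [true] y else
    (fun y => if y ∈ T1 then app [true, false] (sh 2 y) else sh 1 y) y := ⟨_, rfl⟩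
  obtain ⟨g, hg⟩ : ∃ g : C → C, g = fun y => if y ∈ T0 then (if y ∈ T1 then sh 1 y else
    app [false, true] (sh 2 y)) else app [false] y := ⟨_, rfl⟩
  have hloc : Loc f := by
    intro x
    rw [hf]
    apply LocAt_ite l0 x
    · intro _
      exact LocAt_app _ _
    · intro _
      apply LocAt_ite l1 x
      · intro _
        exact (LocAt_sh 2 x).comp (LocAt_app _ _)
      · intro _
        exact LocAt_sh 1 x
  have f1 : ∀ y : C, y 0 = true → f y = app [true] y := by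
    intro y h
    rw [hf]
    simp only
    rw [if_pos ((m0 y).2 h)]
  have f2 : ∀ y : C, y 0 = false → y 1 = true → f y = app [true, false] (sh 2 y) := by
    intro y h h'
    rw [hf]
    simp only
    rw [if_neg (by rw [m0, h]; simp), if_pos ((m1 y).2 h')]
  have f3 : ∀ y : C, y 0 = false → y 1 = false → f y = sh 1 y := by
    intro y h h'
    rw [hf]
    simp only
    rw [if_neg (by rw [m0, h]; simp), if_neg (by rw [m1, h']; simp)]
  have g1 : ∀ y : C, y 0 = true → y 1 = true → g y = sh 1 y := by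
    intro y h h'
    rw [hg]
    simp only
    rw [if_pos ((m0 y).2 h), if_pos ((m1 y).2 h')]
  have g2 : ∀ y : C, y 0 = true → y 1 = false → g y = app [false, true] (sh 2 y) := by
    intro y h h'
    rw [hg]
    simp only
    rw [if_pos ((m0 y).2 h), if_neg (by rw [m1, h']; simp)]
  have g3 : ∀ y : C, y 0 = false → g y = app [false] y := by
    intro y h
    rw [hg]
    simp only
    rw [if_neg (by rw [m0, h]; simp)]
  have hgf : ∀ y, g (f y) = y := by
    intro y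
    rcases h0 : y 0 with _ | _
    · rcases h1 : y 1 with _ | _
      · rw [f3 y h0 h1, g3 _ (by simpa [sh] using h1), app1_7366 false y h0]
      · rw [f2 y h0 h1, g2 _ (by simp [app]) (by simp [app])]
        have := sh_app [true, false] (sh 2 y)
        have e : ([true, false] : List Bool).length = 2 := rfl
        rw [e] at this
        rw [this, app2_7366 false true y h0 h1]
    · rw [f1 y h0, g1 _ (by simp [app]) (by simp [app, h0])]
      exact sh_app [true] y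
  have hfg : ∀ y, f (g y) = y := by
    intro y
    rcases h0 : y 0 with _ | _
    · rw [g3 y h0, f3 _ (by simp [app]) (by simp [app, h0])]
      exact sh_app [false] y
    · rcases h1 : y 1 with _ | _
      · rw [g2 y h0 h1, f2 _ (by simp [app]) (by simp [app])]
        have := sh_app [false, true] (sh 2 y)
        have e : ([false, true] : List Bool).length = 2 := rfl
        rw [e] at this
        rw [this, app2_7366 true false y h0 h1]
      · rw [g1 y h0 h1, f1 _ (by simpa [sh] using h1), app1_7366 true y h0]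
  have hbij : Function.Bijective f :=
    Function.bijective_iff_has_inverse.2 ⟨g, hgf, hfg⟩
  obtain ⟨t, ht, hte⟩ := exists_perm hbij hloc
  refine ⟨t, ht, ?_, ?_⟩
  · intro y hy
    rw [hte, f1 y hy]
    simp [app]
  · rintro y ⟨z, rfl⟩
    rw [hte, f2 _ (by simp [app]) (by simp [app])]
    simp [app]

theorem exists_clopen7366 {h : Equiv.Perm C} (hh : h ∈ V) {x : C} (hx : h x ≠ x) :
    ∃ A : Set C, LC A ∧ A.Nonempty ∧ Aᶜ.Nonempty ∧ ∀ y ∈ A, h y ∉ A := by
  obtain ⟨i, hi⟩ := Function.ne_iff.1 hx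
  obtain ⟨n, hn⟩ := (hh x).cont (i + 1)
  refine ⟨Cyl x (max n (i + 1)), LC_Cyl _ _, ⟨x, mem_Cyl_self _ _⟩, ?_, ?_⟩
  · refine ⟨h x, fun hc => ?_⟩
    exact hi (hc i (lt_of_lt_of_le (Nat.lt_succ_self i) (le_max_right _ _)))
  · intro y hy hc
    have h1 := hn y (Cyl_mono (le_max_left _ _) hy) i (Nat.lt_succ_self i)
    have h2 := hc i (lt_of_lt_of_le (Nat.lt_succ_self i) (le_max_right _ _))
    exact hi (h1.symm.trans h2)

open Classical in
theorem exists_sigma7366 {h : Equiv.Perm C} (hh : h ∈ V) {A : Set C} (hA : LC A)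
    (hd : ∀ y ∈ A, h y ∉ A) :
    ∃ s ∈ V, s * s = 1 ∧ ∀ y ∈ A, s (h y) = y := by
  obtain ⟨B, hB⟩ : ∃ B : Set C, B = h '' A := ⟨_, rfl⟩
  have lB : LC B := by rw [hB]; exact hA.image hh
  have mB : ∀ y, y ∈ B ↔ (h⁻¹ : Equiv.Perm C) y ∈ A := by
    intro y
    rw [hB]
    constructor
    · rintro ⟨z, hz, rfl⟩
      simpa using hz
    · intro hy
      exact ⟨_, hy, by simp⟩
  obtain ⟨f, hf⟩ : ∃ f : C → C, f = fun y => if y ∈ A then h y else
    (fun y => if y ∈ B then (h⁻¹ : Equiv.Perm C) y else y) y := ⟨_, rfl⟩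
  have hloc : Loc f := by
    intro x
    rw [hf]
    apply LocAt_ite hA x
    · intro _
      exact hh x
    · intro _
      apply LocAt_ite lB x
      · intro _
        exact V.inv_mem hh x
      · intro _
        exact LocAt_id x
  have f1 : ∀ y ∈ A, f y = h y := by
    intro y hy
    rw [hf]
    simp only
    rw [if_pos hy]
  have f2 : ∀ y, y ∉ A → y ∈ B → f y = (h⁻¹ : Equiv.Perm C) y := by
    intro y hy hy'
    rw [hf]
    simp only
    rw [if_neg hy, if_pos hy']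
  have f3 : ∀ y, y ∉ A → y ∉ B → f y = y := by
    intro y hy hy'
    rw [hf]
    simp only
    rw [if_neg hy, if_neg hy']
  have hff : ∀ y, f (f y) = y := by
    intro y
    by_cases hy : y ∈ A
    · rw [f1 y hy, f2 _ (hd y hy) ((mB _).2 (by simpa using hy))]
      simp
    · by_cases hy' : y ∈ B
      · rw [f2 y hy hy', f1 _ ((mB y).1 hy')]
        simp
      · rw [f3 y hy hy', f3 y hy hy']
  have hbij : Function.Bijective f := Function.bijective_iff_has_inverse.2 ⟨f, hff, hff⟩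
  obtain ⟨s, hs, hse⟩ := exists_perm hbij hloc
  refine ⟨s, hs, ?_, ?_⟩
  · ext y : 1
    rw [Equiv.Perm.mul_apply, hse, hse, hff]
    rfl
  · intro y hy
    rw [hse, f2 _ (hd y hy) ((mB _).2 (by simpa using hy))]
    simp




/-- every element of `V` is a product of three commutators -/
theorem three_comm {h : Equiv.Perm C} (hh : h ∈ V) :
    ∃ s t : Fin 3 → Equiv.Perm C, (∀ i, s i ∈ V) ∧ (∀ i, t i ∈ V) ∧
      h = (s 0 * t 0 * (s 0)⁻¹ * (t 0)⁻¹) * (s 1 * t 1 * (s 1)⁻¹ * (t 1)⁻¹) *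
        (s 2 * t 2 * (s 2)⁻¹ * (t 2)⁻¹) := by
  by_cases h1 : h = 1
  · refine ⟨fun _ => 1, fun _ => 1, fun _ => V.one_mem, fun _ => V.one_mem, ?_⟩
    rw [h1]; simp
  obtain ⟨x, hx⟩ : ∃ x, h x ≠ x := by
    by_contra hcon
    push Not at hcon
    exact h1 (Equiv.ext hcon)
  obtain ⟨A, lA, neA, neAc, hd⟩ := exists_clopen7366 hh hx
  obtain ⟨σ, hσ, hσσ, hσh⟩ := exists_sigma7366 hh lA hd
  obtain ⟨t0, ht0, ht1, ht2⟩ := exists_t7366
  have hU : LC (cy [false, true]) := LC_cy _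
  have neU : (cy [false, true]).Nonempty := ⟨_, ⟨x, rfl⟩⟩
  have neUc : (cy [false, true])ᶜ.Nonempty := by
    refine ⟨fun _ => false, ?_⟩
    rintro ⟨z, hz⟩
    have := congrFun hz 1
    simp [app] at this
  obtain ⟨e, he, heU⟩ := exists_map lA.compl hU neAc neU (by rw [compl_compl]; exact neA) neUc
  obtain ⟨k, hk⟩ : ∃ k, k = e * (σ * h) * e⁻¹ := ⟨_, rfl⟩
  have hkV : k ∈ V := by
    rw [hk]; exact V.mul_mem (V.mul_mem he (V.mul_mem hσ hh)) (V.inv_mem he)
  have hksup : ∀ y, y ∉ cy [false, true] → k y = y := by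
    intro y hy
    have h2 : (e⁻¹ : Equiv.Perm C) y ∈ A := by
      by_contra h3
      apply hy
      rw [← heU]
      exact ⟨_, h3, by simp⟩
    rw [hk, Equiv.Perm.mul_apply, Equiv.Perm.mul_apply, Equiv.Perm.mul_apply, hσh _ h2]
    simp
  obtain ⟨Φ, hΦ1, hΦ2, hΦ3, hΦ4⟩ := exists_embed [false, true]
  obtain ⟨k0, hk0, hk0e⟩ := hΦ4 k hkV hksup
  obtain ⟨L, hL, hLp⟩ := gen_inv hk0
  have hprod : (L.map Φ).prod = k := by
    rw [← hk0e, ← hLp, map_list_prod]
  obtain ⟨K, hK, E, hE, hEE, hKE⟩ := bip (G := V) (L.map Φ) (cy [false, true]) t0 ht0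
    (by
      intro c hc
      rw [List.mem_map] at hc
      obtain ⟨c0, hc0, rfl⟩ := hc
      obtain ⟨h2, h3⟩ := hL c0 hc0
      refine ⟨hΦ3 c0 h2, ?_, hΦ2 c0⟩
      rw [← map_mul, h3, map_one])
    (by
      intro j hj _ y hy hc
      have h2 : ∀ j : ℕ, 1 ≤ j → ((t0 ^ j) y) 0 = true := by
        intro j hj
        induction j, hj using Nat.le_induction with
        | base => rw [pow_one]; exact ht2 y hy
        | succ j hj ih =>
          rw [pow_succ', Equiv.Perm.mul_apply]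
          exact ht1 _ ih
      have h3 := h2 j hj
      obtain ⟨z, hz⟩ := hc
      rw [← hz] at h3
      simp [app] at h3)
  rw [hprod] at hKE
  obtain ⟨a0, ha0, b0, hb0, hσe⟩ := inv_comm hσ hσσ
  obtain ⟨a, ha, b, hb, hEe⟩ := inv_comm hE hEE
  have hei := V.inv_mem he
  refine ⟨![a0, e⁻¹ * K * e, e⁻¹ * a * e], ![b0, e⁻¹ * t0 * e, e⁻¹ * b * e], ?_, ?_, ?_⟩
  · intro i
    fin_cases i
    · exact ha0
    · exact V.mul_mem (V.mul_mem hei hK) he
    · exact V.mul_mem (V.mul_mem hei ha) he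
  · intro i
    fin_cases i
    · exact hb0
    · exact V.mul_mem (V.mul_mem hei ht0) he
    · exact V.mul_mem (V.mul_mem hei hb) he
  · show h = (a0 * b0 * a0⁻¹ * b0⁻¹) *
      ((e⁻¹ * K * e) * (e⁻¹ * t0 * e) * (e⁻¹ * K * e)⁻¹ * (e⁻¹ * t0 * e)⁻¹) *
      ((e⁻¹ * a * e) * (e⁻¹ * b * e) * (e⁻¹ * a * e)⁻¹ * (e⁻¹ * b * e)⁻¹)
    have h2 : (a0 * b0 * a0⁻¹ * b0⁻¹) *
      ((e⁻¹ * K * e) * (e⁻¹ * t0 * e) * (e⁻¹ * K * e)⁻¹ * (e⁻¹ * t0 * e)⁻¹) *
      ((e⁻¹ * a * e) * (e⁻¹ * b * e) * (e⁻¹ * a * e)⁻¹ * (e⁻¹ * b * e)⁻¹) =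
      (a0 * b0 * a0⁻¹ * b0⁻¹) * (e⁻¹ * (K * t0 * K⁻¹ * t0⁻¹ * (a * b * a⁻¹ * b⁻¹)) * e) := by
      group
    rw [h2, ← hσe, ← hEe, ← hKE, hk]
    have h3 : σ * (e⁻¹ * (e * (σ * h) * e⁻¹) * e) = (σ * σ) * h := by group
    rw [h3, hσσ, one_mul]




/-! #### part threew -/


/-- the same inside a cylinder -/
theorem three_comm_cy {w : List Bool} {h : Equiv.Perm C} (hh : h ∈ V)
    (hs : ∀ x, x ∉ cy w → h x = x) :
    ∃ s t : Fin 3 → Equiv.Perm C, (∀ i, s i ∈ V ∧ ∀ x, x ∉ cy w → s i x = x) ∧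
      (∀ i, t i ∈ V ∧ ∀ x, x ∉ cy w → t i x = x) ∧
      h = (s 0 * t 0 * (s 0)⁻¹ * (t 0)⁻¹) * (s 1 * t 1 * (s 1)⁻¹ * (t 1)⁻¹) *
        (s 2 * t 2 * (s 2)⁻¹ * (t 2)⁻¹) := by
  obtain ⟨Φ, -, h2, h3, h4⟩ := exists_embed w
  obtain ⟨e, he, rfl⟩ := h4 h hh hs
  obtain ⟨s, t, hsV, htV, heq⟩ := three_comm he
  refine ⟨fun i => Φ (s i), fun i => Φ (t i), fun i => ⟨h3 _ (hsV i), fun x hx => h2 _ x hx⟩,
    fun i => ⟨h3 _ (htV i), fun x hx => h2 _ x hx⟩, ?_⟩
  conv_lhs => rw [heq]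
  simp only [map_mul, map_inv]




/-! #### part hit! -/
/-- `w` is the first point of `S` on the forward orbit of `x`, reached at time `n` -/
def Hit (f : Equiv.Perm C) (S : Set C) (n : ℕ) (x w : C) : Prop :=
  (f ^ n) x = w ∧ w ∈ S ∧ ∀ j < n, (f ^ j) x ∉ S

theorem Hit.zero (f : Equiv.Perm C) {S : Set C} {x : C} (hx : x ∈ S) : Hit f S 0 x x :=
  ⟨rfl, hx, fun _ h => absurd h (Nat.not_lt_zero _)⟩

theorem Hit.succ {f : Equiv.Perm C} {S : Set C} {n : ℕ} {x w : C} (hx : x ∉ S)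
    (h : Hit f S n (f x) w) : Hit f S (n + 1) x w := by
  obtain ⟨h1, h2, h3⟩ := h
  refine ⟨by rw [pow_succ]; exact h1, h2, fun j hj => ?_⟩
  cases j with
  | zero => exact hx
  | succ j => rw [pow_succ]; exact h3 j (by omega)

theorem Hit.tail {f : Equiv.Perm C} {S : Set C} {n : ℕ} {x w : C}
    (h : Hit f S (n + 1) x w) : x ∉ S ∧ Hit f S n (f x) w := by
  obtain ⟨h1, h2, h3⟩ := h
  refine ⟨h3 0 (by omega), ?_, h2, fun j hj => ?_⟩
  · rw [pow_succ] at h1; exact h1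
  · have := h3 (j + 1) (by omega)
    rw [pow_succ] at this; exact this

theorem Hit.unique {f : Equiv.Perm C} {S : Set C} {n m : ℕ} {x w w' : C}
    (h : Hit f S n x w) (h' : Hit f S m x w') : n = m ∧ w = w' := by
  have hnm : n = m := by
    rcases lt_trichotomy n m with h1 | h1 | h1
    · exact absurd (h.1 ▸ h.2.1) (h'.2.2 n h1)
    · exact h1
    · exact absurd (h'.1 ▸ h'.2.1) (h.2.2 m h1)
  subst hnm
  exact ⟨rfl, h.1.symm.trans h'.1⟩

theorem Hit.exists {f : Equiv.Perm C} {S : Set C} {x : C} (h : ∃ n, (f ^ n) x ∈ S) :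
    ∃ n w, Hit f S n x w := by
  classical
  exact ⟨Nat.find h, _, rfl, Nat.find_spec h, fun j hj => Nat.find_min h hj⟩


/-! #### part sky -/


theorem sky_fwd {f f' : Equiv.Perm C} {S : Set C} (h1 : ∀ x, ∃ n, (f ^ n) x ∈ S)
    {c0 : Equiv.Perm C} (hS' : ∀ z, c0 z ∈ S ↔ z ∈ S)
    (hr : ∀ z ∈ S, ∀ n w, Hit f S n (f z) w → Hit f' S n (f' (c0 z)) (c0 w)) :
    ∀ n x w, Hit f S n x w → ∃ x', Hit f' S n x' (c0 w) := by
  intro n
  induction n with
  | zero =>
    intro x w h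
    exact ⟨c0 w, Hit.zero f' ((hS' w).2 h.2.1)⟩
  | succ n ih =>
    intro x w h
    obtain ⟨hx, ht⟩ := h.tail
    obtain ⟨y', hy'⟩ := ih _ _ ht
    have hy2 : f' (f'⁻¹ y') = y' := by simp
    refine ⟨f'⁻¹ y', Hit.succ ?_ (by rw [hy2]; exact hy')⟩
    intro hmem
    have hz : c0 (c0⁻¹ (f'⁻¹ y')) = f'⁻¹ y' := by simp
    have hzS : c0⁻¹ (f'⁻¹ y') ∈ S := by
      rw [← hS', hz]; exact hmem
    obtain ⟨m, w1, hm⟩ := Hit.exists (h1 (f (c0⁻¹ (f'⁻¹ y'))))
    have h3 := hr _ hzS m w1 hm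
    rw [hz, hy2] at h3
    obtain ⟨h4, h5⟩ := Hit.unique hy' h3
    subst h4
    have h6 : w = w1 := c0.injective h5
    rw [← h6] at hm
    have h7 : f (c0⁻¹ (f'⁻¹ y')) = f x := (f ^ n).injective (hm.1.trans ht.1.symm)
    rw [f.injective h7] at hzS
    exact hx hzS

theorem sky_bwd {f f' : Equiv.Perm C} {S : Set C}
    {c0 : Equiv.Perm C} (hS' : ∀ z, c0 z ∈ S ↔ z ∈ S)
    (hr : ∀ z ∈ S, ∀ n w, Hit f S n (f z) w → Hit f' S n (f' (c0 z)) (c0 w)) :
    ∀ n x' w, Hit f' S n x' (c0 w) → ∃ x, Hit f S n x w := by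
  intro n
  induction n with
  | zero =>
    intro x' w h
    exact ⟨w, Hit.zero f ((hS' w).1 h.2.1)⟩
  | succ n ih =>
    intro x' w h
    obtain ⟨hx, ht⟩ := h.tail
    obtain ⟨y, hy⟩ := ih _ _ ht
    have hy2 : f (f⁻¹ y) = y := by simp
    refine ⟨f⁻¹ y, Hit.succ ?_ (by rw [hy2]; exact hy)⟩
    intro hmem
    have h3 := hr _ hmem n w (by rw [hy2]; exact hy)
    have h4 : f' (c0 (f⁻¹ y)) = f' x' := (f' ^ n).injective (h3.1.trans ht.1.symm)
    have h5 := f'.injective h4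
    rw [← h5] at hx
    exact hx ((hS' _).2 hmem)

/-- skyscraper conjugacy -/
theorem sky {f f' : Equiv.Perm C} (hf : f ∈ V) (hf' : f' ∈ V) {S : Set C} (hS : LC S)
    (h1 : ∀ x, ∃ n, (f ^ n) x ∈ S) (h2 : ∀ x, ∃ n, (f' ^ n) x ∈ S)
    {c0 : Equiv.Perm C} (hc0 : c0 ∈ V) (hS' : ∀ z, c0 z ∈ S ↔ z ∈ S)
    (hr : ∀ z ∈ S, ∀ n w, Hit f S n (f z) w → Hit f' S n (f' (c0 z)) (c0 w)) :
    ∃ c ∈ V, c * f = f' * c := by
  classical
  have hex : ∀ x, ∃ x', ∃ n w, Hit f S n x w ∧ Hit f' S n x' (c0 w) := by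
    intro x
    obtain ⟨n, w, hw⟩ := Hit.exists (h1 x)
    obtain ⟨x', hx'⟩ := sky_fwd h1 hS' hr n x w hw
    exact ⟨x', n, w, hw, hx'⟩
  choose c hc using hex
  have huniq : ∀ x x' x'', (∃ n w, Hit f S n x w ∧ Hit f' S n x' (c0 w)) →
      (∃ n w, Hit f S n x w ∧ Hit f' S n x'' (c0 w)) → x' = x'' := by
    rintro x x' x'' ⟨n, w, ha, hb⟩ ⟨m, v, ha', hb'⟩
    obtain ⟨e1, e2⟩ := Hit.unique ha ha'
    subst e1
    subst e2
    exact (f' ^ n).injective (hb.1.trans hb'.1.symm)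
  have hinj : Function.Injective c := by
    intro x y hxy
    obtain ⟨n, w, ha, hb⟩ := hc x
    obtain ⟨m, v, ha', hb'⟩ := hc y
    rw [← hxy] at hb'
    obtain ⟨e1, e2⟩ := Hit.unique hb hb'
    subst e1
    have e3 := c0.injective e2
    subst e3
    exact (f ^ n).injective (ha.1.trans ha'.1.symm)
  have hsurj : Function.Surjective c := by
    intro x'
    obtain ⟨n, w', hw'⟩ := Hit.exists (h2 x')
    have hw2 : c0 (c0⁻¹ w') = w' := by simp
    rw [← hw2] at hw'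
    obtain ⟨x, hx⟩ := sky_bwd hS' hr n x' _ hw'
    exact ⟨x, huniq x _ _ (hc x) ⟨n, _, hx, hw'⟩⟩
  have hloc : Loc c := by
    intro x
    obtain ⟨n, w, hw, hw'⟩ := hc x
    have h3 : ∀ j : ℕ, ∃ N, ∀ y ∈ Cyl x N, (y ∈ (f ^ j) ⁻¹' S ↔ x ∈ (f ^ j) ⁻¹' S) :=
      fun j => LC.preimage hS (f := ((f ^ j : Equiv.Perm C) : C → C)) (V.pow_mem hf j) x
    choose N hN using h3
    have hev : LocAt (fun y => ((f' ^ n)⁻¹ * c0 * f ^ n : Equiv.Perm C) y) x :=
      (V.mul_mem (V.mul_mem (V.inv_mem (V.pow_mem hf' n)) hc0) (V.pow_mem hf n) :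
        ((f' ^ n)⁻¹ * c0 * f ^ n : Equiv.Perm C) ∈ V) x
    refine hev.congr ((Finset.range (n + 1)).sup N) (fun y hy => ?_)
    have hyj : ∀ j ≤ n, ((f ^ j) y ∈ S ↔ (f ^ j) x ∈ S) := by
      intro j hj
      exact hN j y (Cyl_mono (Finset.le_sup (f := N) (Finset.mem_range.2 (by omega))) hy)
    have hHy : Hit f S n y ((f ^ n) y) := by
      refine ⟨rfl, (hyj n le_rfl).2 (by rw [hw.1]; exact hw.2.1), fun j hj hjS => ?_⟩
      exact hw.2.2 j hj ((hyj j hj.le).1 hjS)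
    obtain ⟨m, v, ha, hb⟩ := hc y
    obtain ⟨e1, e2⟩ := Hit.unique hHy ha
    subst e1
    subst e2
    show (f' ^ n)⁻¹ (c0 ((f ^ n) y)) = c y
    rw [← hb.1]
    simp
  obtain ⟨e, he, hec⟩ := exists_perm ⟨hinj, hsurj⟩ hloc
  refine ⟨e, he, ?_⟩
  apply Equiv.ext
  intro x
  show e (f x) = f' (e x)
  rw [hec, hec]
  apply huniq (f x) _ _ (hc (f x))
  obtain ⟨n, w, ha, hb⟩ := hc x
  rcases n with _ | n
  · have hx : x = w := ha.1
    have hx' : c x = c0 w := hb.1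
    have hwS := ha.2.1
    obtain ⟨m, w1, hm⟩ := Hit.exists (h1 (f w))
    refine ⟨m, w1, by rw [hx]; exact hm, ?_⟩
    rw [hx']
    exact hr w hwS m w1 hm
  · exact ⟨n, w, ha.tail.2, hb.tail.2⟩




/-! #### part ret -/


/-- the first return map of an element of `V` to a clopen set which every forward orbit meets -/
theorem ret_map {f : Equiv.Perm C} (hf : f ∈ V) {S : Set C} (hS : LC S)
    (h1 : ∀ x, ∃ n, (f ^ n) x ∈ S) :
    ∃ R ∈ V, (∀ z, z ∉ S → R z = z) ∧ (∀ z ∈ S, R z ∈ S) ∧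
      ∀ z ∈ S, ∃ n, Hit f S n (f z) (R z) := by
  classical
  have hpow : ∀ j : ℕ, Loc (fun y => (f ^ j) y) := fun j => V.pow_mem hf j
  have hpow1 : ∀ j : ℕ, Loc (fun y => (f ^ j) (f y)) := fun j => V.mul_mem (V.pow_mem hf j) hf
  have hadd : ∀ (a b : ℕ) (z : C), (f ^ (a + b)) z = (f ^ a) ((f ^ b) z) := fun a b z => by
    rw [pow_add]
    rfl
  have hsucc : ∀ (a : ℕ) (z : C), (f ^ a) (f z) = (f ^ (a + 1)) z := fun a z => by
    rw [pow_succ]
    rfl
  choose N Wt hHit using fun z => Hit.exists (f := f) (S := S) (x := f z) (h1 (f z))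
  have hWt : ∀ z, (f ^ N z) (f z) = Wt z := fun z => (hHit z).1
  have hinjS : ∀ z z' : C, z ∈ S → z' ∈ S → N z ≤ N z' → Wt z = Wt z' → z = z' := by
    intro z z' hz hz' hle he
    obtain ⟨d, hd⟩ := Nat.exists_eq_add_of_le hle
    rw [← hWt, ← hWt, hd, hadd] at he
    have h2 : f z = (f ^ d) (f z') := (f ^ N z).injective he
    have h3 : z = (f ^ d) z' := by
      apply f.injective
      rw [h2, hsucc, pow_succ']
      rfl
    cases d with
    | zero => simpa using h3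
    | succ d =>
      exfalso
      refine (hHit z').2.2 d (by omega) ?_
      rw [hsucc, ← h3]
      exact hz
  have hbij : Function.Bijective (fun y => if y ∈ S then Wt y else y) := by
    constructor
    · intro z z' he
      simp only at he
      by_cases hz : z ∈ S
      · by_cases hz' : z' ∈ S
        · rw [if_pos hz, if_pos hz'] at he
          rcases le_total (N z) (N z') with h | h
          · exact hinjS z z' hz hz' h he
          · exact (hinjS z' z hz' hz h he.symm).symm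
        · rw [if_pos hz, if_neg hz'] at he
          exact absurd (he ▸ (hHit z).2.1) hz'
      · by_cases hz' : z' ∈ S
        · rw [if_neg hz, if_pos hz'] at he
          exact absurd (he.symm ▸ (hHit z').2.1) hz
        · rw [if_neg hz, if_neg hz'] at he
          exact he
    · intro w
      by_cases hw : w ∈ S
      · obtain ⟨M, hM⟩ := uniform_of_local (fun x n => ∃ m ≤ n, (f ^ m) x ∈ S) (by
          intro x
          obtain ⟨n0, hn0⟩ := h1 x
          obtain ⟨k, hk⟩ := (hS.preimage (hpow n0)) x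
          refine ⟨max k n0, fun y hy m hm => ⟨n0, (le_max_right _ _).trans hm, ?_⟩⟩
          exact (hk y (Cyl_mono (le_max_left _ _) hy)).2 hn0)
        obtain ⟨x, hx⟩ := (f ^ (M + 1)).surjective w
        obtain ⟨m, hm, hmS⟩ := hM x
        have hex : ∃ i : ℕ, 1 ≤ i ∧ ∃ z ∈ S, (f ^ i) z = w := by
          refine ⟨M + 1 - m, by omega, (f ^ m) x, hmS, ?_⟩
          rw [← hadd, Nat.sub_add_cancel (by omega)]
          exact hx
        obtain ⟨i, ⟨hi1, z, hz, hzw⟩, hmin⟩ : ∃ i : ℕ, (1 ≤ i ∧ ∃ z ∈ S, (f ^ i) z = w) ∧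
            ∀ j < i, ¬ (1 ≤ j ∧ ∃ z ∈ S, (f ^ j) z = w) :=
          ⟨Nat.find hex, Nat.find_spec hex, fun j hj => Nat.find_min hex hj⟩
        refine ⟨z, ?_⟩
        simp only [if_pos hz]
        have hH : Hit f S (i - 1) (f z) w := by
          refine ⟨?_, hw, ?_⟩
          · rw [hsucc, Nat.sub_add_cancel hi1]
            exact hzw
          · intro j hj hjS
            rw [hsucc] at hjS
            refine hmin (i - (j + 1)) (by omega) ⟨by omega, (f ^ (j + 1)) z, hjS, ?_⟩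
            rw [← hadd, Nat.sub_add_cancel (by omega)]
            exact hzw
        exact ((hHit z).unique hH).2
      · exact ⟨w, by simp only [if_neg hw]⟩
  have hloc : Loc (fun y => if y ∈ S then Wt y else y) := by
    intro z
    refine LocAt_ite hS z (fun hz => ?_) (fun _ => LocAt_id z)
    have hA : ∀ j : ℕ, ∃ n, ∀ y ∈ Cyl z n, ((f ^ j) (f y) ∈ S ↔ (f ^ j) (f z) ∈ S) :=
      fun j => (hS.preimage (hpow1 j)) z
    choose n hn using hA
    refine (hpow1 (N z) z).congr ((Finset.range (N z + 1)).sup n) ?_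
    intro y hy
    have hy' : ∀ j ≤ N z, ((f ^ j) (f y) ∈ S ↔ (f ^ j) (f z) ∈ S) := by
      intro j hj
      refine hn j y (Cyl_mono ?_ hy)
      exact Finset.le_sup (f := n) (Finset.mem_range.2 (by omega))
    have hH : Hit f S (N z) (f y) ((f ^ N z) (f y)) := by
      refine ⟨rfl, ?_, ?_⟩
      · rw [hy' (N z) le_rfl, hWt]
        exact (hHit z).2.1
      · intro j hj hjS
        rw [hy' j hj.le] at hjS
        exact (hHit z).2.2 j hj hjS
    exact (hH.unique (hHit y)).2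
  obtain ⟨e, he, hee⟩ := exists_perm hbij hloc
  refine ⟨e, he, ?_, ?_, ?_⟩
  · intro z hz
    rw [hee]
    exact if_neg hz
  · intro z hz
    rw [hee]
    show (if z ∈ S then Wt z else z) ∈ S
    rw [if_pos hz]
    exact (hHit z).2.1
  · intro z hz
    refine ⟨N z, ?_⟩
    rw [hee]
    show Hit f S (N z) (f z) (if z ∈ S then Wt z else z)
    rw [if_pos hz]
    exact hHit z




/-! #### part lcu! -/
theorem LC_bUnion {A : ℕ → Set C} (h : ∀ j, LC (A j)) (N : ℕ) : LC {x | ∃ j < N, x ∈ A j} := by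
  induction N with
  | zero =>
    have : {x | ∃ j < 0, x ∈ A j} = ∅ := by ext x; simp
    rw [this]; exact LC_empty
  | succ N ih =>
    have : {x | ∃ j < N + 1, x ∈ A j} = {x | ∃ j < N, x ∈ A j} ∪ A N := by
      ext x; constructor
      · rintro ⟨j, hj, hx⟩
        rcases Nat.lt_succ_iff_lt_or_eq.1 hj with h1 | h1
        · exact Or.inl ⟨j, h1, hx⟩
        · subst h1; exact Or.inr hx
      · rintro (⟨j, hj, hx⟩ | hx)
        · exact ⟨j, by omega, hx⟩
        · exact ⟨N, by omega, hx⟩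
    rw [this]; exact ih.union (h N)


/-! #### part tower -/


theorem app_one_sh (x : C) : app [x 0] (sh 1 x) = x := by
  have h := app_tk_sh 1 x
  simpa [tk] using h

theorem app_two_sh (x : C) : app [x 0, x 1] (sh 2 x) = x := by
  have h := app_tk_sh 2 x
  simpa [tk] using h

/-- `1y ↦ 11y`, `01y ↦ 10y`, `00y ↦ 0y` -/
def e0 (x : C) : C :=
  if x 0 = true then app [true, true] (sh 1 x)
  else if x 1 = true then app [true, false] (sh 2 x) else app [false] (sh 2 x)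

/-- the inverse of `e0` -/
def i0 (x : C) : C :=
  if x 0 = false then app [false, false] (sh 1 x)
  else if x 1 = true then app [true] (sh 2 x) else app [false, true] (sh 2 x)

theorem e0_t (y : C) : e0 (app [true] y) = app [true, true] y := by
  have h0 : app [true] y 0 = true := app_lt (w := [true]) (by simp) y
  have h1 : sh 1 (app [true] y) = y := sh_app [true] y
  rw [e0, if_pos h0, h1]

theorem e0_ft (y : C) : e0 (app [false, true] y) = app [true, false] y := by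
  have h0 : app [false, true] y 0 = false := app_lt (w := [false, true]) (by simp) y
  have h1 : app [false, true] y 1 = true := app_lt (w := [false, true]) (by simp) y
  have h2 : sh 2 (app [false, true] y) = y := sh_app [false, true] y
  rw [e0, if_neg (by rw [h0]; decide), if_pos h1, h2]

theorem e0_ff (y : C) : e0 (app [false, false] y) = app [false] y := by
  have h0 : app [false, false] y 0 = false := app_lt (w := [false, false]) (by simp) y
  have h1 : app [false, false] y 1 = false := app_lt (w := [false, false]) (by simp) y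
  have h2 : sh 2 (app [false, false] y) = y := sh_app [false, false] y
  rw [e0, if_neg (by rw [h0]; decide), if_neg (by rw [h1]; decide), h2]

theorem i0_f (y : C) : i0 (app [false] y) = app [false, false] y := by
  have h0 : app [false] y 0 = false := app_lt (w := [false]) (by simp) y
  have h1 : sh 1 (app [false] y) = y := sh_app [false] y
  rw [i0, if_pos h0, h1]

theorem i0_tt (y : C) : i0 (app [true, true] y) = app [true] y := by
  have h0 : app [true, true] y 0 = true := app_lt (w := [true, true]) (by simp) y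
  have h1 : app [true, true] y 1 = true := app_lt (w := [true, true]) (by simp) y
  have h2 : sh 2 (app [true, true] y) = y := sh_app [true, true] y
  rw [i0, if_neg (by rw [h0]; decide), if_pos h1, h2]

theorem i0_tf (y : C) : i0 (app [true, false] y) = app [false, true] y := by
  have h0 : app [true, false] y 0 = true := app_lt (w := [true, false]) (by simp) y
  have h1 : app [true, false] y 1 = false := app_lt (w := [true, false]) (by simp) y
  have h2 : sh 2 (app [true, false] y) = y := sh_app [true, false] y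
  rw [i0, if_neg (by rw [h0]; decide), if_neg (by rw [h1]; decide), h2]

theorem cases_e (x : C) : (∃ y, x = app [true] y) ∨ (∃ y, x = app [false, true] y) ∨
    (∃ y, x = app [false, false] y) := by
  rcases h0 : x 0 with _ | _
  · rcases h1 : x 1 with _ | _
    · right; right
      refine ⟨sh 2 x, ?_⟩
      have h := app_two_sh x
      rw [h0, h1] at h
      exact h.symm
    · right; left
      refine ⟨sh 2 x, ?_⟩
      have h := app_two_sh x
      rw [h0, h1] at h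
      exact h.symm
  · left
    refine ⟨sh 1 x, ?_⟩
    have h := app_one_sh x
    rw [h0] at h
    exact h.symm

theorem cases_i (x : C) : (∃ y, x = app [false] y) ∨ (∃ y, x = app [true, true] y) ∨
    (∃ y, x = app [true, false] y) := by
  rcases h0 : x 0 with _ | _
  · left
    refine ⟨sh 1 x, ?_⟩
    have h := app_one_sh x
    rw [h0] at h
    exact h.symm
  · rcases h1 : x 1 with _ | _
    · right; right
      refine ⟨sh 2 x, ?_⟩
      have h := app_two_sh x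
      rw [h0, h1] at h
      exact h.symm
    · right; left
      refine ⟨sh 2 x, ?_⟩
      have h := app_two_sh x
      rw [h0, h1] at h
      exact h.symm

theorem i0_e0 (x : C) : i0 (e0 x) = x := by
  rcases cases_e x with ⟨y, rfl⟩ | ⟨y, rfl⟩ | ⟨y, rfl⟩
  · rw [e0_t, i0_tt]
  · rw [e0_ft, i0_tf]
  · rw [e0_ff, i0_f]

theorem e0_i0 (x : C) : e0 (i0 x) = x := by
  rcases cases_i x with ⟨y, rfl⟩ | ⟨y, rfl⟩ | ⟨y, rfl⟩
  · rw [i0_f, e0_ff]
  · rw [i0_tt, e0_t]
  · rw [i0_tf, e0_ft]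

theorem LocAt_of_word {f : C → C} {v v' : List Bool} (h : ∀ z, f (app v z) = app v' z) (z : C) :
    LocAt f (app v z) := by
  refine ⟨v.length, v', fun y hy => ?_⟩
  obtain ⟨t, rfl⟩ := mem_Cyl_app.1 hy
  rw [h, sh_app]

theorem Loc_e0 : Loc e0 := by
  intro x
  rcases cases_e x with ⟨y, rfl⟩ | ⟨y, rfl⟩ | ⟨y, rfl⟩
  · exact LocAt_of_word e0_t y
  · exact LocAt_of_word e0_ft y
  · exact LocAt_of_word e0_ff y

open Classical in
/-- `f` moved into the cylinder of `w` -/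
noncomputable def lift (w : List Bool) (f : C → C) (x : C) : C :=
  if x ∈ cy w then app w (f (sh w.length x)) else x

theorem lift_app (w : List Bool) (f : C → C) (y : C) : lift w f (app w y) = app w (f y) := by
  have h : app w y ∈ cy w := ⟨y, rfl⟩
  rw [lift, if_pos h, sh_app]

theorem lift_of_notMem {w : List Bool} (f : C → C) {x : C} (h : x ∉ cy w) : lift w f x = x := by
  rw [lift, if_neg h]

theorem lift_lift (w : List Bool) {f g : C → C} (h : ∀ x, g (f x) = x) (x : C) :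
    lift w g (lift w f x) = x := by
  by_cases hx : x ∈ cy w
  · obtain ⟨y, rfl⟩ := hx
    rw [lift_app, lift_app, h]
  · rw [lift_of_notMem f hx, lift_of_notMem g hx]

theorem Loc_lift (w : List Bool) {f : C → C} (hf : Loc f) : Loc (lift w f) := by
  classical
  intro x
  refine LocAt_ite (LC_cy w) x (fun _ => ?_) (fun _ => LocAt_id x)
  exact LocAt.comp (f := fun y => f (sh w.length y)) (h := app w)
    (LocAt.comp (f := sh w.length) (h := f) (LocAt_sh _ _) (hf _)) (LocAt_app w _)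

theorem cy_append (u v : List Bool) : cy (u ++ v) = app u '' cy v := by
  ext x
  constructor
  · rintro ⟨y, rfl⟩
    exact ⟨app v y, ⟨y, rfl⟩, (app_app u v y).symm⟩
  · rintro ⟨_, ⟨y, rfl⟩, rfl⟩
    exact ⟨y, app_app u v y⟩

theorem cy_disj {p q : List Bool} (k : ℕ) (h1 : k < p.length) (h2 : k < q.length)
    (h : p[k] ≠ q[k]) : Disjoint (cy p) (cy q) := by
  rw [Set.disjoint_left]
  rintro x ⟨y, rfl⟩ ⟨z, hz⟩
  have h3 := congrFun hz k
  rw [app_lt h1, app_lt h2] at h3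
  exact h h3.symm

theorem cy_disj' (w : List Bool) {p q : List Bool} (k : ℕ) (h1 : k < p.length) (h2 : k < q.length)
    (h : p[k] ≠ q[k]) : Disjoint (cy (w ++ p)) (cy (w ++ q)) := by
  rw [cy_append, cy_append]
  exact (Set.disjoint_image_iff (fun _ _ hh => app_inj w hh)).2 (cy_disj k h1 h2 h)

/-- the words `w 1^(j+1) 0 b` -/
def tw (w : List Bool) (b : Bool) (j : ℕ) : List Bool :=
  w ++ (List.replicate (j + 1) true ++ [false, b])

theorem tw_disj_lt (w : List Bool) (b b' : Bool) {i j : ℕ} (h : i < j) :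
    Disjoint (cy (tw w b i)) (cy (tw w b' j)) := by
  refine cy_disj' w (i + 1) (by simp) (by simp; omega) ?_
  rw [List.getElem_append_right (by simp), List.getElem_append_left (by simp; omega)]
  simp

theorem tw_disj (w : List Bool) (b b' : Bool) {i j : ℕ} (h : i ≠ j) :
    Disjoint (cy (tw w b i)) (cy (tw w b' j)) := by
  rcases lt_or_gt_of_ne h with h | h
  · exact tw_disj_lt w b b' h
  · exact (tw_disj_lt w b' b h).symm

theorem tw_disj_b (w : List Bool) (j : ℕ) :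
    Disjoint (cy (tw w false j)) (cy (tw w true j)) := by
  refine cy_disj' w (j + 2) (by simp) (by simp) ?_
  rw [List.getElem_append_right (by simp), List.getElem_append_right (by simp)]
  simp

theorem tw_image (w : List Bool) (b : Bool) (j : ℕ) :
    cy (tw w b (j + 1)) = lift w e0 '' cy (tw w b j) := by
  have key : ∀ y, lift w e0 (app (tw w b j) y) = app (tw w b (j + 1)) y := by
    intro y
    have h1 : tw w b j = w ++ ([true] ++ (List.replicate j true ++ [false, b])) := by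
      simp [tw, List.replicate_succ]
    have h2 : tw w b (j + 1) = w ++ ([true, true] ++ (List.replicate j true ++ [false, b])) := by
      simp [tw, List.replicate_succ]
    rw [h1, h2, app_app, app_app, lift_app, e0_t, app_app w, app_app [true, true]]
  ext x
  constructor
  · rintro ⟨y, rfl⟩
    exact ⟨_, ⟨y, rfl⟩, key y⟩
  · rintro ⟨_, ⟨y, rfl⟩, rfl⟩
    exact ⟨y, (key y).symm⟩

theorem tw_sub (w : List Bool) (b : Bool) (j : ℕ) : cy (tw w b j) ⊆ cy w := by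
  rintro _ ⟨y, rfl⟩
  exact ⟨_, (app_app _ _ _).symm⟩

/-- two disjoint forward towers inside a cylinder -/
theorem exists_tower (w : List Bool) : ∃ Φ ∈ V, ∃ X Y : ℕ → Set C,
    (∀ j, LC (X j)) ∧ (∀ j, LC (Y j)) ∧ (∀ j, X j ⊆ cy w) ∧ (∀ j, Y j ⊆ cy w) ∧
    (∀ i j, i ≠ j → Disjoint (X i) (X j)) ∧ (∀ i j, i ≠ j → Disjoint (Y i) (Y j)) ∧
    (∀ i j, Disjoint (X i) (Y j)) ∧ (∀ j, X (j + 1) = Φ '' X j) ∧ (∀ j, Y (j + 1) = Φ '' Y j) ∧
    (∃ w', X 0 = cy w') ∧ (Y 0).Nonempty := by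
  refine ⟨⟨lift w e0, lift w i0, lift_lift w i0_e0, lift_lift w e0_i0⟩, Loc_lift w Loc_e0,
    fun j => cy (tw w false j), fun j => cy (tw w true j), fun j => LC_cy _, fun j => LC_cy _,
    fun j => tw_sub w false j, fun j => tw_sub w true j, fun i j h => tw_disj w _ _ h,
    fun i j h => tw_disj w _ _ h, fun i j => ?_, fun j => tw_image w false j,
    fun j => tw_image w true j, ⟨tw w false 0, rfl⟩, ⟨app (tw w true 0) (fun _ => false), ⟨_, rfl⟩⟩⟩
  by_cases h : i = j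
  · subst h
    exact tw_disj_b w i
  · exact tw_disj w _ _ h




/-! #### part om -/


theorem exists_om {g : Equiv.Perm C} (hg : g ∈ V) (h2 : g * g ≠ 1) :
    ∃ w : List Bool, (∀ x ∈ cy w, g x ∉ cy w) ∧ (∀ x ∈ cy w, g (g x) ∉ cy w) := by
  obtain ⟨x, hx⟩ : ∃ x, g (g x) ≠ x := by
    by_contra hcon
    push Not at hcon
    exact h2 (Equiv.ext hcon)
  have hx1 : g x ≠ x := by
    intro h
    apply hx
    rw [h, h]
  obtain ⟨p, hp⟩ := Function.ne_iff.1 hx1
  obtain ⟨q, hq⟩ := Function.ne_iff.1 hx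
  obtain ⟨n1, hn1⟩ := LocAt.cont (hg x) (p + 1)
  obtain ⟨n2, hn2⟩ := LocAt.cont (LocAt.comp (hg x) (hg (g x))) (q + 1)
  obtain ⟨n, hn⟩ : ∃ n, n = max (max n1 n2) (max (p + 1) (q + 1)) := ⟨_, rfl⟩
  have hcy : ∀ y, y ∈ cy (tk n x) ↔ y ∈ Cyl x n := by
    intro y
    rw [mem_Cyl_iff]
    constructor
    · rintro ⟨z, rfl⟩; exact ⟨z, rfl⟩
    · rintro ⟨z, rfl⟩; exact ⟨z, rfl⟩
  refine ⟨tk n x, ?_, ?_⟩
  · intro y hy hgy
    rw [hcy] at hy hgy
    have h1 := hn1 y (Cyl_mono (by omega) hy) p (by omega)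
    have h3 := hgy p (by omega)
    exact hp (h1.symm.trans h3)
  · intro y hy hgy
    rw [hcy] at hy hgy
    have h1 := hn2 y (Cyl_mono (by omega) hy) q (by omega)
    have h3 := hgy q (by omega)
    exact hq (h1.symm.trans h3)




/-! #### part des! -/
/-- the standing data of the construction -/
structure Des (g Φ b : Equiv.Perm C) (X Y : ℕ → Set C) (Om : Set C) (N : ℕ) : Prop where
  hg : g ∈ V
  hΦ : Φ ∈ V
  hb : b ∈ V
  LX : ∀ j, LC (X j)
  LY : ∀ j, LC (Y j)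
  XO : ∀ j, X j ⊆ Om
  YO : ∀ j, Y j ⊆ Om
  XX : ∀ i j, i ≠ j → Disjoint (X i) (X j)
  YY : ∀ i j, i ≠ j → Disjoint (Y i) (Y j)
  XY : ∀ i j, Disjoint (X i) (Y j)
  Xs : ∀ j, X (j + 1) = Φ '' X j
  Ys : ∀ j, Y (j + 1) = Φ '' Y j
  X0 : (X 0).Nonempty
  Y0 : (Y 0).Nonempty
  H1 : ∀ x ∈ Om, g x ∉ Om
  H2 : ∀ x ∈ Om, g (g x) ∉ Om
  b1 : ∀ j < N, ∀ x ∈ X j, g (b x) = Φ x
  b2 : ∀ j < N, ∀ x, g x ∈ X j → b x = Φ (g x)
  b2' : ∀ j < N, ∀ x, g x ∈ Y j → b x = Φ (g x)
  b3 : ∀ x, g x ∈ X N →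
    (∀ j ≤ N, b x ∉ X j) ∧ (∀ j < N, g (b x) ∉ X (j + 1)) ∧ (∀ j < N, b x ∉ Y (j + 1))
  b4 : ∀ x, (∀ j < N, x ∉ X j) → (∀ j ≤ N, g x ∉ X j) → (∀ j < N, g x ∉ Y j) → b x ∈ X 0


/-! #### part exdes -/


theorem exists_Des {g : Equiv.Perm C} (hg : g ∈ V) (h2 : g * g ≠ 1) (N : ℕ) (hN : 1 ≤ N) :
    ∃ (Φ b : Equiv.Perm C) (X Y : ℕ → Set C) (Om : Set C) (w : List Bool),
      Des g Φ b X Y Om N ∧ X 0 = cy w := by
  obtain ⟨w, hw1, hw2⟩ := exists_om hg h2
  obtain ⟨Φ, hΦ, X, Y, LX, LY, XO, YO, XX, YY, XY, Xs, Ys, ⟨w', hw'⟩, Y0⟩ := exists_tower w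
  have X0 : (X 0).Nonempty := by rw [hw']; exact Set.range_nonempty _
  have Xne : ∀ j, (X j).Nonempty := by
    intro j
    induction j with
    | zero => exact X0
    | succ j ih => rw [Xs]; exact ih.image _
  have hgL : Loc g := mem_V.1 hg
  have gX : ∀ x ∈ cy w, ∀ j, g x ∉ X j := fun x hx j h => hw1 x hx (XO j h)
  have gY : ∀ x ∈ cy w, ∀ j, g x ∉ Y j := fun x hx j h => hw1 x hx (YO j h)
  have hXX : ∀ i j x, i ≠ j → x ∈ X i → x ∉ X j := fun i j x hij h1 h2 =>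
    Set.disjoint_left.1 (XX i j hij) h1 h2
  have hYY : ∀ i j x, i ≠ j → x ∈ Y i → x ∉ Y j := fun i j x hij h1 h2 =>
    Set.disjoint_left.1 (YY i j hij) h1 h2
  have hXY : ∀ i j x, x ∈ X i → x ∉ Y j := fun i j x h1 h2 =>
    Set.disjoint_left.1 (XY i j) h1 h2
  obtain ⟨D1, hD1⟩ : ∃ D : Set C, D = {x | ∃ j < N, x ∈ X j} := ⟨_, rfl⟩
  obtain ⟨E2, hE2⟩ : ∃ D : Set C, D = {x | ∃ j < N, x ∈ X j} ∪ {x | ∃ j < N, x ∈ Y j} :=
    ⟨_, rfl⟩
  obtain ⟨D2, hD2⟩ : ∃ D : Set C, D = g ⁻¹' E2 := ⟨_, rfl⟩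
  obtain ⟨D3, hD3⟩ : ∃ D : Set C, D = g ⁻¹' (X N) := ⟨_, rfl⟩
  obtain ⟨D4, hD4⟩ : ∃ D : Set C, D = ((D1 ∪ D2) ∪ D3)ᶜ := ⟨_, rfl⟩
  obtain ⟨I1, hI1⟩ : ∃ D : Set C, D = g ⁻¹' {x | ∃ j < N, x ∈ X (j + 1)} := ⟨_, rfl⟩
  obtain ⟨I2, hI2⟩ : ∃ D : Set C, D = {x | ∃ j < N, x ∈ X (j + 1)} ∪
    {x | ∃ j < N, x ∈ Y (j + 1)} := ⟨_, rfl⟩
  obtain ⟨I3, hI3⟩ : ∃ D : Set C, D = ((I1 ∪ I2) ∪ X 0)ᶜ := ⟨_, rfl⟩
  have LD1 : LC D1 := by rw [hD1]; exact LC_bUnion LX N
  have LE2 : LC E2 := by rw [hE2]; exact (LC_bUnion LX N).union (LC_bUnion LY N)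
  have LD2 : LC D2 := by rw [hD2]; exact LE2.preimage hgL
  have LD3 : LC D3 := by rw [hD3]; exact (LX N).preimage hgL
  have LD4 : LC D4 := by rw [hD4]; exact ((LD1.union LD2).union LD3).compl
  have LI1 : LC I1 := by
    rw [hI1]; exact (LC_bUnion (fun j => LX (j + 1)) N).preimage hgL
  have LI2 : LC I2 := by
    rw [hI2]; exact (LC_bUnion (fun j => LX (j + 1)) N).union (LC_bUnion (fun j => LY (j + 1)) N)
  have LI3 : LC I3 := by rw [hI3]; exact ((LI1.union LI2).union (LX 0)).compl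
  -- pieces
  have P1 : Pc (g⁻¹ * Φ : Equiv.Perm C) D1 I1 := by
    have h1 := Pc.ofV (V.mul_mem (V.inv_mem hg) hΦ) LD1
    have h3 : ((g⁻¹ * Φ : Equiv.Perm C) '' D1) = I1 := by
      ext y
      rw [hD1, hI1]
      constructor
      · rintro ⟨x, ⟨j, hj, hx⟩, rfl⟩
        refine ⟨j, hj, ?_⟩
        rw [Xs]
        exact ⟨x, hx, by simp⟩
      · rintro ⟨j, hj, hy⟩
        rw [Xs] at hy
        obtain ⟨x, hx, hxy⟩ := hy
        refine ⟨x, ⟨j, hj, hx⟩, ?_⟩
        rw [Equiv.Perm.mul_apply, hxy]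
        simp
    rw [h3] at h1
    exact h1
  have P2 : Pc (Φ * g : Equiv.Perm C) D2 I2 := by
    have h1 := Pc.ofV (V.mul_mem hΦ hg) LD2
    have h3 : ((Φ * g : Equiv.Perm C) '' D2) = I2 := by
      ext y
      rw [hD2, hI2, hE2]
      constructor
      · rintro ⟨x, (⟨j, hj, hx⟩ | ⟨j, hj, hx⟩), rfl⟩
        · left
          refine ⟨j, hj, ?_⟩
          rw [Xs]
          exact ⟨g x, hx, rfl⟩
        · right
          refine ⟨j, hj, ?_⟩
          rw [Ys]
          exact ⟨g x, hx, rfl⟩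
      · rintro (⟨j, hj, hy⟩ | ⟨j, hj, hy⟩)
        · rw [Xs] at hy
          obtain ⟨x, hx, hxy⟩ := hy
          refine ⟨g⁻¹ x, Or.inl ⟨j, hj, by simpa using hx⟩, ?_⟩
          rw [Equiv.Perm.mul_apply]
          simp [hxy]
        · rw [Ys] at hy
          obtain ⟨x, hx, hxy⟩ := hy
          refine ⟨g⁻¹ x, Or.inr ⟨j, hj, by simpa using hx⟩, ?_⟩
          rw [Equiv.Perm.mul_apply]
          simp [hxy]
    rw [h3] at h1
    exact h1
  have ne3 : D3.Nonempty := by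
    obtain ⟨x, hx⟩ := Xne N
    exact ⟨g⁻¹ x, by rw [hD3]; simpa using hx⟩
  have neI3 : I3.Nonempty := by
    obtain ⟨y, hy⟩ := Y0
    refine ⟨y, ?_⟩
    rw [hI3, hI1, hI2]
    rintro ((⟨j, hj, h⟩ | (⟨j, hj, h⟩ | ⟨j, hj, h⟩)) | h)
    · exact gX y (YO 0 hy) _ h
    · exact hXY _ _ y h hy
    · exact hYY _ _ y (by omega) h hy
    · exact hXY _ _ y h hy
  have ne4 : D4.Nonempty := by
    obtain ⟨x, hx⟩ := Xne N
    refine ⟨x, ?_⟩
    rw [hD4, hD1, hD2, hD3, hE2]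
    rintro ((⟨j, hj, h⟩ | (⟨j, hj, h⟩ | ⟨j, hj, h⟩)) | h)
    · exact hXX _ _ x (by omega) h hx
    · exact gX x (XO N hx) _ h
    · exact gY x (XO N hx) _ h
    · exact gX x (XO N hx) _ h
  obtain ⟨f3, P3⟩ := exists_Pc LD3 LI3 ne3 neI3
  obtain ⟨f4, P4⟩ := exists_Pc LD4 (LX 0) ne4 X0
  -- disjointness
  have d12 : Disjoint D1 D2 := by
    rw [Set.disjoint_left, hD1, hD2, hE2]
    rintro x ⟨j, hj, hx⟩ (⟨i, hi, h⟩ | ⟨i, hi, h⟩)
    · exact gX x (XO j hx) _ h
    · exact gY x (XO j hx) _ h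
  have d123 : Disjoint (D1 ∪ D2) D3 := by
    rw [Set.disjoint_left, hD1, hD2, hD3, hE2]
    rintro x (⟨j, hj, hx⟩ | (⟨i, hi, h⟩ | ⟨i, hi, h⟩)) h3
    · exact gX x (XO j hx) _ h3
    · exact hXX _ _ (g x) (by omega) h h3
    · exact hXY _ _ (g x) h3 h
  have d1234 : Disjoint ((D1 ∪ D2) ∪ D3) D4 := by
    rw [hD4]; exact disjoint_compl_right
  have i12 : Disjoint I1 I2 := by
    rw [Set.disjoint_left, hI1, hI2]
    rintro x ⟨j, hj, hx⟩ (⟨i, hi, h⟩ | ⟨i, hi, h⟩)
    · exact gX x (XO _ h) _ hx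
    · exact gX x (YO _ h) _ hx
  have i124 : Disjoint (I1 ∪ I2) (X 0) := by
    rw [Set.disjoint_left, hI1, hI2]
    rintro x (⟨j, hj, hx⟩ | (⟨i, hi, h⟩ | ⟨i, hi, h⟩)) h3
    · exact gX x (XO _ h3) _ hx
    · exact hXX _ _ x (by omega) h h3
    · exact hXY _ _ x h3 h
  have i1243 : Disjoint ((I1 ∪ I2) ∪ X 0) I3 := by
    rw [hI3]; exact disjoint_compl_right
  have i123 : Disjoint (I1 ∪ I2) I3 := i1243.mono_left Set.subset_union_left
  have i1234 : Disjoint ((I1 ∪ I2) ∪ I3) (X 0) := by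
    rw [Set.disjoint_union_left]
    exact ⟨i124, (i1243.mono_left Set.subset_union_right).symm⟩
  obtain ⟨F12, Q12, e1, e2⟩ := Pc.union P1 P2 d12 i12
  obtain ⟨F123, Q123, e12, e3⟩ := Pc.union Q12 P3 d123 i123
  obtain ⟨F, Q, e123, e4⟩ := Pc.union Q123 P4 d1234 i1234
  have hDu : ((D1 ∪ D2) ∪ D3) ∪ D4 = Set.univ := by rw [hD4]; exact Set.union_compl_self _
  have hIu : ((I1 ∪ I2) ∪ I3) ∪ X 0 = Set.univ := by
    rw [Set.union_right_comm, hI3]; exact Set.union_compl_self _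
  rw [hDu, hIu] at Q
  obtain ⟨b, hb, hbF⟩ := Q.toV
  have B1 : ∀ x ∈ D1, b x = g⁻¹ (Φ x) := by
    intro x hx
    rw [hbF, e123 x (Or.inl (Or.inl hx)), e12 x (Or.inl hx), e1 x hx]
    rfl
  have B2 : ∀ x ∈ D2, b x = Φ (g x) := by
    intro x hx
    rw [hbF, e123 x (Or.inl (Or.inr hx)), e12 x (Or.inr hx), e2 x hx]
    rfl
  have B3 : ∀ x ∈ D3, b x ∈ I3 := by
    intro x hx
    rw [hbF, e123 x (Or.inr hx), e3 x hx]
    exact P3.2.2.2.mapsTo hx
  have B4 : ∀ x ∈ D4, b x ∈ X 0 := by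
    intro x hx
    rw [hbF, e4 x hx]
    exact P4.2.2.2.mapsTo hx
  refine ⟨Φ, b, X, Y, cy w, w', ?_, hw'⟩
  exact
    { hg := hg
      hΦ := hΦ
      hb := hb
      LX := LX
      LY := LY
      XO := XO
      YO := YO
      XX := XX
      YY := YY
      XY := XY
      Xs := Xs
      Ys := Ys
      X0 := X0
      Y0 := Y0
      H1 := hw1
      H2 := hw2
      b1 := by
        intro j hj x hx
        rw [B1 x (by rw [hD1]; exact ⟨j, hj, hx⟩)]
        simp
      b2 := by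
        intro j hj x hx
        exact B2 x (by rw [hD2, hE2]; exact Or.inl ⟨j, hj, hx⟩)
      b2' := by
        intro j hj x hx
        exact B2 x (by rw [hD2, hE2]; exact Or.inr ⟨j, hj, hx⟩)
      b3 := by
        intro x hx
        have h1 := B3 x (by rw [hD3]; exact hx)
        rw [hI3, hI1, hI2] at h1
        refine ⟨?_, ?_, ?_⟩
        · intro j hj h
          rcases Nat.eq_zero_or_pos j with rfl | hj0
          · exact h1 (Or.inr h)
          · obtain ⟨i, rfl⟩ : ∃ i, j = i + 1 := ⟨j - 1, by omega⟩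
            exact h1 (Or.inl (Or.inr (Or.inl ⟨i, by omega, h⟩)))
        · intro j hj h
          exact h1 (Or.inl (Or.inl ⟨j, hj, h⟩))
        · intro j hj h
          exact h1 (Or.inl (Or.inr (Or.inr ⟨j, hj, h⟩)))
      b4 := by
        intro x h1 h2 h3
        refine B4 x ?_
        rw [hD4, hD1, hD2, hD3, hE2]
        rintro ((⟨j, hj, h⟩ | (⟨j, hj, h⟩ | ⟨j, hj, h⟩)) | h)
        · exact h1 j hj h
        · exact h2 j hj.le h
        · exact h3 j hj h
        · exact h2 N le_rfl h }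




/-! #### part dessurj -/


section
variable {g Φ b : Equiv.Perm C} {X Y : ℕ → Set C} {Om : Set C} {N : ℕ}

theorem Des.mem_pow (D : Des g Φ b X Y Om N) (j : ℕ) (x : C) :
    x ∈ X j ↔ ∃ z ∈ X 0, x = (Φ ^ j) z := by
  induction j generalizing x with
  | zero =>
    constructor
    · intro h
      exact ⟨x, h, by simp⟩
    · rintro ⟨z, hz, rfl⟩
      simpa using hz
  | succ j ih =>
    rw [D.Xs j]
    constructor
    · rintro ⟨y, hy, rfl⟩
      obtain ⟨z, hz, rfl⟩ := (ih y).1 hy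
      exact ⟨z, hz, by rw [pow_succ']; rfl⟩
    · rintro ⟨z, hz, rfl⟩
      refine ⟨(Φ ^ j) z, (ih _).2 ⟨z, hz, rfl⟩, ?_⟩
      rw [pow_succ']; rfl

theorem Des.casesAux (D : Des g Φ b X Y Om N) (x : C) :
    (∃ i < N, x ∈ X i ∧ g (b x) ∈ X (i + 1)) ∨ (∃ i < N, g x ∈ X i ∧ b x ∈ X (i + 1)) ∨
      (∃ i < N, g x ∈ Y i ∧ b x ∈ Y (i + 1)) ∨ (g x ∈ X N) ∨ (b x ∈ X 0) := by
  by_cases h1 : ∃ i < N, x ∈ X i
  · obtain ⟨i, hi, hx⟩ := h1
    refine Or.inl ⟨i, hi, hx, ?_⟩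
    rw [D.b1 i hi x hx, D.Xs i]
    exact ⟨x, hx, rfl⟩
  by_cases h2 : ∃ i < N, g x ∈ X i
  · obtain ⟨i, hi, hx⟩ := h2
    refine Or.inr (Or.inl ⟨i, hi, hx, ?_⟩)
    rw [D.b2 i hi x hx, D.Xs i]
    exact ⟨g x, hx, rfl⟩
  by_cases h3 : ∃ i < N, g x ∈ Y i
  · obtain ⟨i, hi, hx⟩ := h3
    refine Or.inr (Or.inr (Or.inl ⟨i, hi, hx, ?_⟩))
    rw [D.b2' i hi x hx, D.Ys i]
    exact ⟨g x, hx, rfl⟩
  by_cases h4 : g x ∈ X N
  · exact Or.inr (Or.inr (Or.inr (Or.inl h4)))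
  · refine Or.inr (Or.inr (Or.inr (Or.inr (D.b4 x ?_ ?_ ?_))))
    · intro j hj hx
      exact h1 ⟨j, hj, hx⟩
    · intro j hj hx
      rcases Nat.lt_or_eq_of_le hj with h | h
      · exact h2 ⟨j, h, hx⟩
      · rw [h] at hx
        exact h4 hx
    · intro j hj hx
      exact h3 ⟨j, hj, hx⟩

theorem Des.eq_of_mem (D : Des g Φ b X Y Om N) {i j : ℕ} {x : C} (hi : x ∈ X i) (hj : x ∈ X j) :
    i = j := by
  by_contra h
  exact Set.disjoint_left.1 (D.XX i j h) hi hj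

theorem Des.B3 (D : Des g Φ b X Y Om N) : ∀ j < N, ∀ x, b x ∈ X (j + 1) → g x ∈ X j := by
  intro j hj x hx
  rcases D.casesAux x with ⟨i, hi, h1, h2⟩ | ⟨i, hi, h1, h2⟩ | ⟨i, hi, h1, h2⟩ | h | h
  · exact (D.H1 _ (D.XO _ hx) (D.XO _ h2)).elim
  · have := D.eq_of_mem hx h2
    have hij : j = i := by omega
    rw [hij]; exact h1
  · exact (Set.disjoint_left.1 (D.XY (j + 1) (i + 1)) hx h2).elim
  · exact ((D.b3 x h).1 (j + 1) hj hx).elim
  · have := D.eq_of_mem hx h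
    omega

theorem Des.B4 (D : Des g Φ b X Y Om N) : ∀ j < N, ∀ x, g (b x) ∈ X (j + 1) → x ∈ X j := by
  intro j hj x hx
  rcases D.casesAux x with ⟨i, hi, h1, h2⟩ | ⟨i, hi, h1, h2⟩ | ⟨i, hi, h1, h2⟩ | h | h
  · have := D.eq_of_mem hx h2
    have hij : j = i := by omega
    rw [hij]; exact h1
  · exact (D.H1 _ (D.XO _ h2) (D.XO _ hx)).elim
  · exact (D.H1 _ (D.YO _ h2) (D.XO _ hx)).elim
  · exact ((D.b3 x h).2.1 j hj hx).elim
  · exact (D.H1 _ (D.XO _ h) (D.XO _ hx)).elim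

theorem Des.B5 (D : Des g Φ b X Y Om N) : ∀ x, g (b x) ∈ X 0 → g x ∈ X N := by
  intro x hx
  rcases D.casesAux x with ⟨i, hi, h1, h2⟩ | ⟨i, hi, h1, h2⟩ | ⟨i, hi, h1, h2⟩ | h | h
  · have := D.eq_of_mem hx h2
    omega
  · exact (D.H1 _ (D.XO _ h2) (D.XO _ hx)).elim
  · exact (D.H1 _ (D.YO _ h2) (D.XO _ hx)).elim
  · exact h
  · exact (D.H1 _ (D.XO _ h) (D.XO _ hx)).elim

theorem Des.B6 (D : Des g Φ b X Y Om N) : ∀ x ∈ X N, b x ∈ X 0 := by
  intro x hx
  have hg : g x ∉ Om := D.H1 x (D.XO _ hx)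
  refine D.b4 x ?_ ?_ ?_
  · intro j hj h
    have := D.eq_of_mem hx h
    omega
  · intro j _ h
    exact hg (D.XO _ h)
  · intro j _ h
    exact hg (D.YO _ h)

/-- every point which avoids the used part is reached from the top of the tower -/
theorem Des.surj (D : Des g Φ b X Y Om N) (y : C) (h1 : ∀ j ≤ N, y ∉ X j)
    (h2 : ∀ j < N, g y ∉ X (j + 1)) (h3 : ∀ j < N, y ∉ Y (j + 1)) :
    ∃ z ∈ X 0, b (g⁻¹ ((Φ ^ N) z)) = y := by
  have hby : b (b⁻¹ y) = y := by simp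
  rcases D.casesAux (b⁻¹ y) with ⟨i, hi, k1, k2⟩ | ⟨i, hi, k1, k2⟩ | ⟨i, hi, k1, k2⟩ | h | h
  · rw [hby] at k2
    exact (h2 i hi k2).elim
  · rw [hby] at k2
    exact (h1 (i + 1) hi k2).elim
  · rw [hby] at k2
    exact (h3 i hi k2).elim
  · obtain ⟨z, hz, hzx⟩ := (D.mem_pow N _).1 h
    refine ⟨z, hz, ?_⟩
    rw [← hzx]
    simp
  · rw [hby] at h
    exact (h1 0 (Nat.zero_le _) h).elim

end




/-! #### part timea -/


section
variable {g Φ b : Equiv.Perm C} {X Y : ℕ → Set C} {Om : Set C} {N : ℕ}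

theorem Des.aX (D : Des g Φ b X Y Om N) {j : ℕ} (hj : j < N) {p : C} (hp : p ∈ X j) :
    (b * g⁻¹) p = Φ p := by
  have h := D.b2 j hj (g⁻¹ p) (by simpa using hp)
  simpa using h

theorem Des.aY (D : Des g Φ b X Y Om N) {j : ℕ} (hj : j < N) {p : C} (hp : p ∈ Y j) :
    (b * g⁻¹) p = Φ p := by
  have h := D.b2' j hj (g⁻¹ p) (by simpa using hp)
  simpa using h

theorem Des.PX (D : Des g Φ b X Y Om N) {j : ℕ} {p : C} (hp : p ∈ X j) : Φ p ∈ X (j + 1) := by
  rw [D.Xs j]; exact ⟨p, hp, rfl⟩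

theorem Des.PY (D : Des g Φ b X Y Om N) {j : ℕ} {p : C} (hp : p ∈ Y j) : Φ p ∈ Y (j + 1) := by
  rw [D.Ys j]; exact ⟨p, hp, rfl⟩

theorem Des.nXX (D : Des g Φ b X Y Om N) {i j : ℕ} (hij : i ≠ j) {p : C} (hp : p ∈ X i) : p ∉ X j :=
  fun h => Set.disjoint_left.1 (D.XX i j hij) hp h

theorem Des.nYY (D : Des g Φ b X Y Om N) {i j : ℕ} (hij : i ≠ j) {p : C} (hp : p ∈ Y i) : p ∉ Y j :=
  fun h => Set.disjoint_left.1 (D.YY i j hij) hp h

theorem Des.nYX (D : Des g Φ b X Y Om N) (i j : ℕ) {p : C} (hp : p ∈ Y i) : p ∉ X j :=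
  fun h => Set.disjoint_left.1 (D.XY j i) h hp

theorem Des.aXN (D : Des g Φ b X Y Om N) {p : C} (hp : p ∈ X N) :
    (∀ j ≤ N, (b * g⁻¹) p ∉ X j) ∧ (∀ j < N, (b * g⁻¹) p ∉ Y (j + 1)) := by
  have h := D.b3 (g⁻¹ p) (by simpa using hp)
  exact ⟨fun j hj => by simpa using h.1 j hj, fun j hj => by simpa using h.2.2 j hj⟩

theorem Des.gen (D : Des g Φ b X Y Om N) {p : C} (h1 : ∀ j < N, g⁻¹ p ∉ X j)
    (h2 : ∀ j ≤ N, p ∉ X j) (h3 : ∀ j < N, p ∉ Y j) : (b * g⁻¹) p ∈ X 0 := by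
  have h := D.b4 (g⁻¹ p) h1 (fun j hj => by simpa using h2 j hj) (fun j hj => by simpa using h3 j hj)
  simpa using h

theorem Des.aYN (D : Des g Φ b X Y Om N) {p : C} (hp : p ∈ Y N) : (b * g⁻¹) p ∈ X 0 := by
  refine D.gen ?_ (fun j _ => D.nYX N j hp) (fun j hj => D.nYY (by omega) hp)
  intro j _ h
  have h1 := D.H1 _ (D.XO j h)
  apply h1
  have : g (g⁻¹ p) = p := by simp
  rw [this]
  exact D.YO N hp

theorem Des.hitY (D : Des g Φ b X Y Om N) : ∀ k j, j + k = N → ∀ p ∈ Y j,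
    ∃ v, Hit (b * g⁻¹) (X 0) (k + 1) p v := by
  intro k
  induction k with
  | zero =>
    intro j hj p hp
    have hj' : j = N := by omega
    subst hj'
    exact ⟨_, Hit.succ (D.nYX _ 0 hp) (Hit.zero _ (D.aYN hp))⟩
  | succ k ih =>
    intro j hj p hp
    have e := D.aY (j := j) (by omega) hp
    obtain ⟨v, hv⟩ := ih (j + 1) (by omega) _ (D.PY hp)
    rw [← e] at hv
    exact ⟨v, Hit.succ (D.nYX _ 0 hp) hv⟩

theorem Des.hit2 (D : Des g Φ b X Y Om N) {y : C} (hy : y ∉ X 0) (h : ∃ j < N, g⁻¹ y ∈ X j) :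
    ∃ v, Hit (b * g⁻¹) (X 0) 2 y v := by
  obtain ⟨j, hj, hx⟩ := h
  have e1 : g ((b * g⁻¹) y) ∈ X (j + 1) := by
    have := D.b1 j hj (g⁻¹ y) hx
    have e : (b * g⁻¹) y = b (g⁻¹ y) := rfl
    rw [e, this]
    exact D.PX hx
  have e2 : (b * g⁻¹) y ∉ Om := fun ho => D.H1 _ ho (D.XO _ e1)
  have e3 : (b * g⁻¹) ((b * g⁻¹) y) ∈ X 0 := by
    refine D.gen ?_ (fun i _ hi => e2 (D.XO i hi)) (fun i _ hi => e2 (D.YO i hi))
    intro i _ hi
    have h2 := D.H2 _ (D.XO i hi)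
    apply h2
    have : g (g⁻¹ ((b * g⁻¹) y)) = (b * g⁻¹) y := by simp
    rw [this]
    exact D.XO _ e1
  exact ⟨_, Hit.succ hy (Hit.succ (fun h0 => e2 (D.XO 0 h0)) (Hit.zero _ e3))⟩

theorem Des.hit1 (D : Des g Φ b X Y Om N) {y : C} (hX : ∀ j ≤ N, y ∉ X j)
    (hY : ∀ j < N, y ∉ Y (j + 1)) (h1 : y ∉ Y 0) (h2 : ∀ j < N, g⁻¹ y ∉ X j) :
    ∃ v, Hit (b * g⁻¹) (X 0) 1 y v := by
  refine ⟨_, Hit.succ (hX 0 (Nat.zero_le _)) (Hit.zero _ (D.gen h2 hX ?_))⟩
  intro j hj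
  cases j with
  | zero => exact h1
  | succ j => exact hY j (by omega)

theorem Des.memX (D : Des g Φ b X Y Om N) {z : C} (hz : z ∈ X 0) (j : ℕ) : (Φ ^ j) z ∈ X j := by
  induction j with
  | zero => exact hz
  | succ j ih =>
    rw [pow_succ']
    exact D.PX ih

theorem Des.climb (D : Des g Φ b X Y Om N) {z : C} (hz : z ∈ X 0) {t : ℕ} {v : C}
    (ht : Hit (b * g⁻¹) (X 0) t ((b * g⁻¹) ((Φ ^ N) z)) v) :
    ∀ k < N, Hit (b * g⁻¹) (X 0) (t + k + 1) ((Φ ^ (N - k)) z) v := by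
  intro k
  induction k with
  | zero =>
    intro hk
    exact Hit.succ (D.nXX (by omega) (D.memX hz N)) ht
  | succ k ih =>
    intro hk
    have h1 := ih (by omega)
    have h2 := D.memX hz (N - (k + 1))
    have h3 := D.aX (j := N - (k + 1)) (by omega) h2
    have h4 : (Φ ^ (N - k)) z = Φ ((Φ ^ (N - (k + 1))) z) := by
      have : N - k = (N - (k + 1)) + 1 := by omega
      rw [this, pow_succ']
      rfl
    rw [h4, ← h3] at h1
    exact Hit.succ (D.nXX (by omega) h2) h1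

theorem Des.total (D : Des g Φ b X Y Om N) {z : C} (hz : z ∈ X 0) {t : ℕ} {v : C}
    (ht : Hit (b * g⁻¹) (X 0) t ((b * g⁻¹) ((Φ ^ N) z)) v) :
    Hit (b * g⁻¹) (X 0) (t + N) ((b * g⁻¹) z) v := by
  rcases Nat.eq_zero_or_pos N with h0 | h0
  · subst h0
    exact ht
  · have h1 := D.climb hz ht (N - 1) (by omega)
    have e1 : t + (N - 1) + 1 = t + N := by omega
    have e2 : N - (N - 1) = 1 := by omega
    rw [e1, e2, pow_one] at h1
    rw [D.aX h0 hz]
    exact h1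

theorem Des.time_a1 (D : Des g Φ b X Y Om N) {z : C} (hz : z ∈ X 0)
    (h : b (g⁻¹ ((Φ ^ N) z)) ∈ Y 0) :
    ∃ v, Hit (b * g⁻¹) (X 0) (2 * N + 1) ((b * g⁻¹) z) v := by
  obtain ⟨v, hv⟩ := D.hitY N 0 (by omega) _ h
  have := D.total hz hv
  have e : N + 1 + N = 2 * N + 1 := by omega
  rw [e] at this
  exact ⟨v, this⟩

theorem Des.time_a2 (D : Des g Φ b X Y Om N) {z : C} (hz : z ∈ X 0)
    (h : ∃ j < N, g⁻¹ (b (g⁻¹ ((Φ ^ N) z))) ∈ X j) :
    ∃ v, Hit (b * g⁻¹) (X 0) (N + 2) ((b * g⁻¹) z) v := by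
  obtain ⟨v, hv⟩ := D.hit2 (y := b (g⁻¹ ((Φ ^ N) z))) ((D.aXN (D.memX hz N)).1 0 (Nat.zero_le _)) h
  have := D.total hz hv
  rw [add_comm 2 N] at this
  exact ⟨v, this⟩

theorem Des.time_a3 (D : Des g Φ b X Y Om N) {z : C} (hz : z ∈ X 0)
    (h1 : b (g⁻¹ ((Φ ^ N) z)) ∉ Y 0)
    (h2 : ∀ j < N, g⁻¹ (b (g⁻¹ ((Φ ^ N) z))) ∉ X j) :
    ∃ v, Hit (b * g⁻¹) (X 0) (N + 1) ((b * g⁻¹) z) v := by
  have hN := D.aXN (D.memX hz N)
  obtain ⟨v, hv⟩ := D.hit1 (y := b (g⁻¹ ((Φ ^ N) z))) hN.1 hN.2 h1 h2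
  have := D.total hz hv
  rw [add_comm 1 N] at this
  exact ⟨v, this⟩

theorem rec_step {a : Equiv.Perm C} {S : Set C} {p : C} (h : ∃ n, (a ^ n) (a p) ∈ S) :
    ∃ n, (a ^ n) p ∈ S := by
  obtain ⟨n, hn⟩ := h
  exact ⟨n + 1, by rw [pow_succ]; exact hn⟩

theorem rec_of_hit {a : Equiv.Perm C} {S : Set C} {p : C} {n : ℕ} (h : ∃ v, Hit a S n p v) :
    ∃ n, (a ^ n) p ∈ S := by
  obtain ⟨v, h1, h2, _⟩ := h
  exact ⟨n, by rw [h1]; exact h2⟩

theorem Des.rec_good (D : Des g Φ b X Y Om N) {p : C} (hX : ∀ j ≤ N, p ∉ X j)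
    (hY : ∀ j < N, p ∉ Y (j + 1)) : ∃ n, ((b * g⁻¹) ^ n) p ∈ X 0 := by
  by_cases h1 : p ∈ Y 0
  · exact rec_of_hit (D.hitY N 0 (by omega) _ h1)
  · by_cases h2 : ∃ j < N, g⁻¹ p ∈ X j
    · exact rec_of_hit (D.hit2 (hX 0 (Nat.zero_le _)) h2)
    · push Not at h2
      exact rec_of_hit (D.hit1 hX hY h1 h2)

theorem Des.rec_X (D : Des g Φ b X Y Om N) : ∀ k j, j + k = N → ∀ p ∈ X j,
    ∃ n, ((b * g⁻¹) ^ n) p ∈ X 0 := by
  intro k
  induction k with
  | zero =>
    intro j hj p hp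
    have hj' : j = N := by omega
    subst hj'
    have h := D.aXN hp
    exact rec_step (D.rec_good h.1 h.2)
  | succ k ih =>
    intro j hj p hp
    have e := D.aX (j := j) (by omega) hp
    apply rec_step
    rw [e]
    exact ih (j + 1) (by omega) _ (D.PX hp)

theorem Des.rec_a (D : Des g Φ b X Y Om N) (p : C) : ∃ n, ((b * g⁻¹) ^ n) p ∈ X 0 := by
  by_cases h1 : ∃ j ≤ N, p ∈ X j
  · obtain ⟨j, hj, hp⟩ := h1
    exact D.rec_X (N - j) j (by omega) p hp
  · push Not at h1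
    by_cases h2 : ∃ j ≤ N, p ∈ Y j
    · obtain ⟨j, hj, hp⟩ := h2
      exact rec_of_hit (D.hitY (N - j) j (by omega) p hp)
    · push Not at h2
      exact D.rec_good h1 (fun j hj => h2 (j + 1) (by omega))

end




/-! #### part timeb -/


section
variable {g Φ b : Equiv.Perm C} {X Y : ℕ → Set C} {Om : Set C} {k : ℕ}

theorem tb_ia (e : Equiv.Perm C) (x : C) : e⁻¹ (e x) = x := by simp

theorem tb_ai (e : Equiv.Perm C) (x : C) : e (e⁻¹ x) = x := by simp

theorem tb_memA {N : ℕ} (D : Des g Φ b X Y Om N) {z : C} (hz : z ∈ X 0) (j : ℕ) :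
    (Φ ^ j) z ∈ X j := (D.mem_pow j _).2 ⟨z, hz, rfl⟩

theorem tb_bA {N : ℕ} (D : Des g Φ b X Y Om N) {z : C} (hz : z ∈ X 0) {j : ℕ} (hj : j < N) :
    b ((Φ ^ j) z) = g⁻¹ ((Φ ^ (j + 1)) z) := by
  have h1 := D.b1 j hj _ (tb_memA D hz j)
  have h2 : (Φ ^ (j + 1)) z = Φ ((Φ ^ j) z) := by
    rw [pow_succ']
    rfl
  rw [h2, ← h1]
  exact (tb_ia g _).symm

theorem tb_gB (z : C) (j : ℕ) : g (g⁻¹ ((Φ ^ j) z)) = (Φ ^ j) z :=
  tb_ai g _

theorem tb_bB {N : ℕ} (D : Des g Φ b X Y Om N) {z : C} (hz : z ∈ X 0) {j : ℕ} (hj : j < N) :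
    b (g⁻¹ ((Φ ^ j) z)) = (Φ ^ (j + 1)) z := by
  have h1 := D.b2 j hj (g⁻¹ ((Φ ^ j) z)) (by rw [tb_gB]; exact tb_memA D hz j)
  have h2 : (Φ ^ (j + 1)) z = Φ ((Φ ^ j) z) := by
    rw [pow_succ']
    rfl
  rw [h1, tb_gB, h2]

theorem tb_notA {N : ℕ} (D : Des g Φ b X Y Om N) {z : C} (hz : z ∈ X 0) (j : ℕ) :
    (Φ ^ (j + 1)) z ∉ X 0 := fun h =>
  Set.disjoint_left.1 (D.XX (j + 1) 0 (by omega)) (tb_memA D hz (j + 1)) h

theorem tb_notB {N : ℕ} (D : Des g Φ b X Y Om N) {z : C} (hz : z ∈ X 0) (j : ℕ) :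
    g⁻¹ ((Φ ^ j) z) ∉ X 0 := fun h => by
  have h1 := D.H1 _ (D.XO 0 h)
  rw [tb_gB] at h1
  exact h1 (D.XO j (tb_memA D hz j))

theorem tb_step {N : ℕ} (D : Des g Φ b X Y Om N) {z : C} (hz : z ∈ X 0) {j : ℕ} (hj : j + 2 ≤ N)
    {n : ℕ} {v : C} (h : Hit b (X 0) n (g⁻¹ ((Φ ^ (j + 2)) z)) v) :
    Hit b (X 0) (n + 2) (g⁻¹ ((Φ ^ j) z)) v := by
  have h1 : Hit b (X 0) (n + 1) ((Φ ^ (j + 1)) z) v := by
    refine Hit.succ (tb_notA D hz j) ?_
    rw [tb_bA D hz (by omega)]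
    exact h
  refine Hit.succ (tb_notB D hz j) ?_
  rw [tb_bB D hz (by omega)]
  exact h1

theorem tb_chain {N : ℕ} (D : Des g Φ b X Y Om N) {z : C} (hz : z ∈ X 0) (i : ℕ) :
    ∀ {j n : ℕ} {v : C}, j + 2 * i ≤ N → Hit b (X 0) n (g⁻¹ ((Φ ^ (j + 2 * i)) z)) v →
    Hit b (X 0) (n + 2 * i) (g⁻¹ ((Φ ^ j) z)) v := by
  induction i with
  | zero =>
    intro j n v _ h
    exact h
  | succ i ih =>
    intro j n v hj h
    have h1 : Hit b (X 0) (n + 2) (g⁻¹ ((Φ ^ (j + 2 * i)) z)) v :=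
      tb_step D hz (by omega) h
    have h2 := ih (by omega) h1
    have e : n + 2 + 2 * i = n + 2 * (i + 1) := by ring
    rw [e] at h2
    exact h2

theorem tb_main (D : Des g Φ b X Y Om (2 * k + 1)) {z : C} (hz : z ∈ X 0) {n : ℕ} {v : C}
    (h : Hit b (X 0) n (b (g⁻¹ ((Φ ^ (2 * k + 1)) z))) v) :
    Hit b (X 0) (n + (2 * k + 1)) (b z) v := by
  have h1 := Hit.succ (tb_notB D hz (2 * k + 1)) h
  have e1 : 2 * k + 1 = 1 + 2 * k := by ring
  have h2 : Hit b (X 0) (n + 1 + 2 * k) (g⁻¹ ((Φ ^ 1) z)) v := by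
    refine tb_chain D hz k (by omega) ?_
    rw [← e1]
    exact h1
  have h3 := tb_bA D hz (j := 0) (by omega)
  have h4 : b z = g⁻¹ ((Φ ^ 1) z) := h3
  rw [h4]
  have e2 : n + (2 * k + 1) = n + 1 + 2 * k := by ring
  rw [e2]
  exact h2

theorem tb_y (D : Des g Φ b X Y Om (2 * k + 1)) {z : C} (hz : z ∈ X 0) :
    (∀ j ≤ 2 * k + 1, b (g⁻¹ ((Φ ^ (2 * k + 1)) z)) ∉ X j) ∧
    (∀ j < 2 * k + 1, g (b (g⁻¹ ((Φ ^ (2 * k + 1)) z))) ∉ X (j + 1)) ∧
    (∀ j < 2 * k + 1, b (g⁻¹ ((Φ ^ (2 * k + 1)) z)) ∉ Y (j + 1)) :=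
  D.b3 _ (by rw [tb_gB]; exact tb_memA D hz _)

theorem tb_hit1 (D : Des g Φ b X Y Om (2 * k + 1)) {y : C} (hy : g y ∈ X 0) :
    ∃ v, Hit b (X 0) (2 * k + 2) y v := by
  have e0 : y = g⁻¹ ((Φ ^ 0) (g y)) := by
    rw [pow_zero]
    exact (tb_ia g y).symm
  have h0 : Hit b (X 0) 0 (b ((Φ ^ (2 * k + 1)) (g y))) (b ((Φ ^ (2 * k + 1)) (g y))) :=
    Hit.zero b (D.B6 _ (tb_memA D hy _))
  have h1 := Hit.succ (tb_notA D hy (2 * k)) h0
  have h2 : Hit b (X 0) (0 + 1 + 1) (g⁻¹ ((Φ ^ (0 + 2 * k)) (g y)))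
      (b ((Φ ^ (2 * k + 1)) (g y))) := by
    refine Hit.succ (tb_notB D hy _) ?_
    rw [tb_bB D hy (by omega), Nat.zero_add]
    exact h1
  have h3 := tb_chain D hy k (j := 0) (by omega) h2
  rw [← e0] at h3
  have e : 0 + 1 + 1 + 2 * k = 2 * k + 2 := by ring
  rw [e] at h3
  exact ⟨_, h3⟩

theorem tb_Y {N : ℕ} (D : Des g Φ b X Y Om N) {y : C} {j : ℕ} (hj : j < N) (hy : g y ∈ Y j) :
    b y ∈ Y (j + 1) ∧ b (b y) ∈ X 0 := by
  have h1 : b y = Φ (g y) := D.b2' j hj y hy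
  have h2 : b y ∈ Y (j + 1) := by
    rw [h1, D.Ys]
    exact ⟨_, hy, rfl⟩
  have h3 := D.H1 _ (D.YO _ h2)
  refine ⟨h2, D.b4 _ (fun i _ h => ?_) (fun i _ h => h3 (D.XO i h)) (fun i _ h => h3 (D.YO i h))⟩
  exact Set.disjoint_left.1 (D.XY i (j + 1)) h h2

theorem tb_hit2 {N : ℕ} (D : Des g Φ b X Y Om N) {y : C} (hy0 : y ∉ X 0)
    (hy : ∃ j < N, g y ∈ Y j) : ∃ v, Hit b (X 0) 2 y v := by
  obtain ⟨j, hj, hyj⟩ := hy
  obtain ⟨h1, h2⟩ := tb_Y D hj hyj
  refine ⟨b (b y), ?_⟩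
  have h3 : b y ∉ X 0 := fun h => Set.disjoint_left.1 (D.XY 0 (j + 1)) h h1
  exact Hit.succ hy0 (Hit.succ h3 (Hit.zero b h2))

theorem tb_hit3 (D : Des g Φ b X Y Om (2 * k + 1)) {z : C} (hz : z ∈ X 0)
    (h1 : g (b (g⁻¹ ((Φ ^ (2 * k + 1)) z))) ∉ X 0)
    (h2 : ∀ j < 2 * k + 1, g (b (g⁻¹ ((Φ ^ (2 * k + 1)) z))) ∉ Y j) :
    ∃ v, Hit b (X 0) 1 (b (g⁻¹ ((Φ ^ (2 * k + 1)) z))) v := by
  obtain ⟨y1, y2, y3⟩ := tb_y D hz
  refine ⟨_, Hit.succ (y1 0 (by omega)) (Hit.zero b (D.b4 _ (fun j hj => y1 j (by omega)) ?_ h2))⟩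
  intro j hj
  cases j with
  | zero => exact h1
  | succ j => exact y2 j (by omega)

theorem tb_hit (D : Des g Φ b X Y Om (2 * k + 1)) {z : C} (hz : z ∈ X 0) :
    ∃ n, (b ^ n) (b (g⁻¹ ((Φ ^ (2 * k + 1)) z))) ∈ X 0 := by
  obtain ⟨y1, y2, y3⟩ := tb_y D hz
  by_cases h1 : g (b (g⁻¹ ((Φ ^ (2 * k + 1)) z))) ∈ X 0
  · obtain ⟨v, hv⟩ := tb_hit1 D h1
    exact ⟨_, by rw [hv.1]; exact hv.2.1⟩
  · by_cases h2 : ∃ j < 2 * k + 1, g (b (g⁻¹ ((Φ ^ (2 * k + 1)) z))) ∈ Y j
    · obtain ⟨v, hv⟩ := tb_hit2 D (y1 0 (by omega)) h2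
      exact ⟨_, by rw [hv.1]; exact hv.2.1⟩
    · obtain ⟨v, hv⟩ := tb_hit3 D hz h1 (fun j hj h => h2 ⟨j, hj, h⟩)
      exact ⟨_, by rw [hv.1]; exact hv.2.1⟩

theorem tb_succ {p : C} (h : ∃ n, (b ^ n) (b p) ∈ X 0) : ∃ n, (b ^ n) p ∈ X 0 := by
  obtain ⟨n, hn⟩ := h
  refine ⟨n + 1, ?_⟩
  rw [pow_succ]
  exact hn

theorem tb_rec (D : Des g Φ b X Y Om (2 * k + 1)) {z : C} (hz : z ∈ X 0) (d : ℕ) :
    ∀ j, j + d = 2 * k + 1 → (∃ n, (b ^ n) ((Φ ^ j) z) ∈ X 0) ∧
      (∃ n, (b ^ n) (g⁻¹ ((Φ ^ j) z)) ∈ X 0) := by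
  induction d with
  | zero =>
    intro j hj
    have hj' : j = 2 * k + 1 := by omega
    subst hj'
    exact ⟨tb_succ ⟨0, D.B6 _ (tb_memA D hz _)⟩, tb_succ (tb_hit D hz)⟩
  | succ d ih =>
    intro j hj
    obtain ⟨h1, h2⟩ := ih (j + 1) (by omega)
    refine ⟨tb_succ ?_, tb_succ ?_⟩
    · rw [tb_bA D hz (by omega)]
      exact h2
    · rw [tb_bB D hz (by omega)]
      exact h1

theorem Des.time_b1 (D : Des g Φ b X Y Om (2 * k + 1)) {z : C} (hz : z ∈ X 0)
    (h : g (b (g⁻¹ ((Φ ^ (2 * k + 1)) z))) ∈ X 0) :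
    ∃ v, Hit b (X 0) (2 * (2 * k + 1) + 1) (b z) v := by
  obtain ⟨v, hv⟩ := tb_hit1 D h
  have h1 := tb_main D hz hv
  have e : 2 * k + 2 + (2 * k + 1) = 2 * (2 * k + 1) + 1 := by ring
  rw [e] at h1
  exact ⟨v, h1⟩

theorem Des.time_b2 (D : Des g Φ b X Y Om (2 * k + 1)) {z : C} (hz : z ∈ X 0)
    (h : ∃ j < 2 * k + 1, g (b (g⁻¹ ((Φ ^ (2 * k + 1)) z))) ∈ Y j) :
    ∃ v, Hit b (X 0) (2 * k + 1 + 2) (b z) v := by
  obtain ⟨y1, y2, y3⟩ := tb_y D hz
  obtain ⟨v, hv⟩ := tb_hit2 D (y1 0 (by omega)) h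
  have h1 := tb_main D hz hv
  rw [add_comm] at h1
  exact ⟨v, h1⟩

theorem Des.time_b3 (D : Des g Φ b X Y Om (2 * k + 1)) {z : C} (hz : z ∈ X 0)
    (h1 : g (b (g⁻¹ ((Φ ^ (2 * k + 1)) z))) ∉ X 0)
    (h2 : ∀ j < 2 * k + 1, g (b (g⁻¹ ((Φ ^ (2 * k + 1)) z))) ∉ Y j) :
    ∃ v, Hit b (X 0) (2 * k + 1 + 1) (b z) v := by
  obtain ⟨v, hv⟩ := tb_hit3 D hz h1 h2
  have h3 := tb_main D hz hv
  rw [add_comm] at h3
  exact ⟨v, h3⟩

theorem Des.rec_b (D : Des g Φ b X Y Om (2 * k + 1)) (p : C) : ∃ n, (b ^ n) p ∈ X 0 := by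
  by_cases c1 : ∃ j, j ≤ 2 * k + 1 ∧ p ∈ X j
  · obtain ⟨j, hj, hpj⟩ := c1
    obtain ⟨z, hz, rfl⟩ := (D.mem_pow j p).1 hpj
    exact (tb_rec D hz (2 * k + 1 - j) j (by omega)).1
  · by_cases c2 : ∃ j, j ≤ 2 * k + 1 ∧ g p ∈ X j
    · obtain ⟨j, hj, hpj⟩ := c2
      obtain ⟨z, hz, hzp⟩ := (D.mem_pow j (g p)).1 hpj
      have e : p = g⁻¹ ((Φ ^ j) z) := by
        rw [← hzp]
        exact (tb_ia g p).symm
      rw [e]
      exact (tb_rec D hz (2 * k + 1 - j) j (by omega)).2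
    · by_cases c3 : ∃ j, j < 2 * k + 1 ∧ g p ∈ Y j
      · obtain ⟨j, hj, hpj⟩ := c3
        exact tb_succ (tb_succ ⟨0, (tb_Y D hj hpj).2⟩)
      · refine tb_succ ⟨0, D.b4 p (fun j hj h => c1 ⟨j, hj.le, h⟩) (fun j hj h => c2 ⟨j, hj, h⟩)
          (fun j hj h => c3 ⟨j, hj, h⟩)⟩

end




/-! #### part match -/


theorem Pc_self {A : Set C} (hA : LC A) : Pc (fun x => x) A A :=
  ⟨hA, hA, fun x _ => LocAt_id x, Set.bijOn_id A⟩

/-- matching the return times of the two maps -/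
theorem Des.match {g Φ b : Equiv.Perm C} {X Y : ℕ → Set C} {Om : Set C} {k : ℕ}
    (D : Des g Φ b X Y Om (2 * k + 1)) :
    ∃ c ∈ V, (∀ z, c z ∈ X 0 ↔ z ∈ X 0) ∧
      ∀ z ∈ X 0, ∀ n v, Hit (b * g⁻¹) (X 0) n ((b * g⁻¹) z) v →
        ∃ v', Hit b (X 0) n (b (c z)) v' := by
  classical
  set N : ℕ := 2 * k + 1 with hN
  set β : C → C := fun z => b (g⁻¹ ((Φ ^ N) z)) with hβ
  have hβV : Loc β := V.mul_mem D.hb (V.mul_mem (V.inv_mem D.hg) (V.pow_mem D.hΦ N))
  have hgβ : Loc (fun z => g (β z)) := V.mul_mem D.hg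
    (V.mul_mem D.hb (V.mul_mem (V.inv_mem D.hg) (V.pow_mem D.hΦ N)))
  have hgiβ : Loc (fun z => g⁻¹ (β z)) := V.mul_mem (V.inv_mem D.hg)
    (V.mul_mem D.hb (V.mul_mem (V.inv_mem D.hg) (V.pow_mem D.hΦ N)))
  set A1 : Set C := X 0 ∩ β ⁻¹' (Y 0) with hA1
  set A2 : Set C := X 0 ∩ (fun z => g⁻¹ (β z)) ⁻¹' {x | ∃ j < N, x ∈ X j} with hA2
  set A3 : Set C := X 0 \ (A1 ∪ A2) with hA3
  set B1 : Set C := X 0 ∩ (fun z => g (β z)) ⁻¹' (X 0) with hB1
  set B2 : Set C := X 0 ∩ (fun z => g (β z)) ⁻¹' {x | ∃ j < N, x ∈ Y j} with hB2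
  set B3 : Set C := X 0 \ (B1 ∪ B2) with hB3
  have LA1 : LC A1 := (D.LX 0).inter ((D.LY 0).preimage hβV)
  have LA2 : LC A2 := (D.LX 0).inter ((LC_bUnion D.LX N).preimage hgiβ)
  have LA3 : LC A3 := (D.LX 0).diff (LA1.union LA2)
  have LB1 : LC B1 := (D.LX 0).inter ((D.LX 0).preimage hgβ)
  have LB2 : LC B2 := (D.LX 0).inter ((LC_bUnion D.LY N).preimage hgβ)
  have LB3 : LC B3 := (D.LX 0).diff (LB1.union LB2)
  have hN0 : 0 < N := by omega
  have dXY : ∀ {i j : ℕ} {x : C}, x ∈ X i → x ∉ Y j := fun {i j x} h h' =>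
    Set.disjoint_left.1 (D.XY i j) h h'
  have dXX : ∀ {i j : ℕ} {x : C}, i ≠ j → x ∈ X i → x ∉ X j := fun {i j x} hij h h' =>
    Set.disjoint_left.1 (D.XX i j hij) h h'
  have dYY : ∀ {i j : ℕ} {x : C}, i ≠ j → x ∈ Y i → x ∉ Y j := fun {i j x} hij h h' =>
    Set.disjoint_left.1 (D.YY i j hij) h h'
  have nX : ∀ {j : ℕ} {x : C}, x ∉ Om → x ∉ X j := fun {j x} h h' => h (D.XO j h')
  have nY : ∀ {j : ℕ} {x : C}, x ∉ Om → x ∉ Y j := fun {j x} h h' => h (D.YO j h')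
  obtain ⟨x0, hx0⟩ := D.X0
  obtain ⟨y0, hy0⟩ := D.Y0
  have hx0O := D.XO 0 hx0
  have hy0O := D.YO 0 hy0
  have gx : ∀ x : C, g (g⁻¹ x) = x := fun x => by simp
  have gx' : ∀ x : C, g⁻¹ (g x) = x := fun x => by simp
  -- nonemptiness
  obtain ⟨z1, hz1, hz1'⟩ := D.surj y0 (fun j _ h => dXY h hy0) (fun j _ => nX (D.H1 y0 hy0O))
    (fun j _ => dYY (by omega) hy0)
  obtain ⟨z2, hz2, hz2'⟩ := D.surj (g x0) (fun j _ => nX (D.H1 x0 hx0O))
    (fun j _ => nX (D.H2 x0 hx0O)) (fun j _ => nY (D.H1 x0 hx0O))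
  have hx0' : g⁻¹ x0 ∉ Om := by
    intro h
    have := D.H1 _ h
    rw [gx] at this
    exact this hx0O
  have hy0' : g⁻¹ y0 ∉ Om := by
    intro h
    have := D.H1 _ h
    rw [gx] at this
    exact this hy0O
  obtain ⟨z3, hz3, hz3'⟩ := D.surj (g⁻¹ x0) (fun j _ => nX hx0')
    (fun j _ => by rw [gx]; exact dXX (by omega) hx0) (fun j _ => nY hx0')
  obtain ⟨z4, hz4, hz4'⟩ := D.surj (g⁻¹ y0) (fun j _ => nX hy0')
    (fun j _ => by rw [gx]; exact fun h => dXY h hy0) (fun j _ => nY hy0')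
  have eβ : ∀ z, b (g⁻¹ ((Φ ^ N) z)) = β z := fun z => rfl
  rw [eβ] at hz1' hz2' hz3' hz4'
  have NA1 : A1.Nonempty := ⟨z1, hz1, by
    change β z1 ∈ Y 0
    rw [hz1']; exact hy0⟩
  have NA2 : A2.Nonempty := ⟨z2, hz2, by
    change ∃ j < N, g⁻¹ (β z2) ∈ X j
    rw [hz2', gx']; exact ⟨0, hN0, hx0⟩⟩
  have NA3 : A3.Nonempty := by
    refine ⟨z3, hz3, ?_⟩
    rintro (h | h)
    · have h1 : β z3 ∈ Y 0 := h.2
      rw [hz3'] at h1
      exact nY hx0' h1
    · obtain ⟨j, hj, h1⟩ : ∃ j < N, g⁻¹ (β z3) ∈ X j := h.2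
      have h2 := D.H2 _ (D.XO j h1)
      rw [gx, hz3', gx] at h2
      exact h2 hx0O
  have NB1 : B1.Nonempty := ⟨z3, hz3, by
    change g (β z3) ∈ X 0
    rw [hz3', gx]; exact hx0⟩
  have NB2 : B2.Nonempty := ⟨z4, hz4, by
    change ∃ j < N, g (β z4) ∈ Y j
    rw [hz4', gx]; exact ⟨0, hN0, hy0⟩⟩
  have NB3 : B3.Nonempty := by
    refine ⟨z1, hz1, ?_⟩
    rintro (h | h)
    · have h1 : g (β z1) ∈ X 0 := h.2
      rw [hz1'] at h1
      exact nX (D.H1 y0 hy0O) h1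
    · obtain ⟨j, hj, h1⟩ : ∃ j < N, g (β z1) ∈ Y j := h.2
      rw [hz1'] at h1
      exact nY (D.H1 y0 hy0O) h1
  -- disjointness
  have DA : Disjoint A1 A2 := by
    rw [Set.disjoint_left]
    rintro z ⟨-, h1⟩ ⟨-, j, hj, h2⟩
    have h3 : β z ∈ Y 0 := h1
    have h4 : g⁻¹ (β z) ∈ X j := h2
    have h5 := D.H1 _ (D.XO j h4)
    rw [gx] at h5
    exact h5 (D.YO 0 h3)
  have DB : Disjoint B1 B2 := by
    rw [Set.disjoint_left]
    rintro z ⟨-, h1⟩ ⟨-, j, hj, h2⟩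
    exact dXY h1 h2
  have DA3 : Disjoint (A1 ∪ A2) A3 := Set.disjoint_sdiff_right
  have DB3 : Disjoint (B1 ∪ B2) B3 := Set.disjoint_sdiff_right
  have UA : (A1 ∪ A2) ∪ A3 = X 0 := by
    rw [hA3, Set.union_sdiff_cancel]
    rintro z (h | h)
    · exact h.1
    · exact h.1
  have UB : (B1 ∪ B2) ∪ B3 = X 0 := by
    rw [hB3, Set.union_sdiff_cancel]
    rintro z (h | h)
    · exact h.1
    · exact h.1
  obtain ⟨f1, hf1⟩ := exists_Pc LA1 LB1 NA1 NB1
  obtain ⟨f2, hf2⟩ := exists_Pc LA2 LB2 NA2 NB2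
  obtain ⟨f3, hf3⟩ := exists_Pc LA3 LB3 NA3 NB3
  obtain ⟨F, hF, hF1, hF2⟩ := hf1.union hf2 DA DB
  obtain ⟨F', hF', hF'1, hF'2⟩ := hF.union hf3 DA3 DB3
  rw [UA, UB] at hF'
  obtain ⟨F'', hF'', hF''1, hF''2⟩ := hF'.union (Pc_self (D.LX 0).compl)
    disjoint_compl_right disjoint_compl_right
  rw [Set.union_compl_self] at hF''
  obtain ⟨c, hcV, hc⟩ := hF''.toV
  have hcX : ∀ z ∈ X 0, c z = F' z := fun z hz => by rw [hc, hF''1 z hz]
  have hc1 : ∀ z ∈ A1, c z ∈ B1 := by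
    intro z hz
    rw [hcX z hz.1, hF'1 z (Or.inl hz), hF1 z hz]
    exact hf1.2.2.2.mapsTo hz
  have hc2 : ∀ z ∈ A2, c z ∈ B2 := by
    intro z hz
    rw [hcX z hz.1, hF'1 z (Or.inr hz), hF2 z hz]
    exact hf2.2.2.2.mapsTo hz
  have hc3 : ∀ z ∈ A3, c z ∈ B3 := by
    intro z hz
    rw [hcX z hz.1, hF'2 z hz]
    exact hf3.2.2.2.mapsTo hz
  refine ⟨c, hcV, fun z => ?_, ?_⟩
  · constructor
    · intro h
      by_contra hz
      rw [hc, hF''2 z hz] at h
      exact hz h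
    · intro h
      rw [hcX z h]
      exact hF'.2.2.2.mapsTo h
  · intro z hz n v hv
    by_cases h1 : z ∈ A1
    · obtain ⟨v1, hv1⟩ := D.time_a1 hz h1.2
      have h2 := (hv.unique hv1).1
      have h3 := hc1 z h1
      rw [h2]
      exact D.time_b1 h3.1 h3.2
    · by_cases h2 : z ∈ A2
      · obtain ⟨v1, hv1⟩ := D.time_a2 hz h2.2
        have h3 := (hv.unique hv1).1
        have h4 := hc2 z h2
        rw [h3]
        exact D.time_b2 h4.1 h4.2
      · have h3 : z ∈ A3 := ⟨hz, fun h => h.elim h1 h2⟩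
        obtain ⟨v1, hv1⟩ := D.time_a3 hz (fun h => h1 ⟨hz, h⟩)
          (fun j hj h => h2 ⟨hz, j, hj, h⟩)
        have h4 := (hv.unique hv1).1
        have h5 := hc3 z h3
        rw [h4]
        exact D.time_b3 h5.1 (fun h => h5.2 (Or.inl ⟨h5.1, h⟩))
          (fun j hj h => h5.2 (Or.inr ⟨h5.1, j, hj, h⟩))





/-! #### part slotu -/


/-- `x n * ⋯ * x 1` -/
def up (x : ℕ → Equiv.Perm C) : ℕ → Equiv.Perm C
  | 0 => 1
  | n + 1 => x (n + 1) * up x n

/-- `x (2 n - 1) * ⋯ * x 3 * x 1` -/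
def upo (x : ℕ → Equiv.Perm C) : ℕ → Equiv.Perm C
  | 0 => 1
  | n + 1 => x (2 * n + 1) * upo x n

/-- `x (2 n) * ⋯ * x 4 * x 2` -/
def upe (x : ℕ → Equiv.Perm C) : ℕ → Equiv.Perm C
  | 0 => 1
  | n + 1 => x (2 * n + 2) * upe x n

/-- `u` acts on the floor `X j` as `Φ ^ j (x j) Φ ^ (-j)` for `1 ≤ j ≤ N` and trivially elsewhere -/
structure Slots (Φ u : Equiv.Perm C) (X : ℕ → Set C) (x : ℕ → Equiv.Perm C) (N : ℕ) : Prop where
  Xs : ∀ j, X (j + 1) = Φ '' X j
  XX : ∀ i j, i ≠ j → Disjoint (X i) (X j)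
  hx : ∀ j z, x j z ∈ X 0 ↔ z ∈ X 0
  hu : ∀ j, 1 ≤ j → j ≤ N → ∀ z ∈ X 0, u ((Φ ^ j) z) = (Φ ^ j) (x j z)
  hu' : ∀ p, (∀ j, 1 ≤ j → j ≤ N → p ∉ X j) → u p = p

theorem slot_inv_apply (e : Equiv.Perm C) (z : C) : e⁻¹ (e z) = z := e.symm_apply_apply z

theorem slot_apply_inv (e : Equiv.Perm C) (z : C) : e (e⁻¹ z) = z := e.apply_symm_apply z

theorem exists_slots {Φ : Equiv.Perm C} (hΦ : Φ ∈ V) {X : ℕ → Set C} (LX : ∀ j, LC (X j))
    (Xs : ∀ j, X (j + 1) = Φ '' X j) (XX : ∀ i j, i ≠ j → Disjoint (X i) (X j))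
    (x : ℕ → Equiv.Perm C) (hx : ∀ j, x j ∈ V) (hx' : ∀ j z, z ∉ X 0 → x j z = z) (N : ℕ) :
    ∃ u ∈ V, Slots Φ u X x N := by
  have hX : ∀ j, X j = (Φ ^ j : Equiv.Perm C) '' X 0 := by
    intro j
    induction j with
    | zero => simp
    | succ j ih =>
      rw [Xs j, ih, Set.image_image]
      ext p
      constructor
      · rintro ⟨z, hz, rfl⟩
        exact ⟨z, hz, by rw [pow_succ', Equiv.Perm.mul_apply]⟩
      · rintro ⟨z, hz, rfl⟩
        exact ⟨z, hz, by rw [pow_succ', Equiv.Perm.mul_apply]⟩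
  have hmem : ∀ j z, (Φ ^ j : Equiv.Perm C) z ∈ X j ↔ z ∈ X 0 := by
    intro j z
    rw [hX j]
    constructor
    · rintro ⟨y, hy, hyz⟩
      have := (Φ ^ j : Equiv.Perm C).injective hyz
      rwa [← this]
    · intro hz; exact ⟨z, hz, rfl⟩
  have hpres : ∀ j z, x j z ∈ X 0 ↔ z ∈ X 0 := by
    intro j z
    constructor
    · intro h
      by_contra hz
      rw [hx' j z hz] at h
      exact hz h
    · intro hz
      by_contra h
      have h1 := hx' j _ h
      have h2 := (x j).injective h1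
      rw [h2] at h
      exact h hz
  induction N with
  | zero =>
    exact ⟨1, V.one_mem, Xs, XX, hpres, fun j h1 h2 => by omega, fun p _ => rfl⟩
  | succ N ih =>
    obtain ⟨u, hu, hs⟩ := ih
    refine ⟨u * (Φ ^ (N + 1) * x (N + 1) * (Φ ^ (N + 1))⁻¹),
      V.mul_mem hu (V.mul_mem (V.mul_mem (V.pow_mem hΦ _) (hx _)) (V.inv_mem (V.pow_mem hΦ _))),
      Xs, XX, hpres, ?_, ?_⟩
    · intro j h1 h2 z hz
      rcases Nat.lt_or_ge N j with h3 | h3
      · have h4 : j = N + 1 := by omega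
        subst h4
        rw [Equiv.Perm.mul_apply, Equiv.Perm.mul_apply, Equiv.Perm.mul_apply,
          slot_inv_apply]
        refine hs.hu' _ (fun i hi1 hi2 hi => ?_)
        have h5 : (Φ ^ (N + 1) : Equiv.Perm C) (x (N + 1) z) ∈ X (N + 1) :=
          (hmem _ _).2 ((hpres _ _).2 hz)
        exact Set.disjoint_left.1 (XX i (N + 1) (by omega)) hi h5
      · rw [Equiv.Perm.mul_apply, Equiv.Perm.mul_apply, Equiv.Perm.mul_apply]
        have h4 : ((Φ ^ (N + 1))⁻¹ : Equiv.Perm C) ((Φ ^ j) z) ∉ X 0 := by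
          intro h
          have h5 := (hmem (N + 1) _).2 h
          rw [slot_apply_inv] at h5
          exact Set.disjoint_left.1 (XX j (N + 1) (by omega)) ((hmem j z).2 hz) h5
        rw [hx' _ _ h4, slot_apply_inv]
        exact hs.hu j h1 h3 z hz
    · intro p hp
      rw [Equiv.Perm.mul_apply, Equiv.Perm.mul_apply, Equiv.Perm.mul_apply]
      have h4 : ((Φ ^ (N + 1))⁻¹ : Equiv.Perm C) p ∉ X 0 := by
        intro h
        have h5 := (hmem (N + 1) _).2 h
        rw [slot_apply_inv] at h5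
        exact hp (N + 1) (by omega) le_rfl h5
      rw [hx' _ _ h4, slot_apply_inv]
      exact hs.hu' p (fun i hi1 hi2 => hp i hi1 (by omega))




/-! #### part slota -/


theorem slot_pow_mem_7530 {Φ u : Equiv.Perm C} {X : ℕ → Set C} {x : ℕ → Equiv.Perm C} {N : ℕ}
    (S : Slots Φ u X x N) {z : C} (hz : z ∈ X 0) (j : ℕ) : (Φ ^ j) z ∈ X j := by
  induction j with
  | zero => exact hz
  | succ j ih =>
    rw [S.Xs, pow_succ']
    exact ⟨_, ih, rfl⟩

theorem slot_mem_pow_7530 {Φ u : Equiv.Perm C} {X : ℕ → Set C} {x : ℕ → Equiv.Perm C} {N : ℕ}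
    (S : Slots Φ u X x N) (j : ℕ) : ∀ p ∈ X j, ∃ y ∈ X 0, p = (Φ ^ j) y := by
  induction j with
  | zero => exact fun p hp => ⟨p, hp, rfl⟩
  | succ j ih =>
    intro p hp
    rw [S.Xs] at hp
    obtain ⟨p', hp', rfl⟩ := hp
    obtain ⟨y, hy, rfl⟩ := ih p' hp'
    exact ⟨y, hy, by rw [pow_succ']; rfl⟩

theorem slot_up_mem_7530 {Φ u : Equiv.Perm C} {X : ℕ → Set C} {x : ℕ → Equiv.Perm C} {N : ℕ}
    (S : Slots Φ u X x N) {z : C} (hz : z ∈ X 0) (j : ℕ) : up x j z ∈ X 0 := by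
  induction j with
  | zero => exact hz
  | succ j ih => exact (S.hx (j + 1) _).2 ih

theorem slot_ne_7530 {Φ u : Equiv.Perm C} {X : ℕ → Set C} {x : ℕ → Equiv.Perm C} {N : ℕ}
    (S : Slots Φ u X x N) {i j : ℕ} (hij : i ≠ j) {p : C} (hp : p ∈ X i) : p ∉ X j :=
  fun h => Set.disjoint_left.1 (S.XX i j hij) hp h

theorem slot_pow_7530 {Φ a u : Equiv.Perm C} {X : ℕ → Set C} {x : ℕ → Equiv.Perm C} {N : ℕ}
    (S : Slots Φ u X x N) (A1 : ∀ j < N, ∀ p ∈ X j, a p = Φ p) {z : C} (hz : z ∈ X 0) (j : ℕ)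
    (hj : j ≤ N) : ((u * a) ^ j) z = (Φ ^ j) (up x j z) := by
  induction j with
  | zero => rfl
  | succ j ih =>
    have h1 : ((u * a) ^ (j + 1)) z = u (a (((u * a) ^ j) z)) := by
      rw [pow_succ']; rfl
    have hy := slot_up_mem_7530 S hz j
    have h2 : a ((Φ ^ j) (up x j z)) = (Φ ^ (j + 1)) (up x j z) := by
      rw [A1 j (by omega) _ (slot_pow_mem_7530 S hy j), pow_succ']
      rfl
    rw [h1, ih (by omega), h2, S.hu (j + 1) (by omega) hj _ hy]
    rfl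

theorem slot_key_7530 {Φ a u : Equiv.Perm C} {X : ℕ → Set C} {x : ℕ → Equiv.Perm C} {N : ℕ}
    (S : Slots Φ u X x N)
    (A2 : ∀ j < N, ∀ p, a p ∈ X (j + 1) → p ∈ X j) (n : ℕ) :
    ∀ p v, (∀ j < N, p ∉ X j) → Hit a (X 0) n p v → Hit (u * a) (X 0) n p v := by
  induction n with
  | zero =>
    rintro p v _ ⟨h1, h2, _⟩
    exact ⟨h1, h2, fun j hj => absurd hj (Nat.not_lt_zero _)⟩
  | succ n ih =>
    intro p v hp h
    obtain ⟨h1, h2⟩ := h.tail
    have h3 : u (a p) = a p := by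
      apply S.hu'
      intro j hj1 hj2 hmem
      obtain ⟨j', rfl⟩ : ∃ j', j = j' + 1 := ⟨j - 1, by omega⟩
      exact hp j' (by omega) (A2 j' (by omega) p hmem)
    apply Hit.succ h1
    show Hit (u * a) (X 0) n (u (a p)) v
    rw [h3]
    by_cases h4 : a p ∈ X 0
    · obtain ⟨h5, h6⟩ := h2.unique (Hit.zero a h4)
      rw [h5, h6]
      exact Hit.zero _ h4
    · apply ih _ _ _ h2
      intro j hj hmem
      rcases Nat.eq_zero_or_pos j with rfl | hj0
      · exact h4 hmem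
      · obtain ⟨j', rfl⟩ : ∃ j', j = j' + 1 := ⟨j - 1, by omega⟩
        exact hp j' (by omega) (A2 j' (by omega) p hmem)

theorem slot_fwd_7530 {Φ a u : Equiv.Perm C} {X : ℕ → Set C} {x : ℕ → Equiv.Perm C} {N : ℕ}
    (S : Slots Φ u X x N) (A1 : ∀ j < N, ∀ p ∈ X j, a p = Φ p) {w : C} (hw : w ∈ X 0)
    {n : ℕ} {v : C} (h : Hit a (X 0) n (Φ w) v) (k : ℕ) :
    1 + k ≤ N → ∃ m, n = m + k ∧ Hit a (X 0) m ((Φ ^ (1 + k)) w) v := by
  induction k with
  | zero => intro _; exact ⟨n, rfl, h⟩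
  | succ k ih =>
    intro hk
    obtain ⟨m, hm, hH⟩ := ih (by omega)
    have h1 : (Φ ^ (1 + k)) w ∈ X (1 + k) := slot_pow_mem_7530 S hw _
    have h2 : (Φ ^ (1 + k)) w ∉ X 0 := slot_ne_7530 S (by omega) h1
    cases m with
    | zero => exact absurd (by rw [show (Φ ^ (1 + k)) w = v from hH.1]; exact hH.2.1) h2
    | succ m =>
      refine ⟨m, by omega, ?_⟩
      have h3 := hH.tail.2
      rw [A1 (1 + k) (by omega) _ h1] at h3
      rw [show 1 + (k + 1) = (1 + k) + 1 by ring, pow_succ']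
      exact h3

theorem slot_bwd_7530 {Φ a u : Equiv.Perm C} {X : ℕ → Set C} {x : ℕ → Equiv.Perm C} {N : ℕ}
    (S : Slots Φ u X x N) (A1 : ∀ j < N, ∀ p ∈ X j, a p = Φ p) {z : C} (hz : z ∈ X 0)
    {v : C} (k : ℕ) :
    ∀ m, 1 + k ≤ N → Hit (u * a) (X 0) m (((u * a) ^ (1 + k)) z) v →
      Hit (u * a) (X 0) (m + k) ((u * a) z) v := by
  induction k with
  | zero => intro m _ h; exact h
  | succ k ih =>
    intro m hk h
    have h1 : ((u * a) ^ (1 + k)) z ∈ X (1 + k) := by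
      rw [slot_pow_7530 S A1 hz _ (by omega)]
      exact slot_pow_mem_7530 S (slot_up_mem_7530 S hz _) _
    have h2 : ((u * a) ^ (1 + k)) z ∉ X 0 := slot_ne_7530 S (by omega) h1
    have h3 : Hit (u * a) (X 0) (m + 1) (((u * a) ^ (1 + k)) z) v := by
      apply Hit.succ h2
      rw [show 1 + (k + 1) = (1 + k) + 1 by ring, pow_succ'] at h
      exact h
    have h4 := ih (m + 1) (by omega) h3
    rw [show m + (k + 1) = m + 1 + k by ring]
    exact h4

theorem slot_rec_7530 {Φ a u : Equiv.Perm C} {X : ℕ → Set C} {x : ℕ → Equiv.Perm C} {N : ℕ}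
    (S : Slots Φ u X x N)
    (A1 : ∀ j < N, ∀ p ∈ X j, a p = Φ p) (A2 : ∀ j < N, ∀ p, a p ∈ X (j + 1) → p ∈ X j)
    (ra : ∀ p, ∃ n, (a ^ n) p ∈ X 0) (k : ℕ) :
    ∀ j, j + k = N → ∀ p ∈ X j, ∃ n, ((u * a) ^ n) p ∈ X 0 := by
  induction k with
  | zero =>
    intro j hj p hp
    obtain ⟨n, v, hn⟩ := Hit.exists (ra p)
    have h1 := slot_key_7530 S A2 n p v (fun i hi => slot_ne_7530 S (by omega) hp) hn
    exact ⟨n, h1.1 ▸ h1.2.1⟩
  | succ k ih =>
    intro j hj p hp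
    obtain ⟨y, hy, rfl⟩ := slot_mem_pow_7530 S j p hp
    have h1 : (u * a) ((Φ ^ j) y) = (Φ ^ (j + 1)) (x (j + 1) y) := by
      have h2 : a ((Φ ^ j) y) = (Φ ^ (j + 1)) y := by
        rw [A1 j (by omega) _ hp, pow_succ']
        rfl
      show u (a ((Φ ^ j) y)) = _
      rw [h2, S.hu (j + 1) (by omega) (by omega) _ hy]
    obtain ⟨n, hn⟩ := ih (j + 1) (by omega) _
      (slot_pow_mem_7530 S ((S.hx (j + 1) y).2 hy) (j + 1))
    refine ⟨n + 1, ?_⟩
    rw [pow_succ]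
    show ((u * a) ^ n) ((u * a) ((Φ ^ j) y)) ∈ X 0
    rw [h1]
    exact hn

theorem slot_a {Φ a u : Equiv.Perm C} {X : ℕ → Set C} {x : ℕ → Equiv.Perm C} {N : ℕ}
    (S : Slots Φ u X x N)
    (A1 : ∀ j < N, ∀ p ∈ X j, a p = Φ p) (A2 : ∀ j < N, ∀ p, a p ∈ X (j + 1) → p ∈ X j)
    (ra : ∀ p, ∃ n, (a ^ n) p ∈ X 0) :
    (∀ z ∈ X 0, ∀ n v, Hit a (X 0) n (a (up x N z)) v → Hit (u * a) (X 0) n ((u * a) z) v) ∧
      ∀ p, ∃ n, ((u * a) ^ n) p ∈ X 0 := by
  constructor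
  · intro z hz n v h
    rcases Nat.eq_zero_or_pos N with rfl | hN
    · have hu : ∀ p, u p = p := fun p => S.hu' p (fun j h1 h2 => by omega)
      have h1 := slot_key_7530 S A2 n (a z) v (fun j hj => absurd hj (Nat.not_lt_zero _)) h
      show Hit (u * a) (X 0) n (u (a z)) v
      rw [hu]
      exact h1
    · obtain ⟨M, rfl⟩ : ∃ M, N = 1 + M := ⟨N - 1, by omega⟩
      have hw := slot_up_mem_7530 S hz (1 + M)
      rw [A1 0 (by omega) _ hw] at h
      obtain ⟨m, rfl, hH⟩ := slot_fwd_7530 S A1 hw h M le_rfl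
      have h1 := slot_pow_mem_7530 S hw (1 + M)
      have h2 := slot_key_7530 S A2 m _ v
        (fun i hi => slot_ne_7530 S (by omega) h1) hH
      apply slot_bwd_7530 S A1 hz M m le_rfl
      rw [slot_pow_7530 S A1 hz _ le_rfl]
      exact h2
  · intro p
    by_cases hp : ∀ j < N, p ∉ X j
    · obtain ⟨n, v, hn⟩ := Hit.exists (ra p)
      have h1 := slot_key_7530 S A2 n p v hp hn
      exact ⟨n, h1.1 ▸ h1.2.1⟩
    · push Not at hp
      obtain ⟨j, hj, hp⟩ := hp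
      exact slot_rec_7530 S A1 A2 ra (N - j) j (by omega) p hp




/-! #### part slotb -/

/-- path of length `n` from `x` to `y` which avoids `S` before its end -/
def Seg (f : Equiv.Perm C) (S : Set C) (n : ℕ) (x y : C) : Prop :=
  (f ^ n) x = y ∧ ∀ j < n, (f ^ j) x ∉ S

theorem Seg.refl (f : Equiv.Perm C) (S : Set C) (x : C) : Seg f S 0 x x :=
  ⟨rfl, fun _ h => absurd h (Nat.not_lt_zero _)⟩

theorem Seg.snoc {f : Equiv.Perm C} {S : Set C} {n : ℕ} {x y z : C} (h : Seg f S n x y)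
    (hy : y ∉ S) (hz : f y = z) : Seg f S (n + 1) x z := by
  refine ⟨?_, ?_⟩
  · rw [pow_succ']
    show f ((f ^ n) x) = z
    rw [h.1, hz]
  · intro j hj
    rcases Nat.lt_succ_iff_lt_or_eq.1 hj with h1 | h1
    · exact h.2 j h1
    · rw [h1, h.1]; exact hy

theorem Seg.add {f : Equiv.Perm C} {S : Set C} {n m : ℕ} {x y w : C} (h : Seg f S n x y)
    (h' : Hit f S m y w) : Hit f S (n + m) x w := by
  refine ⟨?_, h'.2.1, ?_⟩
  · rw [add_comm, pow_add]
    show (f ^ m) ((f ^ n) x) = w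
    rw [h.1, h'.1]
  · intro j hj
    rcases Nat.lt_or_ge j n with h1 | h1
    · exact h.2 j h1
    · obtain ⟨i, rfl⟩ := Nat.exists_eq_add_of_le h1
      rw [add_comm, pow_add]
      show (f ^ i) ((f ^ n) x) ∉ S
      rw [h.1]
      exact h'.2.2 i (by omega)

theorem Seg.strip {f : Equiv.Perm C} {S : Set C} {n t : ℕ} {x y w : C} (h : Seg f S n x y)
    (h' : Hit f S t x w) : ∃ m, t = n + m ∧ Hit f S m y w := by
  have hnt : n ≤ t := by
    by_contra hc
    push Not at hc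
    exact h.2 t hc (h'.1 ▸ h'.2.1)
  obtain ⟨m, rfl⟩ := Nat.exists_eq_add_of_le hnt
  refine ⟨m, rfl, ?_, h'.2.1, ?_⟩
  · have h1 := h'.1
    rw [add_comm, pow_add] at h1
    have h2 : (f ^ m) ((f ^ n) x) = w := h1
    rwa [h.1] at h2
  · intro j hj
    have h1 := h'.2.2 (n + j) (by omega)
    rw [add_comm, pow_add] at h1
    have h2 : (f ^ j) ((f ^ n) x) ∉ S := h1
    rwa [h.1] at h2

/-- the hypotheses of the main result of this file -/
structure SB (g Φ b u : Equiv.Perm C) (X : ℕ → Set C) (x : ℕ → Equiv.Perm C) (N : ℕ) : Prop where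
  S : Slots Φ u X x N
  hgX : ∀ i ≤ N, ∀ j ≤ N, ∀ p ∈ X i, g p ∉ X j
  B1 : ∀ j < N, ∀ p ∈ X j, g (b p) = Φ p
  B2 : ∀ j < N, ∀ p, g p ∈ X j → b p = Φ (g p)
  B3 : ∀ j < N, ∀ p, b p ∈ X (j + 1) → g p ∈ X j
  B4 : ∀ j < N, ∀ p, g (b p) ∈ X (j + 1) → p ∈ X j
  B5 : ∀ p, g (b p) ∈ X 0 → g p ∈ X N
  B6 : ∀ p ∈ X N, b p ∈ X 0

/-- free points -/
def Fre (g : Equiv.Perm C) (X : ℕ → Set C) (N : ℕ) (p : C) : Prop :=
  ∀ j ≤ N, p ∉ X j ∧ g p ∉ X j

section sbs

variable {g Φ b u : Equiv.Perm C} {X : ℕ → Set C} {x : ℕ → Equiv.Perm C} {N : ℕ}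

theorem SB.memA (h : SB g Φ b u X x N) {r : C} (hr : r ∈ X 0) (j : ℕ) : (Φ ^ j) r ∈ X j := by
  induction j with
  | zero => exact hr
  | succ j ih =>
    rw [h.S.Xs j, pow_succ']
    exact ⟨_, ih, rfl⟩

theorem SB.exA (h : SB g Φ b u X x N) (j : ℕ) : ∀ p ∈ X j, ∃ r ∈ X 0, p = (Φ ^ j) r := by
  induction j with
  | zero => exact fun p hp => ⟨p, hp, rfl⟩
  | succ j ih =>
    intro p hp
    rw [h.S.Xs j] at hp
    obtain ⟨q, hq, rfl⟩ := hp
    obtain ⟨r, hr, rfl⟩ := ih q hq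
    refine ⟨r, hr, ?_⟩
    rw [pow_succ']
    rfl

theorem SB.disj (h : SB g Φ b u X x N) {i j : ℕ} (hij : i ≠ j) {p : C} (hi : p ∈ X i) :
    p ∉ X j := fun hj => Set.disjoint_left.1 (h.S.XX i j hij) hi hj

theorem SB.u0 (h : SB g Φ b u X x N) {p : C} (hp : p ∈ X 0) : u p = p :=
  h.S.hu' p fun j hj _ => h.disj (by omega) hp

theorem SB.bA (h : SB g Φ b u X x N) {r : C} (hr : r ∈ X 0) {j : ℕ} (hj : j < N) :
    b ((Φ ^ j) r) = g⁻¹ ((Φ ^ (j + 1)) r) := by
  have h1 := h.B1 j hj _ (h.memA hr j)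
  have h2 : (Φ ^ (j + 1)) r = Φ ((Φ ^ j) r) := by rw [pow_succ']; rfl
  rw [h2, ← h1]
  simp

theorem SB.gB (g : Equiv.Perm C) (y : C) : g (g⁻¹ y) = y := by simp

theorem SB.bB (h : SB g Φ b u X x N) {r : C} (hr : r ∈ X 0) {j : ℕ} (hj : j < N) :
    b (g⁻¹ ((Φ ^ j) r)) = (Φ ^ (j + 1)) r := by
  have h1 := h.B2 j hj (g⁻¹ ((Φ ^ j) r)) (by rw [SB.gB]; exact h.memA hr j)
  rw [h1, SB.gB, pow_succ']
  rfl

theorem SB.Bnot (h : SB g Φ b u X x N) {r : C} (hr : r ∈ X 0) {i j : ℕ} (hi : i ≤ N)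
    (hj : j ≤ N) : g⁻¹ ((Φ ^ j) r) ∉ X i := by
  intro hc
  have h1 := h.hgX i hi j hj _ hc
  rw [SB.gB] at h1
  exact h1 (h.memA hr j)

theorem SB.uB (h : SB g Φ b u X x N) {r : C} (hr : r ∈ X 0) {j : ℕ} (hj : j ≤ N) :
    u (g⁻¹ ((Φ ^ j) r)) = g⁻¹ ((Φ ^ j) r) :=
  h.S.hu' _ fun _ _ hi => h.Bnot hr hi hj

theorem SB.fA (h : SB g Φ b u X x N) {r : C} (hr : r ∈ X 0) {j : ℕ} (hj : j < N) :
    (u * b) ((Φ ^ j) r) = g⁻¹ ((Φ ^ (j + 1)) r) := by
  show u (b ((Φ ^ j) r)) = _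
  rw [h.bA hr hj, h.uB hr hj]

theorem SB.fB (h : SB g Φ b u X x N) {r : C} (hr : r ∈ X 0) {j : ℕ} (hj : j < N) :
    (u * b) (g⁻¹ ((Φ ^ j) r)) = (Φ ^ (j + 1)) (x (j + 1) r) := by
  show u (b (g⁻¹ ((Φ ^ j) r))) = _
  rw [h.bB hr hj, h.S.hu (j + 1) (by omega) hj r hr]

theorem SB.Anot (h : SB g Φ b u X x N) {r : C} (hr : r ∈ X 0) {j : ℕ} (hj : 1 ≤ j) :
    (Φ ^ j) r ∉ X 0 := h.disj (by omega) (h.memA hr j)

theorem SB.xr (h : SB g Φ b u X x N) {r : C} (hr : r ∈ X 0) (j : ℕ) : x j r ∈ X 0 :=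
  (h.S.hx j r).2 hr

theorem SB.fAN (h : SB g Φ b u X x N) {r : C} (hr : r ∈ X 0) :
    (u * b) ((Φ ^ N) r) = b ((Φ ^ N) r) ∧ b ((Φ ^ N) r) ∈ X 0 := by
  have h1 := h.B6 _ (h.memA hr N)
  exact ⟨h.u0 h1, h1⟩

/-- the next point after the end of the main path -/
theorem SB.yp (h : SB g Φ b u X x N) {r : C} (hr : r ∈ X 0) :
    (u * b) (g⁻¹ ((Φ ^ N) r)) = b (g⁻¹ ((Φ ^ N) r)) ∧
      (b (g⁻¹ ((Φ ^ N) r)) ∈ X 0 ∨ Fre g X N (b (g⁻¹ ((Φ ^ N) r))) ∨
        ∃ q ∈ X 0, b (g⁻¹ ((Φ ^ N) r)) = g⁻¹ ((Φ ^ 0) q)) := by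
  have h3 : ∀ j < N, b (g⁻¹ ((Φ ^ N) r)) ∉ X (j + 1) := by
    intro j hj hc
    have h1 := h.B3 j hj _ hc
    rw [SB.gB] at h1
    exact h.disj (by omega) (h.memA hr N) h1
  have h4 : ∀ j < N, g (b (g⁻¹ ((Φ ^ N) r))) ∉ X (j + 1) := by
    intro j hj hc
    exact h.Bnot hr hj.le le_rfl (h.B4 j hj _ hc)
  refine ⟨?_, ?_⟩
  · apply h.S.hu'
    intro j hj hjN
    obtain ⟨i, rfl⟩ := Nat.exists_eq_add_of_le' hj
    exact h3 i (by omega)
  · by_cases c0 : b (g⁻¹ ((Φ ^ N) r)) ∈ X 0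
    · exact Or.inl c0
    · right
      by_cases c1 : g (b (g⁻¹ ((Φ ^ N) r))) ∈ X 0
      · right
        refine ⟨_, c1, ?_⟩
        simp
      · left
        intro j hj
        rcases Nat.eq_zero_or_pos j with h5 | h5
        · rw [h5]; exact ⟨c0, c1⟩
        · obtain ⟨i, rfl⟩ := Nat.exists_eq_add_of_le' h5
          exact ⟨h3 i (by omega), h4 i (by omega)⟩

theorem SB.free_step (h : SB g Φ b u X x N) {p : C} (hp : Fre g X N p) :
    (u * b) p = b p ∧ (b p ∈ X 0 ∨ Fre g X N (b p)) := by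
  have h3 : ∀ j < N, b p ∉ X (j + 1) := fun j hj hc => (hp j hj.le).2 (h.B3 j hj _ hc)
  have h4 : ∀ j < N, g (b p) ∉ X (j + 1) := fun j hj hc => (hp j hj.le).1 (h.B4 j hj _ hc)
  have h5 : g (b p) ∉ X 0 := fun hc => (hp N le_rfl).2 (h.B5 _ hc)
  refine ⟨?_, ?_⟩
  · apply h.S.hu'
    intro j hj hjN
    obtain ⟨i, rfl⟩ := Nat.exists_eq_add_of_le' hj
    exact h3 i (by omega)
  · by_cases c0 : b p ∈ X 0
    · exact Or.inl c0
    · right
      intro j hj
      rcases Nat.eq_zero_or_pos j with h6 | h6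
      · rw [h6]; exact ⟨c0, h5⟩
      · obtain ⟨i, rfl⟩ := Nat.exists_eq_add_of_le' h6
        exact ⟨h3 i (by omega), h4 i (by omega)⟩

theorem SB.hit0 {f f' : Equiv.Perm C} {S : Set C} {p v : C} (hp : p ∈ S) (n : ℕ)
    (h : Hit f S n p v) : Hit f' S n p v := by
  obtain ⟨rfl, rfl⟩ := Hit.unique h (Hit.zero f hp)
  exact Hit.zero f' hp

theorem SB.free_hit (h : SB g Φ b u X x N) (n : ℕ) : ∀ p v, Fre g X N p →
    Hit b (X 0) n p v → Hit (u * b) (X 0) n p v := by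
  induction n with
  | zero =>
    intro p v _ hh
    have e : p = v := hh.1
    have hp0 : p ∈ X 0 := by
      rw [e]
      exact hh.2.1
    exact SB.hit0 hp0 0 hh
  | succ n ih =>
    intro p v hp hh
    obtain ⟨h1, h2⟩ := hh.tail
    obtain ⟨h3, h4⟩ := h.free_step hp
    apply Hit.succ h1
    rw [h3]
    rcases h4 with h4 | h4
    · exact SB.hit0 h4 n h2
    · exact ih _ _ h4 h2

theorem SB.upo_mem (h : SB g Φ b u X x N) {r : C} (hr : r ∈ X 0) (i : ℕ) : upo x i r ∈ X 0 := by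
  induction i with
  | zero => exact hr
  | succ i ih => exact h.xr ih _

theorem SB.upe_mem (h : SB g Φ b u X x N) {r : C} (hr : r ∈ X 0) (i : ℕ) : upe x i r ∈ X 0 := by
  induction i with
  | zero => exact hr
  | succ i ih => exact h.xr ih _

theorem SB.lane (h : SB g Φ b u X x N) {q : C} (hq : q ∈ X 0) (i : ℕ) : 2 * i + 1 ≤ N →
    Seg b (X 0) (2 * i + 1) (g⁻¹ ((Φ ^ 0) q)) ((Φ ^ (2 * i + 1)) q) ∧
    Seg (u * b) (X 0) (2 * i + 1) (g⁻¹ ((Φ ^ 0) q)) ((Φ ^ (2 * i + 1)) (upo x (i + 1) q)) := by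
  induction i with
  | zero =>
    intro hN
    exact ⟨(Seg.refl _ _ _).snoc (h.Bnot hq (by omega) (by omega)) (h.bB hq (by omega)),
      (Seg.refl _ _ _).snoc (h.Bnot hq (by omega) (by omega)) (h.fB hq (by omega))⟩
  | succ i ih =>
    intro hN
    obtain ⟨h1, h2⟩ := ih (by omega)
    have hm := h.upo_mem hq (i + 1)
    constructor
    · exact (h1.snoc (h.Anot hq (by omega)) (h.bA hq (by omega))).snoc
        (h.Bnot hq (by omega) (by omega)) (h.bB hq (by omega))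
    · exact (h2.snoc (h.Anot hm (by omega)) (h.fA hm (by omega))).snoc
        (h.Bnot hm (by omega) (by omega)) (h.fB hm (by omega))

theorem SB.main (h : SB g Φ b u X x N) {q : C} (hq : q ∈ X 0) (i : ℕ) : 2 * i + 1 ≤ N →
    Seg b (X 0) (2 * i) (g⁻¹ ((Φ ^ 1) q)) (g⁻¹ ((Φ ^ (2 * i + 1)) q)) ∧
    Seg (u * b) (X 0) (2 * i) (g⁻¹ ((Φ ^ 1) q)) (g⁻¹ ((Φ ^ (2 * i + 1)) (upe x i q))) := by
  induction i with
  | zero =>
    intro hN
    exact ⟨Seg.refl _ _ _, Seg.refl _ _ _⟩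
  | succ i ih =>
    intro hN
    obtain ⟨h1, h2⟩ := ih (by omega)
    have hm := h.upe_mem hq i
    have hm' := h.upe_mem hq (i + 1)
    constructor
    · exact (h1.snoc (h.Bnot hq (by omega) (by omega)) (h.bB hq (by omega))).snoc
        (h.Anot hq (by omega)) (h.bA hq (by omega))
    · exact (h2.snoc (h.Bnot hm (by omega) (by omega)) (h.fB hm (by omega))).snoc
        (h.Anot hm' (by omega)) (h.fA hm' (by omega))

theorem SB.lane_hit {k : ℕ} (h : SB g Φ b u X x (2 * k + 1)) (ho : upo x (k + 1) = 1)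
    {q : C} (hq : q ∈ X 0) (n : ℕ) (v : C) (hh : Hit b (X 0) n (g⁻¹ ((Φ ^ 0) q)) v) :
    Hit (u * b) (X 0) n (g⁻¹ ((Φ ^ 0) q)) v := by
  obtain ⟨h1, h2⟩ := h.lane hq k le_rfl
  rw [ho] at h2
  obtain ⟨m, rfl, h3⟩ := h1.strip hh
  refine h2.add ?_
  show Hit (u * b) (X 0) m ((Φ ^ (2 * k + 1)) q) v
  obtain ⟨a1, a2⟩ := h.fAN hq
  cases m with
  | zero => exact absurd (h3.1 ▸ h3.2.1) (h.Anot hq (by omega))
  | succ m =>
    obtain ⟨h4, h5⟩ := h3.tail
    apply Hit.succ h4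
    rw [a1]
    exact SB.hit0 a2 m h5

theorem SB.main_hit {k : ℕ} (h : SB g Φ b u X x (2 * k + 1)) (he : upe x k = 1)
    (ho : upo x (k + 1) = 1) {q : C} (hq : q ∈ X 0) (n : ℕ) (v : C)
    (hh : Hit b (X 0) n (g⁻¹ ((Φ ^ 1) q)) v) :
    Hit (u * b) (X 0) n (g⁻¹ ((Φ ^ 1) q)) v := by
  obtain ⟨h1, h2⟩ := h.main hq k le_rfl
  rw [he] at h2
  obtain ⟨m, rfl, h3⟩ := h1.strip hh
  refine h2.add ?_
  show Hit (u * b) (X 0) m (g⁻¹ ((Φ ^ (2 * k + 1)) q)) v
  obtain ⟨a1, a2⟩ := h.yp hq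
  cases m with
  | zero => exact absurd (h3.1 ▸ h3.2.1) (h.Bnot hq (by omega) le_rfl)
  | succ m =>
    obtain ⟨h4, h5⟩ := h3.tail
    apply Hit.succ h4
    rw [a1]
    rcases a2 with a2 | a2 | ⟨q', hq', a2⟩
    · exact SB.hit0 a2 m h5
    · exact h.free_hit m _ _ a2 h5
    · rw [a2] at h5 ⊢
      exact h.lane_hit ho hq' m v h5

/-- recurrence to the bottom floor -/
def Rc (f : Equiv.Perm C) (S : Set C) (p : C) : Prop := ∃ n, (f ^ n) p ∈ S

theorem Rc.step {f : Equiv.Perm C} {S : Set C} {p : C} (h : Rc f S (f p)) : Rc f S p := by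
  obtain ⟨n, hn⟩ := h
  refine ⟨n + 1, ?_⟩
  rw [pow_succ]
  exact hn

theorem chain_dn (RA RB : ℕ → Prop) (N : ℕ) (h1 : ∀ j < N, RA (j + 1) → RB j)
    (h2 : ∀ j < N, RB (j + 1) → RA j) (hN : RA N) :
    ∀ m j, j + m = N → (Even m → RA j) ∧ (Odd m → RB j) := by
  intro m
  induction m with
  | zero =>
    intro j hj
    have : j = N := by omega
    subst this
    exact ⟨fun _ => hN, fun h => absurd h (by decide)⟩
  | succ m ih =>
    intro j hj
    obtain ⟨i1, i2⟩ := ih (j + 1) (by omega)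
    constructor
    · intro he
      have : Odd m := by
        rcases Nat.even_or_odd m with h | h
        · exact absurd he (Nat.not_even_iff_odd.2 h.add_one)
        · exact h
      exact h2 j (by omega) (i2 this)
    · intro ho
      have : Even m := by
        rcases Nat.even_or_odd m with h | h
        · exact h
        · exact absurd ho (Nat.not_odd_iff_even.2 h.add_one)
      exact h1 j (by omega) (i1 this)

theorem SB.recur {k : ℕ} (h : SB g Φ b u X x (2 * k + 1)) (rb : ∀ p, ∃ n, (b ^ n) p ∈ X 0) (p : C) :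
    Rc (u * b) (X 0) p := by
  have hfree : ∀ p, Fre g X (2 * k + 1) p → Rc (u * b) (X 0) p := by
    intro p hp
    obtain ⟨n, w, hh⟩ := Hit.exists (rb p)
    have h1 := h.free_hit n p w hp hh
    exact ⟨n, h1.1 ▸ h1.2.1⟩
  have h0 : ∀ p ∈ X 0, Rc (u * b) (X 0) p := fun p hp => ⟨0, hp⟩
  set RA : ℕ → Prop := fun j => ∀ r ∈ X 0, Rc (u * b) (X 0) ((Φ ^ j) r) with hRA
  set RB : ℕ → Prop := fun j => ∀ r ∈ X 0, Rc (u * b) (X 0) (g⁻¹ ((Φ ^ j) r)) with hRB
  have s1 : ∀ j < 2 * k + 1, RA (j + 1) → RB j := by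
    intro j hj hA r hr
    apply Rc.step
    rw [h.fB hr hj]
    exact hA _ (h.xr hr _)
  have s2 : ∀ j < 2 * k + 1, RB (j + 1) → RA j := by
    intro j hj hB r hr
    apply Rc.step
    rw [h.fA hr hj]
    exact hB r hr
  have hAN : RA (2 * k + 1) := by
    intro r hr
    obtain ⟨a1, a2⟩ := h.fAN hr
    apply Rc.step
    rw [a1]
    exact h0 _ a2
  have c1 := chain_dn RA RB (2 * k + 1) s1 s2 hAN
  have hB0 : RB 0 := (c1 (2 * k + 1) 0 (by omega)).2 ⟨k, rfl⟩
  have hBN : RB (2 * k + 1) := by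
    intro r hr
    obtain ⟨a1, a2⟩ := h.yp hr
    apply Rc.step
    rw [a1]
    rcases a2 with a2 | a2 | ⟨q', hq', a2⟩
    · exact h0 _ a2
    · exact hfree _ a2
    · rw [a2]
      exact hB0 q' hq'
  have c2 := chain_dn RB RA (2 * k + 1) s2 s1 hBN
  by_cases hp : Fre g X (2 * k + 1) p
  · exact hfree p hp
  · unfold Fre at hp
    push Not at hp
    obtain ⟨j, hj, hpj⟩ := hp
    obtain ⟨m, hm⟩ := Nat.exists_eq_add_of_le hj
    by_cases hpX : p ∈ X j
    · obtain ⟨r, hr, rfl⟩ := h.exA j p hpX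
      rcases Nat.even_or_odd m with hme | hmo
      · exact (c1 m j hm.symm).1 hme r hr
      · exact (c2 m j hm.symm).2 hmo r hr
    · have hg := hpj hpX
      obtain ⟨r, hr, hgr⟩ := h.exA j _ hg
      have hpe : p = g⁻¹ ((Φ ^ j) r) := by
        rw [← hgr]
        simp
      rw [hpe]
      rcases Nat.even_or_odd m with hme | hmo
      · exact (c2 m j hm.symm).1 hme r hr
      · exact (c1 m j hm.symm).2 hmo r hr

end sbs




theorem slot_b {g Φ b u : Equiv.Perm C} {X : ℕ → Set C} {x : ℕ → Equiv.Perm C} {k : ℕ}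
    (S : Slots Φ u X x (2 * k + 1))
    (hgX : ∀ i ≤ 2 * k + 1, ∀ j ≤ 2 * k + 1, ∀ p ∈ X i, g p ∉ X j)
    (B1 : ∀ j < 2 * k + 1, ∀ p ∈ X j, g (b p) = Φ p)
    (B2 : ∀ j < 2 * k + 1, ∀ p, g p ∈ X j → b p = Φ (g p))
    (B3 : ∀ j < 2 * k + 1, ∀ p, b p ∈ X (j + 1) → g p ∈ X j)
    (B4 : ∀ j < 2 * k + 1, ∀ p, g (b p) ∈ X (j + 1) → p ∈ X j)
    (B5 : ∀ p, g (b p) ∈ X 0 → g p ∈ X (2 * k + 1))
    (B6 : ∀ p ∈ X (2 * k + 1), b p ∈ X 0)
    (rb : ∀ p, ∃ n, (b ^ n) p ∈ X 0)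
    (he : upe x k = 1) (ho : upo x (k + 1) = 1) :
    (∀ z ∈ X 0, ∀ n v, Hit b (X 0) n (b z) v → Hit (u * b) (X 0) n ((u * b) z) v) ∧
      ∀ p, ∃ n, ((u * b) ^ n) p ∈ X 0 := by
  have h : SB g Φ b u X x (2 * k + 1) := ⟨S, hgX, B1, B2, B3, B4, B5, B6⟩
  refine ⟨?_, h.recur rb⟩
  intro z hz n v hh
  have e1 : b z = g⁻¹ ((Φ ^ 1) z) := h.bA (j := 0) hz (by omega)
  have e2 : (u * b) z = g⁻¹ ((Φ ^ 1) z) := h.fA (j := 0) hz (by omega)
  rw [e1] at hh
  rw [e2]
  exact h.main_hit he ho hz n v hh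




/-! #### part final -/


/-- a permutation which fixes the complement of `S` pointwise preserves `S` -/
theorem mem_iff_of_fix {h : Equiv.Perm C} {S : Set C} (hh : ∀ z, z ∉ S → h z = z) (z : C) :
    h z ∈ S ↔ z ∈ S := by
  constructor
  · intro hz
    by_contra hn
    exact hn (hh z hn ▸ hz)
  · intro hz
    by_contra hn
    have h1 : h z = z := h.injective (hh _ hn)
    exact hn (h1.symm ▸ hz)

/-- the word used to fill the slots -/
def slotWord (s t : Fin 3 → Equiv.Perm C) : ℕ → Equiv.Perm C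
  | 1 => (t 2)⁻¹
  | 2 => (s 2)⁻¹
  | 3 => t 2
  | 4 => s 2
  | 5 => (t 1)⁻¹
  | 6 => (s 1)⁻¹
  | 7 => t 1
  | 8 => s 1
  | 9 => (t 0)⁻¹
  | 10 => (s 0)⁻¹
  | 11 => t 0
  | 12 => s 0
  | _ => 1

theorem slotWord_cases (P : Equiv.Perm C → Prop) {s t : Fin 3 → Equiv.Perm C} (h1 : P 1)
    (hs : ∀ i, P (s i)) (ht : ∀ i, P (t i)) (hs' : ∀ i, P (s i)⁻¹) (ht' : ∀ i, P (t i)⁻¹) (j : ℕ) :
    P (slotWord s t j) := by
  match j with
  | 0 => exact h1
  | 1 => exact ht' 2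
  | 2 => exact hs' 2
  | 3 => exact ht 2
  | 4 => exact hs 2
  | 5 => exact ht' 1
  | 6 => exact hs' 1
  | 7 => exact ht 1
  | 8 => exact hs 1
  | 9 => exact ht' 0
  | 10 => exact hs' 0
  | 11 => exact ht 0
  | 12 => exact hs 0
  | (n + 13) => exact h1

theorem up_slotWord (s t : Fin 3 → Equiv.Perm C) :
    up (slotWord s t) 13 = (s 0 * t 0 * (s 0)⁻¹ * (t 0)⁻¹) * (s 1 * t 1 * (s 1)⁻¹ * (t 1)⁻¹) *
        (s 2 * t 2 * (s 2)⁻¹ * (t 2)⁻¹) := by
  show 1 * (s 0 * (t 0 * ((s 0)⁻¹ * ((t 0)⁻¹ * (s 1 * (t 1 * ((s 1)⁻¹ * ((t 1)⁻¹ *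
    (s 2 * (t 2 * ((s 2)⁻¹ * ((t 2)⁻¹ * 1)))))))))))) = _
  group

theorem upe_slotWord (s t : Fin 3 → Equiv.Perm C) : upe (slotWord s t) 6 = 1 := by
  show s 0 * ((s 0)⁻¹ * (s 1 * ((s 1)⁻¹ * (s 2 * ((s 2)⁻¹ * 1))))) = 1
  group

theorem upo_slotWord (s t : Fin 3 → Equiv.Perm C) : upo (slotWord s t) 7 = 1 := by
  show 1 * (t 0 * ((t 0)⁻¹ * (t 1 * ((t 1)⁻¹ * (t 2 * ((t 2)⁻¹ * 1)))))) = 1
  group

/-- every element of `V` is a commutator -/
theorem comm_V {g : Equiv.Perm C} (hg : g ∈ V) :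
    ∃ a ∈ V, ∃ b ∈ V, g = a⁻¹ * b⁻¹ * a * b := by
  by_cases h2 : g * g = 1
  · obtain ⟨a, ha, b, hb, hab⟩ := inv_comm hg h2
    exact ⟨a⁻¹, V.inv_mem ha, b⁻¹, V.inv_mem hb, by rw [hab, inv_inv, inv_inv]⟩
  obtain ⟨Φ, b, X, Y, Om, w, D0, hX0⟩ := exists_Des hg h2 13 (by norm_num)
  have D : Des g Φ b X Y Om (2 * 6 + 1) := D0
  obtain ⟨c₁, hc₁V, hc₁, hmatch⟩ := D.match
  have haV : b * g⁻¹ ∈ V := V.mul_mem D.hb (V.inv_mem hg)
  obtain ⟨Ra, hRaV, hRa1, hRa2, hRa3⟩ := ret_map haV (D.LX 0) D.rec_a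
  obtain ⟨Rb, hRbV, hRb1, hRb2, hRb3⟩ := ret_map D.hb (D.LX 0) D.rec_b
  obtain ⟨ζ, hζ⟩ : ∃ ζ : Equiv.Perm C, ζ = c₁⁻¹ * Rb * c₁ * Ra⁻¹ := ⟨_, rfl⟩
  have hζV : ζ ∈ V := by
    rw [hζ]
    exact V.mul_mem (V.mul_mem (V.mul_mem (V.inv_mem hc₁V) hRbV) hc₁V) (V.inv_mem hRaV)
  have hζR : ∀ y, c₁ (ζ (Ra y)) = Rb (c₁ y) := by
    intro y
    rw [hζ]
    simp
  have hζfix : ∀ z, z ∉ X 0 → ζ z = z := by
    intro z hz
    have e1 : Ra⁻¹ z = z := by
      rw [Equiv.Perm.inv_eq_iff_eq]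
      exact (hRa1 z hz).symm
    have e2 : Rb (c₁ z) = c₁ z := hRb1 _ (fun h => hz ((hc₁ z).1 h))
    rw [hζ]
    simp only [Equiv.Perm.mul_apply]
    rw [e1, e2]
    simp
  have hζmem := mem_iff_of_fix hζfix
  obtain ⟨s, t, hs, ht, hst⟩ := three_comm_cy (w := w) hζV (by rw [← hX0]; exact hζfix)
  rw [← hX0] at hs ht
  have hup : up (slotWord s t) (2 * 6 + 1) = ζ := by
    rw [hst]; exact up_slotWord s t
  have hxV : ∀ j, slotWord s t j ∈ V :=
    slotWord_cases (fun h => h ∈ V) V.one_mem (fun i => (hs i).1) (fun i => (ht i).1)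
      (fun i => V.inv_mem (hs i).1) (fun i => V.inv_mem (ht i).1)
  have hinv : ∀ h : Equiv.Perm C, (∀ z, z ∉ X 0 → h z = z) → ∀ z, z ∉ X 0 → h⁻¹ z = z := by
    intro h hh z hz
    rw [Equiv.Perm.inv_eq_iff_eq]
    exact (hh z hz).symm
  have hx' : ∀ j, ∀ z, z ∉ X 0 → slotWord s t j z = z :=
    slotWord_cases (fun h => ∀ z, z ∉ X 0 → h z = z) (fun _ _ => rfl) (fun i => (hs i).2)
      (fun i => (ht i).2) (fun i => hinv _ (hs i).2) (fun i => hinv _ (ht i).2)
  obtain ⟨u, huV, S⟩ := exists_slots D.hΦ D.LX D.Xs D.XX (slotWord s t) hxV hx' (2 * 6 + 1)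
  have hA := slot_a (a := b * g⁻¹) S
    (by
      intro j hj p hp
      have := D.b2 j hj (g⁻¹ p) (by simpa using hp)
      simpa using this)
    (by
      intro j hj p hp
      have := D.B3 j hj (g⁻¹ p) (by simpa using hp)
      simpa using this)
    D.rec_a
  have hB := slot_b S
    (by
      intro i _ j _ p hp hgp
      exact D.H1 p (D.XO i hp) (D.XO j hgp))
    D.b1 D.b2 D.B3 D.B4 D.B5 D.B6 D.rec_b (upe_slotWord s t) (upo_slotWord s t)
  have hfV : u * (b * g⁻¹) ∈ V := V.mul_mem huV haV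
  have hf'V : u * b ∈ V := V.mul_mem huV D.hb
  have hc0V : c₁ * ζ ∈ V := V.mul_mem hc₁V hζV
  obtain ⟨c, hcV, hc⟩ := sky hfV hf'V (D.LX 0) hA.2 hB.2 hc0V
    (by
      intro z
      rw [Equiv.Perm.mul_apply, hc₁, hζmem])
    (by
      intro z hz n v hv
      have hζz : ζ z ∈ X 0 := (hζmem z).2 hz
      obtain ⟨m, hm⟩ := hRa3 _ hζz
      have h1 : Hit (u * (b * g⁻¹)) (X 0) m ((u * (b * g⁻¹)) z) (Ra (ζ z)) := by
        apply hA.1 z hz m
        rw [hup]; exact hm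
      obtain ⟨e1, e2⟩ := Hit.unique hv h1
      subst e1
      rw [e2]
      obtain ⟨v', hv'⟩ := hmatch _ hζz n _ hm
      have hcz : c₁ (ζ z) ∈ X 0 := (hc₁ _).2 hζz
      obtain ⟨m', hm'⟩ := hRb3 _ hcz
      obtain ⟨e3, e4⟩ := Hit.unique hv' hm'
      have h2 := hB.1 _ hcz n v' hv'
      rw [e4, ← hζR] at h2
      exact h2)
  refine ⟨u * (b * g⁻¹), hfV, c⁻¹, V.inv_mem hcV, ?_⟩
  have h3 : u * b = c * (u * (b * g⁻¹)) * c⁻¹ := by
    rw [hc, mul_inv_cancel_right]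
  have h4 : g = (u * (b * g⁻¹))⁻¹ * (u * b) := by group
  conv_lhs => rw [h4, h3]
  group



end Pool.Agent.Helper283.ThV
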