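import Mathlib

set_option autoImplicit false
set_option linter.unusedVariables false
set_option linter.deprecated false

namespace Pool.Agent.Helper283.PL

/-- dyadic rationals -/
def Dy (x : ℝ) : Prop := ∃ (m : ℤ) (e : ℕ), x = m / 2 ^ e

/-- `f y = 2 ^ k y + c` on a right neighbourhood of `x` -/
def RG (f : ℝ → ℝ) (x : ℝ) (k : ℤ) (c : ℝ) : Prop :=
  Dy c ∧ ∃ ε > 0, ∀ y, x ≤ y → y < x + ε → f y = (2 : ℝ) ^ k * y + c

/-- `f y = 2 ^ k y + c` on a left neighbourhood of `x` -/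
def LG (f : ℝ → ℝ) (x : ℝ) (k : ℤ) (c : ℝ) : Prop :=
  Dy c ∧ ∃ ε > 0, ∀ y, x - ε < y → y ≤ x → f y = (2 : ℝ) ^ k * y + c

/-- `f` is dyadic piecewise linear at `x` -/
def PLat (f : ℝ → ℝ) (x : ℝ) : Prop :=
  (∃ k c, RG f x k c) ∧ (∃ k c, LG f x k c) ∧ (¬ Dy x → ∃ k c, RG f x k c ∧ LG f x k c)

/-- `f` is locally dyadic piecewise linear -/
def PLf (f : ℝ → ℝ) : Prop := ∀ x, PLat f x


/-! #### dy -/


theorem Dy.int (n : ℤ) : Dy (n : ℝ) := ⟨n, 0, by simp⟩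
theorem Dy.nat (n : ℕ) : Dy (n : ℝ) := ⟨n, 0, by simp⟩
theorem Dy.zero : Dy 0 := ⟨0, 0, by simp⟩
theorem Dy.one : Dy 1 := ⟨1, 0, by simp⟩
theorem Dy.neg {x : ℝ} (h : Dy x) : Dy (-x) := by
  obtain ⟨m, e, rfl⟩ := h
  exact ⟨-m, e, by push_cast; ring⟩
theorem Dy.add {x y : ℝ} (h : Dy x) (h' : Dy y) : Dy (x + y) := by
  obtain ⟨m, e, rfl⟩ := h
  obtain ⟨m', e', rfl⟩ := h'
  refine ⟨m * 2 ^ e' + m' * 2 ^ e, e + e', ?_⟩
  have h1 : (2 : ℝ) ^ e ≠ 0 := by positivity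
  have h2 : (2 : ℝ) ^ e' ≠ 0 := by positivity
  push_cast
  rw [pow_add, div_add_div _ _ h1 h2]
  congr 1
  ring
theorem Dy.sub {x y : ℝ} (h : Dy x) (h' : Dy y) : Dy (x - y) := by
  rw [sub_eq_add_neg]
  exact h.add h'.neg
theorem Dy.mul {x y : ℝ} (h : Dy x) (h' : Dy y) : Dy (x * y) := by
  obtain ⟨m, e, rfl⟩ := h
  obtain ⟨m', e', rfl⟩ := h'
  refine ⟨m * m', e + e', ?_⟩
  push_cast
  rw [pow_add, div_mul_div_comm]
theorem Dy.zpow (k : ℤ) : Dy ((2 : ℝ) ^ k) := by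
  rcases Int.eq_nat_or_neg k with ⟨n, rfl | rfl⟩
  · exact ⟨2 ^ n, 0, by simp⟩
  · exact ⟨1, n, by simp⟩
theorem Dy.half {x : ℝ} (h : Dy x) : Dy (x / 2) := by
  obtain ⟨m, e, rfl⟩ := h
  exact ⟨m, e + 1, by rw [pow_succ, div_div]⟩
theorem Dy.affine {x c : ℝ} {k : ℤ} (hc : Dy c) : Dy ((2 : ℝ) ^ k * x + c) ↔ Dy x := by
  have h2 : (2 : ℝ) ^ k ≠ 0 := zpow_ne_zero k two_ne_zero
  constructor
  · intro h
    have h1 := (Dy.zpow (-k)).mul (h.sub hc)
    have e : (2 : ℝ) ^ (-k) * ((2 : ℝ) ^ k * x + c - c) = x := by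
      rw [add_sub_cancel_right, ← mul_assoc, ← zpow_add₀ two_ne_zero, neg_add_cancel, zpow_zero, one_mul]
    rwa [e] at h1
  · intro h
    exact ((Dy.zpow k).mul h).add hc
/-- dyadics are dense -/
theorem Dy.exists_between {x y : ℝ} (h : x < y) : ∃ z, Dy z ∧ x < z ∧ z < y := by
  obtain ⟨n, hn⟩ := exists_pow_lt_of_lt_one (sub_pos.2 h) (show (1 / 2 : ℝ) < 1 by norm_num)
  have h2 : (0 : ℝ) < 2 ^ n := by positivity
  have hn' : 1 < (y - x) * 2 ^ n := by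
    rw [one_div, inv_pow, inv_lt_iff_one_lt_mul₀ h2] at hn
    linarith
  refine ⟨((⌊x * 2 ^ n⌋ + 1 : ℤ) : ℝ) / 2 ^ n, ⟨_, n, rfl⟩, ?_, ?_⟩
  · rw [lt_div_iff₀ h2]
    push_cast
    exact Int.lt_floor_add_one _
  · rw [div_lt_iff₀ h2]
    push_cast
    have := Int.floor_le (x * 2 ^ n)
    nlinarith



/-! #### germ -/


theorem aff_unique_9406 {k k' : ℤ} {c c' x δ : ℝ} (hδ : δ ≠ 0)
    (h1 : (2 : ℝ) ^ k * x + c = (2 : ℝ) ^ k' * x + c')
    (h2 : (2 : ℝ) ^ k * (x + δ) + c = (2 : ℝ) ^ k' * (x + δ) + c') : k = k' ∧ c = c' := by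
  have h3 : (2 : ℝ) ^ k * δ = (2 : ℝ) ^ k' * δ := by linarith
  have h4 : (2 : ℝ) ^ k = (2 : ℝ) ^ k' := mul_right_cancel₀ hδ h3
  have h5 : k = k' := zpow_right_injective₀ (by norm_num : (0:ℝ) < 2) (by norm_num) h4
  refine ⟨h5, ?_⟩
  rw [h4] at h1
  linarith

theorem RG.unique {f : ℝ → ℝ} {x : ℝ} {k k' : ℤ} {c c' : ℝ} (h : RG f x k c)
    (h' : RG f x k' c') : k = k' ∧ c = c' := by
  obtain ⟨-, ε, hε, h⟩ := h
  obtain ⟨-, ε', hε', h'⟩ := h'
  have hm : 0 < min ε ε' := lt_min hε hε'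
  have hm1 := min_le_left ε ε'
  have hm2 := min_le_right ε ε'
  apply aff_unique_9406 (x := x) (δ := min ε ε' / 2) (by positivity)
  · rw [← h x le_rfl (by linarith), ← h' x le_rfl (by linarith)]
  · rw [← h (x + min ε ε' / 2) (by linarith) (by linarith),
      ← h' (x + min ε ε' / 2) (by linarith) (by linarith)]

theorem LG.unique {f : ℝ → ℝ} {x : ℝ} {k k' : ℤ} {c c' : ℝ} (h : LG f x k c)
    (h' : LG f x k' c') : k = k' ∧ c = c' := by
  obtain ⟨-, ε, hε, h⟩ := h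
  obtain ⟨-, ε', hε', h'⟩ := h'
  have hm : 0 < min ε ε' := lt_min hε hε'
  have hm1 := min_le_left ε ε'
  have hm2 := min_le_right ε ε'
  apply aff_unique_9406 (x := x) (δ := -(min ε ε' / 2)) (by
    have : 0 < min ε ε' / 2 := by positivity
    linarith)
  · rw [← h x (by linarith) le_rfl, ← h' x (by linarith) le_rfl]
  · rw [← h (x + -(min ε ε' / 2)) (by linarith) (by linarith),
      ← h' (x + -(min ε ε' / 2)) (by linarith) (by linarith)]

theorem RG.comp {f g : ℝ → ℝ} {x : ℝ} {k k' : ℤ} {c c' : ℝ} (hg : RG g x k c)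
    (hf : RG f (g x) k' c') : RG (fun y => f (g y)) x (k' + k) ((2 : ℝ) ^ k' * c + c') := by
  obtain ⟨hc, ε, hε, h⟩ := hg
  obtain ⟨hc', ε', hε', h'⟩ := hf
  have hk : (0:ℝ) < 2 ^ k := by positivity
  refine ⟨((Dy.zpow k').mul hc).add hc', min ε (ε' / 2 ^ k), lt_min hε (by positivity), ?_⟩
  intro y hy1 hy2
  have hm1 := min_le_left ε (ε' / 2 ^ k)
  have hm2 := min_le_right ε (ε' / 2 ^ k)
  have e0 : g x = (2 : ℝ) ^ k * x + c := h x le_rfl (by linarith)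
  have e1 : g y = (2 : ℝ) ^ k * y + c := h y hy1 (by linarith)
  have e2 : y - x < ε' / 2 ^ k := by linarith
  rw [lt_div_iff₀ hk] at e2
  have e3 : (2 : ℝ) ^ k * x ≤ (2 : ℝ) ^ k * y := mul_le_mul_of_nonneg_left hy1 hk.le
  show f (g y) = _
  rw [h' (g y) (by rw [e0, e1]; linarith) (by rw [e0, e1]; nlinarith), e1,
    zpow_add₀ (by norm_num : (2:ℝ) ≠ 0)]
  ring

theorem LG.comp {f g : ℝ → ℝ} {x : ℝ} {k k' : ℤ} {c c' : ℝ} (hg : LG g x k c)
    (hf : LG f (g x) k' c') : LG (fun y => f (g y)) x (k' + k) ((2 : ℝ) ^ k' * c + c') := by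
  obtain ⟨hc, ε, hε, h⟩ := hg
  obtain ⟨hc', ε', hε', h'⟩ := hf
  have hk : (0:ℝ) < 2 ^ k := by positivity
  refine ⟨((Dy.zpow k').mul hc).add hc', min ε (ε' / 2 ^ k), lt_min hε (by positivity), ?_⟩
  intro y hy1 hy2
  have hm1 := min_le_left ε (ε' / 2 ^ k)
  have hm2 := min_le_right ε (ε' / 2 ^ k)
  have e0 : g x = (2 : ℝ) ^ k * x + c := h x (by linarith) le_rfl
  have e1 : g y = (2 : ℝ) ^ k * y + c := h y (by linarith) hy2
  have e2 : x - y < ε' / 2 ^ k := by linarith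
  rw [lt_div_iff₀ hk] at e2
  have e3 : (2 : ℝ) ^ k * y ≤ (2 : ℝ) ^ k * x := mul_le_mul_of_nonneg_left hy2 hk.le
  show f (g y) = _
  rw [h' (g y) (by rw [e0, e1]; nlinarith) (by rw [e0, e1]; linarith), e1,
    zpow_add₀ (by norm_num : (2:ℝ) ≠ 0)]
  ring

theorem RG.linv {f h : ℝ → ℝ} {x : ℝ} {k : ℤ} {c : ℝ} (hf : RG f x k c)
    (hh : ∀ y, h (f y) = y) : RG h (f x) (-k) (-((2 : ℝ) ^ (-k) * c)) := by
  obtain ⟨hc, ε, hε, hf⟩ := hf
  have hk : (0:ℝ) < 2 ^ k := by positivity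
  have hk' : (0:ℝ) < 2 ^ (-k) := by positivity
  have hkk : (2:ℝ) ^ k * 2 ^ (-k) = 1 := by
    rw [← zpow_add₀ (by norm_num : (2:ℝ) ≠ 0)]
    simp
  refine ⟨((Dy.zpow (-k)).mul hc).neg, 2 ^ k * ε, by positivity, ?_⟩
  intro z hz1 hz2
  have e0 : f x = (2 : ℝ) ^ k * x + c := hf x le_rfl (by linarith)
  rw [e0] at hz1 hz2
  have e1 : x ≤ (2:ℝ) ^ (-k) * (z - c) := by
    have := mul_le_mul_of_nonneg_left (show (2 : ℝ) ^ k * x ≤ z - c by linarith) hk'.le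
    rw [← mul_assoc, mul_comm ((2:ℝ) ^ (-k)) ((2:ℝ) ^ k), hkk, one_mul] at this
    exact this
  have e2 : (2:ℝ) ^ (-k) * (z - c) < x + ε := by
    have := mul_lt_mul_of_pos_left (show z - c < (2 : ℝ) ^ k * (x + ε) by linarith) hk'
    rw [← mul_assoc, mul_comm ((2:ℝ) ^ (-k)) ((2:ℝ) ^ k), hkk, one_mul] at this
    exact this
  have e3 : f ((2:ℝ) ^ (-k) * (z - c)) = z := by
    rw [hf _ e1 e2, ← mul_assoc, hkk]
    ring
  have e4 := hh ((2:ℝ) ^ (-k) * (z - c))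
  rw [e3] at e4
  rw [e4]
  ring

theorem LG.linv {f h : ℝ → ℝ} {x : ℝ} {k : ℤ} {c : ℝ} (hf : LG f x k c)
    (hh : ∀ y, h (f y) = y) : LG h (f x) (-k) (-((2 : ℝ) ^ (-k) * c)) := by
  obtain ⟨hc, ε, hε, hf⟩ := hf
  have hk : (0:ℝ) < 2 ^ k := by positivity
  have hk' : (0:ℝ) < 2 ^ (-k) := by positivity
  have hkk : (2:ℝ) ^ k * 2 ^ (-k) = 1 := by
    rw [← zpow_add₀ (by norm_num : (2:ℝ) ≠ 0)]
    simp
  refine ⟨((Dy.zpow (-k)).mul hc).neg, 2 ^ k * ε, by positivity, ?_⟩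
  intro z hz1 hz2
  have e0 : f x = (2 : ℝ) ^ k * x + c := hf x (by linarith) le_rfl
  rw [e0] at hz1 hz2
  have e1 : (2:ℝ) ^ (-k) * (z - c) ≤ x := by
    have := mul_le_mul_of_nonneg_left (show z - c ≤ (2 : ℝ) ^ k * x by linarith) hk'.le
    rw [← mul_assoc ((2:ℝ) ^ (-k)) ((2:ℝ) ^ k), mul_comm ((2:ℝ) ^ (-k)) ((2:ℝ) ^ k), hkk,
      one_mul] at this
    exact this
  have e2 : x - ε < (2:ℝ) ^ (-k) * (z - c) := by
    have := mul_lt_mul_of_pos_left (show (2 : ℝ) ^ k * (x - ε) < z - c by linarith) hk'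
    rw [← mul_assoc, mul_comm ((2:ℝ) ^ (-k)) ((2:ℝ) ^ k), hkk, one_mul] at this
    exact this
  have e3 : f ((2:ℝ) ^ (-k) * (z - c)) = z := by
    rw [hf _ e2 e1, ← mul_assoc, hkk]
    ring
  have e4 := hh ((2:ℝ) ^ (-k) * (z - c))
  rw [e3] at e4
  rw [e4]
  ring

theorem PLat.dy {f : ℝ → ℝ} {x : ℝ} (h : PLat f x) : Dy (f x) ↔ Dy x := by
  obtain ⟨⟨k, c, hc, ε, hε, hf⟩, -, -⟩ := h
  rw [hf x le_rfl (by linarith)]
  exact Dy.affine hc

theorem PLat.comp {f g : ℝ → ℝ} {x : ℝ} (hg : PLat g x) (hf : PLat f (g x)) :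
    PLat (fun y => f (g y)) x := by
  refine ⟨?_, ?_, ?_⟩
  · obtain ⟨k, c, h⟩ := hg.1
    obtain ⟨k', c', h'⟩ := hf.1
    exact ⟨_, _, h.comp h'⟩
  · obtain ⟨k, c, h⟩ := hg.2.1
    obtain ⟨k', c', h'⟩ := hf.2.1
    exact ⟨_, _, h.comp h'⟩
  · intro hx
    obtain ⟨k, c, h, h2⟩ := hg.2.2 hx
    obtain ⟨k', c', h', h2'⟩ := hf.2.2 (fun hc => hx (hg.dy.1 hc))
    exact ⟨_, _, h.comp h', h2.comp h2'⟩

theorem PLat.linv {f h : ℝ → ℝ} {x : ℝ} (hf : PLat f x) (hh : ∀ y, h (f y) = y) :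
    PLat h (f x) := by
  refine ⟨?_, ?_, ?_⟩
  · obtain ⟨k, c, h1⟩ := hf.1
    exact ⟨_, _, h1.linv hh⟩
  · obtain ⟨k, c, h1⟩ := hf.2.1
    exact ⟨_, _, h1.linv hh⟩
  · intro hx
    obtain ⟨k, c, h1, h2⟩ := hf.2.2 (fun hc => hx (hf.dy.2 hc))
    exact ⟨_, _, h1.linv hh, h2.linv hh⟩

theorem PLat_id (x : ℝ) : PLat (fun y => y) x := by
  have h1 : RG (fun y => y) x 0 0 := ⟨Dy.zero, 1, one_pos, fun y _ _ => by simp⟩
  have h2 : LG (fun y => y) x 0 0 := ⟨Dy.zero, 1, one_pos, fun y _ _ => by simp⟩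
  exact ⟨⟨_, _, h1⟩, ⟨_, _, h2⟩, fun _ => ⟨_, _, h1, h2⟩⟩

theorem PLf.cont {f : ℝ → ℝ} (hf : PLf f) : Continuous f := by
  rw [continuous_iff_continuousAt]
  intro x
  rw [continuousAt_iff_continuous_left_right]
  obtain ⟨⟨k, c, hc, ε, hε, h⟩, ⟨k', c', hc', ε', hε', h'⟩, -⟩ := hf x
  constructor
  · have hcont : ContinuousWithinAt (fun y : ℝ => (2 : ℝ) ^ k' * y + c') (Set.Iic x) x := by
      apply Continuous.continuousWithinAt
      fun_prop
    apply hcont.congr_of_eventuallyEq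
    · have := Ioc_mem_nhdsLE (show x - ε' < x by linarith)
      filter_upwards [this] with y hy
      exact h' y hy.1 hy.2
    · exact h' x (by linarith) le_rfl
  · have hcont : ContinuousWithinAt (fun y : ℝ => (2 : ℝ) ^ k * y + c) (Set.Ici x) x := by
      apply Continuous.continuousWithinAt
      fun_prop
    apply hcont.congr_of_eventuallyEq
    · have := Ico_mem_nhdsGE (show x < x + ε by linarith)
      filter_upwards [this] with y hy
      exact h y hy.1 hy.2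
    · exact h x le_rfl (by linarith)

theorem PLat_affine (k : ℤ) {c : ℝ} (hc : Dy c) (x : ℝ) :
    PLat (fun y => (2 : ℝ) ^ k * y + c) x := by
  have h1 : RG (fun y => (2 : ℝ) ^ k * y + c) x k c := ⟨hc, 1, one_pos, fun y _ _ => rfl⟩
  have h2 : LG (fun y => (2 : ℝ) ^ k * y + c) x k c := ⟨hc, 1, one_pos, fun y _ _ => rfl⟩
  exact ⟨⟨_, _, h1⟩, ⟨_, _, h2⟩, fun _ => ⟨_, _, h1, h2⟩⟩

theorem glue_RG_lt_9406 {f g : ℝ → ℝ} {p x : ℝ} {k : ℤ} {c : ℝ} (h : RG f x k c) (hx : x < p) :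
    RG (fun y => if y < p then f y else g y) x k c := by
  obtain ⟨hc, ε, hε, h⟩ := h
  refine ⟨hc, min ε (p - x), lt_min hε (by linarith), fun y hy1 hy2 => ?_⟩
  have hm1 := min_le_left ε (p - x)
  have hm2 := min_le_right ε (p - x)
  show (if y < p then f y else g y) = _
  rw [if_pos (by linarith)]
  exact h y hy1 (by linarith)

theorem glue_LG_le_9406 {f g : ℝ → ℝ} {p x : ℝ} {k : ℤ} {c : ℝ} (h : LG f x k c) (hx : x ≤ p)
    (hfg : f p = g p) :
    LG (fun y => if y < p then f y else g y) x k c := by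
  obtain ⟨hc, ε, hε, h⟩ := h
  refine ⟨hc, ε, hε, fun y hy1 hy2 => ?_⟩
  show (if y < p then f y else g y) = _
  by_cases hyp : y < p
  · rw [if_pos hyp]
    exact h y hy1 hy2
  · have : y = p := by linarith
    rw [if_neg hyp, ← h y hy1 hy2, this, hfg]

theorem glue_RG_ge_9406 {f g : ℝ → ℝ} {p x : ℝ} {k : ℤ} {c : ℝ} (h : RG g x k c) (hx : p ≤ x) :
    RG (fun y => if y < p then f y else g y) x k c := by
  obtain ⟨hc, ε, hε, h⟩ := h
  refine ⟨hc, ε, hε, fun y hy1 hy2 => ?_⟩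
  show (if y < p then f y else g y) = _
  rw [if_neg (by linarith)]
  exact h y hy1 hy2

theorem glue_LG_gt_9406 {f g : ℝ → ℝ} {p x : ℝ} {k : ℤ} {c : ℝ} (h : LG g x k c) (hx : p < x) :
    LG (fun y => if y < p then f y else g y) x k c := by
  obtain ⟨hc, ε, hε, h⟩ := h
  refine ⟨hc, min ε (x - p), lt_min hε (by linarith), fun y hy1 hy2 => ?_⟩
  have hm1 := min_le_left ε (x - p)
  have hm2 := min_le_right ε (x - p)
  show (if y < p then f y else g y) = _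
  rw [if_neg (by linarith)]
  exact h y (by linarith) hy2

/-- gluing at a dyadic point -/
theorem PLat_glue {f g : ℝ → ℝ} {p : ℝ} (hp : Dy p) (hfg : f p = g p) (x : ℝ)
    (hf : x ≤ p → PLat f x) (hg : p ≤ x → PLat g x) :
    PLat (fun y => if y < p then f y else g y) x := by
  rcases lt_trichotomy x p with hx | hx | hx
  · obtain ⟨⟨k, c, h1⟩, ⟨k', c', h2⟩, h3⟩ := hf hx.le
    refine ⟨⟨k, c, glue_RG_lt_9406 h1 hx⟩, ⟨k', c', glue_LG_le_9406 h2 hx.le hfg⟩, fun hD => ?_⟩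
    obtain ⟨k, c, h4, h5⟩ := h3 hD
    exact ⟨k, c, glue_RG_lt_9406 h4 hx, glue_LG_le_9406 h5 hx.le hfg⟩
  · obtain ⟨-, ⟨k', c', h2⟩, -⟩ := hf hx.le
    obtain ⟨⟨k, c, h1⟩, -, -⟩ := hg hx.ge
    exact ⟨⟨k, c, glue_RG_ge_9406 h1 hx.ge⟩, ⟨k', c', glue_LG_le_9406 h2 hx.le hfg⟩,
      fun hD => absurd (hx ▸ hp) hD⟩
  · obtain ⟨⟨k, c, h1⟩, ⟨k', c', h2⟩, h3⟩ := hg hx.le
    refine ⟨⟨k, c, glue_RG_ge_9406 h1 hx.le⟩, ⟨k', c', glue_LG_gt_9406 h2 hx⟩, fun hD => ?_⟩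
    obtain ⟨k, c, h4, h5⟩ := h3 hD
    exact ⟨k, c, glue_RG_ge_9406 h4 hx.le, glue_LG_gt_9406 h5 hx⟩


theorem inv_right (a : Equiv.Perm ℝ) (x : ℝ) : a (a⁻¹ x) = x := a.apply_symm_apply x

theorem inv_left (a : Equiv.Perm ℝ) (x : ℝ) : a⁻¹ (a x) = x := a.symm_apply_apply x

/-- increasing locally dyadic piecewise linear bijections of the line -/
def PLH : Subgroup (Equiv.Perm ℝ) where
  carrier := {e | StrictMono e ∧ PLf e}
  mul_mem' := fun {a b} ha hb =>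
    ⟨fun x y h => ha.1 (hb.1 h), fun x => PLat.comp (f := a) (g := b) (hb.2 x) (ha.2 (b x))⟩
  one_mem' := ⟨fun _ _ h => h, fun x => PLat_id x⟩
  inv_mem' := fun {a} ha => by
    refine ⟨fun x y h => ?_, fun x => ?_⟩
    · by_contra hc
      have := ha.1.monotone (not_lt.1 hc)
      rw [inv_right, inv_right] at this
      exact absurd h (not_lt.2 this)
    · have := PLat.linv (f := a) (h := (a⁻¹ : Equiv.Perm ℝ)) (ha.2 (a⁻¹ x)) (inv_left a)
      rwa [inv_right] at this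

theorem mem_PLH {e : Equiv.Perm ℝ} : e ∈ PLH ↔ StrictMono e ∧ PLf e := Iff.rfl

/-- lifts of elements of `T` -/
def TT : Subgroup (Equiv.Perm ℝ) where
  carrier := {e | e ∈ PLH ∧ ∀ x, e (x + 1) = e x + 1}
  mul_mem' := fun {a b} ha hb => ⟨PLH.mul_mem ha.1 hb.1, fun x => by
    rw [Equiv.Perm.mul_apply, hb.2, ha.2]; rfl⟩
  one_mem' := ⟨PLH.one_mem, fun _ => rfl⟩
  inv_mem' := fun {a} ha => ⟨PLH.inv_mem ha.1, fun x => by
    have h := ha.2 (a⁻¹ x)
    rw [inv_right] at h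
    rw [← h, inv_left]⟩

theorem mem_TT {e : Equiv.Perm ℝ} : e ∈ TT ↔ e ∈ PLH ∧ ∀ x, e (x + 1) = e x + 1 := Iff.rfl


/-! #### dr -/


open Classical in
/-- logarithm of the right slope -/
noncomputable def dR (f : ℝ → ℝ) (x : ℝ) : ℤ := if h : ∃ k c, RG f x k c then h.choose else 0

open Classical in
/-- logarithm of the left slope -/
noncomputable def dL (f : ℝ → ℝ) (x : ℝ) : ℤ := if h : ∃ k c, LG f x k c then h.choose else 0

/-- minus the exponent of the denominator of a dyadic number -/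
noncomputable def vv (x : ℝ) : ℤ := -((sInf {e : ℕ | ∃ m : ℤ, x = m / 2 ^ e} : ℕ) : ℤ)

theorem RG.add_one_9409 {f : ℝ → ℝ} (hf : ∀ x, f (x + 1) = f x + 1) {x : ℝ} {k : ℤ} {c : ℝ}
    (h : RG f x k c) : RG f (x + 1) k (c + 1 - (2 : ℝ) ^ k) := by
  obtain ⟨hc, ε, hε, h⟩ := h
  refine ⟨(hc.add Dy.one).sub (Dy.zpow k), ε, hε, ?_⟩
  intro y h1 h2
  have e1 := hf (y - 1)
  rw [sub_add_cancel] at e1
  rw [e1, h (y - 1) (by linarith) (by linarith)]
  ring

theorem LG.add_one_9409 {f : ℝ → ℝ} (hf : ∀ x, f (x + 1) = f x + 1) {x : ℝ} {k : ℤ} {c : ℝ}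
    (h : LG f x k c) : LG f (x + 1) k (c + 1 - (2 : ℝ) ^ k) := by
  obtain ⟨hc, ε, hε, h⟩ := h
  refine ⟨(hc.add Dy.one).sub (Dy.zpow k), ε, hε, ?_⟩
  intro y h1 h2
  have e1 := hf (y - 1)
  rw [sub_add_cancel] at e1
  rw [e1, h (y - 1) (by linarith) (by linarith)]
  ring

theorem dR_eq {f : ℝ → ℝ} {x : ℝ} {k : ℤ} {c : ℝ} (h : RG f x k c) : dR f x = k := by
  have hex : ∃ k c, RG f x k c := ⟨k, c, h⟩
  unfold dR
  rw [dif_pos hex]
  obtain ⟨c', hc'⟩ := hex.choose_spec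
  exact (RG.unique hc' h).1
theorem dL_eq {f : ℝ → ℝ} {x : ℝ} {k : ℤ} {c : ℝ} (h : LG f x k c) : dL f x = k := by
  have hex : ∃ k c, LG f x k c := ⟨k, c, h⟩
  unfold dL
  rw [dif_pos hex]
  obtain ⟨c', hc'⟩ := hex.choose_spec
  exact (LG.unique hc' h).1
theorem dR_mul {f g : Equiv.Perm ℝ} (hf : f ∈ PLH) (hg : g ∈ PLH) (x : ℝ) :
    dR (f * g : Equiv.Perm ℝ) x = dR f (g x) + dR g x := by
  obtain ⟨k, c, h1⟩ := (hg.2 x).1
  obtain ⟨k', c', h2⟩ := (hf.2 (g x)).1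
  have h3 : RG (⇑(f * g : Equiv.Perm ℝ)) x (k' + k) ((2 : ℝ) ^ k' * c + c') :=
    RG.comp (f := ⇑f) (g := ⇑g) h1 h2
  rw [dR_eq h1, dR_eq h2, dR_eq h3]
theorem dL_mul {f g : Equiv.Perm ℝ} (hf : f ∈ PLH) (hg : g ∈ PLH) (x : ℝ) :
    dL (f * g : Equiv.Perm ℝ) x = dL f (g x) + dL g x := by
  obtain ⟨k, c, h1⟩ := (hg.2 x).2.1
  obtain ⟨k', c', h2⟩ := (hf.2 (g x)).2.1
  have h3 : LG (⇑(f * g : Equiv.Perm ℝ)) x (k' + k) ((2 : ℝ) ^ k' * c + c') :=
    LG.comp (f := ⇑f) (g := ⇑g) h1 h2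
  rw [dL_eq h1, dL_eq h2, dL_eq h3]
theorem dR_add_one {f : Equiv.Perm ℝ} (hf : f ∈ TT) (x : ℝ) : dR f (x + 1) = dR f x := by
  obtain ⟨k, c, h1⟩ := (hf.1.2 x).1
  rw [dR_eq h1, dR_eq (RG.add_one_9409 hf.2 h1)]
theorem dL_add_one {f : Equiv.Perm ℝ} (hf : f ∈ TT) (x : ℝ) : dL f (x + 1) = dL f x := by
  obtain ⟨k, c, h1⟩ := (hf.1.2 x).2.1
  rw [dL_eq h1, dL_eq (LG.add_one_9409 hf.2 h1)]
theorem dR_add_int {f : Equiv.Perm ℝ} (hf : f ∈ PLH) (n : ℤ) (x : ℝ) :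
    dR (fun y => f y + n) x = dR f x := by
  obtain ⟨k, c, h1⟩ := (hf.2 x).1
  have h2 : RG (fun y => f y + n) x k (c + n) := by
    obtain ⟨hc, ε, hε, h⟩ := h1
    refine ⟨hc.add (Dy.int n), ε, hε, ?_⟩
    intro y h3 h4
    show f y + n = _
    rw [h y h3 h4]
    ring
  rw [dR_eq h1, dR_eq h2]
theorem dL_add_int {f : Equiv.Perm ℝ} (hf : f ∈ PLH) (n : ℤ) (x : ℝ) :
    dL (fun y => f y + n) x = dL f x := by
  obtain ⟨k, c, h1⟩ := (hf.2 x).2.1
  have h2 : LG (fun y => f y + n) x k (c + n) := by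
    obtain ⟨hc, ε, hε, h⟩ := h1
    refine ⟨hc.add (Dy.int n), ε, hε, ?_⟩
    intro y h3 h4
    show f y + n = _
    rw [h y h3 h4]
    ring
  rw [dL_eq h1, dL_eq h2]
theorem dR_eq_dL {f : Equiv.Perm ℝ} (hf : f ∈ PLH) {x : ℝ} (hx : ¬ Dy x) : dR f x = dL f x := by
  obtain ⟨k, c, h1, h2⟩ := (hf.2 x).2.2 hx
  rw [dR_eq h1, dL_eq h2]
theorem vv_add_int (n : ℤ) {x : ℝ} (hx : Dy x) : vv (x + n) = vv x := by
  have h : {e : ℕ | ∃ m : ℤ, x + n = m / 2 ^ e} = {e : ℕ | ∃ m : ℤ, x = m / 2 ^ e} := by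
    ext e
    have h2 : (2 : ℝ) ^ e ≠ 0 := by positivity
    constructor
    · rintro ⟨m, hm⟩
      refine ⟨m - n * 2 ^ e, ?_⟩
      have h3 : x = m / 2 ^ e - n := by rw [← hm]; ring
      rw [h3]
      push_cast
      field_simp
    · rintro ⟨m, hm⟩
      refine ⟨m + n * 2 ^ e, ?_⟩
      rw [hm]
      push_cast
      field_simp
  unfold vv
  rw [h]



/-! #### fin -/


theorem vv_odd_9411 {x : ℝ} {m : ℤ} {e : ℕ} (hx : x = m / 2 ^ e) (hm : Odd m) :
    vv x = -(e : ℤ) := by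
  unfold vv
  have h : sInf {e : ℕ | ∃ m : ℤ, x = m / 2 ^ e} = e := by
    apply le_antisymm
    · exact Nat.sInf_le ⟨m, hx⟩
    · refine le_csInf ⟨e, m, hx⟩ ?_
      rintro e' ⟨m', hx'⟩
      by_contra hlt
      rw [not_le] at hlt
      obtain ⟨d, rfl⟩ : ∃ d, e = e' + (d + 1) := ⟨e - e' - 1, by omega⟩
      have h1 : (m : ℝ) = m' * 2 ^ (d + 1) := by
        rw [hx, div_eq_div_iff (by positivity) (by positivity)] at hx'
        have h2 : (2 : ℝ) ^ e' ≠ 0 := by positivity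
        apply mul_right_cancel₀ h2
        rw [hx', pow_add]
        ring
      have h2 : m = m' * 2 ^ (d + 1) := by exact_mod_cast h1
      rw [h2, Int.odd_mul] at hm
      have h3 : Even ((2 : ℤ) ^ (d + 1)) := (Int.even_pow.2 ⟨even_two, Nat.succ_ne_zero d⟩)
      exact (Int.not_odd_iff_even.2 h3) hm.2
  rw [h]

theorem vv_spec_9411 {x : ℝ} (hx : Dy x) : ∃ (m : ℤ) (e : ℕ), x = m / 2 ^ e ∧ vv x = -(e : ℤ) ∧
    (e ≠ 0 → Odd m) := by
  have hne : {e : ℕ | ∃ m : ℤ, x = m / 2 ^ e}.Nonempty := by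
    obtain ⟨m, e, h⟩ := hx
    exact ⟨e, m, h⟩
  obtain ⟨m, hm⟩ := Nat.sInf_mem hne
  refine ⟨m, sInf {e : ℕ | ∃ m : ℤ, x = m / 2 ^ e}, hm, rfl, ?_⟩
  intro he
  by_contra hodd
  rw [Int.not_odd_iff_even] at hodd
  obtain ⟨t, ht⟩ := hodd
  obtain ⟨e', he'⟩ := Nat.exists_eq_succ_of_ne_zero he
  have h1 : e' ∈ {e : ℕ | ∃ m : ℤ, x = m / 2 ^ e} := by
    refine ⟨t, ?_⟩
    rw [he'] at hm
    rw [hm, ht, pow_succ]
    push_cast
    field_simp
    ring
  have h2 := Nat.sInf_le h1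
  omega

theorem vv_affine_9411 {y c : ℝ} {k : ℤ} {n : ℤ} {E : ℕ} (hc : c = n / 2 ^ E) (hy : Dy y)
    (h : vv y < -((E : ℤ) + |k|)) : vv ((2 : ℝ) ^ k * y + c) - vv y = k := by
  obtain ⟨m, e, hye, hve, hodd⟩ := vv_spec_9411 hy
  have hk1 := le_abs_self k
  have hk2 := neg_abs_le k
  have he0 : e ≠ 0 := by
    rintro rfl
    have := abs_nonneg k
    omega
  have hm := hodd he0
  obtain ⟨g, hg⟩ : ∃ g : ℕ, ((E + (g + 1) : ℕ) : ℤ) = e - k := ⟨(e - k - E - 1).toNat, by omega⟩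
  have hk : (2 : ℝ) ^ k * (2 ^ E * 2 ^ (g + 1)) = 2 ^ e := by
    rw [← pow_add, ← zpow_natCast, ← zpow_natCast, ← zpow_add₀ two_ne_zero, hg]
    congr 1
    ring
  have hval : (2 : ℝ) ^ k * y + c = ((m + n * 2 ^ (g + 1) : ℤ) : ℝ) / 2 ^ (E + (g + 1)) := by
    rw [eq_div_iff (by positivity), hye, hc, pow_add 2 E (g + 1)]
    have hE : (2 : ℝ) ^ E ≠ 0 := by positivity
    have he : (2 : ℝ) ^ e ≠ 0 := by positivity
    calc ((2 : ℝ) ^ k * (m / 2 ^ e) + n / 2 ^ E) * (2 ^ E * 2 ^ (g + 1))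
        = ((2 : ℝ) ^ k * (2 ^ E * 2 ^ (g + 1))) / 2 ^ e * m + (2 ^ E / 2 ^ E) * (n * 2 ^ (g + 1)) := by
          ring
      _ = ((m + n * 2 ^ (g + 1) : ℤ) : ℝ) := by
          rw [hk, div_self he, div_self hE]
          push_cast
          ring
  have hodd2 : Odd (m + n * 2 ^ (g + 1)) := by
    apply hm.add_even
    exact Even.mul_left (Int.even_pow.2 ⟨even_two, Nat.succ_ne_zero g⟩) n
  rw [vv_odd_9411 hval hodd2, hve, hg]
  ring

theorem fin_den_9411 (a b : ℝ) (N : ℕ) :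
    {y : ℝ | Dy y ∧ a ≤ y ∧ y ≤ b ∧ -(N : ℤ) ≤ vv y}.Finite := by
  refine ((Set.finite_Icc ⌈a * 2 ^ N⌉ ⌊b * 2 ^ N⌋).image (fun m : ℤ => (m : ℝ) / 2 ^ N)).subset ?_
  rintro y ⟨hy, ha, hb, hv⟩
  obtain ⟨m, e, hye, hve, -⟩ := vv_spec_9411 hy
  obtain ⟨d, hd⟩ : ∃ d : ℕ, N = e + d := ⟨N - e, by omega⟩
  have h2 : (((m * 2 ^ d : ℤ) : ℝ)) = y * 2 ^ N := by
    rw [hye, hd, pow_add]
    push_cast
    field_simp
  refine ⟨m * 2 ^ d, ⟨?_, ?_⟩, ?_⟩
  · rw [Int.ceil_le, h2]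
    gcongr
  · rw [Int.le_floor, h2]
    gcongr
  · show (((m * 2 ^ d : ℤ) : ℝ)) / 2 ^ N = y
    rw [h2]
    field_simp

theorem fin_gen_9411 {f : ℝ → ℝ} (hf : PLf f) (D : ℝ → ℤ)
    (hD : ∀ y k c, RG f y k c → LG f y k c → D y = k) (u w : ℝ) :
    {x | Dy x ∧ u ≤ x ∧ x ≤ w ∧ D x ≠ vv (f x) - vv x}.Finite := by
  set S : Set ℝ := {x | Dy x ∧ D x ≠ vv (f x) - vv x} with hS
  have key : (Set.Icc u w ∩ S).Finite := by
    refine (isCompact_Icc (a := u) (b := w)).induction_on (p := fun s => (s ∩ S).Finite) ?_ ?_ ?_ ?_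
    · simp
    · intro s t hst ht
      exact ht.subset (Set.inter_subset_inter_left _ hst)
    · intro s t hs ht
      show ((s ∪ t) ∩ S).Finite
      rw [Set.union_inter_distrib_right]
      exact hs.union ht
    · intro x _
      obtain ⟨⟨k, c, ⟨n, E, hc⟩, ε, hε, hR⟩, ⟨k', c', ⟨n', E', hc'⟩, ε', hε', hL⟩, -⟩ := hf x
      refine ⟨Set.Ioo (x - ε') (x + ε), ?_, ?_⟩
      · exact mem_nhdsWithin_of_mem_nhds (Ioo_mem_nhds (by linarith) (by linarith))
      · refine (((Set.finite_singleton x).union (fin_den_9411 (x - ε') (x + ε) (E + k.natAbs))).union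
          (fin_den_9411 (x - ε') (x + ε) (E' + k'.natAbs))).subset ?_
        rintro y ⟨⟨hy1, hy2⟩, hyD, hyS⟩
        rcases lt_trichotomy y x with hyx | hyx | hyx
        · right
          refine ⟨hyD, hy1.le, hy2.le, ?_⟩
          by_contra hlt
          apply hyS
          have h1 : RG f y k' c' := ⟨⟨n', E', hc'⟩, x - y, by linarith, fun z hz1 hz2 =>
            hL z (by linarith) (by linarith)⟩
          have h2 : LG f y k' c' := ⟨⟨n', E', hc'⟩, y - (x - ε'), by linarith, fun z hz1 hz2 =>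
            hL z (by linarith) (by linarith)⟩
          rw [hD y k' c' h1 h2, hL y hy1 hyx.le]
          refine (vv_affine_9411 hc' hyD ?_).symm
          rw [Int.abs_eq_natAbs]
          push_cast at hlt ⊢
          omega
        · left; left
          exact hyx
        · left; right
          refine ⟨hyD, hy1.le, hy2.le, ?_⟩
          by_contra hlt
          apply hyS
          have h1 : RG f y k c := ⟨⟨n, E, hc⟩, x + ε - y, by linarith, fun z hz1 hz2 =>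
            hR z (by linarith) (by linarith)⟩
          have h2 : LG f y k c := ⟨⟨n, E, hc⟩, y - x, by linarith, fun z hz1 hz2 =>
            hR z (by linarith) (by linarith)⟩
          rw [hD y k c h1 h2, hR y hyx.le hy2]
          refine (vv_affine_9411 hc hyD ?_).symm
          rw [Int.abs_eq_natAbs]
          push_cast at hlt ⊢
          omega
  refine key.subset ?_
  rintro y ⟨h1, h2, h3, h4⟩
  exact ⟨⟨h2, h3⟩, h1, h4⟩

/-- on all but finitely many dyadic points of `[0, 1)` the slope is the change of `vv` -/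
theorem fin_R {f : Equiv.Perm ℝ} (hf : f ∈ PLH) (u w : ℝ) :
    {x | Dy x ∧ u ≤ x ∧ x ≤ w ∧ dR f x ≠ vv (f x) - vv x}.Finite :=
  fin_gen_9411 hf.2 (dR f) (fun _ _ _ h _ => dR_eq h) u w
theorem fin_L {f : Equiv.Perm ℝ} (hf : f ∈ PLH) (u w : ℝ) :
    {x | Dy x ∧ u ≤ x ∧ x ≤ w ∧ dL f x ≠ vv (f x) - vv x}.Finite :=
  fin_gen_9411 hf.2 (dL f) (fun _ _ _ _ h => dL_eq h) u w



/-! #### rig -/


theorem germ_id_dy_9414 {f : Equiv.Perm ℝ} (hf : f ∈ PLH)
    (h : ∀ x, Dy x → f x = x → dR f x = 0 ∧ dL f x = 0) {s : ℝ} (hs : Dy s) (hfs : f s = s) :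
    ∀ᶠ y in nhds s, f y = y := by
  obtain ⟨⟨k, c, hR⟩, ⟨k', c', hL⟩, -⟩ := hf.2 s
  obtain ⟨h1, h2⟩ := h s hs hfs
  rw [dR_eq hR] at h1
  rw [dL_eq hL] at h2
  subst h1
  subst h2
  obtain ⟨-, ε, hε, hR⟩ := hR
  obtain ⟨-, ε', hε', hL⟩ := hL
  have hc : c = 0 := by
    have := hR s le_rfl (by linarith)
    rw [hfs, zpow_zero] at this
    linarith
  have hc' : c' = 0 := by
    have := hL s (by linarith) le_rfl
    rw [hfs, zpow_zero] at this
    linarith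
  have hU : Set.Ioo (s - ε') (s + ε) ∈ nhds s := Ioo_mem_nhds (by linarith) (by linarith)
  filter_upwards [hU] with y hy
  rcases le_total s y with hy' | hy'
  · rw [hR y hy' hy.2, hc, zpow_zero]
    ring
  · rw [hL y hy.1 hy', hc', zpow_zero]
    ring

/-- rigidity: slopes 1 at all dyadic fixed points, at least one such point -/
theorem rigid {f : Equiv.Perm ℝ} (hf : f ∈ PLH) {p : ℝ} (hp : Dy p) (hfp : f p = p)
    (h : ∀ x, Dy x → f x = x → dR f x = 0 ∧ dL f x = 0) : f = 1 := by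
  set S : Set ℝ := {x | ∀ᶠ y in nhds x, f y = y} with hS
  have hSf : ∀ x ∈ S, f x = x := fun x hx =>
    Filter.Eventually.self_of_nhds (p := fun y => f y = y) hx
  have hopen : IsOpen S := isOpen_setOfPred_eventually_nhds
  have hclosed : IsClosed S := by
    rw [← closure_subset_iff_isClosed]
    intro s hs
    have hfs : f s = s := by
      have hcl : IsClosed {x : ℝ | f x = x} := isClosed_eq hf.2.cont continuous_id
      exact (hcl.closure_subset_iff.2 hSf) hs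
    by_cases hd : Dy s
    · exact germ_id_dy_9414 hf h hd hfs
    · obtain ⟨k, c, hR, hL⟩ := (hf.2 s).2.2 hd
      obtain ⟨-, ε, hε, hR⟩ := hR
      obtain ⟨-, ε', hε', hL⟩ := hL
      have haff : ∀ y ∈ Set.Ioo (s - ε') (s + ε), f y = (2 : ℝ) ^ k * y + c := by
        intro y hy
        rcases le_total s y with hy' | hy'
        · exact hR y hy' hy.2
        · exact hL y hy.1 hy'
      have hU : Set.Ioo (s - ε') (s + ε) ∈ nhds s := Ioo_mem_nhds (by linarith) (by linarith)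
      obtain ⟨y, hyU, hyS⟩ := mem_closure_iff_nhds.1 hs _ hU
      have hy2 : ∀ᶠ z in nhds y, (2 : ℝ) ^ k * z + c = z := by
        filter_upwards [hyS, isOpen_Ioo.mem_nhds hyU] with z hz hzU
        rw [← haff z hzU, hz]
      obtain ⟨δ, hδ, hball⟩ := Metric.eventually_nhds_iff.1 hy2
      have e1 := hball (y := y) (by simpa using hδ)
      have e2 := hball (y := y + δ / 2) (by
        rw [Real.dist_eq]
        have : y + δ / 2 - y = δ / 2 := by ring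
        rw [this, abs_of_pos (by positivity)]
        linarith)
      have e3 : (2 : ℝ) ^ k = 1 := by
        have e4 : ((2 : ℝ) ^ k - 1) * (δ / 2) = 0 := by linarith
        rcases mul_eq_zero.1 e4 with e5 | e5
        · linarith
        · linarith
      have e6 : c = 0 := by
        rw [e3] at e1
        linarith
      show ∀ᶠ y in nhds s, f y = y
      filter_upwards [hU] with z hz
      rw [haff z hz, e3, e6]
      ring
  have hne : S.Nonempty := ⟨p, germ_id_dy_9414 hf h hp hfp⟩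
  have huniv : S = Set.univ := IsClopen.eq_univ ⟨hclosed, hopen⟩ hne
  ext x
  have hx : x ∈ S := by
    rw [huniv]
    trivial
  exact hSf x hx



/-! #### tel -/


theorem right_slopes_9418 {f : ℝ → ℝ} {x : ℝ} {k : ℤ} {c : ℝ} (h : RG f x k c) :
    ∃ ε > 0, ∀ y, x < y → y < x + ε → dR f y = k ∧ dL f y = k := by
  obtain ⟨hc, ε, hε, h1⟩ := h
  refine ⟨ε, hε, fun y h2 h3 => ⟨dR_eq (c := c) ⟨hc, x + ε - y, by linarith, fun z h4 h5 => ?_⟩,
    dL_eq (c := c) ⟨hc, y - x, by linarith, fun z h4 h5 => ?_⟩⟩⟩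
  · exact h1 z (by linarith) (by linarith)
  · exact h1 z (by linarith) (by linarith)

theorem left_slopes_9418 {f : ℝ → ℝ} {x : ℝ} {k : ℤ} {c : ℝ} (h : LG f x k c) :
    ∃ ε > 0, ∀ y, x - ε < y → y < x → dR f y = k ∧ dL f y = k := by
  obtain ⟨hc, ε, hε, h1⟩ := h
  refine ⟨ε, hε, fun y h2 h3 => ⟨dR_eq (c := c) ⟨hc, x - y, by linarith, fun z h4 h5 => ?_⟩,
    dL_eq (c := c) ⟨hc, y - (x - ε), by linarith, fun z h4 h5 => ?_⟩⟩⟩
  · exact h1 z (by linarith) (by linarith)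
  · exact h1 z (by linarith) (by linarith)

/-- telescoping of slopes -/
theorem tele {f : Equiv.Perm ℝ} (hf : f ∈ PLH) {u w : ℝ} (huw : u < w) (F : Finset ℝ)
    (hF : ∀ x ∈ F, u < x ∧ x < w)
    (hF' : ∀ x, Dy x → u < x → x < w → dR f x ≠ dL f x → x ∈ F) :
    ∑ x ∈ F, (dR f x - dL f x) = dL f w - dR f u := by
  classical
  have hpl : PLf f := (mem_PLH.1 hf).2
  set δ : ℝ → ℤ := fun x => dR f x - dL f x with hδ
  have hδ0 : ∀ x, u < x → x < w → x ∉ F → δ x = 0 := by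
    intro x h1 h2 h3
    by_cases hx : Dy x
    · by_contra h4
      exact h3 (hF' x hx h1 h2 (fun h5 => h4 (by simp [hδ, h5])))
    · simp [hδ, dR_eq_dL hf hx]
  set g : ℝ → ℤ := fun t => (∑ x ∈ F, if x < t then δ x else 0) - dL f t with hg
  have hcont : ContinuousOn g (Set.Ioc u w) := by
    intro t ht
    obtain ⟨⟨k, c, hR⟩, ⟨k', c', hL⟩, -⟩ := hpl t
    obtain ⟨ε1, hε1, h1⟩ := right_slopes_9418 hR
    obtain ⟨ε2, hε2, h2⟩ := left_slopes_9418 hL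
    have hdR : dR f t = k := dR_eq hR
    have hdL : dL f t = k' := dL_eq hL
    have hev : ∀ᶠ t' in nhdsWithin t (Set.Ioc u w), g t' = g t := by
      have h3 : ∀ᶠ t' in nhdsWithin t (Set.Ioc u w), t' ∈ Set.Ioo (t - ε2) (t + ε1) :=
        nhdsWithin_le_nhds (Ioo_mem_nhds (by linarith) (by linarith))
      filter_upwards [h3, self_mem_nhdsWithin] with t' ht' ht''
      obtain ⟨h4, h5⟩ := ht'
      obtain ⟨h6, h7⟩ := ht''
      rcases lt_trichotomy t' t with h8 | h8 | h8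
      · have e1 : (∑ x ∈ F, if x < t' then δ x else 0) = ∑ x ∈ F, if x < t then δ x else 0 := by
          refine Finset.sum_congr rfl fun x hx => ?_
          by_cases h9 : x < t'
          · rw [if_pos h9, if_pos (h9.trans h8)]
          · rw [if_neg h9]
            by_cases h10 : x < t
            · rw [if_pos h10]
              have := h2 x (by linarith [not_lt.1 h9]) h10
              simp [hδ, this.1, this.2]
            · rw [if_neg h10]
        have e2 : dL f t' = k' := (h2 t' h4 h8).2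
        simp only [hg, e1, e2, hdL]
      · rw [h8]
      · have e1 : (∑ x ∈ F, if x < t' then δ x else 0) =
            (∑ x ∈ F, if x < t then δ x else 0) + δ t := by
          have e3 : (∑ x ∈ F, if x < t' then δ x else 0) =
              ∑ x ∈ F, ((if x < t then δ x else 0) + if x = t then δ x else 0) := by
            refine Finset.sum_congr rfl fun x hx => ?_
            rcases lt_trichotomy x t with h9 | h9 | h9
            · rw [if_pos h9, if_pos (h9.trans h8), if_neg h9.ne, add_zero]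
            · subst h9
              rw [if_pos h8, if_neg (lt_irrefl _), if_pos rfl, zero_add]
            · rw [if_neg (not_lt.2 h9.le), if_neg h9.ne']
              by_cases h10 : x < t'
              · rw [if_pos h10]
                have := h1 x h9 (by linarith)
                simp [hδ, this.1, this.2]
              · rw [if_neg h10]; rfl
          rw [e3, Finset.sum_add_distrib, Finset.sum_ite_eq']
          by_cases h11 : t ∈ F
          · rw [if_pos h11]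
          · rw [if_neg h11, hδ0 t ht.1 (by linarith) h11]
        have e2 : dL f t' = k := (h1 t' h8 h5).2
        have e4 : δ t = k - k' := by simp only [hδ, hdR, hdL]
        simp only [hg, e1, e2, e4, hdL]
        ring
    exact (tendsto_const_nhds (x := g t)).congr' (hev.mono fun _ h => h.symm)
  obtain ⟨⟨k, c, hR⟩, -, -⟩ := hpl u
  obtain ⟨ε, hε, h1⟩ := right_slopes_9418 hR
  have ht0 : ∃ t0, u < t0 ∧ t0 ≤ w ∧ t0 < u + ε :=
    ⟨min (u + ε / 2) w, lt_min (by linarith) huw, min_le_right _ _,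
      lt_of_le_of_lt (min_le_left _ _) (by linarith)⟩
  obtain ⟨t0, ht1, ht2, ht3⟩ := ht0
  have hconst : g w = g t0 :=
    isPreconnected_Ioc.constant hcont ⟨huw, le_rfl⟩ ⟨ht1, ht2⟩
  have hw : g w = (∑ x ∈ F, (dR f x - dL f x)) - dL f w := by
    simp only [hg]
    congr 1
    exact Finset.sum_congr rfl fun x hx => by rw [if_pos (hF x hx).2]
  have ht : g t0 = - dR f u := by
    have e1 : (∑ x ∈ F, if x < t0 then δ x else 0) = 0 := by
      refine Finset.sum_eq_zero fun x hx => ?_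
      by_cases h9 : x < t0
      · rw [if_pos h9]
        have := h1 x (hF x hx).1 (by linarith)
        simp [hδ, this.1, this.2]
      · rw [if_neg h9]
    have e2 : dL f t0 = k := (h1 t0 ht1 ht3).2
    have e3 : dR f u = k := dR_eq hR
    simp only [hg, e1, e2, e3, zero_sub]
  rw [hw, ht] at hconst
  linarith


/-! #### sgn -/


theorem dR_neg_of_lt {f : Equiv.Perm ℝ} (hf : f ∈ PLH) {u w : ℝ} (huw : u < w) (hu : f u = u)
    (h : ∀ x, u < x → x < w → f x < x) : dR f u < 0 := by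
  obtain ⟨k, c, hk⟩ := (hf.2 u).1
  rw [dR_eq hk]
  obtain ⟨-, ε, hε, hf2⟩ := hk
  have h0 := hf2 u le_rfl (by linarith)
  rw [hu] at h0
  have hm : 0 < min (ε / 2) ((w - u) / 2) := lt_min (by linarith) (by linarith)
  have hm1 := min_le_left (ε / 2) ((w - u) / 2)
  have hm2 := min_le_right (ε / 2) ((w - u) / 2)
  have h1 := hf2 (u + min (ε / 2) ((w - u) / 2)) (by linarith) (by linarith)
  have h2 := h (u + min (ε / 2) ((w - u) / 2)) (by linarith) (by linarith)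
  rw [h1] at h2
  have h3 : (2 : ℝ) ^ k * min (ε / 2) ((w - u) / 2) < min (ε / 2) ((w - u) / 2) := by
    nlinarith
  have h4 : (2 : ℝ) ^ k < 1 := by
    by_contra hcon
    push Not at hcon
    nlinarith
  by_contra hcon
  push Not at hcon
  have h5 : (1 : ℝ) ≤ (2 : ℝ) ^ k := one_le_zpow₀ (by norm_num) hcon
  linarith

theorem dL_pos_of_lt {f : Equiv.Perm ℝ} (hf : f ∈ PLH) {u w : ℝ} (huw : u < w) (hw : f w = w)
    (h : ∀ x, u < x → x < w → f x < x) : 0 < dL f w := by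
  obtain ⟨k, c, hk⟩ := (hf.2 w).2.1
  rw [dL_eq hk]
  obtain ⟨-, ε, hε, hf2⟩ := hk
  have h0 := hf2 w (by linarith) le_rfl
  rw [hw] at h0
  have hm : 0 < min (ε / 2) ((w - u) / 2) := lt_min (by linarith) (by linarith)
  have hm1 := min_le_left (ε / 2) ((w - u) / 2)
  have hm2 := min_le_right (ε / 2) ((w - u) / 2)
  have h1 := hf2 (w - min (ε / 2) ((w - u) / 2)) (by linarith) (by linarith)
  have h2 := h (w - min (ε / 2) ((w - u) / 2)) (by linarith) (by linarith)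
  rw [h1] at h2
  have h3 : min (ε / 2) ((w - u) / 2) < (2 : ℝ) ^ k * min (ε / 2) ((w - u) / 2) := by
    nlinarith
  have h4 : 1 < (2 : ℝ) ^ k := by
    by_contra hcon
    push Not at hcon
    nlinarith
  by_contra hcon
  push Not at hcon
  have h5 : (2 : ℝ) ^ k ≤ 1 := zpow_le_one_of_nonpos₀ (by norm_num) hcon
  linarith


/-- translation -/
def tr (c : ℝ) : Equiv.Perm ℝ := Equiv.addRight c

theorem tr_apply (c x : ℝ) : tr c x = x + c := rfl

/-- elements supported in `[u, v]` -/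
def Sup (u v : ℝ) : Subgroup (Equiv.Perm ℝ) where
  carrier := {e | e ∈ PLH ∧ ∀ x, (x ≤ u ∨ v ≤ x) → e x = x}
  mul_mem' := fun {a b} ha hb => ⟨PLH.mul_mem ha.1 hb.1, fun x hx => by
    rw [Equiv.Perm.mul_apply, hb.2 x hx, ha.2 x hx]⟩
  one_mem' := ⟨PLH.one_mem, fun _ _ => rfl⟩
  inv_mem' := fun {a} ha => ⟨PLH.inv_mem ha.1, fun x hx => by
    conv_lhs => rw [← ha.2 x hx]
    exact inv_left a x⟩

theorem mem_Sup {u v : ℝ} {e : Equiv.Perm ℝ} :
    e ∈ Sup u v ↔ e ∈ PLH ∧ ∀ x, (x ≤ u ∨ v ≤ x) → e x = x := Iff.rfl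

/-- `e` is an integer translation near `-∞` and near `+∞` -/
def Ends (e : ℝ → ℝ) : Prop :=
  (∃ (i : ℤ) (M : ℝ), ∀ x, x ≤ M → e x = x + i) ∧ (∃ (j : ℤ) (M : ℝ), ∀ x, M ≤ x → e x = x + j)


/-! #### f1 -/


theorem tr_mem {c : ℝ} (hc : Dy c) : tr c ∈ PLH := by
  refine ⟨fun x y h => by simp only [tr_apply]; linarith, fun x => ?_⟩
  have h := PLat_affine 0 hc x
  have e : (fun y : ℝ => (2 : ℝ) ^ (0 : ℤ) * y + c) = tr c := by
    funext y
    rw [tr_apply, zpow_zero, one_mul]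
  rwa [e] at h
theorem Ends.one : Ends (1 : Equiv.Perm ℝ) := by
  refine ⟨⟨0, 0, fun x _ => ?_⟩, ⟨0, 0, fun x _ => ?_⟩⟩ <;> simp
theorem Ends.mul {a b : Equiv.Perm ℝ} (ha : Ends a) (hb : Ends b) : Ends (a * b : Equiv.Perm ℝ) := by
  obtain ⟨⟨i, M, hi⟩, ⟨j, N, hj⟩⟩ := ha
  obtain ⟨⟨i', M', hi'⟩, ⟨j', N', hj'⟩⟩ := hb
  refine ⟨⟨i' + i, min M' (M - i'), fun x hx => ?_⟩, ⟨j' + j, max N' (N - j'), fun x hx => ?_⟩⟩
  · have h1 := hx.trans (min_le_left _ _)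
    have h2 := hx.trans (min_le_right _ _)
    rw [Equiv.Perm.mul_apply, hi' x h1, hi _ (by linarith)]
    push_cast; ring
  · have h1 := (le_max_left _ _).trans hx
    have h2 := (le_max_right _ _).trans hx
    rw [Equiv.Perm.mul_apply, hj' x h1, hj _ (by linarith)]
    push_cast; ring
theorem Ends.inv {a : Equiv.Perm ℝ} (ha : Ends a) : Ends (a⁻¹ : Equiv.Perm ℝ) := by
  obtain ⟨⟨i, M, hi⟩, ⟨j, N, hj⟩⟩ := ha
  refine ⟨⟨-i, M + i, fun x hx => ?_⟩, ⟨-j, N + j, fun x hx => ?_⟩⟩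
  · rw [Equiv.Perm.inv_eq_iff_eq, hi _ (by push_cast; linarith)]
    push_cast; ring
  · rw [Equiv.Perm.inv_eq_iff_eq, hj _ (by push_cast; linarith)]
    push_cast; ring
theorem Sup.Ends {u v : ℝ} {e : Equiv.Perm ℝ} (h : e ∈ Sup u v) : Ends e := by
  refine ⟨⟨0, u, fun x hx => ?_⟩, ⟨0, v, fun x hx => ?_⟩⟩
  · rw [h.2 x (Or.inl hx)]; simp
  · rw [h.2 x (Or.inr hx)]; simp
theorem Sup.mono {u v u' v' : ℝ} (hu : u' ≤ u) (hv : v ≤ v') {e : Equiv.Perm ℝ}
    (h : e ∈ Sup u v) : e ∈ Sup u' v' := by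
  refine ⟨h.1, fun x hx => h.2 x ?_⟩
  rcases hx with hx | hx
  · exact Or.inl (hx.trans hu)
  · exact Or.inr (hv.trans hx)
theorem Sup.comm {u v u' v' : ℝ} (h : v ≤ u') {e e' : Equiv.Perm ℝ} (he : e ∈ Sup u v)
    (he' : e' ∈ Sup u' v') : e * e' = e' * e := by
  ext x
  rw [Equiv.Perm.mul_apply, Equiv.Perm.mul_apply]
  rcases le_or_gt x u' with hx | hx
  · rw [he'.2 x (Or.inl hx)]
    have h1 : e x ≤ u' := by
      rcases le_or_gt x u with h2 | h2
      · rw [he.2 x (Or.inl h2)]; exact hx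
      · rcases le_or_gt v x with h3 | h3
        · rw [he.2 x (Or.inr h3)]; exact hx
        · have h4 := he.1.1 h3
          rw [he.2 v (Or.inr le_rfl)] at h4
          linarith
    rw [he'.2 _ (Or.inl h1)]
  · have hv : v ≤ x := by linarith
    rw [he.2 x (Or.inr hv)]
    have h1 : v ≤ e' x := by
      rcases le_or_gt v' x with h2 | h2
      · rw [he'.2 x (Or.inr h2)]; exact hv
      · have h4 := he'.1.1 hx
        rw [he'.2 u' (Or.inl le_rfl)] at h4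
        linarith
    rw [he.2 _ (Or.inr h1)]
/-- gluing two elements at a dyadic point -/
theorem PLH_glue {f g : Equiv.Perm ℝ} (hf : f ∈ PLH) (hg : g ∈ PLH) {p : ℝ} (hp : Dy p)
    (h : f p = g p) : ∃ e ∈ PLH, (∀ x, x ≤ p → e x = f x) ∧ (∀ x, p ≤ x → e x = g x) := by
  classical
  set e : Equiv.Perm ℝ :=
    { toFun := fun x => if x < p then f x else g x
      invFun := fun y => if y < f p then f⁻¹ y else g⁻¹ y
      left_inv := by
        intro x
        by_cases hx : x < p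
        · have h1 : f x < f p := hf.1 hx
          simp only [if_pos hx, if_pos h1]
          exact inv_left f x
        · have h1 : ¬ g x < f p := by
            rw [h]; exact not_lt.2 (hg.1.monotone (not_lt.1 hx))
          simp only [if_neg hx, if_neg h1]
          exact inv_left g x
      right_inv := by
        intro y
        by_cases hy : y < f p
        · have h1 : f⁻¹ y < p := by
            by_contra hc
            have h2 := hf.1.monotone (not_lt.1 hc)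
            rw [inv_right] at h2
            linarith
          simp only [if_pos hy, if_pos h1]
          exact inv_right f y
        · have h1 : ¬ g⁻¹ y < p := by
            intro hc
            have h2 := hg.1 hc
            rw [inv_right, ← h] at h2
            exact hy h2
          simp only [if_neg hy, if_neg h1]
          exact inv_right g y } with he
  have happ : ∀ x, e x = if x < p then f x else g x := fun x => rfl
  refine ⟨e, ⟨?_, ?_⟩, ?_, ?_⟩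
  · intro x y hxy
    rw [happ, happ]
    by_cases hx : x < p
    · by_cases hy : y < p
      · rw [if_pos hx, if_pos hy]; exact hf.1 hxy
      · rw [if_pos hx, if_neg hy]
        have h1 := hf.1 hx
        have h2 := hg.1.monotone (not_lt.1 hy)
        rw [h] at h1
        linarith
    · have hy : ¬ y < p := fun hc => hx (hxy.trans hc)
      rw [if_neg hx, if_neg hy]; exact hg.1 hxy
  · intro x
    exact PLat_glue hp h x (fun _ => hf.2 x) (fun _ => hg.2 x)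
  · intro x hx
    rw [happ]
    rcases hx.lt_or_eq with h1 | h1
    · rw [if_pos h1]
    · rw [if_neg (by rw [h1]; exact lt_irrefl _), h1, h]
  · intro x hx
    rw [happ, if_neg (not_lt.2 hx)]

/-- affine maps -/
noncomputable def aff_10050 (k : ℤ) (c : ℝ) : Equiv.Perm ℝ where
  toFun x := (2 : ℝ) ^ k * x + c
  invFun y := (2 : ℝ) ^ (-k) * (y - c)
  left_inv x := by
    have : (2 : ℝ) ^ (-k) * (2 : ℝ) ^ k = 1 := by
      rw [← zpow_add₀ two_ne_zero]; simp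
    calc (2 : ℝ) ^ (-k) * ((2 : ℝ) ^ k * x + c - c) = ((2 : ℝ) ^ (-k) * (2 : ℝ) ^ k) * x := by ring
      _ = x := by rw [this, one_mul]
  right_inv y := by
    have : (2 : ℝ) ^ k * (2 : ℝ) ^ (-k) = 1 := by
      rw [← zpow_add₀ two_ne_zero]; simp
    calc (2 : ℝ) ^ k * ((2 : ℝ) ^ (-k) * (y - c)) + c = ((2 : ℝ) ^ k * (2 : ℝ) ^ (-k)) * (y - c) + c := by
          ring
      _ = y := by rw [this]; ring

theorem aff_mem_10050 (k : ℤ) {c : ℝ} (hc : Dy c) : aff_10050 k c ∈ PLH := by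
  refine ⟨fun x y h => ?_, fun x => PLat_affine k hc x⟩
  show (2 : ℝ) ^ k * x + c < (2 : ℝ) ^ k * y + c
  have := zpow_pos (two_pos (α := ℝ)) k
  nlinarith

theorem interp_nat_10050 (m : ℕ) : ∃ e ∈ PLH, e 0 = 0 ∧ e ((m : ℝ) + 1) = 1 := by
  induction m with
  | zero => exact ⟨1, PLH.one_mem, rfl, by simp⟩
  | succ m ih =>
    obtain ⟨e, he, h0, h1⟩ := ih
    have hf : aff_10050 (-1) 0 * e ∈ PLH := PLH.mul_mem (aff_mem_10050 _ Dy.zero) he
    have hc : Dy ((1 : ℝ) / 2 - ((m : ℝ) + 1) / 2) :=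
      Dy.sub (Dy.half Dy.one) (Dy.half (Dy.add (Dy.nat m) Dy.one))
    have hg := aff_mem_10050 (-1) hc
    have e1 : (aff_10050 (-1) 0 * e : Equiv.Perm ℝ) ((m : ℝ) + 1) =
        aff_10050 (-1) ((1 : ℝ) / 2 - ((m : ℝ) + 1) / 2) ((m : ℝ) + 1) := by
      show (2 : ℝ) ^ (-1 : ℤ) * e ((m : ℝ) + 1) + 0 =
        (2 : ℝ) ^ (-1 : ℤ) * ((m : ℝ) + 1) + ((1 : ℝ) / 2 - ((m : ℝ) + 1) / 2)
      rw [h1, zpow_neg_one]; ring
    obtain ⟨e', he', h2, h3⟩ := PLH_glue hf hg (Dy.add (Dy.nat m) Dy.one) e1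
    refine ⟨e', he', ?_, ?_⟩
    · rw [h2 0 (by positivity)]
      show (2 : ℝ) ^ (-1 : ℤ) * e 0 + 0 = 0
      rw [h0]; ring
    · rw [h3 _ (by push_cast; linarith)]
      show (2 : ℝ) ^ (-1 : ℤ) * (((m + 1 : ℕ) : ℝ) + 1) + ((1 : ℝ) / 2 - ((m : ℝ) + 1) / 2) = 1
      rw [zpow_neg_one]; push_cast; ring

theorem norm_10050 {s t : ℝ} (hs : Dy s) (ht : Dy t) (h : s < t) :
    ∃ e ∈ PLH, e s = 0 ∧ e t = 1 := by
  obtain ⟨m, k, hmk⟩ := Dy.sub ht hs
  have hk : (0 : ℝ) < 2 ^ k := by positivity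
  have hm : (t - s) * 2 ^ k = m := by rw [hmk]; field_simp
  have hm0 : (0 : ℝ) < m := by
    rw [← hm]; exact mul_pos (by linarith) hk
  have hm1 : 0 < m := by exact_mod_cast hm0
  obtain ⟨l, hl⟩ := Int.eq_ofNat_of_zero_le (by omega : 0 ≤ m - 1)
  have hml : (m : ℝ) = (l : ℝ) + 1 := by
    have : m = (l : ℤ) + 1 := by omega
    rw [this]; push_cast; ring
  obtain ⟨e, he, h0, h1⟩ := interp_nat_10050 l
  have hc : Dy (-((2 : ℝ) ^ (k : ℤ) * s)) := Dy.neg (Dy.mul (Dy.zpow _) hs)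
  refine ⟨e * aff_10050 k (-((2 : ℝ) ^ (k : ℤ) * s)), PLH.mul_mem he (aff_mem_10050 _ hc), ?_, ?_⟩
  · rw [Equiv.Perm.mul_apply]
    have : aff_10050 k (-((2 : ℝ) ^ (k : ℤ) * s)) s = 0 := by
      show (2 : ℝ) ^ (k : ℤ) * s + -((2 : ℝ) ^ (k : ℤ) * s) = 0
      ring
    rw [this, h0]
  · rw [Equiv.Perm.mul_apply]
    have : aff_10050 k (-((2 : ℝ) ^ (k : ℤ) * s)) t = (l : ℝ) + 1 := by
      show (2 : ℝ) ^ (k : ℤ) * t + -((2 : ℝ) ^ (k : ℤ) * s) = (l : ℝ) + 1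
      rw [← hml, ← hm, zpow_natCast]; ring
    rw [this, h1]

/-- interpolation between dyadic intervals -/
theorem PLH_interp {s t s' t' : ℝ} (hs : Dy s) (ht : Dy t) (hs' : Dy s') (ht' : Dy t')
    (h : s < t) (h' : s' < t') : ∃ e ∈ PLH, e s = s' ∧ e t = t' := by
  obtain ⟨e, he, h0, h1⟩ := norm_10050 hs ht h
  obtain ⟨e', he', h0', h1'⟩ := norm_10050 hs' ht' h'
  refine ⟨e'⁻¹ * e, PLH.mul_mem (PLH.inv_mem he') he, ?_, ?_⟩
  · rw [Equiv.Perm.mul_apply, h0, Equiv.Perm.inv_eq_iff_eq, h0']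
  · rw [Equiv.Perm.mul_apply, h1, Equiv.Perm.inv_eq_iff_eq, h1']

/-- the line model of Thompson's group `F` -/
def FZ : Subgroup (Equiv.Perm ℝ) where
  carrier := {e | e ∈ PLH ∧ Ends e}
  mul_mem' := fun {a b} ha hb => ⟨PLH.mul_mem ha.1 hb.1, Ends.mul ha.2 hb.2⟩
  one_mem' := ⟨PLH.one_mem, Ends.one⟩
  inv_mem' := fun {a} ha => ⟨PLH.inv_mem ha.1, Ends.inv ha.2⟩



end Pool.Agent.Helper283.PL
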