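import Mathlib
import Pool.Agent.Helper283.ThV.PLBase

set_option autoImplicit false
set_option linter.unusedVariables false
set_option linter.deprecated false

namespace Pool.Agent.Helper283.PL

/-! #### f2 -/


theorem inv_fix_10051 {g : Equiv.Perm ℝ} {z : ℝ} (h : g z = z) : g⁻¹ z = z := by
  conv_lhs => rw [← h]
  exact inv_left g z

theorem inv_mono_10051 {g : Equiv.Perm ℝ} (hg : StrictMono g) {y z : ℝ} (h : y ≤ z) : g⁻¹ y ≤ g⁻¹ z := by
  rw [← hg.le_iff_le, inv_right, inv_right]; exact h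

theorem inv_lt_10051 {g : Equiv.Perm ℝ} (hg : StrictMono g) {z : ℝ} (h : z < g z) : g⁻¹ z < z := by
  rw [← hg.lt_iff_lt, inv_right]; exact h

theorem step_10051 {g : Equiv.Perm ℝ} (hg : StrictMono g) {x0 : ℝ} (h0 : x0 < g x0) (i : ℕ) :
    (g ^ i) x0 < (g ^ (i + 1)) x0 := by
  induction i with
  | zero => simpa using h0
  | succ k ih =>
    have e1 : (g ^ (k + 1)) x0 = g ((g ^ k) x0) := by rw [pow_succ']; rfl
    have e2 : (g ^ (k + 1 + 1)) x0 = g ((g ^ (k + 1)) x0) := by rw [pow_succ']; rfl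
    rw [e2]
    conv_lhs => rw [e1]
    exact hg ih

theorem up_10051 {g : Equiv.Perm ℝ} (hg : StrictMono g) {x0 : ℝ} (h0 : x0 < g x0) (i : ℕ) :
    ∀ z, x0 ≤ z → z ≤ (g ^ i) x0 → z < g z := by
  induction i with
  | zero =>
    intro z h1 h2
    have : z = x0 := le_antisymm (by simpa using h2) h1
    rw [this]; exact h0
  | succ k ih =>
    intro z h1 h2
    rcases le_or_gt z ((g ^ k) x0) with h | h
    · exact ih z h1 h
    · have e1 : (g ^ (k + 1)) x0 = g ((g ^ k) x0) := by rw [pow_succ']; rfl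
      have := hg h
      rw [← e1] at this
      linarith

theorem ge_10051 {g : Equiv.Perm ℝ} (hg : StrictMono g) {x0 : ℝ} (h0 : x0 < g x0) (i : ℕ) :
    x0 ≤ (g ^ i) x0 := by
  induction i with
  | zero => simp
  | succ k ih => exact ih.trans (step_10051 hg h0 k).le

theorem lt_v_10051 {g : Equiv.Perm ℝ} (hg : StrictMono g) {x0 v : ℝ} (hx : x0 < v) (hv : g v = v) (i : ℕ) :
    (g ^ i) x0 < v := by
  induction i with
  | zero => simpa using hx
  | succ k ih =>
    have e1 : (g ^ (k + 1)) x0 = g ((g ^ k) x0) := by rw [pow_succ']; rfl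
    rw [e1, ← hv]
    exact hg ih

/-- a fast one-bump element which agrees with `g` on a long stretch -/
theorem exists_a {g : Equiv.Perm ℝ} {u v : ℝ} (hg : g ∈ Sup u v) {x0 : ℝ} (hx0 : Dy x0)
    (h0 : x0 < g x0) (N : ℕ) :
    ∃ a ∈ PLH, ∃ L : ℝ, (∀ x, x ≤ -L → a x = x + 1) ∧ (∀ x, L ≤ x → a x = x + 1) ∧
      (∀ y, y < a y) ∧ (∀ y, y < a (g y)) ∧
      ∀ y, x0 ≤ y → y ≤ (g ^ N) x0 → a y = g y := by
  obtain ⟨hgP, hfix⟩ := hg
  have hmono : StrictMono g := hgP.1
  have hu : u < x0 := by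
    by_contra hcon
    have := hfix x0 (Or.inl (not_lt.1 hcon))
    linarith
  have hv : x0 < v := by
    by_contra hcon
    have := hfix x0 (Or.inr (not_lt.1 hcon))
    linarith
  have hgv : g v = v := hfix v (Or.inr le_rfl)
  set xN := (g ^ N) x0 with hxN
  have hxNd : Dy xN := ((PLH.pow_mem hgP N).2 x0).dy.2 hx0
  have hxN1d : Dy (g xN) := (hgP.2 xN).dy.2 hxNd
  have hxNN : xN < g xN := up_10051 hmono h0 N xN (ge_10051 hmono h0 N) le_rfl
  have hxNv : g xN < v := by
    rw [← hgv]; exact hmono (lt_v_10051 hmono hv hgv N)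
  have hx0N : x0 ≤ xN := ge_10051 hmono h0 N
  obtain ⟨y1, hy1d, hy1a, hy1b⟩ := Dy.exists_between (show u - 2 < u - 1 by linarith)
  obtain ⟨y2, hy2d, hy2a, hy2b⟩ := Dy.exists_between (show y1 < y1 + 1 / 2 by linarith)
  obtain ⟨w, hwd, hwa, hwb⟩ := Dy.exists_between h0
  obtain ⟨y3, hy3d, hy3a, hy3b⟩ := Dy.exists_between hxNN
  obtain ⟨y4, hy4d, hy4a, hy4b⟩ := Dy.exists_between (show v + 1 < v + 2 by linarith)
  have hy4h : Dy (y4 + 1 / 2) := hy4d.add Dy.one.half
  obtain ⟨P2, hP2, hP2a, hP2b⟩ := PLH_interp hy1d hy2d (hy1d.add Dy.one) hwd hy2a (show y1 + 1 < w by linarith)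
  obtain ⟨P3, hP3, hP3a, hP3b⟩ := PLH_interp hy2d hx0 hwd ((hgP.2 x0).dy.2 hx0) (show y2 < x0 by linarith) hwb
  obtain ⟨P5, hP5, hP5a, hP5b⟩ := PLH_interp hxNd hy3d hxN1d hy4h hy3a (show g xN < y4 + 1 / 2 by linarith)
  obtain ⟨P6, hP6, hP6a, hP6b⟩ := PLH_interp hy3d hy4d hy4h (hy4d.add Dy.one) (show y3 < y4 by linarith)
    (show y4 + 1 / 2 < y4 + 1 by linarith)
  obtain ⟨e1, he1, e1a, e1b⟩ := PLH_glue (tr_mem Dy.one) hP2 hy1d (by rw [tr_apply, hP2a])
  obtain ⟨e2, he2, e2a, e2b⟩ := PLH_glue he1 hP3 hy2d (by rw [e1b y2 hy2a.le, hP2b, hP3a])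
  obtain ⟨e3, he3, e3a, e3b⟩ := PLH_glue he2 hgP hx0 (by rw [e2b x0 (by linarith), hP3b])
  obtain ⟨e4, he4, e4a, e4b⟩ := PLH_glue he3 hP5 hxNd (by rw [e3b xN hx0N, hP5a])
  obtain ⟨e5, he5, e5a, e5b⟩ := PLH_glue he4 hP6 hy3d (by rw [e4b y3 hy3a.le, hP5b, hP6a])
  obtain ⟨e6, he6, e6a, e6b⟩ := PLH_glue he5 (tr_mem Dy.one) hy4d
    (by rw [e5b y4 (by linarith), hP6b, tr_apply])
  have r1 : ∀ z, z ≤ y1 → e6 z = z + 1 := by
    intro z hz
    rw [e6a z (by linarith), e5a z (by linarith), e4a z (by linarith), e3a z (by linarith),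
      e2a z (by linarith), e1a z hz, tr_apply]
  have r2 : ∀ z, y1 ≤ z → z ≤ y2 → e6 z = P2 z := by
    intro z hz hz'
    rw [e6a z (by linarith), e5a z (by linarith), e4a z (by linarith), e3a z (by linarith),
      e2a z hz', e1b z hz]
  have r3 : ∀ z, y2 ≤ z → z ≤ x0 → e6 z = P3 z := by
    intro z hz hz'
    rw [e6a z (by linarith), e5a z (by linarith), e4a z (by linarith), e3a z hz', e2b z hz]
  have r4 : ∀ z, x0 ≤ z → z ≤ xN → e6 z = g z := by
    intro z hz hz'
    rw [e6a z (by linarith), e5a z (by linarith), e4a z hz', e3b z hz]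
  have r5 : ∀ z, xN ≤ z → z ≤ y3 → e6 z = P5 z := by
    intro z hz hz'
    rw [e6a z (by linarith), e5a z hz', e4b z hz]
  have r6 : ∀ z, y3 ≤ z → z ≤ y4 → e6 z = P6 z := by
    intro z hz hz'
    rw [e6a z hz', e5b z hz]
  have r7 : ∀ z, y4 ≤ z → e6 z = z + 1 := by
    intro z hz
    rw [e6b z hz, tr_apply]
  have Q : ∀ z, z < e6 z ∧ g⁻¹ z < e6 z := by
    intro z
    rcases le_or_gt z y1 with c1 | c1
    · rw [r1 z c1, inv_fix_10051 (hfix z (Or.inl (by linarith)))]
      constructor <;> linarith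
    rcases le_or_gt z y2 with c2 | c2
    · rw [r2 z c1.le c2, inv_fix_10051 (hfix z (Or.inl (by linarith)))]
      have := hP2.1.monotone c1.le
      rw [hP2a] at this
      constructor <;> linarith
    rcases le_or_gt z x0 with c3 | c3
    · rw [r3 z c2.le c3]
      have h1 := hP3.1.monotone c2.le
      rw [hP3a] at h1
      have h2 := inv_mono_10051 hmono c3
      have h3 := inv_lt_10051 hmono h0
      constructor <;> linarith
    rcases le_or_gt z xN with c4 | c4
    · rw [r4 z c3.le c4]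
      have h1 := up_10051 hmono h0 N z c3.le c4
      have h2 := inv_lt_10051 hmono h1
      constructor <;> linarith
    rcases le_or_gt z y3 with c5 | c5
    · rw [r5 z c4.le c5]
      have h1 := hP5.1.monotone c4.le
      rw [hP5a] at h1
      have h2 := inv_mono_10051 hmono (show z ≤ g xN by linarith)
      rw [inv_left] at h2
      constructor <;> linarith
    rcases le_or_gt z y4 with c6 | c6
    · rw [r6 z c5.le c6]
      have h1 := hP6.1.monotone c5.le
      rw [hP6a] at h1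
      have h2 := inv_mono_10051 hmono c6
      rw [inv_fix_10051 (hfix y4 (Or.inr (by linarith)))] at h2
      constructor <;> linarith
    · rw [r7 z c6.le, inv_fix_10051 (hfix z (Or.inr (by linarith)))]
      constructor <;> linarith
  refine ⟨e6, he6, max (-y1) y4, ?_, ?_, fun y => (Q y).1, ?_, ?_⟩
  · intro x hx
    apply r1
    have := le_max_left (-y1) y4
    linarith
  · intro x hx
    apply r7
    have := le_max_right (-y1) y4
    linarith
  · intro y
    have := (Q (g y)).2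
    rwa [inv_left] at this
  · intro y hy hy'
    exact r4 y hy hy'



/-! #### f3 -/


theorem PLat_congr_10053 {f g : ℝ → ℝ} {x : ℝ} (h : ∀ y, y < x + 1 → f y = g y)
    (hg : PLat g x) : PLat f x := by
  have hR : ∀ k c, RG g x k c → RG f x k c := by
    rintro k c ⟨hc, ε, hε, he⟩
    refine ⟨hc, min ε 1, lt_min hε one_pos, fun y hy1 hy2 => ?_⟩
    have h3 := min_le_left ε 1
    have h4 := min_le_right ε 1
    rw [h y (by linarith)]
    exact he y hy1 (by linarith)
  have hL : ∀ k c, LG g x k c → LG f x k c := by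
    rintro k c ⟨hc, ε, hε, he⟩
    refine ⟨hc, ε, hε, fun y hy1 hy2 => ?_⟩
    rw [h y (by linarith)]
    exact he y hy1 hy2
  obtain ⟨⟨k, c, h1⟩, ⟨k', c', h2⟩, h3⟩ := hg
  refine ⟨⟨k, c, hR k c h1⟩, ⟨k', c', hL k' c' h2⟩, fun hx => ?_⟩
  obtain ⟨k, c, h4, h5⟩ := h3 hx
  exact ⟨k, c, hR k c h4, hL k c h5⟩

section W10053

variable {a : Equiv.Perm ℝ} {L : ℝ}

theorem inv_lt_10053 (h3 : ∀ y, y < a y) (x : ℝ) : a⁻¹ x < x := by
  have := h3 (a⁻¹ x)
  rwa [inv_right] at this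

theorem iter_sub_10053 (h1 : ∀ x, x ≤ -L → a x = x + 1) (m : ℕ) :
    ∀ z, z ≤ -L → (a⁻¹ ^ m) z = z - m := by
  induction m with
  | zero =>
    intro z _
    rw [pow_zero, Equiv.Perm.one_apply, Nat.cast_zero, sub_zero]
  | succ m ih =>
    intro z hz
    have h2 : a⁻¹ z = z - 1 := by
      have h3 := h1 (z - 1) (by linarith)
      rw [sub_add_cancel] at h3
      conv_lhs => rw [← h3]
      exact inv_left a _
    rw [pow_succ, Equiv.Perm.mul_apply, h2, ih (z - 1) (by linarith)]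
    push_cast
    ring

theorem exists_k_10053 (ha : a ∈ PLH) (h3 : ∀ y, y < a y) (x : ℝ) :
    ∃ k : ℕ, (a⁻¹ ^ k) x ≤ -L := by
  by_contra hne
  push Not at hne
  have hanti : Antitone (fun k : ℕ => (a⁻¹ ^ k) x) := by
    apply antitone_nat_of_succ_le
    intro k
    rw [pow_succ', Equiv.Perm.mul_apply]
    exact (inv_lt_10053 h3 _).le
  have hbdd : BddBelow (Set.range (fun k : ℕ => (a⁻¹ ^ k) x)) := by
    refine ⟨-L, ?_⟩
    rintro _ ⟨k, rfl⟩
    exact (hne k).le
  have ht := tendsto_atTop_ciInf hanti hbdd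
  set l := ⨅ k : ℕ, (a⁻¹ ^ k) x with hl
  have hcont : Continuous (a⁻¹ : Equiv.Perm ℝ) := PLf.cont (PLH.inv_mem ha).2
  have h4 := (hcont.tendsto l).comp ht
  have h5 := ht.comp (Filter.tendsto_add_atTop_nat 1)
  have h6 : a⁻¹ l = l := by
    refine tendsto_nhds_unique h4 ?_
    refine h5.congr (fun k => ?_)
    show (a⁻¹ ^ (k + 1)) x = a⁻¹ ((a⁻¹ ^ k) x)
    rw [pow_succ', Equiv.Perm.mul_apply]
  have h7 := inv_lt_10053 h3 l
  rw [h6] at h7
  exact lt_irrefl _ h7

theorem ge_k_10053 (h1 : ∀ x, x ≤ -L → a x = x + 1) {x : ℝ} {k m : ℕ} (hk : (a⁻¹ ^ k) x ≤ -L)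
    (hkm : k ≤ m) : (a⁻¹ ^ m) x = (a⁻¹ ^ k) x - ((m - k : ℕ) : ℝ) := by
  obtain ⟨d, rfl⟩ := Nat.exists_eq_add_of_le hkm
  rw [add_comm k d, pow_add, Equiv.Perm.mul_apply, iter_sub_10053 h1 d _ hk,
    Nat.add_sub_cancel]

theorem ge_k_le_10053 (h1 : ∀ x, x ≤ -L → a x = x + 1) {x : ℝ} {k m : ℕ}
    (hk : (a⁻¹ ^ k) x ≤ -L) (hkm : k ≤ m) : (a⁻¹ ^ m) x ≤ -L := by
  rw [ge_k_10053 h1 hk hkm]
  have : (0 : ℝ) ≤ ((m - k : ℕ) : ℝ) := Nat.cast_nonneg _
  linarith

theorem indep_10053 (h1 : ∀ x, x ≤ -L → a x = x + 1) {x : ℝ} {k m : ℕ}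
    (hk : (a⁻¹ ^ k) x ≤ -L) (hm : (a⁻¹ ^ m) x ≤ -L) :
    (a⁻¹ ^ k) x + k = (a⁻¹ ^ m) x + m := by
  rcases le_total k m with h | h
  · rw [ge_k_10053 h1 hk h, Nat.cast_sub h]
    ring
  · rw [ge_k_10053 h1 hm h, Nat.cast_sub h]
    ring

theorem exists_Wfun_10053 (ha : a ∈ PLH) (h1 : ∀ x, x ≤ -L → a x = x + 1)
    (h3 : ∀ y, y < a y) :
    ∃ W : Equiv.Perm ℝ, W ∈ PLH ∧ ∀ x (k : ℕ), (a⁻¹ ^ k) x ≤ -L → W x = (a⁻¹ ^ k) x + k := by
  choose N hN using fun x => exists_k_10053 (L := L) ha h3 x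
  have hW : ∀ x (k : ℕ), (a⁻¹ ^ k) x ≤ -L → (a⁻¹ ^ (N x)) x + (N x : ℝ) = (a⁻¹ ^ k) x + k :=
    fun x k hk => indep_10053 h1 (hN x) hk
  have hbk : ∀ k : ℕ, a⁻¹ ^ k ∈ PLH := fun k => PLH.pow_mem (PLH.inv_mem ha) k
  have hmono : StrictMono (fun x => (a⁻¹ ^ (N x)) x + (N x : ℝ)) := by
    intro x y hxy
    have hx := ge_k_le_10053 h1 (hN x) (le_max_left (N x) (N y))
    have hy := ge_k_le_10053 h1 (hN y) (le_max_right (N x) (N y))
    show (a⁻¹ ^ (N x)) x + (N x : ℝ) < (a⁻¹ ^ (N y)) y + (N y : ℝ)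
    rw [hW x _ hx, hW y _ hy]
    have := (hbk (max (N x) (N y))).1 hxy
    linarith
  have hsurj : Function.Surjective (fun x => (a⁻¹ ^ (N x)) x + (N x : ℝ)) := by
    intro y
    obtain ⟨k, hk⟩ := exists_nat_ge (y + L)
    refine ⟨(a ^ k) (y - k), ?_⟩
    have h4 : (a⁻¹ ^ k) ((a ^ k) (y - k)) = y - k := by
      rw [inv_pow]
      exact inv_left _ _
    show (a⁻¹ ^ (N ((a ^ k) (y - k)))) ((a ^ k) (y - k)) + (N ((a ^ k) (y - k)) : ℝ) = y
    rw [hW _ k (by rw [h4]; linarith), h4]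
    ring
  let W : Equiv.Perm ℝ := Equiv.ofBijective _ ⟨hmono.injective, hsurj⟩
  have hWapp : ∀ x (k : ℕ), (a⁻¹ ^ k) x ≤ -L → W x = (a⁻¹ ^ k) x + k := hW
  refine ⟨W, ⟨hmono, fun x => ?_⟩, hWapp⟩
  have h4 : tr ((N (x + 1) : ℕ) : ℝ) * a⁻¹ ^ (N (x + 1)) ∈ PLH :=
    PLH.mul_mem (tr_mem (Dy.nat _)) (hbk _)
  refine PLat_congr_10053 (fun y hy => ?_) (h4.2 x)
  rw [Equiv.Perm.mul_apply, tr_apply]
  apply hWapp
  exact ((hbk _).1 hy).le.trans (hN (x + 1))

end W10053

/-- a one-bump element is conjugate to the translation by one -/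
theorem exists_W {a : Equiv.Perm ℝ} (ha : a ∈ PLH) {L : ℝ} (h1 : ∀ x, x ≤ -L → a x = x + 1)
    (h2 : ∀ x, L ≤ x → a x = x + 1) (h3 : ∀ y, y < a y) :
    ∃ W ∈ PLH, (∀ x, W (a x) = W x + 1) ∧ (∀ x, x ≤ -L → W x = x) ∧
      (∀ f ∈ FZ, W * f * W⁻¹ ∈ FZ) ∧ (∀ f ∈ FZ, W⁻¹ * f * W ∈ FZ) := by
  obtain ⟨W, hWP, hW⟩ := exists_Wfun_10053 ha h1 h3
  have hWa : ∀ x, W (a x) = W x + 1 := by
    intro x
    obtain ⟨k, hk⟩ := exists_k_10053 (L := L) ha h3 x
    have e : (a⁻¹ ^ (k + 1)) (a x) = (a⁻¹ ^ k) x := by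
      rw [pow_succ, Equiv.Perm.mul_apply, inv_left]
    rw [hW x k hk, hW (a x) (k + 1) (by rw [e]; exact hk), e]
    push_cast
    ring
  have hWid : ∀ x, x ≤ -L → W x = x := by
    intro x hx
    rw [hW x 0 (by rw [pow_zero, Equiv.Perm.one_apply]; exact hx), pow_zero,
      Equiv.Perm.one_apply, Nat.cast_zero, add_zero]
  have hWinv : ∀ x, x ≤ -L → W⁻¹ x = x := by
    intro x hx
    conv_lhs => rw [← hWid x hx]
    exact inv_left W x
  have hWn : ∀ (n : ℕ) (x : ℝ), L ≤ x → W (x + n) = W x + n := by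
    intro n
    induction n with
    | zero => intro x _; simp
    | succ n ih =>
      intro x hx
      have hx' : L ≤ x + n := by
        have : (0 : ℝ) ≤ n := Nat.cast_nonneg n
        linarith
      have e : x + ((n + 1 : ℕ) : ℝ) = (x + n) + 1 := by push_cast; ring
      rw [e, ← h2 _ hx', hWa, ih x hx]
      push_cast
      ring
  have hWz : ∀ (j : ℤ) (x : ℝ), L ≤ x → L ≤ x + j → W (x + j) = W x + j := by
    intro j x hx hxj
    rcases Int.eq_nat_or_neg j with ⟨n, rfl | rfl⟩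
    · exact_mod_cast hWn n x hx
    · have h4 := hWn n (x + ((-(n : ℤ) : ℤ) : ℝ)) hxj
      have h5 : x + ((-(n : ℤ) : ℤ) : ℝ) + (n : ℝ) = x := by push_cast; ring
      rw [h5] at h4
      rw [h4]
      push_cast
      ring
  have hmono : StrictMono W := hWP.1
  have hinvmono : StrictMono (W⁻¹ : Equiv.Perm ℝ) := (PLH.inv_mem hWP).1
  refine ⟨W, hWP, hWa, hWid, ?_, ?_⟩
  · rintro f ⟨hfP, ⟨i, M, hi⟩, ⟨j, M', hj⟩⟩
    refine ⟨PLH.mul_mem (PLH.mul_mem hWP hfP) (PLH.inv_mem hWP), ⟨i, min (-L) (min M (-L - i)), ?_⟩,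
      ⟨j, W (max M' (max L (L - j))), ?_⟩⟩
    · intro x hx
      have hx1 : x ≤ -L := hx.trans (min_le_left _ _)
      have hx2 : x ≤ M := hx.trans ((min_le_right _ _).trans (min_le_left _ _))
      have hx3 : x ≤ -L - i := hx.trans ((min_le_right _ _).trans (min_le_right _ _))
      rw [Equiv.Perm.mul_apply, Equiv.Perm.mul_apply, hWinv x hx1, hi x hx2,
        hWid _ (by linarith)]
    · intro x hx
      have hx0 : max M' (max L (L - j)) ≤ W⁻¹ x := by
        have h4 := hinvmono.monotone hx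
        rwa [inv_left] at h4
      have hx1 : M' ≤ W⁻¹ x := (le_max_left _ _).trans hx0
      have hx2 : L ≤ W⁻¹ x := ((le_max_left _ _).trans (le_max_right _ _)).trans hx0
      have hx3 : L - j ≤ W⁻¹ x := ((le_max_right _ _).trans (le_max_right _ _)).trans hx0
      rw [Equiv.Perm.mul_apply, Equiv.Perm.mul_apply, hj _ hx1, hWz j _ hx2 (by linarith),
        inv_right]
  · rintro f ⟨hfP, ⟨i, M, hi⟩, ⟨j, M', hj⟩⟩
    refine ⟨PLH.mul_mem (PLH.mul_mem (PLH.inv_mem hWP) hfP) hWP,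
      ⟨i, min (-L) (min M (-L - i)), ?_⟩, ⟨j, max (W⁻¹ M') (max L (L - j)), ?_⟩⟩
    · intro x hx
      have hx1 : x ≤ -L := hx.trans (min_le_left _ _)
      have hx2 : x ≤ M := hx.trans ((min_le_right _ _).trans (min_le_left _ _))
      have hx3 : x ≤ -L - i := hx.trans ((min_le_right _ _).trans (min_le_right _ _))
      rw [Equiv.Perm.mul_apply, Equiv.Perm.mul_apply, hWid x hx1, hi x hx2,
        hWinv _ (by linarith)]
    · intro x hx
      have hx1 : M' ≤ W x := by
        have h4 := hmono.monotone ((le_max_left _ _).trans hx)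
        rwa [inv_right] at h4
      have hx2 : L ≤ x := ((le_max_left _ _).trans (le_max_right _ _)).trans hx
      have hx3 : L - j ≤ x := ((le_max_right _ _).trans (le_max_right _ _)).trans hx
      rw [Equiv.Perm.mul_apply, Equiv.Perm.mul_apply, hj _ hx1, ← hWz j _ hx2 (by linarith),
        inv_left]



/-! #### f4 -/


theorem exists_normal_iter_10054 {h : Equiv.Perm ℝ} (hm : StrictMono h) {x0 : ℝ}
    (h0 : x0 < h x0) (i : ℕ) : (h ^ i) x0 < (h ^ (i + 1)) x0 := by
  induction i with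
  | zero => simpa using h0
  | succ n ih =>
    have h1 : (h ^ (n + 1)) x0 = h ((h ^ n) x0) := by
      rw [pow_succ']; rfl
    have h2 : (h ^ (n + 1 + 1)) x0 = h ((h ^ (n + 1)) x0) := by
      rw [pow_succ' h (n + 1)]; rfl
    rw [h2]
    conv_lhs => rw [h1]
    exact hm ih

theorem exists_normal_mono_10054 {h : Equiv.Perm ℝ} (hm : StrictMono h) {x0 : ℝ}
    (h0 : x0 < h x0) : StrictMono (fun i : ℕ => (h ^ i) x0) :=
  strictMono_nat_of_lt_succ (fun i => exists_normal_iter_10054 hm h0 i)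

theorem exists_normal_aux_10054 {g : Equiv.Perm ℝ} {u v : ℝ} (hg : g ∈ Sup u v)
    {x0 : ℝ} (hx0 : Dy x0) (h0 : x0 < g x0) (N : ℕ) :
    ∃ W ∈ PLH, (∀ f ∈ FZ, W * f * W⁻¹ ∈ FZ) ∧ (∀ f ∈ FZ, W⁻¹ * f * W ∈ FZ) ∧
      (∃ u' v', W * g * W⁻¹ ∈ Sup u' v') ∧
      (∀ y, y - 1 < (W * g * W⁻¹) y) ∧
      ∃ x0 : ℝ, Dy x0 ∧ ∀ y, x0 ≤ y → y ≤ x0 + N → (W * g * W⁻¹) y = y + 1 := by
  obtain ⟨a, ha, L, h1, h2, h3, h4, h5⟩ := exists_a hg hx0 h0 N
  obtain ⟨W, hW, k1, -, k3, k4⟩ := exists_W ha h1 h2 h3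
  have hWm : StrictMono W := (mem_PLH.1 hW).1
  have hgP : g ∈ PLH := (mem_Sup.1 hg).1
  have hgm : StrictMono g := (mem_PLH.1 hgP).1
  have happ : ∀ y, (W * g * W⁻¹) y = W (g (W⁻¹ y)) := fun y => rfl
  refine ⟨W, hW, k3, k4, ⟨W u, W v, ?_⟩, ?_, W x0, ?_, ?_⟩
  · rw [mem_Sup]
    refine ⟨PLH.mul_mem (PLH.mul_mem hW hgP) (PLH.inv_mem hW), fun y hy => ?_⟩
    rw [happ]
    have hx : g (W⁻¹ y) = W⁻¹ y := by
      apply (mem_Sup.1 hg).2
      rcases hy with hy | hy
      · left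
        apply hWm.le_iff_le.1
        rwa [inv_right]
      · right
        apply hWm.le_iff_le.1
        rwa [inv_right]
    rw [hx, inv_right]
  · intro y
    rw [happ]
    have hx := hWm (h4 (W⁻¹ y))
    rw [inv_right, k1] at hx
    linarith
  · exact (PLat.dy ((mem_PLH.1 hW).2 x0)).2 hx0
  · intro y hy1 hy2
    rw [happ]
    have hmono := exists_normal_mono_10054 hgm h0
    have hle : ∀ i : ℕ, i ≤ N → W ((g ^ i) x0) = W x0 + i := by
      intro i
      induction i with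
      | zero => intro _; simp
      | succ n ih =>
        intro hn
        have e1 : (g ^ (n + 1)) x0 = g ((g ^ n) x0) := by
          rw [pow_succ']; rfl
        have e2 : a ((g ^ n) x0) = g ((g ^ n) x0) := by
          apply h5
          · have := hmono.monotone (Nat.zero_le n)
            simpa using this
          · exact hmono.monotone (by omega : n ≤ N)
        rw [e1, ← e2, k1, ih (by omega)]
        push_cast
        ring
    have hx1 : x0 ≤ W⁻¹ y := by
      apply hWm.le_iff_le.1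
      rwa [inv_right]
    have hx2 : W⁻¹ y ≤ (g ^ N) x0 := by
      apply hWm.le_iff_le.1
      rw [inv_right, hle N le_rfl]
      exact hy2
    rw [← h5 _ hx1 hx2, k1, inv_right]

/-- normalisation -/
theorem exists_normal {g : Equiv.Perm ℝ} {u v : ℝ} (hg : g ∈ Sup u v) (hne : g ≠ 1) (N : ℕ) :
    ∃ W ∈ PLH, (∀ f ∈ FZ, W * f * W⁻¹ ∈ FZ) ∧ (∀ f ∈ FZ, W⁻¹ * f * W ∈ FZ) ∧
      ∃ g' : Equiv.Perm ℝ, (g' = W * g * W⁻¹ ∨ g' = W * g⁻¹ * W⁻¹) ∧ (∃ u' v', g' ∈ Sup u' v') ∧
      (∀ y, y - 1 < g' y) ∧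
      ∃ x0 : ℝ, Dy x0 ∧ ∀ y, x0 ≤ y → y ≤ x0 + N → g' y = y + 1 := by
  have hgP : g ∈ PLH := (mem_Sup.1 hg).1
  have hgm : StrictMono g := (mem_PLH.1 hgP).1
  have hcont : Continuous g := PLf.cont (mem_PLH.1 hgP).2
  obtain ⟨x, hx⟩ : ∃ x, g x ≠ x := by
    by_contra hc
    push Not at hc
    exact hne (Equiv.ext hc)
  have hopen : IsOpen {x | g x ≠ x} := isOpen_ne_fun hcont continuous_id
  obtain ⟨ε, hε, hball⟩ := Metric.isOpen_iff.1 hopen x hx
  obtain ⟨z, hz, hz1, hz2⟩ := Dy.exists_between (show x < x + ε by linarith)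
  have hzne : g z ≠ z := by
    apply hball
    rw [Metric.mem_ball, Real.dist_eq, abs_of_pos (by linarith)]
    linarith
  rcases lt_or_gt_of_ne hzne with hlt | hgt
  · have hgi : g⁻¹ ∈ Sup u v := (Sup u v).inv_mem hg
    have h0 : z < g⁻¹ z := by
      apply hgm.lt_iff_lt.1
      rwa [inv_right]
    obtain ⟨W, hW, k1, k2, k3, k4, k5⟩ := exists_normal_aux_10054 hgi hz h0 N
    exact ⟨W, hW, k1, k2, W * g⁻¹ * W⁻¹, Or.inr rfl, k3, k4, k5⟩
  · obtain ⟨W, hW, k1, k2, k3, k4, k5⟩ := exists_normal_aux_10054 hg hz hgt N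
    exact ⟨W, hW, k1, k2, W * g * W⁻¹, Or.inl rfl, k3, k4, k5⟩



/-! #### f5 -/


/-- conjugate by the translation by `j` -/
def sh (j : ℕ) (e : Equiv.Perm ℝ) : Equiv.Perm ℝ := tr j * e * (tr j)⁻¹

/-- `x n * ⋯ * x 1` -/
def up (x : ℕ → Equiv.Perm ℝ) : ℕ → Equiv.Perm ℝ
  | 0 => 1
  | n + 1 => x (n + 1) * up x n

/-- `x (2 n - 1) * ⋯ * x 3 * x 1` -/
def upo (x : ℕ → Equiv.Perm ℝ) : ℕ → Equiv.Perm ℝ
  | 0 => 1
  | n + 1 => x (2 * n + 1) * upo x n

/-- `x (2 n) * ⋯ * x 4 * x 2` -/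
def upe (x : ℕ → Equiv.Perm ℝ) : ℕ → Equiv.Perm ℝ
  | 0 => 1
  | n + 1 => x (2 * n + 2) * upe x n

/-- the slots -/
def uu (x : ℕ → Equiv.Perm ℝ) : ℕ → Equiv.Perm ℝ
  | 0 => 1
  | n + 1 => sh (n + 1) (x (n + 1)) * uu x n

theorem sh_apply10055 (j : ℕ) (e : Equiv.Perm ℝ) (q : ℝ) : sh j e q = e (q - j) + j := by
  unfold sh
  rw [Equiv.Perm.mul_apply, Equiv.Perm.mul_apply, tr_apply]
  have h : (tr (j : ℝ))⁻¹ q = q - j := by
    rw [Equiv.Perm.inv_eq_iff_eq, tr_apply]; ring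
  rw [h]

theorem sh_mem10055 {s : ℝ} (j : ℕ) {e : Equiv.Perm ℝ} (he : e ∈ Sup s (s + 1)) :
    sh j e ∈ Sup (s + j) (s + j + 1) := by
  refine ⟨PLH.mul_mem (PLH.mul_mem (tr_mem (Dy.nat j)) he.1) (PLH.inv_mem (tr_mem (Dy.nat j))),
    fun x hx => ?_⟩
  rw [sh_apply10055, he.2]
  · ring
  · rcases hx with h | h
    · left; linarith
    · right; linarith

theorem maps10055 {s : ℝ} {e : Equiv.Perm ℝ} (he : e ∈ Sup s (s + 1)) {q : ℝ} (h1 : s ≤ q)
    (h2 : q ≤ s + 1) : s ≤ e q ∧ e q ≤ s + 1 := by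
  have e1 : e s = s := he.2 s (Or.inl le_rfl)
  have e2 : e (s + 1) = s + 1 := he.2 (s + 1) (Or.inr le_rfl)
  have m1 := he.1.1.monotone h1
  have m2 := he.1.1.monotone h2
  rw [e1] at m1
  rw [e2] at m2
  exact ⟨m1, m2⟩

theorem uu_mem10055 {s : ℝ} (y : ℕ → Equiv.Perm ℝ) (hy : ∀ j, y j ∈ Sup s (s + 1)) (N : ℕ) :
    uu y N ∈ Sup (s + 1) (s + N + 1) := by
  induction N with
  | zero => exact (Sup _ _).one_mem
  | succ n ih =>
    have h1 := sh_mem10055 (n + 1) (hy (n + 1))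
    have hn : (0 : ℝ) ≤ n := Nat.cast_nonneg n
    refine (Sup _ _).mul_mem (Sup.mono ?_ ?_ h1) (Sup.mono ?_ ?_ ih)
    · push_cast; linarith
    · push_cast; linarith
    · exact le_rfl
    · push_cast; linarith

theorem uu_in10055 {s : ℝ} (y : ℕ → Equiv.Perm ℝ) (hy : ∀ j, y j ∈ Sup s (s + 1)) (N : ℕ) :
    ∀ j : ℕ, 1 ≤ j → j ≤ N → ∀ q : ℝ, s ≤ q → q ≤ s + 1 → uu y N (q + j) = y j q + j := by
  induction N with
  | zero => intro j h1 h2; omega
  | succ n ih =>
    intro j h1 h2 q hq1 hq2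
    show sh (n + 1) (y (n + 1)) (uu y n (q + j)) = y j q + j
    rcases Nat.lt_or_ge n j with h | h
    · have hj : j = n + 1 := by omega
      subst hj
      have h3 : uu y n (q + ((n + 1 : ℕ) : ℝ)) = q + ((n + 1 : ℕ) : ℝ) := by
        apply (uu_mem10055 y hy n).2
        right; push_cast; linarith
      rw [h3, sh_apply10055, add_sub_cancel_right]
    · rw [ih j h1 h q hq1 hq2]
      have hm := maps10055 (hy j) hq1 hq2
      apply (sh_mem10055 (n + 1) (hy (n + 1))).2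
      left
      have : (j : ℝ) ≤ n := by exact_mod_cast h
      push_cast; linarith

theorem uu_zero10055 {s : ℝ} (y : ℕ → Equiv.Perm ℝ) (hy : ∀ j, y j ∈ Sup s (s + 1)) (N : ℕ)
    (h0 : y 0 = 1) :
    ∀ j : ℕ, j ≤ N → ∀ q : ℝ, s ≤ q → q ≤ s + 1 → uu y N (q + j) = y j q + j := by
  intro j hj q h1 h2
  rcases Nat.eq_zero_or_pos j with rfl | h
  · rw [h0]
    apply (uu_mem10055 y hy N).2
    left; push_cast; linarith
  · exact uu_in10055 y hy N j h hj q h1 h2

theorem up_mem10055 {s : ℝ} (x : ℕ → Equiv.Perm ℝ) (hx : ∀ j, x j ∈ Sup s (s + 1)) (N : ℕ) :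
    up x N ∈ Sup s (s + 1) := by
  induction N with
  | zero => exact (Sup _ _).one_mem
  | succ n ih => exact (Sup _ _).mul_mem (hx _) ih

theorem upe_mem10055 {s : ℝ} (x : ℕ → Equiv.Perm ℝ) (hx : ∀ j, x j ∈ Sup s (s + 1)) (N : ℕ) :
    upe x N ∈ Sup s (s + 1) := by
  induction N with
  | zero => exact (Sup _ _).one_mem
  | succ n ih => exact (Sup _ _).mul_mem (hx _) ih

theorem upo_mem10055 {s : ℝ} (x : ℕ → Equiv.Perm ℝ) (hx : ∀ j, x j ∈ Sup s (s + 1)) (N : ℕ) :
    upo x N ∈ Sup s (s + 1) := by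
  induction N with
  | zero => exact (Sup _ _).one_mem
  | succ n ih => exact (Sup _ _).mul_mem (hx _) ih

theorem slot10055 {s p : ℝ} {N : ℕ} (h1 : s ≤ p) (h2 : p < s + N) :
    ∃ i : ℕ, i < N ∧ ∃ q : ℝ, s ≤ q ∧ q ≤ s + 1 ∧ p = q + i := by
  have h3 : (⌊p - s⌋₊ : ℝ) ≤ p - s := Nat.floor_le (by linarith)
  have h4 : p - s < (⌊p - s⌋₊ : ℝ) + 1 := Nat.lt_floor_add_one _
  refine ⟨⌊p - s⌋₊, ?_, p - (⌊p - s⌋₊ : ℝ), by linarith, by linarith, by ring⟩
  have h5 : (⌊p - s⌋₊ : ℝ) < N := by linarith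
  exact_mod_cast h5

theorem absorb_a {s : ℝ} (hs : Dy s) (x : ℕ → Equiv.Perm ℝ) (hx : ∀ j, x j ∈ Sup s (s + 1))
    (N : ℕ) (hN : 1 ≤ N) : uu x N ∈ Sup (s + 1) (s + N + 1) ∧
    ∃ c ∈ Sup (s + 1) (s + N + 1), c * (uu x N * tr 1) * c⁻¹ = sh N (up x N) * tr 1 := by
  refine ⟨uu_mem10055 x hx N, ?_⟩
  set y : ℕ → Equiv.Perm ℝ := fun j => if j < N then (up x j)⁻¹ else 1 with hydef
  have hy : ∀ j, y j ∈ Sup s (s + 1) := by
    intro j
    simp only [hydef]
    split_ifs
    · exact (Sup _ _).inv_mem (up_mem10055 x hx j)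
    · exact (Sup _ _).one_mem
  have hy0 : y 0 = 1 := by
    simp only [hydef]
    rw [if_pos (by omega)]
    exact inv_one
  have hyN : y N = 1 := by
    simp only [hydef]
    rw [if_neg (by omega)]
  have hN' : (1 : ℝ) ≤ N := by exact_mod_cast hN
  refine ⟨uu y N, uu_mem10055 y hy N, ?_⟩
  rw [mul_inv_eq_iff_eq_mul]
  have hcout := (uu_mem10055 y hy N).2
  have huout := (uu_mem10055 x hx N).2
  have hvout := (sh_mem10055 N (up_mem10055 x hx N)).2
  refine Equiv.ext fun p => ?_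
  show uu y N (uu x N (tr 1 p)) = sh N (up x N) (tr 1 (uu y N p))
  rw [tr_apply, tr_apply]
  rcases le_or_gt s p with hp | hp
  · rcases lt_or_ge p (s + N) with hp2 | hp2
    · obtain ⟨i, hi, q, hq1, hq2, rfl⟩ := slot10055 hp hp2
      have e1 : q + (i : ℝ) + 1 = q + ((i + 1 : ℕ) : ℝ) := by push_cast; ring
      have hm := maps10055 (hx (i + 1)) hq1 hq2
      have hm2 := maps10055 (hy i) hq1 hq2
      rw [e1, uu_in10055 x hx N (i + 1) (by omega) (by omega) q hq1 hq2,
        uu_in10055 y hy N (i + 1) (by omega) (by omega) _ hm.1 hm.2,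
        uu_zero10055 y hy N hy0 i hi.le q hq1 hq2]
      have hyi : y i = (up x i)⁻¹ := by simp only [hydef]; rw [if_pos hi]
      rcases Nat.lt_or_ge (i + 1) N with hlt | hge
      · have hyi1 : y (i + 1) = (up x (i + 1))⁻¹ := by simp only [hydef]; rw [if_pos hlt]
        have h3 : y i q + (i : ℝ) + 1 ≤ s + N := by
          have : ((i + 1 : ℕ) : ℝ) + 1 ≤ N := by exact_mod_cast hlt
          push_cast at this
          linarith
        rw [hvout _ (Or.inl h3), hyi1, hyi]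
        have h4 : (up x (i + 1))⁻¹ (x (i + 1) q) = (up x i)⁻¹ q := by
          show (up x (i + 1))⁻¹ (x (i + 1) q) = (up x i)⁻¹ q
          rw [Equiv.Perm.inv_eq_iff_eq]
          show x (i + 1) q = x (i + 1) (up x i ((up x i)⁻¹ q))
          rw [inv_right]
        rw [h4]; push_cast; ring
      · have hiN : i + 1 = N := by omega
        have h5 : y i q + (i : ℝ) + 1 - N = y i q := by
          rw [← hiN]; push_cast; ring
        rw [sh_apply10055, h5, hiN, hyN, hyi]
        have h6 : up x N ((up x i)⁻¹ q) = x N q := by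
          rw [← hiN]
          show x (i + 1) (up x i ((up x i)⁻¹ q)) = x (i + 1) q
          rw [inv_right]
        rw [h6]
        rfl
    · have h1 : p + 1 ≥ s + N + 1 := by linarith
      rw [huout (p + 1) (Or.inr h1), hcout (p + 1) (Or.inr h1)]
      have h2 : uu y N p = p := by
        rcases le_or_gt (s + N + 1) p with h | h
        · exact hcout p (Or.inr h)
        · have h3 := uu_in10055 y hy N N hN le_rfl (p - N) (by linarith) (by linarith)
          rw [sub_add_cancel, hyN] at h3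
          rw [h3]
          show p - N + N = p
          ring
      rw [h2, hvout (p + 1) (Or.inr (by linarith))]
  · rw [huout (p + 1) (Or.inl (by linarith)), hcout (p + 1) (Or.inl (by linarith)),
      hcout p (Or.inl (by linarith)), hvout (p + 1) (Or.inl (by linarith))]

/-- the inverse products over one parity -/
noncomputable def yy10055 (x : ℕ → Equiv.Perm ℝ) (j : ℕ) : Equiv.Perm ℝ :=
  if j % 2 = 0 then (upe x (j / 2))⁻¹ else (upo x (j / 2 + 1))⁻¹

theorem yy_even10055 (x : ℕ → Equiv.Perm ℝ) (m : ℕ) : yy10055 x (2 * m) = (upe x m)⁻¹ := by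
  unfold yy10055
  rw [if_pos (by omega), show 2 * m / 2 = m by omega]

theorem yy_odd10055 (x : ℕ → Equiv.Perm ℝ) (m : ℕ) :
    yy10055 x (2 * m + 1) = (upo x (m + 1))⁻¹ := by
  unfold yy10055
  rw [if_neg (by omega), show (2 * m + 1) / 2 = m by omega]

theorem yy_step10055 (x : ℕ → Equiv.Perm ℝ) (j : ℕ) (q : ℝ) :
    yy10055 x (j + 2) (x (j + 2) q) = yy10055 x j q := by
  rcases Nat.even_or_odd' j with ⟨m, rfl | rfl⟩
  · rw [show 2 * m + 2 = 2 * (m + 1) by ring, yy_even10055, yy_even10055,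
      Equiv.Perm.inv_eq_iff_eq]
    show x (2 * (m + 1)) q = x (2 * m + 2) (upe x m ((upe x m)⁻¹ q))
    rw [inv_right]
    rfl
  · rw [show 2 * m + 1 + 2 = 2 * (m + 1) + 1 by ring, yy_odd10055, yy_odd10055,
      Equiv.Perm.inv_eq_iff_eq]
    show x (2 * (m + 1) + 1) q = x (2 * (m + 1) + 1) (upo x (m + 1) ((upo x (m + 1))⁻¹ q))
    rw [inv_right]

theorem absorb_b {s : ℝ} (hs : Dy s) (x : ℕ → Equiv.Perm ℝ) (hx : ∀ j, x j ∈ Sup s (s + 1))
    (k : ℕ) (he : upe x k = 1) (ho : upo x (k + 1) = 1) {b : Equiv.Perm ℝ} (hb : b ∈ PLH)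
    (hb2 : ∀ y, s ≤ y → y ≤ s + (2 * k + 1 : ℕ) → b y = y + 2) :
    ∃ c ∈ Sup (s + 1) (s + (2 * k + 1 : ℕ) + 1), c * (uu x (2 * k + 1) * b) * c⁻¹ = b := by
  have hy : ∀ j, yy10055 x j ∈ Sup s (s + 1) := by
    intro j
    unfold yy10055
    split_ifs
    · exact (Sup _ _).inv_mem (upe_mem10055 x hx _)
    · exact (Sup _ _).inv_mem (upo_mem10055 x hx _)
  have hy0 : yy10055 x 0 = 1 := by
    have := yy_even10055 x 0
    rw [mul_zero] at this
    rw [this]; exact inv_one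
  have hyN : yy10055 x (2 * k + 1) = 1 := by
    rw [yy_odd10055, ho]; exact inv_one
  have hyN1 : yy10055 x (2 * k) = 1 := by
    rw [yy_even10055, he]; exact inv_one
  have hy1 : ∀ q, yy10055 x 1 (x 1 q) = q := by
    intro q
    have h1 := yy_odd10055 x 0
    rw [mul_zero, zero_add] at h1
    rw [h1, Equiv.Perm.inv_eq_iff_eq]
    rfl
  refine ⟨uu (yy10055 x) (2 * k + 1), uu_mem10055 _ hy _, ?_⟩
  generalize hNdef : 2 * k + 1 = N at *
  have hN : 1 ≤ N := by omega
  have hN' : (1 : ℝ) ≤ N := by exact_mod_cast hN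
  rw [mul_inv_eq_iff_eq_mul]
  have hcout := (uu_mem10055 (yy10055 x) hy N).2
  have huout := (uu_mem10055 x hx N).2
  refine Equiv.ext fun p => ?_
  show uu (yy10055 x) N (uu x N (b p)) = b (uu (yy10055 x) N p)
  have hmono := hb.1.monotone
  rcases le_or_gt s p with hp | hp
  · rcases lt_or_ge p (s + N) with hp2 | hp2
    · obtain ⟨i, hi, q, hq1, hq2, rfl⟩ := slot10055 hp hp2
      have hm := maps10055 (hx (i + 2)) hq1 hq2
      have hm2 := maps10055 (hy i) hq1 hq2
      have hi' : (i : ℝ) + 1 ≤ N := by exact_mod_cast hi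
      have hi0 : (0 : ℝ) ≤ i := Nat.cast_nonneg i
      rw [uu_zero10055 _ hy N hy0 i hi.le q hq1 hq2, hb2 _ hp hp2.le,
        hb2 (yy10055 x i q + i) (by linarith) (by linarith)]
      rcases Nat.lt_or_ge N (i + 2) with hlt | hge
      · have hiN : i + 1 = N := by omega
        have h1 : q + (i : ℝ) + 2 ≥ s + N + 1 := by
          rw [← hiN]; push_cast; linarith
        rw [huout _ (Or.inr h1), hcout _ (Or.inr h1)]
        have h2 : i = 2 * k := by omega
        rw [h2, hyN1]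
        rfl
      · have e1 : q + (i : ℝ) + 2 = q + ((i + 2 : ℕ) : ℝ) := by push_cast; ring
        rw [e1, uu_in10055 x hx N (i + 2) (by omega) hge q hq1 hq2,
          uu_in10055 _ hy N (i + 2) (by omega) hge _ hm.1 hm.2, yy_step10055]
        push_cast; ring
    · have h2 : uu (yy10055 x) N p = p := by
        rcases le_or_gt (s + N + 1) p with h | h
        · exact hcout p (Or.inr h)
        · have h3 := uu_in10055 (yy10055 x) hy N N hN le_rfl (p - N) (by linarith) (by linarith)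
          rw [sub_add_cancel, hyN] at h3
          rw [h3]
          show p - N + N = p
          ring
      have h3 := hmono hp2
      rw [hb2 (s + N) (by linarith) le_rfl] at h3
      rw [h2, huout (b p) (Or.inr (by linarith)), hcout (b p) (Or.inr (by linarith))]
  · have h3 := hmono hp.le
    rw [hb2 s le_rfl (by linarith)] at h3
    rw [hcout p (Or.inl (by linarith))]
    rcases le_or_gt (b p) (s + 1) with h4 | h4
    · rw [huout (b p) (Or.inl h4), hcout (b p) (Or.inl h4)]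
    · have h5 : s ≤ b p - 1 := by linarith
      have h6 : b p - 1 ≤ s + 1 := by linarith
      have hm := maps10055 (hx 1) h5 h6
      have h7 := uu_in10055 x hx N 1 le_rfl hN (b p - 1) h5 h6
      rw [Nat.cast_one, sub_add_cancel] at h7
      have h8 := uu_in10055 (yy10055 x) hy N 1 le_rfl hN (x 1 (b p - 1)) hm.1 hm.2
      rw [Nat.cast_one, hy1] at h8
      rw [h7, h8]; ring



/-! #### f6 -/


/-- one-bump elements which are the translation by one near both ends -/
structure OB (f : Equiv.Perm ℝ) (L : ℝ) : Prop where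
  mem : f ∈ PLH
  left : ∀ x, x ≤ -L → f x = x + 1
  right : ∀ x, L ≤ x → f x = x + 1
  gt : ∀ x, x < f x

/-- the scattering map -/
def Scat (f M : Equiv.Perm ℝ) : Prop :=
  M ∈ TT ∧ ∃ L, OB f L ∧ ∀ x, x ≤ -L → ∀ n : ℕ, L ≤ (f ^ n) x → (f ^ n) x = M x + n

theorem pow_succ_apply_10065 (f : Equiv.Perm ℝ) (n : ℕ) (x : ℝ) :
    (f ^ (n + 1)) x = f ((f ^ n) x) := by
  rw [pow_succ', Equiv.Perm.mul_apply]

theorem pow_succ_apply2_10065 (f : Equiv.Perm ℝ) (n : ℕ) (x : ℝ) :
    (f ^ (n + 1)) x = (f ^ n) (f x) := by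
  rw [pow_succ, Equiv.Perm.mul_apply]

theorem PLat_congr_10065 {f g : ℝ → ℝ} {x δ : ℝ} (hδ : 0 < δ)
    (h : ∀ y, x - δ < y → y < x + δ → f y = g y) (hg : PLat g x) : PLat f x := by
  have hR : ∀ k c, RG g x k c → RG f x k c := by
    rintro k c ⟨hc, ε, hε, h1⟩
    refine ⟨hc, min ε δ, lt_min hε hδ, fun y hy1 hy2 => ?_⟩
    have e1 := min_le_left ε δ
    have e2 := min_le_right ε δ
    rw [h y (by linarith) (by linarith)]
    exact h1 y hy1 (by linarith)
  have hL : ∀ k c, LG g x k c → LG f x k c := by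
    rintro k c ⟨hc, ε, hε, h1⟩
    refine ⟨hc, min ε δ, lt_min hε hδ, fun y hy1 hy2 => ?_⟩
    have e1 := min_le_left ε δ
    have e2 := min_le_right ε δ
    rw [h y (by linarith) (by linarith)]
    exact h1 y (by linarith) hy2
  obtain ⟨⟨k1, c1, h1⟩, ⟨k2, c2, h2⟩, h3⟩ := hg
  refine ⟨⟨k1, c1, hR _ _ h1⟩, ⟨k2, c2, hL _ _ h2⟩, fun hx => ?_⟩
  obtain ⟨k, c, h4, h5⟩ := h3 hx
  exact ⟨k, c, hR _ _ h4, hL _ _ h5⟩

theorem pow_mono_10065 {f : Equiv.Perm ℝ} (hf : f ∈ PLH) (n : ℕ) : StrictMono (f ^ n : Equiv.Perm ℝ) :=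
  (PLH.pow_mem hf n).1

theorem le_pow_10065 {f : Equiv.Perm ℝ} (hf : ∀ x, x < f x) (n : ℕ) (x : ℝ) : x ≤ (f ^ n) x := by
  induction n with
  | zero => simp
  | succ n ih => rw [pow_succ_apply_10065]; exact ih.trans (hf _).le

theorem pow_le_pow_10065 {f : Equiv.Perm ℝ} (hf : ∀ x, x < f x) {m n : ℕ} (hmn : m ≤ n) (x : ℝ) :
    (f ^ m) x ≤ (f ^ n) x := by
  obtain ⟨k, rfl⟩ := Nat.exists_eq_add_of_le hmn
  rw [add_comm, pow_add, Equiv.Perm.mul_apply]
  exact le_pow_10065 hf k _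

open Filter Topology in
theorem reach_up_10065 {f : Equiv.Perm ℝ} (hf : f ∈ PLH) (hgt : ∀ x, x < f x) (L x : ℝ) :
    ∃ n : ℕ, L ≤ (f ^ n) x := by
  by_contra hcon
  push Not at hcon
  have hcont : Continuous f := PLf.cont hf.2
  have hmono : Monotone (fun n : ℕ => (f ^ n) x) := fun m n hmn => pow_le_pow_10065 hgt hmn x
  have hbdd : BddAbove (Set.range (fun n : ℕ => (f ^ n) x)) := by
    refine ⟨L, ?_⟩
    rintro _ ⟨n, rfl⟩
    exact (hcon n).le
  have h1 := tendsto_atTop_ciSup hmono hbdd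
  set p := ⨆ n : ℕ, (f ^ n) x with hp
  have h2 : Tendsto (fun n : ℕ => (f ^ (n + 1)) x) atTop (𝓝 p) := h1.comp (tendsto_add_atTop_nat 1)
  have h3 : Tendsto (fun n : ℕ => f ((f ^ n) x)) atTop (𝓝 (f p)) := (hcont.tendsto p).comp h1
  have h4 : (fun n : ℕ => (f ^ (n + 1)) x) = fun n : ℕ => f ((f ^ n) x) := by
    funext n; exact pow_succ_apply_10065 f n x
  rw [h4] at h2
  exact absurd (tendsto_nhds_unique h2 h3) (hgt p).ne

open Filter Topology in
theorem reach_down_10065 {f : Equiv.Perm ℝ} (hf : f ∈ PLH) (hgt : ∀ x, x < f x) (L x : ℝ) :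
    ∃ n : ℕ, (f⁻¹ ^ n) x ≤ L := by
  by_contra hcon
  push Not at hcon
  have hf' := PLH.inv_mem hf
  have hcont : Continuous (f⁻¹ : Equiv.Perm ℝ) := PLf.cont hf'.2
  have hlt : ∀ y, f⁻¹ y < y := fun y => by
    have := hgt (f⁻¹ y)
    rwa [inv_right] at this
  have hanti : Antitone (fun n : ℕ => (f⁻¹ ^ n) x) := by
    refine antitone_nat_of_succ_le fun n => ?_
    rw [pow_succ_apply_10065]
    exact (hlt _).le
  have hbdd : BddBelow (Set.range (fun n : ℕ => (f⁻¹ ^ n) x)) := by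
    refine ⟨L, ?_⟩
    rintro _ ⟨n, rfl⟩
    exact (hcon n).le
  have h1 := tendsto_atTop_ciInf hanti hbdd
  set p := ⨅ n : ℕ, (f⁻¹ ^ n) x with hp
  have h2 : Tendsto (fun n : ℕ => (f⁻¹ ^ (n + 1)) x) atTop (𝓝 p) :=
    h1.comp (tendsto_add_atTop_nat 1)
  have h3 : Tendsto (fun n : ℕ => f⁻¹ ((f⁻¹ ^ n) x)) atTop (𝓝 (f⁻¹ p)) := (hcont.tendsto p).comp h1
  have h4 : (fun n : ℕ => (f⁻¹ ^ (n + 1)) x) = fun n : ℕ => f⁻¹ ((f⁻¹ ^ n) x) := by
    funext n; exact pow_succ_apply_10065 _ n x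
  rw [h4] at h2
  exact absurd (tendsto_nhds_unique h2 h3).symm (hlt p).ne

theorem OB_mono_10065 {f : Equiv.Perm ℝ} {L L' : ℝ} (h : OB f L) (hL : L ≤ L') : OB f L' :=
  ⟨h.mem, fun x hx => h.left x (by linarith), fun x hx => h.right x (by linarith), h.gt⟩

/-- value computed from the pair `(j, n)` -/
noncomputable def VV_10065 (f : Equiv.Perm ℝ) (x : ℝ) (j n : ℕ) : ℝ := (f ^ n) (x - j) - n + j

theorem VV_n_10065 {f : Equiv.Perm ℝ} {L : ℝ} (h : OB f L) {x : ℝ} {j n : ℕ}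
    (h2 : L ≤ (f ^ n) (x - j)) (k : ℕ) : VV_10065 f x j (n + k) = VV_10065 f x j n := by
  induction k with
  | zero => rfl
  | succ k ih =>
    rw [← ih]
    have h3 : L ≤ (f ^ (n + k)) (x - j) :=
      h2.trans (pow_le_pow_10065 h.gt (Nat.le_add_right n k) _)
    unfold VV_10065
    rw [← add_assoc, pow_succ_apply_10065, h.right _ h3]
    push_cast
    ring

theorem VV_j_10065 {f : Equiv.Perm ℝ} {L : ℝ} (h : OB f L) {x : ℝ} {j n : ℕ}
    (h1 : x - j ≤ -L) (k : ℕ) : VV_10065 f x (j + k) (n + k) = VV_10065 f x j n ∧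
      (f ^ (n + k)) (x - ((j + k : ℕ) : ℝ)) = (f ^ n) (x - j) := by
  have key : (f ^ (n + k)) (x - ((j + k : ℕ) : ℝ)) = (f ^ n) (x - j) := by
    induction k with
    | zero => simp
    | succ k ih =>
      rw [← ih, ← add_assoc, pow_succ_apply2_10065]
      have h3 : x - ((j + (k + 1) : ℕ) : ℝ) ≤ -L := by
        push_cast
        have : (0 : ℝ) ≤ k := Nat.cast_nonneg k
        linarith
      rw [h.left _ h3]
      congr 1
      push_cast
      ring
  refine ⟨?_, key⟩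
  unfold VV_10065
  rw [key]
  push_cast
  ring

theorem VV_unique_10065 {f : Equiv.Perm ℝ} {L : ℝ} (h : OB f L) {x : ℝ} {j n j' n' : ℕ}
    (h1 : x - j ≤ -L) (h2 : L ≤ (f ^ n) (x - j)) (h1' : x - j' ≤ -L)
    (h2' : L ≤ (f ^ n') (x - j')) : VV_10065 f x j n = VV_10065 f x j' n' := by
  have key : ∀ j j' n n' : ℕ, j ≤ j' → x - (j : ℝ) ≤ -L → L ≤ (f ^ n) (x - j) →
      x - (j' : ℝ) ≤ -L → L ≤ (f ^ n') (x - j') → VV_10065 f x j n = VV_10065 f x j' n' := by
    intro j j' n n' hjj a1 a2 a3 a4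
    obtain ⟨k, rfl⟩ := Nat.exists_eq_add_of_le hjj
    obtain ⟨e1, e2⟩ := VV_j_10065 h (n := n) a1 k
    rw [← e1]
    have a5 : L ≤ (f ^ (n + k)) (x - ((j + k : ℕ) : ℝ)) := by rw [e2]; exact a2
    rcases le_total (n + k) n' with hn | hn
    · obtain ⟨d, rfl⟩ := Nat.exists_eq_add_of_le hn
      exact (VV_n_10065 h a5 d).symm
    · obtain ⟨d, hd⟩ := Nat.exists_eq_add_of_le hn
      rw [hd]
      exact VV_n_10065 h a4 d
  rcases le_total j j' with hj | hj
  · exact key j j' n n' hj h1 h2 h1' h2'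
  · exact (key j' j n' n hj h1' h2' h1 h2).symm

theorem exists_valid_10065 {f : Equiv.Perm ℝ} {L : ℝ} (h : OB f L) (x y : ℝ) (hxy : x ≤ y) :
    ∃ j n : ℕ, ∀ z, x ≤ z → z ≤ y → z - j ≤ -L ∧ L ≤ (f ^ n) (z - j) := by
  obtain ⟨j, hj⟩ := exists_nat_ge (y + L)
  obtain ⟨n, hn⟩ := reach_up_10065 h.mem h.gt L (x - j)
  refine ⟨j, n, fun z hz1 hz2 => ⟨by linarith, hn.trans ?_⟩⟩
  exact (pow_mono_10065 h.mem n).monotone (by linarith)

theorem exists_scat {f : Equiv.Perm ℝ} {L : ℝ} (h : OB f L) : ∃ M, Scat f M := by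
  classical
  have hval := fun x => exists_valid_10065 h x x le_rfl
  choose j n hjn using hval
  set M0 : ℝ → ℝ := fun x => VV_10065 f x (j x) (n x) with hM0
  have hM : ∀ (x : ℝ) (j' n' : ℕ), x - j' ≤ -L → L ≤ (f ^ n') (x - j') →
      M0 x = VV_10065 f x j' n' := fun x j' n' h1 h2 =>
    VV_unique_10065 h (hjn x x le_rfl le_rfl).1 (hjn x x le_rfl le_rfl).2 h1 h2
  have hmono : StrictMono M0 := by
    intro x y hxy
    obtain ⟨j', n', hv⟩ := exists_valid_10065 h x y hxy.le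
    rw [hM x j' n' (hv x le_rfl hxy.le).1 (hv x le_rfl hxy.le).2,
      hM y j' n' (hv y hxy.le le_rfl).1 (hv y hxy.le le_rfl).2]
    unfold VV_10065
    have := pow_mono_10065 h.mem n' (show x - (j' : ℝ) < y - j' by linarith)
    linarith
  have hper : ∀ x, M0 (x + 1) = M0 x + 1 := by
    intro x
    obtain ⟨j', n', hv⟩ := exists_valid_10065 h x x le_rfl
    obtain ⟨h1, h2⟩ := hv x le_rfl le_rfl
    have e : x + 1 - ((j' + 1 : ℕ) : ℝ) = x - j' := by push_cast; ring
    rw [hM x j' n' h1 h2, hM (x + 1) (j' + 1) n' (by rw [e]; exact h1) (by rw [e]; exact h2)]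
    unfold VV_10065
    rw [e]
    push_cast
    ring
  have hPL : PLf M0 := by
    intro x
    obtain ⟨j', n', hv⟩ := exists_valid_10065 h (x - 1) (x + 1) (by linarith)
    have hmem : (tr ((j' : ℝ) - n') * f ^ n' * tr (-(j' : ℝ))) ∈ PLH :=
      PLH.mul_mem (PLH.mul_mem (tr_mem ((Dy.nat j').sub (Dy.nat n'))) (PLH.pow_mem h.mem n'))
        (tr_mem (Dy.nat j').neg)
    refine PLat_congr_10065 (δ := 1) one_pos (fun y hy1 hy2 => ?_) (hmem.2 x)
    obtain ⟨h1, h2⟩ := hv y hy1.le hy2.le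
    rw [hM y j' n' h1 h2, Equiv.Perm.mul_apply, Equiv.Perm.mul_apply, tr_apply, tr_apply]
    unfold VV_10065
    rw [← sub_eq_add_neg]
    ring
  have hsurj : Function.Surjective M0 := by
    intro y
    have hnat : ∀ k : ℕ, M0 (0 + k) = M0 0 + k ∧ M0 (0 - k) = M0 0 - k := by
      intro k
      induction k with
      | zero => simp
      | succ k ih =>
        constructor
        · have : (0 : ℝ) + ((k + 1 : ℕ) : ℝ) = (0 + k) + 1 := by push_cast; ring
          rw [this, hper, ih.1]; push_cast; ring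
        · have := hper (0 - ((k + 1 : ℕ) : ℝ))
          have e : (0 : ℝ) - ((k + 1 : ℕ) : ℝ) + 1 = 0 - k := by push_cast; ring
          rw [e, ih.2] at this
          push_cast at this ⊢
          linarith
    obtain ⟨k, hk⟩ := exists_nat_ge |y - M0 0|
    have hk' := abs_le.1 hk
    refine mem_range_of_exists_le_of_exists_ge (PLf.cont hPL) ⟨0 - k, ?_⟩ ⟨0 + k, ?_⟩
    · rw [(hnat k).2]; linarith [hk'.1]
    · rw [(hnat k).1]; linarith [hk'.2]
  let M : Equiv.Perm ℝ := Equiv.ofBijective M0 ⟨hmono.injective, hsurj⟩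
  have hMM : ∀ x, M x = M0 x := fun x => rfl
  refine ⟨M, ⟨⟨hmono, hPL⟩, hper⟩, L, h, fun x hx n hn => ?_⟩
  rw [hMM, hM x 0 n (by simpa using hx) (by simpa using hn)]
  unfold VV_10065
  simp

/-- the value `f'^k (f^{-k} x)` does not depend on `k` -/
theorem cc_10065 {f f' : Equiv.Perm ℝ} {L : ℝ} (h : OB f L) (h' : OB f' L) {x : ℝ} {k : ℕ}
    (h1 : (f⁻¹ ^ k) x ≤ -L) (d : ℕ) :
    (f⁻¹ ^ (k + d)) x ≤ -L ∧ (f' ^ (k + d)) ((f⁻¹ ^ (k + d)) x) = (f' ^ k) ((f⁻¹ ^ k) x) := by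
  induction d with
  | zero => exact ⟨h1, rfl⟩
  | succ d ih =>
    obtain ⟨a1, a2⟩ := ih
    have e1 : (f⁻¹ ^ (k + (d + 1))) x = (f⁻¹ ^ (k + d)) x - 1 := by
      rw [← add_assoc, pow_succ_apply_10065]
      have h3 := h.left ((f⁻¹ ^ (k + d)) x - 1) (by linarith)
      have h4 : f⁻¹ (f ((f⁻¹ ^ (k + d)) x - 1)) = (f⁻¹ ^ (k + d)) x - 1 := inv_left f _
      rw [h3, sub_add_cancel] at h4
      exact h4
    refine ⟨by rw [e1]; linarith, ?_⟩
    rw [e1, ← a2, ← add_assoc, pow_succ_apply2_10065, h'.left _ (by linarith), sub_add_cancel]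

theorem cc_unique_10065 {f f' : Equiv.Perm ℝ} {L : ℝ} (h : OB f L) (h' : OB f' L) {x : ℝ}
    {k k' : ℕ} (h1 : (f⁻¹ ^ k) x ≤ -L) (h2 : (f⁻¹ ^ k') x ≤ -L) :
    (f' ^ k) ((f⁻¹ ^ k) x) = (f' ^ k') ((f⁻¹ ^ k') x) := by
  rcases le_total k k' with hk | hk
  · obtain ⟨d, rfl⟩ := Nat.exists_eq_add_of_le hk
    exact (cc_10065 h h' h1 d).2.symm
  · obtain ⟨d, rfl⟩ := Nat.exists_eq_add_of_le hk
    exact (cc_10065 h h' h2 d).2

theorem inv_pow_10065 (f : Equiv.Perm ℝ) (k : ℕ) (x : ℝ) : (f⁻¹ ^ k) ((f ^ k) x) = x := by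
  rw [inv_pow, inv_left]

theorem inv_pow2_10065 (f : Equiv.Perm ℝ) (k : ℕ) (x : ℝ) : (f ^ k) ((f⁻¹ ^ k) x) = x := by
  rw [inv_pow, inv_right]

/-- equal scattering maps up to an integer give conjugate elements -/
theorem scat_conj {f f' M M' : Equiv.Perm ℝ} (h : Scat f M) (h' : Scat f' M') (m : ℤ)
    (hm : ∀ x, M x = M' x + m) : ∃ c ∈ FZ, c * f * c⁻¹ = f' := by
  classical
  obtain ⟨hMT, L1, hO1, hS1⟩ := h
  obtain ⟨hMT', L2, hO2, hS2⟩ := h'
  set L := max L1 L2 with hL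
  have hf : OB f L := OB_mono_10065 hO1 (le_max_left _ _)
  have hf' : OB f' L := OB_mono_10065 hO2 (le_max_right _ _)
  have hL1 : L1 ≤ L := le_max_left _ _
  have hL2 : L2 ≤ L := le_max_right _ _
  have hv := fun x => reach_down_10065 hf.mem hf.gt (-L) x
  have hv' := fun x => reach_down_10065 hf'.mem hf'.gt (-L) x
  choose k hk using hv
  choose k' hk' using hv'
  set c0 : ℝ → ℝ := fun x => (f' ^ (k x)) ((f⁻¹ ^ (k x)) x) with hc0
  set c1 : ℝ → ℝ := fun x => (f ^ (k' x)) ((f'⁻¹ ^ (k' x)) x) with hc1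
  have hc : ∀ x n, (f⁻¹ ^ n) x ≤ -L → c0 x = (f' ^ n) ((f⁻¹ ^ n) x) := fun x n h =>
    cc_unique_10065 hf hf' (hk x) h
  have hc' : ∀ x n, (f'⁻¹ ^ n) x ≤ -L → c1 x = (f ^ n) ((f'⁻¹ ^ n) x) := fun x n h =>
    cc_unique_10065 hf' hf (hk' x) h
  have hleft : Function.LeftInverse c1 c0 := by
    intro x
    have e1 : (f'⁻¹ ^ (k x)) (c0 x) = (f⁻¹ ^ (k x)) x := inv_pow_10065 f' (k x) _
    rw [hc' (c0 x) (k x) (by rw [e1]; exact hk x), e1, inv_pow2_10065]
  have hright : Function.RightInverse c1 c0 := by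
    intro x
    have e1 : (f⁻¹ ^ (k' x)) (c1 x) = (f'⁻¹ ^ (k' x)) x := inv_pow_10065 f (k' x) _
    rw [hc (c1 x) (k' x) (by rw [e1]; exact hk' x), e1, inv_pow2_10065]
  let c : Equiv.Perm ℝ := ⟨c0, c1, hleft, hright⟩
  have hcc : ∀ x, c x = c0 x := fun x => rfl
  have hvm : ∀ n : ℕ, StrictMono (f⁻¹ ^ n : Equiv.Perm ℝ) := fun n =>
    pow_mono_10065 (PLH.inv_mem hf.mem) n
  have hmono : StrictMono c0 := by
    intro x y hxy
    have h1 : (f⁻¹ ^ (k y)) x ≤ -L := ((hvm (k y)) hxy).le.trans (hk y)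
    rw [hc x (k y) h1, hc y (k y) (hk y)]
    exact pow_mono_10065 hf'.mem _ (hvm (k y) hxy)
  have hPL : PLf c0 := by
    intro x
    have hmem : (f' ^ (k (x + 1)) * f⁻¹ ^ (k (x + 1))) ∈ PLH :=
      PLH.mul_mem (PLH.pow_mem hf'.mem _) (PLH.pow_mem (PLH.inv_mem hf.mem) _)
    refine PLat_congr_10065 (δ := 1) one_pos (fun y hy1 hy2 => ?_) (hmem.2 x)
    rw [hc y (k (x + 1)) (((hvm _) hy2).le.trans (hk (x + 1))), Equiv.Perm.mul_apply]
  have hcomm : ∀ x, c0 (f x) = f' (c0 x) := by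
    intro x
    have e1 : (f⁻¹ ^ (k x + 1)) (f x) = (f⁻¹ ^ (k x)) x := by
      rw [pow_succ_apply2_10065, inv_left]
    rw [hc (f x) (k x + 1) (by rw [e1]; exact hk x), e1, pow_succ_apply_10065]
  refine ⟨c, ⟨⟨hmono, hPL⟩, ⟨0, -L, fun x hx => ?_⟩, ⟨-m, max L (c⁻¹ L), fun x hx => ?_⟩⟩, ?_⟩
  · rw [hcc, hc x 0 (by simpa using hx)]
    simp
  · have hx1 : L ≤ x := (le_max_left _ _).trans hx
    have hx2 : L ≤ c0 x := by
      have h1 : c⁻¹ L ≤ x := (le_max_right _ _).trans hx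
      have h2 := hmono.monotone h1
      have h3 : c0 (c⁻¹ L) = L := inv_right c L
      rwa [h3] at h2
    rw [hcc]
    set z := (f⁻¹ ^ (k x)) x with hz
    have hzL : z ≤ -L := hk x
    have e1 : (f ^ (k x)) z = x := inv_pow2_10065 f (k x) x
    have e2 : (f' ^ (k x)) z = c0 x := rfl
    have s1 := hS1 z (by linarith) (k x) (by rw [e1]; linarith)
    have s2 := hS2 z (by linarith) (k x) (by rw [e2]; linarith)
    rw [e1, hm] at s1
    rw [e2] at s2
    push_cast
    linarith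
  · ext x
    rw [Equiv.Perm.mul_apply, Equiv.Perm.mul_apply, hcc, hcomm]
    congr 1
    exact inv_right c x

theorem TT_nat_10065 {M : Equiv.Perm ℝ} (hM : M ∈ TT) (x : ℝ) (k : ℕ) : M (x + k) = M x + k := by
  induction k with
  | zero => simp
  | succ k ih =>
    have : x + ((k + 1 : ℕ) : ℝ) = (x + k) + 1 := by push_cast; ring
    rw [this, hM.2, ih]; push_cast; ring

theorem scat_mul {s s' : ℝ} (hs : Dy s) (hs' : Dy s') (hss : s + 1 ≤ s')
    {v v' M M' : Equiv.Perm ℝ} (hv : v ∈ Sup s (s + 1)) (hv' : v' ∈ Sup s' (s' + 1))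
    (hM : M ∈ TT) (hM' : M' ∈ TT) (h : ∀ x, s ≤ x → x ≤ s + 1 → M x = v x)
    (h' : ∀ x, s' ≤ x → x ≤ s' + 1 → M' x = v' x) : Scat (v' * v * tr 1) (M' * M) := by
  refine ⟨TT.mul_mem hM' hM, ?_⟩
  set f : Equiv.Perm ℝ := v' * v * tr 1 with hf
  have hfx : ∀ x, f x = v' (v (x + 1)) := by
    intro x
    rw [hf, Equiv.Perm.mul_apply, Equiv.Perm.mul_apply, tr_apply]
  have hfmem : f ∈ PLH := PLH.mul_mem (PLH.mul_mem hv'.1 hv.1) (tr_mem Dy.one)
  have hvs : v s = s := hv.2 s (Or.inl le_rfl)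
  have hvs1 : v (s + 1) = s + 1 := hv.2 _ (Or.inr le_rfl)
  have hvs' : v' s' = s' := hv'.2 s' (Or.inl le_rfl)
  have hvs1' : v' (s' + 1) = s' + 1 := hv'.2 _ (Or.inr le_rfl)
  have hgt : ∀ x, x < f x := by
    intro x
    rw [hfx]
    by_cases h1 : x + 1 ≤ s
    · rw [hv.2 _ (Or.inl h1), hv'.2 _ (Or.inl (by linarith))]; linarith
    · rw [not_le] at h1
      by_cases h2 : x + 1 ≤ s + 1
      · have a1 : v (x + 1) ≤ s + 1 := by
          have := hv.1.1.monotone h2
          rwa [hvs1] at this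
        have a2 : s < v (x + 1) := by
          have := hv.1.1 h1
          rwa [hvs] at this
        rw [hv'.2 _ (Or.inl (by linarith))]
        linarith
      · rw [not_le] at h2
        rw [hv.2 _ (Or.inr h2.le)]
        by_cases h3 : x + 1 ≤ s'
        · rw [hv'.2 _ (Or.inl h3)]; linarith
        · rw [not_le] at h3
          by_cases h4 : x + 1 ≤ s' + 1
          · have := hv'.1.1 h3
            rw [hvs'] at this
            linarith
          · rw [not_le] at h4
            rw [hv'.2 _ (Or.inr h4.le)]; linarith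
  set L := max (s' + 1) (1 - s) with hL
  have hLa : s' + 1 ≤ L := le_max_left _ _
  have hLb : 1 - s ≤ L := le_max_right _ _
  refine ⟨L, ⟨hfmem, fun x hx => ?_, fun x hx => ?_, hgt⟩, fun x hx n hn => ?_⟩
  · rw [hfx, hv.2 _ (Or.inl (by linarith)), hv'.2 _ (Or.inl (by linarith))]
  · rw [hfx, hv.2 _ (Or.inr (by linarith)), hv'.2 _ (Or.inr (by linarith))]
  · -- phase A
    have hA : ∀ j : ℕ, x + j ≤ s → (f ^ j) x = x + j := by
      intro j
      induction j with
      | zero => intro _; simp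
      | succ j ih =>
        intro hj
        push_cast at hj
        have hj1 : x + (j : ℝ) ≤ s := by linarith
        rw [pow_succ_apply_10065, ih hj1, hfx, hv.2 _ (Or.inl (by linarith)),
          hv'.2 _ (Or.inl (by linarith))]
        push_cast; ring
    have hsx : 0 ≤ s - x := by linarith
    set i0 := ⌊s - x⌋₊ with hi0
    have i1 : (i0 : ℝ) ≤ s - x := Nat.floor_le hsx
    have i2 : s - x < (i0 : ℝ) + 1 := Nat.lt_floor_add_one _
    have hB : (f ^ (i0 + 1)) x = M x + ((i0 + 1 : ℕ) : ℝ) ∧ s < M x + ((i0 + 1 : ℕ) : ℝ) ∧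
        M x + ((i0 + 1 : ℕ) : ℝ) ≤ s + 1 := by
      have e1 : M (x + ((i0 + 1 : ℕ) : ℝ)) = v (x + ((i0 + 1 : ℕ) : ℝ)) := by
        apply h <;> push_cast <;> linarith
      rw [TT_nat_10065 hM] at e1
      have e2 : s < v (x + ((i0 + 1 : ℕ) : ℝ)) := by
        have := hv.1.1 (show s < x + ((i0 + 1 : ℕ) : ℝ) by push_cast; linarith)
        rwa [hvs] at this
      have e3 : v (x + ((i0 + 1 : ℕ) : ℝ)) ≤ s + 1 := by
        have := hv.1.1.monotone (show x + ((i0 + 1 : ℕ) : ℝ) ≤ s + 1 by push_cast; linarith)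
        rwa [hvs1] at this
      have e4 : x + (i0 : ℝ) + 1 = x + ((i0 + 1 : ℕ) : ℝ) := by push_cast; ring
      refine ⟨?_, by rw [e1]; exact e2, by rw [e1]; exact e3⟩
      rw [pow_succ_apply_10065, hA i0 (by linarith), hfx, e4, e1, hv'.2 _ (Or.inl (by linarith))]
    obtain ⟨hB1, hB2, hB3⟩ := hB
    set y1 := M x + ((i0 + 1 : ℕ) : ℝ) with hy1
    -- phase C
    have hC : ∀ j : ℕ, y1 + j ≤ s' → (f ^ (i0 + 1 + j)) x = y1 + j := by
      intro j
      induction j with
      | zero => intro _; simpa using hB1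
      | succ j ih =>
        intro hj
        push_cast at hj
        have hj0 : (0 : ℝ) ≤ j := Nat.cast_nonneg j
        rw [← add_assoc, pow_succ_apply_10065, ih (by linarith), hfx,
          hv.2 _ (Or.inr (by linarith)), hv'.2 _ (Or.inl (by linarith))]
        push_cast; ring
    have hsy : 0 ≤ s' - y1 := by linarith
    set j0 := ⌊s' - y1⌋₊ with hj0
    have j1 : (j0 : ℝ) ≤ s' - y1 := Nat.floor_le hsy
    have j2 : s' - y1 < (j0 : ℝ) + 1 := Nat.lt_floor_add_one _
    have j3 : (0 : ℝ) ≤ j0 := Nat.cast_nonneg _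
    set N := i0 + 1 + j0 + 1 with hN
    have hNc : (N : ℝ) = (i0 : ℝ) + 1 + j0 + 1 := by rw [hN]; push_cast; ring
    have hD0 : (f ^ N) x = M' (M x) + N ∧ s' < M' (M x) + N := by
      have e1 : y1 + (j0 : ℝ) + 1 = M x + (N : ℝ) := by
        rw [hy1, hNc]; push_cast; ring
      have e2 : M' (M x + (N : ℝ)) = v' (M x + (N : ℝ)) := by
        apply h' <;> rw [← e1] <;> linarith
      rw [TT_nat_10065 hM'] at e2
      have e3 : s' < v' (M x + (N : ℝ)) := by
        have := hv'.1.1 (show s' < M x + (N : ℝ) by rw [← e1]; linarith)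
        rwa [hvs'] at this
      refine ⟨?_, by rw [e2]; exact e3⟩
      rw [hN, pow_succ_apply_10065, hC j0 (by linarith), hfx, hv.2 _ (Or.inr (by linarith)), e1,
        ← hN, e2]
    have hD : ∀ j : ℕ, (f ^ (N + j)) x = M' (M x) + ((N + j : ℕ) : ℝ) := by
      intro j
      induction j with
      | zero => simpa using hD0.1
      | succ j ih =>
        have hj0 : (0 : ℝ) ≤ j := Nat.cast_nonneg j
        have h3 := hD0.2
        rw [← add_assoc, pow_succ_apply_10065, ih, hfx]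
        push_cast
        rw [hv.2 _ (Or.inr (by linarith)), hv'.2 _ (Or.inr (by linarith))]
        ring
    have hnN : N ≤ n := by
      by_contra hlt
      rw [not_le] at hlt
      have h3 : (f ^ n) x ≤ (f ^ (i0 + 1 + j0)) x := pow_le_pow_10065 hgt (by omega) x
      rw [hC j0 (by linarith)] at h3
      linarith
    obtain ⟨d, rfl⟩ := Nat.exists_eq_add_of_le hnN
    rw [hD d, Equiv.Perm.mul_apply]


/-! #### f7 -/


/-- `e` is the identity near `s` -/
def IdNear (e : ℝ → ℝ) (s : ℝ) : Prop := ∃ ε > 0, ∀ x, s - ε < x → x < s + ε → e x = x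

theorem RG_congr10071 {f g : ℝ → ℝ} {x : ℝ} {k : ℤ} {c : ℝ} (h : RG f x k c) {η : ℝ}
    (hη : 0 < η) (hg : ∀ y, x ≤ y → y < x + η → g y = f y) : RG g x k c := by
  obtain ⟨hc, ε, hε, hf⟩ := h
  refine ⟨hc, min ε η, lt_min hε hη, fun y h1 h2 => ?_⟩
  rw [hg y h1 (by linarith [min_le_right ε η]), hf y h1 (by linarith [min_le_left ε η])]

theorem LG_congr10071 {f g : ℝ → ℝ} {x : ℝ} {k : ℤ} {c : ℝ} (h : LG f x k c) {η : ℝ}
    (hη : 0 < η) (hg : ∀ y, x - η < y → y ≤ x → g y = f y) : LG g x k c := by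
  obtain ⟨hc, ε, hε, hf⟩ := h
  refine ⟨hc, min ε η, lt_min hε hη, fun y h1 h2 => ?_⟩
  rw [hg y (by linarith [min_le_right ε η]) h2, hf y (by linarith [min_le_left ε η]) h2]

/-- periodic extension of a function from `[s, s + 1)` -/
noncomputable def per10071 (e : ℝ → ℝ) (s x : ℝ) : ℝ := e (x - ⌊x - s⌋) + ⌊x - s⌋

theorem per_eq10071 (e : ℝ → ℝ) (s x : ℝ) (k : ℤ) (h1 : s + k ≤ x) (h2 : x < s + k + 1) :
    per10071 e s x = e (x - k) + k := by
  have h : ⌊x - s⌋ = k := Int.floor_eq_iff.2 ⟨by linarith, by linarith⟩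
  unfold per10071
  rw [h]

theorem exk10071 (s x : ℝ) : ∃ k : ℤ, s + k ≤ x ∧ x < s + k + 1 :=
  ⟨⌊x - s⌋, by linarith [Int.floor_le (x - s)], by linarith [Int.lt_floor_add_one (x - s)]⟩

theorem per_inv10071 (e : Equiv.Perm ℝ) (he : StrictMono e) (s : ℝ) (hs : e (s + 1) = e s + 1)
    (x : ℝ) : per10071 (e⁻¹ : Equiv.Perm ℝ) (e s) (per10071 e s x) = x := by
  obtain ⟨k, h1, h2⟩ := exk10071 s x
  have h3 : e s ≤ e (x - k) := he.monotone (by linarith)
  have h4 : e (x - k) < e s + 1 := by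
    rw [← hs]
    exact he (by linarith)
  rw [per_eq10071 e s x k h1 h2, per_eq10071 _ (e s) _ k (by linarith) (by linarith)]
  rw [add_sub_cancel_right, inv_left]
  ring

/-- the periodic extension as a permutation -/
noncomputable def perE10071 (e : Equiv.Perm ℝ) (he : e ∈ PLH) (s : ℝ) (hs : e (s + 1) = e s + 1) :
    Equiv.Perm ℝ where
  toFun := per10071 e s
  invFun := per10071 (e⁻¹ : Equiv.Perm ℝ) (e s)
  left_inv := per_inv10071 e (mem_PLH.1 he).1 s hs
  right_inv := by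
    intro y
    have h1 : (e⁻¹ : Equiv.Perm ℝ) (e s + 1) = (e⁻¹ : Equiv.Perm ℝ) (e s) + 1 := by
      rw [← hs, inv_left, inv_left]
    have h2 := per_inv10071 e⁻¹ (mem_PLH.1 (PLH.inv_mem he)).1 (e s) h1 y
    rw [inv_inv, inv_left] at h2
    exact h2

theorem shift10071 {e : Equiv.Perm ℝ} (he : e ∈ PLH) (k : ℤ) (x : ℝ) :
    PLat (fun y => e (y - k) + k) x := by
  have h1 : tr k * e * tr (-k) ∈ PLH :=
    PLH.mul_mem (PLH.mul_mem (tr_mem (Dy.int k)) he) (tr_mem (Dy.neg (Dy.int k)))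
  have h2 := (mem_PLH.1 h1).2 x
  have h3 : (⇑(tr k * e * tr (-k)) : ℝ → ℝ) = fun y => e (y - k) + k := by
    funext y
    show e (y + -(k : ℝ)) + k = e (y - k) + k
    rw [sub_eq_add_neg]
  rw [h3] at h2
  exact h2

theorem per_TT10071 {e : Equiv.Perm ℝ} (he : e ∈ PLH) {s : ℝ} (hsd : Dy s)
    (hs : e (s + 1) = e s + 1) :
    ∃ E ∈ TT, ∀ x, s ≤ x → x ≤ s + 1 → E x = e x := by
  have hmono := (mem_PLH.1 he).1
  refine ⟨perE10071 e he s hs, ?_, ?_⟩
  · rw [mem_TT, mem_PLH]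
    refine ⟨⟨?_, ?_⟩, ?_⟩
    · intro x x' hxx
      show per10071 e s x < per10071 e s x'
      obtain ⟨k, h1, h2⟩ := exk10071 s x
      obtain ⟨k', h1', h2'⟩ := exk10071 s x'
      rw [per_eq10071 e s x k h1 h2, per_eq10071 e s x' k' h1' h2']
      have hkk : k ≤ k' := by
        by_contra hcon
        push Not at hcon
        have h3 : (k' : ℝ) + 1 ≤ k := by exact_mod_cast hcon
        linarith
      rcases eq_or_lt_of_le hkk with h | h
      · subst h
        have := hmono (show x - k < x' - k by linarith)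
        linarith
      · have h3 : (k : ℝ) + 1 ≤ k' := by exact_mod_cast h
        have h4 : e (x - k) < e s + 1 := by
          rw [← hs]
          exact hmono (by linarith)
        have h5 : e s ≤ e (x' - k') := hmono.monotone (by linarith)
        linarith
    · intro x
      show PLat (per10071 e s) x
      obtain ⟨k, h1, h2⟩ := exk10071 s x
      have hk := shift10071 he k x
      have hR : ∀ kk c, RG (fun y => e (y - k) + k) x kk c → RG (per10071 e s) x kk c := by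
        intro kk c h
        refine RG_congr10071 h (η := s + k + 1 - x) (by linarith) ?_
        intro y hy1 hy2
        exact per_eq10071 e s y k (by linarith) (by linarith)
      have hL : s + k < x → ∀ kk c, LG (fun y => e (y - k) + k) x kk c →
          LG (per10071 e s) x kk c := by
        intro hlt kk c h
        refine LG_congr10071 h (η := x - (s + k)) (by linarith) ?_
        intro y hy1 hy2
        exact per_eq10071 e s y k (by linarith) (by linarith)
      obtain ⟨⟨k1, c1, hr⟩, ⟨k2, c2, hl⟩, hb⟩ := hk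
      refine ⟨⟨k1, c1, hR _ _ hr⟩, ?_, ?_⟩
      · rcases eq_or_lt_of_le h1 with h | h
        · -- left germ at a break point
          obtain ⟨-, ⟨k3, c3, hl'⟩, -⟩ := shift10071 he (k - 1) x
          refine ⟨k3, c3, LG_congr10071 hl' (η := 1) one_pos ?_⟩
          intro y hy1 hy2
          rcases eq_or_lt_of_le hy2 with hy | hy
          · rw [hy, per_eq10071 e s x k h1 h2, ← h]
            have e1 : s + (k : ℝ) - k = s := by ring
            have e2 : s + (k : ℝ) - ((k - 1 : ℤ) : ℝ) = s + 1 := by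
              push_cast
              ring
            rw [e1, e2, hs]
            push_cast
            ring
          · apply per_eq10071 e s y (k - 1)
            · push_cast
              linarith
            · push_cast
              linarith
        · exact ⟨k2, c2, hL h _ _ hl⟩
      · intro hx
        have hlt : s + k < x := by
          rcases eq_or_lt_of_le h1 with h | h
          · exfalso
            apply hx
            rw [← h]
            exact hsd.add (Dy.int k)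
          · exact h
        obtain ⟨k3, c3, h3, h4⟩ := hb hx
        exact ⟨k3, c3, hR _ _ h3, hL hlt _ _ h4⟩
    · intro x
      show per10071 e s (x + 1) = per10071 e s x + 1
      obtain ⟨k, h1, h2⟩ := exk10071 s x
      rw [per_eq10071 e s x k h1 h2, per_eq10071 e s (x + 1) (k + 1)
        (by push_cast; linarith) (by push_cast; linarith)]
      push_cast
      have e1 : x + 1 - ((k : ℝ) + 1) = x - k := by ring
      rw [e1]
      ring
  · intro x hx1 hx2
    show per10071 e s x = e x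
    rcases eq_or_lt_of_le hx2 with h | h
    · rw [h, per_eq10071 e s (s + 1) 1 (by push_cast; linarith) (by push_cast; linarith), hs]
      push_cast
      rw [add_sub_cancel_right]
    · rw [per_eq10071 e s x 0 (by push_cast; linarith) (by push_cast; linarith)]
      push_cast
      rw [sub_zero, add_zero]

theorem delta10071 {f : ℝ → ℝ} (hf : Continuous f) {s1 : ℝ} (h0 : 0 < s1) (h1 : s1 < 1)
    (h2 : f 0 < s1) (h3 : s1 < f 1) :
    ∃ δ, Dy δ ∧ 0 < δ ∧ δ < s1 - δ ∧ s1 + δ < 1 - δ ∧ f δ < s1 - δ ∧ s1 + δ < f (1 - δ) := by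
  have c1 : ∀ᶠ δ in nhds (0 : ℝ), δ < s1 - δ := by
    have : Filter.Tendsto (fun δ : ℝ => s1 - δ - δ) (nhds 0) (nhds (s1 - 0 - 0)) :=
      (((continuous_const.sub continuous_id).sub continuous_id).tendsto 0)
    have h := this.eventually (lt_mem_nhds (show (0 : ℝ) < s1 - 0 - 0 by linarith))
    filter_upwards [h] with δ hδ
    linarith
  have c2 : ∀ᶠ δ in nhds (0 : ℝ), s1 + δ < 1 - δ := by
    have : Filter.Tendsto (fun δ : ℝ => 1 - δ - (s1 + δ)) (nhds 0) (nhds (1 - 0 - (s1 + 0))) :=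
      (((continuous_const.sub continuous_id).sub (continuous_const.add continuous_id)).tendsto 0)
    have h := this.eventually (lt_mem_nhds (show (0 : ℝ) < 1 - 0 - (s1 + 0) by linarith))
    filter_upwards [h] with δ hδ
    linarith
  have c3 : ∀ᶠ δ in nhds (0 : ℝ), f δ < s1 - δ := by
    have : Filter.Tendsto (fun δ : ℝ => s1 - δ - f δ) (nhds 0) (nhds (s1 - 0 - f 0)) :=
      (((continuous_const.sub continuous_id).sub hf).tendsto 0)
    have h := this.eventually (lt_mem_nhds (show (0 : ℝ) < s1 - 0 - f 0 by linarith))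
    filter_upwards [h] with δ hδ
    linarith
  have c4 : ∀ᶠ δ in nhds (0 : ℝ), s1 + δ < f (1 - δ) := by
    have : Filter.Tendsto (fun δ : ℝ => f (1 - δ) - (s1 + δ)) (nhds 0)
        (nhds (f (1 - 0) - (s1 + 0))) :=
      (((hf.comp (continuous_const.sub continuous_id)).sub
        (continuous_const.add continuous_id)).tendsto 0)
    have h := this.eventually (lt_mem_nhds (show (0 : ℝ) < f (1 - 0) - (s1 + 0) by
      rw [sub_zero, add_zero]; linarith))
    filter_upwards [h] with δ hδ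
    linarith
  obtain ⟨ε, hε, hball⟩ := Metric.eventually_nhds_iff.1 (c1.and (c2.and (c3.and c4)))
  obtain ⟨δ, hδ, hδ0, hδε⟩ := Dy.exists_between hε
  have h := hball (y := δ) (by rw [Real.dist_eq, sub_zero, abs_of_pos hδ0]; exact hδε)
  exact ⟨δ, hδ, hδ0, h.1, h.2.1, h.2.2.1, h.2.2.2⟩

/-- factorisation of lifts of elements of `T` -/
theorem exists_fact {M : Equiv.Perm ℝ} (hM : M ∈ TT) :
    ∃ (m : ℤ) (M1 M2 : Equiv.Perm ℝ) (s1 s2 : ℝ), M1 ∈ TT ∧ M2 ∈ TT ∧ Dy s1 ∧ Dy s2 ∧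
      IdNear M1 s1 ∧ IdNear M2 s2 ∧ ∀ x, M2 (M1 x) = M x + m := by
  obtain ⟨m, hm⟩ : ∃ m : ℤ, m = -⌊M 0⌋ := ⟨_, rfl⟩
  have htr : tr m ∈ TT := by
    rw [mem_TT]
    refine ⟨tr_mem (Dy.int m), fun x => ?_⟩
    rw [tr_apply, tr_apply]
    ring
  obtain ⟨N, hN⟩ : ∃ N : Equiv.Perm ℝ, N = tr m * M := ⟨_, rfl⟩
  have hNT : N ∈ TT := by rw [hN]; exact TT.mul_mem htr hM
  have hNx : ∀ x, N x = M x + m := by
    intro x
    rw [hN]
    rfl
  have hNP : N ∈ PLH := (mem_TT.1 hNT).1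
  have hNmono := (mem_PLH.1 hNP).1
  have hN0 : 0 ≤ N 0 := by
    rw [hNx, hm]
    push_cast
    linarith [Int.floor_le (M 0)]
  have hN01 : N 0 < 1 := by
    rw [hNx, hm]
    push_cast
    linarith [Int.lt_floor_add_one (M 0)]
  have hNper := (mem_TT.1 hNT).2
  have hN1 : N 1 = N 0 + 1 := by
    have := hNper 0
    rwa [zero_add] at this
  obtain ⟨s1, hs1, hs10, hs11⟩ := Dy.exists_between hN01
  obtain ⟨δ, hδd, hδ0, d1, d2, d3, d4⟩ := delta10071 (PLf.cont (mem_PLH.1 hNP).2)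
    (show (0 : ℝ) < s1 by linarith) hs11 hs10 (by rw [hN1]; linarith)
  have hdyN : ∀ x, Dy x → Dy (N x) := fun x hx => ((mem_PLH.1 hNP).2 x).dy.2 hx
  -- the pieces
  obtain ⟨f1, hf1, f1a, f1b⟩ := PLH_interp hδd (hs1.sub hδd) (hdyN δ hδd) (hs1.sub hδd) d1 d3
  obtain ⟨f3, hf3, f3a, f3b⟩ := PLH_interp (hs1.add hδd) (Dy.one.sub hδd) (hs1.add hδd)
    (hdyN (1 - δ) (Dy.one.sub hδd)) d2 d4
  obtain ⟨g1, hg1, g1a, g1b⟩ := PLH_glue hNP hf1 hδd f1a.symm
  obtain ⟨g2, hg2, g2a, g2b⟩ := PLH_glue hg1 PLH.one_mem (hs1.sub hδd)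
    (show g1 (s1 - δ) = (1 : Equiv.Perm ℝ) (s1 - δ) by
      rw [g1b (s1 - δ) d1.le, f1b]
      rfl)
  obtain ⟨g3, hg3, g3a, g3b⟩ := PLH_glue hg2 hf3 (hs1.add hδd)
    (show g2 (s1 + δ) = f3 (s1 + δ) by
      rw [g2b (s1 + δ) (by linarith), f3a]
      rfl)
  obtain ⟨e, he, ea, eb⟩ := PLH_glue hg3 hNP (Dy.one.sub hδd)
    (show g3 (1 - δ) = N (1 - δ) by
      rw [g3b (1 - δ) d2.le, f3b])
  have e1 : ∀ x, x ≤ δ → e x = N x := by
    intro x hx
    rw [ea x (by linarith), g3a x (by linarith), g2a x (by linarith), g1a x hx]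
  have e2 : ∀ x, s1 - δ ≤ x → x ≤ s1 + δ → e x = x := by
    intro x hx1 hx2
    rw [ea x (by linarith), g3a x hx2, g2b x hx1]
    rfl
  have e3 : ∀ x, 1 - δ ≤ x → e x = N x := eb
  have hper : e (-δ + 1) = e (-δ) + 1 := by
    rw [e1 (-δ) (by linarith), e3 (-δ + 1) (by linarith), hNper]
  obtain ⟨M1, hM1, hM1e⟩ := per_TT10071 he hδd.neg hper
  refine ⟨m, M1, N * M1⁻¹, s1, N 0, hM1, TT.mul_mem hNT (TT.inv_mem hM1), hs1,
    hdyN 0 Dy.zero, ?_, ?_, ?_⟩
  · refine ⟨δ, hδ0, fun x hx1 hx2 => ?_⟩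
    rw [hM1e x (by linarith) (by linarith), e2 x hx1.le hx2.le]
  · have hlt1 : N (-δ) < N 0 := hNmono (by linarith)
    have hlt2 : N 0 < N δ := hNmono hδ0
    refine ⟨min (N 0 - N (-δ)) (N δ - N 0), lt_min (by linarith) (by linarith), ?_⟩
    intro z hz1 hz2
    have hz3 : N (-δ) < z := by linarith [min_le_left (N 0 - N (-δ)) (N δ - N 0)]
    have hz4 : z < N δ := by linarith [min_le_right (N 0 - N (-δ)) (N δ - N 0)]
    obtain ⟨x, hx⟩ : ∃ x, N x = z := ⟨N⁻¹ z, inv_right N z⟩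
    have hx1 : -δ < x := by
      rw [← hx] at hz3
      exact hNmono.lt_iff_lt.1 hz3
    have hx2 : x < δ := by
      rw [← hx] at hz4
      exact hNmono.lt_iff_lt.1 hz4
    have h1 : M1 x = z := by
      rw [hM1e x hx1.le (by linarith), e1 x hx2.le, hx]
    show N (M1⁻¹ z) = z
    rw [← h1, inv_left, h1, hx]
  · intro x
    show N (M1⁻¹ (M1 x)) = M x + m
    rw [inv_left, hNx]



/-! #### g1 -/


/-- the affine map of `[0, 1]` onto the standard dyadic interval of a word -/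
noncomputable def aff : List Bool → ℝ → ℝ
  | [], x => x
  | b :: w, x => (aff w x + (if b then 1 else 0)) / 2

/-- binary trees -/
inductive BT : Type
  | leaf : BT
  | node : BT → BT → BT

/-- the leaves of a tree, from left to right -/
def BT.leaves : BT → List (List Bool)
  | .leaf => [[]]
  | .node l r => l.leaves.map (fun w => false :: w) ++ r.leaves.map (fun w => true :: w)

/-- `e` maps the standard interval of the `i`-th leaf of `T` affinely onto the one of `S` -/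
def TreeMap (e : ℝ → ℝ) (T S : BT) : Prop :=
  List.Forall₂ (fun u v => ∀ x, 0 ≤ x → x ≤ 1 → e (aff u x) = aff v x) T.leaves S.leaves

theorem aff_form_10168 (w : List Bool) :
    ∃ i : ℕ, i + 1 ≤ 2 ^ w.length ∧ ∀ x, aff w x = ((i : ℝ) + x) / 2 ^ w.length := by
  induction w with
  | nil => exact ⟨0, by simp, fun x => by simp [aff]⟩
  | cons b w ih =>
    obtain ⟨i, hi, h⟩ := ih
    cases b with
    | false =>
      refine ⟨i, ?_, fun x => ?_⟩
      · rw [List.length_cons, pow_succ]; omega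
      · rw [List.length_cons, pow_succ]
        simp only [aff, h]
        simp
        field_simp
    | true =>
      refine ⟨i + 2 ^ w.length, ?_, fun x => ?_⟩
      · rw [List.length_cons, pow_succ]; omega
      · rw [List.length_cons, pow_succ]
        simp only [aff, h]
        push_cast
        field_simp
        ring

theorem exists_word_10168 (L : ℕ) : ∀ j : ℕ, j + 1 ≤ 2 ^ L →
    ∃ v : List Bool, ∀ x, aff v x = ((j : ℝ) + x) / 2 ^ L := by
  induction L with
  | zero =>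
    intro j hj
    have : j = 0 := by simpa using hj
    subst this
    exact ⟨[], fun x => by simp [aff]⟩
  | succ L ih =>
    intro j hj
    by_cases h : j + 1 ≤ 2 ^ L
    · obtain ⟨v, hv⟩ := ih j h
      refine ⟨false :: v, fun x => ?_⟩
      rw [pow_succ]
      simp only [aff, hv]
      simp
      field_simp
    · obtain ⟨j', rfl⟩ : ∃ j', j = j' + 2 ^ L := ⟨j - 2 ^ L, by omega⟩
      obtain ⟨v, hv⟩ := ih j' (by rw [pow_succ] at hj; omega)
      refine ⟨true :: v, fun x => ?_⟩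
      rw [pow_succ]
      simp only [aff, hv]
      push_cast
      field_simp
      ring

theorem aff_append_10168 (w u : List Bool) (x : ℝ) : aff (w ++ u) x = aff w (aff u x) := by
  induction w with
  | nil => rfl
  | cons b w ih => simp only [List.cons_append, aff, ih]

theorem aff_nonneg_10168 (w : List Bool) : 0 ≤ aff w 0 := by
  obtain ⟨i, hi, h⟩ := aff_form_10168 w
  rw [h]
  positivity

theorem aff_le_one_10168 (w : List Bool) : aff w 1 ≤ 1 := by
  obtain ⟨i, hi, h⟩ := aff_form_10168 w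
  rw [h, div_le_one (by positivity)]
  exact_mod_cast hi

theorem aff_mono_10168 (w : List Bool) {x y : ℝ} (hxy : x ≤ y) : aff w x ≤ aff w y := by
  obtain ⟨i, hi, h⟩ := aff_form_10168 w
  rw [h, h]
  gcongr

theorem aff_lt_10168 (w : List Bool) {x y : ℝ} (hxy : x < y) : aff w x < aff w y := by
  obtain ⟨i, hi, h⟩ := aff_form_10168 w
  rw [h, h]
  gcongr

/-- consecutive intervals -/
def Cov_10168 : ℝ → ℝ → List (List Bool) → Prop
  | a, b, [] => a = b
  | a, b, w :: l => aff w 0 = a ∧ Cov_10168 (aff w 1) b l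

theorem Cov_append_10168 (l1 l2 : List (List Bool)) : ∀ {a b c : ℝ}, Cov_10168 a b l1 →
    Cov_10168 b c l2 → Cov_10168 a c (l1 ++ l2) := by
  induction l1 with
  | nil => intro a b c h1 h2; rw [Cov_10168] at h1; subst h1; exact h2
  | cons w l ih =>
    intro a b c h1 h2
    exact ⟨h1.1, ih h1.2 h2⟩

theorem Cov_false_10168 (l : List (List Bool)) : ∀ {a b : ℝ}, Cov_10168 a b l →
    Cov_10168 (a / 2) (b / 2) (l.map (fun w => false :: w)) := by
  induction l with
  | nil => intro a b h; rw [Cov_10168] at h; subst h; simp [Cov_10168]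
  | cons w l ih =>
    intro a b h
    refine ⟨?_, ?_⟩
    · rw [← h.1]; simp [aff]
    · have := ih h.2
      have h2 : aff (false :: w) 1 = aff w 1 / 2 := by simp [aff]
      rw [h2]
      exact this

theorem Cov_true_10168 (l : List (List Bool)) : ∀ {a b : ℝ}, Cov_10168 a b l →
    Cov_10168 ((a + 1) / 2) ((b + 1) / 2) (l.map (fun w => true :: w)) := by
  induction l with
  | nil => intro a b h; rw [Cov_10168] at h; subst h; simp [Cov_10168]
  | cons w l ih =>
    intro a b h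
    refine ⟨?_, ?_⟩
    · rw [← h.1]; simp [aff]
    · have := ih h.2
      have h2 : aff (true :: w) 1 = (aff w 1 + 1) / 2 := by simp [aff]
      rw [h2]
      exact this

theorem Cov_leaves_10168 (T : BT) : Cov_10168 0 1 T.leaves := by
  induction T with
  | leaf => exact ⟨by simp [aff], by simp [aff, Cov_10168]⟩
  | node l r ihl ihr =>
    have h1 := Cov_false_10168 _ ihl
    have h2 := Cov_true_10168 _ ihr
    rw [BT.leaves]
    rw [zero_div] at h1
    have e1 : ((0 : ℝ) + 1) / 2 = 1 / 2 := by norm_num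
    have e2 : ((1 : ℝ) + 1) / 2 = 1 := by norm_num
    rw [e1, e2] at h2
    exact Cov_append_10168 _ _ h1 h2

theorem Cov_notMem_10168 (l : List (List Bool)) : ∀ {a : ℝ}, 0 < a → Cov_10168 a 1 l →
    [] ∉ l := by
  induction l with
  | nil => intro a _ _; simp
  | cons w l ih =>
    intro a ha h hmem
    rcases List.mem_cons.1 hmem with h1 | h1
    · have h2 := h.1
      rw [← h1] at h2
      simp only [aff] at h2
      linarith
    · refine ih ?_ h.2 h1
      have h3 : aff w 0 < aff w 1 := aff_lt_10168 w one_pos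
      rw [h.1] at h3
      linarith

theorem Cov_one_10168 (l : List (List Bool)) (h : Cov_10168 1 1 l) : l = [] := by
  cases l with
  | nil => rfl
  | cons w l =>
    exfalso
    have h1 := h.1
    have h2 : aff w 0 < aff w 1 := aff_lt_10168 w one_pos
    have h3 := aff_le_one_10168 w
    linarith

theorem Cov_split2_10168 (l : List (List Bool)) : ∀ {a : ℝ}, 1 / 2 ≤ a → Cov_10168 a 1 l →
    [] ∉ l → ∃ l2, l = l2.map (fun w => true :: w) ∧ Cov_10168 (2 * a - 1) 1 l2 := by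
  induction l with
  | nil =>
    intro a ha h _
    rw [Cov_10168] at h
    exact ⟨[], rfl, by rw [Cov_10168]; linarith⟩
  | cons w l ih =>
    intro a ha h hn
    cases w with
    | nil => exact absurd (List.mem_cons_self) hn
    | cons b w =>
      cases b with
      | false =>
        exfalso
        have h1 := h.1
        simp only [aff] at h1
        simp at h1
        have h2 : aff w 0 < aff w 1 := aff_lt_10168 w one_pos
        have h3 := aff_le_one_10168 w
        linarith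
      | true =>
        have h1 := h.1
        simp only [aff] at h1
        simp at h1
        have h4 : aff (true :: w) 1 = (aff w 1 + 1) / 2 := by simp [aff]
        have h5 := h.2
        rw [h4] at h5
        have h6 : 0 ≤ aff w 1 := le_trans (aff_nonneg_10168 w) (aff_mono_10168 w zero_le_one)
        obtain ⟨l2, h7, h8⟩ := ih (by linarith) h5 (fun hc => hn (List.mem_cons_of_mem _ hc))
        refine ⟨w :: l2, by rw [List.map_cons, h7], ?_, ?_⟩
        · linarith
        · have : 2 * ((aff w 1 + 1) / 2) - 1 = aff w 1 := by ring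
          rwa [this] at h8

theorem Cov_split_10168 (l : List (List Bool)) : ∀ {a : ℝ}, a ≤ 1 / 2 → Cov_10168 a 1 l →
    [] ∉ l → ∃ l1 l2, l = l1.map (fun w => false :: w) ++ l2.map (fun w => true :: w) ∧
      Cov_10168 (2 * a) 1 l1 ∧ Cov_10168 0 1 l2 := by
  induction l with
  | nil =>
    intro a ha h _
    rw [Cov_10168] at h
    exfalso
    linarith
  | cons w l ih =>
    intro a ha h hn
    cases w with
    | nil => exact absurd (List.mem_cons_self) hn
    | cons b w =>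
      cases b with
      | false =>
        have h1 := h.1
        simp only [aff] at h1
        simp at h1
        have h4 : aff (false :: w) 1 = aff w 1 / 2 := by simp [aff]
        have h5 := h.2
        rw [h4] at h5
        have h3 := aff_le_one_10168 w
        obtain ⟨l1, l2, h7, h8, h9⟩ := ih (by linarith) h5
          (fun hc => hn (List.mem_cons_of_mem _ hc))
        refine ⟨w :: l1, l2, by rw [List.map_cons, h7]; rfl, ⟨?_, ?_⟩, h9⟩
        · linarith
        · have : 2 * (aff w 1 / 2) = aff w 1 := by ring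
          rwa [this] at h8
      | true =>
        have h1 := h.1
        have h2 : aff (true :: w) 0 = (aff w 0 + 1) / 2 := by simp [aff]
        rw [h2] at h1
        have h3 := aff_nonneg_10168 w
        have ha2 : a = 1 / 2 := by linarith
        obtain ⟨l2, h4, h5⟩ := Cov_split2_10168 _ ha2.ge h hn
        refine ⟨[], l2, by rw [h4]; rfl, ?_, ?_⟩
        · rw [Cov_10168]; linarith
        · have : 2 * a - 1 = 0 := by linarith
          rwa [this] at h5

theorem exists_tree_10168 (n : ℕ) : ∀ l : List (List Bool), (∀ w ∈ l, w.length ≤ n) →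
    Cov_10168 0 1 l → ∃ S : BT, S.leaves = l := by
  induction n with
  | zero =>
    intro l hl h
    cases l with
    | nil => rw [Cov_10168] at h; exact absurd h zero_ne_one
    | cons w l =>
      have hw : w = [] := by
        have := hl w List.mem_cons_self
        exact List.length_eq_zero_iff.1 (by omega)
      subst hw
      have h2 := h.2
      simp only [aff] at h2
      rw [Cov_one_10168 l h2]
      exact ⟨.leaf, rfl⟩
  | succ n ih =>
    intro l hl h
    cases l with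
    | nil => rw [Cov_10168] at h; exact absurd h zero_ne_one
    | cons w l =>
      cases w with
      | nil =>
        have h2 := h.2
        simp only [aff] at h2
        rw [Cov_one_10168 l h2]
        exact ⟨.leaf, rfl⟩
      | cons b w =>
        have hn : [] ∉ (b :: w) :: l := by
          intro hmem
          rcases List.mem_cons.1 hmem with h1 | h1
          · exact absurd h1 (by simp)
          · refine Cov_notMem_10168 l ?_ h.2 h1
            have h3 : aff (b :: w) 0 < aff (b :: w) 1 := aff_lt_10168 _ one_pos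
            rw [h.1] at h3
            exact h3
        obtain ⟨l1, l2, h1, h2, h3⟩ := Cov_split_10168 _ (by norm_num) h hn
        rw [mul_zero] at h2
        rw [h1] at hl
        obtain ⟨S1, hS1⟩ := ih l1 (fun u hu => by
          have := hl (false :: u) (List.mem_append_left _ (List.mem_map_of_mem hu))
          rw [List.length_cons] at this
          omega) h2
        obtain ⟨S2, hS2⟩ := ih l2 (fun u hu => by
          have := hl (true :: u) (List.mem_append_right _ (List.mem_map_of_mem hu))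
          rw [List.length_cons] at this
          omega) h3
        refine ⟨.node S1 S2, ?_⟩
        rw [BT.leaves, hS1, hS2, h1]

theorem Cov_image_10168 (h : ℝ → ℝ) {l vs : List (List Bool)}
    (H : List.Forall₂ (fun u v => ∀ x, 0 ≤ x → x ≤ 1 → h (aff u x) = aff v x) l vs) :
    ∀ {a b : ℝ}, Cov_10168 a b l → Cov_10168 (h a) (h b) vs := by
  induction H with
  | nil => intro a b hab; rw [Cov_10168] at hab ⊢; rw [hab]
  | cons h1 _ ih =>
    intro a b hab
    refine ⟨?_, ?_⟩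
    · rw [← hab.1, h1 0 le_rfl zero_le_one]
    · rw [← h1 1 zero_le_one le_rfl]
      exact ih hab.2

/-- the interval of `w` can be subdivided -/
def Good_10168 (h : ℝ → ℝ) (w : List Bool) : Prop :=
  ∃ (T : BT) (vs : List (List Bool)),
    List.Forall₂ (fun u v => ∀ x, 0 ≤ x → x ≤ 1 → h (aff (w ++ u) x) = aff v x) T.leaves vs

theorem Good_node_10168 (h : ℝ → ℝ) (w : List Bool) (h1 : Good_10168 h (w ++ [false]))
    (h2 : Good_10168 h (w ++ [true])) : Good_10168 h w := by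
  obtain ⟨T1, vs1, H1⟩ := h1
  obtain ⟨T2, vs2, H2⟩ := h2
  refine ⟨.node T1 T2, vs1 ++ vs2, ?_⟩
  rw [BT.leaves]
  apply List.rel_append
  · rw [List.forall₂_map_left_iff]
    refine H1.imp ?_
    intro u v huv
    simpa using huv
  · rw [List.forall₂_map_left_iff]
    refine H2.imp ?_
    intro u v huv
    simpa using huv

theorem Good_word_10168 (h : ℝ → ℝ) (w : List Bool) (k : ℤ) (c : ℝ) (m : ℤ) (e : ℕ)
    (hc : c = m / 2 ^ e) (hn : k + e ≤ w.length)
    (haff : ∀ x, 0 ≤ x → x ≤ 1 → h (aff w x) = (2 : ℝ) ^ k * aff w x + c)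
    (h0 : 0 ≤ h (aff w 0)) (h1 : h (aff w 1) ≤ 1) : Good_10168 h w := by
  obtain ⟨i, hi, hw⟩ := aff_form_10168 w
  obtain ⟨L, hL⟩ : ∃ L : ℕ, (L : ℤ) = w.length - k := ⟨((w.length : ℤ) - k).toNat, by
    rw [Int.toNat_of_nonneg]; omega⟩
  have heL : e ≤ L := by omega
  have hpow : (2 : ℝ) ^ k * 2 ^ L = 2 ^ w.length := by
    rw [← zpow_natCast, ← zpow_natCast, ← zpow_add₀ (by norm_num)]
    congr 1
    omega
  have hpow2 : (2 : ℝ) ^ L = 2 ^ e * 2 ^ (L - e) := by
    rw [← pow_add]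
    congr 1
    omega
  have key : ∀ x, 0 ≤ x → x ≤ 1 →
      h (aff w x) = (((i : ℤ) + m * 2 ^ (L - e) : ℤ) + x) / 2 ^ L := by
    intro x hx0 hx1
    rw [haff x hx0 hx1, hw, ← hpow, hc]
    push_cast
    have h2 : (2 : ℝ) ^ k ≠ 0 := by positivity
    have h3 : (2 : ℝ) ^ k * (((i : ℝ) + x) / (2 ^ k * 2 ^ L)) = ((i : ℝ) + x) / 2 ^ L := by
      field_simp
    have h4 : (m : ℝ) / 2 ^ e = m * 2 ^ (L - e) / 2 ^ L := by
      rw [hpow2]
      field_simp
    rw [h3, h4]
    ring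
  have hj0 : 0 ≤ (i : ℤ) + m * 2 ^ (L - e) := by
    have h2 := key 0 le_rfl zero_le_one
    rw [h2] at h0
    by_contra hneg
    have h3 : (i : ℤ) + m * 2 ^ (L - e) ≤ -1 := by omega
    have h4 : (((i : ℤ) + m * 2 ^ (L - e) : ℤ) : ℝ) ≤ -1 := by exact_mod_cast h3
    have h5 : ((((i : ℤ) + m * 2 ^ (L - e) : ℤ) : ℝ) + 0) / 2 ^ L < 0 := by
      apply div_neg_of_neg_of_pos
      · linarith
      · positivity
    linarith
  obtain ⟨j, hj⟩ := Int.eq_ofNat_of_zero_le hj0
  have hj1 : j + 1 ≤ 2 ^ L := by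
    have h2 := key 1 zero_le_one le_rfl
    rw [h2, hj, div_le_one (by positivity)] at h1
    have h3 : ((j : ℝ) + 1) ≤ 2 ^ L := by simpa using h1
    exact_mod_cast h3
  obtain ⟨v, hv⟩ := exists_word_10168 L j hj1
  refine ⟨.leaf, [v], ?_⟩
  rw [BT.leaves]
  refine List.Forall₂.cons ?_ List.Forall₂.nil
  intro x hx0 hx1
  rw [List.append_nil, key x hx0 hx1, hv, hj]
  simp

theorem Good_nil_10168 {h : Equiv.Perm ℝ} (hh : h ∈ Sup 0 1) : Good_10168 h [] := by
  by_contra hbad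
  have hstep : ∀ w, ¬ Good_10168 h w → ∃ b : Bool, ¬ Good_10168 h (w ++ [b]) := by
    intro w hw
    by_contra hcon
    push Not at hcon
    exact hw (Good_node_10168 h w (hcon false) (hcon true))
  choose b hb using hstep
  let F : {w // ¬ Good_10168 h w} → {w // ¬ Good_10168 h w} :=
    fun w => ⟨w.1 ++ [b w.1 w.2], hb w.1 w.2⟩
  let W : ℕ → List Bool := fun n => (F^[n] ⟨[], hbad⟩).1
  have hWbad : ∀ n, ¬ Good_10168 h (W n) := fun n => (F^[n] ⟨[], hbad⟩).2
  have hWs : ∀ n, ∃ c : Bool, W (n + 1) = W n ++ [c] := by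
    intro n
    refine ⟨b (W n) (hWbad n), ?_⟩
    show (F^[n + 1] ⟨[], hbad⟩).1 = _
    rw [Function.iterate_succ_apply']
  have hWl : ∀ n, (W n).length = n := by
    intro n
    induction n with
    | zero => rfl
    | succ n ih =>
      obtain ⟨c, hc⟩ := hWs n
      rw [hc, List.length_append, ih]
      rfl
  have hmono : Monotone (fun n => aff (W n) 0) := by
    apply monotone_nat_of_le_succ
    intro n
    obtain ⟨c, hc⟩ := hWs n
    show aff (W n) 0 ≤ aff (W (n + 1)) 0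
    rw [hc, aff_append_10168]
    exact aff_mono_10168 _ (aff_nonneg_10168 _)
  have hanti : Antitone (fun n => aff (W n) 1) := by
    apply antitone_nat_of_succ_le
    intro n
    obtain ⟨c, hc⟩ := hWs n
    show aff (W (n + 1)) 1 ≤ aff (W n) 1
    rw [hc, aff_append_10168]
    exact aff_mono_10168 _ (aff_le_one_10168 _)
  obtain ⟨x0, hx0⟩ : ∃ x0, ∀ n, aff (W n) 0 ≤ x0 ∧ x0 ≤ aff (W n) 1 := by
    have := hmono.ciSup_mem_iInter_Icc_of_antitone hanti
      (fun n => aff_mono_10168 (W n) zero_le_one)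
    rw [Set.mem_iInter] at this
    exact ⟨_, fun n => this n⟩
  -- the length of the intervals
  have hlen : ∀ n, aff (W n) 1 = aff (W n) 0 + 1 / 2 ^ n := by
    intro n
    obtain ⟨i, hi, hw⟩ := aff_form_10168 (W n)
    rw [hw, hw, hWl]
    ring
  have h00 : h 0 = 0 := hh.2 0 (Or.inl le_rfl)
  have h11 : h 1 = 1 := hh.2 1 (Or.inr le_rfl)
  have hmonoh : StrictMono h := hh.1.1
  have himg0 : ∀ w, 0 ≤ h (aff w 0) := by
    intro w
    calc (0 : ℝ) = h 0 := h00.symm
      _ ≤ h (aff w 0) := hmonoh.monotone (aff_nonneg_10168 w)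
  have himg1 : ∀ w, h (aff w 1) ≤ 1 := by
    intro w
    calc h (aff w 1) ≤ h 1 := hmonoh.monotone (aff_le_one_10168 w)
      _ = 1 := h11
  have hbtw : ∀ w x, 0 ≤ x → x ≤ 1 → aff w 0 ≤ aff w x ∧ aff w x ≤ aff w 1 :=
    fun w x h1 h2 => ⟨aff_mono_10168 w h1, aff_mono_10168 w h2⟩
  have hsmall : ∀ ε : ℝ, 0 < ε → ∃ N : ℕ, ∀ n, N ≤ n → (1 : ℝ) / 2 ^ n < ε := by
    intro ε hε
    obtain ⟨N, hN⟩ := exists_pow_lt_of_lt_one hε (show (1 / 2 : ℝ) < 1 by norm_num)
    refine ⟨N, fun n hn => ?_⟩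
    have h1 : (1 / 2 : ℝ) ^ n ≤ (1 / 2 : ℝ) ^ N :=
      pow_le_pow_of_le_one (by norm_num) (by norm_num) hn
    rw [one_div_pow] at h1
    linarith
  obtain ⟨⟨k1, c1, hR⟩, ⟨k2, c2, hLg⟩, hnd⟩ := hh.1.2 x0
  by_cases hd : Dy x0
  · obtain ⟨m, e, hme⟩ := hd
    obtain ⟨⟨m1, e1, hme1⟩, ε1, hε1, hR⟩ := hR
    obtain ⟨⟨m2, e2, hme2⟩, ε2, hε2, hLg⟩ := hLg
    obtain ⟨N1, hN1⟩ := hsmall ε1 hε1
    obtain ⟨N2, hN2⟩ := hsmall ε2 hε2
    -- take `n` large
    set n := N1 + N2 + e + (k1 + e1).toNat + (k2 + e2).toNat with hn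
    have hn1 := hN1 n (by omega)
    have hn2 := hN2 n (by omega)
    obtain ⟨i, hi, hw⟩ := aff_form_10168 (W n)
    rw [hWl] at hw hi
    obtain ⟨ha, hb'⟩ := hx0 n
    have hend : x0 = aff (W n) 0 ∨ x0 = aff (W n) 1 := by
      have e3 : (2 : ℝ) ^ n = 2 ^ e * 2 ^ (n - e) := by
        rw [← pow_add]; congr 1; omega
      have e4 : x0 = ((m * 2 ^ (n - e) : ℤ) : ℝ) / 2 ^ n := by
        rw [hme, e3]; push_cast; field_simp
      rw [hw, e4] at ha hb'
      rw [div_le_div_iff_of_pos_right (by positivity)] at ha hb'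
      have ha2 : (i : ℤ) ≤ m * 2 ^ (n - e) := by
        have : ((i : ℤ) : ℝ) ≤ ((m * 2 ^ (n - e) : ℤ) : ℝ) := by
          push_cast at ha ⊢; linarith
        exact_mod_cast this
      have hb2 : m * 2 ^ (n - e) ≤ (i : ℤ) + 1 := by
        have : ((m * 2 ^ (n - e) : ℤ) : ℝ) ≤ (((i : ℤ) + 1 : ℤ) : ℝ) := by
          push_cast at hb' ⊢; linarith
        exact_mod_cast this
      have h3 : m * 2 ^ (n - e) = (i : ℤ) ∨ m * 2 ^ (n - e) = (i : ℤ) + 1 := by omega
      rcases h3 with h3 | h3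
      · left
        rw [e4, hw, h3]; push_cast; ring
      · right
        rw [e4, hw, h3]; push_cast; ring
    rcases hend with hend | hend
    · apply hWbad n
      apply Good_word_10168 h (W n) k1 c1 m1 e1 hme1 (by rw [hWl]; omega) _ (himg0 _) (himg1 _)
      intro x h1 h2
      obtain ⟨h3, h4⟩ := hbtw (W n) x h1 h2
      apply hR
      · rw [hend]; exact h3
      · rw [hlen] at h4
        linarith
    · apply hWbad n
      apply Good_word_10168 h (W n) k2 c2 m2 e2 hme2 (by rw [hWl]; omega) _ (himg0 _) (himg1 _)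
      intro x h1 h2
      obtain ⟨h3, h4⟩ := hbtw (W n) x h1 h2
      apply hLg
      · have := hlen n
        linarith
      · rw [hend]; exact h4
  · obtain ⟨k, c, ⟨⟨m1, e1, hme1⟩, ε1, hε1, hR'⟩, ⟨-, ε2, hε2, hL'⟩⟩ := hnd hd
    obtain ⟨N1, hN1⟩ := hsmall ε1 hε1
    obtain ⟨N2, hN2⟩ := hsmall ε2 hε2
    set n := N1 + N2 + (k + e1).toNat with hn
    have hn1 := hN1 n (by omega)
    have hn2 := hN2 n (by omega)
    obtain ⟨ha, hb'⟩ := hx0 n
    apply hWbad n
    apply Good_word_10168 h (W n) k c m1 e1 hme1 (by rw [hWl]; omega) _ (himg0 _) (himg1 _)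
    intro x h1 h2
    obtain ⟨h3, h4⟩ := hbtw (W n) x h1 h2
    have h5 := hlen n
    rcases le_total x0 (aff (W n) x) with h6 | h6
    · exact hR' _ h6 (by linarith)
    · exact hL' _ (by linarith) h6

/-- every element of `F` comes from a pair of trees -/
theorem exists_trees {h : Equiv.Perm ℝ} (hh : h ∈ Sup 0 1) : ∃ T S : BT, TreeMap h T S := by
  obtain ⟨T, vs, H⟩ := Good_nil_10168 hh
  simp only [List.nil_append] at H
  have h00 : h 0 = 0 := hh.2 0 (Or.inl le_rfl)
  have h11 : h 1 = 1 := hh.2 1 (Or.inr le_rfl)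
  have h1 := Cov_image_10168 h H (Cov_leaves_10168 T)
  rw [h00, h11] at h1
  obtain ⟨n, hn⟩ : ∃ n, ∀ w ∈ vs, w.length ≤ n := by
    refine ⟨(vs.map List.length).sum, fun w hw => ?_⟩
    exact List.single_le_sum (fun _ _ => Nat.zero_le _) _ (List.mem_map_of_mem hw)
  obtain ⟨S, hS⟩ := exists_tree_10168 n vs hn h1
  refine ⟨T, S, ?_⟩
  unfold TreeMap
  rw [hS]
  exact H



/-! #### g2 -/




theorem affine_perm_10169 (k : ℤ) {c : ℝ} (hc : Dy c) :
    ∃ A ∈ PLH, ∀ x, A x = (2 : ℝ) ^ k * x + c := by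
  have h2 : (0 : ℝ) < (2 : ℝ) ^ k := zpow_pos (by norm_num) k
  refine ⟨{ toFun := fun x => (2 : ℝ) ^ k * x + c
            invFun := fun y => (y - c) / (2 : ℝ) ^ k
            left_inv := ?_
            right_inv := ?_ }, mem_PLH.2 ⟨?_, ?_⟩, fun x => rfl⟩
  · intro x
    show ((2 : ℝ) ^ k * x + c - c) / (2 : ℝ) ^ k = x
    rw [add_sub_cancel_right, mul_div_cancel_left₀ _ h2.ne']
  · intro y
    show (2 : ℝ) ^ k * ((y - c) / (2 : ℝ) ^ k) + c = y
    rw [mul_div_cancel₀ _ h2.ne', sub_add_cancel]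
  · intro x y hxy
    show (2 : ℝ) ^ k * x + c < (2 : ℝ) ^ k * y + c
    have := mul_lt_mul_of_pos_left hxy h2
    linarith
  · intro x
    exact PLat_affine k hc x

theorem aff_perm_10169 (w : List Bool) : ∃ P ∈ PLH, ∀ x, P x = aff w x := by
  induction w with
  | nil => exact ⟨1, PLH.one_mem, fun x => rfl⟩
  | cons b w ih =>
    obtain ⟨P, hP, hPw⟩ := ih
    obtain ⟨A, hA, hA'⟩ := affine_perm_10169 (-1) (c := (if b then 1 else 0) / 2) (by
      cases b
      · simpa using Dy.zero.half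
      · simpa using Dy.one.half)
    refine ⟨A * P, PLH.mul_mem hA hP, fun x => ?_⟩
    show A (P x) = (aff w x + (if b then 1 else 0)) / 2
    rw [hA', hPw, zpow_neg_one]
    ring

theorem aff_bd_10169 (w : List Bool) : ∀ x, 0 ≤ x → x ≤ 1 → 0 ≤ aff w x ∧ aff w x ≤ 1 := by
  induction w with
  | nil => exact fun x h0 h1 => ⟨h0, h1⟩
  | cons b w ih =>
    intro x h0 h1
    obtain ⟨h2, h3⟩ := ih x h0 h1
    have h4 : (0 : ℝ) ≤ (if b then (1 : ℝ) else 0) := by split_ifs <;> norm_num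
    have h5 : (if b then (1 : ℝ) else 0) ≤ 1 := by split_ifs <;> norm_num
    constructor
    · show 0 ≤ (aff w x + (if b then (1 : ℝ) else 0)) / 2
      linarith
    · show (aff w x + (if b then (1 : ℝ) else 0)) / 2 ≤ 1
      linarith

/-- `F` acting inside a standard interval -/
theorem exists_em (w : List Bool) : ∃ Φ : Sup 0 1 →* Sup 0 1, ∀ e : Sup 0 1,
    (∀ x, 0 ≤ x → x ≤ 1 →
      (Φ e : Equiv.Perm ℝ) (aff w x) = aff w ((e : Equiv.Perm ℝ) x)) ∧
    (∀ x, (x ≤ aff w 0 ∨ aff w 1 ≤ x) → (Φ e : Equiv.Perm ℝ) x = x) := by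
  obtain ⟨P, hP, hPw⟩ := aff_perm_10169 w
  have hfix : ∀ e ∈ Sup 0 1, ∀ x, (x ≤ aff w 0 ∨ aff w 1 ≤ x) → (P * e * P⁻¹) x = x := by
    intro e he x hx
    have h1 : e (P⁻¹ x) = P⁻¹ x := by
      apply (mem_Sup.1 he).2
      rcases hx with hx | hx
      · left
        rw [← hPw 0, ← inv_right P x] at hx
        exact (mem_PLH.1 hP).1.le_iff_le.1 hx
      · right
        rw [← hPw 1, ← inv_right P x] at hx
        exact (mem_PLH.1 hP).1.le_iff_le.1 hx
    show P (e (P⁻¹ x)) = x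
    rw [h1, inv_right]
  have hmem : ∀ e ∈ Sup 0 1, P * e * P⁻¹ ∈ Sup 0 1 := by
    intro e he
    refine mem_Sup.2 ⟨PLH.mul_mem (PLH.mul_mem hP (mem_Sup.1 he).1) (PLH.inv_mem hP), ?_⟩
    intro x hx
    apply hfix e he x
    rcases hx with hx | hx
    · exact Or.inl (hx.trans (aff_bd_10169 w 0 le_rfl zero_le_one).1)
    · exact Or.inr ((aff_bd_10169 w 1 zero_le_one le_rfl).2.trans hx)
  refine ⟨{ toFun := fun e => ⟨P * (e : Equiv.Perm ℝ) * P⁻¹, hmem e e.2⟩
            map_one' := ?_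
            map_mul' := ?_ }, ?_⟩
  · apply Subtype.ext
    show P * (1 : Equiv.Perm ℝ) * P⁻¹ = 1
    group
  · intro a b
    apply Subtype.ext
    show P * ((a : Equiv.Perm ℝ) * (b : Equiv.Perm ℝ)) * P⁻¹ =
      (P * (a : Equiv.Perm ℝ) * P⁻¹) * (P * (b : Equiv.Perm ℝ) * P⁻¹)
    group
  · intro e
    refine ⟨?_, ?_⟩
    · intro x _ _
      show P ((e : Equiv.Perm ℝ) (P⁻¹ (aff w x))) = aff w ((e : Equiv.Perm ℝ) x)
      rw [← hPw x, inv_left, hPw]
    · intro x hx
      exact hfix e e.2 x hx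

/-- the first generator -/
theorem exists_X : ∃ X : Sup 0 1, ∀ x, 0 ≤ x → x ≤ 1 →
    (X : Equiv.Perm ℝ) (aff [false, false] x) = aff [false] x ∧
    (X : Equiv.Perm ℝ) (aff [false, true] x) = aff [true, false] x ∧
    (X : Equiv.Perm ℝ) (aff [true] x) = aff [true, true] x := by
  obtain ⟨A1, hA1, hA1'⟩ := affine_perm_10169 1 Dy.zero
  obtain ⟨A2, hA2, hA2'⟩ := affine_perm_10169 0 (c := 1 / 4) ⟨1, 2, by norm_num⟩
  obtain ⟨A3, hA3, hA3'⟩ := affine_perm_10169 (-1) (c := 1 / 2) ⟨1, 1, by norm_num⟩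
  obtain ⟨e1, he1, he1l, he1r⟩ := PLH_glue PLH.one_mem hA1 (p := 0) Dy.zero (by
    rw [hA1']
    simp)
  have v1 : ∀ x, 0 ≤ x → e1 x = 2 * x := by
    intro x hx
    rw [he1r x hx, hA1' x, zpow_one]
    ring
  obtain ⟨e2, he2, he2l, he2r⟩ := PLH_glue he1 hA2 (p := 1 / 4) ⟨1, 2, by norm_num⟩ (by
    rw [hA2', v1 _ (by norm_num), zpow_zero]
    norm_num)
  have v2 : ∀ x, 1 / 4 ≤ x → e2 x = x + 1 / 4 := by
    intro x hx
    rw [he2r x hx, hA2' x, zpow_zero]
    ring
  obtain ⟨e3, he3, he3l, he3r⟩ := PLH_glue he2 hA3 (p := 1 / 2) ⟨1, 1, by norm_num⟩ (by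
    rw [hA3', v2 _ (by norm_num)]
    norm_num)
  have v3 : ∀ x, 1 / 2 ≤ x → e3 x = x / 2 + 1 / 2 := by
    intro x hx
    rw [he3r x hx, hA3' x, zpow_neg_one]
    ring
  obtain ⟨e4, he4, he4l, he4r⟩ := PLH_glue he3 PLH.one_mem (p := 1) Dy.one (by
    rw [v3 _ (by norm_num)]
    norm_num)
  have hmem : e4 ∈ Sup 0 1 := by
    refine mem_Sup.2 ⟨he4, ?_⟩
    rintro x (hx | hx)
    · rw [he4l x (by linarith), he3l x (by linarith), he2l x (by linarith), he1l x hx]
      rfl
    · rw [he4r x hx]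
      rfl
  refine ⟨⟨e4, hmem⟩, ?_⟩
  intro x h0 h1
  refine ⟨?_, ?_, ?_⟩
  · show e4 (aff [false, false] x) = aff [false] x
    have h2 : aff [false, false] x = x / 4 := by
      simp only [aff]
      norm_num
      ring
    have h3 : aff [false] x = x / 2 := by
      simp [aff]
    rw [h2, h3, he4l _ (by linarith), he3l _ (by linarith), he2l _ (by linarith),
      v1 _ (by linarith)]
    ring
  · show e4 (aff [false, true] x) = aff [true, false] x
    have h2 : aff [false, true] x = (x + 1) / 4 := by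
      simp only [aff]
      norm_num
      ring
    have h3 : aff [true, false] x = (x + 2) / 4 := by
      simp only [aff]
      norm_num
      ring
    rw [h2, h3, he4l _ (by linarith), he3l _ (by linarith), v2 _ (by linarith)]
    ring
  · show e4 (aff [true] x) = aff [true, true] x
    have h2 : aff [true] x = (x + 1) / 2 := by
      simp [aff]
    have h3 : aff [true, true] x = (x + 3) / 4 := by
      simp only [aff]
      norm_num
      ring
    rw [h2, h3, he4l _ (by linarith), v3 _ (by linarith)]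
    ring


/-- `F` acting inside a standard interval -/
noncomputable def em (w : List Bool) : Sup 0 1 →* Sup 0 1 := (exists_em w).choose

theorem em_apply (w : List Bool) (e : Sup 0 1) {x : ℝ} (h0 : 0 ≤ x) (h1 : x ≤ 1) :
    (em w e : Equiv.Perm ℝ) (aff w x) = aff w ((e : Equiv.Perm ℝ) x) :=
  ((exists_em w).choose_spec e).1 x h0 h1

theorem em_out (w : List Bool) (e : Sup 0 1) {x : ℝ} (h : x ≤ aff w 0 ∨ aff w 1 ≤ x) :
    (em w e : Equiv.Perm ℝ) x = x :=
  ((exists_em w).choose_spec e).2 x h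

/-- the first generator -/
noncomputable def X : Sup 0 1 := exists_X.choose

theorem X1 {x : ℝ} (h0 : 0 ≤ x) (h1 : x ≤ 1) :
    (X : Equiv.Perm ℝ) (aff [false, false] x) = aff [false] x :=
  (exists_X.choose_spec x h0 h1).1

theorem X2 {x : ℝ} (h0 : 0 ≤ x) (h1 : x ≤ 1) :
    (X : Equiv.Perm ℝ) (aff [false, true] x) = aff [true, false] x :=
  (exists_X.choose_spec x h0 h1).2.1

theorem X3 {x : ℝ} (h0 : 0 ≤ x) (h1 : x ≤ 1) :
    (X : Equiv.Perm ℝ) (aff [true] x) = aff [true, true] x :=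
  (exists_X.choose_spec x h0 h1).2.2


/-! #### g3 -/


theorem aff_append10170 (w w' : List Bool) (x : ℝ) : aff (w ++ w') x = aff w (aff w' x) := by
  induction w with
  | nil => rfl
  | cons b w ih =>
    show (aff (w ++ w') x + _) / 2 = (aff w (aff w' x) + _) / 2
    rw [ih]

theorem aff_strict10170 (w : List Bool) {x y : ℝ} (h : x < y) : aff w x < aff w y := by
  induction w with
  | nil => exact h
  | cons b w ih =>
    show (aff w x + _) / 2 < (aff w y + _) / 2
    linarith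

theorem aff_le10170 (w : List Bool) {x y : ℝ} (h : x ≤ y) : aff w x ≤ aff w y := by
  rcases h.eq_or_lt with h | h
  · rw [h]
  · exact (aff_strict10170 w h).le

theorem aff_mem10170 (w : List Bool) {x : ℝ} (h0 : 0 ≤ x) (h1 : x ≤ 1) :
    0 ≤ aff w x ∧ aff w x ≤ 1 := by
  induction w with
  | nil => exact ⟨h0, h1⟩
  | cons b w ih =>
    show 0 ≤ (aff w x + _) / 2 ∧ (aff w x + _) / 2 ≤ 1
    cases b <;> simp <;> constructor <;> linarith [ih.1, ih.2]

theorem aff_surj10170 (w : List Bool) {y : ℝ} (h0 : aff w 0 ≤ y) (h1 : y ≤ aff w 1) :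
    ∃ x, 0 ≤ x ∧ x ≤ 1 ∧ y = aff w x := by
  induction w generalizing y with
  | nil => exact ⟨y, h0, h1, rfl⟩
  | cons b w ih =>
    have h0' : (aff w 0 + (if b then 1 else 0)) / 2 ≤ y := h0
    have h1' : y ≤ (aff w 1 + (if b then 1 else 0)) / 2 := h1
    obtain ⟨x, hx0, hx1, hx⟩ := ih (y := 2 * y - (if b then 1 else 0)) (by linarith) (by linarith)
    refine ⟨x, hx0, hx1, ?_⟩
    show y = (aff w x + _) / 2
    rw [← hx]
    ring

theorem Sup_mem10170 (e : Sup 0 1) {x : ℝ} (h0 : 0 ≤ x) (h1 : x ≤ 1) :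
    0 ≤ (e : Equiv.Perm ℝ) x ∧ (e : Equiv.Perm ℝ) x ≤ 1 := by
  obtain ⟨he, hfix⟩ := mem_Sup.1 e.2
  have hm := he.1.monotone
  have e0 := hfix 0 (Or.inl le_rfl)
  have e1 := hfix 1 (Or.inr le_rfl)
  exact ⟨e0.symm.le.trans (hm h0), (hm h1).trans e1.le⟩

theorem Sup_ext10170 {e e' : Sup 0 1} (h : ∀ x : ℝ, 0 ≤ x → x ≤ 1 →
    (e : Equiv.Perm ℝ) x = (e' : Equiv.Perm ℝ) x) : e = e' := by
  apply Subtype.ext
  apply Equiv.ext
  intro x
  by_cases hx : x ≤ 0 ∨ 1 ≤ x
  · rw [(mem_Sup.1 e.2).2 x hx, (mem_Sup.1 e'.2).2 x hx]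
  · push Not at hx
    exact h x hx.1.le hx.2.le

theorem em_em (w w' : List Bool) (e : Sup 0 1) : em w (em w' e) = em (w ++ w') e := by
  apply Sup_ext10170
  intro x hx0 hx1
  have a0 : aff w 0 ≤ aff (w ++ w') 0 := by
    rw [aff_append10170]
    exact aff_le10170 w (aff_mem10170 w' le_rfl zero_le_one).1
  have a1 : aff (w ++ w') 1 ≤ aff w 1 := by
    rw [aff_append10170]
    exact aff_le10170 w (aff_mem10170 w' zero_le_one le_rfl).2
  by_cases hx : x ≤ aff w 0 ∨ aff w 1 ≤ x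
  · rw [em_out w _ hx, em_out (w ++ w') e]
    rcases hx with h | h
    · exact Or.inl (h.trans a0)
    · exact Or.inr (a1.trans h)
  · push Not at hx
    obtain ⟨y, hy0, hy1, rfl⟩ := aff_surj10170 w hx.1.le hx.2.le
    rw [em_apply w _ hy0 hy1]
    by_cases hy : y ≤ aff w' 0 ∨ aff w' 1 ≤ y
    · rw [em_out w' e hy, em_out (w ++ w') e]
      rw [aff_append10170, aff_append10170]
      rcases hy with h | h
      · exact Or.inl (aff_le10170 w h)
      · exact Or.inr (aff_le10170 w h)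
    · push Not at hy
      obtain ⟨z, hz0, hz1, rfl⟩ := aff_surj10170 w' hy.1.le hy.2.le
      rw [em_apply w' e hz0 hz1, ← aff_append10170, ← aff_append10170, em_apply (w ++ w') e hz0 hz1]

/-- the subgroup generated by the rotations -/
noncomputable def HX10170 : Subgroup (Sup 0 1) := Subgroup.closure (Set.range (fun w => em w X))

theorem em_HX10170 (v : List Bool) {e : Sup 0 1} (he : e ∈ HX10170) : em v e ∈ HX10170 := by
  unfold HX10170 at he ⊢
  induction he using Subgroup.closure_induction with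
  | mem x hx =>
    obtain ⟨w, rfl⟩ := hx
    apply Subgroup.subset_closure
    exact ⟨v ++ w, (em_em v w X).symm⟩
  | one => rw [map_one]; exact one_mem _
  | mul x y _ _ hx hy => rw [map_mul]; exact mul_mem hx hy
  | inv x _ hx => rw [map_inv]; exact inv_mem hx

theorem X_HX10170 : X ∈ HX10170 := by
  apply Subgroup.subset_closure
  refine ⟨[], ?_⟩
  apply Sup_ext10170
  intro x h0 h1
  exact em_apply [] X h0 h1

theorem forall2_trans10170 {α : Type} {R S Q : α → α → Prop} (hQ : ∀ x y z, R x y → S y z → Q x z)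
    {a b c : List α} (h1 : List.Forall₂ R a b) (h2 : List.Forall₂ S b c) :
    List.Forall₂ Q a c := by
  induction h1 generalizing c with
  | nil =>
    cases h2
    exact List.Forall₂.nil
  | cons hr _ ih =>
    cases h2 with
    | cons hs ht => exact List.Forall₂.cons (hQ _ _ _ hr hs) (ih ht)

theorem forall2_append10170 {α : Type} {R : α → α → Prop} {a b c d : List α}
    (h1 : List.Forall₂ R a b) (h2 : List.Forall₂ R c d) : List.Forall₂ R (a ++ c) (b ++ d) := by
  induction h1 with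
  | nil => exact h2
  | cons hr _ ih => exact List.Forall₂.cons hr ih

theorem forall2_map10170 {α : Type} {R Q : α → α → Prop} (f g : α → α) {a b : List α}
    (hQ : ∀ x y, R x y → Q (f x) (g y)) (h : List.Forall₂ R a b) :
    List.Forall₂ Q (a.map f) (b.map g) := by
  induction h with
  | nil => exact List.Forall₂.nil
  | cons hr _ ih => exact List.Forall₂.cons (hQ _ _ hr) ih

theorem forall2_refl10170 {α : Type} {Q : α → α → Prop} (a : List α) (f g : α → α)
    (hQ : ∀ x, Q (f x) (g x)) : List.Forall₂ Q (a.map f) (a.map g) := by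
  induction a with
  | nil => exact List.Forall₂.nil
  | cons x a ih => exact List.Forall₂.cons (hQ x) ih

theorem forall2_and10170 {α : Type} {R Q : α → α → Prop} {a b : List α}
    (h1 : List.Forall₂ R a b) (h2 : List.Forall₂ Q a b) : ∀ u ∈ a, ∃ v, R u v ∧ Q u v := by
  induction h1 with
  | nil => intro u hu; exact absurd hu List.not_mem_nil
  | cons hr _ ih =>
    cases h2 with
    | cons hs ht =>
      intro u hu
      rcases List.mem_cons.1 hu with rfl | hu
      · exact ⟨_, hr, hs⟩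
      · exact ih ht u hu

theorem TreeMap_trans10170 {e e' : Equiv.Perm ℝ} {T S R : BT} (h : TreeMap e T S)
    (h' : TreeMap e' S R) : TreeMap (e' * e : Equiv.Perm ℝ) T R := by
  refine forall2_trans10170 ?_ h h'
  intro u v w huv hvw x h0 h1
  rw [Equiv.Perm.mul_apply, huv x h0 h1, hvw x h0 h1]

theorem TreeMap_symm10170 {e : Equiv.Perm ℝ} {T S : BT} (h : TreeMap e T S) :
    TreeMap (e⁻¹ : Equiv.Perm ℝ) S T := by
  refine List.Forall₂.flip (h.imp ?_)
  intro u v huv x h0 h1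
  rw [← huv x h0 h1, inv_left]

theorem TreeMap_node10170 {e1 e2 : Sup 0 1} {l l' r r' : BT}
    (h1 : TreeMap (e1 : Equiv.Perm ℝ) l l') (h2 : TreeMap (e2 : Equiv.Perm ℝ) r r') :
    TreeMap ((em [false] e1 * em [true] e2 : Sup 0 1) : Equiv.Perm ℝ) (BT.node l r)
      (BT.node l' r') := by
  have c1 : aff [true] 0 = 1 / 2 := by simp [aff]
  have c2 : aff [false] 1 = 1 / 2 := by simp [aff]
  refine forall2_append10170 (forall2_map10170 _ _ ?_ h1) (forall2_map10170 _ _ ?_ h2)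
  · intro u v huv x h0 h1
    have m := aff_mem10170 u h0 h1
    have e : aff (false :: u) x = aff [false] (aff u x) := aff_append10170 [false] u x
    have e' : aff (false :: v) x = aff [false] (aff v x) := aff_append10170 [false] v x
    rw [e, e', Subgroup.coe_mul, Equiv.Perm.mul_apply, em_out [true] e2 (Or.inl ?_),
      em_apply [false] e1 m.1 m.2, huv x h0 h1]
    rw [c1]
    simp [aff]
    linarith [m.2]
  · intro u v huv x h0 h1
    have m := aff_mem10170 u h0 h1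
    have m' := aff_mem10170 v h0 h1
    have e : aff (true :: u) x = aff [true] (aff u x) := aff_append10170 [true] u x
    have e' : aff (true :: v) x = aff [true] (aff v x) := aff_append10170 [true] v x
    rw [e, e', Subgroup.coe_mul, Equiv.Perm.mul_apply, em_apply [true] e2 m.1 m.2, huv x h0 h1,
      em_out [false] e1 (Or.inr ?_)]
    rw [c2]
    simp [aff]
    linarith [m'.1]

theorem TreeMap_X10170 (a b c : BT) :
    TreeMap (X : Equiv.Perm ℝ) (BT.node (BT.node a b) c) (BT.node a (BT.node b c)) := by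
  unfold TreeMap
  simp only [BT.leaves, List.map_append, List.map_map, List.append_assoc]
  refine forall2_append10170 (forall2_refl10170 _ _ _ ?_) (forall2_append10170
    (forall2_refl10170 _ _ _ ?_) (forall2_refl10170 _ _ _ ?_))
  · intro u x h0 h1
    have m := aff_mem10170 u h0 h1
    have e : aff (false :: false :: u) x = aff [false, false] (aff u x) :=
      aff_append10170 [false, false] u x
    have e' : aff (false :: u) x = aff [false] (aff u x) := aff_append10170 [false] u x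
    show (X : Equiv.Perm ℝ) (aff (false :: false :: u) x) = aff (false :: u) x
    rw [e, e', X1 m.1 m.2]
  · intro u x h0 h1
    have m := aff_mem10170 u h0 h1
    have e : aff (false :: true :: u) x = aff [false, true] (aff u x) :=
      aff_append10170 [false, true] u x
    have e' : aff (true :: false :: u) x = aff [true, false] (aff u x) :=
      aff_append10170 [true, false] u x
    show (X : Equiv.Perm ℝ) (aff (false :: true :: u) x) = aff (true :: false :: u) x
    rw [e, e', X2 m.1 m.2]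
  · intro u x h0 h1
    have m := aff_mem10170 u h0 h1
    have e : aff (true :: u) x = aff [true] (aff u x) := aff_append10170 [true] u x
    have e' : aff (true :: true :: u) x = aff [true, true] (aff u x) :=
      aff_append10170 [true, true] u x
    show (X : Equiv.Perm ℝ) (aff (true :: u) x) = aff (true :: true :: u) x
    rw [e, e', X3 m.1 m.2]

/-- right combs -/
def comb10170 : ℕ → BT
  | 0 => BT.leaf
  | n + 1 => BT.node BT.leaf (comb10170 n)

theorem TreeMap_one10170 (T : BT) : TreeMap ((1 : Sup 0 1) : Equiv.Perm ℝ) T T := by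
  have := forall2_refl10170 (Q := fun u v => ∀ x, 0 ≤ x → x ≤ 1 →
    ((1 : Sup 0 1) : Equiv.Perm ℝ) (aff u x) = aff v x) T.leaves id id (fun u x _ _ => rfl)
  rw [List.map_id] at this
  exact this

theorem comb_join10170 (a b : ℕ) : ∃ e ∈ HX10170,
    TreeMap ((e : Sup 0 1) : Equiv.Perm ℝ) (BT.node (comb10170 a) (comb10170 b))
      (comb10170 (a + b + 1)) := by
  induction a with
  | zero =>
    refine ⟨1, one_mem _, ?_⟩
    rw [Nat.zero_add]
    exact TreeMap_one10170 _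
  | succ a ih =>
    obtain ⟨e, he, ht⟩ := ih
    have h1 := TreeMap_X10170 BT.leaf (comb10170 a) (comb10170 b)
    have h2 := TreeMap_node10170 (TreeMap_one10170 BT.leaf) ht
    refine ⟨(em [false] 1 * em [true] e) * X,
      mul_mem (mul_mem (em_HX10170 _ (one_mem _)) (em_HX10170 _ he)) X_HX10170, ?_⟩
    have h3 := TreeMap_trans10170 h1 h2
    have e1 : a + 1 + b + 1 = (a + b + 1) + 1 := by ring
    rw [e1]
    exact h3

theorem comb_claim10170 (T : BT) : ∃ n, ∃ e ∈ HX10170,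
    TreeMap ((e : Sup 0 1) : Equiv.Perm ℝ) T (comb10170 n) := by
  induction T with
  | leaf => exact ⟨0, 1, one_mem _, TreeMap_one10170 _⟩
  | node l r ihl ihr =>
    obtain ⟨a, e1, he1, h1⟩ := ihl
    obtain ⟨b, e2, he2, h2⟩ := ihr
    obtain ⟨e3, he3, h3⟩ := comb_join10170 a b
    refine ⟨a + b + 1, e3 * (em [false] e1 * em [true] e2),
      mul_mem he3 (mul_mem (em_HX10170 _ he1) (em_HX10170 _ he2)), ?_⟩
    exact TreeMap_trans10170 (TreeMap_node10170 h1 h2) h3

theorem comb_leaves10170 (n : ℕ) : (comb10170 n).leaves.length = n + 1 := by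
  induction n with
  | zero => rfl
  | succ n ih =>
    simp only [comb10170, BT.leaves, List.length_append, List.length_map, ih, List.length_cons,
      List.length_nil]
    ring

theorem leaf_cover10170 (T : BT) {x : ℝ} (h0 : 0 ≤ x) (h1 : x ≤ 1) :
    ∃ u ∈ T.leaves, ∃ y, 0 ≤ y ∧ y ≤ 1 ∧ x = aff u y := by
  induction T generalizing x with
  | leaf => exact ⟨[], List.mem_singleton.2 rfl, x, h0, h1, rfl⟩
  | node l r ihl ihr =>
    rcases le_total x (1 / 2) with h | h
    · obtain ⟨u, hu, y, hy0, hy1, hxy⟩ := ihl (x := 2 * x) (by linarith) (by linarith)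
      refine ⟨false :: u, ?_, y, hy0, hy1, ?_⟩
      · exact List.mem_append.2 (Or.inl (List.mem_map.2 ⟨u, hu, rfl⟩))
      · show x = (aff u y + _) / 2
        rw [← hxy]
        simp
    · obtain ⟨u, hu, y, hy0, hy1, hxy⟩ := ihr (x := 2 * x - 1) (by linarith) (by linarith)
      refine ⟨true :: u, ?_, y, hy0, hy1, ?_⟩
      · exact List.mem_append.2 (Or.inr (List.mem_map.2 ⟨u, hu, rfl⟩))
      · show x = (aff u y + _) / 2
        rw [← hxy]
        simp

/-- `F` is generated by the rotations `em w X` -/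
theorem gen_X (h : Sup 0 1) : h ∈ Subgroup.closure (Set.range (fun w => em w X)) := by
  obtain ⟨T, S, hTS⟩ := exists_trees h.2
  obtain ⟨n, e1, he1, h1⟩ := comb_claim10170 T
  obtain ⟨m, e2, he2, h2⟩ := comb_claim10170 S
  have l1 := hTS.length_eq
  have l2 := h1.length_eq
  have l3 := h2.length_eq
  rw [comb_leaves10170] at l2 l3
  have hnm : n = m := by omega
  subst hnm
  have h3 := TreeMap_trans10170 h1 (TreeMap_symm10170 h2)
  have key : h = e2⁻¹ * e1 := by
    apply Sup_ext10170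
    intro x hx0 hx1
    obtain ⟨u, hu, y, hy0, hy1, rfl⟩ := leaf_cover10170 T hx0 hx1
    obtain ⟨v, hv1, hv2⟩ := forall2_and10170 hTS h3 u hu
    rw [hv1 y hy0 hy1]
    exact (hv2 y hy0 hy1).symm
  rw [key]
  exact mul_mem (inv_mem he2) he1


/-! #### g4 -/


theorem aff_append_10184 (w w' : List Bool) (x : ℝ) : aff (w ++ w') x = aff w (aff w' x) := by
  induction w with
  | nil => rfl
  | cons b w ih => simp only [List.cons_append, aff, ih]

theorem aff_form_10184 (w : List Bool) : ∃ c, Dy c ∧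
    ∀ x, aff w x = (2 : ℝ) ^ (-(w.length : ℤ)) * x + c := by
  induction w with
  | nil => exact ⟨0, Dy.zero, fun x => by simp [aff]⟩
  | cons b w ih =>
    obtain ⟨c, hc, h⟩ := ih
    refine ⟨(c + (if b then 1 else 0)) / 2, ?_, fun x => ?_⟩
    · apply Dy.half
      apply Dy.add hc
      split_ifs
      · exact Dy.one
      · exact Dy.zero
    · have e : (2 : ℝ) ^ (-((b :: w).length : ℤ)) = (2 : ℝ) ^ (-(w.length : ℤ)) / 2 := by
        rw [List.length_cons]
        push_cast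
        rw [neg_add, zpow_add₀ two_ne_zero, zpow_neg_one, div_eq_mul_inv]
      rw [e]
      show (aff w x + (if b then 1 else 0)) / 2 = _
      rw [h x]
      ring

theorem aff_lt_10184 (w : List Bool) {x y : ℝ} (h : x < y) : aff w x < aff w y := by
  obtain ⟨c, -, hf⟩ := aff_form_10184 w
  rw [hf, hf]
  have : (0 : ℝ) < (2 : ℝ) ^ (-(w.length : ℤ)) := zpow_pos two_pos _
  nlinarith

theorem aff_le_10184 (w : List Bool) {x y : ℝ} (h : x ≤ y) : aff w x ≤ aff w y := by
  rcases h.eq_or_lt with rfl | h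
  · exact le_rfl
  · exact (aff_lt_10184 w h).le

theorem aff_surj_10184 (w : List Bool) {y : ℝ} (h0 : aff w 0 ≤ y) (h1 : y ≤ aff w 1) :
    ∃ x, 0 ≤ x ∧ x ≤ 1 ∧ aff w x = y := by
  obtain ⟨c, -, hf⟩ := aff_form_10184 w
  have hp : (0 : ℝ) < (2 : ℝ) ^ (-(w.length : ℤ)) := zpow_pos two_pos _
  rw [hf] at h0 h1
  refine ⟨(y - c) / (2 : ℝ) ^ (-(w.length : ℤ)), ?_, ?_, ?_⟩
  · apply div_nonneg _ hp.le
    linarith
  · rw [div_le_one hp]
    linarith
  · rw [hf]
    field_simp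
    ring

theorem aff_unit_10184 (w : List Bool) : 0 ≤ aff w 0 ∧ aff w 1 ≤ 1 := by
  induction w with
  | nil => simp [aff]
  | cons b w ih =>
    obtain ⟨h0, h1⟩ := ih
    cases b
    · simp only [aff]
      constructor <;> norm_num <;> linarith
    · simp only [aff]
      constructor <;> norm_num <;> linarith

theorem aff_int0_10184 (w : List Bool) (h : true ∈ w) : 0 < aff w 0 := by
  induction w with
  | nil => simp at h
  | cons b w ih =>
    have h0 := (aff_unit_10184 w).1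
    cases b
    · have h2 : true ∈ w := by simpa using h
      have := ih h2
      simp only [aff]
      norm_num
      linarith
    · simp only [aff]
      norm_num
      linarith

theorem aff_int1_10184 (w : List Bool) (h : false ∈ w) : aff w 1 < 1 := by
  induction w with
  | nil => simp at h
  | cons b w ih =>
    have h1 := (aff_unit_10184 w).2
    cases b
    · simp only [aff]
      norm_num
      linarith
    · have h2 : false ∈ w := by simpa using h
      have := ih h2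
      simp only [aff]
      norm_num
      linarith

theorem sup_mono_10184 (e : Sup 0 1) : StrictMono (e : Equiv.Perm ℝ) := e.2.1.1

theorem sup_out_10184 (e : Sup 0 1) {x : ℝ} (h : x ≤ 0 ∨ 1 ≤ x) : (e : Equiv.Perm ℝ) x = x :=
  e.2.2 x h

theorem sup_unit_10184 (e : Sup 0 1) {x : ℝ} (h0 : 0 ≤ x) (h1 : x ≤ 1) :
    0 ≤ (e : Equiv.Perm ℝ) x ∧ (e : Equiv.Perm ℝ) x ≤ 1 := by
  have a0 := sup_out_10184 e (x := 0) (Or.inl le_rfl)
  have a1 := sup_out_10184 e (x := 1) (Or.inr le_rfl)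
  have b0 := (sup_mono_10184 e).monotone h0
  have b1 := (sup_mono_10184 e).monotone h1
  rw [a0] at b0
  rw [a1] at b1
  exact ⟨b0, b1⟩

/-- conjugation lemma -/
theorem conj_10184 (f e : Sup 0 1) (w w' : List Bool)
    (h : ∀ x, 0 ≤ x → x ≤ 1 → (f : Equiv.Perm ℝ) (aff w x) = aff w' x) :
    f * em w e = em w' e * f := by
  apply Subtype.ext
  apply Equiv.ext
  intro z
  show (f : Equiv.Perm ℝ) ((em w e : Equiv.Perm ℝ) z) =
    (em w' e : Equiv.Perm ℝ) ((f : Equiv.Perm ℝ) z)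
  rcases le_total z (aff w 0) with h0 | h0
  · rw [em_out w e (Or.inl h0), em_out w' e (Or.inl ?_)]
    rw [← h 0 le_rfl zero_le_one]
    exact (sup_mono_10184 f).monotone h0
  · rcases le_total (aff w 1) z with h1 | h1
    · rw [em_out w e (Or.inr h1), em_out w' e (Or.inr ?_)]
      rw [← h 1 zero_le_one le_rfl]
      exact (sup_mono_10184 f).monotone h1
    · obtain ⟨x, hx0, hx1, rfl⟩ := aff_surj_10184 w h0 h1
      obtain ⟨he0, he1⟩ := sup_unit_10184 e hx0 hx1
      rw [em_apply w e hx0 hx1, h _ he0 he1, h x hx0 hx1, em_apply w' e hx0 hx1]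

theorem ab_eq_10184 (f a b : Sup 0 1) (h : f * a = b * f) :
    Abelianization.of a = Abelianization.of b := by
  have h1 := congrArg Abelianization.of h
  rw [map_mul, map_mul, mul_comm] at h1
  exact mul_right_cancel h1

theorem mem_comm_10184 (a : Sup 0 1) (h : Abelianization.of a = 1) : a ∈ commutator (Sup 0 1) := by
  have h1 : a ∈ (Abelianization.of : Sup 0 1 →* Abelianization (Sup 0 1)).ker := h
  rwa [Abelianization.ker_of] at h1

/-- the affine map of a word, as an element of `PLH` -/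
theorem affE_10184 (w : List Bool) : ∃ A ∈ PLH, ∀ x, A x = aff w x := by
  obtain ⟨c, hc, hf⟩ := aff_form_10184 w
  have hp : (0 : ℝ) < (2 : ℝ) ^ (-(w.length : ℤ)) := zpow_pos two_pos _
  let A : Equiv.Perm ℝ :=
    { toFun := fun x => (2 : ℝ) ^ (-(w.length : ℤ)) * x + c
      invFun := fun y => (y - c) / (2 : ℝ) ^ (-(w.length : ℤ))
      left_inv := fun x => by
        simp only [add_sub_cancel_right]
        field_simp
      right_inv := fun y => by
        simp only []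
        field_simp
        ring }
  refine ⟨A, ⟨fun x y hxy => ?_, fun x => PLat_affine _ hc x⟩, fun x => (hf x).symm⟩
  show (2 : ℝ) ^ (-(w.length : ℤ)) * x + c < (2 : ℝ) ^ (-(w.length : ℤ)) * y + c
  nlinarith

theorem dy_aff_10184 (w : List Bool) {x : ℝ} (hx : Dy x) : Dy (aff w x) := by
  obtain ⟨c, hc, hf⟩ := aff_form_10184 w
  rw [hf]
  exact (Dy.affine hc).2 hx

theorem exists_conj_10184 (w w' : List Bool) (h0 : true ∈ w) (h1 : false ∈ w)
    (h0' : true ∈ w') (h1' : false ∈ w') :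
    ∃ f : Sup 0 1, ∀ x, 0 ≤ x → x ≤ 1 → (f : Equiv.Perm ℝ) (aff w x) = aff w' x := by
  obtain ⟨B, hB, hBw⟩ := affE_10184 w
  obtain ⟨B', hB', hBw'⟩ := affE_10184 w'
  have hA : B' * B⁻¹ ∈ PLH := PLH.mul_mem hB' (PLH.inv_mem hB)
  have hAw : ∀ x, (B' * B⁻¹ : Equiv.Perm ℝ) (aff w x) = aff w' x := by
    intro x
    rw [Equiv.Perm.mul_apply, ← hBw x, inv_left, hBw']
  have p0 := aff_int0_10184 w h0
  have p0' := aff_int0_10184 w' h0'
  have p1 := aff_int1_10184 w h1
  have p1' := aff_int1_10184 w' h1'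
  have pq := aff_lt_10184 w (zero_lt_one)
  obtain ⟨f1, hf1, f10, f1p⟩ := PLH_interp Dy.zero (dy_aff_10184 w Dy.zero) Dy.zero
    (dy_aff_10184 w' Dy.zero) p0 p0'
  obtain ⟨f3, hf3, f3q, f31⟩ := PLH_interp (dy_aff_10184 w Dy.one) Dy.one
    (dy_aff_10184 w' Dy.one) Dy.one p1 p1'
  obtain ⟨e1, he1, e1a, e1b⟩ := PLH_glue PLH.one_mem hf1 Dy.zero (by rw [f10]; rfl)
  obtain ⟨e2, he2, e2a, e2b⟩ := PLH_glue he1 hA (dy_aff_10184 w Dy.zero)
    (by rw [e1b _ p0.le, f1p, hAw])
  obtain ⟨e3, he3, e3a, e3b⟩ := PLH_glue he2 hf3 (dy_aff_10184 w Dy.one)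
    (by rw [e2b _ pq.le, hAw, f3q])
  obtain ⟨e4, he4, e4a, e4b⟩ := PLH_glue he3 PLH.one_mem Dy.one
    (by rw [e3b _ p1.le, f31]; rfl)
  refine ⟨⟨e4, he4, ?_⟩, ?_⟩
  · rintro x (hx | hx)
    · rw [e4a x (by linarith), e3a x (by linarith), e2a x (by linarith), e1a x hx]
      rfl
    · rw [e4b x hx]
      rfl
  · intro x hx0 hx1
    show e4 (aff w x) = aff w' x
    have q0 := aff_le_10184 w hx0
    have q1 := aff_le_10184 w hx1
    rw [e4a _ (by linarith), e3a _ q1, e2b _ q0, hAw]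

theorem X_out_10184 {x : ℝ} (h : x ≤ 0 ∨ 1 ≤ x) : (X : Equiv.Perm ℝ) x = x := sup_out_10184 X h

theorem aff_in_10184 (w : List Bool) {x : ℝ} (h0 : 0 ≤ x) (h1 : x ≤ 1) :
    0 ≤ aff w x ∧ aff w x ≤ 1 :=
  ⟨(aff_unit_10184 w).1.trans (aff_le_10184 w h0), (aff_le_10184 w h1).trans (aff_unit_10184 w).2⟩

/-- pentagon relation -/
theorem pentagon : X * X = em [true] X * X * em [false] X := by
  apply Subtype.ext
  apply Equiv.ext
  intro z
  show (X : Equiv.Perm ℝ) ((X : Equiv.Perm ℝ) z) = (em [true] X : Equiv.Perm ℝ)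
    ((X : Equiv.Perm ℝ) ((em [false] X : Equiv.Perm ℝ) z))
  by_cases hout : z ≤ 0 ∨ 1 ≤ z
  · rw [sup_out_10184 (em [false] X) hout, sup_out_10184 X hout, sup_out_10184 X hout,
      sup_out_10184 (em [true] X) hout]
  · push Not at hout
    obtain ⟨hz0, hz1⟩ := hout
    rcases le_total z (1 / 8) with c1 | c1
    · obtain ⟨x, hx0, hx1, rfl⟩ := aff_surj_10184 [false, false, false] (y := z)
        (by simp [aff]; linarith) (by simp [aff]; linarith)
      obtain ⟨a0, a1⟩ := aff_in_10184 [false] hx0 hx1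
      obtain ⟨b0, b1⟩ := aff_in_10184 [false, false] hx0 hx1
      have s1 : (X : Equiv.Perm ℝ) (aff [false, false, false] x) = aff [false, false] x :=
        X1 a0 a1
      have s2 : (X : Equiv.Perm ℝ) (aff [false, false] x) = aff [false] x := X1 hx0 hx1
      have s3 : (em [false] X : Equiv.Perm ℝ) (aff [false, false, false] x) =
          aff [false, false] x := by
        have := em_apply [false] X b0 b1
        rw [s2] at this
        exact this
      have s4 : (em [true] X : Equiv.Perm ℝ) (aff [false] x) = aff [false] x := by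
        apply em_out
        left
        simp [aff]
        linarith
      rw [s1, s2, s3, s2, s4]
    · rcases le_total z (1 / 4) with c2 | c2
      · obtain ⟨x, hx0, hx1, rfl⟩ := aff_surj_10184 [false, false, true] (y := z)
          (by simp [aff]; linarith) (by simp [aff]; linarith)
        obtain ⟨a0, a1⟩ := aff_in_10184 [true] hx0 hx1
        obtain ⟨b0, b1⟩ := aff_in_10184 [false, true] hx0 hx1
        obtain ⟨c0, c1⟩ := aff_in_10184 [false] hx0 hx1
        obtain ⟨d0, d1⟩ := aff_in_10184 [false, false] hx0 hx1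
        have s1 : (X : Equiv.Perm ℝ) (aff [false, false, true] x) = aff [false, true] x :=
          X1 a0 a1
        have s2 : (X : Equiv.Perm ℝ) (aff [false, true] x) = aff [true, false] x := X2 hx0 hx1
        have s3 : (em [false] X : Equiv.Perm ℝ) (aff [false, false, true] x) =
            aff [false, true, false] x := by
          have := em_apply [false] X b0 b1
          rw [s2] at this
          exact this
        have s4 : (X : Equiv.Perm ℝ) (aff [false, true, false] x) = aff [true, false, false] x :=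
          X2 c0 c1
        have s5 : (em [true] X : Equiv.Perm ℝ) (aff [true, false, false] x) =
            aff [true, false] x := by
          have := em_apply [true] X d0 d1
          rw [X1 hx0 hx1] at this
          exact this
        rw [s1, s2, s3, s4, s5]
      · rcases le_total z (1 / 2) with c3 | c3
        · obtain ⟨x, hx0, hx1, rfl⟩ := aff_surj_10184 [false, true] (y := z)
            (by simp [aff]; linarith) (by simp [aff]; linarith)
          obtain ⟨a0, a1⟩ := aff_in_10184 [true] hx0 hx1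
          obtain ⟨b0, b1⟩ := aff_in_10184 [false] hx0 hx1
          obtain ⟨d0, d1⟩ := aff_in_10184 [false, true] hx0 hx1
          have s1 : (X : Equiv.Perm ℝ) (aff [false, true] x) = aff [true, false] x := X2 hx0 hx1
          have s2 : (X : Equiv.Perm ℝ) (aff [true, false] x) = aff [true, true, false] x :=
            X3 b0 b1
          have s3 : (em [false] X : Equiv.Perm ℝ) (aff [false, true] x) =
              aff [false, true, true] x := by
            have := em_apply [false] X a0 a1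
            rw [X3 hx0 hx1] at this
            exact this
          have s4 : (X : Equiv.Perm ℝ) (aff [false, true, true] x) = aff [true, false, true] x :=
            X2 a0 a1
          have s5 : (em [true] X : Equiv.Perm ℝ) (aff [true, false, true] x) =
              aff [true, true, false] x := by
            have := em_apply [true] X d0 d1
            rw [s1] at this
            exact this
          rw [s1, s2, s3, s4, s5]
        · obtain ⟨x, hx0, hx1, rfl⟩ := aff_surj_10184 [true] (y := z)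
            (by simp [aff]; linarith) (by simp [aff]; linarith)
          obtain ⟨a0, a1⟩ := aff_in_10184 [true] hx0 hx1
          have s1 : (X : Equiv.Perm ℝ) (aff [true] x) = aff [true, true] x := X3 hx0 hx1
          have s2 : (X : Equiv.Perm ℝ) (aff [true, true] x) = aff [true, true, true] x :=
            X3 a0 a1
          have s3 : (em [false] X : Equiv.Perm ℝ) (aff [true] x) = aff [true] x := by
            apply em_out
            right
            simp [aff]
            linarith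
          have s4 : (em [true] X : Equiv.Perm ℝ) (aff [true, true] x) =
              aff [true, true, true] x := by
            have := em_apply [true] X a0 a1
            rw [s1] at this
            exact this
          rw [s3, s1, s2, s4]

/-- interior rotations are commutator products -/
theorem em_X_mem (w : List Bool) (h0 : true ∈ w) (h1 : false ∈ w) :
    em w X ∈ commutator (Sup 0 1) := by
  apply mem_comm_10184
  have key : ∀ w' : List Bool, true ∈ w' → false ∈ w' →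
      Abelianization.of (em w X) = Abelianization.of (em w' X) := by
    intro w' h0' h1'
    obtain ⟨f, hf⟩ := exists_conj_10184 w w' h0 h1 h0' h1'
    exact ab_eq_10184 f _ _ (conj_10184 f X w w' hf)
  have h2 := congrArg (em w) pentagon
  rw [map_mul, map_mul, map_mul, em_em, em_em] at h2
  have h3 := congrArg Abelianization.of h2
  rw [map_mul, map_mul, map_mul, ← key (w ++ [true]) (by simp [h0]) (by simp [h1]),
    ← key (w ++ [false]) (by simp [h0]) (by simp [h1])] at h3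
  have h4 : Abelianization.of (em w X) * Abelianization.of (em w X) * 1 =
      Abelianization.of (em w X) * Abelianization.of (em w X) * Abelianization.of (em w X) := by
    rw [mul_one]; exact h3
  exact (mul_left_cancel h4).symm

/-- rotations along the left edge are all equal modulo commutators -/
theorem em_X_left (n : ℕ) : (em (List.replicate (n + 1) false) X)⁻¹ * em [false] X ∈
    commutator (Sup 0 1) := by
  apply mem_comm_10184
  rw [map_mul, map_inv, inv_mul_eq_one]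
  induction n with
  | zero => rfl
  | succ n ih =>
    rw [← ih]
    apply ab_eq_10184 (em (List.replicate n false) X)
    apply conj_10184
    intro x hx0 hx1
    have e1 : List.replicate (n + 1 + 1) false = List.replicate n false ++ [false, false] := by
      rw [List.replicate_succ', List.replicate_succ', List.append_assoc]
      rfl
    have e2 : List.replicate (n + 1) false = List.replicate n false ++ [false] :=
      List.replicate_succ'
    obtain ⟨a0, a1⟩ := aff_in_10184 [false, false] hx0 hx1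
    rw [e1, e2, aff_append_10184, aff_append_10184, em_apply _ _ a0 a1, X1 hx0 hx1]

theorem em_X_right (n : ℕ) : (em (List.replicate (n + 1) true) X)⁻¹ * em [true] X ∈
    commutator (Sup 0 1) := by
  apply mem_comm_10184
  rw [map_mul, map_inv, inv_mul_eq_one]
  induction n with
  | zero => rfl
  | succ n ih =>
    rw [← ih]
    symm
    apply ab_eq_10184 (em (List.replicate n true) X)
    apply conj_10184
    intro x hx0 hx1
    have e1 : List.replicate (n + 1 + 1) true = List.replicate n true ++ [true, true] := by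
      rw [List.replicate_succ', List.replicate_succ', List.append_assoc]
      rfl
    have e2 : List.replicate (n + 1) true = List.replicate n true ++ [true] :=
      List.replicate_succ'
    obtain ⟨a0, a1⟩ := aff_in_10184 [true] hx0 hx1
    rw [e1, e2, aff_append_10184, aff_append_10184, em_apply _ _ a0 a1, X3 hx0 hx1]


/-! #### g5 -/


theorem aff_nonneg10185 (w : List Bool) : 0 ≤ aff w 0 := by
  induction w with
  | nil => simp [aff]
  | cons b w ih =>
    simp only [aff]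
    cases b <;> simp <;> linarith

theorem aff_le_one10185 (w : List Bool) : aff w 1 ≤ 1 := by
  induction w with
  | nil => simp [aff]
  | cons b w ih =>
    simp only [aff]
    cases b <;> simp <;> linarith

theorem aff_pos10185 (w : List Bool) (h : true ∈ w) : 0 < aff w 0 := by
  induction w with
  | nil => simp at h
  | cons b w ih =>
    have h1 := aff_nonneg10185 w
    simp only [aff]
    cases b with
    | true => simp; linarith
    | false =>
      have h2 : true ∈ w := by simpa using h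
      have := ih h2
      simp; linarith

theorem aff_lt_one10185 (w : List Bool) (h : false ∈ w) : aff w 1 < 1 := by
  induction w with
  | nil => simp at h
  | cons b w ih =>
    have h1 := aff_le_one10185 w
    simp only [aff]
    cases b with
    | false => simp; linarith
    | true =>
      have h2 : false ∈ w := by simpa using h
      have := ih h2
      simp; linarith

theorem aff_false10185 (m : ℕ) (z : ℝ) : aff (List.replicate m false) z = z / 2 ^ m := by
  induction m with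
  | zero => simp [aff]
  | succ m ih =>
    rw [List.replicate_succ]
    simp only [aff]
    rw [ih, pow_succ]
    simp
    field_simp

theorem aff_true10185 (m : ℕ) (z : ℝ) : aff (List.replicate m true) z = 1 - (1 - z) / 2 ^ m := by
  induction m with
  | zero => simp [aff]
  | succ m ih =>
    rw [List.replicate_succ]
    simp only [aff]
    rw [ih, pow_succ]
    simp
    field_simp
    ring

theorem X_zero10185 {y : ℝ} (h0 : 0 ≤ y) (h1 : y ≤ 1 / 4) : (X : Equiv.Perm ℝ) y = 2 * y := by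
  have h := X1 (x := 4 * y) (by linarith) (by linarith)
  simp only [aff] at h
  norm_num at h
  rw [show (4 * y / 2 / 2 : ℝ) = y by ring, show (4 * y / 2 : ℝ) = 2 * y by ring] at h
  exact h

theorem X_one10185 {z : ℝ} (h0 : 1 / 2 ≤ z) (h1 : z ≤ 1) :
    (X : Equiv.Perm ℝ) z = (z + 1) / 2 := by
  have h := X3 (x := 2 * z - 1) (by linarith) (by linarith)
  simp only [aff] at h
  norm_num at h
  exact h

theorem RG_in10185 (w : List Bool) (h : true ∈ w) : RG (em w X : Equiv.Perm ℝ) 0 0 0 := by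
  refine ⟨Dy.zero, aff w 0, aff_pos10185 w h, fun y _ h2 => ?_⟩
  rw [zero_add] at h2
  rw [em_out w X (Or.inl h2.le)]
  simp

theorem LG_in10185 (w : List Bool) (h : false ∈ w) : LG (em w X : Equiv.Perm ℝ) 1 0 0 := by
  refine ⟨Dy.zero, 1 - aff w 1, by linarith [aff_lt_one10185 w h], fun y h1 _ => ?_⟩
  rw [em_out w X (Or.inr (by linarith))]
  simp

theorem RG_false10185 (m : ℕ) :
    RG (em (List.replicate m false) X : Equiv.Perm ℝ) 0 1 0 := by
  have hm : (0 : ℝ) < 2 ^ m := by positivity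
  refine ⟨Dy.zero, 1 / (4 * 2 ^ m), by positivity, fun y h0 h1 => ?_⟩
  rw [zero_add, lt_div_iff₀ (by positivity)] at h1
  have h2 : 0 ≤ y * 2 ^ m := by positivity
  have h3 : y * 2 ^ m ≤ 1 / 4 := by linarith
  have h4 := em_apply (List.replicate m false) X (x := y * 2 ^ m) h2 (by linarith)
  rw [X_zero10185 h2 h3, aff_false10185, aff_false10185, mul_div_assoc, div_self hm.ne',
    mul_one] at h4
  rw [h4]
  field_simp
  simp

theorem LG_true10185 (m : ℕ) :
    LG (em (List.replicate m true) X : Equiv.Perm ℝ) 1 (-1) (1 / 2) := by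
  have hm : (0 : ℝ) < 2 ^ m := by positivity
  refine ⟨Dy.half Dy.one, 1 / (2 * 2 ^ m), by positivity, fun y h0 h1 => ?_⟩
  have h2 : 1 - y < 1 / (2 * 2 ^ m) := by linarith
  rw [lt_div_iff₀ (by positivity)] at h2
  have h5 : 0 ≤ (1 - y) * 2 ^ m := mul_nonneg (by linarith) hm.le
  have h6 : (1 - y) * 2 ^ m ≤ 1 / 2 := by linarith
  have h4 := em_apply (List.replicate m true) X (x := 1 - (1 - y) * 2 ^ m) (by linarith)
    (by linarith)
  rw [X_one10185 (by linarith) (by linarith), aff_true10185, aff_true10185] at h4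
  have h7 : (1 : ℝ) - (1 - (1 - (1 - y) * 2 ^ m)) / 2 ^ m = y := by
    field_simp
    ring
  rw [h7] at h4
  rw [h4]
  rw [zpow_neg, zpow_one]
  field_simp
  ring

theorem em_nil10185 : em [] X = X := by
  apply Subtype.ext
  apply Equiv.ext
  intro x
  by_cases h : x ≤ 0 ∨ 1 ≤ x
  · have h1 := em_out [] X (x := x) (by simpa [aff] using h)
    rw [h1]
    exact (X.2.2 x h).symm
  · push Not at h
    have h1 := em_apply [] X (x := x) h.1.le h.2.le
    simpa [aff] using h1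

theorem of_eq10185 {G : Type*} [Group G] {a b : G} (h : a⁻¹ * b ∈ commutator G) :
    Abelianization.of a = Abelianization.of b := by
  have h1 : Abelianization.of (a⁻¹ * b) = 1 := by
    rw [← MonoidHom.mem_ker, Abelianization.ker_of]
    exact h
  rw [map_mul, map_inv] at h1
  exact inv_mul_eq_one.mp h1

theorem char10185 (h : Sup 0 1) : ∃ (a b : ℤ) (c c' : ℝ),
    RG (h : Equiv.Perm ℝ) 0 a c ∧ LG (h : Equiv.Perm ℝ) 1 b c' ∧
      Abelianization.of h = Abelianization.of (em [false] X) ^ a *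
        Abelianization.of (em [true] X) ^ (-b) := by
  induction gen_X h using Subgroup.closure_induction with
  | mem x hx =>
    obtain ⟨w, rfl⟩ := hx
    simp only
    by_cases ht : true ∈ w
    · by_cases hf : false ∈ w
      · refine ⟨0, 0, 0, 0, RG_in10185 w ht, LG_in10185 w hf, ?_⟩
        rw [neg_zero, zpow_zero, zpow_zero, mul_one, ← MonoidHom.mem_ker, Abelianization.ker_of]
        exact em_X_mem w ht hf
      · have hw : w = List.replicate w.length true := by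
          apply List.eq_replicate_of_mem
          intro b hb
          cases b with
          | true => rfl
          | false => exact absurd hb hf
        obtain ⟨n, hn⟩ : ∃ n, w.length = n + 1 := by
          cases w with
          | nil => simp at ht
          | cons b w => exact ⟨w.length, rfl⟩
        rw [hn] at hw
        refine ⟨0, -1, 0, 1 / 2, RG_in10185 w ht, ?_, ?_⟩
        · rw [hw]; exact LG_true10185 (n + 1)
        · rw [hw, zpow_zero, one_mul, neg_neg, zpow_one]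
          exact of_eq10185 (em_X_right n)
    · have hw : w = List.replicate w.length false := by
        apply List.eq_replicate_of_mem
        intro b hb
        cases b with
        | false => rfl
        | true => exact absurd hb ht
      cases hwl : w.length with
      | zero =>
        have hw0 : w = [] := List.eq_nil_of_length_eq_zero hwl
        subst hw0
        have hR := RG_false10185 0
        have hL := LG_true10185 0
        rw [List.replicate_zero] at hR hL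
        refine ⟨1, -1, 0, 1 / 2, hR, hL, ?_⟩
        rw [em_nil10185, neg_neg, zpow_one, zpow_one]
        have h1 := congrArg Abelianization.of pentagon
        rw [map_mul, map_mul, map_mul] at h1
        have h2 : Abelianization.of X * Abelianization.of X =
            Abelianization.of X *
              (Abelianization.of (em [false] X) * Abelianization.of (em [true] X)) := by
          rw [h1, mul_comm (Abelianization.of (em [true] X)) (Abelianization.of X), mul_assoc,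
            mul_comm (Abelianization.of (em [true] X))]
        exact mul_left_cancel h2
      | succ n =>
        rw [hwl] at hw
        have hf : false ∈ w := by rw [hw]; simp
        refine ⟨1, 0, 0, 0, ?_, LG_in10185 w hf, ?_⟩
        · rw [hw]; exact RG_false10185 (n + 1)
        · rw [hw, neg_zero, zpow_zero, mul_one, zpow_one]
          exact of_eq10185 (em_X_left n)
  | one =>
    refine ⟨0, 0, 0, 0, ⟨Dy.zero, 1, one_pos, fun y _ _ => by simp⟩,
      ⟨Dy.zero, 1, one_pos, fun y _ _ => by simp⟩, ?_⟩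
    rw [neg_zero, zpow_zero, zpow_zero, mul_one, map_one]
  | mul x y _ _ hx hy =>
    obtain ⟨a, b, c, c', h1, h2, h3⟩ := hx
    obtain ⟨a', b', d, d', h1', h2', h3'⟩ := hy
    have hy0 : (y : Equiv.Perm ℝ) 0 = 0 := y.2.2 0 (Or.inl le_rfl)
    have hy1 : (y : Equiv.Perm ℝ) 1 = 1 := y.2.2 1 (Or.inr le_rfl)
    have h1c := RG.comp (f := (x : Equiv.Perm ℝ)) (g := (y : Equiv.Perm ℝ)) h1'
      (by rw [hy0]; exact h1)
    have h2c := LG.comp (f := (x : Equiv.Perm ℝ)) (g := (y : Equiv.Perm ℝ)) h2'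
      (by rw [hy1]; exact h2)
    refine ⟨a + a', b + b', _, _, h1c, h2c, ?_⟩
    rw [map_mul, h3, h3', neg_add, zpow_add, zpow_add]
    exact mul_mul_mul_comm _ _ _ _
  | inv x _ hx =>
    obtain ⟨a, b, c, c', h1, h2, h3⟩ := hx
    have hx0 : (x : Equiv.Perm ℝ) 0 = 0 := x.2.2 0 (Or.inl le_rfl)
    have hx1 : (x : Equiv.Perm ℝ) 1 = 1 := x.2.2 1 (Or.inr le_rfl)
    have h1' := RG.linv (h := ((x : Equiv.Perm ℝ)⁻¹ : Equiv.Perm ℝ)) h1 (inv_left _)
    have h2' := LG.linv (h := ((x : Equiv.Perm ℝ)⁻¹ : Equiv.Perm ℝ)) h2 (inv_left _)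
    rw [hx0] at h1'
    rw [hx1] at h2'
    refine ⟨-a, -b, _, _, h1', h2', ?_⟩
    rw [map_inv, h3, mul_inv, ← zpow_neg, ← zpow_neg]

/-- compactly supported elements are products of commutators -/
theorem mem_commutator {ε : ℝ} (hε : 0 < ε) (h : Sup 0 1)
    (hh : (h : Equiv.Perm ℝ) ∈ Sup ε (1 - ε)) : h ∈ commutator (Sup 0 1) := by
  obtain ⟨a, b, c, c', h1, h2, h3⟩ := char10185 h
  have h4 : RG (h : Equiv.Perm ℝ) 0 0 0 := by
    refine ⟨Dy.zero, ε, hε, fun y _ hy => ?_⟩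
    rw [hh.2 y (Or.inl (by linarith))]
    simp
  have h5 : LG (h : Equiv.Perm ℝ) 1 0 0 := by
    refine ⟨Dy.zero, ε, hε, fun y hy _ => ?_⟩
    rw [hh.2 y (Or.inr (by linarith))]
    simp
  have ha := (RG.unique h1 h4).1
  have hb := (LG.unique h2 h5).1
  rw [ha, hb, neg_zero, zpow_zero, zpow_zero, mul_one, ← MonoidHom.mem_ker,
    Abelianization.ker_of] at h3
  exact h3



/-! #### g6 -/


theorem conj_Sup_10186 {s t : ℝ} {P : Equiv.Perm ℝ} (hP : P ∈ PLH) (h0 : P 0 = s) (h1 : P 1 = t)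
    {g : Equiv.Perm ℝ} (hg : g ∈ Sup 0 1) : P * g * P⁻¹ ∈ Sup s t := by
  refine ⟨PLH.mul_mem (PLH.mul_mem hP hg.1) (PLH.inv_mem hP), fun x hx => ?_⟩
  have hx' : P⁻¹ x ≤ 0 ∨ 1 ≤ P⁻¹ x := by
    rcases hx with hx | hx
    · left
      rw [← hP.1.le_iff_le, inv_right, h0]
      exact hx
    · right
      rw [← hP.1.le_iff_le, inv_right, h1]
      exact hx
  rw [Equiv.Perm.mul_apply, Equiv.Perm.mul_apply, hg.2 _ hx', inv_right]

theorem swap_prod_10186 (L : List (Equiv.Perm ℝ × Equiv.Perm ℝ)) :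
    ((L.map (fun p => p.1 * p.2 * p.1⁻¹ * p.2⁻¹)).prod)⁻¹ =
      (((L.map Prod.swap).reverse).map (fun p => p.1 * p.2 * p.1⁻¹ * p.2⁻¹)).prod := by
  rw [List.prod_inv_reverse, List.map_reverse, List.map_map, List.map_map]
  congr 2

/-- compactly supported elements in a dyadic interval are products of commutators -/
theorem comm_prod {s t : ℝ} (hs : Dy s) (ht : Dy t) {ε : ℝ} (hε : 0 < ε) {h : Equiv.Perm ℝ}
    (hh : h ∈ Sup (s + ε) (t - ε)) : ∃ L : List (Equiv.Perm ℝ × Equiv.Perm ℝ),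
      (∀ p ∈ L, p.1 ∈ Sup s t ∧ p.2 ∈ Sup s t) ∧
      h = (L.map (fun p => p.1 * p.2 * p.1⁻¹ * p.2⁻¹)).prod := by
  by_cases hst : t - ε ≤ s + ε
  · refine ⟨[], by simp, ?_⟩
    rw [List.map_nil, List.prod_nil]
    ext x
    rcases le_total x (s + ε) with hx | hx
    · exact hh.2 x (Or.inl hx)
    · exact hh.2 x (Or.inr (hst.trans hx))
  push Not at hst
  obtain ⟨P, hP, hP0, hP1⟩ := PLH_interp Dy.zero Dy.one hs ht zero_lt_one (by linarith)
  have hPc : Continuous P := PLf.cont hP.2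
  have hd0 : ∀ᶠ x in nhds (0:ℝ), P x < s + ε :=
    hPc.continuousAt.eventually_lt_const (by rw [hP0]; linarith)
  have hd1 : ∀ᶠ x in nhds (1:ℝ), t - ε < P x :=
    hPc.continuousAt.eventually_const_lt (by rw [hP1]; linarith)
  obtain ⟨δ0, hδ0, hd0⟩ := Metric.eventually_nhds_iff.1 hd0
  obtain ⟨δ1, hδ1, hd1⟩ := Metric.eventually_nhds_iff.1 hd1
  set δ := min δ0 δ1 / 2 with hδ
  have hm : 0 < min δ0 δ1 := lt_min hδ0 hδ1
  have hδp : 0 < δ := by rw [hδ]; linarith
  have hPa : P δ < s + ε := by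
    apply hd0
    rw [Real.dist_eq, sub_zero, abs_of_pos hδp]
    have := min_le_left δ0 δ1
    linarith
  have hPb : t - ε < P (1 - δ) := by
    apply hd1
    rw [Real.dist_eq, show (1:ℝ) - δ - 1 = -δ by ring, abs_neg, abs_of_pos hδp]
    have := min_le_right δ0 δ1
    linarith
  have hh' : P⁻¹ * h * P ∈ Sup δ (1 - δ) := by
    refine ⟨PLH.mul_mem (PLH.mul_mem (PLH.inv_mem hP) hh.1) hP, fun x hx => ?_⟩
    have hx' : P x ≤ s + ε ∨ t - ε ≤ P x := by
      rcases hx with hx | hx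
      · left
        exact (hP.1.monotone hx).trans hPa.le
      · right
        exact hPb.le.trans (hP.1.monotone hx)
    rw [Equiv.Perm.mul_apply, Equiv.Perm.mul_apply, hh.2 _ hx', inv_left]
  have hh0 : P⁻¹ * h * P ∈ Sup 0 1 := Sup.mono hδp.le (by linarith) hh'
  have key : ∀ x ∈ commutator (Sup 0 1), ∃ L : List (Equiv.Perm ℝ × Equiv.Perm ℝ),
      (∀ p ∈ L, p.1 ∈ Sup s t ∧ p.2 ∈ Sup s t) ∧
      P * (x : Equiv.Perm ℝ) * P⁻¹ = (L.map (fun p => p.1 * p.2 * p.1⁻¹ * p.2⁻¹)).prod := by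
    intro x hx
    rw [commutator_eq_closure] at hx
    induction hx using Subgroup.closure_induction with
    | mem x hx =>
      obtain ⟨g₁, g₂, rfl⟩ := hx
      refine ⟨[(P * g₁ * P⁻¹, P * g₂ * P⁻¹)], ?_, ?_⟩
      · intro p hp
        rw [List.mem_singleton] at hp
        subst hp
        exact ⟨conj_Sup_10186 hP hP0 hP1 g₁.2, conj_Sup_10186 hP hP0 hP1 g₂.2⟩
      · rw [List.map_singleton, List.prod_singleton, commutatorElement_def]
        push_cast
        group
    | one => exact ⟨[], by simp, by simp⟩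
    | mul x y _ _ ihx ihy =>
      obtain ⟨L1, h1, e1⟩ := ihx
      obtain ⟨L2, h2, e2⟩ := ihy
      refine ⟨L1 ++ L2, ?_, ?_⟩
      · intro p hp
        rcases List.mem_append.1 hp with hp | hp
        · exact h1 p hp
        · exact h2 p hp
      · rw [List.map_append, List.prod_append, ← e1, ← e2]
        push_cast
        group
    | inv x _ ih =>
      obtain ⟨L1, h1, e1⟩ := ih
      refine ⟨(L1.map Prod.swap).reverse, ?_, ?_⟩
      · intro p hp
        rw [List.mem_reverse, List.mem_map] at hp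
        obtain ⟨q, hq, rfl⟩ := hp
        exact ⟨(h1 q hq).2, (h1 q hq).1⟩
      · rw [← swap_prod_10186, ← e1]
        push_cast
        group
  obtain ⟨L, hL, e⟩ := key ⟨P⁻¹ * h * P, hh0⟩ (mem_commutator hδp ⟨P⁻¹ * h * P, hh0⟩ hh')
  refine ⟨L, hL, ?_⟩
  rw [← e]
  group



/-! #### g7 -/


theorem fix_mul10187 {S : Set ℝ} {p q : Equiv.Perm ℝ} (hp : ∀ x, x ∉ S → p x = x)
    (hq : ∀ x, x ∉ S → q x = x) : ∀ x, x ∉ S → (p * q) x = x := by
  intro x hx
  rw [Equiv.Perm.mul_apply, hq x hx, hp x hx]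

theorem fix_inv10187 {S : Set ℝ} {p : Equiv.Perm ℝ} (hp : ∀ x, x ∉ S → p x = x) :
    ∀ x, x ∉ S → p⁻¹ x = x := by
  intro x hx
  rw [Equiv.Perm.inv_eq_iff_eq]
  exact (hp x hx).symm

theorem fix_comm10187 {S T : Set ℝ} {p q : Equiv.Perm ℝ} (hp : ∀ x, x ∉ S → p x = x)
    (hq : ∀ x, x ∉ T → q x = x) (h : ∀ x ∈ S, x ∉ T) : Commute p q := by
  apply Equiv.Perm.Disjoint.commute
  intro x
  by_cases hx : x ∈ S
  · exact Or.inr (hq x (h x hx))
  · exact Or.inl (hp x hx)

theorem comm_merge10187 {H : Type*} [Group H] {F M A B : H} (hFA : Commute F A)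
    (hFB : Commute F B) (hMA : Commute M A) (hMB : Commute M B) :
    F * M * F⁻¹ * M⁻¹ * (A * B * A⁻¹ * B⁻¹) =
      (F * A) * (M * B) * (F * A)⁻¹ * (M * B)⁻¹ := by
  have h1 : A * M = M * A := hMA.symm.eq
  have h2 : (A * B * A⁻¹) * F⁻¹ = F⁻¹ * (A * B * A⁻¹) :=
    (((hFA.mul_right hFB).mul_right hFA.inv_right).inv_left).symm.eq
  have h3 : (A * B * A⁻¹ * B⁻¹) * M⁻¹ = M⁻¹ * (A * B * A⁻¹ * B⁻¹) :=
    ((((hMA.mul_right hMB).mul_right hMA.inv_right).mul_right hMB.inv_right).inv_left).symm.eq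
  symm
  calc (F * A) * (M * B) * (F * A)⁻¹ * (M * B)⁻¹
      = F * (A * M) * B * A⁻¹ * F⁻¹ * B⁻¹ * M⁻¹ := by group
    _ = F * (M * A) * B * A⁻¹ * F⁻¹ * B⁻¹ * M⁻¹ := by rw [h1]
    _ = F * M * ((A * B * A⁻¹) * F⁻¹) * B⁻¹ * M⁻¹ := by group
    _ = F * M * (F⁻¹ * (A * B * A⁻¹)) * B⁻¹ * M⁻¹ := by rw [h2]
    _ = F * M * F⁻¹ * ((A * B * A⁻¹ * B⁻¹) * M⁻¹) := by group
    _ = F * M * F⁻¹ * (M⁻¹ * (A * B * A⁻¹ * B⁻¹)) := by rw [h3]
    _ = F * M * F⁻¹ * M⁻¹ * (A * B * A⁻¹ * B⁻¹) := by group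

theorem step10187 {H : Type*} [Group H] {t K A B f g h : H}
    (hh : h = (K * t * K⁻¹ * t⁻¹) * (A * B * A⁻¹ * B⁻¹))
    (hc : Commute h (A * B * A⁻¹ * B⁻¹))
    (hFA : Commute (h * f * h⁻¹) A) (hFB : Commute (h * f * h⁻¹) B)
    (hMA : Commute (h * g * h⁻¹) A) (hMB : Commute (h * g * h⁻¹) B) :
    h * (f * g * f⁻¹ * g⁻¹) =
      ((h * (f * g * f⁻¹ * g⁻¹) * t * K * t⁻¹) * t * (h * (f * g * f⁻¹ * g⁻¹) * t * K * t⁻¹)⁻¹ *
        t⁻¹) * ((t * (h * f * h⁻¹ * A) * t⁻¹) * (t * (h * g * h⁻¹ * B) * t⁻¹) *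
        (t * (h * f * h⁻¹ * A) * t⁻¹)⁻¹ * (t * (h * g * h⁻¹ * B) * t⁻¹)⁻¹) := by
  have h1 := comm_merge10187 hFA hFB hMA hMB
  set E := A * B * A⁻¹ * B⁻¹ with hE
  have h2 : K * t * K⁻¹ * t⁻¹ = h * E⁻¹ := by rw [eq_mul_inv_iff_mul_eq]; exact hh.symm
  set c := f * g * f⁻¹ * g⁻¹ with hcdef
  have h3 : (t * (h * f * h⁻¹ * A) * t⁻¹) * (t * (h * g * h⁻¹ * B) * t⁻¹) *
        (t * (h * f * h⁻¹ * A) * t⁻¹)⁻¹ * (t * (h * g * h⁻¹ * B) * t⁻¹)⁻¹ =
      t * (h * c * h⁻¹ * E) * t⁻¹ := by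
    have e : h * c * h⁻¹ = (h * f * h⁻¹) * (h * g * h⁻¹) * (h * f * h⁻¹)⁻¹ * (h * g * h⁻¹)⁻¹ := by
      rw [hcdef]; group
    rw [e, h1]
    group
  have h4 : (h * c * t * K * t⁻¹) * t * (h * c * t * K * t⁻¹)⁻¹ * t⁻¹ =
      h * c * t * (h * E⁻¹) * (h * c)⁻¹ * t⁻¹ := by
    rw [← h2]; group
  have h5 : E⁻¹ * h⁻¹ = h⁻¹ * E⁻¹ := hc.inv_inv.symm.eq
  rw [h3, h4]
  symm
  calc h * c * t * (h * E⁻¹) * (h * c)⁻¹ * t⁻¹ * (t * (h * c * h⁻¹ * E) * t⁻¹)
      = h * c * t * h * (E⁻¹ * h⁻¹) * E * t⁻¹ := by group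
    _ = h * c * t * h * (h⁻¹ * E⁻¹) * E * t⁻¹ := by rw [h5]
    _ = h * c := by group

/-- displacement: a product of commutators supported in a displaceable set is a product of two -/
theorem bip2 {G : Subgroup (Equiv.Perm ℝ)} (L : List (Equiv.Perm ℝ × Equiv.Perm ℝ)) (U : Set ℝ)
    (t : Equiv.Perm ℝ) (ht : t ∈ G)
    (hL : ∀ p ∈ L, (p.1 ∈ G ∧ ∀ x, x ∉ U → p.1 x = x) ∧ (p.2 ∈ G ∧ ∀ x, x ∉ U → p.2 x = x))
    (hU : ∀ j : ℕ, 1 ≤ j → ∀ x ∈ U, (t ^ j) x ∉ U) :
    ∃ K ∈ G, ∃ A ∈ G, ∃ B ∈ G, (L.map (fun p => p.1 * p.2 * p.1⁻¹ * p.2⁻¹)).prod =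
      (K * t * K⁻¹ * t⁻¹) * (A * B * A⁻¹ * B⁻¹) := by
  set W : Set ℝ := {x | ∃ j : ℕ, 1 ≤ j ∧ ∃ u ∈ U, (t ^ j) u = x} with hW
  have hUW : ∀ x ∈ U, x ∉ W := by
    rintro x hx ⟨j, hj, u, hu, rfl⟩
    exact hU j hj u hu hx
  have main : ∀ L : List (Equiv.Perm ℝ × Equiv.Perm ℝ),
      (∀ p ∈ L, (p.1 ∈ G ∧ ∀ x, x ∉ U → p.1 x = x) ∧ (p.2 ∈ G ∧ ∀ x, x ∉ U → p.2 x = x)) →
      (L.map (fun p => p.1 * p.2 * p.1⁻¹ * p.2⁻¹)).prod ∈ G ∧
      (∀ x, x ∉ U → (L.map (fun p => p.1 * p.2 * p.1⁻¹ * p.2⁻¹)).prod x = x) ∧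
      ∃ K ∈ G, ∃ A ∈ G, ∃ B ∈ G, (∀ x, x ∉ W → A x = x) ∧ (∀ x, x ∉ W → B x = x) ∧
        (L.map (fun p => p.1 * p.2 * p.1⁻¹ * p.2⁻¹)).prod =
          (K * t * K⁻¹ * t⁻¹) * (A * B * A⁻¹ * B⁻¹) := by
    intro L
    induction L using List.reverseRecOn with
    | nil =>
      intro _
      refine ⟨by simp, by simp, 1, G.one_mem, 1, G.one_mem, 1, G.one_mem, by simp, by simp,
        by simp⟩
    | append_singleton L' p ih =>
      intro hL
      obtain ⟨hG', hF', K, hK, A, hA, B, hB, hAW, hBW, hEq⟩ :=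
        ih (fun q hq => hL q (List.mem_append_left _ hq))
      obtain ⟨⟨hf, hfU⟩, ⟨hg, hgU⟩⟩ := hL p (List.mem_append_right _ (List.mem_singleton_self p))
      obtain ⟨f, g⟩ := p
      simp only at hf hfU hg hgU
      have hprod : ((L' ++ [(f, g)]).map (fun p => p.1 * p.2 * p.1⁻¹ * p.2⁻¹)).prod =
          (L'.map (fun p => p.1 * p.2 * p.1⁻¹ * p.2⁻¹)).prod * (f * g * f⁻¹ * g⁻¹) := by
        rw [List.map_append, List.prod_append]
        simp
      rw [hprod]
      set h := (L'.map (fun p => p.1 * p.2 * p.1⁻¹ * p.2⁻¹)).prod with hh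
      have hcU : ∀ x, x ∉ U → (f * g * f⁻¹ * g⁻¹) x = x :=
        fix_mul10187 (fix_mul10187 (fix_mul10187 hfU hgU) (fix_inv10187 hfU)) (fix_inv10187 hgU)
      have hcG : f * g * f⁻¹ * g⁻¹ ∈ G :=
        G.mul_mem (G.mul_mem (G.mul_mem hf hg) (G.inv_mem hf)) (G.inv_mem hg)
      have hFU : ∀ x, x ∉ U → (h * f * h⁻¹) x = x :=
        fix_mul10187 (fix_mul10187 hF' hfU) (fix_inv10187 hF')
      have hMU : ∀ x, x ∉ U → (h * g * h⁻¹) x = x :=
        fix_mul10187 (fix_mul10187 hF' hgU) (fix_inv10187 hF')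
      have hFG : h * f * h⁻¹ ∈ G := G.mul_mem (G.mul_mem hG' hf) (G.inv_mem hG')
      have hMG : h * g * h⁻¹ ∈ G := G.mul_mem (G.mul_mem hG' hg) (G.inv_mem hG')
      have hEW : ∀ x, x ∉ W → (A * B * A⁻¹ * B⁻¹) x = x :=
        fix_mul10187 (fix_mul10187 (fix_mul10187 hAW hBW) (fix_inv10187 hAW)) (fix_inv10187 hBW)
      have hconj : ∀ (M N : Equiv.Perm ℝ), (∀ x, x ∉ U → M x = x) → (∀ x, x ∉ W → N x = x) →
          ∀ x, x ∉ W → (t * (M * N) * t⁻¹) x = x := by
        intro M N hM hN x hx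
        have h1 : t⁻¹ x ∉ U := by
          intro hu
          apply hx
          refine ⟨1, le_rfl, t⁻¹ x, hu, ?_⟩
          rw [pow_one, ← Equiv.Perm.mul_apply, mul_inv_cancel, Equiv.Perm.one_apply]
        have h2 : t⁻¹ x ∉ W := by
          rintro ⟨j, hj, u, hu, hju⟩
          apply hx
          refine ⟨j + 1, by omega, u, hu, ?_⟩
          rw [pow_succ', Equiv.Perm.mul_apply, hju, ← Equiv.Perm.mul_apply, mul_inv_cancel,
            Equiv.Perm.one_apply]
        rw [Equiv.Perm.mul_apply, Equiv.Perm.mul_apply, Equiv.Perm.mul_apply, hN _ h2, hM _ h1,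
          ← Equiv.Perm.mul_apply, mul_inv_cancel, Equiv.Perm.one_apply]
      refine ⟨G.mul_mem hG' hcG, fix_mul10187 hF' hcU,
        h * (f * g * f⁻¹ * g⁻¹) * t * K * t⁻¹, ?_, t * (h * f * h⁻¹ * A) * t⁻¹, ?_,
        t * (h * g * h⁻¹ * B) * t⁻¹, ?_, hconj _ _ hFU hAW, hconj _ _ hMU hBW, ?_⟩
      · exact G.mul_mem (G.mul_mem (G.mul_mem (G.mul_mem hG' hcG) ht) hK) (G.inv_mem ht)
      · exact G.mul_mem (G.mul_mem ht (G.mul_mem hFG hA)) (G.inv_mem ht)
      · exact G.mul_mem (G.mul_mem ht (G.mul_mem hMG hB)) (G.inv_mem ht)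
      · exact step10187 hEq (fix_comm10187 hF' hEW hUW) (fix_comm10187 hFU hAW hUW)
          (fix_comm10187 hFU hBW hUW) (fix_comm10187 hMU hAW hUW) (fix_comm10187 hMU hBW hUW)
  obtain ⟨-, -, K, hK, A, hA, B, hB, -, -, hEq⟩ := main L hL
  exact ⟨K, hK, A, hA, B, hB, hEq⟩



/-! #### f8 -/


theorem displ_exists_10188 {s t s' t' : ℝ} (hs : Dy s) (ht : Dy t) (hs' : Dy s') (ht' : Dy t')
    (h1 : s < s') (h2 : s' < t') (h3 : t' < t) :
    ∃ t0 ∈ Sup s t, t0 s' = t' := by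
  obtain ⟨e1, he1, e1s, e1s'⟩ := PLH_interp hs hs' hs ht' h1 (h1.trans h2)
  obtain ⟨e2, he2, e2s', e2t⟩ := PLH_interp hs' ht ht' ht (h2.trans h3) h3
  obtain ⟨e3, he3, h3a, h3b⟩ := PLH_glue he1 he2 hs' (by rw [e1s', e2s'])
  have e3s : e3 s = s := by rw [h3a s h1.le, e1s]
  have e3t : e3 t = t := by rw [h3b t (h2.trans h3).le, e2t]
  obtain ⟨e4, he4, h4a, h4b⟩ := PLH_glue PLH.one_mem he3 hs (by rw [e3s]; rfl)
  have hst : s < t := h1.trans (h2.trans h3)
  have e4t : e4 t = t := by rw [h4b t hst.le, e3t]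
  obtain ⟨t0, ht0, h5a, h5b⟩ := PLH_glue he4 PLH.one_mem ht (by rw [e4t]; rfl)
  refine ⟨t0, ⟨ht0, ?_⟩, ?_⟩
  · rintro x (hx | hx)
    · rw [h5a x (hx.trans hst.le), h4a x hx]; rfl
    · rw [h5b x hx]; rfl
  · rw [h5a s' (h2.trans h3).le, h4b s' h1.le, h3a s' le_rfl, e1s']

/-- two commutators suffice inside an interval -/
theorem two_comm {s t : ℝ} (hs : Dy s) (ht : Dy t) {ε : ℝ} (hε : 0 < ε) {h : Equiv.Perm ℝ}
    (hh : h ∈ Sup (s + ε) (t - ε)) : ∃ f1 ∈ Sup s t, ∃ g1 ∈ Sup s t, ∃ f2 ∈ Sup s t, ∃ g2 ∈ Sup s t,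
    h = (f1 * g1 * f1⁻¹ * g1⁻¹) * (f2 * g2 * f2⁻¹ * g2⁻¹) := by
  rcases le_or_gt (t - ε) (s + ε) with hcase | hcase
  · have h1 : h = 1 := by
      apply Equiv.ext
      intro x
      rw [hh.2 x]
      · rfl
      · rcases le_total x (s + ε) with h | h
        · exact Or.inl h
        · exact Or.inr (hcase.trans h)
    refine ⟨1, one_mem _, 1, one_mem _, 1, one_mem _, 1, one_mem _, ?_⟩
    rw [h1]
    simp
  · obtain ⟨s', hs', hs1, hs2⟩ := Dy.exists_between (show s < s + ε by linarith)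
    obtain ⟨t', ht', ht1, ht2⟩ := Dy.exists_between (show t - ε < t by linarith)
    have hε' : 0 < min (s + ε - s') (t' - (t - ε)) := lt_min (by linarith) (by linarith)
    obtain ⟨L, hL, hprod⟩ := comm_prod hs' ht' hε' (h := h) (Sup.mono (by
        have := min_le_left (s + ε - s') (t' - (t - ε)); linarith) (by
        have := min_le_right (s + ε - s') (t' - (t - ε)); linarith) hh)
    obtain ⟨t0, ht0, ht0s⟩ := displ_exists_10188 hs ht hs' ht' hs1 (by linarith) ht2
    have hmono : StrictMono t0 := ht0.1.1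
    have hst' : s' < t' := by linarith
    obtain ⟨K, hK, A, hA, B, hB, hKAB⟩ := bip2 (G := Sup s t) L (Set.Ioo s' t') t0 ht0 (by
      intro p hp
      have hnot : ∀ x, x ∉ Set.Ioo s' t' → x ≤ s' ∨ t' ≤ x := by
        intro x hx
        rcases le_or_gt x s' with h | h
        · exact Or.inl h
        · exact Or.inr (not_lt.mp (fun h' => hx ⟨h, h'⟩))
      obtain ⟨hp1, hp2⟩ := hL p hp
      exact ⟨⟨Sup.mono hs1.le ht2.le hp1, fun x hx => hp1.2 x (hnot x hx)⟩,
        ⟨Sup.mono hs1.le ht2.le hp2, fun x hx => hp2.2 x (hnot x hx)⟩⟩) (by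
      have key : ∀ j : ℕ, ∀ x ∈ Set.Ioo s' t', t' < (t0 ^ (j + 1)) x := by
        intro j
        induction j with
        | zero =>
          intro x hx
          rw [zero_add, pow_one, ← ht0s]
          exact hmono hx.1
        | succ j ih =>
          intro x hx
          rw [pow_succ', Equiv.Perm.mul_apply]
          calc t' = t0 s' := ht0s.symm
            _ < t0 ((t0 ^ (j + 1)) x) := hmono (hst'.trans (ih x hx))
      intro j hj x hx hcon
      obtain ⟨i, rfl⟩ : ∃ i, j = i + 1 := ⟨j - 1, by omega⟩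
      exact absurd hcon.2 (not_lt.mpr (key i x hx).le))
    refine ⟨K, hK, t0, ht0, A, hA, B, hB, ?_⟩
    rw [hprod, hKAB]



/-! #### f9 -/


theorem TT_int_j10084 {M : Equiv.Perm ℝ} (hM : M ∈ TT) (k : ℤ) (x : ℝ) : M (x + k) = M x + k := by
  have hp : Function.Periodic (fun x => M x - x) 1 := by
    intro x
    beta_reduce
    rw [hM.2 x]
    ring
  have h := (hp.int_mul k) x
  beta_reduce at h
  rw [mul_one] at h
  linarith

theorem IdNear_int_j10084 {M : Equiv.Perm ℝ} (hM : M ∈ TT) {s : ℝ} (h : IdNear M s) (k : ℤ) :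
    IdNear M (s + k) := by
  obtain ⟨ε, hε, h1⟩ := h
  refine ⟨ε, hε, fun x hx1 hx2 => ?_⟩
  have h2 := h1 (x - k) (by linarith) (by linarith)
  have h3 := TT_int_j10084 hM k (x - k)
  rw [sub_add_cancel, h2] at h3
  rw [h3]
  ring

theorem Dy_int_j10084 {s : ℝ} (h : Dy s) (k : ℤ) : Dy (s + k) := h.add (Dy.int k)

theorem norm_s_j10084 {M : Equiv.Perm ℝ} (hM : M ∈ TT) {s : ℝ} (hs : Dy s) (h : IdNear M s)
    (y : ℝ) : ∃ s', Dy s' ∧ IdNear M s' ∧ y ≤ s' ∧ s' < y + 1 := by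
  refine ⟨s + ⌈y - s⌉, Dy_int_j10084 hs _, IdNear_int_j10084 hM h _, ?_, ?_⟩
  · have := Int.le_ceil (y - s)
    linarith
  · have := Int.ceil_lt_add_one (y - s)
    linarith

theorem exists_z_j10084 {M : Equiv.Perm ℝ} (hM : M ∈ TT) {s : ℝ} (hs : Dy s) (h : IdNear M s) :
    ∃ z : Equiv.Perm ℝ, z ∈ Sup s (s + 1) ∧ (∃ ε > 0, z ∈ Sup (s + ε) (s + 1 - ε)) ∧
      ∀ x, s ≤ x → x ≤ s + 1 → z x = M x := by
  obtain ⟨ε, hε, h1⟩ := h
  have hMs : M s = s := h1 s (by linarith) (by linarith)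
  have hMs1 : M (s + 1) = s + 1 := by rw [hM.2, hMs]
  obtain ⟨e1, he1, he1a, he1b⟩ := PLH_glue (f := 1) (g := M) PLH.one_mem hM.1 hs
    (by rw [hMs]; rfl)
  obtain ⟨z, hz, hza, hzb⟩ := PLH_glue (f := e1) (g := 1) he1 PLH.one_mem (hs.add Dy.one)
    (by rw [he1b (s + 1) (by linarith), hMs1]; rfl)
  have hz1 : ∀ x, x ≤ s → z x = x := by
    intro x hx
    rw [hza x (by linarith), he1a x hx]
    rfl
  have hz2 : ∀ x, s + 1 ≤ x → z x = x := by
    intro x hx
    rw [hzb x hx]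
    rfl
  have hz3 : ∀ x, s ≤ x → x ≤ s + 1 → z x = M x := by
    intro x hx hx'
    rw [hza x hx', he1b x hx]
  refine ⟨z, ⟨hz, ?_⟩, ⟨ε / 2, by positivity, hz, ?_⟩, hz3⟩
  · rintro x (hx | hx)
    · exact hz1 x hx
    · exact hz2 x hx
  · rintro x (hx | hx)
    · rcases le_total x s with h2 | h2
      · exact hz1 x h2
      · rcases le_total x (s + 1) with h3 | h3
        · rw [hz3 x h2 h3]
          exact h1 x (by linarith) (by linarith)
        · exact hz2 x h3
    · rcases le_total x s with h2 | h2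
      · exact hz1 x h2
      · rcases le_total x (s + 1) with h3 | h3
        · rw [hz3 x h2 h3]
          have h4 := hM.2 (x - 1)
          rw [sub_add_cancel, h1 (x - 1) (by linarith) (by linarith)] at h4
          rw [h4]
          ring
        · exact hz2 x h3

/-- the sequence of slots -/
def xs_j10084 (f1 g1 f2 g2 : Equiv.Perm ℝ) : ℕ → Equiv.Perm ℝ
  | 8 => f1
  | 7 => g1
  | 6 => f1⁻¹
  | 5 => g1⁻¹
  | 4 => f2
  | 3 => g2
  | 2 => f2⁻¹
  | 1 => g2⁻¹
  | _ => 1

theorem xs_mem_j10084 {s t : ℝ} {f1 g1 f2 g2 : Equiv.Perm ℝ} (h1 : f1 ∈ Sup s t)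
    (h2 : g1 ∈ Sup s t) (h3 : f2 ∈ Sup s t) (h4 : g2 ∈ Sup s t) (j : ℕ) :
    xs_j10084 f1 g1 f2 g2 j ∈ Sup s t := by
  unfold xs_j10084
  split
  · exact h1
  · exact h2
  · exact (Sup s t).inv_mem h1
  · exact (Sup s t).inv_mem h2
  · exact h3
  · exact h4
  · exact (Sup s t).inv_mem h3
  · exact (Sup s t).inv_mem h4
  · exact (Sup s t).one_mem

theorem tr_inv_j10084 (c x : ℝ) : (tr c)⁻¹ x = x - c := by
  have h := inv_left (tr c) (x - c)
  rw [tr_apply, sub_add_cancel] at h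
  exact h

theorem sh_apply_j10084 (j : ℕ) (e : Equiv.Perm ℝ) (x : ℝ) : sh j e x = e (x - j) + j := by
  unfold sh
  rw [Equiv.Perm.mul_apply, Equiv.Perm.mul_apply, tr_inv_j10084, tr_apply]

theorem sh_mem_j10084 (j : ℕ) {e : Equiv.Perm ℝ} {s t : ℝ} (he : e ∈ Sup s t) :
    sh j e ∈ Sup (s + j) (t + j) := by
  refine ⟨?_, ?_⟩
  · exact PLH.mul_mem (PLH.mul_mem (tr_mem (Dy.nat j)) he.1) (PLH.inv_mem (tr_mem (Dy.nat j)))
  · intro x hx
    rw [sh_apply_j10084, he.2 (x - j) (by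
      rcases hx with hx | hx
      · left; linarith
      · right; linarith)]
    ring

theorem Sup_FZ_j10084 {s t : ℝ} {e : Equiv.Perm ℝ} (h : e ∈ Sup s t) : e ∈ FZ :=
  ⟨h.1, Sup.Ends h⟩

theorem tr1_FZ_j10084 : tr 1 ∈ FZ := by
  refine ⟨tr_mem Dy.one, ⟨1, 0, fun x _ => ?_⟩, ⟨1, 0, fun x _ => ?_⟩⟩
  · rw [tr_apply]; norm_num
  · rw [tr_apply]; norm_num

/-- one family -/
theorem family_j10084 {M b : Equiv.Perm ℝ} (hM : M ∈ TT) {s : ℝ} (hs : Dy s) (h : IdNear M s)
    (hb : b ∈ PLH) (hb2 : ∀ y, s ≤ y → y ≤ s + 9 → b y = y + 2) :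
    ∃ u c d v : Equiv.Perm ℝ, u ∈ Sup (s + 1) (s + 10) ∧ c ∈ Sup (s + 1) (s + 10) ∧
      d ∈ Sup (s + 1) (s + 10) ∧ v ∈ Sup (s + 9) (s + 10) ∧
      c * (u * tr 1) * c⁻¹ = v * tr 1 ∧ d * (u * b) * d⁻¹ = b ∧
      ∀ x, s + 9 ≤ x → x ≤ s + 10 → M x = v x := by
  obtain ⟨z, hz, ⟨ε, hε, hzε⟩, hzM⟩ := exists_z_j10084 hM hs h
  obtain ⟨f1, hf1, g1, hg1, f2, hf2, g2, hg2, hzc⟩ := two_comm hs (hs.add Dy.one) hε hzε
  have hx := xs_mem_j10084 hf1 hg1 hf2 hg2
  obtain ⟨hu, c, hc, hc2⟩ := absorb_a hs (xs_j10084 f1 g1 f2 g2) hx 9 (by norm_num)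
  have hup : up (xs_j10084 f1 g1 f2 g2) 9 = z := by
    rw [hzc]
    simp only [up, xs_j10084]
    group
  have heven : upe (xs_j10084 f1 g1 f2 g2) 4 = 1 := by
    simp only [upe, xs_j10084]
    group
  have hodd : upo (xs_j10084 f1 g1 f2 g2) (4 + 1) = 1 := by
    simp only [upo, xs_j10084]
    group
  obtain ⟨d, hd, hd2⟩ := absorb_b hs (xs_j10084 f1 g1 f2 g2) hx 4 heven hodd hb (by
    intro y h1 h2
    refine hb2 y h1 ?_
    norm_num at h2
    linarith)
  rw [hup] at hc2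
  have e1 : s + (9 : ℕ) + 1 = s + 10 := by norm_num; ring
  have e2 : s + (2 * 4 + 1 : ℕ) + 1 = s + 10 := by norm_num; ring
  rw [e1] at hu hc
  rw [e2] at hd
  have hv := sh_mem_j10084 9 hz
  have e3 : s + (9 : ℕ) = s + 9 := by norm_num
  have e4 : s + 1 + (9 : ℕ) = s + 10 := by norm_num; ring
  rw [e3, e4] at hv
  refine ⟨_, c, d, sh 9 z, hu, hc, hd, hv, hc2, hd2, ?_⟩
  intro x hx1 hx2
  rw [sh_apply_j10084]
  have h5 := TT_int_j10084 hM 9 (x - 9)
  push_cast at h5 ⊢
  rw [sub_add_cancel] at h5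
  rw [h5, hzM (x - 9) (by linarith) (by linarith)]

theorem core_j10084 {g' : Equiv.Perm ℝ} {u' v' x0 : ℝ} (hg : g' ∈ Sup u' v')
    (hgt : ∀ y, y - 1 < g' y) (hx0 : Dy x0) (hN : ∀ y, x0 ≤ y → y ≤ x0 + (25 : ℕ) → g' y = y + 1) :
    ∃ a ∈ FZ, ∃ c ∈ FZ, g' = a⁻¹ * c * a * c⁻¹ := by
  have hN' : ∀ y, x0 ≤ y → y ≤ x0 + 25 → g' y = y + 1 := by
    intro y h1 h2
    exact hN y h1 (by norm_num; exact h2)
  obtain ⟨b, hb⟩ : ∃ b, b = tr 1 * g' := ⟨_, rfl⟩
  have hby : ∀ y, b y = g' y + 1 := by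
    intro y
    rw [hb, Equiv.Perm.mul_apply, tr_apply]
  have hbP : b ∈ PLH := by
    rw [hb]
    exact PLH.mul_mem (tr_mem Dy.one) hg.1
  have hOB : OB b (max |u'| |v'|) := by
    refine ⟨hbP, ?_, ?_, ?_⟩
    · intro x hx
      rw [hby, hg.2 x (Or.inl ?_)]
      have h1 := le_max_left |u'| |v'|
      have h2 := neg_abs_le u'
      linarith
    · intro x hx
      rw [hby, hg.2 x (Or.inr ?_)]
      have h1 := le_max_right |u'| |v'|
      have h2 := le_abs_self v'
      linarith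
    · intro x
      rw [hby]
      have := hgt x
      linarith
  obtain ⟨M, hM⟩ := exists_scat hOB
  obtain ⟨m, M1, M2, t1, t2, hM1, hM2, ht1, ht2, hi1, hi2, hm⟩ := exists_fact hM.1
  obtain ⟨s1, hs1, hj1, h1a, h1b⟩ := norm_s_j10084 hM1 ht1 hi1 x0
  obtain ⟨s2, hs2, hj2, h2a, h2b⟩ := norm_s_j10084 hM2 ht2 hi2 (x0 + 11)
  have hb2 : ∀ y, x0 ≤ y → y ≤ x0 + 25 → b y = y + 2 := by
    intro y h1 h2
    rw [hby, hN' y h1 h2]
    ring
  obtain ⟨u1, c1, d1, v1, hu1, hc1, hd1, hv1, hca, hda, hMv1⟩ := family_j10084 hM1 hs1 hj1 hbP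
    (fun y h1 h2 => hb2 y (by linarith) (by linarith))
  obtain ⟨u2, c2, d2, v2, hu2, hc2, hd2, hv2, hcb, hdb, hMv2⟩ := family_j10084 hM2 hs2 hj2 hbP
    (fun y h1 h2 => hb2 y (by linarith) (by linarith))
  have hle : s1 + 10 ≤ s2 + 1 := by linarith
  have k1 : c1 * u2 = u2 * c1 := Sup.comm hle hc1 hu2
  have k2 : d1 * u2 = u2 * d1 := Sup.comm hle hd1 hu2
  have k3 : v1 * u2 = u2 * v1 := Sup.comm hle hv1 hu2
  have k4 : v1 * c2 = c2 * v1 := Sup.comm hle hv1 hc2
  have k5 : v1 * v2 = v2 * v1 := Sup.comm (by linarith : s1 + 10 ≤ s2 + 9) hv1 hv2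
  obtain ⟨τ, hτ⟩ : ∃ τ, τ = tr 1 := ⟨_, rfl⟩
  have hscat : Scat (v2 * v1 * tr 1) (M2 * M1) := by
    have e1 : s1 + 10 = s1 + 9 + 1 := by ring
    have e2 : s2 + 10 = s2 + 9 + 1 := by ring
    rw [e1] at hv1
    rw [e2] at hv2
    have d9 : Dy 9 := by
      have := Dy.nat 9
      norm_num at this
      exact this
    refine scat_mul (hs1.add d9) (hs2.add d9) (by linarith) hv1 hv2 hM1 hM2 ?_ ?_
    · intro x h1 h2
      exact hMv1 x h1 (by linarith)
    · intro x h1 h2
      exact hMv2 x h1 (by linarith)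
  obtain ⟨e, he, hconj⟩ := scat_conj hscat hM m (fun x => hm x)
  rw [← hτ] at hca hcb hconj
  have hτb : τ⁻¹ * b = g' := by
    rw [hb, ← hτ]
    group
  have hc1' := Sup_FZ_j10084 hc1
  have hc2' := Sup_FZ_j10084 hc2
  have hd1' := Sup_FZ_j10084 hd1
  have hd2' := Sup_FZ_j10084 hd2
  have hu1' := Sup_FZ_j10084 hu1
  have hu2' := Sup_FZ_j10084 hu2
  have hτF : τ ∈ FZ := by rw [hτ]; exact tr1_FZ_j10084
  -- algebra
  have A1 : (c2 * c1) * (u2 * u1 * τ) * (c2 * c1)⁻¹ = v2 * v1 * τ := by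
    have q1 : c1 * (u2 * u1 * τ) * c1⁻¹ = v1 * (u2 * τ) := by
      calc c1 * (u2 * u1 * τ) * c1⁻¹ = (c1 * u2) * u1 * τ * c1⁻¹ := by group
        _ = u2 * (c1 * (u1 * τ) * c1⁻¹) := by rw [k1]; group
        _ = u2 * v1 * τ := by rw [hca]; group
        _ = v1 * (u2 * τ) := by rw [← k3]; group
    calc (c2 * c1) * (u2 * u1 * τ) * (c2 * c1)⁻¹ = c2 * (c1 * (u2 * u1 * τ) * c1⁻¹) * c2⁻¹ := by group
      _ = (c2 * v1) * (u2 * τ) * c2⁻¹ := by rw [q1]; group
      _ = v1 * (c2 * (u2 * τ) * c2⁻¹) := by rw [← k4]; group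
      _ = v1 * v2 * τ := by rw [hcb]; group
      _ = v2 * v1 * τ := by rw [k5]
  have A2 : (d2 * d1) * (u2 * u1 * b) * (d2 * d1)⁻¹ = b := by
    have q1 : d1 * (u2 * u1 * b) * d1⁻¹ = u2 * b := by
      calc d1 * (u2 * u1 * b) * d1⁻¹ = (d1 * u2) * u1 * b * d1⁻¹ := by group
        _ = u2 * (d1 * (u1 * b) * d1⁻¹) := by rw [k2]; group
        _ = u2 * b := by rw [hda]
    calc (d2 * d1) * (u2 * u1 * b) * (d2 * d1)⁻¹ = d2 * (d1 * (u2 * u1 * b) * d1⁻¹) * d2⁻¹ := by group
      _ = d2 * (u2 * b) * d2⁻¹ := by rw [q1]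
      _ = b := hdb
  obtain ⟨C, hC⟩ : ∃ C, C = (d2 * d1)⁻¹ * e * (c2 * c1) := ⟨_, rfl⟩
  have hCF : C ∈ FZ := by
    rw [hC]
    exact FZ.mul_mem (FZ.mul_mem (FZ.inv_mem (FZ.mul_mem hd2' hd1')) he) (FZ.mul_mem hc2' hc1')
  have A3 : C * (u2 * u1 * τ) * C⁻¹ = u2 * u1 * b := by
    calc C * (u2 * u1 * τ) * C⁻¹ =
        (d2 * d1)⁻¹ * (e * ((c2 * c1) * (u2 * u1 * τ) * (c2 * c1)⁻¹) * e⁻¹) * (d2 * d1) := by
          rw [hC]; group
      _ = (d2 * d1)⁻¹ * b * (d2 * d1) := by rw [A1, hconj]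
      _ = (d2 * d1)⁻¹ * ((d2 * d1) * (u2 * u1 * b) * (d2 * d1)⁻¹) * (d2 * d1) := by rw [A2]
      _ = u2 * u1 * b := by group
  refine ⟨u2 * u1 * τ, FZ.mul_mem (FZ.mul_mem hu2' hu1') hτF, C, hCF, ?_⟩
  calc g' = τ⁻¹ * b := hτb.symm
    _ = (u2 * u1 * τ)⁻¹ * (u2 * u1 * b) := by group
    _ = (u2 * u1 * τ)⁻¹ * (C * (u2 * u1 * τ) * C⁻¹) := by rw [A3]
    _ = (u2 * u1 * τ)⁻¹ * C * (u2 * u1 * τ) * C⁻¹ := by group


/-- compactly supported elements are commutators in the line model of `F` -/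
theorem comm_FZ {g : Equiv.Perm ℝ} {u v : ℝ} (hg : g ∈ Sup u v) :
    ∃ a ∈ FZ, ∃ c ∈ FZ, g = a⁻¹ * c * a * c⁻¹ := by
  by_cases hne : g = 1
  · refine ⟨1, FZ.one_mem, 1, FZ.one_mem, ?_⟩
    rw [hne]
    group
  obtain ⟨W, hW, hW1, hW2, g', hg', ⟨u', v', hs⟩, hgt, x0, hx0, hN⟩ := exists_normal hg hne 25
  obtain ⟨a, ha, c, hc, hgac⟩ := core_j10084 hs hgt hx0 hN
  rcases hg' with h | h
  · refine ⟨W⁻¹ * a * W, hW2 a ha, W⁻¹ * c * W, hW2 c hc, ?_⟩
    calc g = W⁻¹ * (W * g * W⁻¹) * W := by group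
      _ = W⁻¹ * (a⁻¹ * c * a * c⁻¹) * W := by rw [← h, hgac]
      _ = _ := by group
  · have hA := hW2 a ha
    have hC := hW2 c hc
    refine ⟨(W⁻¹ * c * W) * (W⁻¹ * a * W) * (W⁻¹ * c * W)⁻¹,
      FZ.mul_mem (FZ.mul_mem hC hA) (FZ.inv_mem hC), (W⁻¹ * c * W)⁻¹, FZ.inv_mem hC, ?_⟩
    calc g = (W⁻¹ * (W * g⁻¹ * W⁻¹) * W)⁻¹ := by group
      _ = (W⁻¹ * (a⁻¹ * c * a * c⁻¹) * W)⁻¹ := by rw [← h, hgac]
      _ = _ := by group



end Pool.Agent.Helper283.PL
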