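import Mathlib

set_option autoImplicit false
set_option linter.unusedVariables false
set_option linter.deprecated false

namespace Pool.Agent.Helper283.TL

open Filter

variable {G : Type} [Group G] {S : Type} [MulAction G S]

/-- ping-pong data for `⟨a, b | (a b a⁻¹ b⁻¹)² = 1⟩` acting on a circle `S`, `r = a b a⁻¹ b⁻¹` -/
structure PP (a b r : G) (IP IQ U U' : Set S) : Prop where
  r2 : r * r = 1
  rel : a * b * a⁻¹ = r * b
  gen : Subgroup.closure {a, b} = ⊤
  Ur : ∀ x : S, r • x ∈ U ↔ x ∉ U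
  Ur' : ∀ x : S, r • x ∈ U' ↔ x ∉ U'
  Ub : ∀ n : ℤ, n ≠ 0 → ∀ x ∈ U, (b ^ n) • x ∉ U
  Ub' : ∀ n : ℤ, n ≠ 0 → ∀ x ∈ U', ((r * b) ^ n) • x ∉ U'
  IPdef : ∀ x : S, x ∈ IP ↔ ∀ n : ℤ, (b ^ n) • x ∉ U
  IQdef : ∀ x : S, x ∈ IQ ↔ ∀ n : ℤ, ((r * b) ^ n) • x ∉ U'
  IPU : IP ⊆ U'
  IQU : IQ ⊆ U
  aU : ∀ x : S, x ∉ IP → a • x ∈ IQ
  pt : ∃ p ∈ IP, b • p = p ∧ a • p ∈ IQ


/-! #### pp -/


/-- reduced words which start with `r` -/
inductive Wd9158 (c r : G) : G → Prop
  | base (n : ℤ) : Wd9158 c r (r * c ^ n)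
  | step (m : ℤ) (g : G) : m ≠ 0 → Wd9158 c r g → Wd9158 c r (r * c ^ m * g)

theorem words9158 (c r : G) (r2 : r * r = 1) (k : G) (hk : k ∈ Subgroup.closure {c, r}) :
    (∃ m : ℤ, k = c ^ m) ∨ (∃ (m : ℤ) (g : G), Wd9158 c r g ∧ k = c ^ m * g) := by
  have hr : r⁻¹ = r := inv_eq_of_mul_eq_one_left r2
  have hrmul : ∀ k : G, ((∃ m : ℤ, k = c ^ m) ∨
      (∃ (m : ℤ) (g : G), Wd9158 c r g ∧ k = c ^ m * g)) →
      ((∃ m : ℤ, r * k = c ^ m) ∨ (∃ (m : ℤ) (g : G), Wd9158 c r g ∧ r * k = c ^ m * g)) := by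
    rintro k (⟨m, rfl⟩ | ⟨m, g, hg, rfl⟩)
    · right
      exact ⟨0, r * c ^ m, Wd9158.base m, by simp⟩
    · by_cases hm : m = 0
      · subst hm
        cases hg with
        | base n =>
          left
          refine ⟨n, ?_⟩
          rw [zpow_zero, one_mul, ← mul_assoc, r2, one_mul]
        | step n g' hn hg' =>
          right
          refine ⟨n, g', hg', ?_⟩
          rw [zpow_zero, one_mul, ← mul_assoc, ← mul_assoc, r2, one_mul]
      · right
        exact ⟨0, r * c ^ m * g, Wd9158.step m g hm hg, by simp [mul_assoc]⟩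
  have hcmul : ∀ (e : ℤ) (k : G), ((∃ m : ℤ, k = c ^ m) ∨
      (∃ (m : ℤ) (g : G), Wd9158 c r g ∧ k = c ^ m * g)) →
      ((∃ m : ℤ, c ^ e * k = c ^ m) ∨
        (∃ (m : ℤ) (g : G), Wd9158 c r g ∧ c ^ e * k = c ^ m * g)) := by
    rintro e k (⟨m, rfl⟩ | ⟨m, g, hg, rfl⟩)
    · left
      exact ⟨e + m, by rw [zpow_add]⟩
    · right
      exact ⟨e + m, g, hg, by rw [zpow_add, mul_assoc]⟩
  induction hk using Subgroup.closure_induction_left with
  | one => exact Or.inl ⟨0, by simp⟩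
  | mul_left x hx y hy ih =>
    rcases hx with rfl | hx
    · have := hcmul 1 y ih
      rwa [zpow_one] at this
    · rw [Set.mem_singleton_iff] at hx
      subst hx
      exact hrmul y ih
  | inv_mul_cancel x hx y hy ih =>
    rcases hx with rfl | hx
    · have := hcmul (-1) y ih
      rwa [zpow_neg_one] at this
    · rw [Set.mem_singleton_iff] at hx
      subst hx
      rw [hr]
      exact hrmul y ih

theorem inv9158 (c : G) (U P : Set S)
    (Pdef : ∀ x : S, x ∈ P ↔ ∀ n : ℤ, (c ^ n) • x ∉ U) (n : ℤ) (x : S) :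
    (c ^ n) • x ∈ P ↔ x ∈ P := by
  rw [Pdef, Pdef]
  constructor
  · intro h m
    have := h (m - n)
    rwa [smul_smul, ← zpow_add, sub_add_cancel] at this
  · intro h m
    rw [smul_smul, ← zpow_add]
    exact h _

theorem notU9158 (c : G) (U P : Set S)
    (Pdef : ∀ x : S, x ∈ P ↔ ∀ n : ℤ, (c ^ n) • x ∉ U) (x : S) (hx : x ∈ P) : x ∉ U := by
  have := (Pdef x).1 hx 0
  rwa [zpow_zero, one_smul] at this

theorem wdU9158 (c r : G) (U P : Set S) (Ur : ∀ x : S, r • x ∈ U ↔ x ∉ U)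
    (Uc : ∀ n : ℤ, n ≠ 0 → ∀ x ∈ U, (c ^ n) • x ∉ U)
    (Pdef : ∀ x : S, x ∈ P ↔ ∀ n : ℤ, (c ^ n) • x ∉ U) (g : G) (hg : Wd9158 c r g)
    (x : S) (hx : x ∈ P) : g • x ∈ U := by
  induction hg with
  | base n =>
    rw [mul_smul, Ur]
    exact (Pdef x).1 hx n
  | step m g hm hg ih =>
    rw [mul_smul, mul_smul, Ur]
    exact Uc m hm _ ih

theorem gpp9158 (c r : G) (U P : Set S) (r2 : r * r = 1) (Ur : ∀ x : S, r • x ∈ U ↔ x ∉ U)
    (Uc : ∀ n : ℤ, n ≠ 0 → ∀ x ∈ U, (c ^ n) • x ∉ U)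
    (Pdef : ∀ x : S, x ∈ P ↔ ∀ n : ℤ, (c ^ n) • x ∉ U) :
    ∀ k ∈ Subgroup.closure {c, r}, k ∉ Subgroup.zpowers c → ∀ x ∈ P, k • x ∉ P := by
  intro k hk hkc x hx hkx
  rcases words9158 c r r2 k hk with ⟨m, rfl⟩ | ⟨m, g, hg, rfl⟩
  · exact hkc ⟨m, rfl⟩
  · have h1 := wdU9158 c r U P Ur Uc Pdef g hg x hx
    rw [mul_smul, inv9158 c U P Pdef] at hkx
    exact notU9158 c U P Pdef _ hkx h1

theorem PP.r_mem {a b r : G} {IP IQ U U' : Set S} (H : PP a b r IP IQ U U') :
    r ∈ Subgroup.closure {b, r} := Subgroup.subset_closure (by simp)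

theorem PP.pp1 {a b r : G} {IP IQ U U' : Set S} (H : PP a b r IP IQ U U') :
    ∀ k ∈ Subgroup.closure {b, r}, k ∉ Subgroup.zpowers b → ∀ x ∈ IP, k • x ∉ IP :=
  gpp9158 b r U IP H.r2 H.Ur H.Ub H.IPdef

theorem PP.pp2 {a b r : G} {IP IQ U U' : Set S} (H : PP a b r IP IQ U U') :
    ∀ k ∈ Subgroup.closure {b, r}, k ∉ Subgroup.zpowers (r * b) → ∀ x ∈ IQ, k • x ∉ IQ := by
  intro k hk
  refine gpp9158 (r * b) r U' IQ H.r2 H.Ur' H.Ub' H.IQdef k ?_
  have hle : Subgroup.closure {b, r} ≤ Subgroup.closure {r * b, r} := by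
    rw [Subgroup.closure_le]
    have hr : r ∈ Subgroup.closure {r * b, r} := Subgroup.subset_closure (by simp)
    have hrb : r * b ∈ Subgroup.closure {r * b, r} := Subgroup.subset_closure (by simp)
    rintro y (rfl | hy)
    · have h := (Subgroup.closure {r * y, r}).mul_mem hr hrb
      rw [← mul_assoc, H.r2, one_mul] at h
      exact h
    · rw [Set.mem_singleton_iff] at hy
      subst hy
      exact hr
  exact hle hk

theorem PP.IP_b {a b r : G} {IP IQ U U' : Set S} (H : PP a b r IP IQ U U') (n : ℤ) (x : S) :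
    (b ^ n) • x ∈ IP ↔ x ∈ IP := inv9158 b U IP H.IPdef n x

theorem PP.IQ_rb {a b r : G} {IP IQ U U' : Set S} (H : PP a b r IP IQ U U') (n : ℤ) (x : S) :
    ((r * b) ^ n) • x ∈ IQ ↔ x ∈ IQ := inv9158 (r * b) U' IQ H.IQdef n x

theorem PP.pp3 {a b r : G} {IP IQ U U' : Set S} (H : PP a b r IP IQ U U') :
    ∀ k ∈ Subgroup.closure {b, r}, ∀ x ∈ IP, k • x ∉ IQ := by
  have hr : r⁻¹ = r := inv_eq_of_mul_eq_one_left H.r2
  have hpow : ∀ (m : ℤ) (x : S), x ∈ IP → (b ^ m) • x ∉ IQ := by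
    intro m x hx h
    have h1 : (b ^ m) • x ∈ IP := (H.IP_b m x).2 hx
    exact notU9158 b U IP H.IPdef _ h1 (H.IQU h)
  have hred : ∀ (n : ℤ) (y : S), (r * b ^ n) • y ∈ IQ → (b ^ (n - 1)) • y ∈ IQ := by
    intro n y h
    have h1 := (H.IQ_rb (-1) ((r * b ^ n) • y)).2 h
    have h2 : (r * b) ^ (-1 : ℤ) * (r * b ^ n) = b ^ (n - 1) := by
      rw [zpow_neg_one, mul_inv_rev, hr]
      have : b⁻¹ * r * (r * b ^ n) = b⁻¹ * (r * r) * b ^ n := by group
      rw [this, H.r2, mul_one, sub_eq_neg_add, zpow_add, zpow_neg_one]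
    rwa [smul_smul, h2] at h1
  have hw : ∀ g : G, Wd9158 b r g → ∀ (m : ℤ) (x : S), x ∈ IP → (b ^ m * g) • x ∉ IQ := by
    intro g hg
    induction hg with
    | base n =>
      intro m x hx h
      by_cases hm : m = 0
      · subst hm
        rw [zpow_zero, one_mul] at h
        exact hpow (n - 1) x hx (hred n x h)
      · have h1 := wdU9158 b r U IP H.Ur H.Ub H.IPdef _ (Wd9158.base n) x hx
        rw [mul_smul] at h
        exact H.Ub m hm _ h1 (H.IQU h)
    | step n g hn hg ih =>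
      intro m x hx h
      by_cases hm : m = 0
      · subst hm
        rw [zpow_zero, one_mul, mul_smul] at h
        have h1 := hred n (g • x) h
        rw [smul_smul] at h1
        exact ih (n - 1) x hx h1
      · have h1 := wdU9158 b r U IP H.Ur H.Ub H.IPdef _ (Wd9158.step n g hn hg) x hx
        rw [mul_smul] at h
        exact H.Ub m hm _ h1 (H.IQU h)
  intro k hk x hx
  rcases words9158 b r H.r2 k hk with ⟨m, rfl⟩ | ⟨m, g, hg, rfl⟩
  · exact hpow m x hx
  · exact hw g hg m x hx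

theorem inj9158 (c : G) (U : Set S) (x : S) (hx : x ∈ U)
    (Uc : ∀ n : ℤ, n ≠ 0 → ∀ x ∈ U, (c ^ n) • x ∉ U) :
    Function.Injective (fun n : ℤ => c ^ n) := by
  intro m n hmn
  simp only at hmn
  by_contra hne
  have h1 : c ^ (m - n) = 1 := by rw [zpow_sub, hmn, mul_inv_cancel]
  have h2 := Uc (m - n) (sub_ne_zero.2 hne) x hx
  rw [h1, one_smul] at h2
  exact h2 hx

theorem PP.b_inj {a b r : G} {IP IQ U U' : Set S} (H : PP a b r IP IQ U U') :
    Function.Injective (fun n : ℤ => b ^ n) := by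
  obtain ⟨p, hp, _, _⟩ := H.pt
  refine inj9158 b U (r • p) ?_ H.Ub
  rw [H.Ur]
  exact notU9158 b U IP H.IPdef p hp

theorem PP.rb_inj {a b r : G} {IP IQ U U' : Set S} (H : PP a b r IP IQ U U') :
    Function.Injective (fun n : ℤ => (r * b) ^ n) := by
  obtain ⟨p, hp, _, _⟩ := H.pt
  exact inj9158 (r * b) U' p (H.IPU hp) H.Ub'



/-! #### flow1 -/


theorem lim_9181 (f : ℤ → ℤ) (hf : {n | f (n + 1) ≠ f n}.Finite) :
    ∃ cp cm, (∀ᶠ n : ℤ in atTop, f n = cp) ∧ (∀ᶠ n : ℤ in atBot, f n = cm) ∧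
      ∑ᶠ n : ℤ, (f (n + 1) - f n) = cp - cm := by
  obtain ⟨M, hM⟩ := hf.bddAbove
  obtain ⟨m, hm⟩ := hf.bddBelow
  obtain ⟨N, hN1, hN2⟩ : ∃ N : ℕ, M < N ∧ -(N : ℤ) < m := by
    exact ⟨M.natAbs + m.natAbs + 1, by omega, by omega⟩
  have hup : ∀ n : ℤ, (N : ℤ) ≤ n → f n = f N := by
    intro n hn
    induction n, hn using Int.le_induction with
    | base => rfl
    | succ n hn ih =>
      by_contra hne
      have : n ∈ {n | f (n + 1) ≠ f n} := by
        show f (n + 1) ≠ f n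
        rw [ih]
        exact hne
      have := hM this
      omega
  have hdn : ∀ n : ℤ, n ≤ -(N : ℤ) → f n = f (-(N : ℤ)) := by
    intro n hn
    induction n, hn using Int.le_induction_down with
    | base => rfl
    | pred n hn ih =>
      by_contra hne
      have : n - 1 ∈ {n | f (n + 1) ≠ f n} := by
        show f (n - 1 + 1) ≠ f (n - 1)
        rw [sub_add_cancel, ih]
        exact fun h => hne h.symm
      have := hm this
      omega
  refine ⟨f N, f (-(N : ℤ)), Filter.eventually_atTop.2 ⟨N, hup⟩,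
    Filter.eventually_atBot.2 ⟨-(N : ℤ), hdn⟩, ?_⟩
  have hsub : (Function.support fun n : ℤ => f (n + 1) - f n) ⊆
      ((Finset.Ico (-(N : ℤ)) N : Finset ℤ) : Set ℤ) := by
    intro n hn
    have hn' : n ∈ {n | f (n + 1) ≠ f n} := by
      intro h
      apply hn
      show f (n + 1) - f n = 0
      rw [h, sub_self]
    have h1 := hM hn'
    have h2 := hm hn'
    simp only [Finset.coe_Ico, Set.mem_Ico]
    omega
  rw [finsum_eq_sum_of_support_subset _ hsub]
  have key : ∀ k : ℕ, ∑ n ∈ Finset.Ico (-(N : ℤ)) (-(N : ℤ) + k), (f (n + 1) - f n) =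
      f (-(N : ℤ) + k) - f (-(N : ℤ)) := by
    intro k
    induction k with
    | zero => simp
    | succ k ih =>
      have h3 : Finset.Ico (-(N : ℤ)) (-(N : ℤ) + ((k + 1 : ℕ) : ℤ)) =
          insert (-(N : ℤ) + k) (Finset.Ico (-(N : ℤ)) (-(N : ℤ) + k)) := by
        ext x
        simp only [Finset.mem_Ico, Finset.mem_insert]
        push_cast
        omega
      rw [h3, Finset.sum_insert (by simp), ih]
      have h4 : -(N : ℤ) + ((k + 1 : ℕ) : ℤ) = -(N : ℤ) + k + 1 := by push_cast; ring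
      rw [h4]
      ring
  have := key (2 * N)
  have h5 : -(N : ℤ) + ((2 * N : ℕ) : ℤ) = N := by push_cast; ring
  rw [h5] at this
  exact this

theorem line_9181 (c : G) (hc : Function.Injective (fun n : ℤ => c ^ n)) (E : G → ℤ)
    (A : Set G) (hA : ∀ y ∈ A, ∀ n : ℤ, c ^ n * y ∈ A) (s : Finset G)
    (hs : ∀ y, y ∈ s ↔ (y ∈ A ∧ E y ≠ 0)) (h : G) (hh : h ∈ A)
    (hz : ∀ y ∈ A, (∀ n : ℤ, y ≠ c ^ n * h) → ∑ᶠ n : ℤ, E (c ^ n * y) = 0) :
    ∑ y ∈ s, E y = ∑ᶠ n : ℤ, E (c ^ n * h) := by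
  classical
  have hinj : ∀ y : G, Function.Injective (fun n : ℤ => c ^ n * y) := by
    intro y m n hmn
    exact hc (mul_right_cancel hmn)
  have hT : ∀ y ∈ A, ∑ᶠ n : ℤ, E (c ^ n * y) =
      ∑ x ∈ s with (∃ n : ℤ, x = c ^ n * y), E x := by
    intro y hy
    rw [← finsum_mem_range (f := E) (hinj y)]
    apply finsum_mem_eq_sum_of_inter_support_eq
    ext x
    simp only [Set.mem_inter_iff, Set.mem_range, Function.mem_support, Finset.coe_filter,
      Set.mem_setOf_eq]
    constructor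
    · rintro ⟨⟨n, hn⟩, hx⟩
      refine ⟨⟨(hs x).2 ⟨?_, hx⟩, n, hn.symm⟩, hx⟩
      rw [← hn]
      exact hA y hy n
    · rintro ⟨⟨_, n, hn⟩, hx⟩
      exact ⟨⟨n, hn.symm⟩, hx⟩
  let R : Setoid G :=
    { r := fun x y => ∃ n : ℤ, x = c ^ n * y
      iseqv :=
        { refl := fun x => ⟨0, by simp⟩
          symm := by
            rintro x y ⟨n, rfl⟩
            exact ⟨-n, by simp⟩
          trans := by
            rintro x y z ⟨n, rfl⟩ ⟨m, rfl⟩
            exact ⟨n + m, by rw [zpow_add, mul_assoc]⟩ } }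
  have hR : ∀ x y : G, (Quotient.mk R x = Quotient.mk R y) ↔ ∃ n : ℤ, x = c ^ n * y := by
    intro x y
    exact Quotient.eq
  have hsum : ∑ y ∈ s, E y = ∑ q ∈ s.image (Quotient.mk R),
      ∑ y ∈ s with Quotient.mk R y = q, E y :=
    (Finset.sum_fiberwise_of_maps_to (fun y hy => Finset.mem_image_of_mem _ hy) E).symm
  have hfib : ∀ y ∈ A, ∑ x ∈ s with Quotient.mk R x = Quotient.mk R y, E x =
      ∑ᶠ n : ℤ, E (c ^ n * y) := by
    intro y hy
    rw [hT y hy]
    apply Finset.sum_congr _ (fun _ _ => rfl)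
    ext x
    simp only [Finset.mem_filter, hR]
  have hzero : ∀ q ∈ s.image (Quotient.mk R), q ≠ Quotient.mk R h →
      ∑ y ∈ s with Quotient.mk R y = q, E y = 0 := by
    intro q hq hne
    obtain ⟨y, hy, rfl⟩ := Finset.mem_image.1 hq
    have hyA : y ∈ A := ((hs y).1 hy).1
    rw [hfib y hyA]
    apply hz y hyA
    intro n hn
    exact hne ((hR y h).2 ⟨n, hn⟩)
  rw [hsum, Finset.sum_eq_single (Quotient.mk R h) hzero ?_, hfib h hh]
  intro hnot
  apply Finset.sum_eq_zero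
  intro y hy
  rw [Finset.mem_filter] at hy
  exact absurd (hy.2 ▸ Finset.mem_image_of_mem _ hy.1) hnot

theorem PP.zero_9181 {a b r : G} {IP IQ U U' : Set S} (H : PP a b r IP IQ U U') (χ : G → ℤ)
    (ha : {g | χ (a * g) ≠ χ g}.Finite) (hb : {g | χ (b * g) ≠ χ g}.Finite)
    (hr : ∀ g, χ (r * g) = χ g) (g : G) :
    ∑ᶠ n : ℤ, (χ (b * (b ^ n * g)) - χ (b ^ n * g)) = 0 := by
  classical
  set E : G → ℤ := fun g => χ (b * g) - χ g with hE
  have hE' : ∀ g, χ (r * b * g) - χ g = E g := by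
    intro g
    rw [hE, mul_assoc, hr]
  have hEfin : (Function.support E).Finite := by
    apply hb.subset
    intro x hx
    simp only [Function.mem_support, hE, sub_ne_zero] at hx
    exact hx
  have hbinj : ∀ y : G, Function.Injective (fun n : ℤ => b ^ n * y) := by
    intro y m n hmn
    exact H.b_inj (mul_right_cancel hmn)
  have hrbinj : ∀ y : G, Function.Injective (fun n : ℤ => (r * b) ^ n * y) := by
    intro y m n hmn
    exact H.rb_inj (mul_right_cancel hmn)
  -- conjugation of powers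
  have hconj : ∀ n : ℤ, a * b ^ n = (r * b) ^ n * a := by
    intro n
    have h1 : (a * b * a⁻¹) ^ n = a * b ^ n * a⁻¹ := conj_zpow
    rw [H.rel] at h1
    rw [h1]
    group
  -- KEY1
  have key1 : ∀ g, ∑ᶠ n : ℤ, E ((r * b) ^ n * (a * g)) = ∑ᶠ n : ℤ, E (b ^ n * g) := by
    intro g
    have f1 : {n : ℤ | χ (b ^ (n + 1) * g) ≠ χ (b ^ n * g)}.Finite := by
      have h2 := hb.preimage (f := fun n : ℤ => b ^ n * g) ((hbinj g).injOn)
      refine h2.subset ?_
      intro n hn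
      show χ (b * (b ^ n * g)) ≠ χ (b ^ n * g)
      rwa [← mul_assoc, ← zpow_one_add, add_comm]
    have f2 : {n : ℤ | χ ((r * b) ^ (n + 1) * (a * g)) ≠ χ ((r * b) ^ n * (a * g))}.Finite := by
      have h2 := hb.preimage (f := fun n : ℤ => (r * b) ^ n * (a * g)) ((hrbinj (a * g)).injOn)
      refine h2.subset ?_
      intro n hn
      show χ (b * ((r * b) ^ n * (a * g))) ≠ χ ((r * b) ^ n * (a * g))
      rw [← hr (b * ((r * b) ^ n * (a * g)))]
      intro h3
      apply hn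
      rw [← h3]
      congr 1
      rw [add_comm, zpow_one_add]
      simp only [mul_assoc]
    obtain ⟨p1, m1, hp1, hm1, hs1⟩ := lim_9181 (fun n : ℤ => χ (b ^ n * g)) f1
    obtain ⟨p2, m2, hp2, hm2, hs2⟩ := lim_9181 (fun n : ℤ => χ ((r * b) ^ n * (a * g))) f2
    have e1 : ∑ᶠ n : ℤ, E (b ^ n * g) = p1 - m1 := by
      rw [← hs1]
      apply finsum_congr
      intro n
      simp only [hE]
      rw [← mul_assoc, ← zpow_one_add, add_comm 1 n]
    have e2 : ∑ᶠ n : ℤ, E ((r * b) ^ n * (a * g)) = p2 - m2 := by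
      rw [← hs2]
      apply finsum_congr
      intro n
      rw [← hE']
      rw [← mul_assoc (r * b), ← zpow_one_add, add_comm 1 n]
    have fa : {n : ℤ | χ (a * (b ^ n * g)) ≠ χ (b ^ n * g)}.Finite :=
      ha.preimage (f := fun n : ℤ => b ^ n * g) ((hbinj g).injOn)
    obtain ⟨M, hM⟩ := fa.bddAbove
    obtain ⟨m, hm⟩ := fa.bddBelow
    have hswap : ∀ n : ℤ, (r * b) ^ n * (a * g) = a * (b ^ n * g) := by
      intro n
      rw [← mul_assoc, ← hconj, mul_assoc]
    have t1 : p1 = p2 := by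
      have h3 : ∀ᶠ n : ℤ in atTop, χ (a * (b ^ n * g)) = χ (b ^ n * g) := by
        filter_upwards [Filter.eventually_gt_atTop M] with n hn
        by_contra hne
        exact absurd (hM hne) (not_le.2 hn)
      obtain ⟨n, h4, h5, h6⟩ := (h3.and (hp1.and hp2)).exists
      rw [← h5, ← h6, hswap, h4]
    have t2 : m1 = m2 := by
      have h3 : ∀ᶠ n : ℤ in atBot, χ (a * (b ^ n * g)) = χ (b ^ n * g) := by
        filter_upwards [Filter.eventually_lt_atBot m] with n hn
        by_contra hne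
        exact absurd (hm hne) (not_le.2 hn)
      obtain ⟨n, h4, h5, h6⟩ := (h3.and (hm1.and hm2)).exists
      rw [← h5, ← h6, hswap, h4]
    rw [e1, e2, t1, t2]
  have key1' : ∀ y, ∑ᶠ n : ℤ, E ((r * b) ^ n * y) = ∑ᶠ n : ℤ, E (b ^ n * (a⁻¹ * y)) := by
    intro y
    rw [← key1 (a⁻¹ * y), mul_inv_cancel_left]
  -- the coset alternative
  set K := Subgroup.closure {b, r} with hK
  have hbK : b ∈ K := Subgroup.subset_closure (by simp)
  have hrK : r ∈ K := Subgroup.subset_closure (by simp)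
  have hrbK : r * b ∈ K := K.mul_mem hrK hbK
  have coset : ∀ h : G, ∃ s : Finset G, ∀ y, y ∈ s ↔ (y ∈ {y | ∃ k ∈ K, y = k * h} ∧ E y ≠ 0) := by
    intro h
    refine ⟨(hEfin.subset (Set.inter_subset_right (s := {y | ∃ k ∈ K, y = k * h}))).toFinset, ?_⟩
    intro y
    simp only [Set.Finite.mem_toFinset, Set.mem_inter_iff, Function.mem_support]
  have hAb : ∀ h : G, ∀ y ∈ {y | ∃ k ∈ K, y = k * h}, ∀ n : ℤ, b ^ n * y ∈ {y | ∃ k ∈ K, y = k * h} := by
    rintro h y ⟨k, hk, rfl⟩ n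
    exact ⟨b ^ n * k, K.mul_mem (K.zpow_mem hbK n) hk, by rw [mul_assoc]⟩
  have hArb : ∀ h : G, ∀ y ∈ {y | ∃ k ∈ K, y = k * h}, ∀ n : ℤ,
      (r * b) ^ n * y ∈ {y | ∃ k ∈ K, y = k * h} := by
    rintro h y ⟨k, hk, rfl⟩ n
    exact ⟨(r * b) ^ n * k, K.mul_mem (K.zpow_mem hrbK n) hk, by rw [mul_assoc]⟩
  have hmem : ∀ h : G, h ∈ {y | ∃ k ∈ K, y = k * h} := fun h => ⟨1, K.one_mem, by simp⟩
  -- alternative for an rb-line
  have alt1 : ∀ h : G, ∑ᶠ n : ℤ, E ((r * b) ^ n * h) ≠ 0 →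
      (∃ k ∈ K, ∑ᶠ n : ℤ, E (b ^ n * (k * h)) ≠ 0) ∨
      (∃ k ∈ K, k ∉ Subgroup.zpowers (r * b) ∧ ∑ᶠ n : ℤ, E ((r * b) ^ n * (k * h)) ≠ 0) := by
    intro h hne
    by_contra hcon
    push Not at hcon
    obtain ⟨c1, c2⟩ := hcon
    obtain ⟨s, hs⟩ := coset h
    have z1 := line_9181 b H.b_inj E _ (hAb h) s hs h (hmem h) (by
      rintro y ⟨k, hk, rfl⟩ _
      exact c1 k hk)
    have z2 := line_9181 (r * b) H.rb_inj E _ (hArb h) s hs h (hmem h) (by
      rintro y ⟨k, hk, rfl⟩ hk'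
      apply c2 k hk
      rintro ⟨n, hn⟩
      exact hk' n (by rw [← hn]))
    have z3 := c1 1 K.one_mem
    rw [one_mul] at z3
    rw [z3] at z1
    rw [z1] at z2
    exact hne z2.symm
  have alt2 : ∀ h : G, ∑ᶠ n : ℤ, E (b ^ n * h) ≠ 0 →
      (∃ k ∈ K, k ∉ Subgroup.zpowers b ∧ ∑ᶠ n : ℤ, E (b ^ n * (k * h)) ≠ 0) ∨
      (∃ k ∈ K, ∑ᶠ n : ℤ, E ((r * b) ^ n * (k * h)) ≠ 0) := by
    intro h hne
    by_contra hcon
    push Not at hcon
    obtain ⟨c1, c2⟩ := hcon
    obtain ⟨s, hs⟩ := coset h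
    have z1 := line_9181 b H.b_inj E _ (hAb h) s hs h (hmem h) (by
      rintro y ⟨k, hk, rfl⟩ hk'
      apply c1 k hk
      rintro ⟨n, hn⟩
      exact hk' n (by rw [← hn]))
    have z2 := line_9181 (r * b) H.rb_inj E _ (hArb h) s hs h (hmem h) (by
      rintro y ⟨k, hk, rfl⟩ _
      exact c2 k hk)
    have z3 := c2 1 K.one_mem
    rw [one_mul] at z3
    rw [z3] at z2
    rw [z2] at z1
    exact hne z1.symm
  -- the finite family
  by_contra hg0
  let hd : G → Set S := fun g => {x | g • x ∈ IP}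
  let tl : G → Set S := fun g => {x | (a * g) • x ∈ IQ}
  let F : Set (Set S) := {X | ∃ g, ∑ᶠ n : ℤ, E (b ^ n * g) ≠ 0 ∧ (X = hd g ∨ X = tl g)}
  have hFfin : F.Finite := by
    refine ((hEfin.image hd).union (hEfin.image tl)).subset ?_
    rintro X ⟨g, hg, hX⟩
    obtain ⟨n, hn⟩ : ∃ n : ℤ, E (b ^ n * g) ≠ 0 := by
      by_contra hcon
      push Not at hcon
      apply hg
      rw [finsum_congr hcon, finsum_zero]
    rcases hX with rfl | rfl
    · left
      refine ⟨b ^ n * g, hn, ?_⟩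
      ext x
      simp only [hd, Set.mem_setOf_eq]
      rw [mul_smul, H.IP_b]
    · right
      refine ⟨b ^ n * g, hn, ?_⟩
      ext x
      simp only [tl, Set.mem_setOf_eq]
      rw [← mul_assoc, hconj, mul_assoc, mul_smul, H.IQ_rb]
  obtain ⟨X, hX⟩ := hFfin.exists_minimal ⟨hd g, g, hg0, Or.inl rfl⟩
  obtain ⟨p, hpIP, hbp, hapIQ⟩ := H.pt
  obtain ⟨⟨g, hg, hXg⟩, hmin⟩ := hX
  have contra : ∀ Y, Y ∈ F → Y ⊆ X → ∀ x ∈ X, x ∉ Y → False := by
    intro Y hY hYX x hxX hxY
    exact hxY (hmin hY hYX hxX)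
  rcases hXg with rfl | rfl
  · -- head minimal
    have hne : ∑ᶠ n : ℤ, E ((r * b) ^ n * (a * g)) ≠ 0 := by rw [key1]; exact hg
    have hx0 : g⁻¹ • p ∈ hd g := by
      show g • g⁻¹ • p ∈ IP
      rw [smul_inv_smul]; exact hpIP
    rcases alt1 (a * g) hne with ⟨k, hk, h1⟩ | ⟨k, hk, hk', h1⟩
    · refine contra (hd (k * (a * g))) ⟨_, h1, Or.inl rfl⟩ ?_ _ hx0 ?_
      · intro x hx
        have hx' : (k * (a * g)) • x ∈ IP := hx
        show g • x ∈ IP
        by_contra hcon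
        have h2 := H.aU _ hcon
        have h3 := H.pp3 k⁻¹ (K.inv_mem hk) _ hx'
        apply h3
        rw [mul_smul, inv_smul_smul, mul_smul]
        exact h2
      · intro hx
        have hx' : (k * (a * g)) • g⁻¹ • p ∈ IP := hx
        have h3 := H.pp3 k⁻¹ (K.inv_mem hk) _ hx'
        apply h3
        rw [mul_smul, inv_smul_smul, mul_smul, smul_inv_smul]
        exact hapIQ
    · have h1' : ∑ᶠ n : ℤ, E (b ^ n * (a⁻¹ * (k * (a * g)))) ≠ 0 := by
        rw [← key1']; exact h1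
      refine contra (tl (a⁻¹ * (k * (a * g)))) ⟨_, h1', Or.inr rfl⟩ ?_ _ hx0 ?_
      · intro x hx
        have hx' : (a * (a⁻¹ * (k * (a * g)))) • x ∈ IQ := hx
        rw [mul_inv_cancel_left, mul_smul, mul_smul] at hx'
        show g • x ∈ IP
        by_contra hcon
        have h2 := H.aU _ hcon
        exact H.pp2 k hk hk' _ h2 hx'
      · intro hx
        have hx' : (a * (a⁻¹ * (k * (a * g)))) • g⁻¹ • p ∈ IQ := hx
        rw [mul_inv_cancel_left, mul_smul, mul_smul, smul_inv_smul] at hx'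
        exact H.pp2 k hk hk' _ hapIQ hx'
  · -- tail minimal
    have hx0 : g⁻¹ • p ∈ tl g := by
      show (a * g) • g⁻¹ • p ∈ IQ
      rw [mul_smul, smul_inv_smul]; exact hapIQ
    rcases alt2 g hg with ⟨k, hk, hk', h1⟩ | ⟨k, hk, h1⟩
    · refine contra (hd (k * g)) ⟨_, h1, Or.inl rfl⟩ ?_ _ hx0 ?_
      · intro x hx
        have hx' : (k * g) • x ∈ IP := hx
        show (a * g) • x ∈ IQ
        by_contra hcon
        have h2 : g • x ∈ IP := by
          by_contra hcon2
          apply hcon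
          rw [mul_smul]
          exact H.aU _ hcon2
        rw [mul_smul] at hx'
        exact H.pp1 k hk hk' _ h2 hx'
      · intro hx
        have hx' : (k * g) • g⁻¹ • p ∈ IP := hx
        rw [mul_smul, smul_inv_smul] at hx'
        exact H.pp1 k hk hk' _ hpIP hx'
    · have h1' : ∑ᶠ n : ℤ, E (b ^ n * (a⁻¹ * (k * g))) ≠ 0 := by
        rw [← key1']; exact h1
      refine contra (tl (a⁻¹ * (k * g))) ⟨_, h1', Or.inr rfl⟩ ?_ _ hx0 ?_
      · intro x hx
        have hx' : (a * (a⁻¹ * (k * g))) • x ∈ IQ := hx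
        rw [mul_inv_cancel_left, mul_smul] at hx'
        show (a * g) • x ∈ IQ
        by_contra hcon
        have h2 : g • x ∈ IP := by
          by_contra hcon2
          apply hcon
          rw [mul_smul]
          exact H.aU _ hcon2
        exact H.pp3 k hk _ h2 hx'
      · intro hx
        have hx' : (a * (a⁻¹ * (k * g))) • g⁻¹ • p ∈ IQ := hx
        rw [mul_inv_cancel_left, mul_smul, smul_inv_smul] at hx'
        exact H.pp3 k hk _ hpIP hx'

/-- first flow argument -/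
theorem PP.flow1 {a b r : G} {IP IQ U U' : Set S} (H : PP a b r IP IQ U U') (χ : G → ℤ)
    (ha : {g | χ (a * g) ≠ χ g}.Finite) (hb : {g | χ (b * g) ≠ χ g}.Finite)
    (hr : ∀ g, χ (r * g) = χ g) (g : G) :
    ∃ c, (∀ᶠ n : ℤ in atTop, χ (b ^ n * g) = c) ∧ (∀ᶠ n : ℤ in atBot, χ (b ^ n * g) = c) := by
  have f1 : {n : ℤ | χ (b ^ (n + 1) * g) ≠ χ (b ^ n * g)}.Finite := by
    have hinj : Function.Injective (fun n : ℤ => b ^ n * g) := by
      intro m n hmn
      exact H.b_inj (mul_right_cancel hmn)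
    have h2 := hb.preimage (f := fun n : ℤ => b ^ n * g) hinj.injOn
    refine h2.subset ?_
    intro n hn
    show χ (b * (b ^ n * g)) ≠ χ (b ^ n * g)
    rwa [← mul_assoc, ← zpow_one_add, add_comm]
  obtain ⟨p1, m1, hp1, hm1, hs1⟩ := lim_9181 (fun n : ℤ => χ (b ^ n * g)) f1
  have h0 := H.zero_9181 χ ha hb hr g
  have h1 : ∑ᶠ n : ℤ, (χ (b * (b ^ n * g)) - χ (b ^ n * g)) = p1 - m1 := by
    rw [← hs1]
    apply finsum_congr
    intro n
    rw [← mul_assoc, ← zpow_one_add, add_comm 1 n]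
  have h2 : p1 = m1 := by
    rw [h0] at h1
    omega
  refine ⟨p1, hp1, ?_⟩
  rw [h2]
  exact hm1


/-! #### flow2 -/


theorem inj_mul_9182 {f : ℤ → G} (hf : Function.Injective f) (g : G) :
    Function.Injective (fun n : ℤ => f n * g) := fun m n h => hf (mul_right_cancel h)

theorem cof_9182 {f : ℤ → G} (hf : Function.Injective f) {s : Set G} (hs : s.Finite) :
    ∀ᶠ n : ℤ in cofinite, f n ∉ s :=
  hf.tendsto_cofinite.eventually hs.compl_mem_cofinite

theorem ev_iff_9182 (p : ℤ → Prop) :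
    (∀ᶠ n : ℤ in cofinite, p n) ↔ (∀ᶠ n : ℤ in atBot, p n) ∧ (∀ᶠ n : ℤ in atTop, p n) := by
  rw [Int.cofinite_eq, eventually_sup]

/-- second flow argument -/
theorem PP.flow2 {a b r : G} {IP IQ U U' : Set S} (H : PP a b r IP IQ U U') (χ : G → ℤ)
    (ha : {g | χ (a * g) ≠ χ g}.Finite) (hb : {g | χ (b * g) ≠ χ g}.Finite)
    (hr : ∀ g, χ (r * g) = χ g) : ∃ c, {g | χ g ≠ c}.Finite := by
  classical
  choose L hLt hLb using H.flow1 χ ha hb hr
  have hcof : ∀ g, ∀ᶠ n : ℤ in cofinite, χ (b ^ n * g) = L g := fun g =>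
    (ev_iff_9182 _).2 ⟨hLb g, hLt g⟩
  have hLbn : ∀ (m : ℤ) g, L (b ^ m * g) = L g := by
    intro m g
    have h1 : ∀ᶠ n : ℤ in atTop, χ (b ^ (n + m) * g) = L g :=
      (tendsto_atTop_add_const_right atTop m tendsto_id).eventually (hLt g)
    obtain ⟨n, h2, h3⟩ := (h1.and (hLt (b ^ m * g))).exists
    rw [← h3, ← h2, zpow_add, mul_assoc]
  have hLb1 : ∀ g, L (b * g) = L g := fun g => by simpa using hLbn 1 g
  -- finiteness of the set where the functions differ
  have hφ : {g | χ g ≠ L g}.Finite := by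
    have hfin : ∀ f, {n : ℤ | χ (b ^ n * f) ≠ L f}.Finite := fun f => by
      have := hcof f
      rwa [eventually_cofinite] at this
    refine (hb.biUnion fun f _ => (hfin f).image (fun n : ℤ => b ^ n * f)).subset ?_
    intro g hg
    obtain ⟨n, hn⟩ : ∃ n : ℕ, χ (b * (b ^ n * g)) ≠ χ (b ^ n * g) := by
      by_contra hcon
      push Not at hcon
      have hall : ∀ n : ℕ, χ (b ^ n * g) = χ g := by
        intro n
        induction n with
        | zero => simp
        | succ n ih => rw [pow_succ', mul_assoc, hcon n, ih]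
      obtain ⟨n, hn, hn0⟩ := ((hLt g).and (eventually_ge_atTop 0)).exists
      apply hg
      rw [← hn]
      obtain ⟨k, rfl⟩ := Int.eq_ofNat_of_zero_le hn0
      rw [zpow_natCast, hall k]
    refine Set.mem_biUnion (x := b ^ n * g) hn ⟨-(n : ℤ), ?_, ?_⟩
    · have h1 : b ^ (-(n : ℤ)) * (b ^ n * g) = g := by
        rw [zpow_neg, zpow_natCast, inv_mul_cancel_left]
      change χ (b ^ (-(n : ℤ)) * (b ^ n * g)) ≠ L (b ^ n * g)
      rw [h1]
      have h2 := hLbn n g
      rw [zpow_natCast] at h2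
      rw [h2]
      exact hg
    · change b ^ (-(n : ℤ)) * (b ^ n * g) = g
      rw [zpow_neg, zpow_natCast, inv_mul_cancel_left]
  -- conjugation identities
  have hC : ∀ n : ℤ, r * (b * r) ^ n = (r * b) ^ n * r := by
    intro n
    have h : SemiconjBy r (b * r) (r * b) := by
      change r * (b * r) = (r * b) * r
      rw [mul_assoc]
    exact (h.zpow_right n)
  have hA : ∀ n : ℤ, a * b ^ n = (r * b) ^ n * a := by
    intro n
    have h : SemiconjBy a b (r * b) := by
      change a * b = (r * b) * a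
      rw [← H.rel, inv_mul_cancel_right]
    exact (h.zpow_right n)
  have hCinj : Function.Injective (fun n : ℤ => (b * r) ^ n) := by
    intro m n h
    refine H.rb_inj ?_
    change (r * b) ^ m = (r * b) ^ n
    have h' : (b * r) ^ m = (b * r) ^ n := h
    have h1 := hC m
    rw [h', hC n] at h1
    exact (mul_right_cancel h1).symm
  have hrr : ∀ g, r * (r * g) = g := fun g => by rw [← mul_assoc, H.r2, one_mul]
  -- limits along the lines of C
  have hcofC : ∀ g, ∀ᶠ n : ℤ in cofinite, L ((b * r) ^ n * g) = L (a⁻¹ * (r * g)) := by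
    intro g
    have e1 := cof_9182 (inj_mul_9182 hCinj g) hφ
    have e2 := cof_9182 (inj_mul_9182 H.b_inj (a⁻¹ * (r * g))) ha
    filter_upwards [e1, e2, hcof (a⁻¹ * (r * g))] with n h1 h2 h3
    have h1' : χ ((b * r) ^ n * g) = L ((b * r) ^ n * g) := not_not.1 h1
    have h2' : χ (a * (b ^ n * (a⁻¹ * (r * g)))) = χ (b ^ n * (a⁻¹ * (r * g))) := not_not.1 h2
    have h4 : r * ((b * r) ^ n * g) = a * (b ^ n * (a⁻¹ * (r * g))) := by
      rw [← mul_assoc, hC, ← mul_assoc a, hA]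
      group
    rw [← h1', ← h3, ← h2', ← h4, hr]
  have hex : ∀ g, L g ≠ L (r * g) → ∃ n : ℤ, n ≠ 0 ∧
      L ((b * r) ^ n * g) ≠ L (r * ((b * r) ^ n * g)) := by
    intro g hg
    by_contra hcon
    push Not at hcon
    have hstep : ∀ n : ℤ, n ≠ 0 → L ((b * r) ^ n * g) = L ((b * r) ^ (n + 1) * g) := by
      intro n hn
      rw [hcon n hn, ← hLb1, add_comm, zpow_add, zpow_one]
      congr 1
      simp only [mul_assoc]
    have hup : ∀ k : ℕ, L ((b * r) ^ ((k : ℤ) + 1) * g) = L ((b * r) * g) := by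
      intro k
      induction k with
      | zero => simp
      | succ k ih =>
        rw [← ih, hstep ((k : ℤ) + 1) (by positivity)]
        push_cast
        rfl
    have hdown : ∀ k : ℕ, L ((b * r) ^ (-(k : ℤ)) * g) = L g := by
      intro k
      induction k with
      | zero => simp
      | succ k ih =>
        rw [← ih, hstep _ (by push_cast; omega)]
        congr 3
        push_cast
        ring
    obtain ⟨hbot, htop⟩ := (ev_iff_9182 _).1 (hcofC g)
    obtain ⟨n, hn, hn1⟩ := (htop.and (eventually_ge_atTop 1)).exists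
    obtain ⟨m, hm, hm1⟩ := (hbot.and (eventually_le_atBot 0)).exists
    obtain ⟨k, hk⟩ := Int.eq_ofNat_of_zero_le (show 0 ≤ n - 1 by omega)
    obtain ⟨l, hl⟩ := Int.eq_ofNat_of_zero_le (show 0 ≤ -m by omega)
    have hn' : n = (k : ℤ) + 1 := by omega
    have hm' : m = -(l : ℤ) := by omega
    rw [hn', hup] at hn
    rw [hm', hdown] at hm
    apply hg
    rw [hm, ← hn, mul_assoc, hLb1]
  -- ping-pong
  have hpp : ∀ n : ℤ, n ≠ 0 → ∀ x : S, x ∉ U' → ((b * r) ^ n) • x ∈ U' := by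
    intro n hn x hx
    have h1 : r • x ∈ U' := (H.Ur' x).2 hx
    have h2 := H.Ub' n hn _ h1
    rw [← mul_smul, ← hC, mul_smul, H.Ur', not_not] at h2
    exact h2
  have hne : ∃ y : S, y ∉ U' := by
    obtain ⟨p, -⟩ := H.pt
    by_cases hp : p ∈ U'
    · exact ⟨r • p, fun h => (H.Ur' p).1 h hp⟩
    · exact ⟨p, hp⟩
  have hδfin : {g | L g ≠ L (r * g)}.Finite := by
    refine (hφ.union (hφ.preimage (f := fun g => r * g) (mul_right_injective r).injOn)).subset ?_
    intro g hg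
    by_contra hcon
    rw [Set.mem_union, not_or] at hcon
    have h1 : χ g = L g := not_not.1 hcon.1
    have h2 : χ (r * g) = L (r * g) := not_not.1 hcon.2
    apply hg
    rw [← h1, ← h2, hr]
  have hLr : ∀ g, L (r * g) = L g := by
    by_contra hcon
    push Not at hcon
    obtain ⟨g0, hg0⟩ := hcon
    obtain ⟨g, hg, hmin⟩ := hδfin.exists_minimalFor (fun g => {x : S | g • x ∉ U'})
      _ ⟨g0, hg0.symm⟩
    have hg' : L g ≠ L (r * g) := hg
    have hrg : L (r * g) ≠ L (r * (r * g)) := by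
      rw [hrr]
      exact hg'.symm
    obtain ⟨n, hn, hn2⟩ := hex (r * g) hrg
    -- every C-translate is inside
    have hins : ∀ m : ℤ, m ≠ 0 → ∀ x : S, ((b * r) ^ m * (r * g)) • x ∉ U' → g • x ∉ U' := by
      intro m hm x hx hgx
      apply hx
      rw [mul_smul]
      refine hpp m hm _ ?_
      rw [mul_smul, H.Ur', not_not]
      exact hgx
    have hsub := hmin hn2 (fun x hx => hins n hn x hx)
    obtain ⟨y, hy⟩ := hne
    have hx1 : ((b * r) ^ (-n) * (r * g)) • (((b * r) ^ (-n) * (r * g))⁻¹ • y) ∉ U' := by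
      rw [smul_inv_smul]
      exact hy
    set x := ((b * r) ^ (-n) * (r * g))⁻¹ • y with hx
    have hx2 : g • x ∉ U' := hins (-n) (neg_ne_zero.2 hn) x hx1
    have hx3 : ((b * r) ^ n * (r * g)) • x ∉ U' := hsub hx2
    have hx4 := hpp (n + n) (by omega) _ hx1
    apply hx3
    rw [← mul_smul, ← mul_assoc, ← zpow_add] at hx4
    simpa using hx4
  have hLrb : ∀ (n : ℤ) g, L ((r * b) ^ n * g) = L g := by
    have h1 : ∀ g, L ((r * b) * g) = L g := fun g => by rw [mul_assoc, hLr, hLb1]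
    intro n g
    induction n using Int.induction_on with
    | zero => simp
    | succ k ih => rw [add_comm, zpow_add, zpow_one, mul_assoc, h1, ih]
    | pred k ih =>
      rw [← ih, ← h1 ((r * b) ^ (-(k : ℤ) - 1) * g), ← mul_assoc, ← zpow_one_add]
      congr 3
      ring
  have hLa : ∀ g, L (a * g) = L g := by
    intro g
    have h1 : ∀ n : ℤ, L (a * (b ^ n * g)) = L (a * g) := by
      intro n
      rw [← mul_assoc, hA, mul_assoc, hLrb]
    have e1 := cof_9182 (f := fun n : ℤ => a * (b ^ n * g))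
      (fun m n h => H.b_inj (mul_right_cancel (mul_left_cancel h))) hφ
    have e2 := cof_9182 (inj_mul_9182 H.b_inj g) ha
    obtain ⟨n, h2, h3, h4⟩ := (e1.and (e2.and (hcof g))).exists
    have h2' : χ (a * (b ^ n * g)) = L (a * (b ^ n * g)) := not_not.1 h2
    have h3' : χ (a * (b ^ n * g)) = χ (b ^ n * g) := not_not.1 h3
    rw [← h1 n, ← h2', h3', h4]
  have hall : ∀ h g, L (h * g) = L g := by
    intro h
    have hmem : h ∈ Subgroup.closure ({a, b} : Set G) := by rw [H.gen]; exact Subgroup.mem_top h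
    induction hmem using Subgroup.closure_induction with
    | mem x hx =>
      rcases hx with rfl | hx
      · exact hLa
      · rw [Set.mem_singleton_iff] at hx
        subst hx
        exact hLb1
    | one => intro g; rw [one_mul]
    | mul x y _ _ hx hy => intro g; rw [mul_assoc, hx, hy]
    | inv x _ hx => intro g; rw [← hx (x⁻¹ * g), mul_inv_cancel_left]
  refine ⟨L 1, hφ.subset fun g hg => ?_⟩
  have h1 := hall g 1
  rw [mul_one] at h1
  change χ g ≠ L g
  rw [h1]
  exact hg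



/-! #### oe -/


theorem pre_fin9183 {A : Set G} (hA : A.Finite) (t : G) : {g | t * g ∈ A}.Finite :=
  hA.preimage (fun _ _ _ _ h => mul_left_cancel h)

theorem all_fin9183 (a b : G) (hgen : Subgroup.closure {a, b} = ⊤) (χ : G → ℤ)
    (ha : {g | χ (a * g) ≠ χ g}.Finite) (hb : {g | χ (b * g) ≠ χ g}.Finite) (s : G) :
    {g | χ (s * g) ≠ χ g}.Finite := by
  have hs : s ∈ Subgroup.closure {a, b} := by rw [hgen]; trivial
  induction hs using Subgroup.closure_induction with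
  | mem x hx =>
    rcases hx with rfl | hx
    · exact ha
    · rw [Set.mem_singleton_iff] at hx
      subst hx
      exact hb
  | one => simp
  | mul x y _ _ hx hy =>
    refine ((pre_fin9183 hx y).union hy).subset ?_
    intro g hg
    by_cases h : χ (y * g) = χ g
    · left
      change χ (x * (y * g)) ≠ χ (y * g)
      rw [h, ← mul_assoc]
      exact hg
    · right; exact h
  | inv x _ hx =>
    refine (pre_fin9183 hx x⁻¹).subset ?_
    intro g hg
    change χ (x * (x⁻¹ * g)) ≠ χ (x⁻¹ * g)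
    rw [mul_inv_cancel_left]
    exact fun h => hg h.symm

/-- `G` is one-ended -/
theorem PP.oe {a b r : G} {IP IQ U U' : Set S} (H : PP a b r IP IQ U U') (χ : G → ℤ)
    (ha : {g | χ (a * g) ≠ χ g}.Finite) (hb : {g | χ (b * g) ≠ χ g}.Finite) :
    ∃ c, {g | χ g ≠ c}.Finite := by
  have hall := all_fin9183 a b H.gen χ ha hb
  have key : ∀ s : G, {g | χ (s * g) + χ (r * (s * g)) ≠ χ g + χ (r * g)}.Finite := by
    intro s
    refine ((hall s).union (pre_fin9183 (hall (r * s * r⁻¹)) r)).subset ?_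
    intro g hg
    by_cases h : χ (s * g) = χ g
    · right
      change χ (r * s * r⁻¹ * (r * g)) ≠ χ (r * g)
      have e : r * s * r⁻¹ * (r * g) = r * (s * g) := by group
      rw [e]
      intro h2
      apply hg
      rw [h, h2]
    · left; exact h
  obtain ⟨c, hc⟩ := H.flow2 (fun g => χ g + χ (r * g)) (key a) (key b) (by
    intro g
    have e : r * (r * g) = g := by rw [← mul_assoc, H.r2, one_mul]
    simp only [e]
    ring)
  have hF := hc.union (hall r)
  haveI : Infinite G := Infinite.of_injective _ H.b_inj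
  obtain ⟨g₀, hg₀⟩ := hF.exists_notMem
  simp only [Set.mem_union, Set.mem_ofPred_eq, not_or, not_not] at hg₀
  refine ⟨χ g₀, hF.subset ?_⟩
  intro g hg
  by_contra hcon
  simp only [Set.mem_union, Set.mem_ofPred_eq, not_or, not_not] at hcon
  apply hg
  have h1 := hg₀.1
  have h2 := hg₀.2
  have h3 := hcon.1
  have h4 := hcon.2
  rw [h2] at h1
  rw [h4] at h3
  omega



/-! #### z1 -/


theorem z1_data_9198 {a b r : G} {IP IQ U U' : Set S} (H : PP a b r IP IQ U U') (x : S)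
    (hx : ∀ k ∈ Subgroup.closure {b, r}, k • x ∉ IP) :
    ∃ N : G → G, (∀ g ∈ Subgroup.closure {b, r}, N g ∈ Subgroup.closure {b, r}) ∧
      (∀ g ∈ Subgroup.closure {b, r}, ∀ k : ℤ, N (b ^ k * g) = N g) ∧
      (∀ g ∈ Subgroup.closure {b, r}, g • x ∈ U → N g = g) ∧
      (∀ g ∈ Subgroup.closure {b, r}, ∀ h ∈ Subgroup.closure {b, r}, h • x = x →
        N (g * h) = N g * h) := by
  have hb : b ∈ Subgroup.closure {b, r} := Subgroup.subset_closure (by simp)
  have huniq : ∀ (y : S) (n m : ℤ), (b ^ n) • y ∈ U → (b ^ m) • y ∈ U → n = m := by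
    intro y n m hn hm
    by_contra hne
    have h1 := H.Ub (m - n) (by omega) _ hn
    rw [smul_smul, ← zpow_add, sub_add_cancel] at h1
    exact h1 hm
  have hex : ∀ g : G, ∃ n : ℤ, g ∈ Subgroup.closure {b, r} → (b ^ n) • (g • x) ∈ U := by
    intro g
    by_cases hg : g ∈ Subgroup.closure {b, r}
    · have h1 := hx g hg
      rw [H.IPdef] at h1
      push Not at h1
      obtain ⟨n, hn⟩ := h1
      exact ⟨n, fun _ => hn⟩
    · exact ⟨0, fun h => absurd h hg⟩
  choose n hn using hex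
  refine ⟨fun g => b ^ (n g) * g, ?_, ?_, ?_, ?_⟩
  · intro g hg
    exact Subgroup.mul_mem _ (Subgroup.zpow_mem _ hb _) hg
  · intro g hg k
    have h1 := hn (b ^ k * g) (Subgroup.mul_mem _ (Subgroup.zpow_mem _ hb _) hg)
    rw [mul_smul, smul_smul, ← zpow_add] at h1
    have h2 := huniq _ _ _ h1 (hn g hg)
    show b ^ (n (b ^ k * g)) * (b ^ k * g) = b ^ (n g) * g
    rw [← mul_assoc, ← zpow_add, h2]
  · intro g hg hU
    have h1 : (b ^ (0 : ℤ)) • (g • x) ∈ U := by rwa [zpow_zero, one_smul]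
    have h2 := huniq _ _ _ (hn g hg) h1
    show b ^ (n g) * g = g
    rw [h2, zpow_zero, one_mul]
  · intro g hg h hh hhx
    have h1 := hn (g * h) (Subgroup.mul_mem _ hg hh)
    rw [mul_smul, hhx] at h1
    have h2 := huniq _ _ _ h1 (hn g hg)
    show b ^ (n (g * h)) * (g * h) = b ^ (n g) * g * h
    rw [h2, mul_assoc]

/-- stabilisers inside `⟨b, r⟩` of points outside the translates of `IP` -/
theorem PP.z1 {a b r : G} {IP IQ U U' : Set S} (H : PP a b r IP IQ U U') (x : S)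
    (hx : ∀ k ∈ Subgroup.closure {b, r}, k • x ∉ IP) (γ h : G)
    (hγ : γ ∈ Subgroup.closure {b, r}) (hh : h ∈ Subgroup.closure {b, r})
    (hγx : γ • x = x) (hhx : h • x = x) (hγ1 : γ ≠ 1) (hh1 : h ≠ 1) :
    ∃ m n : ℤ, m ≠ 0 ∧ n ≠ 0 ∧ γ ^ m = h ^ n := by
  obtain ⟨N, hNK, hNb, hNU, hNh⟩ := z1_data_9198 H x hx
  have hr : r ∈ Subgroup.closure {b, r} := H.r_mem
  obtain ⟨σ, hσ⟩ : ∃ σ : G → G, ∀ g, σ g = N (r * g) := ⟨_, fun _ => rfl⟩
  have hσK : ∀ g ∈ Subgroup.closure {b, r}, σ g ∈ Subgroup.closure {b, r} := by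
    intro g hg
    rw [hσ]
    exact hNK _ (Subgroup.mul_mem _ hr hg)
  have hitK : ∀ (j : ℕ), ∀ g ∈ Subgroup.closure {b, r}, σ^[j] g ∈ Subgroup.closure {b, r} := by
    intro j
    induction j with
    | zero => intro g hg; exact hg
    | succ j ih =>
      intro g hg
      rw [Function.iterate_succ_apply]
      exact ih _ (hσK g hg)
  -- merging
  have hMtrans : ∀ u v w : G, (∃ m n : ℕ, σ^[m] u = σ^[n] v) → (∃ m n : ℕ, σ^[m] v = σ^[n] w) →
      ∃ m n : ℕ, σ^[m] u = σ^[n] w := by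
    rintro u v w ⟨m, n, h1⟩ ⟨m', n', h2⟩
    refine ⟨m' + m, n + n', ?_⟩
    rw [Function.iterate_add_apply, h1, ← Function.iterate_add_apply, add_comm m' n,
      Function.iterate_add_apply, h2, ← Function.iterate_add_apply]
  have hMr : ∀ g ∈ Subgroup.closure {b, r}, ∃ m n : ℕ, σ^[m] (N (r * g)) = σ^[n] (N g) := by
    intro g hg
    by_cases hU : g • x ∈ U
    · refine ⟨0, 1, ?_⟩
      rw [hNU g hg hU]
      show N (r * g) = σ g
      rw [hσ]
    · refine ⟨1, 0, ?_⟩
      have hU' : (r * g) • x ∈ U := by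
        rw [mul_smul, H.Ur]
        exact hU
      rw [hNU (r * g) (Subgroup.mul_mem _ hr hg) hU']
      show σ (r * g) = N g
      rw [hσ, ← mul_assoc, H.r2, one_mul]
  have hrinv : r⁻¹ = r := by
    rw [inv_eq_iff_mul_eq_one, H.r2]
  have hM : ∀ g ∈ Subgroup.closure {b, r}, ∃ m n : ℕ, σ^[m] (N g) = σ^[n] (N 1) := by
    intro g hg
    induction hg using Subgroup.closure_induction_left with
    | one => exact ⟨0, 0, rfl⟩
    | mul_left s hs y hy ih =>
      rcases hs with rfl | hs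
      · have := hNb y hy 1
        rw [zpow_one] at this
        rw [this]
        exact ih
      · rw [Set.mem_singleton_iff] at hs
        subst hs
        exact hMtrans _ _ _ (hMr y hy) ih
    | inv_mul_cancel s hs y hy ih =>
      rcases hs with rfl | hs
      · have := hNb y hy (-1)
        rw [zpow_neg_one] at this
        rw [this]
        exact ih
      · rw [Set.mem_singleton_iff] at hs
        subst hs
        rw [hrinv]
        exact hMtrans _ _ _ (hMr y hy) ih
  -- translation by stabilisers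
  have hσh : ∀ k ∈ Subgroup.closure {b, r}, k • x = x → ∀ g ∈ Subgroup.closure {b, r},
      σ (g * k) = σ g * k := by
    intro k hk hkx g hg
    rw [hσ, hσ, ← mul_assoc]
    exact hNh (r * g) (Subgroup.mul_mem _ hr hg) k hk hkx
  have hith : ∀ k ∈ Subgroup.closure {b, r}, k • x = x → ∀ (j : ℕ),
      ∀ g ∈ Subgroup.closure {b, r}, σ^[j] (g * k) = σ^[j] g * k := by
    intro k hk hkx j
    induction j with
    | zero => intro g hg; rfl
    | succ j ih =>
      intro g hg
      rw [Function.iterate_succ_apply, Function.iterate_succ_apply, hσh k hk hkx g hg]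
      exact ih _ (hσK g hg)
  have h1K : N 1 ∈ Subgroup.closure {b, r} := hNK 1 (Subgroup.one_mem _)
  have hmain : ∀ k ∈ Subgroup.closure {b, r}, k • x = x → k ≠ 1 →
      ∃ (e : ℤ) (l J : ℕ), e ≠ 0 ∧ 0 < l ∧ ∀ j ≥ J, σ^[j] (N 1) * k ^ e = σ^[j + l] (N 1) := by
    intro k hk hkx hk1
    obtain ⟨m, n, hmn⟩ := hM k hk
    have e1 : N k = N 1 * k := by
      have := hNh 1 (Subgroup.one_mem _) k hk hkx
      rwa [one_mul] at this
    rw [e1, hith k hk hkx m _ h1K] at hmn
    have hall : ∀ i : ℕ, σ^[i + m] (N 1) * k = σ^[i + n] (N 1) := by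
      intro i
      rw [Function.iterate_add_apply, Function.iterate_add_apply, ← hmn,
        hith k hk hkx i _ (hitK m _ h1K)]
    rcases lt_trichotomy m n with hlt | heq | hgt
    · refine ⟨1, n - m, m, one_ne_zero, by omega, fun j hj => ?_⟩
      have := hall (j - m)
      rw [Nat.sub_add_cancel hj] at this
      rw [zpow_one, this]
      exact congrArg (fun n => σ^[n] (N 1)) (by omega)
    · exfalso
      rw [heq] at hmn
      exact hk1 (mul_eq_left.1 hmn)
    · refine ⟨-1, m - n, n, by norm_num, by omega, fun j hj => ?_⟩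
      have := hall (j - n)
      rw [Nat.sub_add_cancel hj] at this
      rw [zpow_neg_one, ← this, mul_inv_cancel_right]
      exact congrArg (fun n => σ^[n] (N 1)) (by omega)
  have hpow : ∀ (k : G) (l J : ℕ), (∀ j ≥ J, σ^[j] (N 1) * k = σ^[j + l] (N 1)) →
      ∀ i : ℕ, ∀ j ≥ J, σ^[j] (N 1) * k ^ i = σ^[j + i * l] (N 1) := by
    intro k l J hk i
    induction i with
    | zero => intro j _; rw [pow_zero, mul_one, zero_mul, add_zero]
    | succ i ih =>
      intro j hj
      rw [pow_succ, ← mul_assoc, ih j hj, hk _ (le_trans hj (Nat.le_add_right _ _))]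
      exact congrArg (fun n => σ^[n] (N 1)) (by ring)
  obtain ⟨e1, l1, J1, he1, hl1, hJ1⟩ := hmain γ hγ hγx hγ1
  obtain ⟨e2, l2, J2, he2, hl2, hJ2⟩ := hmain h hh hhx hh1
  have p1 := hpow (γ ^ e1) l1 J1 hJ1 l2 (max J1 J2) (le_max_left _ _)
  have p2 := hpow (h ^ e2) l2 J2 hJ2 l1 (max J1 J2) (le_max_right _ _)
  rw [mul_comm l2 l1, ← p2] at p1
  have p3 := mul_left_cancel p1
  refine ⟨e1 * l2, e2 * l1, mul_ne_zero he1 (by omega), mul_ne_zero he2 (by omega), ?_⟩
  rw [zpow_mul, zpow_mul, zpow_natCast, zpow_natCast]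
  exact p3



/-! #### tau -/


theorem mulinv_9199 {a b r : G} (h : a * b * a⁻¹ = r * b) (i : ℤ) : a * b ^ i * a⁻¹ = (r * b) ^ i := by
  have h1 : MulAut.conj a b = r * b := by rw [MulAut.conj_apply]; exact h
  rw [← h1, ← map_zpow, MulAut.conj_apply]

theorem invmul_9199 {a b r : G} (h : a * b * a⁻¹ = r * b) (i : ℤ) : a⁻¹ * (r * b) ^ i * a = b ^ i := by
  rw [← mulinv_9199 h i]; group

/-- the map which moves every coset of `⟨b, r⟩` one step toward `x` -/
theorem PP.exists_tau {a b r : G} {IP IQ U U' : Set S} (H : PP a b r IP IQ U U') (x : S) :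
    ∃ τ : Quotient (QuotientGroup.rightRel (Subgroup.closure {b, r})) →
        Quotient (QuotientGroup.rightRel (Subgroup.closure {b, r})),
      (∀ g : G, g • x ∈ IP → τ (Quotient.mk _ g) = Quotient.mk _ (a * g)) ∧
      (∀ g : G, g • x ∈ IQ → τ (Quotient.mk _ g) = Quotient.mk _ (a⁻¹ * g)) ∧
      (∀ g : G, (∀ k ∈ Subgroup.closure {b, r}, k • g • x ∉ IP ∧ k • g • x ∉ IQ) →
        τ (Quotient.mk _ g) = Quotient.mk _ g) ∧
      (∀ g : G, ∃ m n : ℕ, τ^[m] (Quotient.mk _ g) = τ^[n] (Quotient.mk _ 1)) := by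
  classical
  set K := Subgroup.closure {b, r} with hK
  have hbK : b ∈ K := Subgroup.subset_closure (by simp)
  have hrK : r ∈ K := H.r_mem
  have hrbK : r * b ∈ K := K.mul_mem hrK hbK
  have hmk : ∀ g g' : G, (Quotient.mk (QuotientGroup.rightRel K) g = Quotient.mk (QuotientGroup.rightRel K) g') ↔
      g' * g⁻¹ ∈ K := by
    intro g g'
    rw [Quotient.eq]
    exact QuotientGroup.rightRel_apply
  let τ : Quotient (QuotientGroup.rightRel K) → Quotient (QuotientGroup.rightRel K) := fun v =>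
    if h : ∃ g : G, Quotient.mk (QuotientGroup.rightRel K) g = v ∧ g • x ∈ IP then
      Quotient.mk _ (a * h.choose)
    else if h' : ∃ g : G, Quotient.mk (QuotientGroup.rightRel K) g = v ∧ g • x ∈ IQ then
      Quotient.mk _ (a⁻¹ * h'.choose)
    else v
  have t1 : ∀ g : G, g • x ∈ IP → τ (Quotient.mk _ g) = Quotient.mk _ (a * g) := by
    intro g hg
    have h : ∃ g' : G, Quotient.mk (QuotientGroup.rightRel K) g' = Quotient.mk _ g ∧ g' • x ∈ IP := ⟨g, rfl, hg⟩
    have e : τ (Quotient.mk _ g) = Quotient.mk _ (a * h.choose) := dif_pos h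
    rw [e, hmk]
    obtain ⟨h1, h2⟩ := h.choose_spec
    rw [hmk] at h1
    have h3 : g * h.choose⁻¹ ∈ Subgroup.zpowers b := by
      by_contra hcon
      have := H.pp1 _ h1 hcon _ h2
      rw [smul_smul, inv_mul_cancel_right] at this
      exact this hg
    obtain ⟨i, hi⟩ := Subgroup.mem_zpowers_iff.1 h3
    have e2 : a * g * (a * h.choose)⁻¹ = a * (g * h.choose⁻¹) * a⁻¹ := by group
    rw [e2, ← hi, mulinv_9199 H.rel]
    exact K.zpow_mem hrbK i
  have t2 : ∀ g : G, g • x ∈ IQ → τ (Quotient.mk _ g) = Quotient.mk _ (a⁻¹ * g) := by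
    intro g hg
    have hn : ¬ ∃ g' : G, Quotient.mk (QuotientGroup.rightRel K) g' = Quotient.mk _ g ∧ g' • x ∈ IP := by
      rintro ⟨g', h1, h2⟩
      rw [hmk] at h1
      have := H.pp3 _ h1 _ h2
      rw [smul_smul, inv_mul_cancel_right] at this
      exact this hg
    have h : ∃ g' : G, Quotient.mk (QuotientGroup.rightRel K) g' = Quotient.mk _ g ∧ g' • x ∈ IQ := ⟨g, rfl, hg⟩
    have e : τ (Quotient.mk _ g) = Quotient.mk _ (a⁻¹ * h.choose) := by
      show (if h : ∃ g' : G, Quotient.mk (QuotientGroup.rightRel K) g' = Quotient.mk _ g ∧ g' • x ∈ IP then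
        Quotient.mk _ (a * h.choose)
      else if h' : ∃ g' : G, Quotient.mk (QuotientGroup.rightRel K) g' = Quotient.mk _ g ∧ g' • x ∈ IQ then
        Quotient.mk _ (a⁻¹ * h'.choose)
      else Quotient.mk _ g) = _
      rw [dif_neg hn, dif_pos h]
    rw [e, hmk]
    obtain ⟨h1, h2⟩ := h.choose_spec
    rw [hmk] at h1
    have h3 : g * h.choose⁻¹ ∈ Subgroup.zpowers (r * b) := by
      by_contra hcon
      have := H.pp2 _ h1 hcon _ h2
      rw [smul_smul, inv_mul_cancel_right] at this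
      exact this hg
    obtain ⟨i, hi⟩ := Subgroup.mem_zpowers_iff.1 h3
    have e2 : a⁻¹ * g * (a⁻¹ * h.choose)⁻¹ = a⁻¹ * (g * h.choose⁻¹) * a := by group
    rw [e2, ← hi, invmul_9199 H.rel]
    exact K.zpow_mem hbK i
  have t3 : ∀ g : G, (∀ k ∈ K, k • g • x ∉ IP ∧ k • g • x ∉ IQ) →
        τ (Quotient.mk _ g) = Quotient.mk _ g := by
    intro g hg
    have hn : ¬ ∃ g' : G, Quotient.mk (QuotientGroup.rightRel K) g' = Quotient.mk _ g ∧ g' • x ∈ IP := by
      rintro ⟨g', h1, h2⟩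
      rw [hmk] at h1
      have := (hg _ (K.inv_mem h1)).1
      rw [smul_smul] at this
      apply this
      have e : (g * g'⁻¹)⁻¹ * g = g' := by group
      rw [e]; exact h2
    have hn' : ¬ ∃ g' : G, Quotient.mk (QuotientGroup.rightRel K) g' = Quotient.mk _ g ∧ g' • x ∈ IQ := by
      rintro ⟨g', h1, h2⟩
      rw [hmk] at h1
      have := (hg _ (K.inv_mem h1)).2
      rw [smul_smul] at this
      apply this
      have e : (g * g'⁻¹)⁻¹ * g = g' := by group
      rw [e]; exact h2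
    show (if h : ∃ g' : G, Quotient.mk (QuotientGroup.rightRel K) g' = Quotient.mk _ g ∧ g' • x ∈ IP then
        Quotient.mk _ (a * h.choose)
      else if h' : ∃ g' : G, Quotient.mk (QuotientGroup.rightRel K) g' = Quotient.mk _ g ∧ g' • x ∈ IQ then
        Quotient.mk _ (a⁻¹ * h'.choose)
      else Quotient.mk _ g) = _
    rw [dif_neg hn, dif_neg hn']
  refine ⟨τ, t1, t2, t3, ?_⟩
  have htrans : ∀ u v w : Quotient (QuotientGroup.rightRel K), (∃ m n : ℕ, τ^[m] u = τ^[n] v) →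
      (∃ m n : ℕ, τ^[m] v = τ^[n] w) → ∃ m n : ℕ, τ^[m] u = τ^[n] w := by
    rintro u v w ⟨m, n, h1⟩ ⟨p, q, h2⟩
    refine ⟨p + m, n + q, ?_⟩
    rw [Function.iterate_add_apply, h1, ← Function.iterate_add_apply, add_comm p n,
      Function.iterate_add_apply, h2, ← Function.iterate_add_apply]
  have hsymm : ∀ u v : Quotient (QuotientGroup.rightRel K), (∃ m n : ℕ, τ^[m] u = τ^[n] v) →
      ∃ m n : ℕ, τ^[m] v = τ^[n] u := by
    rintro u v ⟨m, n, h⟩
    exact ⟨n, m, h.symm⟩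
  have hstep : ∀ s ∈ ({a, b} : Set G), ∀ g : G, ∃ m n : ℕ,
      τ^[m] (Quotient.mk (QuotientGroup.rightRel K) (s * g)) = τ^[n] (Quotient.mk _ g) := by
    intro s hs g
    rcases hs with rfl | hs
    · by_cases hg : g • x ∈ IP
      · refine ⟨0, 1, ?_⟩
        simp only [Function.iterate_zero, id, Function.iterate_one]
        exact (t1 g hg).symm
      · refine ⟨1, 0, ?_⟩
        simp only [Function.iterate_zero, id, Function.iterate_one]
        have h1 := H.aU _ hg
        rw [smul_smul] at h1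
        rw [t2 _ h1, inv_mul_cancel_left]
    · rw [Set.mem_singleton_iff] at hs
      subst hs
      refine ⟨0, 0, ?_⟩
      simp only [Function.iterate_zero, id]
      rw [hmk]
      have e : g * (s * g)⁻¹ = s⁻¹ := by group
      rw [e]; exact K.inv_mem hbK
  intro g
  have hg : g ∈ Subgroup.closure {a, b} := by rw [H.gen]; trivial
  induction hg using Subgroup.closure_induction_left with
  | one => exact ⟨0, 0, rfl⟩
  | mul_left s hs y hy ih => exact htrans _ _ _ (hstep s hs y) ih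
  | inv_mul_cancel s hs y hy ih =>
    refine htrans _ _ _ (hsymm _ _ ?_) ih
    have := hstep s hs (s⁻¹ * y)
    rw [mul_inv_cancel_left] at this
    exact this



/-! #### z2 -/


theorem two_cycle_9205 {X : Type} (t : X → X) (u v : X) (huv : t u = v) (hvu : t v = u) (m : ℕ) :
    t^[m] u = u ∨ t^[m] u = v := by
  induction m with
  | zero => left; rfl
  | succ m ih =>
    rw [Function.iterate_succ_apply']
    rcases ih with h | h
    · right; rw [h, huv]
    · left; rw [h, hvu]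

theorem PP.z2 {a b r : G} {IP IQ U U' : Set S} (H : PP a b r IP IQ U U') (x : S)
    (hx : x ∈ IP) (hax : a • x ∈ IQ) (γ : G) (hγ : γ • x = x) : γ ∈ Subgroup.zpowers b := by
  obtain ⟨t, t1, t2, -, t4⟩ := H.exists_tau x
  have hγ' : γ⁻¹ • x = x := by
    rw [inv_smul_eq_iff, hγ]
  have h1 : t (Quotient.mk _ 1) = Quotient.mk _ a := by
    rw [t1 1 (by rw [one_smul]; exact hx), mul_one]
  have h2 : t (Quotient.mk _ a) = Quotient.mk _ 1 := by
    rw [t2 a hax, inv_mul_cancel]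
  have h3 : t (Quotient.mk _ γ) = Quotient.mk _ (a * γ) := by
    rw [t1 γ (by rw [hγ]; exact hx)]
  have h4 : t (Quotient.mk _ (a * γ)) = Quotient.mk _ γ := by
    rw [t2 (a * γ) (by rw [mul_smul, hγ]; exact hax), inv_mul_cancel_left]
  obtain ⟨m, n, hmn⟩ := t4 γ
  have key : ∀ g g' : G, (Quotient.mk (QuotientGroup.rightRel (Subgroup.closure {b, r})) g =
      Quotient.mk (QuotientGroup.rightRel (Subgroup.closure {b, r})) g') →
      g' * g⁻¹ ∈ Subgroup.closure {b, r} := by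
    intro g g' h
    have := Quotient.exact h
    exact QuotientGroup.rightRel_apply.1 this
  rcases two_cycle_9205 t _ _ h3 h4 m with hm | hm <;>
    rcases two_cycle_9205 t _ _ h1 h2 n with hn | hn <;> rw [hm, hn] at hmn
  · have hk := key _ _ hmn
    rw [one_mul] at hk
    have hk' : γ ∈ Subgroup.closure {b, r} := by
      have := Subgroup.inv_mem _ hk
      rwa [inv_inv] at this
    by_contra hnot
    exact H.pp1 γ hk' hnot x hx (by rw [hγ]; exact hx)
  · have hk := key _ _ hmn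
    exact absurd (by rw [mul_smul, hγ']; exact hax) (H.pp3 _ hk x hx)
  · have hk := key _ _ hmn
    rw [one_mul] at hk
    have hk' : a * γ ∈ Subgroup.closure {b, r} := by
      have := Subgroup.inv_mem _ hk
      rwa [inv_inv] at this
    exact absurd (by rw [mul_smul, hγ]; exact hax) (H.pp3 _ hk' x hx)
  · have hk := Subgroup.inv_mem _ (key _ _ hmn)
    have hk' : (a * (a * γ)⁻¹)⁻¹ = a * γ * a⁻¹ := by group
    rw [hk'] at hk
    have hz : a * γ * a⁻¹ ∈ Subgroup.zpowers (r * b) := by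
      by_contra hnot
      apply H.pp2 _ hk hnot (a • x) hax
      rw [← mul_smul, inv_mul_cancel_right, mul_smul, hγ]
      exact hax
    obtain ⟨i, hi⟩ := Subgroup.mem_zpowers_iff.1 hz
    rw [Subgroup.mem_zpowers_iff]
    refine ⟨i, ?_⟩
    rw [← H.rel, conj_zpow] at hi
    have := mul_right_cancel hi
    exact mul_left_cancel this



/-! #### z3 -/


theorem PP.z3 {a b r : G} {IP IQ U U' : Set S} (H : PP a b r IP IQ U U') (x : S)
    (hx : ∀ k ∈ Subgroup.closure {b, r}, k • x ∉ IP ∧ k • x ∉ IQ) (γ : G) (hγ : γ • x = x) :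
    γ ∈ Subgroup.closure {b, r} := by
  obtain ⟨τ, _, _, h3, h4⟩ := H.exists_tau x
  have e1 : τ (Quotient.mk _ 1) = Quotient.mk _ 1 := h3 1 (fun k hk => by
    rw [one_smul]; exact hx k hk)
  have e2 : τ (Quotient.mk _ γ) = Quotient.mk _ γ := h3 γ (fun k hk => by
    rw [hγ]; exact hx k hk)
  obtain ⟨m, n, hmn⟩ := h4 γ
  rw [Function.iterate_fixed e2 m, Function.iterate_fixed e1 n] at hmn
  have h5 := Quotient.exact hmn
  have h6 : (QuotientGroup.rightRel (Subgroup.closure {b, r})) γ 1 := h5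
  rw [QuotientGroup.rightRel_apply] at h6
  simpa using h6



/-! #### z4 -/


theorem PP.comm_zpow_9217 {a b r : G} {IP IQ U U' : Set S} (H : PP a b r IP IQ U U') (i : ℤ) :
    a * b ^ i = (r * b) ^ i * a := by
  rw [← H.rel, conj_zpow]; group

theorem PP.comm_zpow'_9217 {a b r : G} {IP IQ U U' : Set S} (H : PP a b r IP IQ U U') (i : ℤ) :
    a⁻¹ * (r * b) ^ i = b ^ i * a⁻¹ := by
  rw [← H.rel, conj_zpow]; group

/-- the canonical element relation -/
def can_9217 (a b r : G) (IP IQ U U' : Set S) (x : S) (g c : G) : Prop :=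
  (g • x ∈ IP ∧ ∃ n : ℤ, c = (r * b) ^ n * a * g ∧ c • x ∈ U') ∨
    (g • x ∈ IQ ∧ ∃ n : ℤ, c = b ^ n * a⁻¹ * g ∧ c • x ∈ U)

theorem PP.can_ex_9217 {a b r : G} {IP IQ U U' : Set S} (H : PP a b r IP IQ U U') (x : S)
    (h1 : ∀ g : G, ¬ (g • x ∈ IP ∧ a • g • x ∈ IQ))
    (h2 : ∀ g : G, ∃ k ∈ Subgroup.closure {b, r}, k • g • x ∈ IP ∨ k • g • x ∈ IQ) (g : G) :
    ∃ k ∈ Subgroup.closure {b, r}, ∃ c, can_9217 a b r IP IQ U U' x (k * g) c := by
  obtain ⟨k, hk, hkg⟩ := h2 g
  refine ⟨k, hk, ?_⟩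
  rcases hkg with hP | hQ
  · have h3 := h1 (k * g)
    have h4 : (k * g) • x ∈ IP := by rw [mul_smul]; exact hP
    have h5 : a • (k * g) • x ∉ IQ := fun hh => h3 ⟨h4, hh⟩
    rw [H.IQdef] at h5
    push Not at h5
    obtain ⟨n, hn⟩ := h5
    refine ⟨(r * b) ^ n * a * (k * g), Or.inl ⟨h4, n, rfl, ?_⟩⟩
    rw [mul_smul, mul_smul]; exact hn
  · have h4 : (k * g) • x ∈ IQ := by rw [mul_smul]; exact hQ
    have h5 : a⁻¹ • (k * g) • x ∉ IP := by
      intro hh
      refine h1 (a⁻¹ * (k * g)) ⟨by rw [mul_smul]; exact hh, ?_⟩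
      rw [← mul_smul, mul_inv_cancel_left]; exact h4
    rw [H.IPdef] at h5
    push Not at h5
    obtain ⟨n, hn⟩ := h5
    refine ⟨b ^ n * a⁻¹ * (k * g), Or.inr ⟨h4, n, rfl, ?_⟩⟩
    rw [mul_smul, mul_smul]; exact hn

theorem PP.can_uniq_9217 {a b r : G} {IP IQ U U' : Set S} (H : PP a b r IP IQ U U') (x : S)
    (g g' k c c' : G) (hk : k ∈ Subgroup.closure {b, r}) (hg : g' = k * g)
    (hc : can_9217 a b r IP IQ U U' x g c) (hc' : can_9217 a b r IP IQ U U' x g' c') :
    c' = c := by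
  rcases hc with ⟨hP, n, hn, hU⟩ | ⟨hQ, n, hn, hU⟩
  · rcases hc' with ⟨hP', n', hn', hU'⟩ | ⟨hQ', n', hn', hU'⟩
    · have hkb : k ∈ Subgroup.zpowers b := by
        by_contra hcon
        refine H.pp1 k hk hcon (g • x) hP ?_
        rw [← mul_smul, ← hg]; exact hP'
      obtain ⟨i, rfl⟩ := Subgroup.mem_zpowers_iff.mp hkb
      have h3 : c' = (r * b) ^ (n' + i - n) * c := by
        rw [hn', hn, hg]
        have h4 := H.comm_zpow_9217 i
        calc (r * b) ^ n' * a * (b ^ i * g) = (r * b) ^ n' * (a * b ^ i) * g := by group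
          _ = (r * b) ^ n' * ((r * b) ^ i * a) * g := by rw [h4]
          _ = (r * b) ^ (n' + i - n) * ((r * b) ^ n * a * g) := by
            rw [zpow_sub, zpow_add]; group
      by_cases h5 : n' + i - n = 0
      · rw [h3, h5, zpow_zero, one_mul]
      · exfalso
        refine H.Ub' _ h5 (c • x) hU ?_
        rw [← mul_smul, ← h3]; exact hU'
    · exfalso
      refine H.pp3 k hk (g • x) hP ?_
      rw [← mul_smul, ← hg]; exact hQ'
  · rcases hc' with ⟨hP', n', hn', hU'⟩ | ⟨hQ', n', hn', hU'⟩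
    · exfalso
      refine H.pp3 k⁻¹ (Subgroup.inv_mem _ hk) (g' • x) hP' ?_
      rw [← mul_smul, hg, inv_mul_cancel_left]; exact hQ
    · have hkb : k ∈ Subgroup.zpowers (r * b) := by
        by_contra hcon
        refine H.pp2 k hk hcon (g • x) hQ ?_
        rw [← mul_smul, ← hg]; exact hQ'
      obtain ⟨i, rfl⟩ := Subgroup.mem_zpowers_iff.mp hkb
      have h3 : c' = b ^ (n' + i - n) * c := by
        rw [hn', hn, hg]
        have h4 := H.comm_zpow'_9217 i
        calc b ^ n' * a⁻¹ * ((r * b) ^ i * g) = b ^ n' * (a⁻¹ * (r * b) ^ i) * g := by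
              simp only [mul_assoc]
          _ = b ^ n' * (b ^ i * a⁻¹) * g := by rw [h4]
          _ = b ^ (n' + i - n) * (b ^ n * a⁻¹ * g) := by
            rw [zpow_sub, zpow_add]; group
      by_cases h5 : n' + i - n = 0
      · rw [h3, h5, zpow_zero, one_mul]
      · exfalso
        refine H.Ub _ h5 (c • x) hU ?_
        rw [← mul_smul, ← h3]; exact hU'

theorem can_mul_9217 {a b r : G} {IP IQ U U' : Set S} (x : S) (g c u : G) (hu : u • x = x)
    (hc : can_9217 a b r IP IQ U U' x g c) : can_9217 a b r IP IQ U U' x (g * u) (c * u) := by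
  have e1 : (g * u) • x = g • x := by rw [mul_smul, hu]
  have e2 : (c * u) • x = c • x := by rw [mul_smul, hu]
  rcases hc with ⟨hP, n, hn, hU⟩ | ⟨hQ, n, hn, hU⟩
  · refine Or.inl ⟨by rw [e1]; exact hP, n, ?_, by rw [e2]; exact hU⟩
    rw [hn]; simp only [mul_assoc]
  · refine Or.inr ⟨by rw [e1]; exact hQ, n, ?_, by rw [e2]; exact hU⟩
    rw [hn]; simp only [mul_assoc]

theorem rel_iff_9217 (K : Subgroup G) (g g' : G) :
    (Quotient.mk (QuotientGroup.rightRel K) g = Quotient.mk (QuotientGroup.rightRel K) g') ↔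
      ∃ k ∈ K, g' = k * g := by
  rw [Quotient.eq]
  rw [QuotientGroup.rightRel_apply]
  constructor
  · intro h
    exact ⟨g' * g⁻¹, h, by group⟩
  · rintro ⟨k, hk, rfl⟩
    simpa using hk

/-- the eventual shift relation as a subgroup -/
def shift_9217 (c : ℤ → G) : Subgroup (G × Multiplicative ℤ) where
  carrier := {p | ∃ N : ℤ, ∀ j : ℤ, N ≤ j → c j * p.1 = c (j + Multiplicative.toAdd p.2)}
  one_mem' := ⟨0, fun j _ => by simp⟩
  mul_mem' := by
    rintro ⟨u, l⟩ ⟨u', l'⟩ ⟨N, hN⟩ ⟨N', hN'⟩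
    refine ⟨max N (N' - Multiplicative.toAdd l), fun j hj => ?_⟩
    have h1 := hN j (le_trans (le_max_left _ _) hj)
    have h2 := hN' (j + Multiplicative.toAdd l) (by
      have := le_trans (le_max_right _ _) hj
      linarith)
    simp only at h1 h2 ⊢
    show c j * (u * u') = c (j + (Multiplicative.toAdd l + Multiplicative.toAdd l'))
    rw [← mul_assoc, h1, h2, add_assoc]
  inv_mem' := by
    rintro ⟨u, l⟩ ⟨N, hN⟩
    refine ⟨N + Multiplicative.toAdd l, fun j hj => ?_⟩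
    have h1 := hN (j - Multiplicative.toAdd l) (by linarith)
    simp only [sub_add_cancel] at h1
    show c j * u⁻¹ = c (j + -(Multiplicative.toAdd l))
    rw [← h1, mul_inv_cancel_right, sub_eq_add_neg]

theorem PP.z4 {a b r : G} {IP IQ U U' : Set S} (H : PP a b r IP IQ U U') (x : S)
    (h1 : ∀ g : G, ¬ (g • x ∈ IP ∧ a • g • x ∈ IQ))
    (h2 : ∀ g : G, ∃ k ∈ Subgroup.closure {b, r}, k • g • x ∈ IP ∨ k • g • x ∈ IQ) (γ h : G)
    (hγx : γ • x = x) (hhx : h • x = x) (hγ1 : γ ≠ 1) (hh1 : h ≠ 1) :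
    ∃ m n : ℤ, m ≠ 0 ∧ n ≠ 0 ∧ γ ^ m = h ^ n := by
  classical
  obtain ⟨τ, hτP, hτQ, -, hτm⟩ := H.exists_tau x
  have hex : ∀ g : G, ∃ c, ∃ k ∈ Subgroup.closure {b, r}, can_9217 a b r IP IQ U U' x (k * g) c := by
    intro g
    obtain ⟨k, hk, c, hc⟩ := H.can_ex_9217 x h1 h2 g
    exact ⟨c, k, hk, hc⟩
  choose F hF using hex
  -- uniqueness
  have hFu : ∀ g g' : G, Quotient.mk (QuotientGroup.rightRel (Subgroup.closure {b, r})) g =
      Quotient.mk (QuotientGroup.rightRel (Subgroup.closure {b, r})) g' →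
      ∀ c', can_9217 a b r IP IQ U U' x g' c' → c' = F g := by
    intro g g' hgg c' hc'
    rw [rel_iff_9217] at hgg
    obtain ⟨k', hk', hg'⟩ := hgg
    obtain ⟨k, hk, hc⟩ := hF g
    refine H.can_uniq_9217 x (k * g) g' (k' * k⁻¹) (F g) c' (Subgroup.mul_mem _ hk' (Subgroup.inv_mem _ hk)) ?_ hc hc'
    rw [hg']; group
  have hFK : ∀ g g' : G, Quotient.mk (QuotientGroup.rightRel (Subgroup.closure {b, r})) g =
      Quotient.mk (QuotientGroup.rightRel (Subgroup.closure {b, r})) g' → F g = F g' := by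
    intro g g' hgg
    obtain ⟨k, hk, hc⟩ := hF g'
    symm
    refine hFu g (k * g') ?_ _ hc
    rw [hgg, rel_iff_9217]
    exact ⟨k, hk, rfl⟩
  have hFmul : ∀ g u : G, u • x = x → F (g * u) = F g * u := by
    intro g u hu
    obtain ⟨k, hk, hc⟩ := hF g
    have h3 := can_mul_9217 x (k * g) (F g) u hu hc
    symm
    refine hFu (g * u) (k * g * u) ?_ _ h3
    rw [rel_iff_9217]
    exact ⟨k, hk, by rw [mul_assoc]⟩
  have hFτ : ∀ g : G, Quotient.mk (QuotientGroup.rightRel (Subgroup.closure {b, r})) (F g) =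
      τ (Quotient.mk (QuotientGroup.rightRel (Subgroup.closure {b, r})) g) := by
    intro g
    obtain ⟨k, hk, hc⟩ := hF g
    have hkg : Quotient.mk (QuotientGroup.rightRel (Subgroup.closure {b, r})) g =
        Quotient.mk (QuotientGroup.rightRel (Subgroup.closure {b, r})) (k * g) := by
      rw [rel_iff_9217]
      exact ⟨k, hk, rfl⟩
    have hbm : b ∈ Subgroup.closure {b, r} := Subgroup.subset_closure (by simp)
    have hrm : r ∈ Subgroup.closure {b, r} := Subgroup.subset_closure (by simp)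
    rw [hkg]
    rcases hc with ⟨hP, n, hn, hU⟩ | ⟨hQ, n, hn, hU⟩
    · rw [hτP (k * g) hP]
      symm
      rw [rel_iff_9217]
      exact ⟨(r * b) ^ n, Subgroup.zpow_mem _ (Subgroup.mul_mem _ hrm hbm) n, by rw [hn, mul_assoc]⟩
    · rw [hτQ (k * g) hQ]
      symm
      rw [rel_iff_9217]
      exact ⟨b ^ n, Subgroup.zpow_mem _ hbm n, by rw [hn, mul_assoc]⟩
  have hFit : ∀ (j : ℕ) (g : G), Quotient.mk (QuotientGroup.rightRel (Subgroup.closure {b, r})) (F^[j] g) =
      τ^[j] (Quotient.mk (QuotientGroup.rightRel (Subgroup.closure {b, r})) g) := by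
    intro j
    induction j with
    | zero => intro g; rfl
    | succ j ih =>
      intro g
      rw [Function.iterate_succ_apply', Function.iterate_succ_apply', hFτ, ih]
  have hFitmul : ∀ (j : ℕ) (g u : G), u • x = x → F^[j] (g * u) = F^[j] g * u := by
    intro j
    induction j with
    | zero => intro g u _; rfl
    | succ j ih =>
      intro g u hu
      rw [Function.iterate_succ_apply', Function.iterate_succ_apply', ih g u hu, hFmul _ _ hu]
  let c : ℤ → G := fun j => F^[j.toNat] 1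
  -- the shift
  have key : ∀ u : G, u • x = x → u ≠ 1 → ∃ l : ℤ, l ≠ 0 ∧ (u, Multiplicative.ofAdd l) ∈ shift_9217 c := by
    intro u hu hu1
    obtain ⟨m, n, hmn⟩ := hτm u
    have h3 : F^[m + 1] u = F^[n + 1] 1 := by
      rw [Function.iterate_succ_apply', Function.iterate_succ_apply']
      apply hFK
      rw [hFit, hFit]; exact hmn
    have h4 : ∀ i : ℕ, F^[i + (m + 1)] 1 * u = F^[i + (n + 1)] 1 := by
      intro i
      have h5 := hFitmul (i + (m + 1)) 1 u hu
      rw [one_mul] at h5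
      rw [← h5, Function.iterate_add_apply, h3, ← Function.iterate_add_apply]
    refine ⟨(n : ℤ) - m, ?_, ?_⟩
    · intro h6
      have h7 : m = n := by omega
      subst h7
      have h8 := h4 0
      apply hu1
      exact mul_eq_left.mp h8
    · refine ⟨(m : ℤ) + 1, fun j hj => ?_⟩
      show F^[j.toNat] 1 * u = F^[(j + ((n : ℤ) - m)).toNat] 1
      have h9 := h4 (j - (m + 1)).toNat
      have e1 : (j - (m + 1)).toNat + (m + 1) = j.toNat := by omega
      have e2 : (j - (m + 1)).toNat + (n + 1) = (j + ((n : ℤ) - m)).toNat := by omega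
      rw [e1, e2] at h9
      exact h9
  obtain ⟨l, hl, hlm⟩ := key γ hγx hγ1
  obtain ⟨l', hl', hlm'⟩ := key h hhx hh1
  refine ⟨l', l, hl', hl, ?_⟩
  obtain ⟨N, hN⟩ := Subgroup.zpow_mem _ hlm l'
  obtain ⟨N', hN'⟩ := Subgroup.zpow_mem _ hlm' l
  have h5 := hN (max N N') (le_max_left _ _)
  have h6 := hN' (max N N') (le_max_right _ _)
  simp only [Prod.pow_mk] at h5 h6
  rw [toAdd_zpow, toAdd_ofAdd] at h5 h6
  simp only [smul_eq_mul] at h5 h6
  rw [mul_comm l l'] at h6
  rw [← h6] at h5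
  exact mul_left_cancel h5



/-! #### z -/


theorem conj_fix_9218 (g γ : G) (x : S) (h : γ • x = x) : (g * γ * g⁻¹) • g • x = g • x := by
  rw [mul_smul, mul_smul, inv_smul_smul, h]

theorem conj_ne_9218 (g γ : G) (h : γ ≠ 1) : g * γ * g⁻¹ ≠ 1 := by
  intro h1
  apply h
  have h2 : g * γ = g := by
    rw [mul_inv_eq_one] at h1
    exact h1
  exact mul_eq_left.1 h2

theorem conj_back_9218 (g γ h : G) (m n : ℤ) (e : (g * γ * g⁻¹) ^ m = (g * h * g⁻¹) ^ n) :
    γ ^ m = h ^ n := by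
  rw [conj_zpow, conj_zpow] at e
  exact mul_left_cancel (mul_right_cancel e)

/-- two non-trivial elements of `G` with a common fixed point have a common power -/
theorem PP.claimZ {a b r : G} {IP IQ U U' : Set S} (H : PP a b r IP IQ U U') (x : S) (γ h : G)
    (hγx : γ • x = x) (hhx : h • x = x) (hγ1 : γ ≠ 1) (hh1 : h ≠ 1) :
    ∃ m n : ℤ, m ≠ 0 ∧ n ≠ 0 ∧ γ ^ m = h ^ n := by
  by_cases hA : ∃ g : G, g • x ∈ IP ∧ a • g • x ∈ IQ
  · obtain ⟨g, hg1, hg2⟩ := hA
    obtain ⟨i, hi⟩ := H.z2 (g • x) hg1 hg2 (g * γ * g⁻¹) (conj_fix_9218 g γ x hγx)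
    obtain ⟨j, hj⟩ := H.z2 (g • x) hg1 hg2 (g * h * g⁻¹) (conj_fix_9218 g h x hhx)
    have hi' : b ^ i = g * γ * g⁻¹ := hi
    have hj' : b ^ j = g * h * g⁻¹ := hj
    have hi0 : i ≠ 0 := by
      rintro rfl
      rw [zpow_zero] at hi'
      exact conj_ne_9218 g γ hγ1 hi'.symm
    have hj0 : j ≠ 0 := by
      rintro rfl
      rw [zpow_zero] at hj'
      exact conj_ne_9218 g h hh1 hj'.symm
    refine ⟨j, i, hj0, hi0, conj_back_9218 g γ h j i ?_⟩
    rw [← hi', ← hj', ← zpow_mul, ← zpow_mul, mul_comm]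
  · push Not at hA
    have h1 : ∀ g : G, ¬ (g • x ∈ IP ∧ a • g • x ∈ IQ) := fun g hg => hA g hg.1 hg.2
    by_cases hB : ∃ g : G, ∀ k ∈ Subgroup.closure {b, r}, k • g • x ∉ IP ∧ k • g • x ∉ IQ
    · obtain ⟨g, hg⟩ := hB
      have m1 := H.z3 (g • x) hg (g * γ * g⁻¹) (conj_fix_9218 g γ x hγx)
      have m2 := H.z3 (g • x) hg (g * h * g⁻¹) (conj_fix_9218 g h x hhx)
      obtain ⟨m, n, hm, hn, e⟩ := H.z1 (g • x) (fun k hk => (hg k hk).1) (g * γ * g⁻¹)
        (g * h * g⁻¹) m1 m2 (conj_fix_9218 g γ x hγx) (conj_fix_9218 g h x hhx)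
        (conj_ne_9218 g γ hγ1) (conj_ne_9218 g h hh1)
      exact ⟨m, n, hm, hn, conj_back_9218 g γ h m n e⟩
    · refine H.z4 x h1 ?_ γ h hγx hhx hγ1 hh1
      intro g
      by_contra hcon
      apply hB
      refine ⟨g, fun k hk => ⟨fun hP => hcon ⟨k, hk, Or.inl hP⟩, fun hQ => hcon ⟨k, hk, Or.inr hQ⟩⟩⟩



/-! #### c1 -/


theorem PP.E_zpow_9321 (E : G → S → ℤ)
    (ce : ∀ g h x, E (g * h) x = E g (h • x) + E h x) (x : S) (h : G) (hh : h • x = x) (m : ℤ) :
    E (h ^ m) x = m * E h x := by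
  have h1 : ∀ x, E 1 x = 0 := by
    intro x
    have := ce 1 1 x
    rw [one_mul, one_smul] at this
    linarith
  let φ : MulAction.stabilizer G x →* Multiplicative ℤ :=
    { toFun := fun g => Multiplicative.ofAdd (E (g : G) x)
      map_one' := by
        show Multiplicative.ofAdd (E 1 x) = 1
        rw [h1]; rfl
      map_mul' := by
        intro g g'
        show Multiplicative.ofAdd (E ((g : G) * (g' : G)) x) = _
        rw [ce, (MulAction.mem_stabilizer_iff).mp g'.2]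
        rfl }
  have hm := map_zpow φ ⟨h, hh⟩ m
  have h2 := congrArg Multiplicative.toAdd hm
  have h3 : Multiplicative.toAdd (φ (⟨h, hh⟩ ^ m)) = E (h ^ m) x := rfl
  rw [h3, toAdd_zpow] at h2
  rw [h2]
  show m • E h x = _
  rw [smul_eq_mul]

/-- a cocycle with finite support vanishes on point stabilisers -/
theorem PP.coc_zero {a b r : G} {IP IQ U U' : Set S} (H : PP a b r IP IQ U U')
    (X : Set S) (inv : ∀ (g : G) (x : S), g • x ∈ X ↔ x ∈ X) (E : G → S → ℤ)
    (ce : ∀ g h x, E (g * h) x = E g (h • x) + E h x)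
    (fe : ∀ g : G, {x | x ∈ X ∧ E g x ≠ 0}.Finite) (x : S) (hx : x ∈ X) (γ : G)
    (hγ : γ • x = x) : E γ x = 0 := by
  classical
  by_contra hk
  have h1 : ∀ x, E 1 x = 0 := by
    intro x
    have := ce 1 1 x
    rw [one_mul, one_smul] at this
    linarith
  have hinv : ∀ g x, E g⁻¹ (g • x) = - E g x := by
    intro g x
    have := ce g⁻¹ g x
    rw [inv_mul_cancel, h1] at this
    linarith
  have hpow := fun h hh m => PP.E_zpow_9321 E ce x h hh m
  have hγ1 : γ ≠ 1 := by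
    rintro rfl
    exact hk (h1 x)
  have htriv : ∀ h : G, h • x = x → E h x = 0 → h = 1 := by
    intro h hh hE
    by_contra hne
    obtain ⟨m, n, hm, hn, he⟩ := H.claimZ x γ h hγ hh hγ1 hne
    have e1 := hpow γ hγ m
    have e2 := hpow h hh n
    rw [he, e2, hE, mul_zero] at e1
    rcases mul_eq_zero.mp e1.symm with h | h
    · exact hm h
    · exact hk h
  have hfin : ∀ (y : S) (M : ℤ), {g : G | g • x = y ∧ |E g x| ≤ M}.Finite := by
    intro y M
    apply Set.Finite.of_finite_image (f := fun g => E g x)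
    · apply (Set.finite_Icc (-M) M).subset
      rintro _ ⟨g, ⟨-, hg⟩, rfl⟩
      exact abs_le.mp hg
    · rintro g ⟨hg, -⟩ g' ⟨hg', -⟩ he
      have he' : E g x = E g' x := he
      have h2 : (g⁻¹ * g') • x = x := by
        rw [mul_smul, hg', ← hg, inv_smul_smul]
      have h3 : E (g⁻¹ * g') x = 0 := by
        rw [ce, hg', ← hg, hinv, he']
        ring
      have h4 := htriv _ h2 h3
      exact (inv_mul_eq_one.mp h4)
  let χ : G → ℤ := fun g => if 0 ≤ E g x then 1 else 0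
  have hs : ∀ s : G, {g | χ (s * g) ≠ χ g}.Finite := by
    intro s
    apply Set.Finite.subset (Set.Finite.biUnion (fe s) (fun y _ => hfin y (|E s y|)))
    intro g hg
    have hg' : χ (s * g) ≠ χ g := hg
    have e := ce s g x
    simp only [Set.mem_iUnion]
    refine ⟨g • x, ⟨(inv g x).mpr hx, ?_⟩, rfl, ?_⟩
    · intro h0
      apply hg'
      simp only [χ]
      rw [e, h0, zero_add]
    · simp only [χ] at hg'
      rw [e] at hg'
      generalize E s (g • x) = u at hg' ⊢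
      generalize E g x = v at hg' ⊢
      by_cases hv : 0 ≤ v
      · by_cases hu : 0 ≤ u + v
        · exact absurd (by rw [if_pos hu, if_pos hv]) hg'
        · rw [abs_of_nonneg hv, abs_of_nonpos (by omega)]
          omega
      · by_cases hu : 0 ≤ u + v
        · rw [abs_of_nonneg (show 0 ≤ u by omega), abs_of_nonpos (by omega)]
          omega
        · exact absurd (by rw [if_neg hu, if_neg hv]) hg'
  obtain ⟨c, hc⟩ := H.oe χ (hs a) (hs b)
  have hk2 : 0 < E γ x * E γ x := mul_self_pos.mpr hk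
  by_cases hc1 : c = 1
  · refine Set.infinite_of_injective_forall_mem
      (f := fun n : ℕ => γ ^ (-((n : ℤ) + 1) * E γ x)) ?_ ?_ hc
    · intro n n' he
      have e1 := hpow γ hγ (-((n : ℤ) + 1) * E γ x)
      have e2 := hpow γ hγ (-((n' : ℤ) + 1) * E γ x)
      have he' : γ ^ (-((n : ℤ) + 1) * E γ x) = γ ^ (-((n' : ℤ) + 1) * E γ x) := he
      rw [he', e2] at e1
      have h3 := mul_right_cancel₀ hk e1
      have h4 := mul_right_cancel₀ hk h3
      omega
    · intro n
      have e1 := hpow γ hγ (-((n : ℤ) + 1) * E γ x)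
      show χ _ ≠ c
      rw [hc1]
      have h3 : ¬ (0 ≤ E (γ ^ (-((n : ℤ) + 1) * E γ x)) x) := by
        rw [e1]
        have : (-((n : ℤ) + 1) * E γ x) * E γ x = -(((n : ℤ) + 1) * (E γ x * E γ x)) := by ring
        rw [this]
        have h5 : 0 < ((n : ℤ) + 1) * (E γ x * E γ x) := mul_pos (by omega) hk2
        omega
      simp only [χ]
      rw [if_neg h3]
      norm_num
  · refine Set.infinite_of_injective_forall_mem
      (f := fun n : ℕ => γ ^ ((n : ℤ) * E γ x)) ?_ ?_ hc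
    · intro n n' he
      have e1 := hpow γ hγ ((n : ℤ) * E γ x)
      have e2 := hpow γ hγ ((n' : ℤ) * E γ x)
      have he' : γ ^ ((n : ℤ) * E γ x) = γ ^ ((n' : ℤ) * E γ x) := he
      rw [he', e2] at e1
      have h3 := mul_right_cancel₀ hk e1
      have h4 := mul_right_cancel₀ hk h3
      omega
    · intro n
      have e1 := hpow γ hγ ((n : ℤ) * E γ x)
      show χ _ ≠ c
      have h3 : 0 ≤ E (γ ^ ((n : ℤ) * E γ x)) x := by
        rw [e1]
        have : ((n : ℤ) * E γ x) * E γ x = (n : ℤ) * (E γ x * E γ x) := by ring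
        rw [this]
        exact mul_nonneg (by omega) hk2.le
      simp only [χ]
      rw [if_pos h3]
      exact fun h => hc1 h.symm



/-! #### c2 -/


theorem fin_E9324 (X : Set S) (inv : ∀ (g : G) (x : S), g • x ∈ X ↔ x ∈ X) (E : G → S → ℤ)
    (ce : ∀ g h x, E (g * h) x = E g (h • x) + E h x)
    (fe : ∀ g : G, {x | x ∈ X ∧ E g x ≠ 0}.Finite)
    (free : ∀ (g : G), ∀ x ∈ X, g • x = x → g = 1) (x : S) (hx : x ∈ X) (s : G) :
    {g : G | E (s * g) x ≠ E g x}.Finite := by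
  have hinj : Function.Injective (fun g : G => g • x) := by
    intro g h hgh
    have h1 : (h⁻¹ * g) • x = x := by
      rw [mul_smul]
      have : g • x = h • x := hgh
      rw [this, inv_smul_smul]
    have h2 := free _ x hx h1
    rw [inv_mul_eq_one] at h2
    exact h2.symm
  refine ((fe s).preimage (hinj.injOn)).subset ?_
  intro g hg
  refine ⟨(inv g x).mpr hx, ?_⟩
  intro h0
  apply hg
  rw [ce, h0, zero_add]

theorem PP.orbit_sum9324 {a b r : G} {IP IQ U U' : Set S} (H : PP a b r IP IQ U U')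
    (X : Set S) (inv : ∀ (g : G) (x : S), g • x ∈ X ↔ x ∈ X) (E : G → S → ℤ)
    (ce : ∀ g h x, E (g * h) x = E g (h • x) + E h x)
    (fe : ∀ g : G, {x | x ∈ X ∧ E g x ≠ 0}.Finite)
    (free : ∀ (g : G), ∀ x ∈ X, g • x = x → g = 1) (x : S) (hx : x ∈ X) :
    ∃ N : ℕ, (∀ n : ℤ, E b ((b ^ n) • x) ≠ 0 → -(N : ℤ) ≤ n ∧ n < N) ∧
      ∑ n ∈ Finset.Ico (-(N : ℤ)) N, E b ((b ^ n) • x) = 0 := by
  obtain ⟨c, hc⟩ := H.oe (fun g => E g x) (fin_E9324 X inv E ce fe free x hx a)
    (fin_E9324 X inv E ce fe free x hx b)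
  have hfin : {n : ℤ | E (b ^ n) x ≠ c}.Finite := hc.preimage (H.b_inj.injOn)
  obtain ⟨M, hM⟩ := (hfin.image Int.natAbs).bddAbove
  have hbig : ∀ n : ℤ, (M : ℤ) < |n| → E (b ^ n) x = c := by
    intro n hn
    by_contra hne
    have h1 := hM (Set.mem_image_of_mem Int.natAbs (show n ∈ {n : ℤ | E (b ^ n) x ≠ c} from hne))
    have h2 : ((n.natAbs : ℕ) : ℤ) = |n| := Int.natCast_natAbs n
    have h3 : (n.natAbs : ℤ) ≤ M := by exact_mod_cast h1
    omega
  have hstep : ∀ n : ℤ, E b ((b ^ n) • x) = E (b ^ (n + 1)) x - E (b ^ n) x := by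
    intro n
    have h1 : b ^ (n + 1) = b * b ^ n := by
      rw [add_comm, zpow_add, zpow_one]
    rw [h1, ce]
    ring
  refine ⟨M + 1, ?_, ?_⟩
  · intro n hn
    rw [hstep] at hn
    by_contra hcon
    apply hn
    have h1 : (M : ℤ) < |n + 1| := by
      rcases le_or_gt 0 n with h | h
      · have : |n + 1| = n + 1 := abs_of_nonneg (by omega)
        push_cast at hcon
        omega
      · have : |n + 1| = -(n + 1) := abs_of_nonpos (by omega)
        push_cast at hcon
        omega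
    have h2 : (M : ℤ) < |n| := by
      rcases le_or_gt 0 n with h | h
      · have : |n| = n := abs_of_nonneg (by omega)
        push_cast at hcon
        omega
      · have : |n| = -n := abs_of_nonpos (by omega)
        push_cast at hcon
        omega
    rw [hbig _ h1, hbig _ h2, sub_self]
  · have hsum : ∀ (K : ℕ) (m : ℤ), ∑ n ∈ Finset.Ico m (m + K), E b ((b ^ n) • x) =
        E (b ^ (m + K)) x - E (b ^ m) x := by
      intro K m
      induction K with
      | zero => simp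
      | succ K ih =>
        have h1 : Finset.Ico m (m + ((K + 1 : ℕ) : ℤ)) =
            insert (m + (K : ℤ)) (Finset.Ico m (m + K)) := by
          ext t
          simp only [Finset.mem_Ico, Finset.mem_insert]
          push_cast
          omega
        rw [h1, Finset.sum_insert (by simp), ih, hstep]
        have h2 : m + (K : ℤ) + 1 = m + ((K + 1 : ℕ) : ℤ) := by push_cast; ring
        rw [h2]
        ring
    have h3 := hsum (2 * (M + 1)) (-((M + 1 : ℕ) : ℤ))
    have h4 : -((M + 1 : ℕ) : ℤ) + ((2 * (M + 1) : ℕ) : ℤ) = ((M + 1 : ℕ) : ℤ) := by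
      push_cast
      ring
    rw [h4] at h3
    rw [h3]
    have h5 : (M : ℤ) < |((M + 1 : ℕ) : ℤ)| := by
      rw [abs_of_nonneg (by positivity)]
      push_cast
      omega
    rw [hbig _ h5, hbig _ (by rw [abs_neg]; exact h5), sub_self]

theorem PP.coc_aux9324 {a b r : G} {IP IQ U U' : Set S} (H : PP a b r IP IQ U U')
    (X : Set S) (inv : ∀ (g : G) (x : S), g • x ∈ X ↔ x ∈ X) (E : G → S → ℤ)
    (ce : ∀ g h x, E (g * h) x = E g (h • x) + E h x)
    (fe : ∀ g : G, {x | x ∈ X ∧ E g x ≠ 0}.Finite)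
    (free : ∀ (g : G), ∀ x ∈ X, g • x = x → g = 1) (k : ℕ) :
    ∀ T : Finset S, T.card ≤ k → (∀ x ∈ T, x ∈ X ∧ E b x ≠ 0) →
      (∀ x ∈ T, ∀ m : ℤ, E b ((b ^ m) • x) ≠ 0 → (b ^ m) • x ∈ T) →
      ∑ x ∈ T, E b x = 0 := by
  classical
  induction k with
  | zero =>
    intro T hT _ _
    have : T = ∅ := Finset.card_eq_zero.mp (by omega)
    simp [this]
  | succ k ih =>
    intro T hT hTX hsat
    rcases T.eq_empty_or_nonempty with h | ⟨x, hx⟩
    · simp [h]
    obtain ⟨N, hN, hsum⟩ := H.orbit_sum9324 X inv E ce fe free x (hTX x hx).1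
    have hinj : ∀ n m : ℤ, (b ^ n) • x = (b ^ m) • x → n = m := by
      intro n m hnm
      have h1 : ((b ^ m)⁻¹ * b ^ n) • x = x := by
        rw [mul_smul, hnm, inv_smul_smul]
      have h2 := free _ x (hTX x hx).1 h1
      rw [inv_mul_eq_one] at h2
      exact H.b_inj h2.symm
    rw [← Finset.sum_filter_add_sum_filter_not T (fun y => ∃ n : ℤ, y = (b ^ n) • x)]
    have hA : ∑ y ∈ T with ∃ n : ℤ, y = (b ^ n) • x, E b y = 0 := by
      have h1 : ∑ y ∈ (Finset.Ico (-(N : ℤ)) N).image (fun n : ℤ => (b ^ n) • x), E b y = 0 := by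
        rw [Finset.sum_image (fun n _ m _ h => hinj n m h)]
        exact hsum
      rw [← h1]
      apply Finset.sum_subset
      · intro y hy
        rw [Finset.mem_filter] at hy
        obtain ⟨hyT, n, hn⟩ := hy
        rw [Finset.mem_image]
        refine ⟨n, ?_, hn.symm⟩
        rw [Finset.mem_Ico]
        apply hN
        rw [← hn]
        exact (hTX y hyT).2
      · intro y hy hyn
        rw [Finset.mem_image] at hy
        obtain ⟨n, -, hn⟩ := hy
        by_contra hne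
        apply hyn
        rw [Finset.mem_filter]
        refine ⟨?_, n, hn.symm⟩
        rw [← hn]
        apply hsat x hx n
        rw [hn]
        exact hne
    rw [hA, zero_add]
    apply ih
    · have h1 : (T.filter (fun y => ¬ ∃ n : ℤ, y = (b ^ n) • x)) ⊂ T := by
        rw [Finset.ssubset_iff_of_subset (Finset.filter_subset _ _)]
        refine ⟨x, hx, ?_⟩
        rw [Finset.mem_filter]
        rintro ⟨-, h2⟩
        apply h2
        exact ⟨0, by simp⟩
      have := Finset.card_lt_card h1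
      omega
    · intro y hy
      exact hTX y (Finset.mem_filter.mp hy).1
    · intro y hy m hm
      rw [Finset.mem_filter] at hy ⊢
      refine ⟨hsat y hy.1 m hm, ?_⟩
      rintro ⟨n, hn⟩
      apply hy.2
      refine ⟨n - m, ?_⟩
      have h1 : y = (b ^ m)⁻¹ • ((b ^ m) • y) := by rw [inv_smul_smul]
      rw [h1, hn, ← mul_smul, ← zpow_neg, ← zpow_add]
      congr 2
      ring

/-- if the action on `X` is free, sums of a cocycle with finite support over `b`-orbits vanish -/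
theorem PP.coc_sum {a b r : G} {IP IQ U U' : Set S} (H : PP a b r IP IQ U U')
    (X : Set S) (inv : ∀ (g : G) (x : S), g • x ∈ X ↔ x ∈ X) (E : G → S → ℤ)
    (ce : ∀ g h x, E (g * h) x = E g (h • x) + E h x)
    (fe : ∀ g : G, {x | x ∈ X ∧ E g x ≠ 0}.Finite)
    (free : ∀ (g : G), ∀ x ∈ X, g • x = x → g = 1) (F : Finset S)
    (hF : ∀ x ∈ F, x ∈ X ∧ x ∉ IP) (hF' : ∀ x ∈ X, x ∉ IP → E b x ≠ 0 → x ∈ F) :
    ∑ x ∈ F, E b x = 0 := by
  classical
  rw [← Finset.sum_filter_ne_zero]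
  apply H.coc_aux9324 X inv E ce fe free _ _ le_rfl
  · intro x hx
    rw [Finset.mem_filter] at hx
    exact ⟨(hF x hx.1).1, hx.2⟩
  · intro x hx m hm
    rw [Finset.mem_filter] at hx ⊢
    refine ⟨hF' _ ((inv _ x).mpr (hF x hx.1).1) ?_ hm, hm⟩
    rw [H.IP_b]
    exact (hF x hx.1).2


/-! #### c3 -/


/-- one-sided slope cocycles on a set `X` of marked points -/
structure Coc (a b r : G) (IP : Set S) (X : Set S) (Dp Dm : G → S → ℤ) (v : S → ℤ) : Prop where
  cp : ∀ g h x, Dp (g * h) x = Dp g (h • x) + Dp h x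
  cm : ∀ g h x, Dm (g * h) x = Dm g (h • x) + Dm h x
  inv : ∀ (g : G) (x : S), g • x ∈ X ↔ x ∈ X
  fp : ∀ g : G, {x | x ∈ X ∧ Dp g x ≠ v (g • x) - v x}.Finite
  fm : ∀ g : G, {x | x ∈ X ∧ Dm g x ≠ v (g • x) - v x}.Finite
  rig : ∀ g : G, (∃ x ∈ X, g • x = x) → (∀ x ∈ X, g • x = x → Dp g x = 0 ∧ Dm g x = 0) → g = 1
  ne : ∀ F : Finset S, (∀ x ∈ F, x ∈ X ∧ x ∉ IP) →
    (∀ x ∈ X, x ∉ IP → Dp b x ≠ Dm b x → x ∈ F) → ∑ x ∈ F, (Dp b x - Dm b x) ≠ 0

theorem PP.van9332 {a b r : G} {IP IQ U U' : Set S} (H : PP a b r IP IQ U U') {X : Set S}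
    {D : G → S → ℤ} {v : S → ℤ} (c : ∀ g h x, D (g * h) x = D g (h • x) + D h x)
    (inv : ∀ (g : G) (x : S), g • x ∈ X ↔ x ∈ X)
    (f : ∀ g : G, {x | x ∈ X ∧ D g x ≠ v (g • x) - v x}.Finite) (x : S) (hx : x ∈ X) (g : G)
    (hg : g • x = x) : D g x = 0 := by
  have h := H.coc_zero X inv (fun g x => D g x - (v (g • x) - v x)) (by
    intro g h x
    simp only [c g h x, mul_smul]
    ring) (by
    intro g
    refine (f g).subset ?_
    rintro y ⟨hy, hy2⟩
    refine ⟨hy, fun hc => hy2 ?_⟩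
    simp only [hc]
    ring) x hx g hg
  simp only [hg] at h
  linarith

theorem PP.fin9332 {X : Set S} {Dp Dm : G → S → ℤ} {v : S → ℤ}
    (fp : ∀ g : G, {x | x ∈ X ∧ Dp g x ≠ v (g • x) - v x}.Finite)
    (fm : ∀ g : G, {x | x ∈ X ∧ Dm g x ≠ v (g • x) - v x}.Finite) (g : G) :
    {x | x ∈ X ∧ Dp g x - Dm g x ≠ 0}.Finite := by
  refine ((fp g).union (fm g)).subset ?_
  rintro y ⟨hy, hy2⟩
  by_cases h1 : Dp g y = v (g • y) - v y
  · right
    refine ⟨hy, fun hc => hy2 ?_⟩
    rw [h1, hc, sub_self]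
  · left
    exact ⟨hy, h1⟩

/-- the abstract contradiction -/
theorem PP.core {a b r : G} {IP IQ U U' : Set S} (H : PP a b r IP IQ U U') {X : Set S}
    {Dp Dm : G → S → ℤ} {v : S → ℤ} (K : Coc a b r IP X Dp Dm v) : False := by
  have free : ∀ (g : G), ∀ x ∈ X, g • x = x → g = 1 := by
    intro g x hx hg
    exact K.rig g ⟨x, hx, hg⟩ fun y hy hgy =>
      ⟨H.van9332 K.cp K.inv K.fp y hy g hgy, H.van9332 K.cm K.inv K.fm y hy g hgy⟩
  have hfin : {x | x ∈ X ∧ x ∉ IP ∧ Dp b x ≠ Dm b x}.Finite := by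
    refine (PP.fin9332 K.fp K.fm b).subset ?_
    rintro y ⟨hy, -, hy2⟩
    exact ⟨hy, sub_ne_zero.2 hy2⟩
  have hmem : ∀ x, x ∈ hfin.toFinset ↔ (x ∈ X ∧ x ∉ IP ∧ Dp b x ≠ Dm b x) := by
    intro x
    rw [Set.Finite.mem_toFinset]
    rfl
  have hsum := H.coc_sum X K.inv (fun g x => Dp g x - Dm g x) (by
    intro g h x
    simp only [K.cp g h x, K.cm g h x]
    ring) (PP.fin9332 K.fp K.fm) free hfin.toFinset
    (fun x hx => ⟨((hmem x).1 hx).1, ((hmem x).1 hx).2.1⟩)
    (fun x hx hxP hne => (hmem x).2 ⟨hx, hxP, sub_ne_zero.1 hne⟩)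
  exact K.ne hfin.toFinset (fun x hx => ⟨((hmem x).1 hx).1, ((hmem x).1 hx).2.1⟩)
    (fun x hx hxP hne => (hmem x).2 ⟨hx, hxP, hne⟩) hsum


end Pool.Agent.Helper283.TL
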