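import Mathlib
import Pool.Agent.Helper283.ThV.PLBase
import Pool.Agent.Helper283.ThV.TLCore

set_option autoImplicit false
set_option linter.unusedVariables false
set_option linter.deprecated false

namespace Pool.Agent.Helper283.TL

open Filter Pool.Agent.Helper283.PL

/-- increasing bijections of the line commuting with `x ↦ x + 1` -/
def HT : Subgroup (Equiv.Perm ℝ) where
  carrier := {e | StrictMono e ∧ ∀ x, e (x + 1) = e x + 1}
  mul_mem' := fun {a b} ha hb => ⟨fun _ _ h => ha.1 (hb.1 h), fun x => by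
    rw [Equiv.Perm.mul_apply, hb.2, ha.2]; rfl⟩
  one_mem' := ⟨fun _ _ h => h, fun _ => rfl⟩
  inv_mem' := fun {a} ha => by
    have hr : ∀ x, a (a⁻¹ x) = x := fun x => a.apply_symm_apply x
    have hl : ∀ x, a⁻¹ (a x) = x := fun x => a.symm_apply_apply x
    refine ⟨fun x y h => ?_, fun x => ?_⟩
    · by_contra hc
      have := ha.1.monotone (not_lt.1 hc)
      rw [hr, hr] at this
      exact absurd h (not_lt.2 this)
    · have h := ha.2 (a⁻¹ x)
      rw [hr] at h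
      rw [← h, hl]

theorem mem_HT {e : Equiv.Perm ℝ} : e ∈ HT ↔ StrictMono e ∧ ∀ x, e (x + 1) = e x + 1 := Iff.rfl


/-! #### excm -/


theorem ht_add_int_9455 (e : HT) (x : ℝ) (n : ℤ) :
    (e : Equiv.Perm ℝ) (x + n) = (e : Equiv.Perm ℝ) x + n := by
  have h := e.2.2
  induction n using Int.induction_on with
  | zero => simp
  | succ n ih =>
    push_cast at ih ⊢
    rw [← add_assoc, h, ih, add_assoc]
  | pred n ih =>
    have h1 := h (x + ((-(n:ℤ) - 1 : ℤ) : ℝ))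
    push_cast at ih h1 ⊢
    have e1 : x + (-(n:ℝ) - 1) + 1 = x + -(n:ℝ) := by ring
    rw [e1, ih] at h1
    linarith

noncomputable def cmf_9455 (e : HT) (q : AddCircle (1 : ℝ)) : AddCircle (1 : ℝ) :=
  (((e : Equiv.Perm ℝ) (Quotient.out q : ℝ) : ℝ) : AddCircle (1 : ℝ))

theorem cmf_coe_9455 (e : HT) (x : ℝ) :
    cmf_9455 e (x : AddCircle (1 : ℝ)) = (((e : Equiv.Perm ℝ) x : ℝ) : AddCircle (1 : ℝ)) := by
  have h1 : ((Quotient.out (x : AddCircle (1 : ℝ)) : ℝ) : AddCircle (1 : ℝ)) = (x : AddCircle (1 : ℝ)) :=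
    Quotient.out_eq _
  rw [QuotientAddGroup.eq, AddSubgroup.mem_zmultiples_iff] at h1
  obtain ⟨k, hk⟩ := h1
  unfold cmf_9455
  rw [QuotientAddGroup.eq, AddSubgroup.mem_zmultiples_iff]
  refine ⟨k, ?_⟩
  have h2 : x = Quotient.out (x : AddCircle (1 : ℝ)) + (k : ℝ) := by
    have : (k : ℝ) = k • (1:ℝ) := by simp
    rw [this, hk]; ring
  have h3 := ht_add_int_9455 e (Quotient.out (x : AddCircle (1 : ℝ))) k
  rw [← h2] at h3
  rw [h3]
  simp

theorem exists_cm : ∃ cm : HT →* Equiv.Perm (AddCircle (1 : ℝ)), ∀ (e : HT) (x : ℝ),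
    cm e (x : AddCircle (1 : ℝ)) = (((e : Equiv.Perm ℝ) x : ℝ) : AddCircle (1 : ℝ)) := by
  have key : ∀ (e f : HT) (q : AddCircle (1 : ℝ)),
      cmf_9455 (e * f) q = cmf_9455 e (cmf_9455 f q) := by
    intro e f q
    induction q using QuotientAddGroup.induction_on with
    | H x =>
      rw [cmf_coe_9455, cmf_coe_9455, cmf_coe_9455]
      rfl
  have key1 : ∀ (q : AddCircle (1 : ℝ)), cmf_9455 1 q = q := by
    intro q
    induction q using QuotientAddGroup.induction_on with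
    | H x =>
      rw [cmf_coe_9455]
      rfl
  refine ⟨{ toFun := fun e =>
              { toFun := cmf_9455 e
                invFun := cmf_9455 e⁻¹
                left_inv := fun q => by rw [← key, inv_mul_cancel, key1]
                right_inv := fun q => by rw [← key, mul_inv_cancel, key1] }
            map_one' := by
              ext q
              exact key1 q
            map_mul' := fun e f => by
              ext q
              exact key e f q }, ?_⟩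
  intro e x
  exact cmf_coe_9455 e x


/-- the action of lifts on the circle -/
noncomputable def cm : HT →* Equiv.Perm (AddCircle (1 : ℝ)) := exists_cm.choose

theorem cm_apply (e : HT) (x : ℝ) :
    cm e (x : AddCircle (1 : ℝ)) = (((e : Equiv.Perm ℝ) x : ℝ) : AddCircle (1 : ℝ)) :=
  exists_cm.choose_spec e x


/-! #### norm -/


theorem HT_add_nat_9459 {A : Equiv.Perm ℝ} (hA : A ∈ HT) (n : ℕ) (x : ℝ) :
    A (x + n) = A x + n := by
  induction n with
  | zero => simp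
  | succ n ih =>
    push_cast
    rw [← add_assoc, hA.2, ih, add_assoc]

theorem HT_add_int_9459 {A : Equiv.Perm ℝ} (hA : A ∈ HT) (n : ℤ) (x : ℝ) :
    A (x + n) = A x + n := by
  obtain ⟨m, hm | hm⟩ := n.eq_nat_or_neg
  · rw [hm]
    exact_mod_cast HT_add_nat_9459 hA m x
  · have h := HT_add_nat_9459 hA m (x + n)
    have e : x + (n : ℝ) + (m : ℝ) = x := by
      rw [hm]; push_cast; ring
    rw [e] at h
    rw [h, hm]
    push_cast
    ring

theorem HT_cont_9459 {A : Equiv.Perm ℝ} (hA : A ∈ HT) : Continuous (fun x => A x) :=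
  hA.1.monotone.continuous_of_surjective A.surjective

theorem shift_bound {A B : Equiv.Perm ℝ} (hA : A ∈ HT) (hB : B ∈ HT) (h : ℤ)
    (hAB : ∀ x, A (B x) = B (A x) + h + 1 / 2) : h = 0 ∨ h = -1 := by
  have hex : ∃ N : ℤ, (∀ x : ℝ, x + N ≤ B x) ∧ ∀ M : ℤ, (∀ x : ℝ, x + M ≤ B x) → M ≤ N := by
    apply Int.exists_greatest_of_bdd
    · refine ⟨⌊B 0⌋, fun z hz => ?_⟩
      have := hz 0
      rw [zero_add] at this
      exact Int.le_floor.mpr this
    · refine ⟨⌊B 0⌋ - 1, fun x => ?_⟩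
      have h1 : B ((⌊x⌋ : ℤ) : ℝ) ≤ B x := hB.1.monotone (Int.floor_le x)
      have h2 := HT_add_int_9459 hB ⌊x⌋ 0
      rw [zero_add] at h2
      have h3 := Int.floor_le (B 0)
      have h4 := Int.lt_floor_add_one x
      push_cast
      linarith
  obtain ⟨N, hN, hmax⟩ := hex
  have hto : ∀ M : ℤ, (∀ x : ℝ, x + M ≤ B x) → ∀ y : ℝ, y + M ≤ B y + h + 1 / 2 := by
    intro M hM y
    have h1 := hM (A⁻¹ y)
    have h2 := hA.1.monotone h1
    have hr : A (A⁻¹ y) = y := A.apply_symm_apply y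
    rw [HT_add_int_9459 hA, hAB, hr] at h2
    exact h2
  have hfrom : ∀ M : ℤ, (∀ y : ℝ, y + M ≤ B y + h + 1 / 2) → ∀ x : ℝ, x + M ≤ B x := by
    intro M hM x
    have h1 := hM (A x)
    rw [← hAB, ← HT_add_int_9459 hA] at h1
    exact hA.1.le_iff_le.mp h1
  by_contra hc
  push Not at hc
  rcases lt_or_ge h 0 with h0 | h0
  · have h2 : h ≤ -2 := by
      have := hc.2
      omega
    have h2' : (h : ℝ) ≤ -2 := by exact_mod_cast h2
    have h3 : ∀ x : ℝ, x + ((N + 1 : ℤ) : ℝ) ≤ B x := by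
      intro x
      have := hto N hN x
      push_cast
      linarith
    have := hmax _ h3
    omega
  · have h2 : 1 ≤ h := by
      have := hc.1
      omega
    have h2' : (1 : ℝ) ≤ h := by exact_mod_cast h2
    have h3 : ∀ y : ℝ, y + ((N + 1 : ℤ) : ℝ) ≤ B y + h + 1 / 2 := by
      intro y
      have := hN y
      push_cast
      linarith
    have := hmax _ (hfrom _ h3)
    omega

theorem exists_fix {A B : Equiv.Perm ℝ} (hA : A ∈ HT) (hB : B ∈ HT)
    (hAB : ∀ x, A (B x) = B (A x) + 1 / 2) : ∃ (n : ℤ) (p : ℝ), B p = p + n := by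
  by_contra hc
  push Not at hc
  have hg : Continuous (fun x => B x - x) := (HT_cont_9459 hB).sub continuous_id
  set n : ℤ := ⌊B 0⌋ with hn
  have h0 : (n : ℝ) ≤ B 0 := Int.floor_le _
  have h1 : B 0 < n + 1 := Int.lt_floor_add_one _
  have hlow : ∀ x : ℝ, (n : ℝ) < B x - x := by
    intro x
    by_contra hx
    push Not at hx
    obtain ⟨p, hp⟩ := mem_range_of_exists_le_of_exists_ge (c := (n : ℝ)) hg ⟨x, hx⟩
      ⟨0, by simpa using h0⟩
    exact hc n p (by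
      have hp' : B p - p = n := hp
      linarith)
  have hup : ∀ x : ℝ, B x - x < (n : ℝ) + 1 := by
    intro x
    by_contra hx
    push Not at hx
    obtain ⟨p, hp⟩ := mem_range_of_exists_le_of_exists_ge (c := (n : ℝ) + 1) hg
      ⟨0, by simpa using h1.le⟩ ⟨x, hx⟩
    exact hc (n + 1) p (by
      have hp' : B p - p = (n : ℝ) + 1 := hp
      push_cast
      linarith)
  have hAC : ∀ x, A (B x - n) = (B (A x) - n) + 1 / 2 := by
    intro x
    have h2 := HT_add_int_9459 hA (-n) (B x)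
    push_cast at h2
    rw [← sub_eq_add_neg, ← sub_eq_add_neg, hAB] at h2
    rw [h2]
    ring
  -- the upper bound one half
  have hhalf : ∀ y : ℝ, B y - n < y + 1 / 2 := by
    intro y
    have h2 := hAC (A⁻¹ y)
    have hr : A (A⁻¹ y) = y := A.apply_symm_apply y
    rw [hr] at h2
    have h3 : B (A⁻¹ y) - n < A⁻¹ y + 1 := by linarith [hup (A⁻¹ y)]
    have h4 := hA.1 h3
    rw [hA.2, hr, h2] at h4
    linarith
  have e1 : A (B (B 0 - n) - n) = (B ((B (A 0) - n) + 1 / 2) - n) + 1 / 2 := by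
    rw [hAC, hAC]
  have e2 : B (B 0 - n) - n < 0 + 1 := by
    have h2 := hhalf (B 0 - n)
    have h3 := hhalf 0
    linarith
  have e3 := hA.1 e2
  rw [hA.2, e1] at e3
  have e4 := hlow ((B (A 0) - n) + 1 / 2)
  have e5 := hlow (A 0)
  linarith



/-! #### geo1 -/


/-- the configuration of fixed points -/
structure Geo (A B : Equiv.Perm ℝ) (pm pp qm qp : ℝ) : Prop where
  lt : pm < pp
  le1 : pp ≤ pm + 1
  Bpm : B pm = pm
  Bpp : B pp = pp
  down : ∀ x, pm < x → x < pp → B x < x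
  qle : qm ≤ qp
  Bqm : B qm = qm - 1 / 2
  Bqp : B qp = qp - 1 / 2
  pq : pm + 1 / 2 < qm
  qp' : qp < pp
  up : ∀ x, qp < x → x < qm + 1 → x < B x + 1 / 2
  AU : ∃ n : ℤ, ∀ x, pm < x → x < pp → qm + n ≤ A x ∧ A x ≤ qp + n
  Ap : ∃ n : ℤ, qm + n ≤ A pp ∧ A pp ≤ qp + n

theorem exists_geo {A B : Equiv.Perm ℝ} (hA : A ∈ HT) (hB : B ∈ HT)
    (hAB : ∀ x, A (B x) = B (A x) + 1 / 2) {p : ℝ} (hp : B p = p) :
    ∃ pm pp qm qp : ℝ, Geo A B pm pp qm qp := by
  have hBc : Continuous B := hB.1.monotone.continuous_of_surjective B.surjective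
  have hBn : ∀ (n : ℕ) (x : ℝ), B (x + n) = B x + n := by
    intro n
    induction n with
    | zero => intro x; simp
    | succ n ih =>
      intro x
      have : x + ((n + 1 : ℕ) : ℝ) = (x + n) + 1 := by push_cast; ring
      rw [this, hB.2, ih]; push_cast; ring
  have hBz : ∀ (k : ℤ) (x : ℝ), B (x + k) = B x + k := by
    intro k x
    rcases Int.eq_nat_or_neg k with ⟨n, rfl | rfl⟩
    · exact_mod_cast hBn n x
    · have := hBn n (x + ((-(n : ℤ) : ℤ) : ℝ))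
      have h2 : x + ((-(n : ℤ) : ℤ) : ℝ) + (n : ℝ) = x := by push_cast; ring
      rw [h2] at this
      rw [this]; push_cast; ring
  set P : Set ℝ := {x | B x = x} with hP
  set Q : Set ℝ := {x | B x = x - 1 / 2} with hQ
  have hPc : IsClosed P := isClosed_eq hBc continuous_id
  have hQc : IsClosed Q := isClosed_eq hBc (by fun_prop)
  have hPz : ∀ x ∈ P, ∀ k : ℤ, x + k ∈ P := by
    intro x hx k
    show B (x + k) = x + k
    rw [hBz, hx]
  have hQz : ∀ x ∈ Q, ∀ k : ℤ, x + k ∈ Q := by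
    intro x hx k
    show B (x + k) = x + k - 1 / 2
    rw [hBz, hx]; ring
  have hAP : ∀ x ∈ P, A x ∈ Q := by
    intro x hx
    show B (A x) = A x - 1 / 2
    have := hAB x
    rw [show B x = x from hx] at this
    linarith
  have hPQ : ∀ x ∈ P, ∀ y ∈ Q, x ≤ y → x < y - 1 / 2 := by
    intro x hx y hy hxy
    have h1 : B x ≤ B y := hB.1.monotone hxy
    rw [show B x = x from hx, show B y = y - 1 / 2 from hy] at h1
    rcases h1.lt_or_eq with h | h
    · exact h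
    · exfalso
      have h2 : B x = B y := by
        rw [show B x = x from hx, show B y = y - 1 / 2 from hy, h]
      have := B.injective h2
      linarith
  have hpP : p ∈ P := hp
  set q := A p with hq
  have hqQ : q ∈ Q := hAP p hpP
  set S1 : Set ℝ := P ∩ Set.Iic q with hS1
  set S2 : Set ℝ := P ∩ Set.Ici q with hS2
  have hS1n : S1.Nonempty := by
    obtain ⟨n, hn⟩ := exists_nat_ge (p - q)
    refine ⟨p + ((-(n : ℤ) : ℤ) : ℝ), hPz p hpP _, ?_⟩
    show p + ((-(n : ℤ) : ℤ) : ℝ) ≤ q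
    push_cast; linarith
  have hS2n : S2.Nonempty := by
    obtain ⟨n, hn⟩ := exists_nat_ge (q - p)
    refine ⟨p + ((n : ℤ) : ℝ), hPz p hpP _, ?_⟩
    show q ≤ p + ((n : ℤ) : ℝ)
    push_cast; linarith
  have hS1b : BddAbove S1 := ⟨q, fun x hx => hx.2⟩
  have hS2b : BddBelow S2 := ⟨q, fun x hx => hx.2⟩
  set pm := sSup S1 with hpm
  set pp := sInf S2 with hpp
  have hpmS : pm ∈ S1 := (hPc.inter isClosed_Iic).csSup_mem hS1n hS1b
  have hppS : pp ∈ S2 := (hPc.inter isClosed_Ici).csInf_mem hS2n hS2b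
  have hpmP : pm ∈ P := hpmS.1
  have hppP : pp ∈ P := hppS.1
  have hpmq : pm < q - 1 / 2 := hPQ pm hpmP q hqQ hpmS.2
  have hqpp : q < pp := by
    rcases (show q ≤ pp from hppS.2).lt_or_eq with h | h
    · exact h
    · have := hPQ pp hppP q hqQ h.ge
      linarith
  have hno : ∀ x ∈ P, ¬ (pm < x ∧ x < pp) := by
    rintro x hx ⟨h1, h2⟩
    rcases le_total x q with h | h
    · exact absurd (le_csSup hS1b ⟨hx, h⟩) (not_le.2 h1)
    · exact absurd (csInf_le hS2b ⟨hx, h⟩) (not_le.2 h2)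
  have hpp1 : pp ≤ pm + 1 := by
    have h1 : pm + ((1 : ℤ) : ℝ) ∈ P := hPz pm hpmP 1
    push_cast at h1
    have h2 : q ≤ pm + 1 := by
      by_contra hlt
      push Not at hlt
      have := le_csSup hS1b (show pm + 1 ∈ S1 from ⟨h1, hlt.le⟩)
      linarith
    exact csInf_le hS2b ⟨h1, h2⟩
  have hlt : pm < pp := by linarith
  have hdown : ∀ x, pm < x → x < pp → B x < x := by
    intro x h1 h2
    by_contra hge
    push Not at hge
    have hcont : ContinuousOn (fun t => B t - t) (Set.uIcc q x) := (hBc.sub continuous_id).continuousOn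
    have hiv := intermediate_value_uIcc hcont
    have h0 : (0 : ℝ) ∈ Set.uIcc (B q - q) (B x - x) := by
      have : B q = q - 1 / 2 := hqQ
      rw [this, Set.mem_uIcc]
      left
      constructor <;> linarith
    obtain ⟨t, ht, ht0⟩ := hiv h0
    have htP : t ∈ P := by
      show B t = t
      have : B t - t = 0 := ht0
      linarith
    apply hno t htP
    rw [Set.mem_uIcc] at ht
    rcases ht with ⟨ha, hb⟩ | ⟨ha, hb⟩ <;> constructor <;> linarith
  set Q' : Set ℝ := Q ∩ Set.Icc (pm + 1 / 2) pp with hQ'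
  have hQ'c : IsClosed Q' := hQc.inter isClosed_Icc
  have hQ'n : Q'.Nonempty := ⟨q, hqQ, by constructor <;> linarith⟩
  have hQ'b : BddBelow Q' := ⟨pm + 1 / 2, fun x hx => hx.2.1⟩
  have hQ'a : BddAbove Q' := ⟨pp, fun x hx => hx.2.2⟩
  set qm := sInf Q' with hqm
  set qp := sSup Q' with hqp
  have hqmQ : qm ∈ Q' := hQ'c.csInf_mem hQ'n hQ'b
  have hqpQ : qp ∈ Q' := hQ'c.csSup_mem hQ'n hQ'a
  have hQin : ∀ y ∈ Q', pm + 1 / 2 < y ∧ y < pp := by
    intro y hy
    constructor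
    · have := hPQ pm hpmP y hy.1 (by linarith [hy.2.1])
      linarith
    · rcases hy.2.2.lt_or_eq with h | h
      · exact h
      · have := hPQ pp hppP y hy.1 h.ge
        linarith
  have hqle : qm ≤ qp := csInf_le_csSup hQ'n hQ'b hQ'a
  have hloc : ∀ y ∈ Q, ∃ n : ℤ, qm + n ≤ y ∧ y ≤ qp + n := by
    intro y hy
    set n : ℤ := ⌊y - pm⌋ with hn
    have hn1 : (n : ℝ) ≤ y - pm := Int.floor_le _
    have hn2 : y - pm < n + 1 := Int.lt_floor_add_one _
    have hy' : y + ((-n : ℤ) : ℝ) ∈ Q := hQz y hy (-n)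
    push_cast at hy'
    have h1 := hPQ pm hpmP _ hy' (by linarith)
    have h2 : y + -(n : ℝ) < pp := by
      by_contra hge
      push Not at hge
      have := hPQ pp hppP _ hy' hge
      linarith
    have h3 : y + -(n : ℝ) ∈ Q' := ⟨hy', by linarith, h2.le⟩
    refine ⟨n, ?_, ?_⟩
    · have := csInf_le hQ'b h3
      linarith
    · have := le_csSup hQ'a h3
      linarith
  have hq1 := hQin qm hqmQ
  have hq2 := hQin qp hqpQ
  have hup : ∀ x, qp < x → x < qm + 1 → x < B x + 1 / 2 := by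
    intro x h1 h2
    by_contra hge
    push Not at hge
    have hcont : ContinuousOn (fun t => B t - t + 1 / 2) (Set.uIcc x pp) :=
      ((hBc.sub continuous_id).add continuous_const).continuousOn
    have hiv := intermediate_value_uIcc hcont
    have h0 : (0 : ℝ) ∈ Set.uIcc (B x - x + 1 / 2) (B pp - pp + 1 / 2) := by
      have : B pp = pp := hppP
      rw [this, Set.mem_uIcc]
      left
      constructor <;> linarith
    obtain ⟨t, ht, ht0⟩ := hiv h0
    have htQ : t ∈ Q := by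
      show B t = t - 1 / 2
      have : B t - t + 1 / 2 = 0 := ht0
      linarith
    obtain ⟨n, hn1, hn2⟩ := hloc t htQ
    have ht1 : qp < t ∧ t < qm + 1 := by
      rw [Set.mem_uIcc] at ht
      rcases ht with ⟨ha, hb⟩ | ⟨ha, hb⟩ <;> constructor <;> linarith
    have hn3 : (0 : ℝ) < n := by linarith [ht1.1]
    have hn4 : (0 : ℤ) < n := by exact_mod_cast hn3
    have hn5 : (1 : ℤ) ≤ n := hn4
    have hn6 : (1 : ℝ) ≤ n := by exact_mod_cast hn5
    linarith [ht1.2]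
  have hupz : ∀ (k : ℤ) (x : ℝ), qp + k < x → x < qm + k + 1 → x < B x + 1 / 2 := by
    intro k x h1 h2
    have h3 := hup (x + ((-k : ℤ) : ℝ)) (by push_cast; linarith) (by push_cast; linarith)
    rw [hBz] at h3
    push_cast at h3
    linarith
  have hpmA := hAP pm hpmP
  obtain ⟨n, hn1, hn2⟩ := hloc _ hpmA
  refine ⟨pm, pp, qm, qp, hlt, hpp1, hpmP, hppP, hdown, hqle, hqmQ.1, hqpQ.1, hq1.1, hq2.2, hup,
    ⟨n, fun x hx1 hx2 => ⟨?_, ?_⟩⟩, hloc _ (hAP pp hppP)⟩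
  · have := hA.1 hx1
    linarith
  · by_contra hgt
    push Not at hgt
    obtain ⟨z, hz1, hz2⟩ : ∃ z, qp + n < z ∧ z < min (A x) (qm + n + 1) := by
      apply exists_between
      rw [lt_min_iff]
      constructor
      · exact hgt
      · linarith
    rw [lt_min_iff] at hz2
    obtain ⟨x', rfl⟩ := A.surjective z
    have hx'1 : pm < x' := hA.1.lt_iff_lt.1 (by linarith)
    have hx'2 : x' < pp := lt_trans (hA.1.lt_iff_lt.1 hz2.1) hx2
    have h1 := hupz n (A x') hz1 hz2.2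
    have h2 : A (B x') < A x' := hA.1 (hdown x' hx'1 hx'2)
    rw [hAB] at h2
    linarith



/-! #### geo2 -/


theorem zpow_succ_app9473 (f : HT) (n : ℤ) (x : ℝ) : (f ^ (n + 1)).1 x = (f ^ n).1 (f.1 x) := by
  rw [zpow_add_one]; rfl

theorem zpow_succ_app9473' (f : HT) (n : ℤ) (x : ℝ) : (f ^ (n + 1)).1 x = f.1 ((f ^ n).1 x) := by
  rw [add_comm, zpow_one_add]; rfl

theorem inv_app9473 (f : HT) (x : ℝ) : (f⁻¹).1 (f.1 x) = x := f.1.symm_apply_apply x

theorem inv_app9473' (f : HT) (x : ℝ) : f.1 ((f⁻¹).1 x) = x := f.1.apply_symm_apply x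

theorem zpow_fix9473 (f : HT) {l : ℝ} (hl : f.1 l = l) (n : ℤ) : (f ^ n).1 l = l := by
  have h : ((f ^ n : HT) : Equiv.Perm ℝ) = (f : Equiv.Perm ℝ) ^ n := by simp
  rw [h]
  exact Equiv.Perm.zpow_apply_eq_self_of_apply_eq_self hl n

theorem zpow_neg_app9473 (f : HT) (n : ℤ) (x : ℝ) : (f ^ (-n)).1 ((f ^ n).1 x) = x := by
  rw [zpow_neg]
  exact inv_app9473 (f ^ n) x

theorem zpow_add1_9473 (f : HT) (n : ℤ) (x : ℝ) : (f ^ n).1 (x + 1) = (f ^ n).1 x + 1 := (f ^ n).2.2 x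

theorem orb_mem9473 (f : HT) {l u : ℝ} (hl : f.1 l = l) (hu : f.1 u = u) {x : ℝ} (hx : l < x)
    (hxu : x < u) (n : ℤ) : l < (f ^ n).1 x ∧ (f ^ n).1 x < u := by
  constructor
  · calc l = (f ^ n).1 l := (zpow_fix9473 f hl n).symm
      _ < _ := (f ^ n).2.1 hx
  · calc (f ^ n).1 x < (f ^ n).1 u := (f ^ n).2.1 hxu
      _ = u := zpow_fix9473 f hu n

theorem orb_mem_le9473 (f : HT) {l u : ℝ} (hl : f.1 l = l) (hu : f.1 u = u) {x : ℝ} (hx : l ≤ x)
    (hxu : x ≤ u) (n : ℤ) : l ≤ (f ^ n).1 x ∧ (f ^ n).1 x ≤ u := by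
  constructor
  · calc l = (f ^ n).1 l := (zpow_fix9473 f hl n).symm
      _ ≤ _ := (f ^ n).2.1.monotone hx
  · calc (f ^ n).1 x ≤ (f ^ n).1 u := (f ^ n).2.1.monotone hxu
      _ = u := zpow_fix9473 f hu n

theorem orb_lt9473 (f : HT) {l u : ℝ} (hf : ∀ x, l < x → x < u → f.1 x < x)
    {x q : ℝ} (hxu : x < u) (hq : l < q) : ∃ N : ℤ, (f ^ N).1 x < q := by
  by_contra hcon
  push Not at hcon
  have hne : (Set.range (fun N : ℤ => (f ^ N).1 x)).Nonempty := ⟨_, 0, rfl⟩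
  have hbd : BddBelow (Set.range (fun N : ℤ => (f ^ N).1 x)) := ⟨q, by
    rintro _ ⟨N, rfl⟩
    exact hcon N⟩
  have hs1 : q ≤ sInf (Set.range (fun N : ℤ => (f ^ N).1 x)) := le_csInf hne (by
    rintro _ ⟨N, rfl⟩
    exact hcon N)
  have hs2 : sInf (Set.range (fun N : ℤ => (f ^ N).1 x)) ≤ x := by
    have := csInf_le hbd ⟨0, rfl⟩
    simpa using this
  set s := sInf (Set.range (fun N : ℤ => (f ^ N).1 x)) with hs
  have h1 : f.1 s < s := hf s (by linarith) (by linarith)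
  have h2 : s < (f⁻¹).1 s := by
    have := (f⁻¹).2.1 h1
    rwa [inv_app9473] at this
  obtain ⟨_, ⟨N, rfl⟩, hN⟩ := exists_lt_of_csInf_lt hne h2
  have h3 := f.2.1 hN
  simp only at h3
  have h3' : f.1 ((f ^ N).1 x) < f.1 ((f⁻¹).1 s) := h3
  rw [inv_app9473', ← zpow_succ_app9473'] at h3'
  have h4 := csInf_le hbd ⟨N + 1, rfl⟩
  simp only at h4
  rw [← hs] at h4
  linarith

theorem orb_gt9473 (f : HT) {l u : ℝ} (hf : ∀ x, l < x → x < u → f.1 x < x)
    {x q : ℝ} (hx : l < x) (hqu : q < u) : ∃ N : ℤ, q < (f ^ N).1 x := by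
  obtain ⟨N, hN⟩ := orb_lt9473 f hf hqu hx
  refine ⟨-N, ?_⟩
  have := (f ^ (-N)).2.1 hN
  rwa [zpow_neg_app9473] at this

theorem orb_anti9473 (f : HT) {l u : ℝ} (hf : ∀ x, l < x → x < u → f.1 x < x) {q : ℝ} (hq : l < q)
    (hqu : q < u) : StrictAnti (fun n : ℤ => (f ^ n).1 q) := by
  apply strictAnti_int_of_succ_lt
  intro n
  rw [zpow_succ_app9473]
  exact (f ^ n).2.1 (hf q hq hqu)

/-- fundamental domain for a decreasing map -/
theorem orb_dom9473 (f : HT) {l u : ℝ} (hf : ∀ x, l < x → x < u → f.1 x < x) {x q : ℝ} (hx : l < x)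
    (hxu : x < u) (hq : l < q) (hqu : q < u) : ∃ n : ℤ, f.1 q < (f ^ n).1 x ∧ (f ^ n).1 x ≤ q := by
  obtain ⟨N, hN⟩ := orb_lt9473 f hf hxu hq
  obtain ⟨M, hM⟩ := orb_gt9473 f hf hx hqu
  have hanti := orb_anti9473 f hf hx hxu
  obtain ⟨n, hn1, hn2⟩ := Int.exists_least_of_bdd (P := fun n : ℤ => (f ^ n).1 x ≤ q)
    ⟨M, fun z hz => by
      by_contra hc
      push Not at hc
      have := hanti hc
      simp only at this
      linarith⟩ ⟨N, hN.le⟩
  refine ⟨n, ?_, hn1⟩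
  have h1 : q < (f ^ (n - 1)).1 x := by
    by_contra hc
    push Not at hc
    have := hn2 (n - 1) hc
    omega
  have h2 := f.2.1 h1
  have h3 : f.1 ((f ^ (n - 1)).1 x) = (f ^ n).1 x := by
    rw [← zpow_succ_app9473', sub_add_cancel]
  calc f.1 q < f.1 ((f ^ (n - 1)).1 x) := h2
    _ = _ := h3

/-- fundamental domain for an increasing map -/
theorem orb_dom_inc9473 (g : HT) {l u : ℝ} (hg : ∀ x, l < x → x < u → (g⁻¹).1 x < x) {x q : ℝ} (hx : l < x)
    (hxu : x < u) (hq : l < q) (hqu : q < u) : ∃ n : ℤ, q ≤ (g ^ n).1 x ∧ (g ^ n).1 x < g.1 q := by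
  obtain ⟨N, hN⟩ := orb_lt9473 g⁻¹ hg hxu hq
  obtain ⟨M, hM⟩ := orb_gt9473 g⁻¹ hg hx hqu
  have hanti := orb_anti9473 g⁻¹ hg hx hxu
  have hconv : ∀ n : ℤ, (g ^ n).1 x = ((g⁻¹) ^ (-n)).1 x := by
    intro n
    rw [inv_zpow', neg_neg]
  obtain ⟨n, hn1, hn2⟩ := Int.exists_least_of_bdd (P := fun n : ℤ => q ≤ (g ^ n).1 x)
    ⟨-N, fun z hz => by
      by_contra hc
      push Not at hc
      have := hanti (show N < -z by omega)
      simp only at this
      rw [← hconv] at this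
      linarith⟩ ⟨-M, by rw [hconv, neg_neg]; exact hM.le⟩
  refine ⟨n, hn1, ?_⟩
  have h1 : (g ^ (n - 1)).1 x < q := by
    by_contra hc
    push Not at hc
    have := hn2 (n - 1) hc
    omega
  have h2 := g.2.1 h1
  have h3 : g.1 ((g ^ (n - 1)).1 x) = (g ^ n).1 x := by
    rw [← zpow_succ_app9473', sub_add_cancel]
  calc (g ^ n).1 x = g.1 ((g ^ (n - 1)).1 x) := h3.symm
    _ < _ := h2

theorem coe_add_int9473 (y : ℝ) (n : ℤ) : ((y + n : ℝ) : AddCircle (1 : ℝ)) = (y : AddCircle (1 : ℝ)) := by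
  have h : ((n : ℝ) : AddCircle (1 : ℝ)) = 0 := by
    rw [AddCircle.coe_eq_zero_iff]
    exact ⟨n, by simp⟩
  rw [AddCircle.coe_add, h, add_zero]

/-- membership of a class in the image of a set -/
theorem mem_im9473 (I : Set ℝ) (y : ℝ) : (y : AddCircle (1 : ℝ)) ∈ (fun x : ℝ => (x : AddCircle (1 : ℝ))) '' I ↔
    ∃ n : ℤ, y + n ∈ I := by
  constructor
  · rintro ⟨x, hx, hxy⟩
    simp only at hxy
    have h : ((x - y : ℝ) : AddCircle (1 : ℝ)) = 0 := by
      rw [AddCircle.coe_sub, hxy, sub_self]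
    rw [AddCircle.coe_eq_zero_iff] at h
    obtain ⟨n, hn⟩ := h
    refine ⟨n, ?_⟩
    have : y + n = x := by
      rw [zsmul_eq_mul, mul_one] at hn
      linarith
    rw [this]
    exact hx
  · rintro ⟨n, hn⟩
    exact ⟨y + n, hn, coe_add_int9473 y n⟩

theorem rep_Ioc9473 (z : AddCircle (1 : ℝ)) (c : ℝ) : ∃ y : ℝ, (y : AddCircle (1 : ℝ)) = z ∧ c < y ∧ y ≤ c + 1 := by
  refine ⟨(AddCircle.equivIoc 1 c z : ℝ), AddCircle.coe_equivIoc, ?_, ?_⟩
  · exact (AddCircle.equivIoc 1 c z).2.1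
  · exact (AddCircle.equivIoc 1 c z).2.2

theorem rep_Ico9473 (z : AddCircle (1 : ℝ)) (c : ℝ) : ∃ y : ℝ, (y : AddCircle (1 : ℝ)) = z ∧ c ≤ y ∧ y < c + 1 := by
  refine ⟨(AddCircle.equivIco 1 c z : ℝ), AddCircle.coe_equivIco, ?_, ?_⟩
  · exact (AddCircle.equivIco 1 c z).2.1
  · exact (AddCircle.equivIco 1 c z).2.2

theorem int_cases9473 (n : ℤ) : (n : ℝ) ≤ -1 ∨ n = 0 ∨ (1 : ℝ) ≤ n := by
  rcases lt_trichotomy n 0 with h | h | h
  · left
    have : n ≤ -1 := by omega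
    exact_mod_cast this
  · right; left; exact h
  · right; right
    have : 1 ≤ n := by omega
    exact_mod_cast this

theorem half_Ioc9473 (q : ℝ) (x : AddCircle (1 : ℝ)) (y : ℝ) (hy : (y : AddCircle (1 : ℝ)) = x) :
    ((y + 1 / 2 : ℝ) : AddCircle (1 : ℝ)) ∈ (fun x : ℝ => (x : AddCircle (1 : ℝ))) '' Set.Ioc (q - 1 / 2) q ↔
      x ∉ (fun x : ℝ => (x : AddCircle (1 : ℝ))) '' Set.Ioc (q - 1 / 2) q := by
  obtain ⟨y', hy', h1, h2⟩ := rep_Ioc9473 x (q - 1)
  have e : ((y + 1 / 2 : ℝ) : AddCircle (1 : ℝ)) = ((y' + 1 / 2 : ℝ) : AddCircle (1 : ℝ)) := by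
    rw [AddCircle.coe_add, AddCircle.coe_add, hy, hy']
  rw [e, ← hy', mem_im9473, mem_im9473]
  rcases le_or_gt y' (q - 1 / 2) with h | h
  · constructor
    · rintro - ⟨n, hn1, hn2⟩
      rcases int_cases9473 n with h3 | h3 | h3
      · linarith
      · rw [h3] at hn1; push_cast at hn1; linarith
      · linarith
    · intro _
      exact ⟨0, by constructor <;> push_cast <;> linarith⟩
  · constructor
    · rintro ⟨n, hn1, hn2⟩
      rcases int_cases9473 n with h3 | h3 | h3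
      · linarith
      · rw [h3] at hn2; push_cast at hn2; linarith
      · linarith
    · intro hc
      exact absurd ⟨0, by constructor <;> push_cast <;> linarith⟩ hc

theorem half_Ico9473 (q : ℝ) (x : AddCircle (1 : ℝ)) (y : ℝ) (hy : (y : AddCircle (1 : ℝ)) = x) :
    ((y + 1 / 2 : ℝ) : AddCircle (1 : ℝ)) ∈ (fun x : ℝ => (x : AddCircle (1 : ℝ))) '' Set.Ico q (q + 1 / 2) ↔
      x ∉ (fun x : ℝ => (x : AddCircle (1 : ℝ))) '' Set.Ico q (q + 1 / 2) := by
  obtain ⟨y', hy', h1, h2⟩ := rep_Ico9473 x q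
  have e : ((y + 1 / 2 : ℝ) : AddCircle (1 : ℝ)) = ((y' + 1 / 2 : ℝ) : AddCircle (1 : ℝ)) := by
    rw [AddCircle.coe_add, AddCircle.coe_add, hy, hy']
  rw [e, ← hy', mem_im9473, mem_im9473]
  rcases lt_or_ge y' (q + 1 / 2) with h | h
  · constructor
    · rintro ⟨n, hn1, hn2⟩
      rcases int_cases9473 n with h3 | h3 | h3
      · linarith
      · rw [h3] at hn2; push_cast at hn2; linarith
      · linarith
    · intro hc
      exact absurd ⟨0, by constructor <;> push_cast <;> linarith⟩ hc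
  · constructor
    · rintro - ⟨n, hn1, hn2⟩
      rcases int_cases9473 n with h3 | h3 | h3
      · linarith
      · rw [h3] at hn2; push_cast at hn2; linarith
      · linarith
    · intro _
      exact ⟨-1, by constructor <;> push_cast <;> linarith⟩

/-- wandering property for a decreasing map -/
theorem wand_dec9473 (f : HT) {l u : ℝ} (hl : f.1 l = l) (hu : f.1 u = u) (hlu : u ≤ l + 1)
    (hf : ∀ x, l < x → x < u → f.1 x < x) {q : ℝ} (hq : l < q) (hqu : q < u) (n : ℤ) (hn : n ≠ 0)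
    (y : ℝ) (hy1 : f.1 q < y) (hy2 : y ≤ q) (m : ℤ) : ¬ (f.1 q < (f ^ n).1 y + m ∧ (f ^ n).1 y + m ≤ q) := by
  rintro ⟨h1, h2⟩
  have hfq := (orb_mem9473 f hl hu hq hqu 1).1
  rw [zpow_one] at hfq
  have hfq2 := hf q hq hqu
  have hym := orb_mem9473 f hl hu (show l < y by linarith) (show y < u by linarith) n
  rcases int_cases9473 m with h3 | h3 | h3
  · linarith [hym.2]
  · rw [h3, Int.cast_zero, add_zero] at h1 h2
    have hanti := orb_anti9473 f hf hq hqu
    have e0 : (f ^ (0:ℤ)).1 q = q := by simp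
    have e1 : (f ^ (1:ℤ)).1 q = f.1 q := by simp
    rcases lt_or_gt_of_ne hn with hn' | hn'
    · have h4 : (f ^ (n + 1)).1 q < (f ^ n).1 y := by
        rw [zpow_succ_app9473]
        exact (f ^ n).2.1 hy1
      have h5 : (f ^ (0:ℤ)).1 q ≤ (f ^ (n + 1)).1 q := hanti.antitone (show n + 1 ≤ 0 by omega)
      rw [e0] at h5
      linarith
    · have h4 : (f ^ n).1 y ≤ (f ^ n).1 q := (f ^ n).2.1.monotone hy2
      have h5 : (f ^ n).1 q ≤ (f ^ (1:ℤ)).1 q := hanti.antitone (show 1 ≤ n by omega)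
      rw [e1] at h5
      linarith
  · linarith [hym.1]

/-- wandering property for an increasing map -/
theorem wand_inc9473 (g : HT) {l u : ℝ} (hl : g.1 l = l) (hu : g.1 u = u) (hlu : u ≤ l + 1)
    (hg : ∀ x, l < x → x < u → x < g.1 x) {q : ℝ} (hq : l < q) (hqu : q < u) (n : ℤ) (hn : n ≠ 0)
    (y : ℝ) (hy1 : q ≤ y) (hy2 : y < g.1 q) (m : ℤ) : ¬ (q ≤ (g ^ n).1 y + m ∧ (g ^ n).1 y + m < g.1 q) := by
  rintro ⟨h1, h2⟩
  have hgq := (orb_mem9473 g hl hu hq hqu 1).2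
  rw [zpow_one] at hgq
  have hgq2 := hg q hq hqu
  have hym := orb_mem9473 g hl hu (show l < y by linarith) (show y < u by linarith) n
  have hmono : StrictMono (fun n : ℤ => (g ^ n).1 q) := by
    apply strictMono_int_of_lt_succ
    intro n
    rw [zpow_succ_app9473]
    exact (g ^ n).2.1 (hg q hq hqu)
  rcases int_cases9473 m with h3 | h3 | h3
  · linarith [hym.2]
  · rw [h3, Int.cast_zero, add_zero] at h1 h2
    have e0 : (g ^ (0:ℤ)).1 q = q := by simp
    have e1 : (g ^ (1:ℤ)).1 q = g.1 q := by simp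
    rcases lt_or_gt_of_ne hn with hn' | hn'
    · have h4 : (g ^ n).1 y < (g ^ (n + 1)).1 q := by
        rw [zpow_succ_app9473]
        exact (g ^ n).2.1 hy2
      have h5 : (g ^ (n + 1)).1 q ≤ (g ^ (0:ℤ)).1 q := hmono.monotone (show n + 1 ≤ 0 by omega)
      rw [e0] at h5
      linarith
    · have h4 : (g ^ n).1 q ≤ (g ^ n).1 y := (g ^ n).2.1.monotone hy1
      have h5 : (g ^ (1:ℤ)).1 q ≤ (g ^ n).1 q := hmono.monotone (show 1 ≤ n by omega)
      rw [e1] at h5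
      linarith
  · linarith [hym.1]

theorem exists_PP {A B : HT} (hAB : ∀ x, (A : Equiv.Perm ℝ) ((B : Equiv.Perm ℝ) x) =
      (B : Equiv.Perm ℝ) ((A : Equiv.Perm ℝ) x) + 1 / 2) {pm pp qm qp : ℝ}
    (K : Geo A B pm pp qm qp) :
    ∃ (a b r : Subgroup.closure {cm A, cm B}) (IP IQ U U' : Set (AddCircle (1 : ℝ))),
      (a : Equiv.Perm (AddCircle (1 : ℝ))) = cm A ∧ (b : Equiv.Perm (AddCircle (1 : ℝ))) = cm B ∧
      PP a b r IP IQ U U' ∧ IP = (fun x : ℝ => (x : AddCircle (1 : ℝ))) '' Set.Icc pp (pm + 1) := by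
  have haM : cm A ∈ Subgroup.closure {cm A, cm B} := Subgroup.subset_closure (by simp)
  have hbM : cm B ∈ Subgroup.closure {cm A, cm B} := Subgroup.subset_closure (by simp)
  set a : Subgroup.closure {cm A, cm B} := ⟨cm A, haM⟩ with ha
  set b : Subgroup.closure {cm A, cm B} := ⟨cm B, hbM⟩ with hb
  set r : Subgroup.closure {cm A, cm B} := a * b * a⁻¹ * b⁻¹ with hr
  set C : HT := A * B * A⁻¹ with hC
  have hCx : ∀ x, C.1 x = B.1 x + 1 / 2 := by
    intro x
    show A.1 (B.1 ((A⁻¹).1 x)) = _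
    have h := hAB ((A⁻¹).1 x)
    rw [inv_app9473'] at h
    exact h
  have hRx : ∀ x, (C * B⁻¹).1 x = x + 1 / 2 := by
    intro x
    show C.1 ((B⁻¹).1 x) = _
    rw [hCx, inv_app9473']
  have act_b : ∀ (n : ℤ) (y : ℝ), (b ^ n) • (y : AddCircle (1 : ℝ)) = (((B ^ n).1 y : ℝ) : AddCircle (1 : ℝ)) := by
    intro n y
    have h : ((b ^ n : Subgroup.closure {cm A, cm B}) : Equiv.Perm (AddCircle (1 : ℝ))) = cm (B ^ n) := by
      rw [map_zpow, Subgroup.coe_zpow]
    show ((b ^ n : Subgroup.closure {cm A, cm B}) : Equiv.Perm (AddCircle (1 : ℝ))) (y : AddCircle (1 : ℝ)) = _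
    rw [h, cm_apply]
  have act_rb : ∀ (n : ℤ) (y : ℝ), ((r * b) ^ n) • (y : AddCircle (1 : ℝ)) = (((C ^ n).1 y : ℝ) : AddCircle (1 : ℝ)) := by
    intro n y
    have h0 : r * b = a * b * a⁻¹ := by rw [hr, inv_mul_cancel_right]
    have h1 : ((r * b : Subgroup.closure {cm A, cm B}) : Equiv.Perm (AddCircle (1 : ℝ))) = cm C := by
      rw [h0, hC, map_mul, map_mul, map_inv]
      rfl
    have h : (((r * b) ^ n : Subgroup.closure {cm A, cm B}) : Equiv.Perm (AddCircle (1 : ℝ))) = cm (C ^ n) := by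
      rw [map_zpow, Subgroup.coe_zpow, h1]
    show (((r * b) ^ n : Subgroup.closure {cm A, cm B}) : Equiv.Perm (AddCircle (1 : ℝ))) (y : AddCircle (1 : ℝ)) = _
    rw [h, cm_apply]
  have act_r : ∀ (y : ℝ), r • (y : AddCircle (1 : ℝ)) = ((y + 1 / 2 : ℝ) : AddCircle (1 : ℝ)) := by
    intro y
    have h1 : ((r : Subgroup.closure {cm A, cm B}) : Equiv.Perm (AddCircle (1 : ℝ))) = cm (C * B⁻¹) := by
      rw [hC, map_mul, map_mul, map_mul, map_inv, map_inv]
      rfl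
    show ((r : Subgroup.closure {cm A, cm B}) : Equiv.Perm (AddCircle (1 : ℝ))) (y : AddCircle (1 : ℝ)) = _
    rw [h1, cm_apply]
    congr 1
    exact hRx y
  have act_a : ∀ (y : ℝ), a • (y : AddCircle (1 : ℝ)) = ((A.1 y : ℝ) : AddCircle (1 : ℝ)) := fun y => cm_apply A y
  obtain ⟨Klt, Kle1, KBpm, KBpp, Kdown, Kqle, KBqm, KBqp, Kpq, Kqp', Kup, KAU, KAp⟩ := K
  have KBpm' : B.1 pm = pm := KBpm
  have KBpp' : B.1 pp = pp := KBpp
  have KBqm' : B.1 qm = qm - 1 / 2 := KBqm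
  have KBqp' : B.1 qp = qp - 1 / 2 := KBqp
  have hCqm : C.1 qm = qm := by rw [hCx, KBqm']; ring
  have hCqp : C.1 qp = qp := by rw [hCx, KBqp']; ring
  have hBpm1 : B.1 (pm + 1) = pm + 1 := by rw [B.2.2, KBpm']
  have hCqm1 : C.1 (qm + 1) = qm + 1 := by rw [C.2.2, hCqm]
  have hCpp : C.1 pp = pp + 1 / 2 := by rw [hCx, KBpp']
  have hCup : ∀ x, qp < x → x < qm + 1 → x < C.1 x := by
    intro x h1 h2
    rw [hCx]
    exact Kup x h1 h2
  have hCinv : ∀ x, qp < x → x < qm + 1 → (C⁻¹).1 x < x := by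
    intro x h1 h2
    have := (C⁻¹).2.1 (hCup x h1 h2)
    have e : (C⁻¹).1 (C.1 x) = x := inv_app9473 C x
    calc (C⁻¹).1 x < (C⁻¹).1 (C.1 x) := this
      _ = x := e
  have hpq1 : pm < qp := by linarith
  have hqpp : qp < pp := Kqp'
  have hppq : pp < qm + 1 := by linarith
  refine ⟨a, b, r, (fun x : ℝ => (x : AddCircle (1 : ℝ))) '' Set.Icc pp (pm + 1),
    (fun x : ℝ => (x : AddCircle (1 : ℝ))) '' Set.Icc qm qp,
    (fun x : ℝ => (x : AddCircle (1 : ℝ))) '' Set.Ioc (qp - 1 / 2) qp,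
    (fun x : ℝ => (x : AddCircle (1 : ℝ))) '' Set.Ico pp (pp + 1 / 2), rfl, rfl, ?_, rfl⟩
  constructor
  · -- r2
    apply Subtype.ext
    apply Equiv.ext
    intro x
    obtain ⟨y, rfl, -⟩ := rep_Ioc9473 x 0
    show r • (r • (y : AddCircle (1 : ℝ))) = y
    rw [act_r, act_r]
    have : y + 1 / 2 + 1 / 2 = y + (1 : ℤ) := by push_cast; ring
    rw [this, coe_add_int9473]
  · rw [hr, inv_mul_cancel_right]
  · have h := Subgroup.closure_closure_coe_preimage (k := ({cm A, cm B} : Set (Equiv.Perm (AddCircle (1 : ℝ)))))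
    have h2 : ({a, b} : Set (Subgroup.closure {cm A, cm B})) =
        ((↑) : Subgroup.closure {cm A, cm B} → Equiv.Perm (AddCircle (1 : ℝ))) ⁻¹' {cm A, cm B} := by
      ext x
      simp only [Set.mem_insert_iff, Set.mem_singleton_iff, Set.mem_preimage]
      rw [ha, hb, Subtype.ext_iff, Subtype.ext_iff]
    rw [h2]
    exact h
  · intro x
    obtain ⟨y, rfl, -⟩ := rep_Ioc9473 x 0
    rw [act_r]
    exact half_Ioc9473 qp _ y rfl
  · intro x
    obtain ⟨y, rfl, -⟩ := rep_Ioc9473 x 0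
    rw [act_r]
    exact half_Ico9473 pp _ y rfl
  · -- Ub
    rintro n hn _ ⟨y, ⟨hy1, hy2⟩, rfl⟩
    simp only
    rw [act_b, mem_im9473]
    rintro ⟨m, hm⟩
    have := wand_dec9473 B KBpm' KBpp' Kle1 Kdown hpq1 hqpp n hn y (by rw [KBqp']; exact hy1) hy2 m
    rw [KBqp'] at this
    exact this hm
  · rintro n hn _ ⟨y, ⟨hy1, hy2⟩, rfl⟩
    simp only
    rw [act_rb, mem_im9473]
    rintro ⟨m, hm⟩
    have := wand_inc9473 C hCqp hCqm1 (by linarith) hCup hqpp hppq n hn y hy1 (by rw [hCpp]; exact hy2) m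
    rw [hCpp] at this
    exact this hm
  · -- IPdef
    intro x
    constructor
    · rintro ⟨y, ⟨hy1, hy2⟩, rfl⟩ n
      simp only
      rw [act_b, mem_im9473]
      rintro ⟨m, hm1, hm2⟩
      have h := orb_mem_le9473 B KBpp' hBpm1 hy1 hy2 n
      rcases int_cases9473 m with h3 | h3 | h3
      · linarith [h.2]
      · rw [h3, Int.cast_zero, add_zero] at hm2; linarith [h.1]
      · linarith [h.1]
    · intro hx
      obtain ⟨y, rfl, h1, h2⟩ := rep_Ioc9473 x pm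
      rcases le_or_gt pp y with h | h
      · exact ⟨y, ⟨h, h2⟩, rfl⟩
      · exfalso
        obtain ⟨n, hn1, hn2⟩ := orb_dom9473 B Kdown h1 h hpq1 hqpp
        rw [KBqp'] at hn1
        apply hx n
        rw [act_b]
        exact ⟨_, ⟨hn1, hn2⟩, rfl⟩
  · -- IQdef
    intro x
    constructor
    · rintro ⟨y, ⟨hy1, hy2⟩, rfl⟩ n
      simp only
      rw [act_rb, mem_im9473]
      rintro ⟨m, hm1, hm2⟩
      have h := orb_mem_le9473 C hCqm hCqp hy1 hy2 n
      have h5 : pp + 1 / 2 < qm + 1 := by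
        have := (orb_mem9473 C hCqp hCqm1 hqpp hppq 1).2
        rw [zpow_one, hCpp] at this
        exact this
      rcases int_cases9473 m with h3 | h3 | h3
      · linarith [h.2]
      · rw [h3, Int.cast_zero, add_zero] at hm1; linarith [h.2]
      · linarith [h.1]
    · intro hx
      obtain ⟨y, rfl, h1, h2⟩ := rep_Ico9473 x qm
      rcases le_or_gt y qp with h | h
      · exact ⟨y, ⟨h1, h⟩, rfl⟩
      · exfalso
        obtain ⟨n, hn1, hn2⟩ := orb_dom_inc9473 C hCinv h h2 hqpp hppq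
        rw [hCpp] at hn2
        apply hx n
        rw [act_rb]
        exact ⟨_, ⟨hn1, hn2⟩, rfl⟩
  · apply Set.image_mono
    intro y hy
    exact ⟨hy.1, by linarith [hy.2]⟩
  · apply Set.image_mono
    intro y hy
    exact ⟨by linarith [hy.1], hy.2⟩
  · -- aU
    intro x hx
    obtain ⟨y, rfl, h1, h2⟩ := rep_Ioc9473 x pm
    rcases le_or_gt pp y with h | h
    · exact absurd ⟨y, ⟨h, h2⟩, rfl⟩ hx
    · obtain ⟨n, hn⟩ := KAU
      rw [act_a, mem_im9473]
      have h3 : qm + n ≤ A.1 y ∧ A.1 y ≤ qp + n := hn y h1 h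
      refine ⟨-n, ?_, ?_⟩ <;> push_cast <;> linarith [h3.1, h3.2]
  · refine ⟨(pp : AddCircle (1 : ℝ)), ⟨pp, ⟨le_refl _, Kle1⟩, rfl⟩, ?_, ?_⟩
    · have := act_b 1 pp
      rw [zpow_one, zpow_one, KBpp'] at this
      exact this
    · obtain ⟨n, hn⟩ := KAp
      rw [act_a, mem_im9473]
      have h3 : qm + n ≤ A.1 pp ∧ A.1 pp ≤ qp + n := hn
      refine ⟨-n, ?_, ?_⟩ <;> push_cast <;> linarith [h3.1, h3.2]



/-! #### coc -/


theorem TT_le_HT {f : Equiv.Perm ℝ} (hf : f ∈ TT) : f ∈ HT := ⟨hf.1.1, hf.2⟩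

/-- the group of circle maps generated by two lifts -/
abbrev GG {A B : Equiv.Perm ℝ} (hA : A ∈ TT) (hB : B ∈ TT) :
    Subgroup (Equiv.Perm (AddCircle (1 : ℝ))) :=
  Subgroup.closure {cm ⟨A, TT_le_HT hA⟩, cm ⟨B, TT_le_HT hB⟩}

/-- every element of the group has a lift -/
theorem lift9627 {A B : Equiv.Perm ℝ} (hA : A ∈ TT) (hB : B ∈ TT) (g : GG hA hB) :
    ∃ (f : Equiv.Perm ℝ) (hf : f ∈ TT),
      (g : Equiv.Perm (AddCircle (1 : ℝ))) = cm ⟨f, TT_le_HT hf⟩ := by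
  have h : Subgroup.closure {cm ⟨A, TT_le_HT hA⟩, cm ⟨B, TT_le_HT hB⟩} ≤ (TT.subgroupOf HT).map cm := by
    rw [Subgroup.closure_le]
    rintro _ (rfl | rfl)
    · exact ⟨⟨A, TT_le_HT hA⟩, hA, rfl⟩
    · exact ⟨⟨B, TT_le_HT hB⟩, hB, rfl⟩
  obtain ⟨e, he, heq⟩ := h g.2
  exact ⟨e, he, heq.symm⟩

theorem coe_eq9627 {x y : ℝ} (h : (x : AddCircle (1 : ℝ)) = (y : AddCircle (1 : ℝ))) : ∃ n : ℤ, x = y + n := by
  have h1 : ((x - y : ℝ) : AddCircle (1 : ℝ)) = 0 := by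
    rw [AddCircle.coe_sub, h, sub_self]
  obtain ⟨n, hn⟩ := (AddCircle.coe_eq_zero_iff (1 : ℝ)).1 h1
  refine ⟨n, ?_⟩
  rw [zsmul_eq_mul, mul_one] at hn
  linarith

theorem coe_add9627 (x : ℝ) (n : ℤ) : ((x + n : ℝ) : AddCircle (1 : ℝ)) = (x : AddCircle (1 : ℝ)) := by
  rw [AddCircle.coe_add]
  have h : ((n : ℝ) : AddCircle (1 : ℝ)) = 0 := (AddCircle.coe_eq_zero_iff (1 : ℝ)).2 ⟨n, by simp⟩
  rw [h, add_zero]

/-- a continuous function with integer values is constant -/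
theorem const9627 (d : ℝ → ℝ) (hd : Continuous d) (h : ∀ x, ∃ n : ℤ, d x = n) : ∃ n : ℤ, ∀ x, d x = n := by
  choose n hn using h
  have h1 : Continuous n := by
    rw [Int.isClosedEmbedding_coe_real.isEmbedding.continuous_iff]
    have h2 : (fun k : ℤ => (k : ℝ)) ∘ n = d := by
      funext x
      exact (hn x).symm
    rw [h2]
    exact hd
  refine ⟨n 0, fun x => ?_⟩
  rw [hn x, PreconnectedSpace.constant (inferInstance : PreconnectedSpace ℝ) h1 (x := x) (y := 0)]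

/-- two lifts differ by an integer -/
theorem two9627 {f f' : Equiv.Perm ℝ} (hf : f ∈ TT) (hf' : f' ∈ TT)
    (h : cm ⟨f, TT_le_HT hf⟩ = cm ⟨f', TT_le_HT hf'⟩) : ∃ n : ℤ, ∀ x, f x = f' x + n := by
  have hc : Continuous (fun x => f x - f' x) := (hf.1.2.cont).sub (hf'.1.2.cont)
  have h1 : ∀ x, ∃ n : ℤ, f x - f' x = n := by
    intro x
    have h2 := cm_apply ⟨f, TT_le_HT hf⟩ x
    have h3 := cm_apply ⟨f', TT_le_HT hf'⟩ x
    rw [h, h3] at h2
    obtain ⟨n, hn⟩ := coe_eq9627 h2.symm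
    refine ⟨n, ?_⟩
    have hn' : f x = f' x + n := hn
    rw [hn']; ring
  obtain ⟨n, hn⟩ := const9627 _ hc h1
  refine ⟨n, fun x => ?_⟩
  have := hn x
  linarith

theorem dR_int9627 {f : Equiv.Perm ℝ} (hf : f ∈ TT) (x : ℝ) (n : ℤ) : dR f (x + n) = dR f x := by
  induction n using Int.induction_on with
  | zero => simp
  | succ i ih =>
    rw [← ih, ← dR_add_one hf (x + ((i : ℤ) : ℝ))]
    congr 1
    push_cast
    ring
  | pred i ih =>
    rw [← ih, ← dR_add_one hf (x + ((-(i : ℤ) - 1 : ℤ) : ℝ))]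
    congr 1
    push_cast
    ring

theorem dL_int9627 {f : Equiv.Perm ℝ} (hf : f ∈ TT) (x : ℝ) (n : ℤ) : dL f (x + n) = dL f x := by
  induction n using Int.induction_on with
  | zero => simp
  | succ i ih =>
    rw [← ih, ← dL_add_one hf (x + ((i : ℤ) : ℝ))]
    congr 1
    push_cast
    ring
  | pred i ih =>
    rw [← ih, ← dL_add_one hf (x + ((-(i : ℤ) - 1 : ℤ) : ℝ))]
    congr 1
    push_cast
    ring

/-- translations by integers -/
theorem trans9627 (n : ℤ) : (Equiv.addRight (n : ℝ) : Equiv.Perm ℝ) ∈ TT := by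
  refine ⟨⟨fun x y h => ?_, fun x => ?_⟩, fun x => ?_⟩
  · show x + (n : ℝ) < y + (n : ℝ)
    linarith
  · have h := PLat_affine 0 (Dy.int n) x
    have h2 : (fun y : ℝ => (2 : ℝ) ^ (0 : ℤ) * y + (n : ℝ)) = (Equiv.addRight (n : ℝ) : Equiv.Perm ℝ) := by
      funext y
      show (2 : ℝ) ^ (0 : ℤ) * y + (n : ℝ) = y + (n : ℝ)
      rw [zpow_zero, one_mul]
    rwa [h2] at h
  · show x + 1 + (n : ℝ) = x + (n : ℝ) + 1
    ring

theorem fract9627 (x : ℝ) : ((Int.fract x : ℝ) : AddCircle (1 : ℝ)) = (x : AddCircle (1 : ℝ)) := by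
  have h := coe_add9627 (Int.fract x) ⌊x⌋
  rw [Int.fract_add_floor] at h
  exact h.symm

/-- slope cocycles on the circle -/
theorem exists_coc {A B : Equiv.Perm ℝ} (hA : A ∈ TT) (hB : B ∈ TT) :
    ∃ (X : Set (AddCircle (1 : ℝ))) (Dp Dm : GG hA hB → AddCircle (1 : ℝ) → ℤ)
      (v : AddCircle (1 : ℝ) → ℤ),
      (∀ (g h : GG hA hB) (x : AddCircle (1 : ℝ)), Dp (g * h) x = Dp g (h • x) + Dp h x) ∧
      (∀ (g h : GG hA hB) (x : AddCircle (1 : ℝ)), Dm (g * h) x = Dm g (h • x) + Dm h x) ∧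
      (∀ (g : GG hA hB) (x : AddCircle (1 : ℝ)), g • x ∈ X ↔ x ∈ X) ∧
      (∀ g : GG hA hB, {x | x ∈ X ∧ Dp g x ≠ v (g • x) - v x}.Finite) ∧
      (∀ g : GG hA hB, {x | x ∈ X ∧ Dm g x ≠ v (g • x) - v x}.Finite) ∧
      (∀ g : GG hA hB, (∃ x ∈ X, g • x = x) →
        (∀ x ∈ X, g • x = x → Dp g x = 0 ∧ Dm g x = 0) → g = 1) ∧
      (∀ x : ℝ, ((x : AddCircle (1 : ℝ)) ∈ X ↔ Dy x)) ∧
      (∀ (f : Equiv.Perm ℝ) (hf : f ∈ TT) (g : GG hA hB),
        (g : Equiv.Perm (AddCircle (1 : ℝ))) = cm ⟨f, TT_le_HT hf⟩ →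
        ∀ x : ℝ, Dp g x = dR f x ∧ Dm g x = dL f x) := by
  choose lf hlf hlg using fun g : GG hA hB => lift9627 hA hB g
  have hsurj : ∀ p : AddCircle (1 : ℝ), ∃ x : ℝ, (x : AddCircle (1 : ℝ)) = p := fun p =>
    QuotientAddGroup.mk_surjective p
  choose rp hrp using hsurj
  have hrpx : ∀ x : ℝ, ∃ n : ℤ, rp (x : AddCircle (1 : ℝ)) = x + n := fun x => coe_eq9627 (hrp _)
  have hX : ∀ x : ℝ, (Dy (rp (x : AddCircle (1 : ℝ))) ↔ Dy x) := by
    intro x
    obtain ⟨n, hn⟩ := hrpx x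
    rw [hn]
    constructor
    · intro h
      have h2 := h.sub (Dy.int n)
      rwa [add_sub_cancel_right] at h2
    · intro h
      exact h.add (Dy.int n)
  have hlast : ∀ (f : Equiv.Perm ℝ) (hf : f ∈ TT) (g : GG hA hB),
      (g : Equiv.Perm (AddCircle (1 : ℝ))) = cm ⟨f, TT_le_HT hf⟩ →
      ∀ x : ℝ, dR (lf g) (rp (x : AddCircle (1 : ℝ))) = dR f x ∧ dL (lf g) (rp (x : AddCircle (1 : ℝ))) = dL f x := by
    intro f hf g hg x
    obtain ⟨n, hn⟩ := hrpx x
    rw [hn, dR_int9627 (hlf g), dL_int9627 (hlf g)]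
    obtain ⟨m, hm⟩ := two9627 (hlf g) hf ((hlg g).symm.trans hg)
    have h1 : (lf g : ℝ → ℝ) = fun y => f y + m := funext hm
    rw [h1]
    exact ⟨dR_add_int hf.1 m x, dL_add_int hf.1 m x⟩
  have hact : ∀ (f : Equiv.Perm ℝ) (hf : f ∈ TT) (g : GG hA hB),
      (g : Equiv.Perm (AddCircle (1 : ℝ))) = cm ⟨f, TT_le_HT hf⟩ →
      ∀ x : ℝ, g • (x : AddCircle (1 : ℝ)) = ((f x : ℝ) : AddCircle (1 : ℝ)) := by
    intro f hf g hg x
    have h1 : g • (x : AddCircle (1 : ℝ)) = (g : Equiv.Perm (AddCircle (1 : ℝ))) (x : AddCircle (1 : ℝ)) := rfl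
    rw [h1, hg]
    exact cm_apply _ x
  have hv : ∀ x : ℝ, Dy x → vv (rp (x : AddCircle (1 : ℝ))) = vv x := by
    intro x hx
    obtain ⟨n, hn⟩ := hrpx x
    rw [hn]
    exact vv_add_int n hx
  have hmul : ∀ g h : GG hA hB, (lf g * lf h) ∈ TT := fun g h => TT.mul_mem (hlf g) (hlf h)
  have hmul2 : ∀ g h : GG hA hB, ((g * h : GG hA hB) : Equiv.Perm (AddCircle (1 : ℝ))) =
      cm ⟨lf g * lf h, TT_le_HT (hmul g h)⟩ := by
    intro g h
    have h1 : (⟨lf g * lf h, TT_le_HT (hmul g h)⟩ : HT) = ⟨lf g, TT_le_HT (hlf g)⟩ * ⟨lf h, TT_le_HT (hlf h)⟩ := rfl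
    rw [h1, map_mul, ← hlg g, ← hlg h]
    rfl
  refine ⟨{p | Dy (rp p)}, fun g p => dR (lf g) (rp p), fun g p => dL (lf g) (rp p), fun p => vv (rp p),
    ?_, ?_, ?_, ?_, ?_, ?_, hX, hlast⟩
  · intro g h p
    obtain ⟨x, rfl⟩ : ∃ x : ℝ, (x : AddCircle (1 : ℝ)) = p := ⟨rp p, hrp p⟩
    have e1 := (hlast _ (hmul g h) (g * h) (hmul2 g h) x).1
    have e2 := (hlast _ (hlf h) h (hlg h) x).1
    have e3 := (hlast _ (hlf g) g (hlg g) (lf h x)).1
    have e4 := hact _ (hlf h) h (hlg h) x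
    simp only [e1, e2, e4, e3]
    exact dR_mul (hlf g).1 (hlf h).1 x
  · intro g h p
    obtain ⟨x, rfl⟩ : ∃ x : ℝ, (x : AddCircle (1 : ℝ)) = p := ⟨rp p, hrp p⟩
    have e1 := (hlast _ (hmul g h) (g * h) (hmul2 g h) x).2
    have e2 := (hlast _ (hlf h) h (hlg h) x).2
    have e3 := (hlast _ (hlf g) g (hlg g) (lf h x)).2
    have e4 := hact _ (hlf h) h (hlg h) x
    simp only [e1, e2, e4, e3]
    exact dL_mul (hlf g).1 (hlf h).1 x
  · intro g p
    obtain ⟨x, rfl⟩ : ∃ x : ℝ, (x : AddCircle (1 : ℝ)) = p := ⟨rp p, hrp p⟩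
    rw [hact _ (hlf g) g (hlg g) x]
    show Dy (rp _) ↔ Dy (rp _)
    rw [hX, hX]
    exact ((hlf g).1.2 x).dy
  · intro g
    refine (((fin_R (hlf g).1 0 1).image (fun x : ℝ => (x : AddCircle (1 : ℝ))))).subset ?_
    rintro p ⟨hp1, hp2⟩
    obtain ⟨x, hx, rfl⟩ : ∃ x : ℝ, x ∈ Set.Ico (0 : ℝ) 1 ∧ (x : AddCircle (1 : ℝ)) = p :=
      ⟨Int.fract (rp p), ⟨Int.fract_nonneg _, Int.fract_lt_one _⟩, by rw [fract9627, hrp]⟩
    have hDx : Dy x := (hX x).1 hp1
    refine ⟨x, ⟨hDx, hx.1, hx.2.le, ?_⟩, rfl⟩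
    intro hcon
    apply hp2
    have e3 := (hlast _ (hlf g) g (hlg g) x).1
    have hDf : Dy (lf g x) := (((hlf g).1.2 x).dy).2 hDx
    show dR (lf g) (rp _) = vv (rp _) - vv (rp _)
    rw [e3, hact _ (hlf g) g (hlg g) x, hv _ hDf, hv _ hDx, hcon]
  · intro g
    refine (((fin_L (hlf g).1 0 1).image (fun x : ℝ => (x : AddCircle (1 : ℝ))))).subset ?_
    rintro p ⟨hp1, hp2⟩
    obtain ⟨x, hx, rfl⟩ : ∃ x : ℝ, x ∈ Set.Ico (0 : ℝ) 1 ∧ (x : AddCircle (1 : ℝ)) = p :=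
      ⟨Int.fract (rp p), ⟨Int.fract_nonneg _, Int.fract_lt_one _⟩, by rw [fract9627, hrp]⟩
    have hDx : Dy x := (hX x).1 hp1
    refine ⟨x, ⟨hDx, hx.1, hx.2.le, ?_⟩, rfl⟩
    intro hcon
    apply hp2
    have e3 := (hlast _ (hlf g) g (hlg g) x).2
    have hDf : Dy (lf g x) := (((hlf g).1.2 x).dy).2 hDx
    show dL (lf g) (rp _) = vv (rp _) - vv (rp _)
    rw [e3, hact _ (hlf g) g (hlg g) x, hv _ hDf, hv _ hDx, hcon]
  · rintro g ⟨p, hpX, hgp⟩ hall
    obtain ⟨y, rfl⟩ : ∃ x : ℝ, (x : AddCircle (1 : ℝ)) = p := ⟨rp p, hrp p⟩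
    have hDy : Dy y := (hX y).1 hpX
    have ha := hact _ (hlf g) g (hlg g)
    rw [ha y] at hgp
    obtain ⟨n, hn⟩ := coe_eq9627 hgp
    set f0 : Equiv.Perm ℝ := (Equiv.addRight ((-n : ℤ) : ℝ) : Equiv.Perm ℝ) * lf g with hf0
    have hf0T : f0 ∈ TT := TT.mul_mem (trans9627 (-n)) (hlf g)
    have hf0x : ∀ x, f0 x = lf g x + ((-n : ℤ) : ℝ) := fun x => rfl
    have hf0f : (f0 : ℝ → ℝ) = fun x => lf g x + ((-n : ℤ) : ℝ) := funext hf0x
    have hone : f0 = 1 := by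
      refine rigid hf0T.1 hDy ?_ ?_
      · rw [hf0x, hn]
        push_cast
        ring
      · intro x hDx hfx
        rw [hf0x] at hfx
        have h1 : lf g x = x + n := by
          push_cast at hfx
          linarith
        have h2 : g • (x : AddCircle (1 : ℝ)) = (x : AddCircle (1 : ℝ)) := by
          rw [ha x, h1, coe_add9627]
        have h3 := hall (x : AddCircle (1 : ℝ)) ((hX x).2 hDx) h2
        have e3 := hlast _ (hlf g) g (hlg g) x
        simp only [e3.1, e3.2] at h3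
        rw [hf0f, dR_add_int (hlf g).1, dL_add_int (hlf g).1]
        exact h3
    have hlfx : ∀ x, lf g x = x + n := by
      intro x
      have h1 := hf0x x
      rw [hone] at h1
      have h2 : (1 : Equiv.Perm ℝ) x = x := rfl
      rw [h2] at h1
      push_cast at h1
      linarith
    apply Subtype.ext
    ext q
    obtain ⟨x, rfl⟩ : ∃ x : ℝ, (x : AddCircle (1 : ℝ)) = q := ⟨rp q, hrp q⟩
    have h1 := ha x
    rw [hlfx, coe_add9627] at h1
    exact h1



/-! #### main -/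


/-- the contradiction for normalised lifts -/
theorem no_comm_aux {A B : Equiv.Perm ℝ} (hA : A ∈ TT) (hB : B ∈ TT)
    (hAB : ∀ x, A (B x) = B (A x) + 1 / 2) {p : ℝ} (hp : B p = p) : False := by
  classical
  obtain ⟨pm, pp, qm, qp, K⟩ := exists_geo (TT_le_HT hA) (TT_le_HT hB) hAB hp
  obtain ⟨a, b, r, IP, IQ, U, U', ha, hb, H, hIP⟩ :=
    exists_PP (A := ⟨A, TT_le_HT hA⟩) (B := ⟨B, TT_le_HT hB⟩) hAB K
  obtain ⟨X, Dp, Dm, v, c1, c2, c3, c4, c5, c6, hX, hD⟩ := exists_coc hA hB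
  have hrep : ∀ x : AddCircle (1 : ℝ), ∃ y ∈ Set.Ico pm (pm + 1), (y : AddCircle (1 : ℝ)) = x := by
    intro x
    have h := AddCircle.coe_image_Ico_eq (1 : ℝ) pm
    have hx : x ∈ ((fun y : ℝ => (y : AddCircle (1 : ℝ))) '' Set.Ico pm (pm + 1)) := by
      rw [h]; trivial
    exact hx
  choose rep hrep1 hrep2 using hrep
  have hmid : ∀ x, x ∉ IP → pm < rep x ∧ rep x < pp := by
    intro x hx
    rw [hIP] at hx
    obtain ⟨h1, h2⟩ := hrep1 x
    constructor
    · rcases lt_or_eq_of_le h1 with h | h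
      · exact h
      · exfalso
        apply hx
        refine ⟨pm + 1, ⟨K.le1, le_rfl⟩, ?_⟩
        show ((pm + 1 : ℝ) : AddCircle (1 : ℝ)) = x
        rw [h, AddCircle.coe_add_period]
        exact hrep2 x
    · by_contra h
      push Not at h
      exact hx ⟨rep x, ⟨h, h2.le⟩, hrep2 x⟩
  have hinj : Function.Injective rep := by
    intro x y h
    rw [← hrep2 x, ← hrep2 y, h]
  have KK : Coc a b r IP X Dp Dm v :=
    { cp := c1
      cm := c2
      inv := c3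
      fp := c4
      fm := c5
      rig := c6
      ne := by
        intro F hF hF'
        have ht := tele hB.1 K.lt (F.image rep) (by
          intro y hy
          rw [Finset.mem_image] at hy
          obtain ⟨x, hx, rfl⟩ := hy
          exact hmid x (hF x hx).2) (by
          intro y hy hy1 hy2 hne
          rw [Finset.mem_image]
          refine ⟨(y : AddCircle (1 : ℝ)), ?_, ?_⟩
          · apply hF' _ ((hX y).2 hy)
            · intro hin
              rw [hIP] at hin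
              obtain ⟨z, ⟨hz1, hz2⟩, hz⟩ := hin
              have hz' : (z : AddCircle (1 : ℝ)) = (y : AddCircle (1 : ℝ)) := hz
              have h1 : z ∈ Set.Ico y (y + 1) := ⟨by linarith, by linarith⟩
              have h2 : y ∈ Set.Ico y (y + 1) := ⟨le_rfl, by linarith⟩
              have := (AddCircle.coe_eq_coe_iff_of_mem_Ico h1 h2).1 hz'
              linarith
            · obtain ⟨e1, e2⟩ := hD B hB b hb y
              rw [e1, e2]
              exact hne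
          · have h1 := hrep1 (y : AddCircle (1 : ℝ))
            have h2 : y ∈ Set.Ico pm (pm + 1) := ⟨hy1.le, lt_of_lt_of_le hy2 K.le1⟩
            exact (AddCircle.coe_eq_coe_iff_of_mem_Ico h1 h2).1 (hrep2 _))
        rw [Finset.sum_image (fun x _ y _ h => hinj h)] at ht
        have hsum : ∑ x ∈ F, (Dp b x - Dm b x) = ∑ x ∈ F, (dR B (rep x) - dL B (rep x)) := by
          refine Finset.sum_congr rfl fun x _ => ?_
          obtain ⟨e1, e2⟩ := hD B hB b hb (rep x)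
          rw [hrep2] at e1 e2
          rw [e1, e2]
        rw [hsum, ht]
        have h1 := dR_neg_of_lt hB.1 K.lt K.Bpm K.down
        have h2 := dL_pos_of_lt hB.1 K.lt K.Bpp K.down
        omega }
  exact H.core KK



/-! #### nocomm -/


theorem tt_ht_9603 {A : Equiv.Perm ℝ} (hA : A ∈ TT) : A ∈ HT := ⟨hA.1.1, hA.2⟩

theorem shift_int_9603 {A : Equiv.Perm ℝ} (hA : A ∈ TT) (n : ℤ) : ∀ x : ℝ, A (x + n) = A x + n := by
  induction n using Int.induction_on with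
  | zero => intro x; simp
  | succ k ih =>
    intro x
    have h1 := hA.2 (x + (k : ℤ))
    push_cast at h1 ih ⊢
    rw [← add_assoc, h1, ih x]; ring
  | pred k ih =>
    intro x
    have h1 := hA.2 (x + ((-(k : ℤ) - 1 : ℤ) : ℝ))
    have h2 := ih x
    push_cast at h1 h2 ⊢
    have e : x + (-(k:ℝ) - 1) + 1 = x + -(k:ℝ) := by ring
    rw [e, h2] at h1
    linarith

theorem trans_9603 (n : ℤ) : (Equiv.addRight (n : ℝ) : Equiv.Perm ℝ) ∈ TT := by
  refine ⟨⟨?_, ?_⟩, ?_⟩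
  · intro x y h
    show x + (n:ℝ) < y + n
    linarith
  · intro x
    have := PLat_affine 0 (Dy.int n) x
    have e : (fun y : ℝ => (2:ℝ) ^ (0:ℤ) * y + (n:ℝ)) = (Equiv.addRight (n : ℝ) : Equiv.Perm ℝ) := by
      ext y
      show (2:ℝ) ^ (0:ℤ) * y + (n:ℝ) = y + n
      simp
    rw [e] at this
    exact this
  · intro x
    show x + 1 + (n:ℝ) = x + n + 1
    ring

theorem no_comm0_9603 {A B : Equiv.Perm ℝ} (hA : A ∈ TT) (hB : B ∈ TT)
    (hAB : ∀ x, A (B x) = B (A x) + 1 / 2) : False := by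
  obtain ⟨n, p, hp⟩ := exists_fix (tt_ht_9603 hA) (tt_ht_9603 hB) hAB
  have hB' : (Equiv.addRight ((-n : ℤ) : ℝ) : Equiv.Perm ℝ) * B ∈ TT := TT.mul_mem (trans_9603 (-n)) hB
  have hval : ∀ x, ((Equiv.addRight ((-n : ℤ) : ℝ) : Equiv.Perm ℝ) * B) x = B x + ((-n : ℤ) : ℝ) := fun x => rfl
  refine no_comm_aux hA hB' (fun x => ?_) (p := p) ?_
  · rw [hval, hval, shift_int_9603 hA, hAB]; ring
  · rw [hval, hp]; push_cast; ring

/-- the rotation by one half is not a commutator -/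
theorem no_comm {A B : Equiv.Perm ℝ} (hA : A ∈ TT) (hB : B ∈ TT) (h : ℤ)
    (hAB : ∀ x, A (B x) = B (A x) + h + 1 / 2) : False := by
  rcases shift_bound (tt_ht_9603 hA) (tt_ht_9603 hB) h hAB with h0 | h0
  · subst h0
    exact no_comm0_9603 hA hB (fun x => by have := hAB x; push_cast at this; linarith)
  · subst h0
    exact no_comm0_9603 hB hA (fun x => by have := hAB x; push_cast at this; linarith)



end Pool.Agent.Helper283.TL
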