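import Mathlib
import Pool.Agent.Helper283.ThV.CommV

set_option autoImplicit false
set_option linter.unusedVariables false
set_option linter.deprecated false

namespace Pool.Agent.Helper283.ThV

/-! #### v1 -/


/-- the real number with the given binary digits -/
noncomputable def be (x : C) : ℝ := ∑' i : ℕ, (if x i then (1 : ℝ) else 0) / 2 ^ (i + 1)

/-- infinite words which are not eventually `true` -/
def C0 : Set C := {x | ∀ n, ∃ m, n ≤ m ∧ x m = false}

/-- left endpoint of the standard interval of a word -/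
noncomputable def lo (w : List Bool) : ℝ := be (app w (fun _ => false))

/-- the generating set of the real model of `V` (exactly as in the frozen statement) -/
def VSet : Set (Equiv.Perm ℝ) := {σ : Equiv.Perm ℝ |
        (∀ x : ℝ, x ∉ Set.Ico (0:ℝ) 1 → σ x = x) ∧
        ∃ n : ℕ, ∃ a : ℕ → ℝ, ∃ k : ℕ → ℤ, ∃ c : ℕ → ℝ,
          a 0 = 0 ∧ a n = 1 ∧ (∀ i < n, a i < a (i + 1)) ∧
          (∀ i ≤ n, ∃ m : ℤ, ∃ e : ℕ, a i = (m : ℝ) / 2 ^ e) ∧
          (∀ i < n, ∃ m : ℤ, ∃ e : ℕ, c i = (m : ℝ) / 2 ^ e) ∧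
          ∀ i < n, ∀ x ∈ Set.Ico (a i) (a (i + 1)), σ x = (2:ℝ) ^ (k i) * x + c i}

theorem summable_10334 (x : C) : Summable (fun i : ℕ => (if x i then (1 : ℝ) else 0) / 2 ^ (i + 1)) := by
  refine Summable.of_nonneg_of_le (fun i => by positivity) (fun i => ?_) summable_geometric_two
  have h2 : (0 : ℝ) < 2 ^ i := by positivity
  rw [one_div, inv_pow, div_eq_mul_inv]
  have h3 : ((2 : ℝ) ^ (i + 1))⁻¹ ≤ ((2 : ℝ) ^ i)⁻¹ := by
    apply inv_anti₀ h2
    rw [pow_succ]; linarith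
  split_ifs
  · simpa using h3
  · simp

theorem be_nonneg_10334 (x : C) : 0 ≤ be x := tsum_nonneg (fun i => by positivity)

theorem be_false_10334 : be (fun _ => false) = 0 := by
  unfold be
  simp

theorem tsum_10334 : (∑' i : ℕ, (1 : ℝ) / 2 ^ (i + 1)) = 1 := by
  have h := tsum_geometric_two
  rw [Summable.tsum_eq_zero_add summable_geometric_two] at h
  have e : (∑' i : ℕ, (1 : ℝ) / 2 ^ (i + 1)) = ∑' i : ℕ, ((1 : ℝ) / 2) ^ (i + 1) := by
    congr 1; funext i; rw [div_pow, one_pow]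
  rw [e]
  simp only [pow_zero] at h
  linarith

theorem summable1_10334 : Summable (fun i : ℕ => (1 : ℝ) / 2 ^ (i + 1)) := by
  have := summable_10334 (fun _ => true)
  simpa using this

theorem be_true_10334 : be (fun _ => true) = 1 := by
  unfold be
  simpa using tsum_10334

theorem be_le_one_10334 (x : C) : be x ≤ 1 := by
  rw [← tsum_10334]
  refine Summable.tsum_le_tsum (fun i => ?_) (summable_10334 x) summable1_10334
  apply div_le_div_of_nonneg_right _ (by positivity)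
  split_ifs <;> norm_num

theorem be_lt_one_10334 {x : C} (hx : x ∈ C0) : be x < 1 := by
  obtain ⟨m, -, hm⟩ := hx 0
  rw [← tsum_10334]
  refine Summable.tsum_lt_tsum (i := m) (fun i => ?_) ?_ (summable_10334 x) summable1_10334
  · apply div_le_div_of_nonneg_right _ (by positivity)
    split_ifs <;> norm_num
  · rw [hm]
    simp

theorem be_cons_10334 (b : Bool) (w : List Bool) (y : C) :
    be (app (b :: w) y) = ((if b then (1 : ℝ) else 0) + be (app w y)) / 2 := by
  unfold be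
  rw [Summable.tsum_eq_zero_add (summable_10334 _)]
  have h0 : app (b :: w) y 0 = b := by simp [app]
  have h1 : ∀ i, app (b :: w) y (i + 1) = app w y i := by
    intro i
    by_cases h : i < w.length
    · rw [app_lt (by simpa using h), app_lt h]; simp
    · push Not at h
      rw [app_ge (by simpa using h), app_ge h]
      congr 1
      simp
  rw [h0]
  have h2 : (∑' i : ℕ, (if app (b :: w) y (i + 1) then (1 : ℝ) else 0) / 2 ^ (i + 1 + 1)) =
      (∑' i : ℕ, (if app w y i then (1 : ℝ) else 0) / 2 ^ (i + 1)) / 2 := by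
    rw [← tsum_div_const]
    congr 1
    funext i
    rw [h1, pow_succ _ (i + 1), div_mul_eq_div_div]
  rw [h2]
  ring

theorem lo_nil_10334 : lo [] = 0 := by
  unfold lo
  rw [app_nil, be_false_10334]

theorem lo_cons_10334 (b : Bool) (w : List Bool) :
    lo (b :: w) = ((if b then (1 : ℝ) else 0) + lo w) / 2 := by
  unfold lo
  exact be_cons_10334 b w _

theorem be_app (w : List Bool) (y : C) : be (app w y) = lo w + be y / 2 ^ w.length := by
  induction w with
  | nil => rw [app_nil, lo_nil_10334]; simp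
  | cons b w ih =>
    rw [be_cons_10334, ih, lo_cons_10334, List.length_cons, pow_succ]
    field_simp
    ring

theorem app_C0 {w : List Bool} {y : C} : app w y ∈ C0 ↔ y ∈ C0 := by
  constructor
  · intro h n
    obtain ⟨m, hm, hm2⟩ := h (n + w.length)
    refine ⟨m - w.length, by omega, ?_⟩
    rw [app_ge (by omega)] at hm2
    exact hm2
  · intro h n
    obtain ⟨m, hm, hm2⟩ := h n
    refine ⟨m + w.length, by omega, ?_⟩
    rw [app_add]
    exact hm2

theorem lo_eq (w : List Bool) : ∃ m : ℕ, m < 2 ^ w.length ∧ lo w = m / 2 ^ w.length := by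
  induction w with
  | nil => exact ⟨0, by simp, by rw [lo_nil_10334]; simp⟩
  | cons b w ih =>
    obtain ⟨m, hm, hlo⟩ := ih
    rw [List.length_cons]
    cases b with
    | false =>
      refine ⟨m, by rw [pow_succ]; omega, ?_⟩
      rw [lo_cons_10334, hlo, pow_succ]
      simp only [Bool.false_eq_true, if_false]
      field_simp
      ring
    | true =>
      refine ⟨m + 2 ^ w.length, by rw [pow_succ]; omega, ?_⟩
      rw [lo_cons_10334, hlo, pow_succ]
      simp only [if_true]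
      push_cast
      field_simp
      ring

/-- every standard dyadic number is the left endpoint of a word of the given length -/
theorem exists_word (n m : ℕ) (h : m < 2 ^ n) : ∃ w : List Bool, w.length = n ∧ lo w = m / 2 ^ n := by
  induction n generalizing m with
  | zero =>
    have : m = 0 := by simpa using h
    subst this
    exact ⟨[], rfl, by rw [lo_nil_10334]; simp⟩
  | succ n ih =>
    by_cases hm : m < 2 ^ n
    · obtain ⟨w, hw, hlo⟩ := ih m hm
      refine ⟨false :: w, by simp [hw], ?_⟩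
      rw [lo_cons_10334, hlo, pow_succ]
      simp only [Bool.false_eq_true, if_false]
      field_simp
      ring
    · push Not at hm
      rw [pow_succ] at h
      obtain ⟨w, hw, hlo⟩ := ih (m - 2 ^ n) (by omega)
      refine ⟨true :: w, by simp [hw], ?_⟩
      rw [lo_cons_10334, hlo, pow_succ, Nat.cast_sub hm]
      simp only [if_true]
      push_cast
      field_simp
      ring

theorem lo_lt_one_10334 (w : List Bool) : 0 ≤ lo w ∧ lo w < 1 := by
  obtain ⟨m, hm, h⟩ := lo_eq w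
  rw [h]
  constructor
  · positivity
  · rw [div_lt_one (by positivity)]
    exact_mod_cast hm

theorem lo_inj {w w' : List Bool} (h : w.length = w'.length) (h' : lo w = lo w') : w = w' := by
  induction w generalizing w' with
  | nil =>
    cases w' with
    | nil => rfl
    | cons b u => simp at h
  | cons b u ih =>
    cases w' with
    | nil => simp at h
    | cons b' u' =>
      rw [lo_cons_10334, lo_cons_10334] at h'
      have h1 := lo_lt_one_10334 u
      have h2 := lo_lt_one_10334 u'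
      have hl : u.length = u'.length := by simpa using h
      have hb : b = b' := by
        cases b <;> cases b' <;> simp at h' ⊢ <;> linarith
      subst hb
      rw [ih hl (by linarith)]

theorem mem_V_C0 {e : Equiv.Perm C} (he : e ∈ V) {x : C} : e x ∈ C0 ↔ x ∈ C0 := by
  obtain ⟨n, v, h⟩ := mem_V.1 he x
  rw [h x (mem_Cyl_self x n), app_C0]
  conv_rhs => rw [← app_tk_sh n x]
  rw [app_C0]

theorem split_10334 (n : ℕ) (x : C) : be x = lo (tk n x) + be (sh n x) / 2 ^ n := by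
  have h := be_app (tk n x) (sh n x)
  rw [app_tk_sh, length_tk] at h
  exact h

theorem sh_C0_10334 {n : ℕ} {x : C} (h : x ∈ C0) : sh n x ∈ C0 := by
  rw [← app_tk_sh n x] at h
  exact app_C0.1 h

theorem tk_succ_10334 (n : ℕ) (x : C) : tk (n + 1) x = tk n x ++ [x n] := by
  unfold tk
  rw [List.ofFn_succ_last]
  simp

theorem lo_snoc_10334 (w : List Bool) (b : Bool) :
    lo (w ++ [b]) = lo w + (if b then (1 : ℝ) else 0) / 2 ^ (w.length + 1) := by
  have h : lo (w ++ [b]) = be (app w (app [b] (fun _ => false))) := by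
    unfold lo
    rw [app_app]
  rw [h, be_app, be_cons_10334, app_nil, be_false_10334, pow_succ]
  ring

/-- the binary digits of a real number -/
noncomputable def dig_10334 (r : ℝ) : C := fun i => decide (⌊2 ^ (i + 1) * r⌋ % 2 = 1)

theorem lo_dig_10334 {r : ℝ} (hr : r ∈ Set.Ico (0 : ℝ) 1) (n : ℕ) :
    lo (tk n (dig_10334 r)) = ⌊2 ^ n * r⌋ / 2 ^ n := by
  induction n with
  | zero =>
    have h0 : ⌊(2 : ℝ) ^ 0 * r⌋ = 0 := by
      rw [Int.floor_eq_zero_iff]
      simpa using hr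
    rw [h0]
    have : tk 0 (dig_10334 r) = [] := by simp [tk]
    rw [this, lo_nil_10334]
    simp
  | succ n ih =>
    rw [tk_succ_10334, lo_snoc_10334, ih, length_tk]
    have h1 : ⌊(2 : ℝ) ^ (n + 1) * r⌋ = 2 * ⌊(2 : ℝ) ^ n * r⌋ ∨
        ⌊(2 : ℝ) ^ (n + 1) * r⌋ = 2 * ⌊(2 : ℝ) ^ n * r⌋ + 1 := by
      have a1 := Int.floor_le ((2 : ℝ) ^ n * r)
      have a2 := Int.lt_floor_add_one ((2 : ℝ) ^ n * r)
      have e : (2 : ℝ) ^ (n + 1) * r = 2 * (2 ^ n * r) := by ring
      rw [e]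
      have b1 : 2 * ⌊(2 : ℝ) ^ n * r⌋ ≤ ⌊2 * ((2 : ℝ) ^ n * r)⌋ := by
        rw [Int.le_floor]; push_cast; linarith
      have b2 : ⌊2 * ((2 : ℝ) ^ n * r)⌋ < 2 * ⌊(2 : ℝ) ^ n * r⌋ + 2 := by
        rw [Int.floor_lt]; push_cast; linarith
      omega
    rcases h1 with h1 | h1
    · have hd : dig_10334 r n = false := by
        unfold dig_10334
        rw [h1]
        simp
      rw [hd, h1]
      push_cast
      try simp only [Bool.false_eq_true, if_false]
      rw [pow_succ]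
      field_simp
      ring
    · have hd : dig_10334 r n = true := by
        unfold dig_10334
        rw [h1]
        simp
      rw [hd, h1]
      push_cast
      simp only [if_true]
      rw [pow_succ]
      field_simp

theorem be_bij : Set.BijOn be C0 (Set.Ico (0 : ℝ) 1) := by
  refine ⟨fun x hx => ⟨be_nonneg_10334 x, be_lt_one_10334 hx⟩, ?_, ?_⟩
  · intro x hx x' hx' hxx
    have key : ∀ n, tk n x = tk n x' := by
      intro n
      apply lo_inj (by rw [length_tk, length_tk])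
      have e1 := split_10334 n x
      have e2 := split_10334 n x'
      obtain ⟨m, hm, hlo⟩ := lo_eq (tk n x)
      obtain ⟨m', hm', hlo'⟩ := lo_eq (tk n x')
      rw [length_tk] at hlo hlo'
      have s1 := be_nonneg_10334 (sh n x)
      have s2 := be_nonneg_10334 (sh n x')
      have t1 := be_lt_one_10334 (sh_C0_10334 (n := n) hx)
      have t2 := be_lt_one_10334 (sh_C0_10334 (n := n) hx')
      have hp : (0 : ℝ) < 2 ^ n := by positivity
      have hxx' : be x = be x' := hxx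
      rw [hxx', e2, hlo, hlo'] at e1
      have e3 : (m' : ℝ) + be (sh n x') = m + be (sh n x) := by
        field_simp at e1
        linarith
      have h1 : (m' : ℝ) < m + 1 := by linarith
      have h2 : (m : ℝ) < m' + 1 := by linarith
      have h3 : m' < m + 1 := by exact_mod_cast h1
      have h4 : m < m' + 1 := by exact_mod_cast h2
      have h5 : m = m' := by omega
      rw [hlo, hlo', h5]
    funext i
    have h1 := key (i + 1)
    have h2 := getElem_tk (i + 1) x i (by rw [length_tk]; omega)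
    have h3 := getElem_tk (i + 1) x' i (by rw [length_tk]; omega)
    rw [← h2, ← h3]
    simp only [h1]
  · intro r hr
    have hbe : be (dig_10334 r) = r := by
      have h1 : ∀ n : ℕ, |be (dig_10334 r) - r| ≤ (1 / 2) ^ n := by
        intro n
        rw [split_10334 n, lo_dig_10334 hr]
        have s1 := be_nonneg_10334 (sh n (dig_10334 r))
        have s2 := be_le_one_10334 (sh n (dig_10334 r))
        have a1 := Int.floor_le ((2 : ℝ) ^ n * r)
        have a2 := Int.lt_floor_add_one ((2 : ℝ) ^ n * r)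
        have hp : (0 : ℝ) < 2 ^ n := by positivity
        have e : (⌊(2 : ℝ) ^ n * r⌋ : ℝ) / 2 ^ n + be (sh n (dig_10334 r)) / 2 ^ n - r =
            (⌊(2 : ℝ) ^ n * r⌋ + be (sh n (dig_10334 r)) - 2 ^ n * r) / 2 ^ n := by
          field_simp
        rw [e, abs_div, abs_of_pos hp, one_div, inv_pow, div_eq_mul_inv]
        have : |(⌊(2 : ℝ) ^ n * r⌋ : ℝ) + be (sh n (dig_10334 r)) - 2 ^ n * r| ≤ 1 := by
          rw [abs_le]
          constructor <;> linarith
        calc _ ≤ 1 * ((2 : ℝ) ^ n)⁻¹ := mul_le_mul_of_nonneg_right this (by positivity)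
          _ = _ := one_mul _
      have h2 : |be (dig_10334 r) - r| ≤ 0 :=
        ge_of_tendsto' (tendsto_pow_atTop_nhds_zero_of_lt_one (by norm_num) (by norm_num)) h1
      have h3 := abs_nonneg (be (dig_10334 r) - r)
      have h4 : be (dig_10334 r) - r = 0 := abs_eq_zero.1 (le_antisymm h2 h3)
      linarith
    refine ⟨dig_10334 r, ?_, hbe⟩
    intro n
    by_contra hcon
    push Not at hcon
    have hsh : sh n (dig_10334 r) = fun _ => true := by
      funext i
      have h5 := hcon (i + n) (by omega)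
      show dig_10334 r (i + n) = true
      cases h6 : dig_10334 r (i + n) with
      | true => rfl
      | false => exact absurd h6 h5
    have h1 := split_10334 n (dig_10334 r)
    rw [hbe, lo_dig_10334 hr, hsh, be_true_10334] at h1
    have a2 := Int.lt_floor_add_one ((2 : ℝ) ^ n * r)
    have hp : (0 : ℝ) < 2 ^ n := by positivity
    have h2 : (2 : ℝ) ^ n * r = ⌊(2 : ℝ) ^ n * r⌋ + 1 := by
      have h3 : (2 : ℝ) ^ n * r = 2 ^ n * ((⌊(2 : ℝ) ^ n * r⌋ : ℝ) / 2 ^ n + 1 / 2 ^ n) := by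
        rw [← h1]
      rw [h3]
      conv_rhs => rw [← h3]
      field_simp
    linarith


/-! #### v2 -/


/-- the inverse of `be` on the standard interval -/
noncomputable def di10335 (r : ℝ) : C := Function.invFunOn be C0 r

theorem di_mem10335 {r : ℝ} (hr : r ∈ Set.Ico (0:ℝ) 1) : di10335 r ∈ C0 :=
  Function.invFunOn_mem (be_bij.surjOn hr)

theorem be_di10335 {r : ℝ} (hr : r ∈ Set.Ico (0:ℝ) 1) : be (di10335 r) = r :=
  Function.invFunOn_eq (be_bij.surjOn hr)

theorem di_be10335 {x : C} (hx : x ∈ C0) : di10335 (be x) = x :=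
  be_bij.injOn (di_mem10335 (be_bij.mapsTo hx)) hx (be_di10335 (be_bij.mapsTo hx))

open Classical in
/-- the real map of an element of `V` -/
noncomputable def FV10335 (e : V) (r : ℝ) : ℝ :=
  if r ∈ Set.Ico (0:ℝ) 1 then be ((e : Equiv.Perm C) (di10335 r)) else r

theorem FV_in10335 (e : V) {r : ℝ} (hr : r ∈ Set.Ico (0:ℝ) 1) :
    FV10335 e r = be ((e : Equiv.Perm C) (di10335 r)) := if_pos hr

theorem FV_out10335 (e : V) {r : ℝ} (hr : r ∉ Set.Ico (0:ℝ) 1) : FV10335 e r = r := if_neg hr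

theorem FV_mem10335 (e : V) {r : ℝ} (hr : r ∈ Set.Ico (0:ℝ) 1) :
    FV10335 e r ∈ Set.Ico (0:ℝ) 1 := by
  rw [FV_in10335 e hr]
  exact be_bij.mapsTo ((mem_V_C0 e.2).2 (di_mem10335 hr))

theorem FV_mul10335 (e f : V) (r : ℝ) : FV10335 (e * f) r = FV10335 e (FV10335 f r) := by
  by_cases hr : r ∈ Set.Ico (0:ℝ) 1
  · rw [FV_in10335 e (FV_mem10335 f hr), FV_in10335 f hr, FV_in10335 _ hr,
      di_be10335 ((mem_V_C0 f.2).2 (di_mem10335 hr))]
    rfl
  · rw [FV_out10335 f hr, FV_out10335 e hr, FV_out10335 _ hr]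

theorem FV_one10335 (r : ℝ) : FV10335 1 r = r := by
  by_cases hr : r ∈ Set.Ico (0:ℝ) 1
  · rw [FV_in10335 _ hr]
    exact be_di10335 hr
  · rw [FV_out10335 _ hr]

/-- the real permutation of an element of `V` -/
noncomputable def PV10335 (e : V) : Equiv.Perm ℝ where
  toFun := FV10335 e
  invFun := FV10335 e⁻¹
  left_inv := fun r => by rw [← FV_mul10335, inv_mul_cancel, FV_one10335]
  right_inv := fun r => by rw [← FV_mul10335, mul_inv_cancel, FV_one10335]

theorem piece10335 (e : V) (n : ℕ) (w v : List Bool) (j : ℕ) (hj : j < 2 ^ n) (hwl : w.length = n)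
    (hlo : lo w = j / 2 ^ n)
    (hv : ∀ y ∈ Cyl (app w (fun _ => false)) n, (e : Equiv.Perm C) y = app v (sh n y)) (x : ℝ)
    (hx : x ∈ Set.Ico ((j : ℝ) / 2 ^ n) (((j + 1 : ℕ) : ℝ) / 2 ^ n)) :
    FV10335 e x = (2:ℝ) ^ ((n : ℤ) - (v.length : ℤ)) * x + (lo v - j / 2 ^ v.length) := by
  have hpos : (0:ℝ) < 2 ^ n := by positivity
  have hx01 : x ∈ Set.Ico (0:ℝ) 1 := by
    refine ⟨le_trans (by positivity) hx.1, lt_of_lt_of_le hx.2 ?_⟩
    rw [div_le_one hpos]
    exact_mod_cast hj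
  have hy0 := di_mem10335 hx01
  have hbe := be_di10335 hx01
  set y := di10335 x with hy
  have hdec := app_tk_sh n y
  have hsC0 : sh n y ∈ C0 := by
    rw [← hdec] at hy0
    exact app_C0.1 hy0
  have hb01 := be_bij.mapsTo hsC0
  have hsum : x = lo (tk n y) + be (sh n y) / 2 ^ n := by
    rw [← hbe]
    conv_lhs => rw [← hdec]
    rw [be_app, length_tk]
  obtain ⟨m, hm, hlom⟩ := lo_eq (tk n y)
  rw [length_tk] at hm hlom
  rw [hlom] at hsum
  have h1 : (j : ℝ) ≤ x * 2 ^ n := by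
    have := hx.1
    rwa [div_le_iff₀ hpos] at this
  have h2 : x * 2 ^ n < (j : ℝ) + 1 := by
    have := hx.2
    rw [lt_div_iff₀ hpos] at this
    push_cast at this
    exact this
  have h3 : x * 2 ^ n = m + be (sh n y) := by
    rw [hsum]
    field_simp
  have h4 : m = j := by
    have a1 : (j : ℝ) < (m : ℝ) + 1 := by linarith [hb01.2]
    have a2 : (m : ℝ) < (j : ℝ) + 1 := by linarith [hb01.1]
    have a3 : j < m + 1 := by exact_mod_cast a1
    have a4 : m < j + 1 := by exact_mod_cast a2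
    omega
  subst h4
  have h5 : tk n y = w := lo_inj (by rw [length_tk, hwl]) (by rw [hlom, hlo])
  have hmem : y ∈ Cyl (app w (fun _ => false)) n := by
    have : y ∈ Cyl (app w (fun _ => false)) w.length := by
      rw [mem_Cyl_app]
      exact ⟨sh n y, by rw [← h5, hdec]⟩
    rwa [hwl] at this
  rw [FV_in10335 e hx01, ← hy, hv y hmem, be_app]
  have h6 : be (sh n y) = x * 2 ^ n - m := by linarith
  rw [h6, zpow_sub₀ (by norm_num : (2:ℝ) ≠ 0), zpow_natCast, zpow_natCast]
  ring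

/-- the real model of the action of `V` -/
theorem exists_Psi : ∃ Ψ : V →* Equiv.Perm ℝ,
    (∀ (e : V) (x : C), x ∈ C0 → Ψ e (be x) = be ((e : Equiv.Perm C) x)) ∧
    (∀ (e : V) (r : ℝ), r ∉ Set.Ico (0 : ℝ) 1 → Ψ e r = r) ∧ (∀ e : V, Ψ e ∈ VSet) := by
  refine ⟨⟨⟨PV10335, ?_⟩, ?_⟩, ?_, ?_, ?_⟩
  · ext r
    exact FV_one10335 r
  · intro e f
    ext r
    exact FV_mul10335 e f r
  · intro e x hx
    show FV10335 e (be x) = _
    rw [FV_in10335 e (be_bij.mapsTo hx), di_be10335 hx]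
  · intro e r hr
    exact FV_out10335 e hr
  · intro e
    refine ⟨fun r hr => FV_out10335 e hr, ?_⟩
    obtain ⟨n, hn⟩ := Loc.uniform e.2
    have hex : ∀ j : ℕ, j < 2 ^ n → ∃ w v : List Bool, w.length = n ∧ lo w = j / 2 ^ n ∧
        ∀ y ∈ Cyl (app w (fun _ => false)) n, (e : Equiv.Perm C) y = app v (sh n y) := by
      intro j hj
      obtain ⟨w, hw1, hw2⟩ := exists_word n j hj
      obtain ⟨v, hv⟩ := hn (app w (fun _ => false))
      exact ⟨w, v, hw1, hw2, hv⟩
    choose! w v h1 h2 h3 using hex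
    have hpos : (0:ℝ) < 2 ^ n := by positivity
    refine ⟨2 ^ n, fun j => (j : ℝ) / 2 ^ n, fun j => (n : ℤ) - ((v j).length : ℤ),
      fun j => lo (v j) - j / 2 ^ (v j).length, ?_, ?_, ?_, ?_, ?_, ?_⟩
    · simp
    · show (((2 ^ n : ℕ) : ℝ)) / 2 ^ n = 1
      push_cast
      exact div_self hpos.ne'
    · intro j _
      show (j : ℝ) / 2 ^ n < ((j + 1 : ℕ) : ℝ) / 2 ^ n
      push_cast
      gcongr
      linarith
    · intro j _
      exact ⟨j, n, by push_cast; rfl⟩
    · intro j _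
      obtain ⟨m, -, hm⟩ := lo_eq (v j)
      refine ⟨(m : ℤ) - j, (v j).length, ?_⟩
      show lo (v j) - j / 2 ^ (v j).length = _
      rw [hm]
      push_cast
      ring
    · intro j hj x hx
      exact piece10335 e n (w j) (v j) j hj (h1 j hj) (h2 j hj) (h3 j hj) x hx



/-! #### v3 -/


theorem aux_take_10336 {p q : List Bool} {y y' : C} (h : app p y = app q y')
    (hl : p.length ≤ q.length) : ∃ u, q = p ++ u ∧ y = app u y' := by
  have htake : q.take p.length = p := by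
    refine List.ext_getElem (by simp [hl]) fun i h1 h2 => ?_
    rw [List.getElem_take]
    have h3 := congrFun h i
    rw [app_lt h2, app_lt (lt_of_lt_of_le h2 hl)] at h3
    exact h3.symm
  have hq : q = p ++ q.drop p.length := by
    conv_lhs => rw [← List.take_append_drop p.length q, htake]
  refine ⟨q.drop p.length, hq, ?_⟩
  rw [hq, app_app] at h
  exact app_inj p h

theorem aux_tk_10336 {w : List Bool} {N : ℕ} (hw : w.length = N) (y : C) :
    tk N (app w y) = w := by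
  refine List.ext_getElem (by rw [length_tk, hw]) fun i h1 h2 => ?_
  rw [getElem_tk, app_lt h2]

theorem aux_sh_10336 {w : List Bool} {N : ℕ} (hw : w.length = N) (y : C) :
    sh N (app w y) = y := by
  rw [← hw, sh_app]

theorem aux_zero_10336 : (fun _ => false : C) ∈ C0 := fun n => ⟨n, le_rfl, rfl⟩

theorem aux_be_zero_10336 : be (fun _ => false : C) = 0 := by
  have h := be_app [true] (fun _ => false)
  have h1 : be (app [true] (fun _ => false)) = lo [true] := rfl
  rw [h1] at h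
  have h2 : be (fun _ => false : C) / 2 ^ ([true] : List Bool).length = 0 := by linarith
  rcases div_eq_zero_iff.1 h2 with h3 | h3
  · exact h3
  · exact absurd h3 (by positivity)

/-- the common exponent -/
theorem aux_N_10336 {n : ℕ} {a : ℕ → ℝ} {k : ℕ → ℤ} {c : ℕ → ℝ}
    (ha : ∀ i ≤ n, ∃ m : ℤ, ∃ e : ℕ, a i = (m : ℝ) / 2 ^ e)
    (hc : ∀ i < n, ∃ m : ℤ, ∃ e : ℕ, c i = (m : ℝ) / 2 ^ e) :
    ∃ N : ℕ, (∀ i ≤ n, ∃ m : ℤ, a i = (m : ℝ) / 2 ^ N) ∧
      ∀ i < n, ∃ (L : ℕ) (m : ℤ), (L : ℤ) = N - k i ∧ c i = (m : ℝ) / 2 ^ L := by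
  choose! m1 e1 h1 using ha
  choose! m2 e2 h2 using hc
  obtain ⟨N, hN⟩ : ∃ N, N = ∑ i ∈ Finset.range (n + 1), (e1 i + e2 i + (k i).natAbs) := ⟨_, rfl⟩
  have hle : ∀ i ≤ n, e1 i + e2 i + (k i).natAbs ≤ N := by
    intro i hi
    rw [hN]
    exact Finset.single_le_sum (f := fun i => e1 i + e2 i + (k i).natAbs)
      (fun _ _ => Nat.zero_le _) (Finset.mem_range.2 (by omega))
  refine ⟨N, fun i hi => ?_, fun i hi => ?_⟩
  · have h3 := hle i hi
    obtain ⟨j, hj⟩ := Nat.exists_eq_add_of_le (show e1 i ≤ N by omega)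
    refine ⟨m1 i * 2 ^ j, ?_⟩
    rw [h1 i hi, hj, pow_add]
    push_cast
    field_simp
  · have h3 := hle i hi.le
    obtain ⟨L, hL⟩ : ∃ L : ℕ, (L : ℤ) = N - k i := ⟨(N - k i).toNat, by
      rw [Int.toNat_of_nonneg]; omega⟩
    have h4 : e2 i ≤ L := by omega
    obtain ⟨j, hj⟩ := Nat.exists_eq_add_of_le h4
    refine ⟨L, m2 i * 2 ^ j, hL, ?_⟩
    rw [h2 i hi, hj, pow_add]
    push_cast
    field_simp

/-- the replacement of one word -/
theorem aux_word_10336 {σ : Equiv.Perm ℝ} (hpres : ∀ r ∈ Set.Ico (0 : ℝ) 1, σ r ∈ Set.Ico (0 : ℝ) 1)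
    {n : ℕ} {a : ℕ → ℝ} {k : ℕ → ℤ} {c : ℕ → ℝ} (ha0 : a 0 = 0) (han : a n = 1)
    (hσ : ∀ i < n, ∀ x ∈ Set.Ico (a i) (a (i + 1)), σ x = (2:ℝ) ^ (k i) * x + c i) {N : ℕ}
    (hN1 : ∀ i ≤ n, ∃ m : ℤ, a i = (m : ℝ) / 2 ^ N)
    (hN2 : ∀ i < n, ∃ (L : ℕ) (m : ℤ), (L : ℤ) = N - k i ∧ c i = (m : ℝ) / 2 ^ L)
    (w : List Bool) (hw : w.length = N) :
    ∃ v : List Bool, ∀ y ∈ C0, σ (be (app w y)) = be (app v y) := by
  obtain ⟨mw, hmw1, hmw2⟩ := lo_eq w
  rw [hw] at hmw1 hmw2
  have h2N : (0 : ℝ) < 2 ^ N := by positivity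
  have hlo0 : 0 ≤ lo w := by rw [hmw2]; positivity
  have hlo1 : lo w < 1 := by
    rw [hmw2, div_lt_one h2N]; exact_mod_cast hmw1
  have hfind : ∀ j ≤ n, lo w < a j → ∃ i < j, a i ≤ lo w ∧ lo w < a (i + 1) := by
    intro j
    induction j with
    | zero => intro _ h; rw [ha0] at h; linarith
    | succ j ih =>
      intro hj h
      by_cases h1 : lo w < a j
      · obtain ⟨i, hi, h2, h3⟩ := ih (by omega) h1
        exact ⟨i, by omega, h2, h3⟩
      · exact ⟨j, by omega, not_lt.1 h1, h⟩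
  obtain ⟨i, hi, hai1, hai2⟩ := hfind n le_rfl (by rw [han]; exact hlo1)
  obtain ⟨M, hM⟩ := hN1 (i + 1) (by omega)
  obtain ⟨L, m', hL, hm'⟩ := hN2 i hi
  have hend : lo w + 1 / 2 ^ N ≤ a (i + 1) := by
    rw [hmw2, hM] at hai2 ⊢
    rw [div_lt_div_iff_of_pos_right h2N] at hai2
    have h1 : (mw : ℤ) < M := by exact_mod_cast hai2
    have h2 : ((mw : ℤ) + 1 : ℤ) ≤ M := h1
    have h3 : (mw : ℝ) + 1 ≤ M := by exact_mod_cast h2
    rw [← add_div]
    exact div_le_div_of_nonneg_right h3 h2N.le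
  have h2L : (0 : ℝ) < 2 ^ L := by positivity
  have hpow : (2 : ℝ) ^ (k i) = 2 ^ N / 2 ^ L := by
    have h1 : k i = (N : ℤ) - (L : ℤ) := by omega
    rw [h1, zpow_sub₀ (by norm_num), zpow_natCast, zpow_natCast]
  have hform : ∀ y ∈ C0, σ (be (app w y)) = ((mw : ℝ) + m') / 2 ^ L + be y / 2 ^ L := by
    intro y hy
    have hy1 := be_bij.mapsTo hy
    have h1 : be (app w y) = lo w + be y / 2 ^ N := by rw [be_app, hw]
    have h2 : be (app w y) ∈ Set.Ico (a i) (a (i + 1)) := by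
      rw [h1]
      constructor
      · have : 0 ≤ be y / 2 ^ N := div_nonneg hy1.1 h2N.le
        linarith
      · have : be y / 2 ^ N < 1 / 2 ^ N := div_lt_div_of_pos_right hy1.2 h2N
        linarith
    rw [hσ i hi _ h2, h1, hpow, hm', hmw2]
    field_simp
    ring
  have h0 := hform _ aux_zero_10336
  rw [aux_be_zero_10336, zero_div, add_zero] at h0
  have h1 : be (app w (fun _ => false)) ∈ Set.Ico (0 : ℝ) 1 :=
    be_bij.mapsTo (app_C0.2 aux_zero_10336)
  have h2 := hpres _ h1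
  rw [h0] at h2
  have h3 : (0 : ℝ) ≤ (mw : ℝ) + m' := by
    have := h2.1
    rw [le_div_iff₀ h2L] at this
    linarith
  have h4 : (mw : ℝ) + m' < 2 ^ L := by
    have := h2.2
    rw [div_lt_one h2L] at this
    exact this
  have h3' : (0 : ℤ) ≤ (mw : ℤ) + m' := by exact_mod_cast h3
  have h4' : (mw : ℤ) + m' < 2 ^ L := by exact_mod_cast h4
  obtain ⟨M', hM'⟩ := Int.eq_ofNat_of_zero_le h3'
  have h5 : M' < 2 ^ L := by
    rw [hM'] at h4'
    exact_mod_cast h4'
  obtain ⟨v, hv1, hv2⟩ := exists_word L M' h5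
  refine ⟨v, fun y hy => ?_⟩
  rw [hform y hy, be_app, hv1, hv2]
  congr 2
  have h6 : ((((mw : ℤ) + m' : ℤ)) : ℝ) = ((M' : ℤ) : ℝ) := by rw [hM']
  push_cast at h6
  exact h6

/-- every element of `VSet` comes from `V` -/
theorem exists_of_VSet {σ : Equiv.Perm ℝ} (hσ : σ ∈ VSet) :
    ∃ e ∈ V, ∀ x ∈ C0, σ (be x) = be (e x) := by
  obtain ⟨hfix, n, a, k, c, ha0, han, -, hda, hdc, hσ⟩ := hσ
  have hpres : ∀ r ∈ Set.Ico (0 : ℝ) 1, σ r ∈ Set.Ico (0 : ℝ) 1 := by
    intro r hr
    by_contra h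
    have h1 := σ.injective (hfix _ h)
    rw [h1] at h
    exact h hr
  have hsurj : ∀ s ∈ Set.Ico (0 : ℝ) 1, ∃ r ∈ Set.Ico (0 : ℝ) 1, σ r = s := by
    intro s hs
    refine ⟨σ.symm s, ?_, σ.apply_symm_apply s⟩
    by_contra h
    have h1 := hfix _ h
    rw [σ.apply_symm_apply] at h1
    rw [← h1] at h
    exact h hs
  obtain ⟨N, hN1, hN2⟩ := aux_N_10336 (k := k) hda hdc
  have hword := fun w hw => aux_word_10336 hpres ha0 han hσ hN1 hN2 w hw
  choose! v hv using hword
  obtain ⟨f, hf⟩ : ∃ f : C → C, ∀ x, f x = app (v (tk N x)) (sh N x) := ⟨_, fun _ => rfl⟩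
  have hfapp : ∀ (w : List Bool) (y : C), w.length = N → f (app w y) = app (v w) y := by
    intro w y hw
    rw [hf, aux_tk_10336 hw, aux_sh_10336 hw]
  have hshC0 : ∀ x ∈ C0, sh N x ∈ C0 := by
    intro x hx
    rw [← app_tk_sh N x] at hx
    exact app_C0.1 hx
  have hfσ : ∀ x ∈ C0, σ (be x) = be (f x) := by
    intro x hx
    rw [hf, ← hv (tk N x) (length_tk N x) (sh N x) (hshC0 x hx), app_tk_sh]
  have hfC0 : ∀ x ∈ C0, f x ∈ C0 := by
    intro x hx
    rw [hf]
    exact app_C0.2 (hshC0 x hx)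
  have hinjC0 : ∀ x ∈ C0, ∀ x' ∈ C0, f x = f x' → x = x' := by
    intro x hx x' hx' h
    have h1 : σ (be x) = σ (be x') := by rw [hfσ x hx, hfσ x' hx', h]
    exact be_bij.injOn hx hx' (σ.injective h1)
  have hsurjC0 : ∀ x ∈ C0, ∃ z ∈ C0, f z = x := by
    intro x hx
    obtain ⟨r, hr, hr'⟩ := hsurj (be x) (be_bij.mapsTo hx)
    obtain ⟨z, hz, rfl⟩ := be_bij.surjOn hr
    refine ⟨z, hz, ?_⟩
    rw [hfσ z hz] at hr'
    exact be_bij.injOn (hfC0 z hz) hx hr'
  -- injectivity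
  have key : ∀ x x', f x = f x' → (v (tk N x)).length ≤ (v (tk N x')).length → x = x' := by
    intro x x' h hl
    rw [hf, hf] at h
    obtain ⟨u, hu1, hu2⟩ := aux_take_10336 h hl
    have h1 : f (app (tk N x) (app u (fun _ => false))) = f (app (tk N x') (fun _ => false)) := by
      rw [hfapp _ _ (length_tk N x), hfapp _ _ (length_tk N x'), hu1, app_app]
    have h2 := hinjC0 _ (app_C0.2 (app_C0.2 aux_zero_10336)) _ (app_C0.2 aux_zero_10336) h1
    have h3 := congrArg (tk N) h2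
    rw [aux_tk_10336 (length_tk N x), aux_tk_10336 (length_tk N x')] at h3
    rw [h3] at h
    have h4 := app_inj _ h
    rw [← app_tk_sh N x, ← app_tk_sh N x', h3, h4]
  have hinj : Function.Injective f := by
    intro x x' h
    rcases le_total (v (tk N x)).length (v (tk N x')).length with hl | hl
    · exact key x x' h hl
    · exact (key x' x h.symm hl).symm
  -- surjectivity
  obtain ⟨L, hL⟩ : ∃ L : ℕ, ∀ w : List Bool, w.length = N → (v w).length ≤ L := by
    have hfin := (List.finite_length_eq Bool N).image (fun w => (v w).length)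
    obtain ⟨L, hL⟩ := hfin.bddAbove
    exact ⟨L, fun w hw => hL ⟨w, hw, rfl⟩⟩
  have hsur : Function.Surjective f := by
    intro x
    obtain ⟨z, hz, hzx⟩ := hsurjC0 (app (tk L x) (fun _ => false)) (app_C0.2 aux_zero_10336)
    rw [hf] at hzx
    have hl : (v (tk N z)).length ≤ (tk L x).length := by
      rw [length_tk]; exact hL _ (length_tk N z)
    obtain ⟨u, hu1, hu2⟩ := aux_take_10336 hzx hl
    refine ⟨app (tk N z) (app u (sh L x)), ?_⟩
    rw [hfapp _ _ (length_tk N z), ← app_app, ← hu1, app_tk_sh]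
  have hLoc : Loc f := by
    intro x
    refine ⟨N, v (tk N x), fun y hy => ?_⟩
    rw [hf, tk_eq hy]
  obtain ⟨e, he, hex⟩ := exists_perm ⟨hinj, hsur⟩ hLoc
  refine ⟨e, he, fun x hx => ?_⟩
  rw [hex, hfσ x hx]



/-! #### v4 -/


theorem range10342 {Ψ : V →* Equiv.Perm ℝ}
    (h1 : ∀ (e : V) (x : C), x ∈ C0 → Ψ e (be x) = be ((e : Equiv.Perm C) x))
    (h2 : ∀ (e : V) (r : ℝ), r ∉ Set.Ico (0 : ℝ) 1 → Ψ e r = r)
    {σ : Equiv.Perm ℝ} (hσ : σ ∈ VSet) : ∃ e : V, Ψ e = σ := by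
  obtain ⟨e, he, hx⟩ := exists_of_VSet hσ
  refine ⟨⟨e, he⟩, Equiv.ext fun r => ?_⟩
  by_cases hr : r ∈ Set.Ico (0 : ℝ) 1
  · obtain ⟨x, hxC, rfl⟩ := be_bij.surjOn hr
    rw [h1 _ x hxC, hx x hxC]
  · rw [h2 _ r hr, hσ.1 r hr]

/-- the flip of the first letter -/
def flip10342 : Equiv.Perm C :=
  Function.Involutive.toPerm (fun (x : C) (i : ℕ) => if i = 0 then !(x 0) else x i) (by
    intro x
    funext i
    by_cases hi : i = 0
    · subst hi; simp
    · simp [hi])

theorem flip_apply10342 (x : C) (i : ℕ) :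
    flip10342 x i = if i = 0 then !(x 0) else x i := rfl

theorem flip_mem10342 : flip10342 ∈ V := by
  rw [mem_V]
  intro x
  refine ⟨1, [!(x 0)], fun y hy => ?_⟩
  have hy0 : y 0 = x 0 := hy 0 (by norm_num)
  funext i
  rw [flip_apply10342]
  by_cases hi : i = 0
  · subst hi
    rw [if_pos rfl, app_lt (by simp), hy0]
    rfl
  · rw [if_neg hi, app_ge (by simp; omega)]
    simp only [sh, List.length_cons, List.length_nil]
    congr 1; omega

theorem VSet_group : ∃ H : Subgroup (Equiv.Perm ℝ), (H : Set (Equiv.Perm ℝ)) = VSet := by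
  obtain ⟨Ψ, h1, h2, h3⟩ := exists_Psi
  refine ⟨Ψ.range, ?_⟩
  ext σ
  constructor
  · rintro ⟨e, rfl⟩
    exact h3 e
  · intro hσ
    obtain ⟨e, he⟩ := range10342 h1 h2 hσ
    exact ⟨e, he⟩

theorem closure_VSet : ((Subgroup.closure VSet : Subgroup (Equiv.Perm ℝ)) : Set (Equiv.Perm ℝ)) = VSet := by
  obtain ⟨H, hH⟩ := VSet_group
  rw [← hH, Subgroup.closure_eq]

/-- every element of the real model of `V` is a commutator -/
theorem comm_VSet (hV : ∀ g : Equiv.Perm C, g ∈ V → ∃ a ∈ V, ∃ b ∈ V, g = a⁻¹ * b⁻¹ * a * b)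
    {σ : Equiv.Perm ℝ} (hσ : σ ∈ VSet) :
    ∃ a ∈ VSet, ∃ b ∈ VSet, σ = a * b * a⁻¹ * b⁻¹ := by
  obtain ⟨Ψ, h1, h2, h3⟩ := exists_Psi
  obtain ⟨e, rfl⟩ := range10342 h1 h2 hσ
  obtain ⟨a, ha, b, hb, hab⟩ := hV e e.2
  refine ⟨Ψ (⟨a, ha⟩⁻¹), h3 _, Ψ (⟨b, hb⟩⁻¹), h3 _, ?_⟩
  rw [← map_inv, ← map_inv, ← map_mul, ← map_mul, ← map_mul]
  congr 1
  apply Subtype.ext
  show (e : Equiv.Perm C) = a⁻¹ * b⁻¹ * a⁻¹⁻¹ * b⁻¹⁻¹
  rw [inv_inv, inv_inv]
  exact hab

theorem VSet_nontrivial : ∃ σ ∈ VSet, σ ≠ 1 := by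
  obtain ⟨Ψ, h1, h2, h3⟩ := exists_Psi
  refine ⟨Ψ ⟨flip10342, flip_mem10342⟩, h3 _, fun h => ?_⟩
  have hx : (fun _ => false : C) ∈ C0 := fun n => ⟨n, le_rfl, rfl⟩
  have h4 := h1 ⟨flip10342, flip_mem10342⟩ _ hx
  rw [h] at h4
  have h5 : be (fun _ => false : C) = be (flip10342 (fun _ => false : C)) := h4
  have h6 := be_bij.injOn hx ((mem_V_C0 flip_mem10342).2 hx) h5
  have h7 := congrFun h6 0
  rw [flip_apply10342] at h7
  simp at h7



/-- every element of the real model of `V` is a commutator -/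
theorem comm_VSet' {σ : Equiv.Perm ℝ} (hσ : σ ∈ VSet) :
    ∃ a ∈ VSet, ∃ b ∈ VSet, σ = a * b * a⁻¹ * b⁻¹ :=
  comm_VSet (fun _ hg => comm_V hg) hσ

end Pool.Agent.Helper283.ThV
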