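import Mathlib
import Pool.Agent.Helper283.ThV.PLF
import Pool.Agent.Helper283.ThV.VReal
import Pool.Agent.Helper283.ThV.TLMain

set_option autoImplicit false
set_option linter.unusedVariables false
set_option linter.deprecated false

namespace Pool.Agent.Helper283.PL

/-! #### r2 -/


/-- finite partition description on `[u, v)` -/
def Part10609 (e : ℝ → ℝ) (u v : ℝ) : Prop :=
  ∃ n : ℕ, ∃ a : ℕ → ℝ, ∃ k : ℕ → ℤ, ∃ c : ℕ → ℝ,
    a 0 = u ∧ a n = v ∧ (∀ i < n, a i < a (i + 1)) ∧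
    (∀ i ≤ n, Dy (a i)) ∧ (∀ i < n, Dy (c i)) ∧
    ∀ i < n, ∀ x ∈ Set.Ico (a i) (a (i + 1)), e x = (2:ℝ) ^ (k i) * x + c i

theorem part_nil_10609 (e : ℝ → ℝ) (u : ℝ) (hu : Dy u) : Part10609 e u u :=
  ⟨0, fun _ => u, fun _ => 0, fun _ => 0, rfl, rfl, by intro i hi; omega,
    by intro i _; exact hu, by intro i hi; omega, by intro i hi; omega⟩

theorem part_snoc_10609 (e : ℝ → ℝ) (u v w : ℝ) (h : Part10609 e u v) (hvw : v < w) (hw : Dy w)
    (k : ℤ) (c : ℝ) (hc : Dy c) (he : ∀ x, v ≤ x → x < w → e x = (2:ℝ) ^ k * x + c) :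
    Part10609 e u w := by
  obtain ⟨n, a, kk, cc, h0, hn, hlt, hdy, hdc, hx⟩ := h
  refine ⟨n + 1, fun i => if i ≤ n then a i else w, fun i => if i < n then kk i else k,
    fun i => if i < n then cc i else c, ?_, ?_, ?_, ?_, ?_, ?_⟩
  · simp [h0]
  · simp
  · intro i hi
    by_cases h1 : i < n
    · simp only [if_pos h1.le, if_pos (Nat.succ_le_of_lt h1)]
      exact hlt i h1
    · have : i = n := by omega
      subst this
      simp [hn, hvw]
  · intro i hi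
    by_cases h1 : i ≤ n
    · simp only [if_pos h1]
      exact hdy i h1
    · simp only [if_neg h1]
      exact hw
  · intro i hi
    by_cases h1 : i < n
    · simp only [if_pos h1]
      exact hdc i h1
    · simp only [if_neg h1]
      exact hc
  · intro i hi x hxi
    by_cases h1 : i < n
    · simp only [if_pos h1.le, if_pos (Nat.succ_le_of_lt h1), if_pos h1] at hxi ⊢
      exact hx i h1 x hxi
    · have h2 : i = n := by omega
      subst h2
      simp only [le_refl, if_true, hn, Nat.not_succ_le_self, if_false, lt_self_iff_false] at hxi ⊢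
      exact he x hxi.1 hxi.2

/-- local description with a uniform radius -/
def Loc10609 (e : ℝ → ℝ) (x ε : ℝ) : Prop :=
  (Dy x ∧ (∃ (k : ℤ) (c : ℝ), Dy c ∧ ∀ y, x ≤ y → y < x + ε → e y = (2:ℝ) ^ k * y + c) ∧
    (∃ (k : ℤ) (c : ℝ), Dy c ∧ ∀ y, x - ε < y → y ≤ x → e y = (2:ℝ) ^ k * y + c)) ∨
  (∃ (k : ℤ) (c : ℝ), Dy c ∧ ∀ y, x - ε < y → y < x + ε → e y = (2:ℝ) ^ k * y + c)

theorem loc_exists_10609 (e : ℝ → ℝ) (he : PLf e) (x : ℝ) : ∃ ε > 0, Loc10609 e x ε := by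
  obtain ⟨h1, h2, h3⟩ := he x
  by_cases hx : Dy x
  · obtain ⟨k, c, hc, ε, hε, h⟩ := h1
    obtain ⟨k', c', hc', ε', hε', h'⟩ := h2
    refine ⟨min ε ε', lt_min hε hε', Or.inl ⟨hx, ⟨k, c, hc, ?_⟩, ⟨k', c', hc', ?_⟩⟩⟩
    · intro y hy hy'
      exact h y hy (by linarith [min_le_left ε ε'])
    · intro y hy hy'
      exact h' y (by linarith [min_le_right ε ε']) hy'
  · obtain ⟨k, c, ⟨hc, ε, hε, h⟩, ⟨_, ε', hε', h'⟩⟩ := h3 hx
    refine ⟨min ε ε', lt_min hε hε', Or.inr ⟨k, c, hc, ?_⟩⟩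
    intro y hy hy'
    rcases le_total x y with h4 | h4
    · exact h y h4 (by linarith [min_le_left ε ε'])
    · exact h' y (by linarith [min_le_right ε ε']) h4

theorem part_step_10609 (e : ℝ → ℝ) (u v w x ε : ℝ) (h : Part10609 e u v) (hv : Dy v)
    (hw : Dy w) (hvw : v < w) (hloc : Loc10609 e x ε) (h1 : x - ε < v) (h2 : w < x + ε) :
    Part10609 e u w := by
  rcases hloc with ⟨hx, ⟨k, c, hc, hr⟩, ⟨k', c', hc', hl⟩⟩ | ⟨k, c, hc, hh⟩
  · rcases le_or_gt x v with h3 | h3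
    · exact part_snoc_10609 e u v w h hvw hw k c hc
        (fun y hy hy' => hr y (by linarith) (by linarith))
    · rcases le_or_gt w x with h4 | h4
      · exact part_snoc_10609 e u v w h hvw hw k' c' hc'
          (fun y hy hy' => hl y (by linarith) (by linarith))
      · have h5 : Part10609 e u x := part_snoc_10609 e u v x h h3 hx k' c' hc'
          (fun y hy hy' => hl y (by linarith) (by linarith))
        exact part_snoc_10609 e u x w h5 h4 hw k c hc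
          (fun y hy hy' => hr y (by linarith) (by linarith))
  · exact part_snoc_10609 e u v w h hvw hw k c hc
      (fun y hy hy' => hh y (by linarith) (by linarith))

theorem part_all_10609 (e : ℝ → ℝ) (he : PLf e) : Part10609 e 0 1 := by
  choose ε hε hloc using loc_exists_10609 e he
  obtain ⟨δ, hδ, hd⟩ := lebesgue_number_lemma_of_metric (s := Set.Icc (0:ℝ) 1)
    (c := fun x : ℝ => Metric.ball x (ε x)) isCompact_Icc (fun x => Metric.isOpen_ball)
    (fun x _ => Set.mem_iUnion.mpr ⟨x, Metric.mem_ball_self (hε x)⟩)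
  obtain ⟨N, hN⟩ := exists_pow_lt_of_lt_one hδ (show (1/2 : ℝ) < 1 by norm_num)
  have hp : (0:ℝ) < 2 ^ N := by positivity
  have hN' : 1 / (2:ℝ) ^ N < δ := by
    rw [one_div, ← inv_pow, ← one_div]
    exact hN
  have hdyj : ∀ j : ℕ, Dy ((j : ℝ) / 2 ^ N) := fun j => ⟨j, N, by push_cast; rfl⟩
  have key : ∀ j : ℕ, j ≤ 2 ^ N → Part10609 e 0 ((j : ℝ) / 2 ^ N) := by
    intro j
    induction j with
    | zero =>
      intro _
      simpa using part_nil_10609 e 0 Dy.zero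
    | succ j ih =>
      intro hj
      have h1 := ih (by omega)
      have hj' : ((j : ℝ) + 1) ≤ 2 ^ N := by exact_mod_cast hj
      have hmem : (j : ℝ) / 2 ^ N ∈ Set.Icc (0:ℝ) 1 := by
        constructor
        · positivity
        · rw [div_le_one hp]; linarith
      obtain ⟨x, hx⟩ := hd _ hmem
      have e1 : (((j + 1 : ℕ) : ℝ)) / 2 ^ N = (j : ℝ) / 2 ^ N + 1 / 2 ^ N := by
        push_cast; ring
      have hlt : (j : ℝ) / 2 ^ N < ((j + 1 : ℕ) : ℝ) / 2 ^ N := by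
        rw [e1]
        have : 0 < 1 / (2:ℝ) ^ N := by positivity
        linarith
      have m1 : (j : ℝ) / 2 ^ N ∈ Metric.ball x (ε x) := hx (Metric.mem_ball_self hδ)
      have m2 : ((j + 1 : ℕ) : ℝ) / 2 ^ N ∈ Metric.ball x (ε x) := by
        apply hx
        rw [Metric.mem_ball, Real.dist_eq, e1, add_sub_cancel_left, abs_of_pos (by positivity)]
        exact hN'
      rw [Metric.mem_ball, Real.dist_eq, abs_lt] at m1 m2
      exact part_step_10609 e 0 _ _ x (ε x) h1 (hdyj j) (hdyj (j + 1)) hlt (hloc x)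
        (by linarith [m1.1]) (by linarith [m2.2])
  have := key (2 ^ N) le_rfl
  rwa [Nat.cast_pow, Nat.cast_ofNat, div_self hp.ne'] at this

theorem Sup_sub_V_10609 (e : Equiv.Perm ℝ) (he : e ∈ Sup 0 1) : e ∈ ThV.VSet := by
  obtain ⟨n, a, k, c, h0, h1, hlt, hdy, hdc, hx⟩ := part_all_10609 e he.1.2
  refine ⟨?_, n, a, k, c, h0, h1, hlt, hdy, hdc, hx⟩
  intro x hx
  apply he.2
  rw [Set.mem_Ico, not_and_or, not_le, not_lt] at hx
  rcases hx with h | h
  · exact Or.inl h.le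
  · exact Or.inr h

theorem V_sub_Sup_10609 (σ : Equiv.Perm ℝ) (hσ : σ ∈ ThV.VSet)
    (hm : StrictMonoOn (⇑σ) (Set.Ico (0:ℝ) 1)) : σ ∈ Sup 0 1 := by
  obtain ⟨hout, n, a, k, c, h0, h1, hlt, hdy, hdc, hx⟩ := hσ
  have hin : ∀ x ∈ Set.Ico (0:ℝ) 1, σ x ∈ Set.Ico (0:ℝ) 1 := by
    intro x hx
    by_contra h
    have h2 := hout (σ x) h
    have h3 := σ.injective h2
    rw [h3] at h
    exact h hx
  have hmono : StrictMono σ := by
    intro x y hxy
    by_cases hx1 : x ∈ Set.Ico (0:ℝ) 1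
    · by_cases hy1 : y ∈ Set.Ico (0:ℝ) 1
      · exact hm hx1 hy1 hxy
      · rw [hout y hy1]
        have h3 := hin x hx1
        have : 1 ≤ y := by
          by_contra h4
          exact hy1 ⟨by linarith [hx1.1], by linarith⟩
        linarith [h3.2]
    · rw [hout x hx1]
      by_cases hy1 : y ∈ Set.Ico (0:ℝ) 1
      · have h3 := hin y hy1
        have : x < 0 := by
          by_contra h4
          exact hx1 ⟨by linarith, by linarith [hy1.2]⟩
        linarith [h3.1]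
      · rw [hout y hy1]
        exact hxy
  have hcont : Continuous σ := hmono.monotone.continuous_of_surjective σ.surjective
  have hle0 : ∀ x ≤ 0, σ x = x := by
    have hE : Set.EqOn σ (fun x => x) (Set.Iio 0) := by
      intro x hx
      exact hout x (by rintro ⟨h, _⟩; exact absurd hx (not_lt.mpr h))
    have hE2 := hE.closure hcont continuous_id
    rw [closure_Iio] at hE2
    intro x hx
    exact hE2 hx
  have hge1 : ∀ x, 1 ≤ x → σ x = x := by
    intro x hx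
    exact hout x (by rintro ⟨_, h⟩; exact absurd h (not_lt.mpr hx))
  have hpc : ∀ i < n, ∀ x, a i ≤ x → x ≤ a (i + 1) → σ x = (2:ℝ) ^ (k i) * x + c i := by
    intro i hi
    have hE : Set.EqOn σ (fun x => (2:ℝ) ^ (k i) * x + c i) (Set.Ico (a i) (a (i + 1))) :=
      fun x hx' => hx i hi x hx'
    have hE2 := hE.closure hcont (by fun_prop)
    rw [closure_Ico (hlt i hi).ne] at hE2
    intro x h2 h3
    exact hE2 ⟨h2, h3⟩
  -- locating
  have hfindR : ∀ x, 0 ≤ x → x < 1 → ∃ i < n, a i ≤ x ∧ x < a (i + 1) := by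
    classical
    intro x hx0 hx1
    have hex : ∃ m, x < a m := ⟨n, by rw [h1]; exact hx1⟩
    have hs := Nat.find_spec hex
    have hle : Nat.find hex ≤ n := Nat.find_min' hex (by rw [h1]; exact hx1)
    have hne : Nat.find hex ≠ 0 := by
      intro h
      rw [h, h0] at hs
      linarith
    obtain ⟨i, hi⟩ := Nat.exists_eq_succ_of_ne_zero hne
    refine ⟨i, by omega, ?_, ?_⟩
    · have := Nat.find_min hex (show i < Nat.find hex by omega)
      exact not_lt.mp this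
    · rw [hi] at hs
      exact hs
  have hfindL : ∀ x, 0 < x → x ≤ 1 → ∃ i < n, a i < x ∧ x ≤ a (i + 1) := by
    classical
    intro x hx0 hx1
    have hex : ∃ m, x ≤ a m := ⟨n, by rw [h1]; exact hx1⟩
    have hs := Nat.find_spec hex
    have hle : Nat.find hex ≤ n := Nat.find_min' hex (by rw [h1]; exact hx1)
    have hne : Nat.find hex ≠ 0 := by
      intro h
      rw [h, h0] at hs
      linarith
    obtain ⟨i, hi⟩ := Nat.exists_eq_succ_of_ne_zero hne
    refine ⟨i, by omega, ?_, ?_⟩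
    · have := Nat.find_min hex (show i < Nat.find hex by omega)
      exact not_le.mp this
    · rw [hi] at hs
      exact hs
  refine ⟨⟨hmono, ?_⟩, ?_⟩
  · intro x
    refine ⟨?_, ?_, ?_⟩
    · -- right germ
      rcases lt_or_ge x 0 with h | h
      · refine ⟨0, 0, Dy.zero, -x, by linarith, ?_⟩
        intro y hy hy'
        rw [hle0 y (by linarith)]
        simp
      · rcases lt_or_ge x 1 with h' | h'
        · obtain ⟨i, hi, h2, h3⟩ := hfindR x h h'
          refine ⟨k i, c i, hdc i hi, a (i + 1) - x, by linarith, ?_⟩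
          intro y hy hy'
          exact hpc i hi y (by linarith) (by linarith)
        · refine ⟨0, 0, Dy.zero, 1, by norm_num, ?_⟩
          intro y hy hy'
          rw [hge1 y (by linarith)]
          simp
    · -- left germ
      rcases le_or_gt x 0 with h | h
      · refine ⟨0, 0, Dy.zero, 1, by norm_num, ?_⟩
        intro y hy hy'
        rw [hle0 y (by linarith)]
        simp
      · rcases le_or_gt x 1 with h' | h'
        · obtain ⟨i, hi, h2, h3⟩ := hfindL x h h'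
          refine ⟨k i, c i, hdc i hi, x - a i, by linarith, ?_⟩
          intro y hy hy'
          exact hpc i hi y (by linarith) (by linarith)
        · refine ⟨0, 0, Dy.zero, x - 1, by linarith, ?_⟩
          intro y hy hy'
          rw [hge1 y (by linarith)]
          simp
    · -- two-sided germ
      intro hnd
      rcases lt_or_ge x 0 with h | h
      · refine ⟨0, 0, ⟨Dy.zero, -x, by linarith, ?_⟩, ⟨Dy.zero, 1, by norm_num, ?_⟩⟩
        · intro y hy hy'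
          rw [hle0 y (by linarith)]
          simp
        · intro y hy hy'
          rw [hle0 y (by linarith)]
          simp
      · rcases lt_or_ge x 1 with h' | h'
        · obtain ⟨i, hi, h2, h3⟩ := hfindR x h h'
          have h4 : a i < x := by
            rcases h2.lt_or_eq with h5 | h5
            · exact h5
            · exact absurd (h5 ▸ hdy i hi.le) hnd
          refine ⟨k i, c i, ⟨hdc i hi, a (i + 1) - x, by linarith, ?_⟩,
            ⟨hdc i hi, x - a i, by linarith, ?_⟩⟩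
          · intro y hy hy'
            exact hpc i hi y (by linarith) (by linarith)
          · intro y hy hy'
            exact hpc i hi y (by linarith) (by linarith)
        · have h4 : 1 < x := by
            rcases h'.lt_or_eq with h5 | h5
            · exact h5
            · exact absurd (h5 ▸ Dy.one) hnd
          refine ⟨0, 0, ⟨Dy.zero, 1, by norm_num, ?_⟩, ⟨Dy.zero, x - 1, by linarith, ?_⟩⟩
          · intro y hy hy'
            rw [hge1 y (by linarith)]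
            simp
          · intro y hy hy'
            rw [hge1 y (by linarith)]
            simp
  · rintro x (h | h)
    · exact hle0 x h
    · exact hge1 x h

/-- the real model of `F` -/
theorem F_eq : Subgroup.closure {σ : Equiv.Perm ℝ |
    σ ∈ Subgroup.closure ThV.VSet ∧ StrictMonoOn (⇑σ) (Set.Ico (0:ℝ) 1)} = Sup 0 1 := by
  have hset : {σ : Equiv.Perm ℝ |
      σ ∈ Subgroup.closure ThV.VSet ∧ StrictMonoOn (⇑σ) (Set.Ico (0:ℝ) 1)} =
      ((Sup 0 1 : Subgroup (Equiv.Perm ℝ)) : Set (Equiv.Perm ℝ)) := by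
    ext σ
    have hcl : σ ∈ Subgroup.closure ThV.VSet ↔ σ ∈ ThV.VSet := by
      rw [← SetLike.mem_coe, ThV.closure_VSet]
    rw [Set.mem_setOf_eq, hcl, SetLike.mem_coe]
    constructor
    · rintro ⟨h, h'⟩
      exact V_sub_Sup_10609 σ h h'
    · intro h
      exact ⟨Sup_sub_V_10609 σ h, h.1.1.strictMonoOn _⟩
  rw [hset, Subgroup.closure_eq]



/-! #### r3 -/


theorem PLat_congr10622 {f g : ℝ → ℝ} {x δ : ℝ} (hδ : 0 < δ)
    (h : ∀ y, x - δ < y → y < x + δ → f y = g y) (hf : PLat f x) : PLat g x := by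
  have hR : ∀ k c, RG f x k c → RG g x k c := by
    rintro k c ⟨hc, ε, hε, hy⟩
    refine ⟨hc, min ε δ, lt_min hε hδ, fun y h1 h2 => ?_⟩
    rw [← h y (by linarith) (by linarith [min_le_right ε δ])]
    exact hy y h1 (by linarith [min_le_left ε δ])
  have hL : ∀ k c, LG f x k c → LG g x k c := by
    rintro k c ⟨hc, ε, hε, hy⟩
    refine ⟨hc, min ε δ, lt_min hε hδ, fun y h1 h2 => ?_⟩
    rw [← h y (by linarith [min_le_right ε δ]) (by linarith)]
    exact hy y (by linarith [min_le_left ε δ]) h2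
  obtain ⟨⟨k, c, h1⟩, ⟨k', c', h2⟩, h3⟩ := hf
  refine ⟨⟨k, c, hR _ _ h1⟩, ⟨k', c', hL _ _ h2⟩, fun hx => ?_⟩
  obtain ⟨k, c, h4, h5⟩ := h3 hx
  exact ⟨k, c, hR _ _ h4, hL _ _ h5⟩

/-- values at the integers -/
noncomputable def VV10622 (n : ℤ) : ℝ := if n ≤ 0 then (2 : ℝ) ^ (n - 1) else 1 - (2 : ℝ) ^ (-(n + 1))

/-- slopes -/
def kk10622 (n : ℤ) : ℤ := if n < 0 then n - 1 else -(n + 2)

/-- the chart from the line onto the open unit interval -/
noncomputable def Lam10622 (x : ℝ) : ℝ :=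
  VV10622 ⌊x⌋ + (2 : ℝ) ^ (kk10622 ⌊x⌋) * (x - ⌊x⌋)

theorem VV_succ10622 (n : ℤ) : VV10622 (n + 1) = VV10622 n + (2 : ℝ) ^ (kk10622 n) := by
  unfold VV10622 kk10622
  rcases lt_trichotomy n 0 with h | h | h
  · rw [if_pos (by omega), if_pos (by omega), if_pos h]
    have : (2 : ℝ) ^ (n + 1 - 1) = 2 * (2 : ℝ) ^ (n - 1) := by
      rw [show n + 1 - 1 = (n - 1) + 1 by ring, zpow_add₀ (by norm_num), zpow_one]; ring
    rw [this]; ring
  · subst h
    norm_num [zpow_neg, zpow_ofNat]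
  · rw [if_neg (by omega), if_neg (by omega), if_neg (by omega)]
    have : (2 : ℝ) ^ (-(n + 1)) = 2 * (2 : ℝ) ^ (-(n + 2)) := by
      rw [show -(n + 1) = -(n + 2) + 1 by ring, zpow_add₀ (by norm_num), zpow_one]; ring
    rw [show -(n + 1 + 1) = -(n + 2) by ring, this]; ring

theorem VV_Dy10622 (n : ℤ) : Dy (VV10622 n) := by
  unfold VV10622
  split_ifs
  · exact Dy.zpow _
  · exact Dy.sub Dy.one (Dy.zpow _)

theorem Lam_eq10622 (n : ℤ) (y : ℝ) (h1 : (n : ℝ) ≤ y) (h2 : y ≤ n + 1) :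
    Lam10622 y = (2 : ℝ) ^ (kk10622 n) * y + (VV10622 n - (2 : ℝ) ^ (kk10622 n) * n) := by
  unfold Lam10622
  rcases h2.lt_or_eq with h | h
  · have : ⌊y⌋ = n := Int.floor_eq_iff.2 ⟨h1, h⟩
    rw [this]; ring
  · have : ⌊y⌋ = n + 1 := by
      rw [h, show ((n : ℝ) + 1) = ((n + 1 : ℤ) : ℝ) by push_cast; ring, Int.floor_intCast]
    rw [this, VV_succ10622, h]; push_cast; ring

theorem Lam_Dyc10622 (n : ℤ) : Dy (VV10622 n - (2 : ℝ) ^ (kk10622 n) * n) :=
  Dy.sub (VV_Dy10622 n) (Dy.mul (Dy.zpow _) (Dy.int n))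

theorem Lam_RG10622 (x : ℝ) : ∃ k c, RG Lam10622 x k c := by
  refine ⟨kk10622 ⌊x⌋, _, Lam_Dyc10622 ⌊x⌋, ⌊x⌋ + 1 - x, by linarith [Int.lt_floor_add_one x],
    fun y h1 h2 => ?_⟩
  exact Lam_eq10622 ⌊x⌋ y (by linarith [Int.floor_le x]) (by linarith)

theorem Lam_PLf10622 : PLf Lam10622 := by
  intro x
  refine ⟨Lam_RG10622 x, ?_, fun hx => ?_⟩
  · by_cases h : (⌊x⌋ : ℝ) < x
    · refine ⟨kk10622 ⌊x⌋, _, Lam_Dyc10622 ⌊x⌋, x - ⌊x⌋, by linarith, fun y h1 h2 => ?_⟩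
      exact Lam_eq10622 ⌊x⌋ y (by linarith) (by linarith [Int.lt_floor_add_one x])
    · have hx : (⌊x⌋ : ℝ) = x := le_antisymm (Int.floor_le x) (not_lt.1 h)
      refine ⟨kk10622 (⌊x⌋ - 1), _, Lam_Dyc10622 (⌊x⌋ - 1), 1, one_pos, fun y h1 h2 => ?_⟩
      exact Lam_eq10622 (⌊x⌋ - 1) y (by push_cast; linarith) (by push_cast; linarith)
  · have h : (⌊x⌋ : ℝ) < x := by
      refine lt_of_le_of_ne (Int.floor_le x) fun h => hx ?_
      rw [← h]; exact Dy.int _
    refine ⟨kk10622 ⌊x⌋, _, ⟨Lam_Dyc10622 ⌊x⌋, ⌊x⌋ + 1 - x, by linarith [Int.lt_floor_add_one x],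
      fun y h1 h2 => ?_⟩, ⟨Lam_Dyc10622 ⌊x⌋, x - ⌊x⌋, by linarith, fun y h1 h2 => ?_⟩⟩
    · exact Lam_eq10622 ⌊x⌋ y (by linarith) (by linarith)
    · exact Lam_eq10622 ⌊x⌋ y (by linarith) (by linarith [Int.lt_floor_add_one x])

theorem Lam_int10622 (n : ℤ) : Lam10622 n = VV10622 n := by
  unfold Lam10622
  rw [Int.floor_intCast]; ring

theorem Lam_strict10622 : StrictMono Lam10622 := by
  have hloc : ∀ (n : ℤ) (x y : ℝ), (n : ℝ) ≤ x → x < y → y ≤ n + 1 → Lam10622 x < Lam10622 y := by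
    intro n x y h1 h2 h3
    rw [Lam_eq10622 n x h1 (by linarith), Lam_eq10622 n y (by linarith) h3]
    have : (0 : ℝ) < (2 : ℝ) ^ (kk10622 n) := zpow_pos (by norm_num) _
    nlinarith
  have hV : Monotone VV10622 := by
    refine monotone_int_of_le_succ fun n => ?_
    rw [VV_succ10622]
    have : (0 : ℝ) < (2 : ℝ) ^ (kk10622 n) := zpow_pos (by norm_num) _
    linarith
  intro x y hxy
  by_cases h : ⌊x⌋ = ⌊y⌋
  · exact hloc ⌊x⌋ x y (Int.floor_le x) hxy (by rw [h]; exact (Int.lt_floor_add_one y).le)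
  · have h1 : ⌊x⌋ + 1 ≤ ⌊y⌋ := by
      have := Int.floor_mono hxy.le
      omega
    have h2 : Lam10622 x < Lam10622 ((⌊x⌋ + 1 : ℤ) : ℝ) := by
      refine hloc ⌊x⌋ x _ (Int.floor_le x) ?_ ?_
      · push_cast; exact Int.lt_floor_add_one x
      · push_cast; exact le_rfl
    have h3 : Lam10622 ((⌊x⌋ + 1 : ℤ) : ℝ) ≤ Lam10622 ((⌊y⌋ : ℤ) : ℝ) := by
      rw [Lam_int10622, Lam_int10622]; exact hV h1
    have h4 : Lam10622 ((⌊y⌋ : ℤ) : ℝ) ≤ Lam10622 y := by
      rcases (Int.floor_le y).eq_or_lt with h | h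
      · rw [h]
      · exact (hloc ⌊y⌋ _ y le_rfl h (Int.lt_floor_add_one y).le).le
    linarith

theorem VV_pos10622 (n : ℤ) : 0 < VV10622 n := by
  unfold VV10622
  split_ifs with h
  · exact zpow_pos (by norm_num) _
  · have : (2 : ℝ) ^ (-(n + 1)) < 1 := by
      apply zpow_lt_one_of_neg₀ (by norm_num)
      omega
    linarith

theorem VV_lt10622 (n : ℤ) : VV10622 n < 1 := by
  unfold VV10622
  split_ifs with h
  · apply zpow_lt_one_of_neg₀ (by norm_num)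
    omega
  · have : (0 : ℝ) < (2 : ℝ) ^ (-(n + 1)) := zpow_pos (by norm_num) _
    linarith

theorem Lam_pos10622 (x : ℝ) : 0 < Lam10622 x := by
  have h := Lam_strict10622.monotone (Int.floor_le x)
  rw [Lam_int10622] at h
  linarith [VV_pos10622 ⌊x⌋]

theorem Lam_lt10622 (x : ℝ) : Lam10622 x < 1 := by
  have h := Lam_strict10622.monotone (Int.lt_floor_add_one x).le
  have h2 : Lam10622 ((⌊x⌋ : ℝ) + 1) = VV10622 (⌊x⌋ + 1) := by
    rw [← Lam_int10622]; push_cast; rfl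
  rw [h2] at h
  linarith [VV_lt10622 (⌊x⌋ + 1)]

theorem Lam_surj10622 {y : ℝ} (h0 : 0 < y) (h1 : y < 1) : ∃ x, Lam10622 x = y := by
  obtain ⟨n, hn⟩ := exists_pow_lt_of_lt_one h0 (show (1 / 2 : ℝ) < 1 by norm_num)
  obtain ⟨m, hm⟩ := exists_pow_lt_of_lt_one (show 0 < 1 - y by linarith)
    (show (1 / 2 : ℝ) < 1 by norm_num)
  have ha : Lam10622 ((-(n : ℤ) : ℤ) : ℝ) ≤ y := by
    rw [Lam_int10622]
    unfold VV10622
    rw [if_pos (by omega)]
    have : (2 : ℝ) ^ (-(n : ℤ) - 1) = (1 / 2) ^ n * (1 / 2) := by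
      rw [zpow_sub₀ (by norm_num), zpow_neg, zpow_natCast, zpow_one, one_div, inv_pow]; ring
    rw [this]
    have : (0 : ℝ) < (1 / 2) ^ n := by positivity
    linarith
  have hb : y ≤ Lam10622 ((m : ℤ) : ℝ) := by
    rw [Lam_int10622]
    unfold VV10622
    split_ifs with h
    · have : m = 0 := by omega
      subst this
      norm_num at hm
      linarith
    · have : (2 : ℝ) ^ (-((m : ℤ) + 1)) = (1 / 2) ^ m * (1 / 2) := by
        rw [neg_add, ← sub_eq_add_neg, zpow_sub₀ (by norm_num), zpow_neg, zpow_natCast, zpow_one,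
          one_div, inv_pow]; ring
      rw [this]
      have : (0 : ℝ) < (1 / 2) ^ m := by positivity
      linarith
  have hab : ((-(n : ℤ) : ℤ) : ℝ) ≤ ((m : ℤ) : ℝ) := by
    push_cast
    have : (0 : ℝ) ≤ n := Nat.cast_nonneg n
    have : (0 : ℝ) ≤ m := Nat.cast_nonneg m
    linarith
  obtain ⟨x, -, hx⟩ := intermediate_value_Icc hab (PLf.cont Lam_PLf10622).continuousOn ⟨ha, hb⟩
  exact ⟨x, hx⟩

/-- the inverse chart -/
noncomputable def hh10622 : ℝ → ℝ := Function.invFun Lam10622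

theorem hh_Lam10622 (x : ℝ) : hh10622 (Lam10622 x) = x :=
  Function.leftInverse_invFun Lam_strict10622.injective x

theorem Lam_hh10622 {y : ℝ} (h0 : 0 < y) (h1 : y < 1) : Lam10622 (hh10622 y) = y :=
  Function.invFun_eq (Lam_surj10622 h0 h1)

theorem hh_PLat10622 {y : ℝ} (h0 : 0 < y) (h1 : y < 1) : PLat hh10622 y := by
  have := PLat.linv (Lam_PLf10622 (hh10622 y)) hh_Lam10622
  rwa [Lam_hh10622 h0 h1] at this

theorem Lam_shiftL10622 (x : ℝ) (i : ℤ) (h1 : x < 0) (h2 : x + i < 0) :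
    Lam10622 (x + i) = (2 : ℝ) ^ i * Lam10622 x := by
  have h3 : ⌊x⌋ < 0 := Int.floor_lt.2 (by simpa using h1)
  have h4 : ⌊x + i⌋ < 0 := Int.floor_lt.2 (by simpa using h2)
  have h5 : ⌊x + i⌋ = ⌊x⌋ + i := Int.floor_add_intCast x i
  unfold Lam10622 VV10622 kk10622
  rw [if_pos h3.le, if_pos h4.le, if_pos h3, if_pos h4, h5]
  push_cast
  rw [show ⌊x⌋ + i - 1 = i + (⌊x⌋ - 1) by ring, zpow_add₀ (by norm_num)]
  ring

theorem Lam_shiftR10622 (x : ℝ) (i : ℤ) (h1 : 0 ≤ x) (h2 : 0 ≤ x + i) :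
    Lam10622 (x + i) = (2 : ℝ) ^ (-i) * Lam10622 x + (1 - (2 : ℝ) ^ (-i)) := by
  have key : ∀ z : ℝ, 0 ≤ z → Lam10622 z = 1 - (2 : ℝ) ^ (-(⌊z⌋ + 1)) +
      (2 : ℝ) ^ (-(⌊z⌋ + 2)) * (z - ⌊z⌋) := by
    intro z hz
    have h3 : 0 ≤ ⌊z⌋ := Int.floor_nonneg.2 hz
    unfold Lam10622 VV10622 kk10622
    rw [if_neg (not_lt.2 h3)]
    split_ifs with h
    · have : ⌊z⌋ = 0 := by omega
      rw [this]; norm_num
    · rfl
  have h5 : ⌊x + i⌋ = ⌊x⌋ + i := Int.floor_add_intCast x i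
  rw [key _ h2, key _ h1, h5]
  push_cast
  rw [show -(⌊x⌋ + i + 1) = -i + -(⌊x⌋ + 1) by ring, show -(⌊x⌋ + i + 2) = -i + -(⌊x⌋ + 2) by ring,
    zpow_add₀ (by norm_num), zpow_add₀ (by norm_num : (2:ℝ) ≠ 0) (-i) (-(⌊x⌋ + 2))]
  ring

open Classical in
/-- transported function -/
noncomputable def Tf10622 (e : ℝ → ℝ) (y : ℝ) : ℝ :=
  if 0 < y ∧ y < 1 then Lam10622 (e (hh10622 y)) else y

theorem Tf_in10622 (e : ℝ → ℝ) {y : ℝ} (h0 : 0 < y) (h1 : y < 1) :
    Tf10622 e y = Lam10622 (e (hh10622 y)) := if_pos ⟨h0, h1⟩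

theorem Tf_out10622 (e : ℝ → ℝ) {y : ℝ} (h : y ≤ 0 ∨ 1 ≤ y) : Tf10622 e y = y :=
  if_neg fun h' => by
    rcases h with h | h
    · exact absurd h'.1 (not_lt.2 h)
    · exact absurd h'.2 (not_lt.2 h)

theorem Tf_comp10622 (e e' : ℝ → ℝ) (y : ℝ) :
    Tf10622 e (Tf10622 e' y) = Tf10622 (fun x => e (e' x)) y := by
  by_cases h : 0 < y ∧ y < 1
  · rw [Tf_in10622 e' h.1 h.2, Tf_in10622 e (Lam_pos10622 _) (Lam_lt10622 _), hh_Lam10622,
      Tf_in10622 _ h.1 h.2]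
  · have h' : y ≤ 0 ∨ 1 ≤ y := by
      by_contra hc
      push Not at hc
      exact h hc
    rw [Tf_out10622 e' h', Tf_out10622 e h', Tf_out10622 _ h']

theorem Tf_id10622 (y : ℝ) : Tf10622 (fun x => x) y = y := by
  by_cases h : 0 < y ∧ y < 1
  · rw [Tf_in10622 _ h.1 h.2, Lam_hh10622 h.1 h.2]
  · unfold Tf10622; rw [if_neg h]

/-- transported permutation -/
noncomputable def T10622 (e : Equiv.Perm ℝ) : Equiv.Perm ℝ where
  toFun := Tf10622 e
  invFun := Tf10622 (e⁻¹ : Equiv.Perm ℝ)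
  left_inv y := by
    rw [Tf_comp10622]
    simp only [inv_left]
    exact Tf_id10622 y
  right_inv y := by
    rw [Tf_comp10622]
    simp only [inv_right]
    exact Tf_id10622 y

theorem T_apply10622 (e : Equiv.Perm ℝ) (y : ℝ) : T10622 e y = Tf10622 e y := rfl

theorem T_mul10622 (e e' : Equiv.Perm ℝ) : T10622 (e * e') = T10622 e * T10622 e' := by
  ext y
  rw [Equiv.Perm.mul_apply, T_apply10622, T_apply10622, T_apply10622, Tf_comp10622]
  rfl

theorem T_inv10622 (e : Equiv.Perm ℝ) : T10622 e⁻¹ = (T10622 e)⁻¹ := by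
  have : T10622 e * T10622 e⁻¹ = 1 := by
    rw [← T_mul10622, mul_inv_cancel]
    ext y
    rw [T_apply10622]
    exact Tf_id10622 y
  exact (inv_eq_of_mul_eq_one_right this).symm

theorem T_mem10622 {e : Equiv.Perm ℝ} (he : e ∈ FZ) : T10622 e ∈ Sup 0 1 := by
  obtain ⟨⟨hm, hpl⟩, ⟨i, M, hM⟩, ⟨j, N, hN⟩⟩ := he
  have hin : ∀ y, 0 < y → y < 1 → 0 < T10622 e y ∧ T10622 e y < 1 := by
    intro y h0 h1
    rw [T_apply10622, Tf_in10622 _ h0 h1]
    exact ⟨Lam_pos10622 _, Lam_lt10622 _⟩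
  have hhm : ∀ y z, 0 < y → y < z → z < 1 → hh10622 y < hh10622 z := by
    intro y z h0 h1 h2
    rw [← Lam_strict10622.lt_iff_lt, Lam_hh10622 h0 (h1.trans h2), Lam_hh10622 (h0.trans h1) h2]
    exact h1
  refine ⟨⟨?_, ?_⟩, fun x hx => Tf_out10622 _ hx⟩
  · intro y z hyz
    rcases le_or_gt y 0 with h1 | h1
    · rw [T_apply10622, Tf_out10622 _ (Or.inl h1)]
      by_cases h : 0 < z ∧ z < 1
      · exact h1.trans_lt (hin z h.1 h.2).1
      · have : T10622 e z = z := by rw [T_apply10622]; unfold Tf10622; rw [if_neg h]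
        rw [this]; exact hyz
    · rcases lt_or_ge z 1 with h2 | h2
      · rw [T_apply10622, T_apply10622, Tf_in10622 _ h1 (hyz.trans h2),
          Tf_in10622 _ (h1.trans hyz) h2]
        exact Lam_strict10622 (hm (hhm y z h1 hyz h2))
      · rw [T_apply10622 e z, Tf_out10622 _ (Or.inr h2)]
        rcases lt_or_ge y 1 with h3 | h3
        · exact (hin y h1 h3).2.trans_le h2
        · rw [T_apply10622, Tf_out10622 _ (Or.inr h3)]; exact hyz
  · intro y
    rcases lt_trichotomy y 0 with h | h | h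
    · refine PLat_congr10622 (f := fun y => y) (δ := -y) (by linarith) (fun z h1 h2 => ?_) (PLat_id y)
      rw [T_apply10622, Tf_out10622 _ (Or.inl (by linarith))]
    · subst h
      refine ⟨⟨i, 0, Dy.zero, Lam10622 (min M (-|(i : ℝ)| - 1)), Lam_pos10622 _, fun z h1 h2 => ?_⟩,
        ⟨0, 0, Dy.zero, 1, one_pos, fun z h1 h2 => ?_⟩, fun h => absurd Dy.zero h⟩
      · rcases h1.eq_or_lt with h3 | h3
        · rw [← h3, T_apply10622, Tf_out10622 _ (Or.inl le_rfl)]; ring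
        · have h4 : z < 1 := by linarith [Lam_lt10622 (min M (-|(i : ℝ)| - 1))]
          have h5 : hh10622 z < min M (-|(i : ℝ)| - 1) := by
            rw [← Lam_strict10622.lt_iff_lt, Lam_hh10622 h3 h4]; linarith
          rw [lt_min_iff] at h5
          rw [T_apply10622, Tf_in10622 _ h3 h4, hM _ h5.1.le, Lam_shiftL10622 _ _
            (by linarith [abs_nonneg (i : ℝ)]) (by linarith [le_abs_self (i : ℝ)]),
            Lam_hh10622 h3 h4, add_zero]
      · rw [T_apply10622, Tf_out10622 _ (Or.inl h2)]; simp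
    · rcases lt_trichotomy y 1 with h' | h' | h'
      · have h1 : PLat (fun z => Lam10622 (e (hh10622 z))) y :=
          PLat.comp (g := fun z => e (hh10622 z)) (f := Lam10622)
            (PLat.comp (g := hh10622) (f := e) (hh_PLat10622 h h') (hpl _)) (Lam_PLf10622 _)
        refine PLat_congr10622 (δ := min y (1 - y)) (lt_min h (by linarith)) (fun z h2 h3 => ?_) h1
        rw [T_apply10622, Tf_in10622 _ (by linarith [min_le_left y (1 - y)])
          (by linarith [min_le_right y (1 - y)])]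
      · subst h'
        refine ⟨⟨0, 0, Dy.zero, 1, one_pos, fun z h1 h2 => ?_⟩,
          ⟨-j, 1 - (2 : ℝ) ^ (-j), Dy.sub Dy.one (Dy.zpow _), 1 - Lam10622 (max N (|(j : ℝ)| + 1)),
          by linarith [Lam_lt10622 (max N (|(j : ℝ)| + 1))], fun z h1 h2 => ?_⟩,
          fun h => absurd Dy.one h⟩
        · rw [T_apply10622, Tf_out10622 _ (Or.inr h1)]; simp
        · rcases h2.eq_or_lt with h3 | h3
          · rw [h3, T_apply10622, Tf_out10622 _ (Or.inr le_rfl)]; ring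
          · have h4 : 0 < z := by linarith [Lam_pos10622 (max N (|(j : ℝ)| + 1))]
            have h5 : max N (|(j : ℝ)| + 1) < hh10622 z := by
              rw [← Lam_strict10622.lt_iff_lt, Lam_hh10622 h4 h3]; linarith
            rw [max_lt_iff] at h5
            rw [T_apply10622, Tf_in10622 _ h4 h3, hN _ h5.1.le, Lam_shiftR10622 _ _
              (by linarith [abs_nonneg (j : ℝ)]) (by linarith [neg_abs_le (j : ℝ)]),
              Lam_hh10622 h4 h3]
      · refine PLat_congr10622 (f := fun y => y) (δ := y - 1) (by linarith) (fun z h1 h2 => ?_)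
          (PLat_id y)
        rw [T_apply10622, Tf_out10622 _ (Or.inr (by linarith))]

theorem comm_unit10622 {ε : ℝ} (hε : 0 < ε) {g : Equiv.Perm ℝ}
    (hg : g ∈ Sup ε (1 - ε)) : ∃ a ∈ Sup 0 1, ∃ c ∈ Sup 0 1, g = a⁻¹ * c * a * c⁻¹ := by
  have hg01 : ∀ {f : Equiv.Perm ℝ}, f ∈ Sup ε (1 - ε) → ∀ y, 0 < y → y < 1 → 0 < f y ∧ f y < 1 := by
    intro f hf y h0 h1
    have e0 : f 0 = 0 := hf.2 0 (Or.inl hε.le)
    have e1 : f 1 = 1 := hf.2 1 (Or.inr (by linarith))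
    constructor
    · rw [← e0]; exact hf.1.1 h0
    · conv_rhs => rw [← e1]
      exact hf.1.1 h1
  have hgi : g⁻¹ ∈ Sup ε (1 - ε) := (Sup ε (1 - ε)).inv_mem hg
  let g0 : Equiv.Perm ℝ :=
    { toFun := fun x => hh10622 (g (Lam10622 x))
      invFun := fun x => hh10622 (g⁻¹ (Lam10622 x))
      left_inv := fun x => by
        have h := hg01 hg _ (Lam_pos10622 x) (Lam_lt10622 x)
        simp only
        rw [Lam_hh10622 h.1 h.2, inv_left, hh_Lam10622]
      right_inv := fun x => by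
        have h := hg01 hgi _ (Lam_pos10622 x) (Lam_lt10622 x)
        simp only
        rw [Lam_hh10622 h.1 h.2, inv_right, hh_Lam10622] }
  have hg0 : ∀ x, g0 x = hh10622 (g (Lam10622 x)) := fun x => rfl
  have hm : 0 < min ε (1 / 2) := lt_min hε (by norm_num)
  have hm1 : min ε (1 / 2) < 1 := by linarith [min_le_right ε (1 / 2)]
  have hmem : g0 ∈ Sup (hh10622 (min ε (1 / 2))) (hh10622 (1 - min ε (1 / 2))) := by
    refine ⟨⟨fun x y hxy => ?_, fun x => ?_⟩, fun x hx => ?_⟩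
    · rw [hg0, hg0, ← Lam_strict10622.lt_iff_lt]
      have h1 := hg01 hg _ (Lam_pos10622 x) (Lam_lt10622 x)
      have h2 := hg01 hg _ (Lam_pos10622 y) (Lam_lt10622 y)
      rw [Lam_hh10622 h1.1 h1.2, Lam_hh10622 h2.1 h2.2]
      exact hg.1.1 (Lam_strict10622 hxy)
    · have h1 := hg01 hg _ (Lam_pos10622 x) (Lam_lt10622 x)
      exact PLat.comp (g := fun z => g (Lam10622 z)) (f := hh10622)
        (PLat.comp (g := Lam10622) (f := g) (Lam_PLf10622 x) (hg.1.2 _)) (hh_PLat10622 h1.1 h1.2)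
    · rw [hg0, hg.2, hh_Lam10622]
      rcases hx with hx | hx
      · left
        have := Lam_strict10622.monotone hx
        rw [Lam_hh10622 hm hm1] at this
        exact this.trans (min_le_left _ _)
      · right
        have := Lam_strict10622.monotone hx
        rw [Lam_hh10622 (by linarith) (by linarith)] at this
        linarith [min_le_left ε (1 / 2)]
  have hT : T10622 g0 = g := by
    ext y
    rw [T_apply10622]
    by_cases h : 0 < y ∧ y < 1
    · rw [Tf_in10622 _ h.1 h.2, hg0, Lam_hh10622 h.1 h.2]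
      have h1 := hg01 hg _ h.1 h.2
      rw [Lam_hh10622 h1.1 h1.2]
    · have h' : y ≤ 0 ∨ 1 ≤ y := by
        by_contra hc
        push Not at hc
        exact h hc
      rw [Tf_out10622 _ h', hg.2]
      rcases h' with h' | h'
      · left; linarith
      · right; linarith
  obtain ⟨a, ha, c, hc, hac⟩ := comm_FZ hmem
  refine ⟨T10622 a, T_mem10622 ha, T10622 c, T_mem10622 hc, ?_⟩
  rw [← hT, hac, T_mul10622, T_mul10622, T_mul10622, T_inv10622, T_inv10622]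

/-- compactly supported elements of an open dyadic interval are commutators -/
theorem comm_Sup {s t : ℝ} (hs : Dy s) (ht : Dy t) {ε : ℝ} (hε : 0 < ε) {g : Equiv.Perm ℝ}
    (hg : g ∈ Sup (s + ε) (t - ε)) : ∃ a ∈ Sup s t, ∃ c ∈ Sup s t, g = a⁻¹ * c * a * c⁻¹ := by
  by_cases hst : s < t
  · obtain ⟨P, hP, hP0, hP1⟩ := PLH_interp Dy.zero Dy.one hs ht (zero_lt_one' ℝ) hst
    have hPi : P⁻¹ ∈ PLH := PLH.inv_mem hP
    have hPs : P⁻¹ s = 0 := by rw [← hP0, inv_left]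
    have hPt : P⁻¹ t = 1 := by rw [← hP1, inv_left]
    have h1 : 0 < P⁻¹ (s + ε) := by rw [← hPs]; exact hPi.1 (by linarith)
    have h2 : P⁻¹ (t - ε) < 1 := by
      conv_rhs => rw [← hPt]
      exact hPi.1 (by linarith)
    have hconj : ∀ {u v u' v' : ℝ} {f Q : Equiv.Perm ℝ}, Q ∈ PLH → f ∈ Sup u v →
        (∀ x, x ≤ u' → Q⁻¹ x ≤ u) → (∀ x, v' ≤ x → v ≤ Q⁻¹ x) → Q * f * Q⁻¹ ∈ Sup u' v' := by
      intro u v u' v' f Q hQ hf hu hv
      refine ⟨PLH.mul_mem (PLH.mul_mem hQ hf.1) (PLH.inv_mem hQ), fun x hx => ?_⟩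
      rw [Equiv.Perm.mul_apply, Equiv.Perm.mul_apply, hf.2, inv_right]
      rcases hx with hx | hx
      · exact Or.inl (hu x hx)
      · exact Or.inr (hv x hx)
    have hg' : P⁻¹ * g * P⁻¹⁻¹ ∈ Sup (min (P⁻¹ (s + ε)) (1 - P⁻¹ (t - ε)))
        (1 - min (P⁻¹ (s + ε)) (1 - P⁻¹ (t - ε))) := by
      refine hconj hPi hg (fun x hx => ?_) (fun x hx => ?_)
      · rw [inv_inv]
        have h3 : x ≤ P⁻¹ (s + ε) := hx.trans (min_le_left _ _)
        have h4 := hP.1.monotone h3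
        rwa [inv_right] at h4
      · rw [inv_inv]
        have h3 : P⁻¹ (t - ε) ≤ x := by
          linarith [min_le_right (P⁻¹ (s + ε)) (1 - P⁻¹ (t - ε))]
        have h4 := hP.1.monotone h3
        rwa [inv_right] at h4
    obtain ⟨a, ha, c, hc, hac⟩ := comm_unit10622 (lt_min h1 (by linarith)) hg'
    refine ⟨P * a * P⁻¹, hconj hP ha (fun x hx => ?_) (fun x hx => ?_),
      P * c * P⁻¹, hconj hP hc (fun x hx => ?_) (fun x hx => ?_), ?_⟩
    · rw [← hPs]; exact hPi.1.monotone hx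
    · rw [← hPt]; exact hPi.1.monotone hx
    · rw [← hPs]; exact hPi.1.monotone hx
    · rw [← hPt]; exact hPi.1.monotone hx
    · have : g = P * (P⁻¹ * g * P⁻¹⁻¹) * P⁻¹ := by group
      rw [this, hac]
      group
  · refine ⟨1, (Sup s t).one_mem, 1, (Sup s t).one_mem, ?_⟩
    ext x
    have : g x = x := hg.2 x (by
      rcases le_total x s with h | h
      · left; linarith
      · right; linarith [not_lt.1 hst])
    rw [this]
    simp



/-! #### r4 -/


/-- periodic extension -/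
noncomputable def ext_10626 (s : ℝ) (e : Equiv.Perm ℝ) (x : ℝ) : ℝ :=
  e (x - (⌊x - s⌋ : ℤ)) + (⌊x - s⌋ : ℤ)

theorem range_10626 {s : ℝ} {e : Equiv.Perm ℝ} (he : e ∈ Sup s (s + 1)) {y : ℝ} (h1 : s ≤ y)
    (h2 : y < s + 1) : s ≤ e y ∧ e y < s + 1 := by
  have hs := he.2 s (Or.inl le_rfl)
  have hs1 := he.2 (s + 1) (Or.inr le_rfl)
  have hm : StrictMono e := he.1.1
  have h3 := hm.monotone h1
  have h4 := hm h2
  rw [hs] at h3
  rw [hs1] at h4
  exact ⟨h3, h4⟩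

theorem ext_eq_10626 {s : ℝ} (e : Equiv.Perm ℝ) {x : ℝ} {k : ℤ} (h1 : s ≤ x - k)
    (h2 : x - k < s + 1) : ext_10626 s e x = e (x - k) + k := by
  have h3 : ⌊x - s⌋ = k := by
    rw [Int.floor_eq_iff]
    constructor <;> linarith
  unfold ext_10626
  rw [h3]

theorem ext_eq2_10626 {s : ℝ} {e : Equiv.Perm ℝ} (he : e ∈ Sup s (s + 1)) {x : ℝ} {k : ℤ}
    (h1 : s ≤ x - k) (h2 : x - k ≤ s + 1) : ext_10626 s e x = e (x - k) + k := by
  rcases lt_or_eq_of_le h2 with h3 | h3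
  · exact ext_eq_10626 e h1 h3
  · have h4 : ext_10626 s e x = e (x - ((k + 1 : ℤ) : ℝ)) + ((k + 1 : ℤ) : ℝ) := by
      apply ext_eq_10626 e
      · push_cast; linarith
      · push_cast; linarith
    have h5 : x - ((k + 1 : ℤ) : ℝ) = s := by push_cast; linarith
    rw [h4, h5, h3, he.2 s (Or.inl le_rfl), he.2 (s + 1) (Or.inr le_rfl)]
    push_cast
    ring

theorem fl_10626 (s x : ℝ) : s ≤ x - (⌊x - s⌋ : ℤ) ∧ x - (⌊x - s⌋ : ℤ) < s + 1 := by
  have h1 := Int.floor_le (x - s)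
  have h2 := Int.lt_floor_add_one (x - s)
  constructor <;> linarith

theorem ext_mul_10626 {s : ℝ} (e : Equiv.Perm ℝ) {f : Equiv.Perm ℝ} (hf : f ∈ Sup s (s + 1))
    (x : ℝ) : ext_10626 s (e * f) x = ext_10626 s e (ext_10626 s f x) := by
  obtain ⟨h1, h2⟩ := fl_10626 s x
  have h3 := range_10626 hf h1 h2
  have h4 : ext_10626 s f x = f (x - (⌊x - s⌋ : ℤ)) + (⌊x - s⌋ : ℤ) := rfl
  have h5 : ext_10626 s f x - (⌊x - s⌋ : ℤ) = f (x - (⌊x - s⌋ : ℤ)) := by rw [h4]; ring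
  rw [ext_eq_10626 e (x := ext_10626 s f x) (k := ⌊x - s⌋) (by rw [h5]; exact h3.1)
    (by rw [h5]; exact h3.2), h5]
  rfl

theorem ext_one_10626 (s x : ℝ) : ext_10626 s 1 x = x := by
  unfold ext_10626
  rw [Equiv.Perm.one_apply]
  ring

theorem ext_strictMono_10626 {s : ℝ} {e : Equiv.Perm ℝ} (he : e ∈ Sup s (s + 1)) :
    StrictMono (ext_10626 s e) := by
  intro x y hxy
  obtain ⟨h1, h2⟩ := fl_10626 s x
  obtain ⟨h3, h4⟩ := fl_10626 s y
  have h5 : ⌊x - s⌋ ≤ ⌊y - s⌋ := Int.floor_le_floor (by linarith)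
  show e (x - (⌊x - s⌋ : ℤ)) + (⌊x - s⌋ : ℤ) < e (y - (⌊y - s⌋ : ℤ)) + (⌊y - s⌋ : ℤ)
  rcases lt_or_eq_of_le h5 with h6 | h6
  · have h7 := (range_10626 he h1 h2).2
    have h8 := (range_10626 he h3 h4).1
    have h9 : ((⌊x - s⌋ : ℤ) : ℝ) + 1 ≤ ((⌊y - s⌋ : ℤ) : ℝ) := by exact_mod_cast h6
    linarith
  · rw [h6] at *
    have h7 : e (x - (⌊y - s⌋ : ℤ)) < e (y - (⌊y - s⌋ : ℤ)) := he.1.1 (by linarith)
    linarith

theorem RG_congr_10626 {f g : ℝ → ℝ} {x : ℝ} {k : ℤ} {c : ℝ} (h : RG f x k c) {δ : ℝ}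
    (hδ : 0 < δ) (hfg : ∀ y, x ≤ y → y < x + δ → g y = f y) : RG g x k c := by
  obtain ⟨hc, ε, hε, hf⟩ := h
  refine ⟨hc, min ε δ, lt_min hε hδ, fun y h1 h2 => ?_⟩
  have h3 := min_le_left ε δ
  have h4 := min_le_right ε δ
  rw [hfg y h1 (by linarith), hf y h1 (by linarith)]

theorem LG_congr_10626 {f g : ℝ → ℝ} {x : ℝ} {k : ℤ} {c : ℝ} (h : LG f x k c) {δ : ℝ}
    (hδ : 0 < δ) (hfg : ∀ y, x - δ < y → y ≤ x → g y = f y) : LG g x k c := by
  obtain ⟨hc, ε, hε, hf⟩ := h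
  refine ⟨hc, min ε δ, lt_min hε hδ, fun y h1 h2 => ?_⟩
  have h3 := min_le_left ε δ
  have h4 := min_le_right ε δ
  rw [hfg y (by linarith) h2, hf y (by linarith) h2]

theorem shift_PLf_10626 {e : Equiv.Perm ℝ} (he : e ∈ PLH) (k : ℤ) :
    PLf (fun y => e (y - k) + k) := by
  intro x
  have h1 : PLat (fun y : ℝ => y - k) x := by
    have h := PLat_affine 0 (Dy.neg (Dy.int k)) x
    have h2 : (fun y : ℝ => (2 : ℝ) ^ (0 : ℤ) * y + -(k : ℝ)) = fun y : ℝ => y - k := by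
      funext y; rw [zpow_zero]; ring
    rwa [h2] at h
  have h3 : PLat (fun y : ℝ => e (y - k)) x := PLat.comp (f := e) h1 (he.2 _)
  have h4 : PLat (fun y : ℝ => y + k) (e (x - k)) := by
    have h := PLat_affine 0 (Dy.int k) (e (x - k))
    have h2 : (fun y : ℝ => (2 : ℝ) ^ (0 : ℤ) * y + (k : ℝ)) = fun y : ℝ => y + k := by
      funext y; rw [zpow_zero]; ring
    rwa [h2] at h
  exact PLat.comp (f := fun y : ℝ => y + k) h3 h4

theorem ext_PLf_10626 {s : ℝ} (hs : Dy s) {e : Equiv.Perm ℝ} (he : e ∈ Sup s (s + 1)) :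
    PLf (ext_10626 s e) := by
  intro x
  obtain ⟨h1, h2⟩ := fl_10626 s x
  have hP := shift_PLf_10626 he.1 ⌊x - s⌋ x
  have hR : ∀ y, x ≤ y → y < x + (s + 1 - (x - (⌊x - s⌋ : ℤ))) →
      ext_10626 s e y = e (y - (⌊x - s⌋ : ℤ)) + (⌊x - s⌋ : ℤ) := fun y hy1 hy2 =>
    ext_eq_10626 e (by linarith) (by linarith)
  refine ⟨?_, ?_, ?_⟩
  · obtain ⟨k, c, hkc⟩ := hP.1
    exact ⟨k, c, RG_congr_10626 hkc (by linarith) hR⟩
  · obtain ⟨l, hl1, hl2⟩ : ∃ l : ℤ, s < x - l ∧ x - l ≤ s + 1 := by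
      refine ⟨⌈x - s⌉ - 1, ?_, ?_⟩
      · have := Int.ceil_lt_add_one (x - s)
        push_cast; linarith
      · have := Int.le_ceil (x - s)
        push_cast; linarith
    obtain ⟨k, c, hkc⟩ := (shift_PLf_10626 he.1 l x).2.1
    refine ⟨k, c, LG_congr_10626 hkc (δ := x - l - s) (by linarith) ?_⟩
    intro y hy1 hy2
    exact ext_eq2_10626 he (by linarith) (by linarith)
  · intro hx
    obtain ⟨k, c, hk1, hk2⟩ := hP.2.2 hx
    have h3 : s < x - (⌊x - s⌋ : ℤ) := by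
      rcases lt_or_eq_of_le h1 with h | h
      · exact h
      · exfalso
        apply hx
        have h4 : x = s + (⌊x - s⌋ : ℤ) := by linarith
        rw [h4]
        exact Dy.add hs (Dy.int _)
    refine ⟨k, c, RG_congr_10626 hk1 (by linarith) hR, LG_congr_10626 hk2
      (δ := x - (⌊x - s⌋ : ℤ) - s) (by linarith) ?_⟩
    intro y hy1 hy2
    exact ext_eq_10626 e (by linarith) (by linarith)

theorem exists_ext_10626 {s : ℝ} (hs : Dy s) {e : Equiv.Perm ℝ} (he : e ∈ Sup s (s + 1)) :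
    ∃ E ∈ TT, (∀ x, E x = ext_10626 s e x) ∧ ∀ x, E⁻¹ x = ext_10626 s e⁻¹ x := by
  have he' : e⁻¹ ∈ Sup s (s + 1) := (Sup s (s + 1)).inv_mem he
  let E : Equiv.Perm ℝ :=
    { toFun := ext_10626 s e
      invFun := ext_10626 s e⁻¹
      left_inv := fun x => by
        rw [← ext_mul_10626 e⁻¹ he, inv_mul_cancel, ext_one_10626]
      right_inv := fun x => by
        rw [← ext_mul_10626 e he', mul_inv_cancel, ext_one_10626] }
  refine ⟨E, ⟨⟨ext_strictMono_10626 he, ext_PLf_10626 hs he⟩, ?_⟩, fun x => rfl, fun x => rfl⟩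
  intro x
  obtain ⟨h1, h2⟩ := fl_10626 s x
  have h3 : ext_10626 s e (x + 1) = e (x + 1 - ((⌊x - s⌋ + 1 : ℤ) : ℝ)) +
      ((⌊x - s⌋ + 1 : ℤ) : ℝ) := by
    apply ext_eq_10626 e
    · push_cast; linarith
    · push_cast; linarith
  have h4 : x + 1 - ((⌊x - s⌋ + 1 : ℤ) : ℝ) = x - (⌊x - s⌋ : ℤ) := by push_cast; ring
  show ext_10626 s e (x + 1) = ext_10626 s e x + 1
  rw [h3, h4]
  unfold ext_10626
  push_cast
  ring

theorem TT_add_int_10626 {M : Equiv.Perm ℝ} (hM : M ∈ TT) (k : ℤ) (x : ℝ) :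
    M (x + k) = M x + k := by
  induction k using Int.induction_on with
  | zero => simp
  | succ n ih =>
    push_cast at ih ⊢
    rw [← add_assoc, hM.2, ih]
    ring
  | pred n ih =>
    push_cast at ih ⊢
    have h := hM.2 (x + (-(n : ℝ) - 1))
    have h2 : x + (-(n : ℝ) - 1) + 1 = x + -(n : ℝ) := by ring
    rw [h2, ih] at h
    linarith

theorem key_10626 {s : ℝ} (hs : Dy s) {M : Equiv.Perm ℝ} (hM : M ∈ TT) (hid : IdNear M s) :
    ∃ A ∈ TT, ∃ C ∈ TT, M = A⁻¹ * C * A * C⁻¹ := by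
  obtain ⟨ε, hε, hMid⟩ := hid
  have hs1 : Dy (s + 1) := Dy.add hs Dy.one
  have hMs : M s = s := hMid s (by linarith) (by linarith)
  have hMs1 : M (s + 1) = s + 1 := by rw [hM.2, hMs]
  obtain ⟨e1, he1, he1a, he1b⟩ := PLH_glue (f := 1) (g := M) PLH.one_mem hM.1 hs (by
    rw [hMs]; rfl)
  obtain ⟨z, hz, hza, hzb⟩ := PLH_glue (f := e1) (g := 1) he1 PLH.one_mem hs1 (by
    rw [he1b (s + 1) (by linarith), hMs1]; rfl)
  have hzM : ∀ x, s ≤ x → x ≤ s + 1 → z x = M x := fun x h1 h2 => by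
    rw [hza x h2, he1b x h1]
  have hzid1 : ∀ x, x ≤ s → z x = x := fun x h => by
    rw [hza x (by linarith), he1a x h]; rfl
  have hzid2 : ∀ x, s + 1 ≤ x → z x = x := fun x h => by
    rw [hzb x h]; rfl
  have hzS : z ∈ Sup (s + ε / 2) (s + 1 - ε / 2) := by
    refine ⟨hz, ?_⟩
    rintro x (hx | hx)
    · rcases le_or_gt x s with h | h
      · exact hzid1 x h
      · rcases le_or_gt x (s + 1) with h' | h'
        · rw [hzM x h.le h']
          exact hMid x (by linarith) (by linarith)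
        · exact hzid2 x h'.le
    · rcases le_or_gt (s + 1) x with h | h
      · exact hzid2 x h
      · rcases le_or_gt s x with h' | h'
        · rw [hzM x h' h.le]
          have h3 : x = (x - 1) + 1 := by ring
          have h4 : M (x - 1) = x - 1 := hMid (x - 1) (by linarith) (by linarith)
          rw [h3, hM.2, h4]
        · exact hzid1 x h'.le
  obtain ⟨a, ha, c, hc, hac⟩ := comm_Sup hs hs1 (half_pos hε) hzS
  obtain ⟨A, hA, hA1, hA2⟩ := exists_ext_10626 hs ha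
  obtain ⟨C, hC, hC1, hC2⟩ := exists_ext_10626 hs hc
  refine ⟨A, hA, C, hC, ?_⟩
  have ha' : a⁻¹ ∈ Sup s (s + 1) := (Sup s (s + 1)).inv_mem ha
  have hc' : c⁻¹ ∈ Sup s (s + 1) := (Sup s (s + 1)).inv_mem hc
  apply Equiv.ext
  intro x
  have h1 : M x = ext_10626 s z x := by
    obtain ⟨h2, h3⟩ := fl_10626 s x
    unfold ext_10626
    rw [hzM _ h2 h3.le, ← TT_add_int_10626 hM]
    congr 1
    ring
  rw [h1, hac, ext_mul_10626 _ hc', ext_mul_10626 _ ha, ext_mul_10626 _ hc]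
  rw [Equiv.Perm.mul_apply, Equiv.Perm.mul_apply, Equiv.Perm.mul_apply, hC2, hA1, hC1, hA2]

/-- every lift of an element of `T` is, up to an integer, a product of two commutators -/
theorem TT_two {M : Equiv.Perm ℝ} (hM : M ∈ TT) : ∃ (m : ℤ), ∃ a ∈ TT, ∃ b ∈ TT, ∃ c ∈ TT, ∃ d ∈ TT,
    ∀ x, ((a * b * a⁻¹ * b⁻¹) * (c * d * c⁻¹ * d⁻¹) : Equiv.Perm ℝ) x = M x + m := by
  obtain ⟨m, M1, M2, s1, s2, hM1, hM2, hs1, hs2, hid1, hid2, hmul⟩ := exists_fact hM
  obtain ⟨A1, hA1, C1, hC1, e1⟩ := key_10626 hs1 hM1 hid1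
  obtain ⟨A2, hA2, C2, hC2, e2⟩ := key_10626 hs2 hM2 hid2
  refine ⟨m, A2⁻¹, TT.inv_mem hA2, C2, hC2, A1⁻¹, TT.inv_mem hA1, C1, hC1, ?_⟩
  intro x
  rw [inv_inv, inv_inv, ← e1, ← e2, Equiv.Perm.mul_apply]
  exact hmul x



/-! #### r5 -/


theorem TT_int_10627 {f : Equiv.Perm ℝ} (hf : f ∈ TT) (n : ℤ) (x : ℝ) : f (x + n) = f x + n := by
  have hnat : ∀ (m : ℕ) (y : ℝ), f (y + m) = f y + m := by
    intro m
    induction m with
    | zero => intro y; simp
    | succ m ih =>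
      intro y
      push_cast
      rw [← add_assoc, hf.2, ih]
      ring
  obtain ⟨m, rfl | rfl⟩ := n.eq_nat_or_neg
  · exact_mod_cast hnat m x
  · have h := hnat m (x + ((-(m : ℤ) : ℤ) : ℝ))
    push_cast at h ⊢
    rw [neg_add_cancel_right] at h
    linarith

open Classical in
/-- action on the unit interval -/
noncomputable def qq_10627 (f : ℝ → ℝ) (x : ℝ) : ℝ :=
  if x ∈ Set.Ico (0 : ℝ) 1 then Int.fract (f x) else x

theorem qq_mem_10627 (f : ℝ → ℝ) {x : ℝ} (hx : x ∈ Set.Ico (0 : ℝ) 1) :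
    qq_10627 f x = Int.fract (f x) := if_pos hx

theorem qq_nmem_10627 (f : ℝ → ℝ) {x : ℝ} (hx : x ∉ Set.Ico (0 : ℝ) 1) :
    qq_10627 f x = x := if_neg hx

theorem fr_mem_10627 (y : ℝ) : Int.fract y ∈ Set.Ico (0 : ℝ) 1 :=
  ⟨Int.fract_nonneg y, Int.fract_lt_one y⟩

theorem qq_comp_10627 {f : Equiv.Perm ℝ} (hf : f ∈ TT) (g : Equiv.Perm ℝ) (x : ℝ) :
    qq_10627 f (qq_10627 g x) = qq_10627 (f * g : Equiv.Perm ℝ) x := by
  by_cases hx : x ∈ Set.Ico (0 : ℝ) 1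
  · rw [qq_mem_10627 _ hx, qq_mem_10627 _ hx, qq_mem_10627 _ (fr_mem_10627 _)]
    have h1 : f (Int.fract (g x)) = f (g x) + ((-⌊g x⌋ : ℤ) : ℝ) := by
      rw [← TT_int_10627 hf]
      congr 1
      push_cast
      rfl
    rw [h1, Int.fract_add_intCast]
    rfl
  · rw [qq_nmem_10627 _ hx, qq_nmem_10627 _ hx, qq_nmem_10627 _ hx]

theorem qq_one_10627 (x : ℝ) : qq_10627 (1 : Equiv.Perm ℝ) x = x := by
  by_cases hx : x ∈ Set.Ico (0 : ℝ) 1
  · rw [qq_mem_10627 _ hx]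
    exact Int.fract_eq_self.2 hx
  · rw [qq_nmem_10627 _ hx]

/-- from lifts to permutations of the line supported on `[0, 1)` -/
theorem exists_Pi : ∃ Q : TT →* Equiv.Perm ℝ,
    (∀ (f : TT) (x : ℝ), x ∈ Set.Ico (0 : ℝ) 1 → Q f x = Int.fract ((f : Equiv.Perm ℝ) x)) ∧
    (∀ (f : TT) (x : ℝ), x ∉ Set.Ico (0 : ℝ) 1 → Q f x = x) := by
  refine ⟨{
    toFun := fun f =>
      { toFun := qq_10627 (f : Equiv.Perm ℝ)
        invFun := qq_10627 ((f : Equiv.Perm ℝ)⁻¹ : Equiv.Perm ℝ)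
        left_inv := fun x => by
          rw [qq_comp_10627 (TT.inv_mem f.2), inv_mul_cancel, qq_one_10627]
        right_inv := fun x => by
          rw [qq_comp_10627 f.2, mul_inv_cancel, qq_one_10627] }
    map_one' := by
      ext x
      exact qq_one_10627 x
    map_mul' := fun f g => by
      ext x
      exact (qq_comp_10627 f.2 (g : Equiv.Perm ℝ) x).symm }, ?_, ?_⟩
  · intro f x hx
    exact qq_mem_10627 _ hx
  · intro f x hx
    exact qq_nmem_10627 _ hx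


/-- from lifts to permutations of the line supported on `[0, 1)` -/
noncomputable def Pi : TT →* Equiv.Perm ℝ := exists_Pi.choose

theorem Pi_in (f : TT) {x : ℝ} (hx : x ∈ Set.Ico (0 : ℝ) 1) :
    Pi f x = Int.fract ((f : Equiv.Perm ℝ) x) := exists_Pi.choose_spec.1 f x hx

theorem Pi_out (f : TT) {x : ℝ} (hx : x ∉ Set.Ico (0 : ℝ) 1) : Pi f x = x :=
  exists_Pi.choose_spec.2 f x hx


/-! #### r6 -/


theorem fr_10628 (m : ℤ) (y : ℝ) (h0 : (m : ℝ) ≤ y) (h1 : y < m + 1) :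
    ⌊y⌋ = m ∧ Int.fract y = y - m := by
  have h : ⌊y⌋ = m := Int.floor_eq_iff.2 ⟨h0, h1⟩
  refine ⟨h, ?_⟩
  rw [← h]
  rfl

theorem idxR_10628 (n : ℕ) (a : ℕ → ℝ) (u : ℝ) (h0 : a 0 ≤ u) (hn : u < a n) :
    ∃ i < n, a i ≤ u ∧ u < a (i + 1) := by
  induction n with
  | zero => linarith
  | succ n ih =>
    rcases lt_or_ge u (a n) with h | h
    · obtain ⟨i, hi, h1⟩ := ih h
      exact ⟨i, by omega, h1⟩
    · exact ⟨n, by omega, h, hn⟩

theorem idxL_10628 (n : ℕ) (a : ℕ → ℝ) (u : ℝ) (h0 : a 0 < u) (hn : u ≤ a n) :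
    ∃ i < n, a i < u ∧ u ≤ a (i + 1) := by
  induction n with
  | zero => linarith
  | succ n ih =>
    rcases le_or_gt u (a n) with h | h
    · obtain ⟨i, hi, h1⟩ := ih h
      exact ⟨i, by omega, h1⟩
    · exact ⟨n, by omega, h, hn⟩

theorem mono_10628 (n : ℕ) (a : ℕ → ℝ) (hlt : ∀ i < n, a i < a (i + 1)) (i j : ℕ) (hij : i ≤ j)
    (hj : j ≤ n) : a i ≤ a j := by
  induction j with
  | zero =>
    have : i = 0 := by omega
    rw [this]
  | succ j ih =>
    rcases Nat.eq_or_lt_of_le hij with h | h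
    · rw [h]
    · exact (ih (by omega) (by omega)).trans (hlt j (by omega)).le

theorem lcont_10628 (f : ℝ → ℝ) (hf : Continuous f) (x δ : ℝ) (hδ : 0 < δ) (k : ℤ) (C : ℝ)
    (h : ∀ y, x - δ < y → y < x → f y = (2 : ℝ) ^ k * y + C) : f x = (2 : ℝ) ^ k * x + C := by
  have h1 : Filter.Tendsto f (nhdsWithin x (Set.Iio x)) (nhds (f x)) :=
    (hf.tendsto x).mono_left nhdsWithin_le_nhds
  have hc : Continuous (fun y : ℝ => (2 : ℝ) ^ k * y + C) := by fun_prop
  have h2 : Filter.Tendsto (fun y : ℝ => (2 : ℝ) ^ k * y + C) (nhdsWithin x (Set.Iio x))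
      (nhds ((2 : ℝ) ^ k * x + C)) :=
    (hc.tendsto x).mono_left nhdsWithin_le_nhds
  refine tendsto_nhds_unique_of_eventuallyEq h1 h2 ?_
  filter_upwards [Ioo_mem_nhdsLT (show x - δ < x by linarith)] with y hy
  exact h y hy.1 hy.2

/-- the lift of an element of the real model -/
theorem lift_10628 (σ : Equiv.Perm ℝ) (hσ : σ ∈ ThV.VSet) (t : ℝ) (ht : t ∈ Set.Ico (0 : ℝ) 1)
    (c1 : ContinuousOn σ (Set.Ico t 1)) (m0 : StrictMonoOn σ (Set.Ico 0 t))
    (m1 : StrictMonoOn σ (Set.Ico t 1)) (hσt : σ t = 0) :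
    ∃ F : Equiv.Perm ℝ, F ∈ TT ∧ ∀ x, F x = (⌊x - t⌋ : ℝ) + σ (Int.fract x) := by
  obtain ⟨hout, n, a, k, c, ha0, han, halt, had, hcd, hpc⟩ := hσ
  obtain ⟨ht0, ht1⟩ := ht
  -- σ maps [0,1) to itself
  have hmaps : ∀ x, 0 ≤ x → x < 1 → 0 ≤ σ x ∧ σ x < 1 := by
    intro x h0 h1
    by_contra hc
    have h2 : σ x ∉ Set.Ico (0 : ℝ) 1 := hc
    have h3 := hout _ h2
    have h4 := σ.injective h3
    rw [h4] at h2
    exact h2 ⟨h0, h1⟩
  have hfrm : ∀ x : ℝ, 0 ≤ σ (Int.fract x) ∧ σ (Int.fract x) < 1 := fun x =>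
    hmaps _ (Int.fract_nonneg x) (Int.fract_lt_one x)
  have hcross : ∀ x y, t ≤ x → x < 1 → 0 ≤ y → y < t → σ x < σ y := by
    intro x y hx hx1 hy0 hy
    by_contra hc
    push Not at hc
    have hsub : Set.Icc t x ⊆ Set.Ico t 1 := fun z hz => ⟨hz.1, lt_of_le_of_lt hz.2 hx1⟩
    have hiv := intermediate_value_Icc hx (c1.mono hsub)
    have h1 : σ y ∈ Set.Icc (σ t) (σ x) := by
      rw [hσt]
      exact ⟨(hmaps y hy0 (by linarith)).1, hc⟩
    obtain ⟨z, hz, hzy⟩ := hiv h1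
    have := σ.injective hzy
    rw [this] at hz
    linarith [hz.1]
  obtain ⟨f, hf⟩ : ∃ f : ℝ → ℝ, ∀ x, f x = (⌊x - t⌋ : ℝ) + σ (Int.fract x) := ⟨_, fun _ => rfl⟩
  -- piecewise description
  have hfA : ∀ (x : ℝ) (m : ℤ), t + m ≤ x → x < 1 + m → f x = m + σ (x - m) := by
    intro x m h1 h2
    obtain ⟨e1, e2⟩ := fr_10628 m x (by linarith) (by linarith)
    obtain ⟨e3, -⟩ := fr_10628 m (x - t) (by linarith) (by linarith)
    rw [hf, e2, e3]
  have hfB : ∀ (x : ℝ) (m : ℤ), (m : ℝ) ≤ x → x < t + m → f x = m - 1 + σ (x - m) := by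
    intro x m h1 h2
    obtain ⟨e1, e2⟩ := fr_10628 m x (by linarith) (by linarith)
    obtain ⟨e3, -⟩ := fr_10628 (m - 1) (x - t) (by push_cast; linarith) (by push_cast; linarith)
    rw [hf, e2, e3]
    push_cast
    ring
  have hf1 : ∀ x, f (x + 1) = f x + 1 := by
    intro x
    rw [hf, hf, Int.fract_add_one, show x + 1 - t = (x - t) + 1 by ring, Int.floor_add_one]
    push_cast
    ring
  have hmono : StrictMono f := by
    intro x y hxy
    rw [hf, hf]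
    have hle : ⌊x - t⌋ ≤ ⌊y - t⌋ := Int.floor_mono (by linarith)
    rcases lt_or_eq_of_le hle with h | h
    · have h1 : ((⌊x - t⌋ : ℤ) : ℝ) + 1 ≤ ⌊y - t⌋ := by exact_mod_cast h
      linarith [(hfrm x).2, (hfrm y).1]
    · rw [h]
      have hx1 : ((⌊y - t⌋ : ℤ) : ℝ) ≤ x - t := by rw [← h]; exact Int.floor_le _
      have hy2 : y - t < ⌊y - t⌋ + 1 := Int.lt_floor_add_one _
      obtain ⟨m, hm⟩ : ∃ m : ℤ, m = ⌊y - t⌋ := ⟨_, rfl⟩
      rw [← hm] at hx1 hy2 ⊢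
      have goal : σ (Int.fract x) < σ (Int.fract y) := by
        rcases lt_or_ge x (1 + m) with hx | hx
        · obtain ⟨-, e1⟩ := fr_10628 m x (by linarith) (by linarith)
          rcases lt_or_ge y (1 + m) with hy | hy
          · obtain ⟨-, e2⟩ := fr_10628 m y (by linarith) (by linarith)
            rw [e1, e2]
            exact m1 ⟨by linarith, by linarith⟩ ⟨by linarith, by linarith⟩ (by linarith)
          · obtain ⟨-, e2⟩ := fr_10628 (m + 1) y (by push_cast; linarith) (by push_cast; linarith)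
            rw [e1, e2]
            push_cast
            exact hcross _ _ (by linarith) (by linarith) (by linarith) (by linarith)
        · obtain ⟨-, e1⟩ := fr_10628 (m + 1) x (by push_cast; linarith) (by push_cast; linarith)
          obtain ⟨-, e2⟩ := fr_10628 (m + 1) y (by push_cast; linarith) (by push_cast; linarith)
          rw [e1, e2]
          push_cast
          exact m0 ⟨by linarith, by linarith⟩ ⟨by linarith, by linarith⟩ (by linarith)
      linarith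
  have hsurj : Function.Surjective f := by
    intro y
    obtain ⟨u, hu⟩ : ∃ u, σ u = Int.fract y := ⟨σ.symm (Int.fract y), σ.apply_symm_apply _⟩
    have hu01 : 0 ≤ u ∧ u < 1 := by
      by_contra hc
      have h2 : u ∉ Set.Ico (0 : ℝ) 1 := hc
      have h3 := hout _ h2
      rw [h3] at hu
      rw [hu] at h2
      exact h2 ⟨Int.fract_nonneg y, Int.fract_lt_one y⟩
    rcases lt_or_ge u t with h | h
    · refine ⟨u + (⌊y⌋ + 1 : ℤ), ?_⟩
      rw [hfB (u + (⌊y⌋ + 1 : ℤ)) (⌊y⌋ + 1) (by linarith) (by linarith), add_sub_cancel_right, hu]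
      push_cast
      have := Int.floor_add_fract y
      linarith
    · refine ⟨u + (⌊y⌋ : ℤ), ?_⟩
      rw [hfA (u + (⌊y⌋ : ℤ)) ⌊y⌋ (by linarith) (by linarith), add_sub_cancel_right, hu]
      exact Int.floor_add_fract y
  have hcont : Continuous f := hmono.monotone.continuous_of_surjective hsurj
  have htd : Dy t := by
    obtain ⟨i, hi, h1, h2⟩ := idxR_10628 n a t (by rw [ha0]; exact ht0) (by rw [han]; exact ht1)
    have h3 := hpc i hi t ⟨h1, h2⟩
    rw [hσt] at h3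
    have h4 : Dy ((2 : ℝ) ^ (k i) * t + c i) := by rw [← h3]; exact Dy.zero
    exact (Dy.affine (hcd i hi)).1 h4
  -- dyadic constants
  have hCd : ∀ (i : ℕ), i < n → ∀ (m m' : ℤ), Dy (c i - (2 : ℝ) ^ (k i) * m + m') := by
    intro i hi m m'
    exact (Dy.sub (hcd i hi) (Dy.mul (Dy.zpow _) (Dy.int m))).add (Dy.int m')
  have hbd : ∀ i, i < n → 0 ≤ a i ∧ a (i + 1) ≤ 1 := by
    intro i hi
    constructor
    · rw [← ha0]; exact mono_10628 n a halt 0 i (by omega) (by omega)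
    · rw [← han]; exact mono_10628 n a halt (i + 1) n (by omega) (by omega)
  have hR : ∀ x, ∃ i, i < n ∧ a i ≤ Int.fract x ∧ Int.fract x < a (i + 1) ∧ RG f x (k i)
      (c i - (2 : ℝ) ^ (k i) * ⌊x⌋ + ⌊x - t⌋) := by
    intro x
    obtain ⟨i, hi, h1, h2⟩ := idxR_10628 n a (Int.fract x) (by rw [ha0]; exact Int.fract_nonneg x)
      (by rw [han]; exact Int.fract_lt_one x)
    refine ⟨i, hi, h1, h2, hCd i hi _ _, min (a (i + 1) - Int.fract x) (1 - Int.fract (x - t)), ?_, ?_⟩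
    · exact lt_min (by linarith) (by linarith [Int.fract_lt_one (x - t)])
    · intro y hy1 hy2
      have b1 := min_le_left (a (i + 1) - Int.fract x) (1 - Int.fract (x - t))
      have b2 := min_le_right (a (i + 1) - Int.fract x) (1 - Int.fract (x - t))
      have b3 := Int.floor_add_fract x
      have b4 := Int.floor_add_fract (x - t)
      have b5 := Int.fract_nonneg x
      have b6 := Int.fract_nonneg (x - t)
      have b7 := (hbd i hi).2
      obtain ⟨-, e2⟩ := fr_10628 ⌊x⌋ y (by linarith) (by linarith)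
      obtain ⟨e3, -⟩ := fr_10628 ⌊x - t⌋ (y - t) (by linarith) (by linarith)
      rw [hf, e2, e3, hpc i hi (y - ⌊x⌋) ⟨by linarith, by linarith⟩]
      ring
  have hL : ∀ x, ∃ K C, LG f x K C := by
    intro x
    obtain ⟨m, hm⟩ : ∃ m : ℤ, m = ⌈x⌉ - 1 := ⟨_, rfl⟩
    obtain ⟨m', hm'⟩ : ∃ m' : ℤ, m' = ⌈x - t⌉ - 1 := ⟨_, rfl⟩
    have d1 : (m : ℝ) < x ∧ x ≤ m + 1 := by
      rw [hm]
      push_cast
      constructor
      · linarith [Int.ceil_lt_add_one x]
      · linarith [Int.le_ceil x]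
    have d2 : (m' : ℝ) < x - t ∧ x - t ≤ m' + 1 := by
      rw [hm']
      push_cast
      constructor
      · linarith [Int.ceil_lt_add_one (x - t)]
      · linarith [Int.le_ceil (x - t)]
    obtain ⟨i, hi, h1, h2⟩ := idxL_10628 n a (x - m) (by rw [ha0]; linarith [d1.1])
      (by rw [han]; linarith [d1.2])
    have hδ : 0 < min (x - m - a i) (x - t - m') := lt_min (by linarith) (by linarith [d2.1])
    have hform : ∀ y, x - min (x - m - a i) (x - t - m') < y → y < x →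
        f y = (2 : ℝ) ^ (k i) * y + (c i - (2 : ℝ) ^ (k i) * m + m') := by
      intro y hy1 hy2
      have b1 := min_le_left (x - m - a i) (x - t - m')
      have b2 := min_le_right (x - m - a i) (x - t - m')
      have b3 := (hbd i hi).1
      obtain ⟨-, e2⟩ := fr_10628 m y (by linarith) (by linarith [d1.2])
      obtain ⟨e3, -⟩ := fr_10628 m' (y - t) (by linarith) (by linarith [d2.2])
      rw [hf, e2, e3, hpc i hi (y - m) ⟨by linarith, by linarith⟩]
      ring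
    refine ⟨k i, _, hCd i hi m m', _, hδ, fun y hy1 hy2 => ?_⟩
    rcases lt_or_eq_of_le hy2 with h | h
    · exact hform y hy1 h
    · rw [h]
      exact lcont_10628 f hcont x _ hδ _ _ hform
  have hPL : PLf f := by
    intro x
    obtain ⟨i, hi, h1, h1', h2⟩ := hR x
    refine ⟨⟨_, _, h2⟩, hL x, fun hx => ⟨_, _, h2, h2.1, ?_⟩⟩
    -- non dyadic point
    have g1 : a i < Int.fract x := by
      refine lt_of_le_of_ne h1 fun h => hx ?_
      have h3 : Dy (a i) := had i hi.le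
      rw [h] at h3
      have := (Dy.int ⌊x⌋).add h3
      rwa [Int.floor_add_fract] at this
    have g2 : 0 < Int.fract (x - t) := by
      refine lt_of_le_of_ne (Int.fract_nonneg _) fun h => hx ?_
      have h3 := Int.floor_add_fract (x - t)
      rw [← h, add_zero] at h3
      have h4 : x = ⌊x - t⌋ + t := by linarith
      rw [h4]
      exact (Dy.int _).add htd
    refine ⟨min (Int.fract x - a i) (Int.fract (x - t)), lt_min (by linarith) g2,
      fun y hy1 hy2 => ?_⟩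
    have b1 := min_le_left (Int.fract x - a i) (Int.fract (x - t))
    have b2 := min_le_right (Int.fract x - a i) (Int.fract (x - t))
    have b3 := Int.floor_add_fract x
    have b4 := Int.floor_add_fract (x - t)
    have b5 := Int.fract_lt_one x
    have b6 := Int.fract_lt_one (x - t)
    have b7 := (hbd i hi).1
    obtain ⟨-, e2⟩ := fr_10628 ⌊x⌋ y (by linarith) (by linarith)
    obtain ⟨e3, -⟩ := fr_10628 ⌊x - t⌋ (y - t) (by linarith) (by linarith)
    have hup : y - ⌊x⌋ < a (i + 1) := by linarith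
    rw [hf, e2, e3, hpc i hi (y - ⌊x⌋) ⟨by linarith, hup⟩]
    ring
  refine ⟨Equiv.ofBijective f ⟨hmono.injective, hsurj⟩, ⟨⟨hmono, hPL⟩, hf1⟩, hf⟩

/-- `g` is affine on `[x, y)` with dyadic data -/
def Pc_10628 (g : ℝ → ℝ) (x y : ℝ) : Prop :=
  ∃ (k : ℤ) (c : ℝ), Dy c ∧ ∀ z, x ≤ z → z < y → g z = (2 : ℝ) ^ k * z + c

/-- `g` is piecewise affine on `[0, y)` -/
def Gd_10628 (g : ℝ → ℝ) (y : ℝ) : Prop :=
  ∃ n : ℕ, ∃ a : ℕ → ℝ, ∃ k : ℕ → ℤ, ∃ c : ℕ → ℝ,
    a 0 = 0 ∧ a n = y ∧ (∀ i < n, a i < a (i + 1)) ∧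
    (∀ i ≤ n, ∃ m : ℤ, ∃ e : ℕ, a i = (m : ℝ) / 2 ^ e) ∧
    (∀ i < n, ∃ m : ℤ, ∃ e : ℕ, c i = (m : ℝ) / 2 ^ e) ∧
    ∀ i < n, ∀ x ∈ Set.Ico (a i) (a (i + 1)), g x = (2:ℝ) ^ (k i) * x + c i

theorem Gd_zero_10628 (g : ℝ → ℝ) : Gd_10628 g 0 := by
  refine ⟨0, fun _ => 0, fun _ => 0, fun _ => 0, rfl, rfl, ?_, ?_, ?_, ?_⟩
  · intro i hi; omega
  · intro i _; exact Dy.zero
  · intro i hi; omega
  · intro i hi; omega

theorem Gd_step_10628 (g : ℝ → ℝ) (y z : ℝ) (h : Gd_10628 g y) (hyz : y < z) (hz : Dy z)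
    (hp : Pc_10628 g y z) : Gd_10628 g z := by
  obtain ⟨n, a, k, c, h0, hn, h1, h2, h3, h4⟩ := h
  obtain ⟨K, C, hC, hg⟩ := hp
  refine ⟨n + 1, fun i => if i ≤ n then a i else z, fun i => if i < n then k i else K,
    fun i => if i < n then c i else C, ?_, ?_, ?_, ?_, ?_, ?_⟩
  · simp [h0]
  · simp
  · intro i hi
    rcases Nat.lt_or_ge i n with h | h
    · simp only [if_pos h.le, if_pos (show i + 1 ≤ n from h)]
      exact h1 i h
    · have : i = n := by omega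
      subst this
      simp only [le_refl, if_true, if_neg (show ¬ i + 1 ≤ i by omega)]
      rw [hn]
      exact hyz
  · intro i hi
    rcases Nat.lt_or_ge n i with h | h
    · simp only [if_neg (show ¬ i ≤ n by omega)]
      exact hz
    · simp only [if_pos h]
      exact h2 i h
  · intro i hi
    rcases Nat.lt_or_ge i n with h | h
    · simp only [if_pos h]
      exact h3 i h
    · simp only [if_neg (show ¬ i < n by omega)]
      exact hC
  · intro i hi x hx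
    rcases Nat.lt_or_ge i n with h | h
    · simp only [if_pos h.le, if_pos (show i + 1 ≤ n from h)] at hx
      simp only [if_pos h]
      exact h4 i h x hx
    · have : i = n := by omega
      subst this
      simp only [le_refl, if_true, if_neg (show ¬ i + 1 ≤ i by omega)] at hx
      simp only [lt_irrefl, if_false]
      rw [hn] at hx
      exact hg x hx.1 hx.2

/-- local structure -/
theorem local_10628 (f : Equiv.Perm ℝ) (hf : f ∈ PLH) (g : ℝ → ℝ)
    (hg : ∀ x, 0 ≤ x → x < 1 → g x = Int.fract (f x)) (p : ℝ) :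
    ∃ ε > 0, ∀ x y, p - ε < x → x < y → y < p + ε → 0 ≤ x → y ≤ 1 →
      Pc_10628 g x y ∨ ∃ q, x < q ∧ q < y ∧ Dy q ∧ Pc_10628 g x q ∧ Pc_10628 g q y := by
  obtain ⟨⟨k, c, hR⟩, ⟨k', c', hL⟩, hnd⟩ := hf.2 p
  have hR0 := hR
  have hL0 := hL
  obtain ⟨hcd, ε1, hε1, hR1⟩ := hR
  obtain ⟨hcd', ε2, hε2, hL1⟩ := hL
  have hcont : Continuous f := hf.2.cont
  obtain ⟨m, hm⟩ : ∃ m : ℤ, m = ⌈f p⌉ - 1 := ⟨_, rfl⟩
  have d1 : (m : ℝ) < f p ∧ f p ≤ m + 1 := by
    rw [hm]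
    push_cast
    constructor
    · linarith [Int.ceil_lt_add_one (f p)]
    · linarith [Int.le_ceil (f p)]
  have d2 : f p < ⌊f p⌋ + 1 := Int.lt_floor_add_one _
  have hev : ∀ᶠ z in nhds p, (m : ℝ) < f z ∧ f z < ⌊f p⌋ + 1 :=
    (hcont.continuousAt.eventually (lt_mem_nhds d1.1)).and
      (hcont.continuousAt.eventually (gt_mem_nhds d2))
  obtain ⟨ε3, hε3, h3⟩ := Metric.eventually_nhds_iff.1 hev
  have hright : ∀ z, p ≤ z → z < p + min ε1 (min ε2 ε3) → 0 ≤ z → z < 1 →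
      g z = (2 : ℝ) ^ k * z + (c - ⌊f p⌋) := by
    intro z h1 h2 h4 h5
    have b1 := min_le_left ε1 (min ε2 ε3)
    have b2 := (min_le_right ε1 (min ε2 ε3)).trans (min_le_right ε2 ε3)
    have hz := h3 (show dist z p < ε3 by
      rw [Real.dist_eq, abs_lt]; constructor <;> linarith)
    have hfz : f p ≤ f z := hf.1.monotone h1
    obtain ⟨-, e2⟩ := fr_10628 ⌊f p⌋ (f z) ((Int.floor_le _).trans hfz) hz.2
    rw [hg z h4 h5, e2, hR1 z h1 (by linarith)]
    ring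
  have hleft : ∀ z, p - min ε1 (min ε2 ε3) < z → z < p → 0 ≤ z → z < 1 →
      g z = (2 : ℝ) ^ k' * z + (c' - m) := by
    intro z h1 h2 h4 h5
    have b1 := (min_le_right ε1 (min ε2 ε3)).trans (min_le_left ε2 ε3)
    have b2 := (min_le_right ε1 (min ε2 ε3)).trans (min_le_right ε2 ε3)
    have hz := h3 (show dist z p < ε3 by
      rw [Real.dist_eq, abs_lt]; constructor <;> linarith)
    have hfz : f z < f p := hf.1 h2
    obtain ⟨-, e2⟩ := fr_10628 m (f z) hz.1.le (by linarith [d1.2])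
    rw [hg z h4 h5, e2, hL1 z (by linarith) h2.le]
    ring
  refine ⟨min ε1 (min ε2 ε3), by positivity, fun x y h1 h2 h4 h5 h6 => ?_⟩
  rcases le_or_gt y p with hy | hy
  · left
    refine ⟨k', c' - m, hcd'.sub (Dy.int m), fun z hz1 hz2 => ?_⟩
    exact hleft z (by linarith) (by linarith) (by linarith) (by linarith)
  rcases le_or_gt p x with hx | hx
  · left
    refine ⟨k, c - ⌊f p⌋, Dy.sub hcd (Dy.int _), fun z hz1 hz2 => ?_⟩
    exact hright z (by linarith) (by linarith) (by linarith) (by linarith)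
  by_cases hp : Dy p
  · right
    refine ⟨p, hx, hy, hp, ⟨k', c' - m, hcd'.sub (Dy.int m), fun z hz1 hz2 => ?_⟩,
      ⟨k, c - ⌊f p⌋, Dy.sub hcd (Dy.int _), fun z hz1 hz2 => ?_⟩⟩
    · exact hleft z (by linarith) (by linarith) (by linarith) (by linarith)
    · exact hright z (by linarith) (by linarith) (by linarith) (by linarith)
  · left
    obtain ⟨K, C, hRK, hLK⟩ := hnd hp
    obtain ⟨q1, q2⟩ := RG.unique hR0 hRK
    obtain ⟨q3, q4⟩ := LG.unique hL0 hLK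
    have hk : k = k' := q1.trans q3.symm
    have hc : c = c' := q2.trans q4.symm
    have hfp : ¬ Dy (f p) := fun h => hp ((hf.2 p).dy.1 h)
    have hm2 : ⌊f p⌋ = m := by
      refine Int.floor_eq_iff.2 ⟨d1.1.le, lt_of_le_of_ne d1.2 fun h => hfp ?_⟩
      rw [h]
      exact (Dy.int m).add Dy.one
    refine ⟨k, c - ⌊f p⌋, Dy.sub hcd (Dy.int _), fun z hz1 hz2 => ?_⟩
    rcases lt_or_ge z p with hz | hz
    · rw [hleft z (by linarith) hz (by linarith) (by linarith), hk, hc, hm2]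
    · exact hright z hz (by linarith) (by linarith) (by linarith)

theorem Gd_one_10628 (f : Equiv.Perm ℝ) (hf : f ∈ PLH) (g : ℝ → ℝ)
    (hg : ∀ x, 0 ≤ x → x < 1 → g x = Int.fract (f x)) : Gd_10628 g 1 := by
  have hloc := local_10628 f hf g hg
  choose ε hε hP using hloc
  obtain ⟨δ, hδ, hδ2⟩ := lebesgue_number_lemma_of_metric (s := Set.Icc (0 : ℝ) 1)
    (c := fun p : ℝ => Metric.ball p (ε p)) isCompact_Icc (fun p => Metric.isOpen_ball)
    (fun x _ => Set.mem_iUnion.2 ⟨x, Metric.mem_ball_self (hε x)⟩)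
  obtain ⟨N, hN⟩ := exists_pow_lt_of_lt_one hδ (show (1 / 2 : ℝ) < 1 by norm_num)
  have hN' : 1 / (2 : ℝ) ^ N < δ := by
    rw [one_div, inv_pow] at hN
    rwa [one_div]
  have h2N : (0 : ℝ) < 2 ^ N := by positivity
  have hind : ∀ j : ℕ, j ≤ 2 ^ N → Gd_10628 g ((j : ℝ) / 2 ^ N) := by
    intro j
    induction j with
    | zero =>
      intro _
      simpa using Gd_zero_10628 g
    | succ j ih =>
      intro hj
      have ih' := ih (by omega)
      obtain ⟨x, hx⟩ : ∃ x : ℝ, x = (j : ℝ) / 2 ^ N := ⟨_, rfl⟩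
      obtain ⟨y, hy⟩ : ∃ y : ℝ, y = ((j + 1 : ℕ) : ℝ) / 2 ^ N := ⟨_, rfl⟩
      have hyx : y = x + 1 / 2 ^ N := by
        rw [hy, hx]
        push_cast
        ring
      have hx0 : 0 ≤ x := by rw [hx]; positivity
      have hy1 : y ≤ 1 := by
        rw [hy, div_le_one h2N]
        exact_mod_cast hj
      have hxy : x < y := by
        rw [hyx]
        have : 0 < 1 / (2 : ℝ) ^ N := by positivity
        linarith
      obtain ⟨p, hp⟩ := hδ2 x ⟨hx0, by linarith⟩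
      have hxm : x ∈ Metric.ball p (ε p) := hp (Metric.mem_ball_self hδ)
      have hym : y ∈ Metric.ball p (ε p) := hp (by
        rw [Metric.mem_ball, Real.dist_eq, hyx, add_sub_cancel_left, abs_of_pos (by positivity)]
        exact hN')
      rw [Metric.mem_ball, Real.dist_eq, abs_lt] at hxm hym
      have hyd : Dy y := ⟨(j + 1 : ℕ), N, by rw [hy]; push_cast; rfl⟩
      rw [← hx] at ih'
      rw [← hy]
      rcases hP p x y (by linarith) hxy (by linarith) hx0 hy1 with h | ⟨q, h1, h2, h3, h4, h5⟩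
      · exact Gd_step_10628 g x y ih' hxy hyd h
      · exact Gd_step_10628 g q y (Gd_step_10628 g x q ih' h1 h3 h4) h2 hyd h5
  have := hind (2 ^ N) le_rfl
  rw [Nat.cast_pow, Nat.cast_ofNat, div_self h2N.ne'] at this
  exact this

theorem Pi_mem_10628 (f : TT) : (Pi f) ∈ ThV.VSet ∧ ∃ t ∈ Set.Ico (0:ℝ) 1,
          ContinuousOn (⇑(Pi f)) (Set.Ico (0:ℝ) t) ∧ ContinuousOn (⇑(Pi f)) (Set.Ico t 1) ∧
          StrictMonoOn (⇑(Pi f)) (Set.Ico (0:ℝ) t) ∧ StrictMonoOn (⇑(Pi f)) (Set.Ico t 1) ∧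
          (Pi f) t = 0 := by
  have hfT := f.2
  have hfP : (f : Equiv.Perm ℝ) ∈ PLH := hfT.1
  have hmono : StrictMono (f : Equiv.Perm ℝ) := hfP.1
  have hcont : Continuous (f : Equiv.Perm ℝ) := hfP.2.cont
  refine ⟨⟨fun x hx => Pi_out f hx, ?_⟩, ?_⟩
  · exact Gd_one_10628 f hfP (Pi f) (fun x h0 h1 => Pi_in f ⟨h0, h1⟩)
  · obtain ⟨t, ht⟩ : ∃ t, Pi f t = 0 := ⟨(Pi f).symm 0, (Pi f).apply_symm_apply 0⟩
    have ht01 : t ∈ Set.Ico (0 : ℝ) 1 := by
      by_contra hc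
      have h1 := Pi_out f hc
      rw [ht] at h1
      rw [← h1] at hc
      exact hc ⟨le_rfl, zero_lt_one⟩
    have ht2 := Pi_in f ht01
    rw [ht] at ht2
    obtain ⟨n, hn⟩ : ∃ n : ℤ, (n : ℝ) = (f : Equiv.Perm ℝ) t := by
      refine ⟨⌊(f : Equiv.Perm ℝ) t⌋, ?_⟩
      have := Int.floor_add_fract ((f : Equiv.Perm ℝ) t)
      linarith
    have hB : ∀ x ∈ Set.Ico t 1, Pi f x = (f : Equiv.Perm ℝ) x - n := by
      intro x hx
      rw [Pi_in f ⟨ht01.1.trans hx.1, hx.2⟩]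
      have h1 : (f : Equiv.Perm ℝ) t ≤ (f : Equiv.Perm ℝ) x := hmono.monotone hx.1
      have h2 : (f : Equiv.Perm ℝ) x < (f : Equiv.Perm ℝ) (t + 1) := hmono (by
        have := ht01.1
        linarith [hx.2])
      rw [hfT.2 t] at h2
      exact (fr_10628 n _ (by linarith) (by linarith)).2
    have hA : ∀ x ∈ Set.Ico 0 t, Pi f x = (f : Equiv.Perm ℝ) x - ((n - 1 : ℤ) : ℝ) := by
      intro x hx
      rw [Pi_in f ⟨hx.1, hx.2.trans ht01.2⟩]
      have h1 : (f : Equiv.Perm ℝ) x < (f : Equiv.Perm ℝ) t := hmono hx.2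
      have h2 : (f : Equiv.Perm ℝ) (t - 1) < (f : Equiv.Perm ℝ) x := hmono (by
        have := ht01.2
        linarith [hx.1])
      have h3 := hfT.2 (t - 1)
      rw [sub_add_cancel] at h3
      exact (fr_10628 (n - 1) _ (by push_cast; linarith) (by push_cast; linarith)).2
    refine ⟨t, ht01, ?_, ?_, ?_, ?_, ht⟩
    · exact (ContinuousOn.congr (f := fun x => (f : Equiv.Perm ℝ) x - ((n - 1 : ℤ) : ℝ))
        (hcont.sub continuous_const).continuousOn hA)
    · exact (ContinuousOn.congr (f := fun x => (f : Equiv.Perm ℝ) x - (n : ℝ))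
        (hcont.sub continuous_const).continuousOn hB)
    · intro x hx y hy hxy
      rw [hA x hx, hA y hy]
      have := hmono hxy
      linarith
    · intro x hx y hy hxy
      rw [hB x hx, hB y hy]
      have := hmono hxy
      linarith


/-- the real model of `T` -/
theorem T_eq : Subgroup.closure {σ : Equiv.Perm ℝ |
        σ ∈ Subgroup.closure ThV.VSet ∧ ∃ t ∈ Set.Ico (0:ℝ) 1,
          ContinuousOn (⇑σ) (Set.Ico (0:ℝ) t) ∧ ContinuousOn (⇑σ) (Set.Ico t 1) ∧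
          StrictMonoOn (⇑σ) (Set.Ico (0:ℝ) t) ∧ StrictMonoOn (⇑σ) (Set.Ico t 1) ∧
          σ t = 0} = Pi.range := by
  have hV : ∀ σ : Equiv.Perm ℝ, σ ∈ Subgroup.closure ThV.VSet ↔ σ ∈ ThV.VSet := by
    intro σ
    have h := ThV.closure_VSet
    rw [← SetLike.mem_coe, h]
  apply le_antisymm
  · rw [Subgroup.closure_le]
    rintro σ ⟨hσ, t, ht, c0, c1, m0, m1, hσt⟩
    rw [hV] at hσ
    obtain ⟨F, hF, hFx⟩ := lift_10628 σ hσ t ht c1 m0 m1 hσt
    rw [SetLike.mem_coe, MonoidHom.mem_range]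
    refine ⟨⟨F, hF⟩, ?_⟩
    ext x
    by_cases hx : x ∈ Set.Ico (0 : ℝ) 1
    · rw [Pi_in _ hx]
      change Int.fract (F x) = σ x
      have h1 : Int.fract x = x := Int.fract_eq_self.2 ⟨hx.1, hx.2⟩
      rw [hFx, h1, Int.fract_intCast_add]
      refine Int.fract_eq_self.2 ?_
      by_contra hc
      have h2 : σ x ∉ Set.Ico (0 : ℝ) 1 := hc
      have h3 := hσ.1 _ h2
      have h4 := σ.injective h3
      rw [h4] at h2
      exact h2 hx
    · rw [Pi_out _ hx, hσ.1 x hx]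
  · rintro σ hσ
    rw [MonoidHom.mem_range] at hσ
    obtain ⟨f, rfl⟩ := hσ
    obtain ⟨h1, h2⟩ := Pi_mem_10628 f
    exact Subgroup.subset_closure ⟨(hV _).2 h1, h2⟩



/-! #### r7 -/


theorem TT_add_int_10636 (f : TT) (n : ℤ) (x : ℝ) :
    (f : Equiv.Perm ℝ) (x + n) = (f : Equiv.Perm ℝ) x + n := by
  have h1 : ∀ x, (f : Equiv.Perm ℝ) (x + 1) = (f : Equiv.Perm ℝ) x + 1 := f.2.2
  induction n using Int.induction_on with
  | zero => simp
  | succ k ih =>
    have h2 := h1 (x + (k : ℤ))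
    rw [ih] at h2
    push_cast at h2 ⊢
    rw [← add_assoc, h2, add_assoc]
  | pred k ih =>
    have h2 := h1 (x + ((-(k : ℤ) - 1 : ℤ) : ℝ))
    have h3 : x + ((-(k : ℤ) - 1 : ℤ) : ℝ) + 1 = x + ((-(k : ℤ) : ℤ) : ℝ) := by
      push_cast; ring
    rw [h3, ih] at h2
    push_cast at h2 ⊢
    linarith

/-- `Pi` only forgets integer translations -/
theorem Pi_eq {f g : TT} (h : Pi f = Pi g) :
    ∃ n : ℤ, ∀ x, (f : Equiv.Perm ℝ) x = (g : Equiv.Perm ℝ) x + n := by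
  have h1 : ∀ x : ℝ, ∃ z : ℤ, (f : Equiv.Perm ℝ) x - (g : Equiv.Perm ℝ) x = z := by
    intro x
    have hx : Int.fract x ∈ Set.Ico (0:ℝ) 1 := ⟨Int.fract_nonneg x, Int.fract_lt_one x⟩
    have h2 : Int.fract ((f : Equiv.Perm ℝ) (Int.fract x)) =
        Int.fract ((g : Equiv.Perm ℝ) (Int.fract x)) := by
      rw [← Pi_in f hx, ← Pi_in g hx, h]
    obtain ⟨z, hz⟩ := Int.fract_eq_fract.mp h2
    refine ⟨z, ?_⟩
    have h3 : x = Int.fract x + (⌊x⌋ : ℤ) := (Int.fract_add_floor x).symm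
    rw [h3, TT_add_int_10636 f, TT_add_int_10636 g, ← hz]
    ring
  choose k hk using h1
  have hcont : Continuous (fun x => (f : Equiv.Perm ℝ) x - (g : Equiv.Perm ℝ) x) :=
    (PLf.cont f.2.1.2).sub (PLf.cont g.2.1.2)
  have hkc : Continuous k := by
    rw [Int.isClosedEmbedding_coe_real.isInducing.continuous_iff]
    have : (Int.cast ∘ k : ℝ → ℝ) = fun x => (f : Equiv.Perm ℝ) x - (g : Equiv.Perm ℝ) x := by
      funext x; exact (hk x).symm
    rw [this]; exact hcont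
  refine ⟨k 0, fun x => ?_⟩
  have h4 : k x = k 0 := PreconnectedSpace.constant inferInstance hkc
  have h5 := hk x
  rw [h4] at h5
  linarith

theorem Pi_eq_of {f g : TT} {n : ℤ} (h : ∀ x, (f : Equiv.Perm ℝ) x = (g : Equiv.Perm ℝ) x + n) :
    Pi f = Pi g := by
  apply Equiv.ext
  intro x
  by_cases hx : x ∈ Set.Ico (0:ℝ) 1
  · rw [Pi_in f hx, Pi_in g hx, h x, Int.fract_add_intCast]
  · rw [Pi_out f hx, Pi_out g hx]



/-- the rotation by one half is not a commutator -/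
theorem no_comm' {A B : Equiv.Perm ℝ} (hA : A ∈ TT) (hB : B ∈ TT) (h : ℤ)
    (hAB : ∀ x, A (B x) = B (A x) + h + 1 / 2) : False :=
  Pool.Agent.Helper283.TL.no_comm hA hB h hAB


/-! #### r8 -/


theorem dR_one_10658 (x : ℝ) : dR (1 : Equiv.Perm ℝ) x = 0 := by
  have h := dR_mul (f := 1) (g := 1) PLH.one_mem PLH.one_mem x
  rw [mul_one, Equiv.Perm.one_apply] at h
  omega

theorem dL_one_10658 (x : ℝ) : dL (1 : Equiv.Perm ℝ) x = 0 := by
  have h := dL_mul (f := 1) (g := 1) PLH.one_mem PLH.one_mem x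
  rw [mul_one, Equiv.Perm.one_apply] at h
  omega

/-- elements of `F` which are trivial near the end points -/
noncomputable def H_10658 : Subgroup (Equiv.Perm ℝ) where
  carrier := {e | e ∈ Sup 0 1 ∧ dR e 0 = 0 ∧ dL e 1 = 0}
  mul_mem' := fun {a b} ha hb => by
    refine ⟨(Sup 0 1).mul_mem ha.1 hb.1, ?_, ?_⟩
    · rw [dR_mul ha.1.1 hb.1.1, hb.1.2 0 (Or.inl le_rfl), ha.2.1, hb.2.1, add_zero]
    · rw [dL_mul ha.1.1 hb.1.1, hb.1.2 1 (Or.inr le_rfl), ha.2.2, hb.2.2, add_zero]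
  one_mem' := ⟨(Sup 0 1).one_mem, dR_one_10658 0, dL_one_10658 1⟩
  inv_mem' := fun {a} ha => by
    have hi : a⁻¹ ∈ Sup 0 1 := (Sup 0 1).inv_mem ha.1
    refine ⟨hi, ?_, ?_⟩
    · have h := dR_mul ha.1.1 hi.1 0
      rw [mul_inv_cancel, dR_one_10658, hi.2 0 (Or.inl le_rfl), ha.2.1, zero_add] at h
      exact h.symm
    · have h := dL_mul ha.1.1 hi.1 1
      rw [mul_inv_cancel, dL_one_10658, hi.2 1 (Or.inr le_rfl), ha.2.2, zero_add] at h
      exact h.symm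

theorem dR_inv_10658 {a : Equiv.Perm ℝ} (ha : a ∈ Sup 0 1) :
    dR (a⁻¹ : Equiv.Perm ℝ) 0 = - dR a 0 := by
  have hi : a⁻¹ ∈ Sup 0 1 := (Sup 0 1).inv_mem ha
  have h := dR_mul ha.1 hi.1 0
  rw [mul_inv_cancel, dR_one_10658, hi.2 0 (Or.inl le_rfl)] at h
  omega

theorem dL_inv_10658 {a : Equiv.Perm ℝ} (ha : a ∈ Sup 0 1) :
    dL (a⁻¹ : Equiv.Perm ℝ) 1 = - dL a 1 := by
  have hi : a⁻¹ ∈ Sup 0 1 := (Sup 0 1).inv_mem ha
  have h := dL_mul ha.1 hi.1 1
  rw [mul_inv_cancel, dL_one_10658, hi.2 1 (Or.inr le_rfl)] at h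
  omega

theorem comm_le_10658 : ⁅Sup 0 1, Sup 0 1⁆ ≤ H_10658 := by
  rw [Subgroup.commutator_le]
  intro a ha b hb
  have hai : a⁻¹ ∈ Sup 0 1 := (Sup 0 1).inv_mem ha
  have hbi : b⁻¹ ∈ Sup 0 1 := (Sup 0 1).inv_mem hb
  have hab : a * b ∈ Sup 0 1 := (Sup 0 1).mul_mem ha hb
  have haba : a * b * a⁻¹ ∈ Sup 0 1 := (Sup 0 1).mul_mem hab hai
  have h4 : a * b * a⁻¹ * b⁻¹ ∈ Sup 0 1 := (Sup 0 1).mul_mem haba hbi
  rw [commutatorElement_def]
  refine ⟨h4, ?_, ?_⟩
  · rw [dR_mul haba.1 hbi.1, hbi.2 0 (Or.inl le_rfl), dR_mul hab.1 hai.1,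
      hai.2 0 (Or.inl le_rfl), dR_mul ha.1 hb.1, hb.2 0 (Or.inl le_rfl), dR_inv_10658 ha,
      dR_inv_10658 hb]
    ring
  · rw [dL_mul haba.1 hbi.1, hbi.2 1 (Or.inr le_rfl), dL_mul hab.1 hai.1,
      hai.2 1 (Or.inr le_rfl), dL_mul ha.1 hb.1, hb.2 1 (Or.inr le_rfl), dL_inv_10658 ha,
      dL_inv_10658 hb]
    ring

theorem exists_Sup_10658 {e : Equiv.Perm ℝ} (he : e ∈ H_10658) :
    ∃ ε : ℝ, 0 < ε ∧ e ∈ Sup ε (1 - ε) := by
  obtain ⟨⟨hP, hfix⟩, h0, h1⟩ := he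
  obtain ⟨k, c, hR⟩ := (hP.2 0).1
  obtain ⟨k', c', hL⟩ := (hP.2 1).2.1
  have hk : k = 0 := by rw [← dR_eq hR]; exact h0
  have hk' : k' = 0 := by rw [← dL_eq hL]; exact h1
  subst hk
  subst hk'
  obtain ⟨-, ε1, hε1, hR⟩ := hR
  obtain ⟨-, ε2, hε2, hL⟩ := hL
  have hc : c = 0 := by
    have h := hR 0 le_rfl (by linarith)
    rw [hfix 0 (Or.inl le_rfl)] at h
    linarith
  have hc' : c' = 0 := by
    have h := hL 1 (by linarith) le_rfl
    rw [hfix 1 (Or.inr le_rfl)] at h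
    rw [zpow_zero] at h
    linarith
  refine ⟨min ε1 ε2 / 2, by positivity, hP, fun x hx => ?_⟩
  have m1 : min ε1 ε2 ≤ ε1 := min_le_left _ _
  have m2 : min ε1 ε2 ≤ ε2 := min_le_right _ _
  have m0 : 0 < min ε1 ε2 := lt_min hε1 hε2
  rcases hx with hx | hx
  · rcases le_total x 0 with h | h
    · exact hfix x (Or.inl h)
    · rw [hR x h (by linarith), hc, zpow_zero]
      ring
  · rcases le_total 1 x with h | h
    · exact hfix x (Or.inr h)
    · rw [hL x (by linarith) h, hc', zpow_zero]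
      ring

theorem Sup_le_comm_10658 {ε : ℝ} (hε : 0 < ε) {h : Equiv.Perm ℝ} (hh : h ∈ Sup ε (1 - ε)) :
    h ∈ ⁅Sup 0 1, Sup 0 1⁆ := by
  have h1 : h ∈ Sup 0 1 := Sup.mono hε.le (by linarith) hh
  have h2 := mem_commutator hε ⟨h, h1⟩ hh
  rw [← Subgroup.map_subtype_commutator]
  exact ⟨_, h2, rfl⟩

theorem Dy_frac_10658 (m : ℤ) (e : ℕ) : Dy ((m : ℝ) / 2 ^ e) := ⟨m, e, rfl⟩

theorem exists_bump_10658 : ∃ h ∈ Sup (1 / 4) (3 / 4), h ≠ 1 := by
  have d1 : Dy (1 / 4) := ⟨1, 2, by norm_num⟩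
  have d2 : Dy (1 / 2) := ⟨1, 1, by norm_num⟩
  have d3 : Dy (3 / 4) := ⟨3, 2, by norm_num⟩
  have d4 : Dy (5 / 8) := ⟨5, 3, by norm_num⟩
  obtain ⟨e1, he1, a1, b1⟩ := PLH_interp d1 d2 d1 d4 (by norm_num) (by norm_num)
  obtain ⟨e2, he2, a2, b2⟩ := PLH_interp d2 d3 d4 d3 (by norm_num) (by norm_num)
  obtain ⟨f1, hf1, u1, v1⟩ := PLH_glue (f := 1) PLH.one_mem he1 d1 (by rw [a1]; rfl)
  obtain ⟨f2, hf2, u2, v2⟩ := PLH_glue hf1 he2 d2 (by rw [v1 _ (by norm_num), a2, b1])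
  obtain ⟨f3, hf3, u3, v3⟩ := PLH_glue (g := 1) hf2 PLH.one_mem d3
    (by rw [v2 _ (by norm_num), b2]; rfl)
  refine ⟨f3, ⟨hf3, fun x hx => ?_⟩, fun hc => ?_⟩
  · rcases hx with hx | hx
    · rw [u3 x (by linarith), u2 x (by linarith), u1 x hx]
      rfl
    · rw [v3 x hx]
      rfl
  · have h1 : f3 (1 / 2) = 5 / 8 := by
      rw [u3 _ (by norm_num), v2 _ le_rfl, a2]
    rw [hc, Equiv.Perm.one_apply] at h1
    norm_num at h1

/-- the clause on `F` -/
theorem clause_F : ⁅⁅Sup 0 1, Sup 0 1⁆, ⁅Sup 0 1, Sup 0 1⁆⁆ ≠ (⊥ : Subgroup (Equiv.Perm ℝ)) ∧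
    ∀ g ∈ ⁅⁅Sup 0 1, Sup 0 1⁆, ⁅Sup 0 1, Sup 0 1⁆⁆, ∃ a ∈ ⁅Sup 0 1, Sup 0 1⁆,
      ∃ b ∈ ⁅Sup 0 1, Sup 0 1⁆, g = a * b * a⁻¹ * b⁻¹ := by
  constructor
  · obtain ⟨h, hh, hne⟩ := exists_bump_10658
    have d1 : Dy (1 / 8) := ⟨1, 3, by norm_num⟩
    have d2 : Dy (7 / 8) := ⟨7, 3, by norm_num⟩
    obtain ⟨a, ha, c, hc, hac⟩ := comm_Sup d1 d2 (ε := 1 / 8) (by norm_num)
      (Sup.mono (by norm_num) (by norm_num) hh)
    have ha' : a ∈ ⁅Sup 0 1, Sup 0 1⁆ :=
      Sup_le_comm_10658 (ε := 1 / 8) (by norm_num) (Sup.mono le_rfl (by norm_num) ha)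
    have hc' : c ∈ ⁅Sup 0 1, Sup 0 1⁆ :=
      Sup_le_comm_10658 (ε := 1 / 8) (by norm_num) (Sup.mono le_rfl (by norm_num) hc)
    intro hbot
    have h1 := Subgroup.commutator_mem_commutator (Subgroup.inv_mem _ ha') hc'
    rw [commutatorElement_def, inv_inv, ← hac, hbot, Subgroup.mem_bot] at h1
    exact hne h1
  · intro g hg
    have hle : ⁅⁅Sup 0 1, Sup 0 1⁆, ⁅Sup 0 1, Sup 0 1⁆⁆ ≤ ⁅Sup 0 1, Sup 0 1⁆ := by
      rw [Subgroup.commutator_le]
      intro x hx y hy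
      rw [commutatorElement_def]
      exact Subgroup.mul_mem _ (Subgroup.mul_mem _ (Subgroup.mul_mem _ hx hy)
        (Subgroup.inv_mem _ hx)) (Subgroup.inv_mem _ hy)
    obtain ⟨ε, hε, hgε⟩ := exists_Sup_10658 (comm_le_10658 (hle hg))
    obtain ⟨s, hs, hs0, hsε⟩ := Dy.exists_between hε
    obtain ⟨a, ha, c, hc, hac⟩ := comm_Sup hs (Dy.sub Dy.one hs) (ε := ε - s) (by linarith)
      (Sup.mono (by linarith) (by linarith) hgε)
    exact ⟨a⁻¹, Subgroup.inv_mem _ (Sup_le_comm_10658 hs0 ha), c, Sup_le_comm_10658 hs0 hc,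
      by rw [inv_inv]; exact hac⟩



/-! #### r9 -/


theorem key_10672 {g : Equiv.Perm ℝ} (hg : g ∈ Pi.range) : ∃ a ∈ Pi.range, ∃ b ∈ Pi.range,
    ∃ c ∈ Pi.range, ∃ d ∈ Pi.range, g = (a * b * a⁻¹ * b⁻¹) * (c * d * c⁻¹ * d⁻¹) := by
  obtain ⟨M, rfl⟩ := hg
  obtain ⟨m, a, ha, b, hb, c, hc, d, hd, h⟩ := TT_two M.2
  have hw : Pi ((⟨a, ha⟩ * ⟨b, hb⟩ * ⟨a, ha⟩⁻¹ * ⟨b, hb⟩⁻¹) *
      (⟨c, hc⟩ * ⟨d, hd⟩ * ⟨c, hc⟩⁻¹ * ⟨d, hd⟩⁻¹)) = Pi M := Pi_eq_of (n := m) h
  refine ⟨Pi ⟨a, ha⟩, ⟨_, rfl⟩, Pi ⟨b, hb⟩, ⟨_, rfl⟩, Pi ⟨c, hc⟩, ⟨_, rfl⟩, Pi ⟨d, hd⟩,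
    ⟨_, rfl⟩, ?_⟩
  rw [← hw]
  simp only [map_mul, map_inv]

theorem half_10672 : tr (1 / 2) ∈ TT := by
  refine ⟨tr_mem Dy.one.half, fun x => ?_⟩
  rw [tr_apply, tr_apply]; ring

/-- the clause on `T` -/
theorem clause_T : (∀ g ∈ ⁅Pi.range, Pi.range⁆, ∃ a ∈ Pi.range, ∃ b ∈ Pi.range, ∃ c ∈ Pi.range,
      ∃ d ∈ Pi.range, g = (a * b * a⁻¹ * b⁻¹) * (c * d * c⁻¹ * d⁻¹)) ∧
    ∃ g ∈ ⁅Pi.range, Pi.range⁆, ∀ a ∈ Pi.range, ∀ b ∈ Pi.range, g ≠ a * b * a⁻¹ * b⁻¹ := by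
  constructor
  · intro g hg
    apply key_10672
    have hle : ⁅Pi.range, Pi.range⁆ ≤ Pi.range := by
      rw [Subgroup.commutator_le]
      intro a ha b hb
      rw [commutatorElement_def]
      exact mul_mem (mul_mem (mul_mem ha hb) (inv_mem ha)) (inv_mem hb)
    exact hle hg
  · refine ⟨Pi ⟨tr (1 / 2), half_10672⟩, ?_, ?_⟩
    · obtain ⟨a, ha, b, hb, c, hc, d, hd, h⟩ :=
        key_10672 (g := Pi ⟨tr (1 / 2), half_10672⟩) ⟨_, rfl⟩
      rw [h]
      have h1 := Subgroup.commutator_mem_commutator ha hb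
      have h2 := Subgroup.commutator_mem_commutator hc hd
      rw [commutatorElement_def] at h1 h2
      exact mul_mem h1 h2
    · rintro _ ⟨A, rfl⟩ _ ⟨B, rfl⟩ h
      have h1 : Pi ⟨tr (1 / 2), half_10672⟩ = Pi (A * B * A⁻¹ * B⁻¹) := by
        rw [h]; simp only [map_mul, map_inv]
      obtain ⟨n, hn⟩ := Pi_eq h1
      refine no_comm' A.2 B.2 (-n) fun x => ?_
      have h2 := hn ((B : Equiv.Perm ℝ) ((A : Equiv.Perm ℝ) x))
      have h3 : ((A * B * A⁻¹ * B⁻¹ : TT) : Equiv.Perm ℝ) ((B : Equiv.Perm ℝ) ((A : Equiv.Perm ℝ) x)) =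
          (A : Equiv.Perm ℝ) ((B : Equiv.Perm ℝ) x) := by
        simp [Equiv.Perm.mul_apply]
      rw [h3, tr_apply] at h2
      push_cast
      linarith



end Pool.Agent.Helper283.PL
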